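import Mathlib

open scoped BigOperators

namespace Pool.Agent.KalaiFew

noncomputable section

/-- real value of a ternary digit -/
def sg (c : ZMod 3) : ℝ := if c = 0 then 0 else if c = 1 then 1 else -1

/-- realizable sign vectors for the hyperplane `∑ a i * y i = 0` -/
def Real' {n : ℕ} (a : Fin n → ℝ) (s : Fin n → ZMod 3) : Prop :=
  ∃ y : Fin n → ℝ, (∀ i, s i = 0 → |y i| < 1) ∧ (∀ i, s i ≠ 0 → y i = sg (s i)) ∧
    ∑ i, a i * y i = 0

lemma three_aux (x y z : ℝ) (hx : 0 ≤ x) (hy : 0 ≤ y) (hz : 0 ≤ z) :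
    (|y - z| < x ∨ (x = 0 ∧ y = z)) ∨ (|z - x| < y ∨ (y = 0 ∧ z = x)) ∨
      (|x - y| < z ∨ (z = 0 ∧ x = y)) := by
  by_contra hcon
  simp only [not_or, not_lt, not_and] at hcon
  obtain ⟨⟨h1, h1'⟩, ⟨h2, h2'⟩, h3, h3'⟩ := hcon
  rcases abs_cases (y - z) with ⟨e1, g1⟩ | ⟨e1, g1⟩ <;>
  rcases abs_cases (z - x) with ⟨e2, g2⟩ | ⟨e2, g2⟩ <;>
  rcases abs_cases (x - y) with ⟨e3, g3⟩ | ⟨e3, g3⟩ <;>
  first
    | (exact h1' (by linarith) (by linarith))
    | (exact h2' (by linarith) (by linarith))
    | (exact h3' (by linarith) (by linarith))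

lemma three_weights (w : ZMod 3 → ℝ) (hw : ∀ c, 0 ≤ w c) :
    ∃ j, |w (j + 1) - w (j - 1)| < w j ∨ (w j = 0 ∧ w (j + 1) = w (j - 1)) := by
  have e1 : (0 : ZMod 3) - 1 = 2 := by decide
  have e2 : (1 : ZMod 3) + 1 = 2 := by decide
  have e3 : (2 : ZMod 3) + 1 = 0 := by decide
  have e4 : (2 : ZMod 3) - 1 = 1 := by decide
  rcases three_aux (w 0) (w 1) (w 2) (hw 0) (hw 1) (hw 2) with h | h | h
  · exact ⟨0, by rw [zero_add, e1]; exact h⟩
  · exact ⟨1, by rw [e2, sub_self]; exact h⟩
  · exact ⟨2, by rw [e3, e4]; exact h⟩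

/-- shift direction -/
def al {n : ℕ} (a : Fin n → ℝ) (i : Fin n) : ZMod 3 := if 0 ≤ a i then 1 else -1

def ep {n : ℕ} (a : Fin n → ℝ) (i : Fin n) : ℝ := if 0 ≤ a i then 1 else -1

lemma a_mul_ep {n : ℕ} (a : Fin n → ℝ) (i : Fin n) : a i * ep a i = |a i| := by
  unfold ep
  split_ifs with h
  · rw [mul_one, abs_of_nonneg h]
  · push_neg at h
    rw [abs_of_neg h]; ring

lemma shift_exists {n : ℕ} (a : Fin n → ℝ) (s : Fin n → ZMod 3) :
    ∃ j : ZMod 3, Real' a (fun i => s i + j * al a i) := by
  classical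
  set c : Fin n → ZMod 3 := fun i => -(s i) * al a i with hc
  set W : ZMod 3 → ℝ := fun k => ∑ i, if c i = k then |a i| else 0 with hW
  have hWn : ∀ k, 0 ≤ W k := fun k =>
    Finset.sum_nonneg fun i _ => by split_ifs <;> positivity
  obtain ⟨j, hj⟩ := three_weights W hWn
  -- choose t
  obtain ⟨t, ht1, ht2⟩ : ∃ t : ℝ, |t| < 1 ∧ t * W j + W (j - 1) - W (j + 1) = 0 := by
    rcases hj with h | ⟨h0, h1⟩
    · have hpos : 0 < W j := lt_of_le_of_lt (abs_nonneg _) h
      refine ⟨(W (j + 1) - W (j - 1)) / W j, ?_, ?_⟩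
      · rw [abs_div, abs_of_pos hpos, div_lt_one hpos]; exact h
      · field_simp; ring
    · exact ⟨0, by simp, by rw [h0, h1]; ring⟩
  refine ⟨j, fun i => if c i = j then t * ep a i else if c i = j - 1 then ep a i else -ep a i,
    ?_, ?_, ?_⟩
  · intro i hi
    replace hi : s i + j * al a i = 0 := hi
    have hci : c i = j := by
      have hal : al a i = 1 ∨ al a i = -1 := by unfold al; split_ifs <;> simp
      simp only [hc]
      rcases hal with h | h <;> rw [h] at hi ⊢
      · linear_combination -hi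
      · linear_combination hi
    simp only [hci, if_true]
    have : |ep a i| = 1 := by unfold ep; split_ifs <;> simp
    rw [abs_mul, this, mul_one]; exact ht1
  · intro i hi
    replace hi : s i + j * al a i ≠ 0 := hi
    have hci : c i ≠ j := by
      intro hci
      apply hi
      rw [← hci]
      simp only [hc]
      have hal : al a i * al a i = 1 := by unfold al; split_ifs <;> decide
      linear_combination -(s i) * hal
    simp only [hci, if_false]
    have key : ∀ (x jj : ZMod 3) (b : Bool),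
        (-(x) * (if b then 1 else -1) ≠ jj) →
        ((if -(x) * (if b then (1 : ZMod 3) else -1) = jj - 1 then true else false) =
          decide ((x + jj * (if b then (1 : ZMod 3) else -1)) = (if b then 1 else -1))) ∧
        ((if -(x) * (if b then (1 : ZMod 3) else -1) = jj - 1 then false else true) =
          decide ((x + jj * (if b then (1 : ZMod 3) else -1)) = -(if b then 1 else -1))) := by
      decide
    by_cases hb : 0 ≤ a i
    · have hal : al a i = 1 := by simp [al, hb]
      have hep : ep a i = 1 := by simp [ep, hb]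
      have hk := key (s i) j true (by simpa [hc, hal] using hci)
      simp only [if_true] at hk
      simp only [hc, hal, hep]
      by_cases hh : -(s i) * 1 = j - 1
      · rw [if_pos hh]
        rw [if_pos hh, if_pos hh] at hk
        have h1 : s i + j * 1 = 1 := of_decide_eq_true hk.1.symm
        rw [h1]; simp [sg]
      · rw [if_neg hh]
        rw [if_neg hh, if_neg hh] at hk
        have h1 : s i + j * 1 = -1 := of_decide_eq_true hk.2.symm
        rw [h1]
        have n0 : (-1 : ZMod 3) ≠ 0 := by decide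
        have n1 : (-1 : ZMod 3) ≠ 1 := by decide
        simp [sg, n0, n1]
    · have hal : al a i = -1 := by simp [al, hb]
      have hep : ep a i = -1 := by simp [ep, hb]
      have hk := key (s i) j false (by simpa [hc, hal] using hci)
      simp only [Bool.false_eq_true, if_false] at hk
      simp only [hc, hal, hep]
      have n0 : (-1 : ZMod 3) ≠ 0 := by decide
      have n1 : (-1 : ZMod 3) ≠ 1 := by decide
      by_cases hh : -(s i) * -1 = j - 1
      · rw [if_pos hh]
        rw [if_pos hh, if_pos hh] at hk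
        have h1 : s i + j * -1 = -1 := of_decide_eq_true hk.1.symm
        rw [h1]; simp [sg, n0, n1]
      · rw [if_neg hh]
        rw [if_neg hh, if_neg hh] at hk
        have h1 : s i + j * -1 = - -1 := of_decide_eq_true hk.2.symm
        rw [h1]
        simp [sg]
  · have hterm : ∀ i, a i * (if c i = j then t * ep a i else if c i = j - 1 then ep a i
        else -ep a i) = t * (if c i = j then |a i| else 0) +
          (if c i = j - 1 then |a i| else 0) - (if c i = j + 1 then |a i| else 0) := by
      intro i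
      have tri : ∀ x jj : ZMod 3, (x = jj ∧ x ≠ jj - 1 ∧ x ≠ jj + 1) ∨
          (x ≠ jj ∧ x = jj - 1 ∧ x ≠ jj + 1) ∨ (x ≠ jj ∧ x ≠ jj - 1 ∧ x = jj + 1) := by decide
      rcases tri (c i) j with ⟨h1, h2, h3⟩ | ⟨h1, h2, h3⟩ | ⟨h1, h2, h3⟩
      · rw [if_pos h1, if_pos h1, if_neg h2, if_neg h3, ← a_mul_ep]; ring
      · rw [if_neg h1, if_pos h2, if_neg h1, if_pos h2, if_neg h3, ← a_mul_ep]; ring
      · rw [if_neg h1, if_neg h2, if_neg h1, if_neg h2, if_pos h3, ← a_mul_ep]; ring
    simp only [hterm]
    rw [Finset.sum_sub_distrib, Finset.sum_add_distrib, ← Finset.mul_sum]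
    exact ht2

lemma card_real {n : ℕ} (a : Fin n → ℝ) :
    3 ^ n ≤ 3 * {s : Fin n → ZMod 3 | Real' a s}.ncard := by
  classical
  set R : Finset (Fin n → ZMod 3) := Finset.univ.filter (fun s => Real' a s) with hR
  have hcov : (Finset.univ : Finset (Fin n → ZMod 3)) ⊆
      (Finset.univ : Finset (ZMod 3)).biUnion
        (fun j => R.image (fun s => fun i => s i - j * al a i)) := by
    intro s _
    obtain ⟨j, hj⟩ := shift_exists a s
    rw [Finset.mem_biUnion]
    refine ⟨j, Finset.mem_univ _, ?_⟩
    rw [Finset.mem_image]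
    refine ⟨fun i => s i + j * al a i, ?_, ?_⟩
    · rw [hR, Finset.mem_filter]; exact ⟨Finset.mem_univ _, hj⟩
    · funext i; ring
  have h1 := Finset.card_le_card hcov
  have h2 : ((Finset.univ : Finset (ZMod 3)).biUnion
        (fun j => R.image (fun s => fun i => s i - j * al a i))).card ≤ 3 * R.card := by
    refine (Finset.card_biUnion_le_card_mul _ _ R.card ?_).trans ?_
    · intro j _; exact Finset.card_image_le
    · simp
  have h3 : (Finset.univ : Finset (Fin n → ZMod 3)).card = 3 ^ n := by simp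
  have h4 : {s : Fin n → ZMod 3 | Real' a s}.ncard = R.card := by
    rw [← Set.ncard_coe_finset]
    congr 1
    ext s; simp [hR]
  rw [h4]
  omega

end

end Pool.Agent.KalaiFew
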