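import Mathlib
import Pool.Agent.KalaiFewCore

open scoped BigOperators RealInnerProductSpace

namespace Pool.Agent.KalaiFew

noncomputable section

variable {d : ℕ}

abbrev E (d : ℕ) := EuclideanSpace ℝ (Fin d)

/-- Every injective linear map into `ℝ^(d+1)` from a `d`-dimensional space is onto a hyperplane
(contained in one is enough for us: its image contains a hyperplane). -/
lemma exists_hyperplane (T : (E d) →ₗ[ℝ] (Fin (d + 1) → ℝ)) (hT : Function.Injective T) :
    ∃ a : Fin (d + 1) → ℝ, ∀ y : Fin (d + 1) → ℝ, ∑ i, a i * y i = 0 → ∃ z, T z = y := by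
  classical
  have hfr : Module.finrank ℝ (LinearMap.range T) = d := by
    rw [LinearMap.finrank_range_of_inj hT]; simp
  have hlt : LinearMap.range T < ⊤ := by
    rw [lt_top_iff_ne_top]
    intro h
    rw [h] at hfr
    simp at hfr
  obtain ⟨f, hf0, hf⟩ := Submodule.exists_le_ker_of_lt_top _ hlt
  have hker : Module.finrank ℝ (LinearMap.ker f) = d := by
    have h1 := LinearMap.finrank_range_add_finrank_ker f
    have h2 : LinearMap.range f = ⊤ := LinearMap.range_eq_top.2 (LinearMap.surjective hf0)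
    rw [h2] at h1
    simp at h1
    omega
  have heq : LinearMap.range T = LinearMap.ker f :=
    Submodule.eq_of_le_of_finrank_eq hf (by rw [hfr, hker])
  refine ⟨fun i => f (Pi.single i 1), fun y hy => ?_⟩
  have hy' : y ∈ LinearMap.ker f := by
    rw [LinearMap.mem_ker]
    have : y = ∑ i, y i • (Pi.single i (1 : ℝ) : Fin (d + 1) → ℝ) := by
      funext k
      simp [Finset.sum_apply, Pi.single_apply]
    rw [this, map_sum]
    simp only [map_smul, smul_eq_mul]
    rw [← hy]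
    exact Finset.sum_congr rfl fun i _ => mul_comm _ _
  rw [← heq] at hy'
  exact hy'

/-- the linear map `z ↦ (⟪w i, z⟫)_i` -/
def TT (w : Fin (d + 1) → E d) : (E d) →ₗ[ℝ] (Fin (d + 1) → ℝ) :=
  LinearMap.pi fun i => (innerSL ℝ (w i)).toLinearMap

lemma TT_apply (w : Fin (d + 1) → E d) (z : E d) (i : Fin (d + 1)) :
    TT w z i = ⟪w i, z⟫ := rfl

lemma encard_of_inj {P : Set (E d)} (a : Fin (d + 1) → ℝ)
    (F : (Fin (d + 1) → ZMod 3) → Set (E d))
    (hF : ∀ s, Real' a s → (F s).Nonempty ∧ IsExposed ℝ P (F s))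
    (hinj : ∀ s s', Real' a s → Real' a s' → F s = F s' → s = s') :
    (3 : ℕ∞) ^ d ≤ {G : Set (E d) | G.Nonempty ∧ IsExposed ℝ P G}.encard := by
  have h1 : {s : Fin (d + 1) → ZMod 3 | Real' a s}.encard ≤
      {G : Set (E d) | G.Nonempty ∧ IsExposed ℝ P G}.encard := by
    apply Set.encard_le_encard_of_injOn (f := F)
    · intro s hs; exact hF s hs
    · intro s hs s' hs' h; exact hinj s s' hs hs' h
  refine le_trans ?_ h1
  have h2 := card_real a
  have h3 : 3 ^ d ≤ {s : Fin (d + 1) → ZMod 3 | Real' a s}.ncard := by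
    rw [pow_succ] at h2; omega
  have h4 : {s : Fin (d + 1) → ZMod 3 | Real' a s}.encard =
      ({s : Fin (d + 1) → ZMod 3 | Real' a s}.ncard : ℕ∞) :=
    (Set.Finite.cast_ncard_eq (Set.toFinite _)).symm
  rw [h4]
  exact_mod_cast h3

lemma sg_sq {c : ZMod 3} (h : c ≠ 0) : sg c * sg c = 1 := by
  unfold sg; rw [if_neg h]; split_ifs <;> norm_num

lemma abs_sg {c : ZMod 3} (h : c ≠ 0) : |sg c| = 1 := by
  unfold sg; rw [if_neg h]; split_ifs <;> norm_num

lemma sg_inj {c c' : ZMod 3} (h : sg c = sg c') : c = c' := by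
  revert h
  have h3 : ∀ c : ZMod 3, c = 0 ∨ c = 1 ∨ c = 2 := by decide
  have n1 : (2 : ZMod 3) ≠ 0 := by decide
  have n2 : (2 : ZMod 3) ≠ 1 := by decide
  rcases h3 c with rfl | rfl | rfl <;> rcases h3 c' with rfl | rfl | rfl <;>
    simp [sg, n1, n2] <;> norm_num

/-- facet version -/
lemma facet_case (w : Fin (d + 1) → E d) {P : Set (E d)}
    (hP : P = {x | ∀ i, |⟪w i, x⟫| ≤ 1}) (hb : Bornology.IsBounded P) :
    (3 : ℕ∞) ^ d ≤ {G : Set (E d) | G.Nonempty ∧ IsExposed ℝ P G}.encard := by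
  classical
  have hinj : Function.Injective (TT w) := by
    rw [← LinearMap.ker_eq_bot, LinearMap.ker_eq_bot']
    intro z hz
    have hz' : ∀ i, ⟪w i, z⟫ = 0 := fun i => by
      rw [← TT_apply, hz]; rfl
    by_contra hne
    obtain ⟨C, hC⟩ := hb.exists_norm_le
    have hmem : ∀ t : ℝ, t • z ∈ P := by
      intro t
      rw [hP]
      intro i
      rw [inner_smul_right, hz' i]; simp
    have hzn : 0 < ‖z‖ := norm_pos_iff.2 hne
    have h1 := hC _ (hmem ((|C| + 1) / ‖z‖))
    rw [norm_smul, Real.norm_eq_abs, abs_div, abs_of_pos hzn, div_mul_cancel₀ _ hzn.ne',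
      abs_of_nonneg (by positivity)] at h1
    have := le_abs_self C
    linarith
  obtain ⟨a, ha⟩ := exists_hyperplane (TT w) hinj
  refine encard_of_inj (P := P) a
    (fun s => {x | x ∈ P ∧ ∀ i, s i ≠ 0 → ⟪w i, x⟫ = sg (s i)}) ?_ ?_
  · intro s hs
    obtain ⟨y, hy1, hy2, hy3⟩ := hs
    obtain ⟨z, hz⟩ := ha y hy3
    have hzi : ∀ i, ⟪w i, z⟫ = y i := fun i => by rw [← TT_apply, hz]
    have hzP : z ∈ P := by
      rw [hP]; intro i
      rw [hzi i]
      by_cases h : s i = 0
      · exact (hy1 i h).le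
      · rw [hy2 i h, abs_sg h]
    have hzF : z ∈ {x | x ∈ P ∧ ∀ i, s i ≠ 0 → ⟪w i, x⟫ = sg (s i)} :=
      ⟨hzP, fun i hi => by rw [hzi i, hy2 i hi]⟩
    refine ⟨⟨z, hzF⟩, fun _ => ?_⟩
    -- exposing functional
    set l : StrongDual ℝ (E d) := ∑ i, (sg (s i)) • innerSL ℝ (w i) with hl
    have hlx : ∀ x, l x = ∑ i, sg (s i) * ⟪w i, x⟫ := by
      intro x
      simp [hl]
    have hbound : ∀ x ∈ P, ∀ i, sg (s i) * ⟪w i, x⟫ ≤ sg (s i) * sg (s i) := by
      intro x hx i
      by_cases h : s i = 0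
      · simp [h, sg]
      · rw [sg_sq h]
        rw [hP] at hx
        have h1 := hx i
        calc sg (s i) * ⟪w i, x⟫ ≤ |sg (s i) * ⟪w i, x⟫| := le_abs_self _
          _ = |⟪w i, x⟫| := by rw [abs_mul, abs_sg h, one_mul]
          _ ≤ 1 := h1
    have hval : ∀ x, (x ∈ P ∧ ∀ i, s i ≠ 0 → ⟪w i, x⟫ = sg (s i)) →
        l x = ∑ i, sg (s i) * sg (s i) := by
      intro x hx
      rw [hlx]
      refine Finset.sum_congr rfl fun i _ => ?_
      by_cases h : s i = 0
      · simp [h, sg]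
      · rw [hx.2 i h]
    refine ⟨l, ?_⟩
    ext x
    constructor
    · intro hx
      refine ⟨hx.1, fun u hu => ?_⟩
      rw [hval x hx, hlx]
      exact Finset.sum_le_sum fun i _ => hbound u hu i
    · rintro ⟨hxP, hmax⟩
      refine ⟨hxP, fun i hi => ?_⟩
      have h1 := hmax z hzP
      rw [hval z hzF, hlx x] at h1
      have h2 : ∀ j ∈ Finset.univ, sg (s j) * ⟪w j, x⟫ = sg (s j) * sg (s j) := by
        by_contra hcon
        simp only [Finset.mem_univ, true_implies, not_forall] at hcon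
        obtain ⟨j, hj⟩ := hcon
        have : ∑ i, sg (s i) * ⟪w i, x⟫ < ∑ i, sg (s i) * sg (s i) :=
          Finset.sum_lt_sum (fun i _ => hbound x hxP i)
            ⟨j, Finset.mem_univ _, lt_of_le_of_ne (hbound x hxP j) hj⟩
        linarith
      have h3 := h2 i (Finset.mem_univ _)
      have h4 : sg (s i) ≠ 0 := by
        intro h0
        have := sg_sq hi
        rw [h0] at this; simp at this
      exact mul_left_cancel₀ h4 h3
  · intro s s' hs hs' hFF
    obtain ⟨y, hy1, hy2, hy3⟩ := hs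
    obtain ⟨z, hz⟩ := ha y hy3
    obtain ⟨y', hy1', hy2', hy3'⟩ := hs'
    obtain ⟨z', hz'⟩ := ha y' hy3'
    have hzi : ∀ i, ⟪w i, z⟫ = y i := fun i => by rw [← TT_apply, hz]
    have hzi' : ∀ i, ⟪w i, z'⟫ = y' i := fun i => by rw [← TT_apply, hz']
    have hmem : ∀ (s : Fin (d + 1) → ZMod 3) (y : Fin (d + 1) → ℝ) (z : E d),
        (∀ i, s i = 0 → |y i| < 1) → (∀ i, s i ≠ 0 → y i = sg (s i)) →
        (∀ i, ⟪w i, z⟫ = y i) →
        z ∈ {x | x ∈ P ∧ ∀ i, s i ≠ 0 → ⟪w i, x⟫ = sg (s i)} := by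
      intro s y z h1 h2 h3
      refine ⟨?_, fun i hi => by rw [h3 i, h2 i hi]⟩
      rw [hP]; intro i
      rw [h3 i]
      by_cases h : s i = 0
      · exact (h1 i h).le
      · rw [h2 i h, abs_sg h]
    have hzF := hmem s y z hy1 hy2 hzi
    have hzF' := hmem s' y' z' hy1' hy2' hzi'
    have hFF' : {x | x ∈ P ∧ ∀ i, s i ≠ 0 → ⟪w i, x⟫ = sg (s i)} =
        {x | x ∈ P ∧ ∀ i, s' i ≠ 0 → ⟪w i, x⟫ = sg (s' i)} := hFF
    rw [hFF'] at hzF
    rw [← hFF'] at hzF'
    funext i
    by_cases h : s i = 0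
    · by_cases h' : s' i = 0
      · rw [h, h']
      · exfalso
        have e1 := hzF.2 i h'
        rw [hzi i] at e1
        have e2 := hy1 i h
        rw [e1, abs_sg h'] at e2
        exact lt_irrefl _ e2
    · have e1 := hzF'.2 i h
      rw [hzi' i] at e1
      by_cases h' : s' i = 0
      · exfalso
        have e2 := hy1' i h'
        rw [e1, abs_sg h] at e2
        exact lt_irrefl _ e2
      · rw [hy2' i h'] at e1
        exact sg_inj e1.symm

/-- vertex version -/
lemma vertex_case (v : Fin (d + 1) → E d) {P : Set (E d)}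
    (hP : P = convexHull ℝ (Set.range v ∪ Set.range (fun i => -v i)))
    (hint : (interior P).Nonempty) :
    (3 : ℕ∞) ^ d ≤ {G : Set (E d) | G.Nonempty ∧ IsExposed ℝ P G}.encard := by
  classical
  have hvP : ∀ i, v i ∈ P := fun i => by
    rw [hP]; exact subset_convexHull ℝ _ (Or.inl ⟨i, rfl⟩)
  have hvP' : ∀ i, -v i ∈ P := fun i => by
    rw [hP]; exact subset_convexHull ℝ _ (Or.inr ⟨i, rfl⟩)
  -- linear functionals are bounded on P by their values on the generators
  have hle : ∀ (z : E d) (c : ℝ), (∀ i, |⟪v i, z⟫| ≤ c) → ∀ x ∈ P, ⟪z, x⟫ ≤ c := by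
    intro z c hc x hx
    have hconv : Convex ℝ {x : E d | ⟪z, x⟫ ≤ c} := by
      have := (convex_halfSpace_le (f := fun x : E d => ⟪z, x⟫)
        (⟨fun x y => inner_add_right _ _ _, fun r x => by
          simp [inner_smul_right]⟩ : IsLinearMap ℝ (fun x : E d => ⟪z, x⟫)) c)
      exact this
    have hsub : Set.range v ∪ Set.range (fun i => -v i) ⊆ {x : E d | ⟪z, x⟫ ≤ c} := by
      rintro u (⟨i, rfl⟩ | ⟨i, rfl⟩)
      · show ⟪z, v i⟫ ≤ c
        rw [real_inner_comm]; exact (le_abs_self _).trans (hc i)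
      · show ⟪z, -v i⟫ ≤ c
        rw [inner_neg_right, real_inner_comm]; exact (neg_le_abs _).trans (hc i)
    rw [hP] at hx
    exact convexHull_min hsub hconv hx
  have hinj : Function.Injective (TT v) := by
    rw [← LinearMap.ker_eq_bot, LinearMap.ker_eq_bot']
    intro z hz
    have hz' : ∀ i, ⟪v i, z⟫ = 0 := fun i => by
      rw [← TT_apply, hz]; rfl
    by_contra hne
    obtain ⟨x₀, hx₀⟩ := hint
    have hopen : IsOpen (interior P) := isOpen_interior
    have hzero : ∀ x ∈ P, ⟪z, x⟫ = 0 := by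
      intro x hx
      have h1 := hle z 0 (fun i => by rw [hz' i]; simp) x hx
      have h2 := hle (-z) 0 (fun i => by rw [inner_neg_right, hz' i]; simp) x hx
      rw [inner_neg_left] at h2
      linarith
    -- move a little in direction z
    have hcont : Continuous (fun t : ℝ => x₀ + t • z) := by fun_prop
    have hmem : (fun t : ℝ => x₀ + t • z) ⁻¹' interior P ∈ nhds (0 : ℝ) := by
      apply hcont.continuousAt.preimage_mem_nhds
      apply hopen.mem_nhds
      simpa using hx₀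
    obtain ⟨ε, hε, hball⟩ := Metric.mem_nhds_iff.1 hmem
    have h1 : x₀ + (ε / 2) • z ∈ interior P := by
      apply hball
      rw [Metric.mem_ball, dist_zero_right, Real.norm_eq_abs, abs_of_pos (by positivity)]
      linarith
    have h2 := hzero _ (interior_subset h1)
    have h3 := hzero _ (interior_subset hx₀)
    rw [inner_add_right, h3, zero_add, inner_smul_right, real_inner_self_eq_norm_sq] at h2
    have : 0 < ‖z‖ := norm_pos_iff.2 hne
    have : 0 < ε / 2 * ‖z‖ ^ 2 := by positivity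
    linarith
  obtain ⟨a, ha⟩ := exists_hyperplane (TT v) hinj
  -- choose functionals
  have hch : ∀ s : Fin (d + 1) → ZMod 3, ∃ z : E d, Real' a s →
      (∀ i, s i = 0 → |⟪v i, z⟫| < 1) ∧ (∀ i, s i ≠ 0 → ⟪v i, z⟫ = sg (s i)) := by
    intro s
    by_cases h : Real' a s
    · obtain ⟨y, hy1, hy2, hy3⟩ := h
      obtain ⟨z, hz⟩ := ha y hy3
      have hzi : ∀ i, ⟪v i, z⟫ = y i := fun i => by rw [← TT_apply, hz]
      exact ⟨z, fun _ => ⟨fun i hi => by rw [hzi i]; exact hy1 i hi,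
        fun i hi => by rw [hzi i]; exact hy2 i hi⟩⟩
    · exact ⟨0, fun h' => absurd h' h⟩
  choose Z hZ using hch
  set Z' : (Fin (d + 1) → ZMod 3) → E d := fun s => if s = 0 then 0 else Z s with hZ'
  have hFdef : ∀ s, Real' a s → s ≠ 0 → ∀ x ∈ P,
      ((∀ u ∈ P, ⟪Z' s, u⟫ ≤ ⟪Z' s, x⟫) ↔ ⟪Z s, x⟫ = 1) := by
    intro s hs hs0 x hx
    have hZs : Z' s = Z s := by simp [hZ', hs0]
    rw [hZs]
    obtain ⟨h1, h2⟩ := hZ s hs
    have hall : ∀ i, |⟪v i, Z s⟫| ≤ 1 := by
      intro i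
      by_cases h : s i = 0
      · exact (h1 i h).le
      · rw [h2 i h, abs_sg h]
    have hbd := hle (Z s) 1 hall
    obtain ⟨i, hi⟩ : ∃ i, s i ≠ 0 := by
      by_contra hcon
      simp only [not_exists, not_not] at hcon
      exact hs0 (funext hcon)
    constructor
    · intro hmax
      apply le_antisymm (hbd x hx)
      have hsg : sg (s i) = 1 ∨ sg (s i) = -1 := by
        unfold sg; rw [if_neg hi]; split_ifs <;> simp
      rcases hsg with h | h
      · have := hmax _ (hvP i)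
        rw [real_inner_comm, h2 i hi, h] at this
        exact this
      · have := hmax _ (hvP' i)
        rw [inner_neg_right, real_inner_comm, h2 i hi, h] at this
        linarith
    · intro hx1 u hu
      rw [hx1]; exact hbd u hu
  refine encard_of_inj (P := P) a
    (fun s => {x | x ∈ P ∧ ∀ u ∈ P, ⟪Z' s, u⟫ ≤ ⟪Z' s, x⟫}) ?_ ?_
  · intro s hs
    refine ⟨?_, fun _ => ⟨innerSL ℝ (Z' s), rfl⟩⟩
    by_cases hs0 : s = 0
    · refine ⟨v 0, hvP 0, fun u _ => ?_⟩
      simp [hZ', hs0]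
    · obtain ⟨i, hi⟩ : ∃ i, s i ≠ 0 := by
        by_contra hcon
        simp only [not_exists, not_not] at hcon
        exact hs0 (funext hcon)
      obtain ⟨h1, h2⟩ := hZ s hs
      have hsg : sg (s i) = 1 ∨ sg (s i) = -1 := by
        unfold sg; rw [if_neg hi]; split_ifs <;> simp
      rcases hsg with h | h
      · refine ⟨v i, hvP i, (hFdef s hs hs0 _ (hvP i)).2 ?_⟩
        rw [real_inner_comm, h2 i hi, h]
      · refine ⟨-v i, hvP' i, (hFdef s hs hs0 _ (hvP' i)).2 ?_⟩
        rw [inner_neg_right, real_inner_comm, h2 i hi, h]; norm_num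
  · intro s s' hs hs' hFF
    have hFF' : {x | x ∈ P ∧ ∀ u ∈ P, ⟪Z' s, u⟫ ≤ ⟪Z' s, x⟫} =
        {x | x ∈ P ∧ ∀ u ∈ P, ⟪Z' s', u⟫ ≤ ⟪Z' s', x⟫} := hFF
    -- membership of generators
    have hm : ∀ s, Real' a s → s ≠ 0 → ∀ i,
        ((v i ∈ {x | x ∈ P ∧ ∀ u ∈ P, ⟪Z' s, u⟫ ≤ ⟪Z' s, x⟫}) ↔ sg (s i) = 1) ∧
        ((-v i ∈ {x | x ∈ P ∧ ∀ u ∈ P, ⟪Z' s, u⟫ ≤ ⟪Z' s, x⟫}) ↔ sg (s i) = -1) := by
      intro s hs hs0 i
      obtain ⟨h1, h2⟩ := hZ s hs
      have e0 : ∀ w ∈ P, (w ∈ {x | x ∈ P ∧ ∀ u ∈ P, ⟪Z' s, u⟫ ≤ ⟪Z' s, x⟫}) ↔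
          ⟪Z s, w⟫ = 1 := by
        intro w hw
        rw [← hFdef s hs hs0 w hw]
        exact ⟨fun h => h.2, fun h => ⟨hw, h⟩⟩
      rw [e0 _ (hvP i), e0 _ (hvP' i), inner_neg_right, real_inner_comm]
      by_cases h : s i = 0
      · have h3 := abs_lt.1 (h1 i h)
        have h4 : sg (s i) = 0 := by simp [h, sg]
        rw [h4]
        constructor
        · constructor
          · intro h5; rw [h5] at h3; linarith [h3.2]
          · intro h5; norm_num at h5
        · constructor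
          · intro h5; linarith [h3.1]
          · intro h5; norm_num at h5
      · rw [h2 i h]
        constructor
        · exact Iff.rfl
        · constructor
          · intro h5; linarith
          · intro h5; linarith
    have hz0 : ∀ s, s = 0 → {x | x ∈ P ∧ ∀ u ∈ P, ⟪Z' s, u⟫ ≤ ⟪Z' s, x⟫} = P := by
      intro s hs0
      ext x
      constructor
      · intro h; exact h.1
      · intro h; exact ⟨h, fun u _ => by simp [hZ', hs0]⟩
    have hnP : ∀ s, Real' a s → s ≠ 0 →
        {x | x ∈ P ∧ ∀ u ∈ P, ⟪Z' s, u⟫ ≤ ⟪Z' s, x⟫} ≠ P := by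
      intro s hs hs0 heq
      have h1 := (hm s hs hs0 0).1.1 (by rw [heq]; exact hvP 0)
      have h2 := (hm s hs hs0 0).2.1 (by rw [heq]; exact hvP' 0)
      rw [h1] at h2; norm_num at h2
    by_cases h0 : s = 0
    · by_cases h0' : s' = 0
      · rw [h0, h0']
      · exfalso
        apply hnP s' hs' h0'
        rw [← hFF', hz0 s h0]
    · by_cases h0' : s' = 0
      · exfalso
        apply hnP s hs h0
        rw [hFF', hz0 s' h0']
      · funext i
        obtain ⟨p1, p2⟩ := hm s hs h0 i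
        obtain ⟨q1, q2⟩ := hm s' hs' h0' i
        rw [hFF'] at p1 p2
        have r1 : sg (s i) = 1 ↔ sg (s' i) = 1 := p1.symm.trans q1
        have r2 : sg (s i) = -1 ↔ sg (s' i) = -1 := p2.symm.trans q2
        have tri : ∀ c : ZMod 3, sg c = 0 ∨ sg c = 1 ∨ sg c = -1 := by
          intro c
          unfold sg
          split_ifs <;> simp
        apply sg_inj
        rcases tri (s i) with h | h | h
        · rcases tri (s' i) with h' | h' | h'
          · rw [h, h']
          · rw [r1.2 h', h']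
          · rw [r2.2 h', h']
        · rw [h, r1.1 h]
        · rw [h, r2.1 h]

end

end Pool.Agent.KalaiFew
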