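import Mathlib

open MeasureTheory ProbabilityTheory
open scoped ENNReal NNReal

namespace Pool.Agent.MP_590456_lc_Model

/-- An algorithm for the review-spam problem.  It has private randomness, a probability space
`(Ω, P)`, and it fixes the cost of a post as a function `cost t h ω` of the current time step `t`,
of the list `h` of the earlier published posts (for each of them, in order, its time step and the
label which the classifier gave to it, `true` standing for the label legitimate and `false` for the
label spam), and of its private randomness `ω`. -/
structure Algorithm where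
  Ω : Type
  mΩ : MeasurableSpace Ω
  P : @Measure Ω mΩ
  isProb : IsProbabilityMeasure P
  cost : ℕ → List (ℕ × Bool) → Ω → ℝ≥0
  measurable_cost : ∀ t h, Measurable (cost t h)

attribute [instance] Algorithm.mΩ Algorithm.isProb

/-- A (non-adaptive) adversary is given by the list of all posts, in their order.  Every entry is a
pair: the time step of the post, and `true` if the post is made by a good ID, `false` if it is made
by a bad ID.  All these posts are paid and so published. -/
abbrev Schedule := List (ℕ × Bool)

/-- The schedule lives on the time steps `1, ..., L`, in nondecreasing order. -/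
def IsValid (L : ℕ) (s : Schedule) : Prop :=
  (∀ p ∈ s, 1 ≤ p.1 ∧ p.1 ≤ L) ∧ s.Pairwise (fun p q => p.1 ≤ q.1)

/-- The time steps and labels of the published posts of `s`, where `e i = true` means that the
classifier errs on the `i`-th published post. -/
def labels (s : Schedule) (e : ℕ → Bool) : List (ℕ × Bool) :=
  s.mapIdx fun i p => (p.1, xor p.2 (e i))

/-- The cost which the algorithm charges for the `i`-th post of `s`. -/
def charge (A : Algorithm) (s : Schedule) (i : Fin s.length) (x : A.Ω × (ℕ → Bool)) : ℝ≥0 :=
  A.cost (s.get i).1 ((labels s x.2).take i) x.1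

/-- The time steps of the posts made by good IDs, in their order. -/
def goodTimes (s : Schedule) : List ℕ := (s.filter fun p => p.2).map Prod.fst

/-- The number of posts made by good IDs. -/
def numGood (s : Schedule) : ℕ := s.countP fun p => p.2

/-- The number of (published) spam posts. -/
def numSpam (s : Schedule) : ℕ := s.countP fun p => !p.2

/-- The total resource paid by the bad IDs. -/
def paidByBad (A : Algorithm) (s : Schedule) (x : A.Ω × (ℕ → Bool)) : ℝ≥0 :=
  ∑ i : Fin s.length, if (s.get i).2 = false then charge A s i x else 0

/-- The total cost paid on legitimate posts. -/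
def paidByGood (A : Algorithm) (s : Schedule) (x : A.Ω × (ℕ → Bool)) : ℝ≥0 :=
  ∑ i : Fin s.length, if (s.get i).2 = true then charge A s i x else 0

/-- The law of the classifier errors: independent, each post is mislabelled with probability `ε`. -/
noncomputable def errorLaw (ε : unitInterval) : Measure (ℕ → Bool) :=
  Measure.infinitePi fun _ => bernoulliMeasure true false ε

/-- The joint law of the private randomness of the algorithm and of the classifier errors, which
are independent of each other. -/
noncomputable def law (A : Algorithm) (ε : unitInterval) : Measure (A.Ω × (ℕ → Bool)) :=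
  A.P.prod (errorLaw ε)

/-- The expected rate `E[T]`. -/
noncomputable def expT (A : Algorithm) (ε : unitInterval) (L : ℕ) (s : Schedule) : ℝ≥0∞ :=
  ∫⁻ x, (paidByBad A s x : ℝ≥0∞) / L ∂(law A ε)

/-- The expected rate `E[C]`. -/
noncomputable def expC (A : Algorithm) (ε : unitInterval) (L : ℕ) (s : Schedule) : ℝ≥0∞ :=
  ∫⁻ x, ((numSpam s : ℝ≥0∞) + paidByGood A s x) / L ∂(law A ε)

/-- The expected rate `E[P_G]` (here `P_G` is not random). -/
noncomputable def expPG (L : ℕ) (s : Schedule) : ℝ≥0∞ := (numGood s : ℝ≥0∞) / L

/-! ### Proof -/

noncomputable instance (ε : unitInterval) : IsProbabilityMeasure (errorLaw ε) := by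
  unfold errorLaw
  infer_instance

noncomputable instance (A : Algorithm) (ε : unitInterval) : IsProbabilityMeasure (law A ε) := by
  unfold law
  infer_instance

/-- Mean cost of a post at time `t` after the schedule `h`. -/
noncomputable def meanCost (A : Algorithm) (ε : unitInterval) (t : ℕ) (h : Schedule) : ℝ≥0∞ :=
  ∫⁻ x, (A.cost t (labels h x.2) x.1 : ℝ≥0∞) ∂(law A ε)

lemma labels_take (s : Schedule) (e : ℕ → Bool) (n : ℕ) :
    (labels s e).take n = labels (s.take n) e := by
  unfold labels
  apply List.ext_getElem
  · simp
  · intro i h1 h2
    simp

lemma measurable_cost (A : Algorithm) (t : ℕ) (h : Schedule) :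
    Measurable fun x : A.Ω × (ℕ → Bool) => A.cost t (labels h x.2) x.1 := by
  have key : (fun x : A.Ω × (ℕ → Bool) => A.cost t (labels h x.2) x.1) =
      (fun y : A.Ω × (Fin h.length → Bool) =>
        A.cost t (labels h (fun n => if hn : n < h.length then y.2 ⟨n, hn⟩ else false)) y.1) ∘
      (fun x : A.Ω × (ℕ → Bool) => (x.1, fun i : Fin h.length => x.2 i)) := by
    funext x
    simp only [Function.comp]
    congr 1
    unfold labels
    apply List.ext_getElem
    · simp
    · intro i h1 h2
      have h3 : i < h.length := by simpa using h1
      simp [h3]
  rw [key]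
  apply Measurable.comp
  · apply measurable_from_prod_countable_left
    intro y
    exact A.measurable_cost t
      (labels h (fun n => if hn : n < h.length then y ⟨n, hn⟩ else false))
  · fun_prop

/-- Expected total cost of the posts of type `b` of `s`, when `s` is played after `h`. -/
noncomputable def costFrom (A : Algorithm) (ε : unitInterval) (b : Bool) :
    Schedule → Schedule → ℝ≥0∞
  | _, [] => 0
  | h, p :: s => (if p.2 = b then meanCost A ε p.1 h else 0) + costFrom A ε b (h ++ [p]) s

lemma costFrom_eq_sum (A : Algorithm) (ε : unitInterval) (b : Bool) (s : Schedule) :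
    ∀ h : Schedule, costFrom A ε b h s = ∑ i : Fin s.length,
      if (s.get i).2 = b then meanCost A ε (s.get i).1 (h ++ s.take i) else 0 := by
  induction s with
  | nil => intro h; simp [costFrom]
  | cons p s ih =>
    intro h
    rw [costFrom, ih]
    refine Eq.trans ?_ (Fin.sum_univ_succ _).symm
    simp

lemma measurable_part (A : Algorithm) (b : Bool) (s : Schedule) :
    Measurable fun x : A.Ω × (ℕ → Bool) =>
      ∑ i : Fin s.length, if (s.get i).2 = b then charge A s i x else 0 := by
  refine Finset.measurable_sum _ fun i _ => ?_
  split_ifs
  · unfold charge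
    simp_rw [labels_take]
    exact measurable_cost A _ _
  · exact measurable_const

lemma lintegral_sum_charge (A : Algorithm) (ε : unitInterval) (b : Bool) (s : Schedule) :
    ∫⁻ x, ((∑ i : Fin s.length, if (s.get i).2 = b then charge A s i x else 0 : ℝ≥0) : ℝ≥0∞)
      ∂(law A ε) = costFrom A ε b [] s := by
  rw [costFrom_eq_sum]
  have h1 : ∀ x : A.Ω × (ℕ → Bool),
      ((∑ i : Fin s.length, if (s.get i).2 = b then charge A s i x else 0 : ℝ≥0) : ℝ≥0∞) =
      ∑ i : Fin s.length, if (s.get i).2 = b then
        (A.cost (s.get i).1 (labels (s.take i) x.2) x.1 : ℝ≥0∞) else 0 := by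
    intro x
    push_cast
    refine Finset.sum_congr rfl fun i _ => ?_
    unfold charge
    rw [labels_take]
    split_ifs <;> simp
  simp_rw [h1]
  rw [lintegral_finsetSum]
  · refine Finset.sum_congr rfl fun i _ => ?_
    split_ifs
    · simp [meanCost]
    · simp
  · intro i _
    split_ifs
    · exact (measurable_cost A _ _).coe_nnreal_ennreal
    · exact measurable_const

lemma expT_eq (A : Algorithm) (ε : unitInterval) (L : ℕ) (s : Schedule) :
    expT A ε L s = costFrom A ε false [] s / L := by
  unfold expT paidByBad
  simp_rw [div_eq_mul_inv]
  rw [lintegral_mul_const _ (measurable_part A false s).coe_nnreal_ennreal,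
    lintegral_sum_charge]

lemma expC_eq (A : Algorithm) (ε : unitInterval) (L : ℕ) (s : Schedule) :
    expC A ε L s = ((numSpam s : ℝ≥0∞) + costFrom A ε true [] s) / L := by
  unfold expC paidByGood
  simp_rw [div_eq_mul_inv]
  rw [lintegral_mul_const _ ((measurable_part A true s).coe_nnreal_ennreal.const_add _),
    lintegral_add_left measurable_const, lintegral_sum_charge]
  simp

/-- The greedy adversary: the good posts are at the times `gs`; spam is inserted before a good post
as long as the mean cost of the next post is below `θ` and less than `N` spam posts were made. -/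
lemma greedy (A : Algorithm) (ε : unitInterval) (θ : ℝ≥0∞) (gs : List ℕ) :
    gs.Pairwise (fun a b => a ≤ b) → ∀ (N : ℕ) (h : Schedule), ∃ s : Schedule,
      goodTimes s = gs ∧ numSpam s ≤ N ∧ (∀ p ∈ s, p.1 ∈ gs) ∧
      s.Pairwise (fun p q => p.1 ≤ q.1) ∧
      costFrom A ε false h s ≤ numSpam s * θ ∧
      (numSpam s = N ∨ gs.length * θ ≤ costFrom A ε true h s) := by
  induction gs with
  | nil =>
    intro _ N h
    exact ⟨[], by simp [goodTimes, numSpam, costFrom]⟩
  | cons t gs ih =>
    intro hs N
    rw [List.pairwise_cons] at hs
    obtain ⟨hs1, hs2⟩ := hs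
    induction N with
    | zero =>
      intro h
      obtain ⟨s, h1, h2, h3, h4, h5, h6⟩ := ih hs2 0 (h ++ [(t, true)])
      refine ⟨(t, true) :: s, ?_, ?_, ?_, ?_, ?_, ?_⟩
      · simpa [goodTimes] using h1
      · simpa [numSpam] using h2
      · intro p hp
        rcases List.mem_cons.1 hp with rfl | hp
        · simp
        · exact List.mem_cons_of_mem _ (h3 p hp)
      · rw [List.pairwise_cons]
        exact ⟨fun q hq => hs1 _ (h3 q hq), h4⟩
      · have : numSpam ((t, true) :: s) = numSpam s := by simp [numSpam]
        rw [this]
        simpa [costFrom] using h5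
      · left
        simpa [numSpam] using h2
    | succ N ihN =>
      intro h
      by_cases hm : meanCost A ε t h < θ
      · obtain ⟨s, h1, h2, h3, h4, h5, h6⟩ := ihN (h ++ [(t, false)])
        have hn : numSpam ((t, false) :: s) = numSpam s + 1 := by simp [numSpam]
        refine ⟨(t, false) :: s, ?_, ?_, ?_, ?_, ?_, ?_⟩
        · simpa [goodTimes] using h1
        · omega
        · intro p hp
          rcases List.mem_cons.1 hp with rfl | hp
          · simp
          · exact h3 p hp
        · rw [List.pairwise_cons]
          refine ⟨fun q hq => ?_, h4⟩
          rcases List.mem_cons.1 (h3 q hq) with h7 | h7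
          · exact le_of_eq h7.symm
          · exact hs1 _ h7
        · rw [hn, costFrom]
          push_cast
          rw [add_mul, one_mul, add_comm]
          exact add_le_add h5 (by simpa using hm.le)
        · rcases h6 with h6 | h6
          · left; omega
          · right
            simpa [costFrom] using h6
      · obtain ⟨s, h1, h2, h3, h4, h5, h6⟩ := ih hs2 (N + 1) (h ++ [(t, true)])
        have hn : numSpam ((t, true) :: s) = numSpam s := by simp [numSpam]
        refine ⟨(t, true) :: s, ?_, ?_, ?_, ?_, ?_, ?_⟩
        · simpa [goodTimes] using h1
        · omega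
        · intro p hp
          rcases List.mem_cons.1 hp with rfl | hp
          · simp
          · exact List.mem_cons_of_mem _ (h3 p hp)
        · rw [List.pairwise_cons]
          exact ⟨fun q hq => hs1 _ (h3 q hq), h4⟩
        · rw [hn]
          simpa [costFrom] using h5
        · rcases h6 with h6 | h6
          · left; omega
          · right
            rw [costFrom, List.length_cons]
            push_cast
            rw [add_mul, one_mul, add_comm]
            exact add_le_add (by simpa using hm) h6

lemma numGood_eq (s : Schedule) : numGood s = (goodTimes s).length := by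
  simp [numGood, goodTimes, List.countP_eq_length_filter]

end Pool.Agent.MP_590456_lc_Model
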