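import Pool.Agent.MP_720825_lc_Sound2

/-!
Completeness of the reduction for MP_720825_lc.
-/

set_option autoImplicit false

open scoped commutatorElement

namespace Pool.Agent.MP720825

universe u

/-! ### Commutator identities -/

section
variable {G : Type u} [Group G]

theorem comm_zpow_left (p y : G) (h : Commute ⁅p, y⁆ p) (a : ℤ) : ⁅p ^ a, y⁆ = ⁅p, y⁆ ^ a := by
  have h1 : y * p⁻¹ * y⁻¹ = p⁻¹ * ⁅p, y⁆ := by simp [commutatorElement_def, mul_assoc]
  have h2 : y * (p ^ a)⁻¹ * y⁻¹ = (y * p⁻¹ * y⁻¹) ^ a := by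
    rw [conj_zpow, inv_zpow]
  have h3 : (p⁻¹ * ⁅p, y⁆) ^ a = p⁻¹ ^ a * ⁅p, y⁆ ^ a := (h.symm.inv_left).mul_zpow a
  calc ⁅p ^ a, y⁆ = p ^ a * (y * (p ^ a)⁻¹ * y⁻¹) := by simp [commutatorElement_def, mul_assoc]
    _ = ⁅p, y⁆ ^ a := by rw [h2, h1, h3]; simp

theorem comm_zpow_right (p q : G) (h : Commute ⁅p, q⁆ q) (b : ℤ) : ⁅p, q ^ b⁆ = ⁅p, q⁆ ^ b := by
  have h1 : p * q * p⁻¹ = ⁅p, q⁆ * q := by simp [commutatorElement_def, mul_assoc]
  have h2 : p * q ^ b * p⁻¹ = (p * q * p⁻¹) ^ b := by rw [conj_zpow]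
  calc ⁅p, q ^ b⁆ = (p * q ^ b * p⁻¹) * (q ^ b)⁻¹ := by simp [commutatorElement_def, mul_assoc]
    _ = ⁅p, q⁆ ^ b := by rw [h2, h1, h.mul_zpow]; simp

theorem comm_zpow_zpow (p q : G) (hp : Commute ⁅p, q⁆ p) (hq : Commute ⁅p, q⁆ q) (a b : ℤ) :
    ⁅p ^ a, q ^ b⁆ = ⁅p, q⁆ ^ (a * b) := by
  have h1 := comm_zpow_right p q hq b
  have h2 : Commute ⁅p, q ^ b⁆ p := by rw [h1]; exact hp.zpow_left b
  rw [comm_zpow_left p _ h2, h1, ← zpow_mul, mul_comm]

theorem comm_class_three (p q s : G) (hp : ⁅⁅p, q⁆, p⁆ ∈ Subgroup.center G)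
    (hq : ⁅⁅p, q⁆, q⁆ ∈ Subgroup.center G) (hs : ⁅⁅p, q⁆, s⁆ ∈ Subgroup.center G) (a b : ℤ) :
    ⁅⁅p ^ a, q ^ b⁆, s⁆ = ⁅⁅p, q⁆, s⁆ ^ (a * b) := by
  let π := QuotientGroup.mk' (Subgroup.center G)
  have hπ : ∀ g : G, g ∈ Subgroup.center G → π g = 1 := fun g hg => by
    rwa [← MonoidHom.mem_ker, QuotientGroup.ker_mk']
  have h1 : ⁅π p ^ a, π q ^ b⁆ = ⁅π p, π q⁆ ^ (a * b) := by
    apply comm_zpow_zpow
    · rw [← commutatorElement_eq_one_iff_commute, ← map_commutatorElement,
        ← map_commutatorElement, hπ _ hp]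
    · rw [← commutatorElement_eq_one_iff_commute, ← map_commutatorElement,
        ← map_commutatorElement, hπ _ hq]
  have h2 : (⁅p, q⁆ ^ (a * b))⁻¹ * ⁅p ^ a, q ^ b⁆ ∈ Subgroup.center G := by
    rw [← QuotientGroup.ker_mk' (Subgroup.center G), MonoidHom.mem_ker]
    change π _ = 1
    rw [map_mul, map_inv, map_zpow, map_commutatorElement, map_commutatorElement, map_zpow,
      map_zpow, h1]
    simp
  obtain ⟨z, hz, hz'⟩ : ∃ z ∈ Subgroup.center G, ⁅p ^ a, q ^ b⁆ = ⁅p, q⁆ ^ (a * b) * z :=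
    ⟨_, h2, by group⟩
  have h3 : ⁅⁅p, q⁆ ^ (a * b) * z, s⁆ = ⁅⁅p, q⁆ ^ (a * b), s⁆ := by
    have hzc : ∀ g : G, g * z = z * g := fun g => Subgroup.mem_center_iff.1 hz g
    rw [commutatorElement_mul_left_eq_conj_mul]
    have : ⁅z, s⁆ = 1 := by
      rw [commutatorElement_eq_one_iff_mul_comm]; exact (hzc s).symm
    rw [this]; simp
  rw [hz', h3]
  apply comm_zpow_left
  exact (Subgroup.mem_center_iff.1 hs ⁅p, q⁆).symm

end

/-! ### Left normed commutators -/

section
variable {G : Type u} [Group G]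

def lncd (d : ℕ → G) : ℕ → G
  | 0 => d 0
  | k + 1 => ⁅lncd d k, d (k + 1)⁆

theorem lncd_congr (d e : ℕ → G) (k : ℕ) (h : ∀ i ≤ k, d i = e i) : lncd d k = lncd e k := by
  induction k with
  | zero => exact h 0 (le_refl 0)
  | succ k ih =>
    change ⁅lncd d k, d (k + 1)⁆ = ⁅lncd e k, e (k + 1)⁆
    rw [ih fun i hi => h i (by omega), h (k + 1) (le_refl _)]

theorem lnc_eq_lncd (σ : ℕ → G) (k : ℕ) :
    lnc σ k = lncd (fun i => (σ (2 * i + 1))⁻¹ * σ (2 * i + 2)) k := by
  induction k with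
  | zero => rfl
  | succ k ih =>
    change ⁅lnc σ k, _⁆ = ⁅lncd _ k, _⁆
    rw [ih]
    rfl

end

abbrev FG : Type := FreeGroup ℕ

/-- The closure of the generators in the free group. -/
abbrev E (S : Sys) (g : FG) : Prop := Clo (ops S) (FreeGroup.of : ℕ → FG) g

theorem E_mul {S : Sys} {g h : FG} (hg : E S g) (hh : E S h) : E S (g * h) := by
  have := Clo.app (ρ := (FreeGroup.of : ℕ → FG)) wM (Bs := ops S) (by simp [ops])
    (fun i => if i = 0 then g else h) (by intro i; by_cases hi : i = 0 <;> simp [hi, hg, hh])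
  rw [eval_wM] at this
  simpa [Mop] using this

theorem E_pow {S : Sys} {g : FG} (hg : E S g) (n : ℕ) : E S (g ^ (n + 1)) := by
  induction n with
  | zero => simpa using hg
  | succ n ih => rw [pow_succ]; exact E_mul ih hg

/-- Elements which may be multiplied on the right. -/
def R (S : Sys) (g : FG) : Prop := ∀ e, E S e → E S (e * g)

def DD (S : Sys) (d : FG) : Prop := ∃ u v, E S u ∧ E S v ∧ d = u⁻¹ * v

theorem DD_of_R {S : Sys} {g : FG} (h : R S g) : DD S g :=
  ⟨FreeGroup.of 0, FreeGroup.of 0 * g, Clo.var 0, h _ (Clo.var 0), by group⟩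

def Lt (x : FG) : Prop := ∃ i, x = FreeGroup.of i ∨ x = (FreeGroup.of i)⁻¹

theorem DD_of_Lt {S : Sys} {x : FG} (h : Lt x) : DD S x := by
  obtain ⟨i, rfl | rfl⟩ := h
  · exact ⟨FreeGroup.of 0, FreeGroup.of 0 * FreeGroup.of i, Clo.var 0,
      E_mul (Clo.var 0) (Clo.var i), by group⟩
  · exact ⟨FreeGroup.of 0 * FreeGroup.of i, FreeGroup.of 0,
      E_mul (Clo.var 0) (Clo.var i), Clo.var 0, by group⟩

theorem wK_mem (S : Sys) (k : ℕ) (hk : k = 3 ∨ k = 4 ∨ k = 5) (b : Bool) : wK k b ∈ ops S := by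
  rcases hk with rfl | rfl | rfl <;> cases b <;> simp [ops]

theorem R_lncd {S : Sys} (d : ℕ → FG) (hd : ∀ i, DD S (d i)) (k : ℕ)
    (hk : k = 3 ∨ k = 4 ∨ k = 5) : R S (lncd d k) ∧ R S (lncd d k)⁻¹ := by
  choose uu vv hu hv hduv using hd
  have key : ∀ e, E S e → ∀ b : Bool,
      E S (if b = true then e * lncd d k else e * (lncd d k)⁻¹) := by
    intro e he b
    let σ : ℕ → FG := fun j => if j = 0 then e else if j % 2 = 1 then uu ((j - 1) / 2)
      else vv ((j - 2) / 2)
    have h1 := Clo.app (ρ := (FreeGroup.of : ℕ → FG)) (wK k b) (Bs := ops S) (wK_mem S k hk b)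
      σ (by
        intro j
        simp only [σ]
        split
        · exact he
        · split
          · exact hu _
          · exact hv _)
    rw [eval_wK] at h1
    have h2 : lnc σ k = lncd d k := by
      rw [lnc_eq_lncd]
      apply lncd_congr
      intro i _
      have e1 : σ (2 * i + 1) = uu i := by
        simp only [σ]
        rw [if_neg (by omega), if_pos (by omega)]
        congr 1; omega
      have e2 : σ (2 * i + 2) = vv i := by
        simp only [σ]
        rw [if_neg (by omega), if_neg (by omega)]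
        congr 1; omega
      rw [e1, e2, hduv]
    unfold Kop at h1
    rw [h2] at h1
    exact h1
  exact ⟨fun e he => by simpa using key e he true, fun e he => by simpa using key e he false⟩

theorem R_letters {S : Sys} (k : ℕ) : ∀ a : ℕ → FG, (∀ i, Lt (a i)) → 3 ≤ k →
    R S (lncd a k) ∧ R S (lncd a k)⁻¹ := by
  induction k using Nat.strong_induction_on with
  | _ k ih =>
    intro a ha hk
    by_cases h5 : k ≤ 5
    · exact R_lncd a (fun i => DD_of_Lt (ha i)) k (by omega)
    · have h1 := (ih (k - 3) (by omega) a ha (by omega)).1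
      let d : ℕ → FG := fun i => if i = 0 then lncd a (k - 3) else a (k - 3 + i)
      have h2 := R_lncd (S := S) d (by
        intro i
        simp only [d]
        split
        · exact DD_of_R h1
        · exact DD_of_Lt (ha _)) 3 (Or.inl rfl)
      have h3 : lncd d 3 = lncd a k := by
        obtain ⟨m, rfl⟩ : ∃ m, k = m + 3 := ⟨k - 3, by omega⟩
        have e0 : lncd d 0 = lncd a m := rfl
        have e1 : d 1 = a (m + 1) := rfl
        have e2 : d 2 = a (m + 2) := rfl
        have e3 : d 3 = a (m + 3) := rfl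
        change ⁅⁅⁅lncd d 0, d 1⁆, d 2⁆, d 3⁆ = ⁅⁅⁅lncd a m, a (m + 1)⁆, a (m + 2)⁆, a (m + 3)⁆
        rw [e0, e1, e2, e3]
      rw [← h3]; exact h2

/-- The subgroup generated by the left normed commutators of weight at least four. -/
def T : Subgroup FG :=
  Subgroup.closure {g | ∃ (a : ℕ → FG) (k : ℕ), (∀ i, Lt (a i)) ∧ 3 ≤ k ∧ g = lncd a k}

theorem R_of_T {S : Sys} {g : FG} (h : g ∈ T) : R S g ∧ R S g⁻¹ := by
  induction h using Subgroup.closure_induction with
  | mem x hx =>
    obtain ⟨a, k, ha, hk, rfl⟩ := hx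
    exact R_letters k a ha hk
  | one => exact ⟨fun e he => by simpa using he, fun e he => by simpa using he⟩
  | mul x y _ _ ihx ihy =>
    refine ⟨fun e he => ?_, fun e he => ?_⟩
    · rw [← mul_assoc]; exact ihy.1 _ (ihx.1 _ he)
    · rw [mul_inv_rev, ← mul_assoc]; exact ihx.2 _ (ihy.2 _ he)
  | inv x _ ih => exact ⟨ih.2, by rw [inv_inv]; exact ih.1⟩

theorem T_conj_letter {x : FG} (hx : Lt x) {t : FG} (ht : t ∈ T) : x * t * x⁻¹ ∈ T := by
  induction ht using Subgroup.closure_induction with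
  | mem g hg =>
    obtain ⟨a, k, ha, hk, rfl⟩ := hg
    have h1 : x * lncd a k * x⁻¹ = ⁅lncd a k, x⁆⁻¹ * lncd a k := by
      simp [commutatorElement_def, mul_assoc]
    rw [h1]
    apply T.mul_mem
    · apply T.inv_mem
      apply Subgroup.subset_closure
      refine ⟨Function.update a (k + 1) x, k + 1, ?_, by omega, ?_⟩
      · intro i
        by_cases hi : i = k + 1
        · subst hi; simpa using hx
        · rw [Function.update_of_ne hi]; exact ha i
      · change _ = ⁅lncd (Function.update a (k + 1) x) k, (Function.update a (k + 1) x) (k + 1)⁆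
        rw [Function.update_self]
        congr 1
        apply lncd_congr
        intro i hi
        rw [Function.update_of_ne (by omega)]
    · exact Subgroup.subset_closure ⟨a, k, ha, hk, rfl⟩
  | one => simp
  | mul y z _ _ ihy ihz =>
    have : x * (y * z) * x⁻¹ = (x * y * x⁻¹) * (x * z * x⁻¹) := by group
    rw [this]; exact T.mul_mem ihy ihz
  | inv y _ ih =>
    have : x * y⁻¹ * x⁻¹ = (x * y * x⁻¹)⁻¹ := by group
    rw [this]; exact T.inv_mem ih

instance T_normal : T.Normal := by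
  constructor
  intro t ht g
  have key : ∀ g : FG, ∀ t ∈ T, g * t * g⁻¹ ∈ T := by
    intro g
    induction g using FreeGroup.induction_on with
    | C1 => intro t ht; simpa using ht
    | of i => intro t ht; exact T_conj_letter ⟨i, Or.inl rfl⟩ ht
    | inv_of i _ => intro t ht; exact T_conj_letter ⟨i, Or.inr rfl⟩ ht
    | mul x y ihx ihy =>
      intro t ht
      have : x * y * t * (x * y)⁻¹ = x * (y * t * y⁻¹) * x⁻¹ := by group
      rw [this]; exact ihx _ (ihy _ ht)
  exact key g t ht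

theorem weight_four {a b c d : FG} (ha : Lt a) (hb : Lt b) (hc : Lt c) (hd : Lt d) :
    ⁅⁅⁅a, b⁆, c⁆, d⁆ ∈ T := by
  apply Subgroup.subset_closure
  refine ⟨fun j => if j = 0 then a else if j = 1 then b else if j = 2 then c else d, 3, ?_,
    le_refl _, rfl⟩
  intro i
  dsimp only
  split
  · exact ha
  · split
    · exact hb
    · split
      · exact hc
      · exact hd

theorem Lt_of (i : ℕ) : Lt (FreeGroup.of i) := ⟨i, Or.inl rfl⟩

theorem central_mk {a b c : FG} (ha : Lt a) (hb : Lt b) (hc : Lt c) :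
    QuotientGroup.mk' T ⁅⁅a, b⁆, c⁆ ∈ Subgroup.center (FG ⧸ T) := by
  rw [Subgroup.mem_center_iff]
  intro g
  obtain ⟨g, rfl⟩ := QuotientGroup.mk'_surjective T g
  change Commute (QuotientGroup.mk' T g) (QuotientGroup.mk' T ⁅⁅a, b⁆, c⁆)
  induction g using FreeGroup.induction_on with
  | C1 => rw [map_one]; exact Commute.one_left _
  | of i =>
    apply Commute.symm
    rw [← commutatorElement_eq_one_iff_commute, ← map_commutatorElement,
      ← MonoidHom.mem_ker, QuotientGroup.ker_mk']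
    exact weight_four ha hb hc (Lt_of i)
  | inv_of i ih => rw [map_inv]; exact ih.inv_left
  | mul x y ihx ihy => rw [map_mul]; exact ihx.mul_left ihy

theorem prod_zpow_list {G : Type u} [Group G] {α : Type} (t : G) (f : α → ℤ) (l : List α) :
    (l.map fun x => t ^ f x).prod = t ^ (l.map f).sum := by
  induction l with
  | nil => simp
  | cons x l ih => simp [ih, zpow_add]

theorem complete (S : Sys) (n : ℕ) (hL : 0 < S.L) (hS : S.Solvable n) :
    E S (target S.L n (FreeGroup.of : ℕ → FG)) := by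
  obtain ⟨v, w, hvw⟩ := hS
  let p : FG := FreeGroup.of 0
  let q : FG := FreeGroup.of 1
  let σ : ℕ → FG := fun j => if j < S.L + 2 then FreeGroup.of j
    else if (j - (S.L + 2)) % 4 = 0 then p ^ ((v ((j - (S.L + 2)) / 4)).toNat + 1)
    else if (j - (S.L + 2)) % 4 = 1 then p ^ ((-v ((j - (S.L + 2)) / 4)).toNat + 1)
    else if (j - (S.L + 2)) % 4 = 2 then q ^ ((w ((j - (S.L + 2)) / 4)).toNat + 1)
    else q ^ ((-w ((j - (S.L + 2)) / 4)).toNat + 1)
  have hσ : ∀ j, E S (σ j) := by
    intro j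
    simp only [σ]
    split
    · exact Clo.var j
    · split
      · exact E_pow (Clo.var 0) _
      · split
        · exact E_pow (Clo.var 0) _
        · split
          · exact E_pow (Clo.var 1) _
          · exact E_pow (Clo.var 1) _
  have hphi : E S (Phi S σ) := by
    have := Clo.app (ρ := (FreeGroup.of : ℕ → FG)) (wPhi S) (Bs := ops S) (by simp [ops]) σ hσ
    rwa [eval_wPhi] at this
  have hlow : ∀ j < S.L + 2, σ j = FreeGroup.of j := fun j hj => by
    simp only [σ]; rw [if_pos hj]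
  have hg0 : ∀ i, σ (S.L + 2 + 4 * i) = p ^ ((v i).toNat + 1) := by
    intro i
    simp only [σ]
    rw [if_neg (by omega), if_pos (by omega)]
    congr 4; omega
  have hg1 : ∀ i, σ (S.L + 2 + 4 * i + 1) = p ^ ((-v i).toNat + 1) := by
    intro i
    simp only [σ]
    rw [if_neg (by omega), if_neg (by omega), if_pos (by omega)]
    congr 5; omega
  have hg2 : ∀ i, σ (S.L + 2 + 4 * i + 2) = q ^ ((w i).toNat + 1) := by
    intro i
    simp only [σ]
    rw [if_neg (by omega), if_neg (by omega), if_neg (by omega), if_pos (by omega)]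
    congr 4; omega
  have hg3 : ∀ i, σ (S.L + 2 + 4 * i + 3) = q ^ ((-w i).toNat + 1) := by
    intro i
    simp only [σ]
    rw [if_neg (by omega), if_neg (by omega), if_neg (by omega), if_neg (by omega)]
    congr 5; omega
  have s0 : σ 0 = p := hlow 0 (by omega)
  have s1 : σ 1 = q := hlow 1 (by omega)
  have hY : ∀ i, Yg S.L σ i = p ^ v i := by
    intro i
    unfold Yg
    rw [hg0, hg1, ← zpow_natCast, ← zpow_natCast, ← zpow_neg, ← zpow_add]
    congr 1
    have := Int.toNat_sub_toNat_neg (v i)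
    push_cast
    omega
  have hZ : ∀ i, Zg S.L σ i = q ^ w i := by
    intro i
    unfold Zg
    rw [hg2, hg3, ← zpow_natCast, ← zpow_natCast, ← zpow_neg, ← zpow_add]
    congr 1
    have := Int.toNat_sub_toNat_neg (w i)
    push_cast
    omega
  have hchk : chk S σ = 1 := by
    unfold chk
    rw [List.prod_eq_one]
    intro x hx
    obtain ⟨i, _, rfl⟩ := List.mem_map.1 hx
    rw [hg0, hg1, hg2, hg3, s0, s1]
    have e1 : ∀ k : ℕ, ⁅p ^ k, p⁆ = 1 := fun k =>
      commutatorElement_eq_one_iff_commute.2 ((Commute.refl p).pow_left k)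
    have e2 : ∀ k : ℕ, ⁅q, q ^ k⁆ = 1 := fun k =>
      commutatorElement_eq_one_iff_commute.2 ((Commute.refl q).pow_right k)
    rw [e1, e1, e2, e2]; simp
  have hLam : Lam S.L σ = Lam S.L (FreeGroup.of : ℕ → FG) := by
    unfold Lam
    rw [s0, s1]
    congr 3
    apply List.map_congr_left
    intro l hl
    rw [hlow (2 + l) (by rw [List.mem_range] at hl; omega)]
  let π : FG →* FG ⧸ T := QuotientGroup.mk' T
  have htrm : ∀ l < S.L, ∀ t : Term, π (trm S.L σ l t) =
      (π ⁅⁅p, q⁆, FreeGroup.of (2 + l)⁆) ^ (Term.val v w t) := by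
    intro l hl t
    have hA : Ag S.L σ t.2.1 = p ^ (t.2.1.elim 1 v) := by
      cases t.2.1 with
      | none => change σ 0 = p ^ (1 : ℤ); rw [s0, zpow_one]
      | some i => exact hY i
    have hB : Bg S.L σ t.2.2 = q ^ (t.2.2.elim 1 w) := by
      cases t.2.2 with
      | none => change σ 1 = q ^ (1 : ℤ); rw [s1, zpow_one]
      | some i => exact hZ i
    have hs : σ (2 + l) = FreeGroup.of (2 + l) := hlow _ (by omega)
    have key : π ⁅⁅p ^ (t.2.1.elim 1 v), q ^ (t.2.2.elim 1 w)⁆, FreeGroup.of (2 + l)⁆ =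
        (π ⁅⁅p, q⁆, FreeGroup.of (2 + l)⁆) ^ (t.2.1.elim 1 v * t.2.2.elim 1 w) := by
      rw [map_commutatorElement, map_commutatorElement, map_zpow, map_zpow,
        comm_class_three (π p) (π q) (π (FreeGroup.of (2 + l)))]
      · rw [map_commutatorElement, map_commutatorElement]
      · have := central_mk (Lt_of 0) (Lt_of 1) (Lt_of 0)
        rwa [map_commutatorElement, map_commutatorElement] at this
      · have := central_mk (Lt_of 0) (Lt_of 1) (Lt_of 1)
        rwa [map_commutatorElement, map_commutatorElement] at this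
      · have := central_mk (Lt_of 0) (Lt_of 1) (Lt_of (2 + l))
        rwa [map_commutatorElement, map_commutatorElement] at this
    unfold trm Term.val
    rw [hA, hB, hs]
    split
    · rw [key, one_mul]
    · rw [map_inv, key, ← zpow_neg]
      congr 1; ring
  have hOm : π (Om S σ) = π (tz (FreeGroup.of : ℕ → FG)) ^ n := by
    unfold Om
    rw [map_list_prod, List.map_map]
    have h1 : ∀ l ∈ List.range S.L, (π ∘ fun l => ((S.eq l).map (trm S.L σ l)).prod) l =
        if l = 0 then π (tz (FreeGroup.of : ℕ → FG)) ^ n else 1 := by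
      intro l hl
      rw [List.mem_range] at hl
      change π ((S.eq l).map (trm S.L σ l)).prod = _
      rw [map_list_prod, List.map_map]
      have h2 : (S.eq l).map (π ∘ trm S.L σ l) =
          (S.eq l).map (fun t => (π ⁅⁅p, q⁆, FreeGroup.of (2 + l)⁆) ^ (Term.val v w t)) := by
        apply List.map_congr_left
        intro t _
        exact htrm l hl t
      rw [h2, prod_zpow_list, hvw l hl]
      split
      · next h => subst h; rw [zpow_natCast]; rfl
      · rw [zpow_zero]
    rw [List.map_congr_left h1]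
    obtain ⟨m, hm⟩ : ∃ m, S.L = m + 1 := ⟨S.L - 1, by omega⟩
    rw [hm, List.range_succ_eq_map, List.map_cons, List.prod_cons, List.map_map]
    rw [if_pos rfl, List.prod_eq_one, mul_one]
    intro x hx
    obtain ⟨l, _, rfl⟩ := List.mem_map.1 hx
    simp
  have hT : (Om S σ)⁻¹ * tz (FreeGroup.of : ℕ → FG) ^ n ∈ T := by
    rw [← QuotientGroup.ker_mk' T, MonoidHom.mem_ker]
    change π _ = 1
    rw [map_mul, map_inv, hOm, map_pow]; simp
  have hfin : target S.L n (FreeGroup.of : ℕ → FG) =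
      Phi S σ * ((Om S σ)⁻¹ * tz (FreeGroup.of : ℕ → FG) ^ n) := by
    unfold target Phi
    rw [hchk, hLam]; group
  rw [hfin]
  exact (R_of_T hT).1 _ hphi

end Pool.Agent.MP720825
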