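import Mathlib

/-!
Group words and expressibility (definitions for MP_720825_lc).
-/

set_option autoImplicit false

namespace Pool.Agent.MP720825

universe u

/-- A word: a finite string of letters `x_i` (coded `(i, true)`) and `x_i⁻¹` (coded
`(i, false)`), not necessarily reduced. -/
abbrev Word : Type := List (ℕ × Bool)

/-- The value of a word in a group under an assignment of the variables. -/
def Word.eval {G : Type u} [Group G] (ρ : ℕ → G) (W : Word) : G :=
  (W.map fun c => if c.2 = true then ρ c.1 else (ρ c.1)⁻¹).prod

/-- The formal inverse of a word: reverse it and invert every letter. -/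
def Word.inv (W : Word) : Word :=
  (W.map fun c => (c.1, !c.2)).reverse

/-- `B.subst σ` is `B(σ 0, σ 1, …)`: substitute the word `σ i` for `x_i` (and its formal
inverse for `x_i⁻¹`). -/
def Word.subst (B : Word) (σ : ℕ → Word) : Word :=
  (B.map fun c => if c.2 = true then σ c.1 else (σ c.1).inv).flatten

/-- The variable `x_i` is involved in the word `B`. -/
def Word.Involves (B : Word) (i : ℕ) : Prop :=
  ∃ b : Bool, (i, b) ∈ B

/-- Two words are identically equal on the group `G`: they define the same function. -/
def IdenticallyEqual (G : Type u) [Group G] (W W' : Word) : Prop :=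
  ∀ ρ : ℕ → G, W.eval ρ = W'.eval ρ

/-- The smallest set of words containing the variables, closed under substitution into the
words of `Bs`, and under replacing a word by one identically equal to it on `G`. -/
inductive Expressible (G : Type u) [Group G] (Bs : List Word) : Word → Prop
  | var (i : ℕ) : Expressible G Bs [(i, true)]
  | subst (B : Word) (hB : B ∈ Bs) (σ : ℕ → Word)
      (h : ∀ i, B.Involves i → Expressible G Bs (σ i)) : Expressible G Bs (B.subst σ)
  | congr (W W' : Word) (hW : Expressible G Bs W) (h : IdenticallyEqual G W W') :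
      Expressible G Bs W'

/-- `A` is expressible in the words of `Bs` on every group. -/
def ExpressibleOnEveryGroup (A : Word) (Bs : List Word) : Prop :=
  ∀ (G : Type u) [Group G], Expressible G Bs A

/-! ### Basic facts -/

theorem Word.eval_eq_lift {G : Type u} [Group G] (ρ : ℕ → G) (W : Word) :
    W.eval ρ = FreeGroup.lift ρ (FreeGroup.mk W) := by
  rw [FreeGroup.lift_mk]
  unfold Word.eval
  congr 1
  apply List.map_congr_left
  rintro ⟨i, b⟩ _
  cases b <;> simp

theorem Word.eval_append {G : Type u} [Group G] (ρ : ℕ → G) (W W' : Word) :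
    Word.eval ρ (W ++ W') = W.eval ρ * W'.eval ρ := by
  simp [Word.eval]

theorem Word.eval_inv {G : Type u} [Group G] (ρ : ℕ → G) (W : Word) :
    W.inv.eval ρ = (W.eval ρ)⁻¹ := by
  induction W with
  | nil => simp [Word.eval, Word.inv]
  | cons c W ih =>
    have h1 : Word.inv (c :: W) = Word.inv W ++ [(c.1, !c.2)] := by
      simp [Word.inv]
    rw [h1, Word.eval_append, ih]
    have h2 : Word.eval ρ (c :: W) = Word.eval ρ [c] * Word.eval ρ W := by
      rw [← Word.eval_append]; rfl
    rw [h2, mul_inv_rev]
    congr 1
    obtain ⟨i, b⟩ := c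
    cases b <;> simp [Word.eval]

theorem Word.eval_subst {G : Type u} [Group G] (ρ : ℕ → G) (B : Word) (σ : ℕ → Word) :
    (B.subst σ).eval ρ = B.eval (fun i => (σ i).eval ρ) := by
  induction B with
  | nil => simp [Word.eval, Word.subst]
  | cons c B ih =>
    have h1 : Word.subst (c :: B) σ =
        (if c.2 = true then σ c.1 else (σ c.1).inv) ++ Word.subst B σ := by
      simp [Word.subst]
    have h2 : Word.eval (fun i => (σ i).eval ρ) (c :: B) =
        Word.eval (fun i => (σ i).eval ρ) [c] * Word.eval (fun i => (σ i).eval ρ) B := by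
      rw [← Word.eval_append]; rfl
    rw [h1, Word.eval_append, ih, h2]
    congr 1
    obtain ⟨i, b⟩ := c
    cases b
    · simpa [Word.eval] using Word.eval_inv ρ (σ i)
    · simp [Word.eval]

theorem Word.eval_congr {G : Type u} [Group G] {ρ ρ' : ℕ → G} (B : Word)
    (h : ∀ i, B.Involves i → ρ i = ρ' i) : B.eval ρ = B.eval ρ' := by
  unfold Word.eval
  congr 1
  apply List.map_congr_left
  rintro ⟨i, b⟩ hib
  have : ρ i = ρ' i := h i ⟨b, hib⟩
  simp [this]

/-- The closure in a group of a family of elements under the word operations of `Bs`. -/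
inductive Clo {G : Type u} [Group G] (Bs : List Word) (ρ : ℕ → G) : G → Prop
  | var (i : ℕ) : Clo Bs ρ (ρ i)
  | app (B : Word) (hB : B ∈ Bs) (σ : ℕ → G) (h : ∀ i, Clo Bs ρ (σ i)) :
      Clo Bs ρ (B.eval σ)

/-- Words expressible on `G` take values in the closure. -/
theorem clo_of_expressible {G : Type u} [Group G] {Bs : List Word} (ρ : ℕ → G) {W : Word}
    (h : Expressible G Bs W) : Clo Bs ρ (W.eval ρ) := by
  induction h with
  | var i => simpa [Word.eval] using Clo.var (Bs := Bs) (ρ := ρ) i
  | subst B hB σ h ih =>
    rw [Word.eval_subst]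
    classical
    have key : B.eval (fun i => (σ i).eval ρ) =
        B.eval (fun i => if B.Involves i then (σ i).eval ρ else ρ 0) := by
      apply Word.eval_congr
      intro i hi
      simp [hi]
    rw [key]
    refine Clo.app B hB _ fun i => ?_
    by_cases hi : B.Involves i
    · simp only [hi, if_true]; exact ih i hi
    · simp only [hi, if_false]; exact Clo.var 0
  | congr W W' hW h ih => rw [← h ρ]; exact ih

theorem eval_of (W : Word) : Word.eval FreeGroup.of W = FreeGroup.mk W := by
  rw [Word.eval_eq_lift]
  have : FreeGroup.lift (FreeGroup.of : ℕ → FreeGroup ℕ) = MonoidHom.id _ := by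
    ext i; simp
  rw [this]; rfl

/-- Elements of the closure of the free generators in the free group give words which are
expressible on every group. -/
theorem expressible_of_clo {G : Type u} [Group G] {Bs : List Word} {g : FreeGroup ℕ}
    (h : Clo Bs (FreeGroup.of : ℕ → FreeGroup ℕ) g) :
    ∀ W : Word, FreeGroup.mk W = g → Expressible G Bs W := by
  induction h with
  | var i =>
    intro W hW
    refine Expressible.congr _ _ (Expressible.var i) fun ρ => ?_
    rw [Word.eval_eq_lift, Word.eval_eq_lift, hW]
    rfl
  | app B hB σ h ih =>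
    intro W hW
    refine Expressible.congr _ _ (Expressible.subst B hB (fun i => (σ i).toWord)
      fun i _ => ih i _ (FreeGroup.mk_toWord)) fun ρ => ?_
    rw [Word.eval_eq_lift ρ W, hW, Word.eval_subst]
    have h1 : ∀ i, Word.eval ρ ((σ i).toWord) = FreeGroup.lift ρ (σ i) := by
      intro i
      rw [Word.eval_eq_lift, FreeGroup.mk_toWord]
    simp only [h1]
    rw [Word.eval_eq_lift, Word.eval_eq_lift]
    have h2 : FreeGroup.lift (fun i => FreeGroup.lift ρ (σ i)) =
        (FreeGroup.lift ρ).comp (FreeGroup.lift σ) := by
      ext i; simp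
    rw [h2]; rfl

end Pool.Agent.MP720825
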