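import Pool.Agent.MP_720825_lc_Model

/-!
The word operations used for MP_720825_lc, written as functions on every group.
-/

set_option autoImplicit false

open scoped commutatorElement

namespace Pool.Agent.MP720825

universe u v

/-- A signed product of two (optional) unknowns. -/
abbrev Term : Type := Bool × Option ℕ × Option ℕ

/-- A system: `L` equations, `m` unknowns. -/
structure Sys where
  L : ℕ
  m : ℕ
  eq : ℕ → List Term

section
variable {G : Type u} [Group G] {H : Type v} [Group H]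

def Yg (L : ℕ) (σ : ℕ → G) (i : ℕ) : G := (σ (L + 2 + 4 * i + 1))⁻¹ * σ (L + 2 + 4 * i)

def Zg (L : ℕ) (σ : ℕ → G) (i : ℕ) : G := (σ (L + 2 + 4 * i + 3))⁻¹ * σ (L + 2 + 4 * i + 2)

def Ag (L : ℕ) (σ : ℕ → G) : Option ℕ → G
  | none => σ 0
  | some i => Yg L σ i

def Bg (L : ℕ) (σ : ℕ → G) : Option ℕ → G
  | none => σ 1
  | some i => Zg L σ i

def trm (L : ℕ) (σ : ℕ → G) (l : ℕ) (t : Term) : G :=
  if t.1 = true then ⁅⁅Ag L σ t.2.1, Bg L σ t.2.2⁆, σ (2 + l)⁆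
  else ⁅⁅Ag L σ t.2.1, Bg L σ t.2.2⁆, σ (2 + l)⁆⁻¹

def Om (S : Sys) (σ : ℕ → G) : G :=
  ((List.range S.L).map fun l => ((S.eq l).map (trm S.L σ l)).prod).prod

def chk (S : Sys) (σ : ℕ → G) : G :=
  ((List.range S.m).map fun i =>
    ⁅σ (S.L + 2 + 4 * i), σ 0⁆ * ⁅σ (S.L + 2 + 4 * i + 1), σ 0⁆ *
    (⁅σ 1, σ (S.L + 2 + 4 * i + 2)⁆ * ⁅σ 1, σ (S.L + 2 + 4 * i + 3)⁆)).prod

def Lam (L : ℕ) (σ : ℕ → G) : G :=
  ⁅σ 0, σ 1⁆ * (σ 0 * σ 1 ^ 2 * ((List.range L).map fun l => σ (2 + l) ^ (l + 3)).prod)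

def Phi (S : Sys) (σ : ℕ → G) : G := Lam S.L σ * chk S σ * Om S σ

def tz (σ : ℕ → G) : G := ⁅⁅σ 0, σ 1⁆, σ 2⁆

def lnc (σ : ℕ → G) : ℕ → G
  | 0 => (σ 1)⁻¹ * σ 2
  | k + 1 => ⁅lnc σ k, (σ (2 * k + 3))⁻¹ * σ (2 * k + 4)⁆

def Kop (k : ℕ) (b : Bool) (σ : ℕ → G) : G :=
  if b = true then σ 0 * lnc σ k else σ 0 * (lnc σ k)⁻¹

def Mop (σ : ℕ → G) : G := σ 0 * σ 1

theorem map_Ag (f : G →* H) (L : ℕ) (σ : ℕ → G) (a : Option ℕ) :
    f (Ag L σ a) = Ag L (fun i => f (σ i)) a := by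
  cases a <;> simp [Ag, Yg]

theorem map_Bg (f : G →* H) (L : ℕ) (σ : ℕ → G) (a : Option ℕ) :
    f (Bg L σ a) = Bg L (fun i => f (σ i)) a := by
  cases a <;> simp [Bg, Zg]

theorem map_trm (f : G →* H) (L : ℕ) (σ : ℕ → G) (l : ℕ) (t : Term) :
    f (trm L σ l t) = trm L (fun i => f (σ i)) l t := by
  unfold trm
  split <;> simp [map_commutatorElement, map_Ag, map_Bg]

theorem map_Om (f : G →* H) (S : Sys) (σ : ℕ → G) :
    f (Om S σ) = Om S (fun i => f (σ i)) := by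
  simp [Om, map_list_prod, Function.comp_def, map_trm]

theorem map_chk (f : G →* H) (S : Sys) (σ : ℕ → G) :
    f (chk S σ) = chk S (fun i => f (σ i)) := by
  simp [chk, map_list_prod, Function.comp_def, map_commutatorElement]

theorem map_Lam (f : G →* H) (L : ℕ) (σ : ℕ → G) :
    f (Lam L σ) = Lam L (fun i => f (σ i)) := by
  simp [Lam, map_list_prod, Function.comp_def, map_commutatorElement]

theorem map_Phi (f : G →* H) (S : Sys) (σ : ℕ → G) :
    f (Phi S σ) = Phi S (fun i => f (σ i)) := by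
  simp [Phi, map_Om, map_chk, map_Lam]

theorem map_tz (f : G →* H) (σ : ℕ → G) : f (tz σ) = tz (fun i => f (σ i)) := by
  simp [tz, map_commutatorElement]

theorem map_lnc (f : G →* H) (σ : ℕ → G) (k : ℕ) :
    f (lnc σ k) = lnc (fun i => f (σ i)) k := by
  induction k with
  | zero => simp [lnc]
  | succ k ih => simp [lnc, map_commutatorElement, ih]

theorem map_Kop (f : G →* H) (k : ℕ) (b : Bool) (σ : ℕ → G) :
    f (Kop k b σ) = Kop k b (fun i => f (σ i)) := by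
  unfold Kop
  split <;> simp [map_lnc]

theorem map_Mop (f : G →* H) (σ : ℕ → G) : f (Mop σ) = Mop (fun i => f (σ i)) := by
  simp [Mop]

end

/-- The words. -/
def wPhi (S : Sys) : Word := (Phi S (FreeGroup.of : ℕ → FreeGroup ℕ)).toWord
def wK (k : ℕ) (b : Bool) : Word := (Kop k b (FreeGroup.of : ℕ → FreeGroup ℕ)).toWord
def wM : Word := (Mop (FreeGroup.of : ℕ → FreeGroup ℕ)).toWord

def ops (S : Sys) : List Word :=
  [wM, wK 3 true, wK 3 false, wK 4 true, wK 4 false, wK 5 true, wK 5 false, wPhi S]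

section
variable {G : Type u} [Group G]

theorem eval_wPhi (S : Sys) (σ : ℕ → G) : (wPhi S).eval σ = Phi S σ := by
  rw [Word.eval_eq_lift, wPhi, FreeGroup.mk_toWord, map_Phi]
  simp

theorem eval_wK (k : ℕ) (b : Bool) (σ : ℕ → G) : (wK k b).eval σ = Kop k b σ := by
  rw [Word.eval_eq_lift, wK, FreeGroup.mk_toWord, map_Kop]
  simp

theorem eval_wM (σ : ℕ → G) : wM.eval σ = Mop σ := by
  rw [Word.eval_eq_lift, wM, FreeGroup.mk_toWord, map_Mop]
  simp

end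

end Pool.Agent.MP720825
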