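import Pool.Agent.MP_720825_lc_U4

/-!
Soundness of the reduction for MP_720825_lc.
-/

set_option autoImplicit false

open scoped commutatorElement

namespace Pool.Agent.MP720825

universe v

abbrev Idx : Type := ℕ → ℤ × ℤ × (ℕ → ℤ)

abbrev P : Type := Idx → U4

/-- The letters in the product group. -/
def rho (i : ℕ) : P := fun r => ⟨(r i).1, (r i).2.1, 0, (r i).2.2, 0, 0⟩

/-- Evaluation at an index. -/
def ev (r : Idx) : P →* U4 := Pi.evalMonoidHom (fun _ : Idx => U4) r

theorem ev_apply (r : Idx) (g : P) : ev r g = g r := rfl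

theorem ev_rho (r : Idx) (i : ℕ) : ev r (rho i) = ⟨(r i).1, (r i).2.1, 0, (r i).2.2, 0, 0⟩ := rfl

theorem P_comm_comm_comm (g h k l : P) : ⁅⁅⁅g, h⁆, k⁆, l⁆ = 1 := by
  funext r
  have h1 : ev r ⁅⁅⁅g, h⁆, k⁆, l⁆ = 1 := by
    rw [map_commutatorElement, map_commutatorElement, map_commutatorElement]
    exact U4.comm_comm_comm _ _ _ _
  exact h1

theorem lnc_eq_one (σ : ℕ → P) (k : ℕ) : lnc σ (k + 3) = 1 := by
  induction k with
  | zero => simp only [lnc]; exact P_comm_comm_comm _ _ _ _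
  | succ k ih =>
    have : lnc σ (k + 1 + 3) = ⁅lnc σ (k + 3), (σ (2 * (k + 3) + 3))⁻¹ * σ (2 * (k + 3) + 4)⁆ := rfl
    rw [this, ih]; simp

theorem Kop_eq (σ : ℕ → P) (k : ℕ) (b : Bool) : Kop (k + 3) b σ = σ 0 := by
  unfold Kop
  rw [lnc_eq_one]; simp

inductive C (S : Sys) : P → Prop
  | var (i : ℕ) : C S (rho i)
  | mul (g h : P) (hg : C S g) (hh : C S h) : C S (g * h)
  | phi (σ : ℕ → P) (h : ∀ i, C S (σ i)) : C S (Phi S σ)

theorem C_of_clo {S : Sys} {g : P} (h : Clo (ops S) rho g) : C S g := by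
  induction h with
  | var i => exact C.var i
  | app B hB σ h ih =>
    simp only [ops, List.mem_cons, List.not_mem_nil, or_false] at hB
    rcases hB with rfl | rfl | rfl | rfl | rfl | rfl | rfl | rfl
    · rw [eval_wM]; exact C.mul _ _ (ih 0) (ih 1)
    · rw [eval_wK, Kop_eq σ 0]; exact ih 0
    · rw [eval_wK, Kop_eq σ 0]; exact ih 0
    · rw [eval_wK, Kop_eq σ 1]; exact ih 0
    · rw [eval_wK, Kop_eq σ 1]; exact ih 0
    · rw [eval_wK, Kop_eq σ 2]; exact ih 0
    · rw [eval_wK, Kop_eq σ 2]; exact ih 0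
    · rw [eval_wPhi]; exact C.phi _ ih

theorem prod_range_list {A : Type v} [CommMonoid A] (f : ℕ → A) (n : ℕ) :
    ((List.range n).map f).prod = ∏ i ∈ Finset.range n, f i := by
  induction n with
  | zero => simp
  | succ n ih => simp [List.range_succ, Finset.prod_range_succ, ih]

theorem comm_Lam {A : Type v} [CommGroup A] (L : ℕ) (τ : ℕ → A) :
    Lam L τ = ∏ j ∈ Finset.range (L + 2), τ j ^ (j + 1) := by
  have hc : ∀ x y : A, ⁅x, y⁆ = 1 := fun x y => by
    rw [commutatorElement_eq_one_iff_mul_comm, mul_comm]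
  rw [Lam, hc, prod_range_list, Finset.prod_range_succ', Finset.prod_range_succ']
  simp only [one_mul, zero_add, pow_one]
  have : ∀ l, τ (2 + l) ^ (l + 3) = τ (l + 1 + 1) ^ (l + 1 + 1 + 1) := by
    intro l
    rw [show 2 + l = l + 1 + 1 by ring]
  simp only [this]
  rw [mul_comm (τ 0), mul_assoc, mul_comm (τ 0), mul_comm]
  rw [mul_assoc, mul_assoc]
  congr 1
  exact mul_comm _ _

theorem comm_Phi {A : Type v} [CommGroup A] (S : Sys) (τ : ℕ → A) :
    Phi S τ = ∏ j ∈ Finset.range (S.L + 2), τ j ^ (j + 1) := by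
  have hc : ∀ x y : A, ⁅x, y⁆ = 1 := fun x y => by
    rw [commutatorElement_eq_one_iff_mul_comm, mul_comm]
  have h1 : chk S τ = 1 := by
    unfold chk
    rw [List.prod_eq_one]
    intro x hx
    obtain ⟨i, _, rfl⟩ := List.mem_map.1 hx
    simp [hc]
  have h2 : Om S τ = 1 := by
    unfold Om
    rw [List.prod_eq_one]
    intro x hx
    obtain ⟨l, _, rfl⟩ := List.mem_map.1 hx
    rw [List.prod_eq_one]
    intro y hy
    obtain ⟨t, _, rfl⟩ := List.mem_map.1 hy
    unfold trm
    split <;> simp [hc]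
  rw [Phi, h1, h2, mul_one, mul_one, comm_Lam]

theorem hom_Phi {A : Type v} [CommGroup A] (S : Sys) (f : P →* A) (σ : ℕ → P) :
    f (Phi S σ) = ∏ j ∈ Finset.range (S.L + 2), f (σ j) ^ (j + 1) := by
  rw [map_Phi, comm_Phi]

theorem Phi_one {H : Type v} [Group H] (S : Sys) (τ : ℕ → H)
    (h : ∀ j < S.L + 2, τ j = 1) : Phi S τ = 1 := by
  have h0 : τ 0 = 1 := h 0 (by omega)
  have h1 : τ 1 = 1 := h 1 (by omega)
  have h2 : ∀ l < S.L, τ (2 + l) = 1 := fun l hl => h _ (by omega)
  have k1 : chk S τ = 1 := by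
    unfold chk
    rw [List.prod_eq_one]
    intro x hx
    obtain ⟨i, _, rfl⟩ := List.mem_map.1 hx
    simp [h0, h1]
  have k2 : Om S τ = 1 := by
    unfold Om
    rw [List.prod_eq_one]
    intro x hx
    obtain ⟨l, hl, rfl⟩ := List.mem_map.1 hx
    rw [List.prod_eq_one]
    intro y hy
    obtain ⟨t, _, rfl⟩ := List.mem_map.1 hy
    unfold trm
    rw [h2 l (List.mem_range.1 hl)]
    split <;> simp
  have k3 : ((List.range S.L).map fun l => τ (2 + l) ^ (l + 3)).prod = 1 := by
    rw [List.prod_eq_one]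
    intro x hx
    obtain ⟨l, hl, rfl⟩ := List.mem_map.1 hx
    simp [h2 l (List.mem_range.1 hl)]
  simp [Phi, k1, k2, Lam, k3, h0, h1]

/-- The additive version of a homomorphism to the integers. -/
def ad (f : P →* Multiplicative ℤ) (g : P) : ℤ := Multiplicative.toAdd (f g)

theorem ad_mul (f : P →* Multiplicative ℤ) (g h : P) : ad f (g * h) = ad f g + ad f h := by
  simp [ad]

theorem ad_Phi (S : Sys) (f : P →* Multiplicative ℤ) (σ : ℕ → P) :
    ad f (Phi S σ) = ∑ j ∈ Finset.range (S.L + 2), ((j : ℤ) + 1) * ad f (σ j) := by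
  unfold ad
  rw [hom_Phi, toAdd_prod]
  apply Finset.sum_congr rfl
  intro j _
  simp

theorem ad_nonneg {S : Sys} (f : P →* Multiplicative ℤ) (hf : ∀ i, 0 ≤ ad f (rho i)) {g : P}
    (hg : C S g) : 0 ≤ ad f g := by
  induction hg with
  | var i => exact hf i
  | mul g h _ _ ihg ihh => rw [ad_mul]; exact add_nonneg ihg ihh
  | phi σ _ ih =>
    rw [ad_Phi]
    apply Finset.sum_nonneg
    intro j _
    exact mul_nonneg (by positivity) (ih j)

/-- If the weight `f` vanishes on `g` and all letters but `k` have positive weight, then every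
homomorphism killing the letter `k` kills `g`. -/
theorem supp_trivial {H : Type v} [Group H] {S : Sys} (f : P →* Multiplicative ℤ) (χ : P →* H)
    (k : ℕ) (hf : ∀ i, 0 ≤ ad f (rho i)) (hk : ∀ i, ad f (rho i) = 0 → i = k)
    (hχ : χ (rho k) = 1) {g : P} (hg : C S g) : ad f g = 0 → χ g = 1 := by
  induction hg with
  | var i => intro h; rw [hk i h]; exact hχ
  | mul g h hg hh ihg ihh =>
    intro h0
    rw [ad_mul] at h0
    have h1 := ad_nonneg f hf hg
    have h2 := ad_nonneg f hf hh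
    rw [map_mul, ihg (by omega), ihh (by omega), one_mul]
  | phi σ hσ ih =>
    intro h0
    rw [ad_Phi] at h0
    have h1 : ∀ j ∈ Finset.range (S.L + 2), 0 ≤ ((j : ℤ) + 1) * ad f (σ j) := fun j _ =>
      mul_nonneg (by positivity) (ad_nonneg f hf (hσ j))
    rw [Finset.sum_eq_zero_iff_of_nonneg h1] at h0
    rw [map_Phi]
    apply Phi_one
    intro j hj
    apply ih
    have := h0 j (Finset.mem_range.2 hj)
    rcases mul_eq_zero.1 this with h | h
    · have : (0 : ℤ) < (j : ℤ) + 1 := by positivity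
      omega
    · exact h

/-- The degree. -/
def degHom : P →* Multiplicative ℤ := U4.homA.comp (ev fun _ => (1, 0, 0))

def deg (g : P) : ℤ := ad degHom g

theorem deg_mul (g h : P) : deg (g * h) = deg g + deg h := ad_mul _ _ _

theorem deg_rho (i : ℕ) : deg (rho i) = 1 := rfl

/-- The total degree of the leading word. -/
def D (S : Sys) : ℤ := ∑ j ∈ Finset.range (S.L + 2), ((j : ℤ) + 1)

theorem one_lt_D (S : Sys) : 1 < D S := by
  unfold D
  rw [Finset.sum_range_succ', Finset.sum_range_succ']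
  have : 0 ≤ ∑ k ∈ Finset.range S.L, (((k + 1 + 1 : ℕ) : ℤ) + 1) :=
    Finset.sum_nonneg fun _ _ => by positivity
  simp only [Nat.cast_add, Nat.cast_one, Nat.cast_zero] at this ⊢
  omega

theorem deg_pos {S : Sys} {g : P} (hg : C S g) : 1 ≤ deg g := by
  induction hg with
  | var i => exact le_of_eq (deg_rho i).symm
  | mul g h _ _ ihg ihh => rw [deg_mul]; omega
  | phi σ _ ih =>
    have : D S ≤ deg (Phi S σ) := by
      unfold deg D
      rw [ad_Phi]
      apply Finset.sum_le_sum
      intro j _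
      have h1 : 1 ≤ deg (σ j) := ih j
      have h2 : (0 : ℤ) ≤ (j : ℤ) + 1 := by positivity
      calc (j : ℤ) + 1 = ((j : ℤ) + 1) * 1 := by ring
        _ ≤ ((j : ℤ) + 1) * deg (σ j) := mul_le_mul_of_nonneg_left h1 h2
    have := one_lt_D S
    omega

theorem D_le_deg_Phi {S : Sys} (σ : ℕ → P) (hσ : ∀ i, C S (σ i)) : D S ≤ deg (Phi S σ) := by
  unfold deg D
  rw [ad_Phi]
  apply Finset.sum_le_sum
  intro j _
  have h1 : 1 ≤ deg (σ j) := deg_pos (hσ j)
  have h2 : (0 : ℤ) ≤ (j : ℤ) + 1 := by positivity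
  calc (j : ℤ) + 1 = ((j : ℤ) + 1) * 1 := by ring
    _ ≤ ((j : ℤ) + 1) * deg (σ j) := mul_le_mul_of_nonneg_left h1 h2

theorem deg_arg_of_eq {S : Sys} (σ : ℕ → P) (hσ : ∀ i, C S (σ i)) (h : deg (Phi S σ) = D S) :
    ∀ j < S.L + 2, deg (σ j) = 1 := by
  unfold deg D at h
  rw [ad_Phi, ← sub_eq_zero, ← Finset.sum_sub_distrib] at h
  have h1 : ∀ j ∈ Finset.range (S.L + 2),
      0 ≤ ((j : ℤ) + 1) * ad degHom (σ j) - ((j : ℤ) + 1) := by
    intro j _
    have h1 : 1 ≤ deg (σ j) := deg_pos (hσ j)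
    have h2 : (0 : ℤ) ≤ (j : ℤ) + 1 := by positivity
    have h3 : ((j : ℤ) + 1) * 1 ≤ ((j : ℤ) + 1) * deg (σ j) :=
      mul_le_mul_of_nonneg_left h1 h2
    unfold deg at h3
    linarith
  rw [Finset.sum_eq_zero_iff_of_nonneg h1] at h
  intro j hj
  have h2 := h j (Finset.mem_range.2 hj)
  have h3 : ((j : ℤ) + 1) * (ad degHom (σ j) - 1) = 0 := by linarith
  rcases mul_eq_zero.1 h3 with h | h
  · have : (0 : ℤ) < (j : ℤ) + 1 := by positivity
    omega
  · unfold deg; omega

theorem eq_rho_of_deg {S : Sys} {g : P} (hg : C S g) (h : deg g = 1) : ∃ i, g = rho i := by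
  cases hg with
  | var i => exact ⟨i, rfl⟩
  | mul g h hg hh =>
    rw [deg_mul] at h
    have := deg_pos hg
    have := deg_pos hh
    omega
  | phi σ hσ =>
    have := D_le_deg_Phi σ hσ
    have := one_lt_D S
    omega

/-- The index used to recognise the leading word. -/
def r10 : Idx := fun i => if i = 0 then (0, 1, 0) else if i = 1 then (1, 0, 0) else (0, 0, 0)

theorem a_r10_nonneg {S : Sys} {g : P} (hg : C S g) : 0 ≤ (g r10).a := by
  have := ad_nonneg (U4.homA.comp (ev r10)) (fun i => ?_) hg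
  · exact this
  · change 0 ≤ (r10 i).1
    unfold r10
    split
    · simp
    · split <;> simp

theorem b_r10_nonneg {S : Sys} {g : P} (hg : C S g) : 0 ≤ (g r10).b := by
  have := ad_nonneg (U4.homB.comp (ev r10)) (fun i => ?_) hg
  · exact this
  · change 0 ≤ (r10 i).2.1
    unfold r10
    split
    · simp
    · split <;> simp

theorem ab_nonneg_of_deg_lt {S : Sys} {g : P} (hg : C S g) (h : deg g < D S) :
    0 ≤ (g r10).ab := by
  induction hg with
  | var i => exact le_refl _
  | mul g h' hg hh ihg ihh =>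
    rw [deg_mul] at h
    have h1 := deg_pos hg
    have h2 := deg_pos hh
    have h3 := ihg (by omega)
    have h4 := ihh (by omega)
    have h5 := a_r10_nonneg hg
    have h6 := b_r10_nonneg hh
    have h7 : ((g * h') r10).ab = (g r10).ab + (h' r10).ab + (g r10).a * (h' r10).b := rfl
    rw [h7]
    positivity
  | phi σ hσ ih =>
    have := D_le_deg_Phi σ hσ
    omega

theorem struct {S : Sys} {g : P} (hg : C S g) (h : deg g = D S) (hneg : (g r10).ab < 0) :
    ∃ σ : ℕ → P, (∀ i, C S (σ i)) ∧ g = Phi S σ ∧ ∀ j < S.L + 2, ∃ i, σ j = rho i := by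
  cases hg with
  | var i =>
    rw [deg_rho] at h
    have := one_lt_D S
    omega
  | mul g h' hg hh =>
    exfalso
    rw [deg_mul] at h
    have h1 := deg_pos hg
    have h2 := deg_pos hh
    have h3 := ab_nonneg_of_deg_lt hg (by omega)
    have h4 := ab_nonneg_of_deg_lt hh (by omega)
    have h5 := a_r10_nonneg hg
    have h6 := b_r10_nonneg hh
    have h7 : ((g * h') r10).ab = (g r10).ab + (h' r10).ab + (g r10).a * (h' r10).b := rfl
    rw [h7] at hneg
    have h8 := mul_nonneg h5 h6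
    omega
  | phi σ hσ =>
    exact ⟨σ, hσ, rfl, fun j hj => eq_rho_of_deg (hσ j) (deg_arg_of_eq σ hσ h j hj)⟩

theorem counting (n : ℕ) (τ : ℕ → ℕ)
    (h : ∀ i < n, ∑ j ∈ Finset.range n, ((j : ℤ) + 1) * (if τ j = i then 1 else 0) = (i : ℤ) + 1) :
    ∀ j < n, τ j = j := by
  have h1 : Finset.range n ⊆ (Finset.range n).image τ := by
    intro i hi
    by_contra hcon
    have h2 := h i (Finset.mem_range.1 hi)
    rw [Finset.sum_eq_zero] at h2
    · have : (0 : ℤ) < (i : ℤ) + 1 := by positivity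
      omega
    · intro j hj
      have : τ j ≠ i := fun hji => hcon (Finset.mem_image.2 ⟨j, hj, hji⟩)
      simp [this]
  have h2 : ((Finset.range n).image τ).card = (Finset.range n).card :=
    le_antisymm Finset.card_image_le (Finset.card_le_card h1)
  have h3 : (Finset.range n).image τ = Finset.range n :=
    (Finset.eq_of_subset_of_card_le h1 (le_of_eq h2)).symm
  have hinj : Set.InjOn τ (Finset.range n : Set ℕ) := Finset.card_image_iff.1 h2
  intro j hj
  have hj' : j ∈ Finset.range n := Finset.mem_range.2 hj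
  have h4 : τ j ∈ Finset.range n := h3 ▸ Finset.mem_image_of_mem τ hj'
  have h5 := h (τ j) (Finset.mem_range.1 h4)
  rw [Finset.sum_eq_single j] at h5
  · simp only [if_true, mul_one] at h5
    omega
  · intro k hk hkj
    have : τ k ≠ τ j := fun hcon => hkj (hinj (by exact_mod_cast hk) (by exact_mod_cast hj') hcon)
    simp [this]
  · intro hcon; exact absurd hj' hcon

end Pool.Agent.MP720825
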