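import Pool.Agent.MP_720825_lc_Sound

/-!
Soundness of the reduction for MP_720825_lc, second part.
-/

set_option autoImplicit false

open scoped commutatorElement

namespace Pool.Agent.MP720825

/-- The value of a term. -/
def Term.val (v w : ℕ → ℤ) (t : Term) : ℤ :=
  (if t.1 = true then 1 else -1) * (t.2.1.elim 1 v * t.2.2.elim 1 w)

/-- The system has a solution with the constant `n` in the first equation. -/
def Sys.Solvable (S : Sys) (n : ℤ) : Prop :=
  ∃ v w : ℕ → ℤ, ∀ l < S.L, ((S.eq l).map (Term.val v w)).sum = if l = 0 then n else 0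

/-- The target element. -/
def target {G : Type*} [Group G] (L n : ℕ) (σ : ℕ → G) : G := Lam L σ * tz σ ^ n

theorem deg_target (S : Sys) (n : ℕ) : deg (target S.L n rho) = D S := by
  have h1 : ∀ τ : ℕ → Multiplicative ℤ, tz τ = 1 := fun τ => by
    unfold tz
    rw [commutatorElement_eq_one_iff_mul_comm, mul_comm]
  unfold deg ad D target
  rw [map_mul, map_pow, map_Lam, map_tz, comm_Lam, h1, one_pow, mul_one, toAdd_prod]
  apply Finset.sum_congr rfl
  intro j _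
  have : degHom (rho j) = Multiplicative.ofAdd 1 := rfl
  rw [this]
  simp

theorem ad_target (S : Sys) (n : ℕ) (f : P →* Multiplicative ℤ) :
    ad f (target S.L n rho) = ∑ j ∈ Finset.range (S.L + 2), ((j : ℤ) + 1) * ad f (rho j) := by
  have h1 : ∀ τ : ℕ → Multiplicative ℤ, tz τ = 1 := fun τ => by
    unfold tz
    rw [commutatorElement_eq_one_iff_mul_comm, mul_comm]
  unfold ad target
  rw [map_mul, map_pow, map_Lam, map_tz, comm_Lam, h1, one_pow, mul_one, toAdd_prod]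
  apply Finset.sum_congr rfl
  intro j _
  simp

theorem ab_target (L n : ℕ) : (target L n rho r10).ab = -1 := by
  have h0 : ev r10 (rho 0) = ⟨0, 1, 0, 0, 0, 0⟩ := rfl
  have h1 : ev r10 (rho 1) = ⟨1, 0, 0, 0, 0, 0⟩ := rfl
  have h2 : ∀ l, ev r10 (rho (2 + l)) = 1 := by
    intro l
    rw [ev_rho]
    have : r10 (2 + l) = (0, 0, 0) := by
      unfold r10
      rw [if_neg (by omega), if_neg (by omega)]
    rw [this]; rfl
  have h3 : ev r10 (target L n rho) = target L n (fun i => ev r10 (rho i)) := by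
    unfold target
    rw [map_mul, map_pow, map_Lam, map_tz]
  have h4 : (target L n rho r10) = ev r10 (target L n rho) := rfl
  rw [h4, h3]
  unfold target Lam tz
  have h5 : ((List.range L).map fun l => (ev r10 (rho (2 + l))) ^ (l + 3)).prod = 1 := by
    rw [List.prod_eq_one]
    intro x hx
    obtain ⟨l, _, rfl⟩ := List.mem_map.1 hx
    rw [h2]; simp
  have h6 : ev r10 (rho 2) = 1 := h2 0
  rw [h5]
  beta_reduce
  rw [h6, h0, h1]
  simp [commutatorElement_def, pow_two]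

theorem sum_ab (l : List U4) (h : ∀ x ∈ l, x.a = 0) :
    l.prod.a = 0 ∧ l.prod.ab = (l.map U4.ab).sum := by
  induction l with
  | nil => simp
  | cons x l ih =>
    have h1 := ih fun y hy => h y (List.mem_cons_of_mem _ hy)
    have h2 := h x List.mem_cons_self
    rw [List.prod_cons, List.map_cons, List.sum_cons]
    constructor
    · rw [U4.mul_a, h1.1, h2]; rfl
    · rw [U4.mul_ab, h1.2, h2]; ring

theorem sum_abc (l : List U4) (k : ℕ) (h : ∀ x ∈ l, x.a = 0 ∧ x.ab = 0) :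
    l.prod.a = 0 ∧ l.prod.ab = 0 ∧ l.prod.abc k = (l.map fun x => x.abc k).sum := by
  induction l with
  | nil => simp
  | cons x l ih =>
    have h1 := ih fun y hy => h y (List.mem_cons_of_mem _ hy)
    have h2 := h x List.mem_cons_self
    rw [List.prod_cons, List.map_cons, List.sum_cons]
    refine ⟨?_, ?_, ?_⟩
    · rw [U4.mul_a, h1.1, h2.1]; rfl
    · rw [U4.mul_ab, h1.2.1, h2.1, h2.2]; ring
    · rw [U4.mul_abc, h1.2.2, h2.1, h2.2]; ring

theorem pow_ab (x : U4) (h : x.a = 0) (h' : x.ab = 0) (n : ℕ) :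
    (x ^ n).a = 0 ∧ (x ^ n).ab = 0 := by
  induction n with
  | zero => simp
  | succ n ih => rw [pow_succ]; simp [ih, h, h']

theorem pow_abc (x : U4) (h : x.a = 0) (h' : x.ab = 0) (n k : ℕ) :
    (x ^ n).abc k = n * x.abc k := by
  induction n with
  | zero => simp
  | succ n ih =>
    have := pow_ab x h h' n
    rw [pow_succ, U4.mul_abc, ih, this.1, this.2]
    push_cast; ring

theorem trm_a (L : ℕ) (σ : ℕ → U4) (l : ℕ) (t : Term) :
    (trm L σ l t).a = 0 ∧ (trm L σ l t).ab = 0 := by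
  have h1 := U4.comm_a ⁅Ag L σ t.2.1, Bg L σ t.2.2⁆ (σ (2 + l))
  have h2 := U4.comm2_ab ⁅Ag L σ t.2.1, Bg L σ t.2.2⁆ (σ (2 + l)) (U4.comm_a _ _) (U4.comm_b _ _)
  unfold trm
  split
  · exact ⟨h1, h2⟩
  · rw [U4.inv_a, U4.inv_ab, h1, h2]; simp

theorem Om_ab (S : Sys) (σ : ℕ → U4) : (Om S σ).a = 0 ∧ (Om S σ).ab = 0 := by
  have key : ∀ l, (((S.eq l).map (trm S.L σ l)).prod).a = 0 ∧
      (((S.eq l).map (trm S.L σ l)).prod).ab = 0 := by
    intro l
    have := sum_abc ((S.eq l).map (trm S.L σ l)) 0 (by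
      intro x hx
      obtain ⟨t, _, rfl⟩ := List.mem_map.1 hx
      exact trm_a _ _ _ _)
    exact ⟨this.1, this.2.1⟩
  have := sum_abc ((List.range S.L).map fun l => ((S.eq l).map (trm S.L σ l)).prod) 0 (by
    intro x hx
    obtain ⟨l, _, rfl⟩ := List.mem_map.1 hx
    exact key l)
  exact ⟨this.1, this.2.1⟩

theorem tz_ab (σ : ℕ → U4) : (tz σ).a = 0 ∧ (tz σ).ab = 0 :=
  ⟨U4.comm_a _ _, U4.comm2_ab _ _ (U4.comm_a _ _) (U4.comm_b _ _)⟩

/-- Evaluation of the check word. -/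
theorem chk_ab (S : Sys) (σ : ℕ → U4) (ha0 : (σ 0).a = 0) (hb0 : (σ 0).b = 1)
    (ha1 : (σ 1).a = 1) (hb1 : (σ 1).b = 0) :
    (chk S σ).ab = ∑ i ∈ Finset.range S.m, ((σ (S.L + 2 + 4 * i)).a + (σ (S.L + 2 + 4 * i + 1)).a +
      ((σ (S.L + 2 + 4 * i + 2)).b + (σ (S.L + 2 + 4 * i + 3)).b)) := by
  unfold chk
  rw [(sum_ab _ ?_).2]
  · have h := prod_range_list (A := Multiplicative ℤ) (fun i => Multiplicative.ofAdd
      ((σ (S.L + 2 + 4 * i)).a + (σ (S.L + 2 + 4 * i + 1)).a +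
      ((σ (S.L + 2 + 4 * i + 2)).b + (σ (S.L + 2 + 4 * i + 3)).b))) S.m
    have h' : ((List.range S.m).map (fun i =>
      ((σ (S.L + 2 + 4 * i)).a + (σ (S.L + 2 + 4 * i + 1)).a +
      ((σ (S.L + 2 + 4 * i + 2)).b + (σ (S.L + 2 + 4 * i + 3)).b)))).sum =
      ∑ i ∈ Finset.range S.m, ((σ (S.L + 2 + 4 * i)).a + (σ (S.L + 2 + 4 * i + 1)).a +
      ((σ (S.L + 2 + 4 * i + 2)).b + (σ (S.L + 2 + 4 * i + 3)).b)) := h
    rw [← h', List.map_map]
    congr 1
    apply List.map_congr_left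
    intro i _
    simp only [Function.comp_def]
    rw [U4.mul_ab, U4.mul_ab, U4.mul_ab, U4.mul_a]
    simp only [U4.comm_ab, U4.comm_a, ha0, hb0, ha1, hb1]
    ring
  · intro x hx
    obtain ⟨i, _, rfl⟩ := List.mem_map.1 hx
    rw [U4.mul_a, U4.mul_a, U4.mul_a]
    simp only [U4.comm_a]; rfl

/-- Evaluation of the whole argument part at an index with given values on the first two
letters. -/
theorem check_zero (S : Sys) (n : ℕ) (σ : ℕ → P) (hσ : ∀ i, C S (σ i)) (h0 : σ 0 = rho 0)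
    (h1 : σ 1 = rho 1) (heq : tz σ ^ n = chk S σ * Om S σ) (r : Idx)
    (hr : ∀ i, 0 ≤ (r i).1 ∧ 0 ≤ (r i).2.1) (hr0 : r 0 = (0, 1, 0)) (hr1 : r 1 = (1, 0, 0)) :
    ∀ i < S.m, (σ (S.L + 2 + 4 * i) r).a = 0 ∧ (σ (S.L + 2 + 4 * i + 1) r).a = 0 ∧
      (σ (S.L + 2 + 4 * i + 2) r).b = 0 ∧ (σ (S.L + 2 + 4 * i + 3) r).b = 0 := by
  have ha : ∀ i, 0 ≤ (σ i r).a := fun i =>
    ad_nonneg (U4.homA.comp (ev r)) (fun i => (hr i).1) (hσ i)
  have hb : ∀ i, 0 ≤ (σ i r).b := fun i =>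
    ad_nonneg (U4.homB.comp (ev r)) (fun i => (hr i).2) (hσ i)
  have e1 : ev r (tz σ ^ n) = ev r (chk S σ * Om S σ) := by rw [heq]
  rw [map_pow, map_mul, map_tz, map_chk, map_Om] at e1
  have e2 := congrArg U4.ab e1
  have t1 := tz_ab (fun i => ev r (σ i))
  rw [(pow_ab _ t1.1 t1.2 n).2, U4.mul_ab, (Om_ab S fun i => ev r (σ i)).2] at e2
  have hOb : (Om S fun i => ev r (σ i)).b = 0 := by
    have k1 : U4.homB (Om S fun i => ev r (σ i)) = 1 := by
      rw [map_Om]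
      unfold Om
      rw [List.prod_eq_one]
      intro x hx
      obtain ⟨l, _, rfl⟩ := List.mem_map.1 hx
      rw [List.prod_eq_one]
      intro y hy
      obtain ⟨t, _, rfl⟩ := List.mem_map.1 hy
      have hc : ∀ x y : Multiplicative ℤ, ⁅x, y⁆ = 1 := fun x y => by
        rw [commutatorElement_eq_one_iff_mul_comm, mul_comm]
      unfold trm
      split <;> simp [hc]
    exact k1
  rw [hOb] at e2
  have c0 : (ev r (σ 0)).a = 0 ∧ (ev r (σ 0)).b = 1 := by
    rw [h0, ev_rho, hr0]; exact ⟨rfl, rfl⟩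
  have c1 : (ev r (σ 1)).a = 1 ∧ (ev r (σ 1)).b = 0 := by
    rw [h1, ev_rho, hr1]; exact ⟨rfl, rfl⟩
  rw [chk_ab S (fun i => ev r (σ i)) c0.1 c0.2 c1.1 c1.2] at e2
  have e3 : ∑ i ∈ Finset.range S.m, ((σ (S.L + 2 + 4 * i) r).a + (σ (S.L + 2 + 4 * i + 1) r).a +
      ((σ (S.L + 2 + 4 * i + 2) r).b + (σ (S.L + 2 + 4 * i + 3) r).b)) = 0 := by
    have := e2.symm
    simpa [ev_apply] using this
  rw [Finset.sum_eq_zero_iff_of_nonneg (fun i _ => by
    have := ha (S.L + 2 + 4 * i)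
    have := ha (S.L + 2 + 4 * i + 1)
    have := hb (S.L + 2 + 4 * i + 2)
    have := hb (S.L + 2 + 4 * i + 3)
    positivity)] at e3
  intro i hi
  have e4 := e3 i (Finset.mem_range.2 hi)
  have := ha (S.L + 2 + 4 * i)
  have := ha (S.L + 2 + 4 * i + 1)
  have := hb (S.L + 2 + 4 * i + 2)
  have := hb (S.L + 2 + 4 * i + 3)
  exact ⟨by omega, by omega, by omega, by omega⟩

def r1 : Idx := fun i => if i = 0 then (0, 1, 0) else (1, 0, 0)
def r2 : Idx := fun i => if i = 1 then (1, 0, 0) else (0, 1, 0)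
def r3 : Idx := fun i => if i = 0 then (1, 0, 0) else if i = 1 then (0, 1, 0)
  else (0, 0, Pi.single (i - 2) 1)

/-- Elements of the upper left row, resp. elements without `a` and `c`. -/
theorem comm_row (x y : U4) (hx : x.b = 0 ∧ (∀ n, x.c n = 0) ∧ ∀ n, x.bc n = 0)
    (hy : y.b = 0 ∧ (∀ n, y.c n = 0) ∧ ∀ n, y.bc n = 0) : ⁅x, y⁆ = 1 := by
  rw [commutatorElement_eq_one_iff_mul_comm]
  ext <;> simp [hx, hy] <;> ring

theorem comm_mid (x y : U4) (hx : x.a = 0 ∧ x.ab = 0 ∧ (∀ n, x.c n = 0) ∧ (∀ n, x.bc n = 0) ∧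
    ∀ n, x.abc n = 0)
    (hy : y.a = 0 ∧ ∀ n, y.c n = 0) : ⁅x, y⁆ = 1 := by
  rw [commutatorElement_eq_one_iff_mul_comm]
  ext <;> simp [hx, hy] <;> ring

theorem comm3_abc (x y s : U4) (hx : x.b = 0 ∧ (∀ n, x.c n = 0) ∧ ∀ n, x.bc n = 0)
    (hy : y.a = 0 ∧ ∀ n, y.c n = 0) (k : ℕ) :
    (⁅⁅x, y⁆, s⁆).abc k = x.a * y.b * s.c k := by
  rw [U4.comm2_abc _ _ (U4.comm_a _ _) (U4.comm_b _ _) (U4.comm_c _ _), U4.comm_ab, U4.comm_bc,
    hx.1, hx.2.1, hy.1, hy.2]
  ring

theorem trm_abc (L : ℕ) (σ : ℕ → U4) (l : ℕ) (t : Term) (k : ℕ)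
    (hx : (Ag L σ t.2.1).b = 0 ∧ (∀ n, (Ag L σ t.2.1).c n = 0) ∧ ∀ n, (Ag L σ t.2.1).bc n = 0)
    (hy : (Bg L σ t.2.2).a = 0 ∧ ∀ n, (Bg L σ t.2.2).c n = 0) :
    (trm L σ l t).abc k = (if t.1 = true then 1 else -1) *
      ((Ag L σ t.2.1).a * (Bg L σ t.2.2).b) * (σ (2 + l)).c k := by
  have h1 := U4.comm_a ⁅Ag L σ t.2.1, Bg L σ t.2.2⁆ (σ (2 + l))
  have h2 := U4.comm2_ab ⁅Ag L σ t.2.1, Bg L σ t.2.2⁆ (σ (2 + l)) (U4.comm_a _ _) (U4.comm_b _ _)
  have h3 := U4.comm_b ⁅Ag L σ t.2.1, Bg L σ t.2.2⁆ (σ (2 + l))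
  unfold trm
  split
  · rw [comm3_abc _ _ _ hx hy]; ring
  · rw [U4.inv_abc, h1, h2, h3, comm3_abc _ _ _ hx hy]; ring

theorem sum_range_list (f : ℕ → ℤ) (n : ℕ) :
    ((List.range n).map f).sum = ∑ i ∈ Finset.range n, f i := by
  induction n with
  | zero => simp
  | succ n ih => simp [List.range_succ, Finset.sum_range_succ, ih]

theorem sound (S : Sys) (n : ℕ) (hL : 0 < S.L) (hm : ∀ l < S.L, ∀ t ∈ S.eq l,
      (∀ i ∈ t.2.1, i < S.m) ∧ ∀ i ∈ t.2.2, i < S.m)
    (hT : C S (target S.L n rho)) : S.Solvable n := by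
  obtain ⟨σ, hσ, hTσ, hj⟩ := struct hT (deg_target S n) (by rw [ab_target]; norm_num)
  -- the constants are in their places
  have hj' : ∀ j, ∃ i, j < S.L + 2 → σ j = rho i := fun j => by
    by_cases h : j < S.L + 2
    · obtain ⟨i, hi⟩ := hj j h
      exact ⟨i, fun _ => hi⟩
    · exact ⟨0, fun h' => absurd h' h⟩
  choose τ hτ using hj'
  have hid : ∀ j < S.L + 2, τ j = j := by
    apply counting
    intro i hi
    let ri : Idx := fun k => if k = i then (1, 0, 0) else (0, 0, 0)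
    let f : P →* Multiplicative ℤ := U4.homA.comp (ev ri)
    have hf : ∀ k, ad f (rho k) = if k = i then 1 else 0 := by
      intro k
      change (ri k).1 = _
      by_cases hk : k = i <;> simp [ri, hk]
    have e1 : ad f (target S.L n rho) = ad f (Phi S σ) := by rw [hTσ]
    rw [ad_target, ad_Phi] at e1
    have e2 : ∑ j ∈ Finset.range (S.L + 2), ((j : ℤ) + 1) * ad f (rho j) = (i : ℤ) + 1 := by
      rw [Finset.sum_eq_single i]
      · rw [hf]; simp
      · intro k _ hk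
        rw [hf, if_neg hk]; simp
      · intro hcon; exact absurd (Finset.mem_range.2 hi) hcon
    rw [e2] at e1
    rw [e1]
    apply Finset.sum_congr rfl
    intro j hj
    rw [hτ j (Finset.mem_range.1 hj), hf]
  have hσj : ∀ j < S.L + 2, σ j = rho j := fun j hj => by rw [hτ j hj, hid j hj]
  have s0 := hσj 0 (by omega)
  have s1 := hσj 1 (by omega)
  have s2 : ∀ l < S.L, σ (2 + l) = rho (2 + l) := fun l hl => hσj _ (by omega)
  -- cancel the leading word
  have hLam : Lam S.L σ = Lam S.L rho := by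
    unfold Lam
    rw [s0, s1]
    congr 3
    apply List.map_congr_left
    intro l hl
    rw [s2 l (List.mem_range.1 hl)]
  have htz : tz σ = tz rho := by
    unfold tz
    rw [s0, s1, show (2 : ℕ) = 2 + 0 from rfl, s2 0 hL]
  have heq : tz σ ^ n = chk S σ * Om S σ := by
    have : Lam S.L rho * tz rho ^ n = Lam S.L σ * chk S σ * Om S σ := hTσ
    rw [hLam, mul_assoc] at this
    rw [htz]
    exact mul_left_cancel this
  -- supports
  have c1 := check_zero S n σ hσ s0 s1 heq r1 (by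
    intro i; unfold r1; split <;> simp) (by simp [r1]) (by simp [r1])
  have c2 := check_zero S n σ hσ s0 s1 heq r2 (by
    intro i; unfold r2; split <;> simp) (by simp [r2]) (by simp [r2])
  have hy : ∀ k, C S (σ k) → (σ k r1).a = 0 → U4.low (σ k r3) = 1 := by
    intro k hk h0
    refine supp_trivial (U4.homA.comp (ev r1)) (U4.low.comp (ev r3)) 0 ?_ ?_ ?_ hk h0
    · intro i
      change 0 ≤ (r1 i).1
      unfold r1; split <;> simp
    · intro i hi
      change (r1 i).1 = 0 at hi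
      unfold r1 at hi
      by_contra hne
      rw [if_neg hne] at hi
      simp at hi
    · rfl
  have hza : ∀ k, C S (σ k) → (σ k r2).b = 0 → (σ k r3).a = 0 := by
    intro k hk h0
    have := supp_trivial (U4.homB.comp (ev r2)) (U4.homA.comp (ev r3)) 1 ?_ ?_ ?_ hk h0
    · exact this
    · intro i
      change 0 ≤ (r2 i).2.1
      unfold r2; split <;> simp
    · intro i hi
      change (r2 i).2.1 = 0 at hi
      unfold r2 at hi
      by_contra hne
      rw [if_neg hne] at hi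
      simp at hi
    · rfl
  have hzc : ∀ k, C S (σ k) → (σ k r2).b = 0 → ∀ p, (σ k r3).c p = 0 := by
    intro k hk h0 p
    have := supp_trivial (U4.homB.comp (ev r2)) ((U4.homC p).comp (ev r3)) 1 ?_ ?_ ?_ hk h0
    · exact this
    · intro i
      change 0 ≤ (r2 i).2.1
      unfold r2; split <;> simp
    · intro i hi
      change (r2 i).2.1 = 0 at hi
      unfold r2 at hi
      by_contra hne
      rw [if_neg hne] at hi
      simp at hi
    · rfl
  have hylow : ∀ x : U4, U4.low x = 1 → x.b = 0 ∧ (∀ n, x.c n = 0) ∧ ∀ n, x.bc n = 0 := by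
    intro x hx
    refine ⟨congrArg U4.b hx, fun n => congrFun (congrArg U4.c hx) n,
      fun n => congrFun (congrArg U4.bc hx) n⟩
  -- evaluation at r3
  let s : ℕ → U4 := fun i => ev r3 (σ i)
  have e0 : s 0 = ⟨1, 0, 0, 0, 0, 0⟩ := by
    change ev r3 (σ 0) = _
    rw [s0]; rfl
  have e1 : s 1 = ⟨0, 1, 0, 0, 0, 0⟩ := by
    change ev r3 (σ 1) = _
    rw [s1]; rfl
  have e2 : ∀ l < S.L, s (2 + l) = ⟨0, 0, 0, Pi.single l 1, 0, 0⟩ := by
    intro l hl
    change ev r3 (σ (2 + l)) = _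
    rw [s2 l hl, ev_rho]
    have : r3 (2 + l) = (0, 0, Pi.single l 1) := by
      unfold r3
      rw [if_neg (by omega), if_neg (by omega)]
      simp
    rw [this]
  have hY : ∀ i < S.m, (s (S.L + 2 + 4 * i)).b = 0 ∧ (∀ n, (s (S.L + 2 + 4 * i)).c n = 0) ∧
      ∀ n, (s (S.L + 2 + 4 * i)).bc n = 0 := fun i hi => hylow _ (hy _ (hσ _) (c1 i hi).1)
  have hY' : ∀ i < S.m, (s (S.L + 2 + 4 * i + 1)).b = 0 ∧
      (∀ n, (s (S.L + 2 + 4 * i + 1)).c n = 0) ∧
      ∀ n, (s (S.L + 2 + 4 * i + 1)).bc n = 0 := fun i hi => hylow _ (hy _ (hσ _) (c1 i hi).2.1)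
  have hZ : ∀ i < S.m, (s (S.L + 2 + 4 * i + 2)).a = 0 ∧
      ∀ n, (s (S.L + 2 + 4 * i + 2)).c n = 0 := fun i hi =>
    ⟨hza _ (hσ _) (c2 i hi).2.2.1, hzc _ (hσ _) (c2 i hi).2.2.1⟩
  have hZ' : ∀ i < S.m, (s (S.L + 2 + 4 * i + 3)).a = 0 ∧
      ∀ n, (s (S.L + 2 + 4 * i + 3)).c n = 0 := fun i hi =>
    ⟨hza _ (hσ _) (c2 i hi).2.2.2, hzc _ (hσ _) (c2 i hi).2.2.2⟩
  have hchk : chk S s = 1 := by
    unfold chk
    rw [List.prod_eq_one]
    intro x hx
    obtain ⟨i, hi, rfl⟩ := List.mem_map.1 hx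
    rw [List.mem_range] at hi
    have p1 : (s 0).b = 0 ∧ (∀ n, (s 0).c n = 0) ∧ ∀ n, (s 0).bc n = 0 := by
      rw [e0]; exact ⟨rfl, fun _ => rfl, fun _ => rfl⟩
    have p2 : (s 1).a = 0 ∧ (s 1).ab = 0 ∧ (∀ n, (s 1).c n = 0) ∧ (∀ n, (s 1).bc n = 0) ∧
        ∀ n, (s 1).abc n = 0 := by
      rw [e1]; exact ⟨rfl, rfl, fun _ => rfl, fun _ => rfl, fun _ => rfl⟩
    rw [comm_row _ _ (hY i hi) p1, comm_row _ _ (hY' i hi) p1, comm_mid _ _ p2 (hZ i hi),
      comm_mid _ _ p2 (hZ' i hi)]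
    simp
  refine ⟨fun i => (Yg S.L s i).a, fun i => (Zg S.L s i).b, fun k hk => ?_⟩
  have hA : ∀ o : Option ℕ, (∀ i ∈ o, i < S.m) → (Ag S.L s o).b = 0 ∧
      (∀ n, (Ag S.L s o).c n = 0) ∧ ∀ n, (Ag S.L s o).bc n = 0 := by
    intro o ho
    cases o with
    | none =>
      have : Ag S.L s none = s 0 := rfl
      rw [this, e0]; exact ⟨rfl, fun _ => rfl, fun _ => rfl⟩
    | some i =>
      have hi : i < S.m := ho i rfl
      have g1 := hY i hi
      have g2 := hY' i hi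
      have : Ag S.L s (some i) = (s (S.L + 2 + 4 * i + 1))⁻¹ * s (S.L + 2 + 4 * i) := rfl
      rw [this]
      refine ⟨?_, fun n => ?_, fun n => ?_⟩
      · simp [g1.1, g2.1]
      · simp [g1.2.1, g2.2.1]
      · simp [g1.1, g1.2.1, g1.2.2, g2.1, g2.2.1, g2.2.2]
  have hB : ∀ o : Option ℕ, (∀ i ∈ o, i < S.m) → (Bg S.L s o).a = 0 ∧
      (∀ n, (Bg S.L s o).c n = 0) := by
    intro o ho
    cases o with
    | none =>
      have : Bg S.L s none = s 1 := rfl
      rw [this, e1]; exact ⟨rfl, fun _ => rfl⟩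
    | some i =>
      have hi : i < S.m := ho i rfl
      have g1 := hZ i hi
      have g2 := hZ' i hi
      have : Bg S.L s (some i) = (s (S.L + 2 + 4 * i + 3))⁻¹ * s (S.L + 2 + 4 * i + 2) := rfl
      rw [this]
      refine ⟨?_, fun n => ?_⟩
      · simp [g1.1, g2.1]
      · simp [g1.2, g2.2]
  have hval : ∀ l < S.L, ∀ t ∈ S.eq l, (trm S.L s l t).abc k =
      Term.val (fun i => (Yg S.L s i).a) (fun i => (Zg S.L s i).b) t * (if l = k then 1 else 0) := by
    intro l hl t ht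
    rw [trm_abc S.L s l t k (hA _ (hm l hl t ht).1) (hB _ (hm l hl t ht).2), e2 l hl]
    have a1 : (Ag S.L s t.2.1).a = t.2.1.elim 1 (fun i => (Yg S.L s i).a) := by
      cases t.2.1 with
      | none => change (s 0).a = 1; rw [e0]
      | some i => rfl
    have a2 : (Bg S.L s t.2.2).b = t.2.2.elim 1 (fun i => (Zg S.L s i).b) := by
      cases t.2.2 with
      | none => change (s 1).b = 1; rw [e1]
      | some i => rfl
    rw [a1, a2, Term.val]
    congr 1
    change (Pi.single l (1 : ℤ) : ℕ → ℤ) k = _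
    rw [Pi.single_apply]
    by_cases h : l = k
    · simp [h]
    · rw [if_neg h, if_neg (fun h' => h h'.symm)]
  have hOm : (Om S s).abc k =
      ((S.eq k).map (Term.val (fun i => (Yg S.L s i).a) (fun i => (Zg S.L s i).b))).sum := by
    have q1 : ∀ l, ∀ x ∈ (S.eq l).map (trm S.L s l), x.a = 0 ∧ x.ab = 0 := by
      intro l x hx
      obtain ⟨t, _, rfl⟩ := List.mem_map.1 hx
      exact trm_a _ _ _ _
    unfold Om
    rw [(sum_abc _ k ?_).2.2]
    · rw [List.map_map, sum_range_list, Finset.sum_eq_single k]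
      · change (((S.eq k).map (trm S.L s k)).prod).abc k = _
        rw [(sum_abc _ k (q1 k)).2.2, List.map_map]
        congr 1
        apply List.map_congr_left
        intro t ht
        change (trm S.L s k t).abc k = _
        rw [hval k hk t ht]; simp
      · intro l hl hlk
        change (((S.eq l).map (trm S.L s l)).prod).abc k = _
        rw [(sum_abc _ k (q1 l)).2.2, List.map_map]
        apply List.sum_eq_zero
        intro x hx
        obtain ⟨t, ht, rfl⟩ := List.mem_map.1 hx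
        change (trm S.L s l t).abc k = _
        rw [hval l (Finset.mem_range.1 hl) t ht, if_neg hlk, mul_zero]
      · intro h; exact absurd (Finset.mem_range.2 hk) h
    · intro x hx
      obtain ⟨l, _, rfl⟩ := List.mem_map.1 hx
      have := sum_abc _ 0 (q1 l)
      exact ⟨this.1, this.2.1⟩
  have hfin : ev r3 (tz σ ^ n) = ev r3 (chk S σ * Om S σ) := by rw [heq]
  rw [map_pow, map_mul, map_tz, map_chk, map_Om] at hfin
  change tz s ^ n = chk S s * Om S s at hfin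
  rw [hchk, one_mul] at hfin
  rw [← hOm, ← hfin]
  have t1 := tz_ab s
  rw [pow_abc _ t1.1 t1.2]
  have t2 : (tz s).abc k = (if k = 0 then 1 else 0) := by
    have hA0 := hA none (by simp)
    have hB0 := hB none (by simp)
    have q3 := comm3_abc (Ag S.L s none) (Bg S.L s none) (s 2) hA0 hB0 k
    change (⁅⁅s 0, s 1⁆, s 2⁆).abc k = (s 0).a * (s 1).b * (s 2).c k at q3
    unfold tz
    rw [q3]
    have : s 2 = s (2 + 0) := rfl
    rw [this, e2 0 hL, e0, e1]
    change (1 : ℤ) * 1 * (Pi.single 0 (1 : ℤ) : ℕ → ℤ) k = _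
    rw [Pi.single_apply]; simp
  rw [t2]
  by_cases h : k = 0 <;> simp [h]

end Pool.Agent.MP720825
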