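import Pool.Agent.MP_720825_lc_Ops

/-!
A unitriangular group of nilpotency class three used for soundness.
-/

set_option autoImplicit false

open scoped commutatorElement

namespace Pool.Agent.MP720825

/-- Unitriangular matrices with block sizes `1,1,1,ℕ`. -/
@[ext]
structure U4 where
  a : ℤ
  b : ℤ
  ab : ℤ
  c : ℕ → ℤ
  bc : ℕ → ℤ
  abc : ℕ → ℤ

namespace U4

instance : One U4 := ⟨⟨0, 0, 0, 0, 0, 0⟩⟩

instance : Mul U4 := ⟨fun g h =>
  ⟨g.a + h.a, g.b + h.b, g.ab + h.ab + g.a * h.b,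
    fun n => g.c n + h.c n, fun n => g.bc n + h.bc n + g.b * h.c n,
    fun n => g.abc n + h.abc n + g.a * h.bc n + g.ab * h.c n⟩⟩

instance : Inv U4 := ⟨fun g =>
  ⟨-g.a, -g.b, -g.ab + g.a * g.b, fun n => -g.c n, fun n => -g.bc n + g.b * g.c n,
    fun n => -g.abc n + g.a * g.bc n + g.ab * g.c n - g.a * g.b * g.c n⟩⟩

@[simp] theorem one_a : (1 : U4).a = 0 := rfl
@[simp] theorem one_b : (1 : U4).b = 0 := rfl
@[simp] theorem one_ab : (1 : U4).ab = 0 := rfl
@[simp] theorem one_c (n : ℕ) : (1 : U4).c n = 0 := rfl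
@[simp] theorem one_bc (n : ℕ) : (1 : U4).bc n = 0 := rfl
@[simp] theorem one_abc (n : ℕ) : (1 : U4).abc n = 0 := rfl
@[simp] theorem mul_a (g h : U4) : (g * h).a = g.a + h.a := rfl
@[simp] theorem mul_b (g h : U4) : (g * h).b = g.b + h.b := rfl
@[simp] theorem mul_ab (g h : U4) : (g * h).ab = g.ab + h.ab + g.a * h.b := rfl
@[simp] theorem mul_c (g h : U4) (n : ℕ) : (g * h).c n = g.c n + h.c n := rfl
@[simp] theorem mul_bc (g h : U4) (n : ℕ) :
    (g * h).bc n = g.bc n + h.bc n + g.b * h.c n := rfl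
@[simp] theorem mul_abc (g h : U4) (n : ℕ) :
    (g * h).abc n = g.abc n + h.abc n + g.a * h.bc n + g.ab * h.c n := rfl
@[simp] theorem inv_a (g : U4) : (g⁻¹).a = -g.a := rfl
@[simp] theorem inv_b (g : U4) : (g⁻¹).b = -g.b := rfl
@[simp] theorem inv_ab (g : U4) : (g⁻¹).ab = -g.ab + g.a * g.b := rfl
@[simp] theorem inv_c (g : U4) (n : ℕ) : (g⁻¹).c n = -g.c n := rfl
@[simp] theorem inv_bc (g : U4) (n : ℕ) : (g⁻¹).bc n = -g.bc n + g.b * g.c n := rfl
@[simp] theorem inv_abc (g : U4) (n : ℕ) :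
    (g⁻¹).abc n = -g.abc n + g.a * g.bc n + g.ab * g.c n - g.a * g.b * g.c n := rfl

instance : Group U4 :=
  Group.ofLeftAxioms
    (by
      intro x y z
      ext <;> simp <;> ring)
    (by
      intro x
      ext <;> simp)
    (by
      intro x
      ext <;> simp <;> ring)

theorem comm_a (g h : U4) : (⁅g, h⁆).a = 0 := by
  simp [commutatorElement_def]
theorem comm_b (g h : U4) : (⁅g, h⁆).b = 0 := by
  simp [commutatorElement_def]
theorem comm_c (g h : U4) (n : ℕ) : (⁅g, h⁆).c n = 0 := by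
  simp [commutatorElement_def]
theorem comm_ab (g h : U4) : (⁅g, h⁆).ab = g.a * h.b - h.a * g.b := by
  simp [commutatorElement_def]; ring
theorem comm_bc (g h : U4) (n : ℕ) : (⁅g, h⁆).bc n = g.b * h.c n - h.b * g.c n := by
  simp [commutatorElement_def]; ring

/-- second level commutator -/
theorem comm2_ab (g h : U4) (hg : g.a = 0) (hb : g.b = 0) : (⁅g, h⁆).ab = 0 := by
  rw [comm_ab, hg, hb]; ring
theorem comm2_bc (g h : U4) (hg : ∀ n, g.c n = 0) (hb : g.b = 0) (n : ℕ) :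
    (⁅g, h⁆).bc n = 0 := by
  rw [comm_bc, hg, hb]; ring
theorem comm2_abc (g h : U4) (ha : g.a = 0) (hb : g.b = 0) (hc : ∀ n, g.c n = 0) (n : ℕ) :
    (⁅g, h⁆).abc n = g.ab * h.c n - h.a * g.bc n := by
  simp [commutatorElement_def, ha, hb, hc]; ring

theorem comm_comm_comm (g h k l : U4) : ⁅⁅⁅g, h⁆, k⁆, l⁆ = 1 := by
  have h1 : ∀ n, (⁅⁅g, h⁆, k⁆).bc n = 0 := fun n =>
    comm2_bc _ _ (comm_c g h) (comm_b g h) n
  have h2 : (⁅⁅g, h⁆, k⁆).ab = 0 := comm2_ab _ _ (comm_a g h) (comm_b g h)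
  have h3 : ∀ n, (⁅⁅g, h⁆, k⁆).c n = 0 := comm_c _ _
  ext
  · exact comm_a _ _
  · exact comm_b _ _
  · exact comm2_ab _ _ (comm_a _ _) (comm_b _ _)
  · exact comm_c _ _ _
  · exact comm2_bc _ _ (comm_c _ _) (comm_b _ _) _
  · rw [comm2_abc _ _ (comm_a _ _) (comm_b _ _) (comm_c _ _), h1, h2]; simp

/-- The homomorphism to the lower right block. -/
def low : U4 →* U4 where
  toFun g := ⟨0, g.b, 0, g.c, g.bc, 0⟩
  map_one' := by ext <;> simp
  map_mul' g h := by ext <;> simp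

/-- The homomorphism `a`. -/
def homA : U4 →* Multiplicative ℤ where
  toFun g := Multiplicative.ofAdd g.a
  map_one' := rfl
  map_mul' g h := rfl

def homB : U4 →* Multiplicative ℤ where
  toFun g := Multiplicative.ofAdd g.b
  map_one' := rfl
  map_mul' g h := rfl

def homC (n : ℕ) : U4 →* Multiplicative ℤ where
  toFun g := Multiplicative.ofAdd (g.c n)
  map_one' := rfl
  map_mul' g h := rfl

end U4

end Pool.Agent.MP720825
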