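import Mathlib

/-!
# Plain Kolmogorov complexity, conditional and relative to an oracle

Definitions used in the hand-ins for `MP_d04dff_lc`.
-/

namespace Pool.Agent.MP_d04dff_lc

/-- Finite binary strings. The length of `s` is `s.length`. -/
abbrev Str := List Bool

/-- The conditional complexity `C_U(s | y)` with respect to a machine `U`: the length of a shortest
program `p` with `U (p, y) = s` (and `∞` if there is none). -/
noncomputable def condC (U : Str × Str →. Str) (s y : Str) : ℕ∞ :=
  ⨅ (p : Str) (_ : s ∈ U (p, y)), (p.length : ℕ∞)

/-- `U` is an optimal machine for conditional complexity: it is a computable (in Mathlib's sense)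
function of two strings which need not be defined everywhere, and for every such function `V`
there is a constant `c` with `C_U(s | y) ≤ C_V(s | y) + c` for all strings `s`, `y`. -/
def IsOptimalMachine (U : Str × Str →. Str) : Prop :=
  Partrec U ∧ ∀ V : Str × Str →. Str, Partrec V →
    ∃ c : ℕ, ∀ s y, condC U s y ≤ condC V s y + c

/-- The string `X(0) X(1) … X(m-1)`. -/
def initSeg (X : ℕ → Bool) (m : ℕ) : Str := (List.range m).map X

/-- An oracle machine, given by a computably enumerable set of triples `(σ, p, s)`, read as
`with input p, and using only the bits of the oracle given by its initial segment σ, the machine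
halts and outputs s`; the triples for two comparable initial segments agree. -/
structure OracleMachine where
  /-- the set of triples `(σ, p, s)` -/
  Gives : Str → Str → Str → Prop
  /-- the set of triples is computably enumerable -/
  ce : REPred fun q : Str × Str × Str => Gives q.1 q.2.1 q.2.2
  /-- the output is well defined -/
  consistent : ∀ σ τ p s s', σ <+: τ → Gives σ p s → Gives τ p s' → s = s'

/-- The oracle machine `M` with oracle `X` halts on the program `p` and outputs `s`. -/
def OracleMachine.Outputs (M : OracleMachine) (X : ℕ → Bool) (p s : Str) : Prop :=
  ∃ m, M.Gives (initSeg X m) p s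

/-- The complexity `C_M^X(s)` of `s` relative to the oracle `X` with respect to the oracle machine
`M`: the length of a shortest program `p` on which `M` with oracle `X` outputs `s` (and `∞` if there
is none). -/
noncomputable def oracleC (M : OracleMachine) (X : ℕ → Bool) (s : Str) : ℕ∞ :=
  ⨅ (p : Str) (_ : M.Outputs X p s), (p.length : ℕ∞)

/-- `M` is an optimal oracle machine: for every oracle machine `M'` there is a constant `c` with
`C_M^X(s) ≤ C_{M'}^X(s) + c` for all oracles `X` and all strings `s`. -/
def OracleMachine.IsOptimal (M : OracleMachine) : Prop :=
  ∀ M' : OracleMachine, ∃ c : ℕ, ∀ (X : ℕ → Bool) (s : Str), oracleC M X s ≤ oracleC M' X s + c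

/-- `C_U(· | x)` and `C_M^X` differ by at most `c log n + c` on the strings of length at most `n`
(the logarithm is the integer part of the binary logarithm). -/
def Close (U : Str × Str →. Str) (M : OracleMachine) (X : ℕ → Bool) (c n : ℕ) (x : Str) : Prop :=
  ∀ s : Str, s.length ≤ n →
    condC U s x ≤ oracleC M X s + ((c * Nat.log 2 n + c : ℕ) : ℕ∞) ∧
    oracleC M X s ≤ condC U s x + ((c * Nat.log 2 n + c : ℕ) : ℕ∞)

end Pool.Agent.MP_d04dff_lc
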