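import Mathlib
import Pool.Agent.MP_d04dff_lc_Defs

/-!
# Basic tools: lists of strings, headers, primitive recursive approximations
-/

namespace Pool.Agent.MP_d04dff_lc

open Primrec

/-! ### lists of strings -/

/-- all strings of length `k` -/
def strs : ℕ → List Str
  | 0 => [[]]
  | k + 1 => (strs k).flatMap (fun w => [false :: w, true :: w])

lemma mem_strs {k : ℕ} : ∀ {w : Str}, w ∈ strs k ↔ w.length = k := by
  induction k with
  | zero => intro w; simp [strs]
  | succ k ih =>
    intro w
    simp only [strs, List.mem_flatMap]
    constructor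
    · rintro ⟨v, hv, hw⟩
      rw [ih] at hv
      simp at hw
      rcases hw with rfl | rfl <;> simp [hv]
    · intro h
      match w, h with
      | b :: v, h =>
        refine ⟨v, ih.2 (by simpa using h), ?_⟩
        cases b <;> simp

lemma length_strs (k : ℕ) : (strs k).length = 2 ^ k := by
  induction k with
  | zero => simp [strs]
  | succ k ih =>
    simp only [strs, List.length_flatMap]
    simp [ih, pow_succ]

/-- all strings of length at most `n` -/
def allStr (n : ℕ) : List Str := (List.range (n + 1)).flatMap strs

lemma mem_allStr {n : ℕ} {w : Str} : w ∈ allStr n ↔ w.length ≤ n := by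
  simp only [allStr, List.mem_flatMap, List.mem_range, mem_strs]
  constructor
  · rintro ⟨a, ha, rfl⟩; omega
  · intro h; exact ⟨w.length, by omega, rfl⟩

lemma length_allStr (n : ℕ) : (allStr n).length + 1 = 2 ^ (n + 1) := by
  induction n with
  | zero => simp [allStr, strs]
  | succ n ih =>
    have : allStr (n + 1) = allStr n ++ strs (n + 1) := by
      simp [allStr, List.range_succ]
    rw [this, List.length_append, length_strs, pow_succ 2 (n + 1)]
    omega

lemma strs_primrec : Primrec strs := by
  have h : Primrec₂ (fun (_ : ℕ) (L : List Str) =>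
      L.flatMap (fun w => [false :: w, true :: w])) := by
    refine Primrec.list_flatMap Primrec.snd ?_
    refine Primrec.list_cons.comp ?_ (Primrec.list_cons.comp ?_ (Primrec.const []))
    · exact Primrec.list_cons.comp (Primrec.const false) Primrec.snd
    · exact Primrec.list_cons.comp (Primrec.const true) Primrec.snd
  refine (Primrec.nat_rec₁ [[]] h).of_eq fun n => ?_
  induction n with
  | zero => rfl
  | succ n ih => simp only [strs]; rw [← ih]

lemma allStr_primrec : Primrec allStr := by
  refine Primrec.list_flatMap (Primrec.list_range.comp Primrec.succ) ?_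
  exact strs_primrec.comp Primrec.snd

/-! ### binary values and headers -/

/-- binary value of a string (least significant bit first) -/
def val : Str → ℕ := List.foldr (fun b a => 2 * a + (if b then 1 else 0)) 0

@[simp] lemma val_nil : val [] = 0 := rfl
@[simp] lemma val_cons (b : Bool) (w : Str) : val (b :: w) = 2 * val w + (if b then 1 else 0) := rfl

lemma val_primrec : Primrec val := by
  have h : Primrec₂ (fun (_ : Str) (q : Bool × ℕ) => 2 * q.2 + (if q.1 then 1 else 0)) := by
    refine Primrec.nat_add.comp (Primrec.nat_mul.comp (Primrec.const 2)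
      (Primrec.snd.comp Primrec.snd)) ?_
    refine Primrec.ite ?_ (Primrec.const 1) (Primrec.const 0)
    exact Primrec.eq.comp (Primrec.fst.comp Primrec.snd) (Primrec.const true)
  exact Primrec.list_foldr (f := fun w : Str => w) Primrec.id (Primrec.const 0) h

lemma exists_val_eq (k : ℕ) : ∀ i < 2 ^ k, ∃ w : Str, w.length = k ∧ val w = i := by
  induction k with
  | zero => intro i hi; exact ⟨[], rfl, by simp at hi ⊢; omega⟩
  | succ k ih =>
    intro i hi
    obtain ⟨w, hw, hv⟩ := ih (i / 2) (by rw [pow_succ] at hi; omega)
    rcases Nat.even_or_odd' i with ⟨j, rfl | rfl⟩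
    · exact ⟨false :: w, by simp [hw], by simp [hv]⟩
    · exact ⟨true :: w, by simp [hw], by simp [hv]; omega⟩

/-- decoder for programs with a self-delimiting header -/
def dec (p : Str) : ℕ × Str :=
  let a := (p.takeWhile id).length
  let r := p.drop (a + 1)
  (val (r.take a), r.drop a)

lemma dec_primrec : Primrec dec := by
  have ha : Primrec (fun p : Str => (p.takeWhile id).length) :=
    Primrec.list_length.comp (Primrec.list_takeWhile (p := (id : Bool → Bool)) Primrec.id)
  have hr : Primrec (fun p : Str => p.drop ((p.takeWhile id).length + 1)) :=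
    Primrec.list_drop.comp (Primrec.succ.comp ha) Primrec.id
  exact Primrec.pair (val_primrec.comp (Primrec.list_take.comp ha hr))
    (Primrec.list_drop.comp ha hr)

lemma takeWhile_replicate_true (a : ℕ) (r : Str) :
    (List.replicate a true ++ false :: r).takeWhile id = List.replicate a true := by
  induction a with
  | zero => simp
  | succ a ih => simp [List.replicate_succ, ih]

lemma dec_header {b : Str} (w : Str) :
    dec (List.replicate b.length true ++ (false :: (b ++ w))) = (val b, w) := by
  unfold dec
  simp only [takeWhile_replicate_true, List.length_replicate]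
  have : (List.replicate b.length true ++ (false :: (b ++ w))).drop (b.length + 1) = b ++ w := by
    rw [List.drop_append]
    simp
  rw [this]
  simp

/-- headers -/
lemma exists_header (n : ℕ) : ∃ h : Str, h.length ≤ 2 * Nat.log 2 n + 3 ∧
    ∀ w, dec (h ++ w) = (n, w) := by
  obtain ⟨b, hb, hv⟩ := exists_val_eq (Nat.log 2 n + 1) n
    (Nat.lt_pow_succ_log_self (by norm_num) n)
  refine ⟨List.replicate b.length true ++ (false :: b), ?_, fun w => ?_⟩
  · simp [hb]; omega
  · have := dec_header (b := b) w
    rw [hv] at this
    simpa using this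

/-! ### primitive recursive approximations of computably enumerable predicates -/

lemma exists_approx {α : Type*} [Primcodable α] {P : α → Prop} (h : REPred P) :
    ∃ f : α → ℕ → Bool, Primrec₂ f ∧ (∀ a t t', t ≤ t' → f a t = true → f a t' = true) ∧
      ∀ a, P a ↔ ∃ t, f a t = true := by
  unfold REPred at h
  obtain ⟨c, hc⟩ := Nat.Partrec.Code.exists_code.1 h
  refine ⟨fun a t => (Nat.Partrec.Code.evaln t c (Encodable.encode a)).isSome, ?_, ?_, ?_⟩
  · refine Primrec.option_isSome.comp ?_
    exact Nat.Partrec.Code.primrec_evaln.comp
      (Primrec.pair (Primrec.pair Primrec.snd (Primrec.const c))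
        (Primrec.encode.comp Primrec.fst))
  · intro a t t' htt ha
    simp only [Option.isSome_iff_exists] at ha ⊢
    obtain ⟨x, hx⟩ := ha
    exact ⟨x, Nat.Partrec.Code.evaln_mono htt hx⟩
  · intro a
    have h1 : P a ↔ ∃ x, x ∈ c.eval (Encodable.encode a) := by
      rw [hc]
      simp [Part.assert]
    rw [h1]
    constructor
    · rintro ⟨x, hx⟩
      obtain ⟨k, hk⟩ := Nat.Partrec.Code.evaln_complete.1 hx
      exact ⟨k, by simp only [Option.isSome_iff_exists]; exact ⟨x, hk⟩⟩
    · rintro ⟨t, ht⟩
      simp only [Option.isSome_iff_exists] at ht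
      obtain ⟨x, hx⟩ := ht
      exact ⟨x, Nat.Partrec.Code.evaln_sound hx⟩

/-- the graph of a computable partial-valued function is computably enumerable -/
lemma graph_re {α : Type*} [Primcodable α] (U : α →. Str) (hU : Partrec U) :
    REPred fun q : α × Str => q.2 ∈ U q.1 := by
  have h1 : Partrec (fun q : α × Str => (U q.1).bind (fun s =>
      (((if s = q.2 then some () else none : Option Unit)) : Part Unit))) := by
    refine Partrec.bind (hU.comp Computable.fst) ?_
    refine Computable.ofOption ?_
    refine Primrec.to_comp ?_
    refine Primrec.ite ?_ (Primrec.const _) (Primrec.const _)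
    exact Primrec.eq.comp Primrec.snd (Primrec.snd.comp Primrec.fst)
  refine h1.dom_re.of_eq fun q => ?_
  constructor
  · intro h
    obtain ⟨u, hu⟩ := Part.dom_iff_mem.1 h
    rw [Part.mem_bind_iff] at hu
    obtain ⟨s, hs, hu⟩ := hu
    by_cases e : s = q.2
    · rw [← e]; exact hs
    · simp [e] at hu
  · intro h
    refine Part.dom_iff_mem.2 ⟨(), ?_⟩
    rw [Part.mem_bind_iff]
    exact ⟨q.2, h, by simp⟩

end Pool.Agent.MP_d04dff_lc
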