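import Mathlib
import Pool.Agent.MP_d04dff_lc_Basic

/-!
# The finite game behind the simulation theorem

Every string `y` of length `ℓ` runs through positions. A position is a list of moves
`(true, e)` (our moves) and `(false, e)` (moves of the adversary), newest first.
The log `run E ℓ F t` records the arrivals `(y, p, i)`: the string `y` was the `i`-th string that
arrived at the position `p`.
-/

namespace Pool.Agent.MP_d04dff_lc

abbrev Atom := Str × ℕ
abbrev Pos := List (Bool × Atom)
abbrev Rec := Str × Pos × ℕ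

/-- number of arrivals at the position `p` -/
def cnt (L : List Rec) (p : Pos) : ℕ := (L.filter (fun r => r.2.1 = p)).length

/-- the instruction for the `i`-th arrival at `p`: make our move `e` at once, or stay -/
def instr (E : List Atom) (p : Pos) (i : ℕ) : Option Atom :=
  (E[i % (E.length + 1)]?).bind (fun e => if (true, e) ∈ p then none else some e)

/-- the move of the adversary -/
def advMove (E : List Atom) (F : Atom → Bool) (p : Pos) : Option Atom :=
  (E.filter (fun e => F e = true ∧ (false, e) ∉ p)).head?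

def nextMove (E : List Atom) (F : Atom → Bool) (p : Pos) (i : ℕ) : Option (Bool × Atom) :=
  match instr E p i with
  | some e => some (true, e)
  | none => (advMove E F p).map (fun e => (false, e))

def visit (E : List Atom) (ℓ : ℕ) (F : Atom → Bool) (y : Str) (L : List Rec) : List Rec :=
  match L.lookup y with
  | none => if y.length = ℓ then (y, [], cnt L []) :: L else L
  | some v =>
    match nextMove E F v.1 v.2 with
    | none => L
    | some mv => (y, mv :: v.1, cnt L (mv :: v.1)) :: L

/-- the string visited at time `t` -/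
def who (t : ℕ) : Str := (Encodable.decode (α := Str) t.unpair.1).getD []

def run (E : List Atom) (ℓ : ℕ) (F : Str → Atom → ℕ → Bool) : ℕ → List Rec
  | 0 => []
  | t + 1 => visit E ℓ (fun e => F (who t) e t) (who t) (run E ℓ F t)

lemma exists_who (y : Str) (t : ℕ) : ∃ t' ≥ t, who t' = y :=
  ⟨Nat.pair (Encodable.encode y) t, Nat.right_le_pair _ _, by simp [who]⟩

lemma lookup_mem {L : List Rec} {y : Str} {v : Pos × ℕ} (h : L.lookup y = some v) :
    (y, v) ∈ L := by
  induction L with
  | nil => simp at h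
  | cons r L ih =>
    obtain ⟨y', v'⟩ := r
    rw [List.lookup_cons] at h
    by_cases e : y = y'
    · subst e
      simp at h
      simp [h]
    · have : (y == y') = false := by simpa using e
      rw [this] at h
      exact List.mem_cons_of_mem _ (ih h)

lemma lookup_cons_self (L : List Rec) (y : Str) (v : Pos × ℕ) :
    List.lookup y ((y, v) :: L) = some v := by
  simp

lemma lookup_cons_ne (L : List Rec) {y y' : Str} (v : Pos × ℕ) (h : y ≠ y') :
    List.lookup y ((y', v) :: L) = L.lookup y := by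
  have : (y == y') = false := by simpa using h
  simp [List.lookup_cons, this]

lemma lookup_isSome_of_mem {L : List Rec} {y : Str} {v : Pos × ℕ} (h : (y, v) ∈ L) :
    ∃ v', L.lookup y = some v' := by
  induction L with
  | nil => simp at h
  | cons r L ih =>
    obtain ⟨y', v'⟩ := r
    by_cases e : y = y'
    · subst e
      exact ⟨v', lookup_cons_self _ _ _⟩
    · rw [lookup_cons_ne _ _ e]
      apply ih
      rcases List.mem_cons.1 h with h | h
      · exact absurd (congrArg Prod.fst h) e
      · exact h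

lemma cnt_cons (L : List Rec) (r : Rec) (p : Pos) :
    cnt (r :: L) p = if r.2.1 = p then cnt L p + 1 else cnt L p := by
  unfold cnt
  by_cases h : r.2.1 = p <;> simp [h]

lemma cnt_le_cons (L : List Rec) (r : Rec) (p : Pos) : cnt L p ≤ cnt (r :: L) p := by
  rw [cnt_cons]; split_ifs <;> omega

/-- the move `mv` is the one dictated for the `i`-th arrival at `p` -/
def Legit (E : List Atom) (p : Pos) (i : ℕ) (mv : Bool × Atom) : Prop :=
  (∀ e, instr E p i = some e → mv = (true, e)) ∧
  (instr E p i = none → ∃ e ∈ E, mv = (false, e))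

structure Inv (E : List Atom) (ℓ : ℕ) (B : Str → Atom → Prop) (L : List Rec) : Prop where
  lt_cnt : ∀ y p i, (y, p, i) ∈ L → i < cnt L p
  ex_idx : ∀ p i, i < cnt L p → ∃ y, (y, p, i) ∈ L
  inj_idx : ∀ p i y y', (y, p, i) ∈ L → (y', p, i) ∈ L → y = y'
  chain : ∀ y p i, L.lookup y = some (p, i) → ∀ p' i', (y, p', i') ∈ L →
    (p' = p ∧ i' = i) ∨ p'.length < p.length
  inj_y : ∀ y p i i', (y, p, i) ∈ L → (y, p, i') ∈ L → i = i'
  nxt : ∀ y p i, (y, p, i) ∈ L → L.lookup y = some (p, i) ∨
    ∃ mv i', (y, mv :: p, i') ∈ L ∧ Legit E p i mv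
  good : ∀ y p i, (y, p, i) ∈ L → y.length = ℓ ∧ p.Nodup ∧
    ∀ mv ∈ p, mv.2 ∈ E ∧ (mv.1 = false → B y mv.2)
  root : ∀ y p i, (y, p, i) ∈ L → ∃ i', (y, [], i') ∈ L

lemma Inv.nil (E : List Atom) (ℓ : ℕ) (B : Str → Atom → Prop) : Inv E ℓ B [] := by
  constructor <;> simp [cnt]

lemma Inv.cons {E : List Atom} {ℓ : ℕ} {B : Str → Atom → Prop} {L : List Rec}
    (h : Inv E ℓ B L) {y : Str} {p : Pos}
    (hchain : ∀ p' i', (y, p', i') ∈ L → p'.length < p.length)
    (hnxt : ∀ p' i', L.lookup y = some (p', i') → ∃ mv, p = mv :: p' ∧ Legit E p' i' mv)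
    (hgood : y.length = ℓ ∧ p.Nodup ∧ ∀ mv ∈ p, mv.2 ∈ E ∧ (mv.1 = false → B y mv.2))
    (hroot : p = [] ∨ ∃ p' i', (y, p', i') ∈ L) :
    Inv E ℓ B ((y, p, cnt L p) :: L) := by
  have hnew : ∀ i, (y, p, i) ∉ L := fun i hi => lt_irrefl _ (hchain p i hi)
  refine ⟨?_, ?_, ?_, ?_, ?_, ?_, ?_, ?_⟩
  · intro y' p' i' hm
    rcases List.mem_cons.1 hm with e | hm
    · simp only [Prod.mk.injEq] at e
      obtain ⟨rfl, rfl, rfl⟩ := e
      rw [cnt_cons]; simp
    · exact (h.lt_cnt _ _ _ hm).trans_le (cnt_le_cons _ _ _)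
  · intro p' i' hi
    rw [cnt_cons] at hi
    by_cases e : p = p'
    · subst e
      simp only [if_true] at hi
      rcases Nat.lt_succ_iff_lt_or_eq.1 hi with hi | hi
      · obtain ⟨y', hy'⟩ := h.ex_idx _ _ hi
        exact ⟨y', List.mem_cons_of_mem _ hy'⟩
      · exact ⟨y, by rw [hi]; exact List.mem_cons_self⟩
    · simp only [e, if_false] at hi
      obtain ⟨y', hy'⟩ := h.ex_idx _ _ hi
      exact ⟨y', List.mem_cons_of_mem _ hy'⟩
  · intro p' i' y1 y2 h1 h2
    rcases List.mem_cons.1 h1 with e1 | k1 <;> rcases List.mem_cons.1 h2 with e2 | k2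
    · simp only [Prod.mk.injEq] at e1 e2
      rw [e1.1, e2.1]
    · simp only [Prod.mk.injEq] at e1
      obtain ⟨rfl, rfl, rfl⟩ := e1
      exact absurd (h.lt_cnt _ _ _ k2) (lt_irrefl _)
    · simp only [Prod.mk.injEq] at e2
      obtain ⟨rfl, rfl, rfl⟩ := e2
      exact absurd (h.lt_cnt _ _ _ k1) (lt_irrefl _)
    · exact h.inj_idx _ _ _ _ k1 k2
  · intro y' p' i' hl p'' i'' hm
    by_cases e : y' = y
    · subst e
      rw [lookup_cons_self] at hl
      simp only [Option.some.injEq, Prod.mk.injEq] at hl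
      obtain ⟨rfl, rfl⟩ := hl
      rcases List.mem_cons.1 hm with e | hm
      · simp only [Prod.mk.injEq] at e
        exact Or.inl ⟨e.2.1, e.2.2⟩
      · exact Or.inr (hchain _ _ hm)
    · rw [lookup_cons_ne _ _ e] at hl
      rcases List.mem_cons.1 hm with e' | hm
      · simp only [Prod.mk.injEq] at e'
        exact absurd e'.1 e
      · exact h.chain _ _ _ hl _ _ hm
  · intro y' p' i1 i2 h1 h2
    rcases List.mem_cons.1 h1 with e1 | k1 <;> rcases List.mem_cons.1 h2 with e2 | k2
    · simp only [Prod.mk.injEq] at e1 e2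
      rw [e1.2.2, e2.2.2]
    · simp only [Prod.mk.injEq] at e1
      obtain ⟨rfl, rfl, rfl⟩ := e1
      exact absurd k2 (hnew _)
    · simp only [Prod.mk.injEq] at e2
      obtain ⟨rfl, rfl, rfl⟩ := e2
      exact absurd k1 (hnew _)
    · exact h.inj_y _ _ _ _ k1 k2
  · intro y' p' i' hm
    rcases List.mem_cons.1 hm with e | hm
    · simp only [Prod.mk.injEq] at e
      obtain ⟨rfl, rfl, rfl⟩ := e
      exact Or.inl (lookup_cons_self _ _ _)
    · rcases h.nxt _ _ _ hm with hl | ⟨mv, i'', h1, h2⟩
      · by_cases e : y' = y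
        · subst e
          obtain ⟨mv, hp, hmv⟩ := hnxt _ _ hl
          refine Or.inr ⟨mv, cnt L p, ?_, hmv⟩
          rw [← hp]
          exact List.mem_cons_self
        · left
          rw [lookup_cons_ne _ _ e]
          exact hl
      · exact Or.inr ⟨mv, i'', List.mem_cons_of_mem _ h1, h2⟩
  · intro y' p' i' hm
    rcases List.mem_cons.1 hm with e | hm
    · simp only [Prod.mk.injEq] at e
      obtain ⟨rfl, rfl, rfl⟩ := e
      exact hgood
    · exact h.good _ _ _ hm
  · intro y' p' i' hm
    rcases List.mem_cons.1 hm with e | hm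
    · simp only [Prod.mk.injEq] at e
      obtain ⟨rfl, rfl, rfl⟩ := e
      rcases hroot with rfl | ⟨p', i', hh⟩
      · exact ⟨_, List.mem_cons_self⟩
      · obtain ⟨i'', h''⟩ := h.root _ _ _ hh
        exact ⟨i'', List.mem_cons_of_mem _ h''⟩
    · obtain ⟨i'', h''⟩ := h.root _ _ _ hm
      exact ⟨i'', List.mem_cons_of_mem _ h''⟩

lemma instr_some {E : List Atom} {p : Pos} {i : ℕ} {e : Atom} (h : instr E p i = some e) :
    e ∈ E ∧ (true, e) ∉ p := by
  unfold instr at h
  rw [Option.bind_eq_some_iff] at h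
  obtain ⟨e', he', h⟩ := h
  split_ifs at h with h2
  simp only [Option.some.injEq] at h
  subst h
  exact ⟨List.mem_of_getElem? he', h2⟩

lemma advMove_some {E : List Atom} {F : Atom → Bool} {p : Pos} {e : Atom}
    (h : advMove E F p = some e) : e ∈ E ∧ F e = true ∧ (false, e) ∉ p := by
  unfold advMove at h
  have := List.mem_of_head? h
  simpa using this

lemma nextMove_some {E : List Atom} {F : Atom → Bool} {p : Pos} {i : ℕ} {mv : Bool × Atom}
    (h : nextMove E F p i = some mv) :
    Legit E p i mv ∧ mv ∉ p ∧ mv.2 ∈ E ∧ (mv.1 = false → F mv.2 = true) := by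
  unfold nextMove at h
  cases hi : instr E p i with
  | some e =>
    rw [hi] at h
    simp only [Option.some.injEq] at h
    subst h
    have := instr_some hi
    refine ⟨⟨?_, ?_⟩, this.2, this.1, by simp⟩
    · intro e' he'
      rw [hi] at he'
      simp only [Option.some.injEq] at he'
      rw [he']
    · intro hn; rw [hi] at hn; simp at hn
  | none =>
    rw [hi] at h
    simp only [Option.map_eq_some_iff] at h
    obtain ⟨e, he, rfl⟩ := h
    have := advMove_some he
    refine ⟨⟨?_, ?_⟩, this.2.2, this.1, fun _ => this.2.1⟩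
    · intro e' he'; rw [hi] at he'; simp at he'
    · intro _; exact ⟨e, this.1, rfl⟩

lemma Inv.visit {E : List Atom} {ℓ : ℕ} {B : Str → Atom → Prop} {L : List Rec}
    (h : Inv E ℓ B L) (F : Atom → Bool) (y : Str) (hF : ∀ e, F e = true → B y e) :
    Inv E ℓ B (visit E ℓ F y L) := by
  unfold MP_d04dff_lc.visit
  cases hl : L.lookup y with
  | none =>
    simp only
    split_ifs with hy
    · refine h.cons ?_ ?_ ?_ (Or.inl rfl)
      · intro p' i' hm
        obtain ⟨v, hv⟩ := lookup_isSome_of_mem hm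
        rw [hl] at hv; simp at hv
      · intro p' i' hh; rw [hl] at hh; simp at hh
      · exact ⟨hy, by simp, by simp⟩
    · exact h
  | some v =>
    obtain ⟨p, i⟩ := v
    simp only
    cases hm : nextMove E F p i with
    | none => exact h
    | some mv =>
      simp only
      obtain ⟨h1, h2, h3, h4⟩ := nextMove_some hm
      have hmem := lookup_mem hl
      have hg := h.good _ _ _ hmem
      refine h.cons ?_ ?_ ?_ (Or.inr ⟨p, i, hmem⟩)
      · intro p' i' hm'
        rcases h.chain _ _ _ hl _ _ hm' with hc | hc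
        · rw [hc.1]; simp
        · simp only [List.length_cons]; omega
      · intro p' i' hh
        rw [hl] at hh
        simp only [Option.some.injEq, Prod.mk.injEq] at hh
        obtain ⟨rfl, rfl⟩ := hh
        exact ⟨mv, rfl, h1⟩
      · refine ⟨hg.1, List.nodup_cons.2 ⟨h2, hg.2.1⟩, ?_⟩
        intro mv' hmv'
        rcases List.mem_cons.1 hmv' with rfl | hmv'
        · exact ⟨h3, fun hf => hF _ (h4 hf)⟩
        · exact hg.2.2 _ hmv'

lemma visit_suffix (E : List Atom) (ℓ : ℕ) (F : Atom → Bool) (y : Str) (L : List Rec) :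
    visit E ℓ F y L = L ∨ ∃ r, visit E ℓ F y L = r :: L := by
  unfold visit
  cases L.lookup y with
  | none =>
    simp only
    split_ifs
    · exact Or.inr ⟨_, rfl⟩
    · exact Or.inl rfl
  | some v =>
    simp only
    cases nextMove E F v.1 v.2 with
    | none => exact Or.inl rfl
    | some mv => exact Or.inr ⟨_, rfl⟩

section Run

variable {E : List Atom} {ℓ : ℕ} {F : Str → Atom → ℕ → Bool}

lemma run_inv (t : ℕ) : Inv E ℓ (fun y e => ∃ t, F y e t = true) (run E ℓ F t) := by
  induction t with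
  | zero => exact Inv.nil _ _ _
  | succ t ih => exact ih.visit _ _ (fun e he => ⟨t, he⟩)

lemma mem_run_mono {t t' : ℕ} (h : t ≤ t') {r : Rec} (hr : r ∈ run E ℓ F t) :
    r ∈ run E ℓ F t' := by
  induction t', h using Nat.le_induction with
  | base => exact hr
  | succ t' _ ih =>
    rw [run]
    rcases visit_suffix E ℓ (fun e => F (who t') e t') (who t') (run E ℓ F t') with h | ⟨r', h⟩
    · rw [h]; exact ih
    · rw [h]; exact List.mem_cons_of_mem _ ih

lemma cnt_run_mono {t t' : ℕ} (h : t ≤ t') (p : Pos) :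
    cnt (run E ℓ F t) p ≤ cnt (run E ℓ F t') p := by
  induction t', h using Nat.le_induction with
  | base => exact le_rfl
  | succ t' _ ih =>
    rw [run]
    rcases visit_suffix E ℓ (fun e => F (who t') e t') (who t') (run E ℓ F t') with h | ⟨r', h⟩
    · rw [h]; exact ih
    · rw [h]; exact ih.trans (cnt_le_cons _ _ _)

lemma cnt_ge {L : List Rec} {B : Str → Atom → Prop} (h : Inv E ℓ B L) {p : Pos} {ι : Type*}
    [Fintype ι] (y : ι → Str) (hy : Function.Injective y) (hr : ∀ r, ∃ i, (y r, p, i) ∈ L) :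
    Fintype.card ι ≤ cnt L p := by
  choose i hi using hr
  have : Function.Injective (fun r => (⟨i r, h.lt_cnt _ _ _ (hi r)⟩ : Fin (cnt L p))) := by
    intro r s hrs
    simp only [Fin.mk.injEq] at hrs
    apply hy
    refine h.inj_idx p (i r) _ _ (hi r) ?_
    rw [hrs]; exact hi s
  simpa using Fintype.card_le_of_injective _ this

/-- if each of finitely many strings arrives at `p`, the number of arrivals is eventually large -/
lemma exists_cnt_ge {p : Pos} {ι : Type*} [Fintype ι] (y : ι → Str)
    (hy : Function.Injective y) (hr : ∀ r, ∃ t i, (y r, p, i) ∈ run E ℓ F t) :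
    ∃ T, Fintype.card ι ≤ cnt (run E ℓ F T) p := by
  choose t i hi using hr
  refine ⟨Finset.univ.sup t, cnt_ge (run_inv _) y hy fun r => ⟨i r, ?_⟩⟩
  exact mem_run_mono (Finset.le_sup (Finset.mem_univ r)) (hi r)

lemma exists_root {y : Str} (hy : y.length = ℓ) : ∃ t i, (y, [], i) ∈ run E ℓ F t := by
  obtain ⟨t, -, ht⟩ := exists_who y 0
  cases hl : (run E ℓ F t).lookup y with
  | none =>
    refine ⟨t + 1, cnt (run E ℓ F t) [], ?_⟩
    rw [run, visit, ht, hl]
    simp [hy]
  | some v =>
    obtain ⟨i, hi⟩ := (run_inv t).root _ _ _ (lookup_mem hl)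
    exact ⟨t, i, hi⟩

lemma exists_cnt_root : ∃ T, 2 ^ ℓ ≤ cnt (run E ℓ F T) [] := by
  obtain ⟨T, hT⟩ := exists_cnt_ge (E := E) (F := F) (ℓ := ℓ) (p := [])
    (fun v : List.Vector Bool ℓ => v.toList) Subtype.val_injective
    (fun v => exists_root v.2)
  refine ⟨T, ?_⟩
  simpa using hT

lemma exists_move {y : Str} {p : Pos} {i : ℕ} {e : Atom} {t : ℕ}
    (h : (y, p, i) ∈ run E ℓ F t) (hi : instr E p i = some e) :
    ∃ t' i', (y, (true, e) :: p, i') ∈ run E ℓ F t' := by
  obtain ⟨t', htt, ht'⟩ := exists_who y t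
  have hm := mem_run_mono htt h
  rcases (run_inv t').nxt _ _ _ hm with hl | ⟨mv, i', h1, h2⟩
  · refine ⟨t' + 1, cnt (run E ℓ F t') ((true, e) :: p), ?_⟩
    rw [run, visit, ht', hl]
    simp [nextMove, hi]
  · have := h2.1 e hi
    subst this
    exact ⟨t', i', h1⟩

lemma instr_eq {p : Pos} {j : ℕ} {e : Atom} (hj : E[j]? = some e) (hp : (true, e) ∉ p) (r : ℕ) :
    instr E p (r * (E.length + 1) + j) = some e := by
  have hlt : j < E.length := by
    by_contra hc
    rw [List.getElem?_eq_none (by omega)] at hj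
    simp at hj
  have hmod : (r * (E.length + 1) + j) % (E.length + 1) = j := by
    rw [Nat.add_comm, Nat.add_mul_mod_self_right, Nat.mod_eq_of_lt (by omega)]
  unfold instr
  rw [hmod, hj]
  simp [hp]

lemma instr_none {p : Pos} (r : ℕ) : instr E p (r * (E.length + 1) + E.length) = none := by
  have hmod : (r * (E.length + 1) + E.length) % (E.length + 1) = E.length := by
    rw [Nat.add_comm, Nat.add_mul_mod_self_right, Nat.mod_eq_of_lt (by omega)]
  unfold instr
  rw [hmod]
  simp

/-- our moves are available with a large number of strings -/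
lemma claim_own {p : Pos} {t N : ℕ} {e : Atom} (he : e ∈ E) (hp : (true, e) ∉ p)
    (hc : N * (E.length + 1) ≤ cnt (run E ℓ F t) p) :
    ∃ T, N ≤ cnt (run E ℓ F T) ((true, e) :: p) := by
  obtain ⟨j, hj⟩ := List.mem_iff_getElem?.1 he
  have hlt : j < E.length := by
    by_contra hc
    rw [List.getElem?_eq_none (by omega)] at hj
    simp at hj
  have hidx : ∀ r : Fin N, (r : ℕ) * (E.length + 1) + j < cnt (run E ℓ F t) p := by
    intro r
    have : ((r : ℕ) + 1) * (E.length + 1) ≤ N * (E.length + 1) :=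
      Nat.mul_le_mul_right _ r.2
    rw [Nat.add_mul] at this
    omega
  choose y hy using fun r : Fin N => (run_inv (E := E) (ℓ := ℓ) (F := F) t).ex_idx p _ (hidx r)
  have hinj : Function.Injective y := by
    intro r s hrs
    have h1 := hy r
    have h2 := hy s
    rw [hrs] at h1
    have h3 := (run_inv (E := E) (ℓ := ℓ) (F := F) t).inj_y _ _ _ _ h1 h2
    have h4 : (r : ℕ) * (E.length + 1) = (s : ℕ) * (E.length + 1) := by omega
    exact Fin.ext (Nat.eq_of_mul_eq_mul_right (by omega) h4)
  obtain ⟨T, hT⟩ := exists_cnt_ge (E := E) (ℓ := ℓ) (F := F) y hinj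
    (fun r => exists_move (hy r) (instr_eq hj hp r))
  exact ⟨T, by simpa using hT⟩

/-- if nobody stays at `p`, some move of the adversary was made with a large number of strings -/
lemma claim_adv {p : Pos} {t N : ℕ}
    (hno : ∀ y i, (run E ℓ F t).lookup y ≠ some (p, i))
    (hc : (E.length * N) * (E.length + 1) ≤ cnt (run E ℓ F t) p) (hE : E ≠ []) :
    ∃ e ∈ E, N ≤ cnt (run E ℓ F t) ((false, e) :: p) := by
  classical
  have hElen : 0 < E.length := List.length_pos_iff.2 hE
  have hidx : ∀ r : Fin (E.length * N),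
      (r : ℕ) * (E.length + 1) + E.length < cnt (run E ℓ F t) p := by
    intro r
    have : ((r : ℕ) + 1) * (E.length + 1) ≤ (E.length * N) * (E.length + 1) :=
      Nat.mul_le_mul_right _ r.2
    rw [Nat.add_mul] at this
    omega
  have hI := run_inv (E := E) (ℓ := ℓ) (F := F) t
  choose y hy using fun r : Fin (E.length * N) => hI.ex_idx p _ (hidx r)
  have hinj : Function.Injective y := by
    intro r s hrs
    have h1 := hy r
    have h2 := hy s
    rw [hrs] at h1
    have h3 := hI.inj_y _ _ _ _ h1 h2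
    have h4 : (r : ℕ) * (E.length + 1) = (s : ℕ) * (E.length + 1) := by omega
    exact Fin.ext (Nat.eq_of_mul_eq_mul_right (by omega) h4)
  have hnext : ∀ r, ∃ e ∈ E, ∃ i', (y r, (false, e) :: p, i') ∈ run E ℓ F t := by
    intro r
    rcases hI.nxt _ _ _ (hy r) with hl | ⟨mv, i', h1, h2⟩
    · exact absurd hl (hno _ _)
    · obtain ⟨e, he, rfl⟩ := h2.2 (instr_none _)
      exact ⟨e, he, i', h1⟩
  choose e he i' hi' using hnext
  have hpig := Finset.exists_le_card_fiber_of_mul_le_card_of_maps_to
    (s := (Finset.univ : Finset (Fin (E.length * N)))) (t := E.toFinset) (f := e) (n := N)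
    (fun r _ => by simpa using he r) (by
      obtain ⟨a, ha⟩ := List.exists_mem_of_ne_nil E hE
      exact ⟨a, by simpa using ha⟩) (by
      simp only [Finset.card_univ, Fintype.card_fin]
      exact Nat.mul_le_mul_right _ (List.toFinset_card_le E))
  obtain ⟨a, ha, hcard⟩ := hpig
  refine ⟨a, by simpa using ha, ?_⟩
  have := cnt_ge hI (p := (false, a) :: p)
    (fun r : {r : Fin (E.length * N) // r ∈ Finset.univ.filter (fun r => e r = a)} => y r.1)
    (fun r s hrs => Subtype.ext (hinj hrs)) (fun r => ⟨i' r.1, by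
      have h1 := hi' r.1
      have h2 := (Finset.mem_filter.1 r.2).2
      rw [h2] at h1
      exact h1⟩)
  rw [Fintype.card_coe] at this
  exact hcard.trans this

end Run

/-! ### the oracle side -/

/-- some string is at the position `q` now -/
def AtPos (L : List Rec) (q : Pos) : Prop := ∃ r ∈ L, r.2.1 = q ∧ L.lookup r.1 = some r.2

instance (L : List Rec) (q : Pos) : Decidable (AtPos L q) := by
  unfold AtPos; infer_instance

def thr (E : List Atom) (q : Pos) : ℕ := (E.length + 1) ^ (2 * (2 * E.length - q.length - 1))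

def stepQ (E : List Atom) (G : Atom → Bool) (L : List Rec) (q : Pos) : Pos :=
  match (E.filter (fun e => G e = true ∧ thr E q ≤ cnt L ((true, e) :: q))).head? with
  | some e => (true, e) :: q
  | none =>
    if AtPos L q then q else
      match (E.filter (fun e => thr E q ≤ cnt L ((false, e) :: q))).head? with
      | some e => (false, e) :: q
      | none => q

def runQ (E : List Atom) (G : ℕ → Atom → Bool) (L : ℕ → List Rec) : ℕ → Pos
  | 0 => []
  | t + 1 => stepQ E (G t) (L t) (runQ E G L t)

lemma stepQ_cases (E : List Atom) (G : Atom → Bool) (L : List Rec) (q : Pos) :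
    stepQ E G L q = q ∨ ∃ mv : Bool × Atom, stepQ E G L q = mv :: q ∧
      thr E q ≤ cnt L (mv :: q) ∧ (mv.1 = true → G mv.2 = true) := by
  unfold stepQ
  cases h1 : (E.filter (fun e => G e = true ∧ thr E q ≤ cnt L ((true, e) :: q))).head? with
  | some e =>
    have := List.mem_of_head? h1
    simp only [List.mem_filter, decide_eq_true_eq] at this
    exact Or.inr ⟨(true, e), rfl, this.2.2, fun _ => this.2.1⟩
  | none =>
    simp only
    split_ifs with ha
    · exact Or.inl rfl
    · cases h2 : (E.filter (fun e => thr E q ≤ cnt L ((false, e) :: q))).head? with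
      | some e =>
        have := List.mem_of_head? h2
        simp only [List.mem_filter, decide_eq_true_eq] at this
        exact Or.inr ⟨(false, e), rfl, this.2, by simp⟩
      | none => exact Or.inl rfl

lemma thr_pos (E : List Atom) (q : Pos) : 0 < thr E q := by unfold thr; positivity

lemma pos_length_le {E : List Atom} {p : Pos} (hp : p.Nodup) (hE : ∀ mv ∈ p, mv.2 ∈ E) :
    p.length ≤ 2 * E.length := by
  have hsub : p ⊆ E.map (fun e => (true, e)) ++ E.map (fun e => (false, e)) := by
    intro mv hmv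
    obtain ⟨b, e⟩ := mv
    have := hE _ hmv
    cases b <;> simp at this ⊢ <;> exact this
  have := (hp.subperm hsub).length_le
  simp only [List.length_append, List.length_map] at this
  omega

lemma runQ_suffix (E : List Atom) (G : ℕ → Atom → Bool) (L : ℕ → List Rec) {t t' : ℕ}
    (h : t ≤ t') : runQ E G L t <:+ runQ E G L t' := by
  induction t', h using Nat.le_induction with
  | base => exact List.suffix_rfl
  | succ t' _ ih =>
    rw [runQ]
    rcases stepQ_cases E (G t') (L t') (runQ E G L t') with h | ⟨mv, h, -⟩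
    · rw [h]; exact ih
    · rw [h]; exact ih.trans (List.suffix_cons _ _)

section Final

variable {E : List Atom} {ℓ : ℕ} {F : Str → Atom → ℕ → Bool} {G : ℕ → Atom → Bool}

lemma runQ_large (hℓ : (E.length + 1) ^ (4 * E.length) ≤ 2 ^ ℓ) (t : ℕ) :
    ∃ T, (E.length + 1) ^ (2 * (2 * E.length - (runQ E G (run E ℓ F) t).length)) ≤
      cnt (run E ℓ F T) (runQ E G (run E ℓ F) t) := by
  induction t with
  | zero =>
    obtain ⟨T, hT⟩ := exists_cnt_root (E := E) (ℓ := ℓ) (F := F)
    refine ⟨T, ?_⟩
    simp only [runQ, List.length_nil, Nat.sub_zero]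
    rw [← Nat.mul_assoc]
    exact hℓ.trans hT
  | succ t ih =>
    rw [runQ]
    rcases stepQ_cases E (G t) (run E ℓ F t) (runQ E G (run E ℓ F) t) with h | ⟨mv, h, h2, -⟩
    · rw [h]; exact ih
    · refine ⟨t, ?_⟩
      rw [h]
      simp only [List.length_cons]
      unfold thr at h2
      rw [Nat.sub_sub] at h2
      exact h2

lemma runQ_good (hℓ : (E.length + 1) ^ (4 * E.length) ≤ 2 ^ ℓ) (t : ℕ) :
    (runQ E G (run E ℓ F) t).Nodup ∧ ∀ mv ∈ runQ E G (run E ℓ F) t, mv.2 ∈ E := by
  obtain ⟨T, hT⟩ := runQ_large (F := F) (G := G) hℓ t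
  have hpos : 0 < cnt (run E ℓ F T) (runQ E G (run E ℓ F) t) :=
    lt_of_lt_of_le (by positivity) hT
  obtain ⟨y, hy⟩ := (run_inv T).ex_idx _ _ hpos
  have := (run_inv T).good _ _ _ hy
  exact ⟨this.2.1, fun mv hmv => (this.2.2 mv hmv).1⟩

lemma runQ_sound (t : ℕ) (e : Atom) (h : (true, e) ∈ runQ E G (run E ℓ F) t) :
    ∃ t', G t' e = true := by
  induction t with
  | zero => simp [runQ] at h
  | succ t ih =>
    rw [runQ] at h
    rcases stepQ_cases E (G t) (run E ℓ F t) (runQ E G (run E ℓ F) t) with h1 | ⟨mv, h1, -, h3⟩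
    · rw [h1] at h; exact ih h
    · rw [h1] at h
      rcases List.mem_cons.1 h with h | h
      · subst h
        exact ⟨t, h3 rfl⟩
      · exact ih h

lemma runQ_limit (hℓ : (E.length + 1) ^ (4 * E.length) ≤ 2 ^ ℓ) :
    ∃ T, ∀ t ≥ T, runQ E G (run E ℓ F) t = runQ E G (run E ℓ F) T := by
  classical
  let P : ℕ → Prop := fun n => ∃ t, (runQ E G (run E ℓ F) t).length = n
  have hP0 : P 0 := ⟨0, rfl⟩
  have hb : ∀ t, (runQ E G (run E ℓ F) t).length ≤ 2 * E.length := fun t =>
    pos_length_le (runQ_good hℓ t).1 (runQ_good hℓ t).2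
  obtain ⟨T, hT⟩ : P (Nat.findGreatest P (2 * E.length)) :=
    Nat.findGreatest_spec (P := P) (Nat.zero_le _) hP0
  refine ⟨T, fun t ht => ?_⟩
  have h1 : (runQ E G (run E ℓ F) t).length ≤ Nat.findGreatest P (2 * E.length) :=
    Nat.le_findGreatest (hb t) ⟨t, rfl⟩
  have h2 := runQ_suffix E G (run E ℓ F) ht
  exact (h2.eq_of_length_le (by rw [hT]; exact h1)).symm

lemma stepQ_ne_of_own {e : Atom} {L : List Rec} {q : Pos} {g : Atom → Bool} (he : e ∈ E)
    (hg : g e = true) (h : thr E q ≤ cnt L ((true, e) :: q)) : stepQ E g L q ≠ q := by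
  unfold stepQ
  cases h1 : (E.filter (fun e => g e = true ∧ thr E q ≤ cnt L ((true, e) :: q))).head? with
  | some e' =>
    intro hh
    have := congrArg List.length hh
    simp at this
  | none =>
    rw [List.head?_eq_none_iff, List.filter_eq_nil_iff] at h1
    exact absurd (by simp [hg, h]) (h1 e he)

lemma stepQ_ne_of_adv {e : Atom} {L : List Rec} {q : Pos} {g : Atom → Bool} (he : e ∈ E)
    (ha : ¬ AtPos L q) (h : thr E q ≤ cnt L ((false, e) :: q)) : stepQ E g L q ≠ q := by
  unfold stepQ
  cases h1 : (E.filter (fun e => g e = true ∧ thr E q ≤ cnt L ((true, e) :: q))).head? with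
  | some e' =>
    intro hh
    have := congrArg List.length hh
    simp at this
  | none =>
    simp only [ha, if_false]
    cases h2 : (E.filter (fun e => thr E q ≤ cnt L ((false, e) :: q))).head? with
    | some e' =>
      intro hh
      have := congrArg List.length hh
      simp at this
    | none =>
      rw [List.head?_eq_none_iff, List.filter_eq_nil_iff] at h2
      exact absurd (by simp [h]) (h2 e he)

/-- **The game lemma.** -/
theorem game (hE : E ≠ []) (hℓ : (E.length + 1) ^ (4 * E.length) ≤ 2 ^ ℓ)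
    (hF : ∀ y e t t', t ≤ t' → F y e t = true → F y e t' = true)
    (hG : ∀ t t' e, t ≤ t' → G t e = true → G t' e = true) :
    ∃ (T : ℕ) (q : Pos) (y : Str), y.length = ℓ ∧
      (∀ t ≥ T, runQ E G (run E ℓ F) t = q) ∧
      (∀ t ≥ T, ∃ i, (run E ℓ F t).lookup y = some (q, i)) ∧
      q.Nodup ∧ (∀ mv ∈ q, mv.2 ∈ E) ∧
      (∀ e ∈ E, ((false, e) ∈ q ↔ ∃ t, F y e t = true)) ∧
      (∀ e ∈ E, ((true, e) ∈ q ↔ ∃ t, G t e = true)) := by
  classical
  obtain ⟨T0, hT0⟩ := runQ_limit (G := G) (F := F) hℓ
  set q := runQ E G (run E ℓ F) T0 with hq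
  obtain ⟨T1, hT1⟩ := runQ_large (G := G) (F := F) hℓ T0
  rw [← hq] at hT1
  obtain ⟨hnd, hqE⟩ := runQ_good (G := G) (F := F) hℓ T0
  rw [← hq] at hnd hqE
  have hpow : q.length + 1 ≤ 2 * E.length →
      (E.length + 1) ^ (2 * (2 * E.length - q.length)) = (E.length + 1) ^ 2 * thr E q := by
    intro h
    unfold thr
    rw [← pow_add]
    congr 1
    omega
  -- our moves
  have hown : ∀ e ∈ E, (∃ t, G t e = true) → (true, e) ∈ q := by
    rintro e he ⟨t, ht⟩
    by_contra hcon
    have hlen : q.length + 1 ≤ 2 * E.length := by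
      have := pos_length_le (E := E) (p := (true, e) :: q) (List.nodup_cons.2 ⟨hcon, hnd⟩) (by
        intro mv hmv
        rcases List.mem_cons.1 hmv with rfl | hmv
        · exact he
        · exact hqE _ hmv)
      simpa using this
    rw [hpow hlen] at hT1
    obtain ⟨T2, hT2⟩ := claim_own (N := thr E q) he hcon (le_trans (by
      rw [pow_two, Nat.mul_comm (thr E q), Nat.mul_assoc]
      exact Nat.le_mul_of_pos_left _ (Nat.succ_pos _)) hT1)
    obtain ⟨t', h1, h2, h3, h4⟩ : ∃ t', T0 ≤ t' ∧ T1 ≤ t' ∧ T2 ≤ t' ∧ t ≤ t' :=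
      ⟨max (max T0 T1) (max T2 t), by omega, by omega, by omega, by omega⟩
    have h5 := hT0 t' h1
    have h6 := hT0 (t' + 1) (by omega)
    rw [runQ, h5] at h6
    exact stepQ_ne_of_own he (hG _ _ _ h4 ht) (hT2.trans (cnt_run_mono h3 _)) h6
  -- somebody stays
  have hat : ∀ t, T0 ≤ t → T1 ≤ t → ∃ y i, (run E ℓ F t).lookup y = some (q, i) := by
    intro t h0 h1
    by_contra hcon
    push Not at hcon
    have hc := hT1.trans (cnt_run_mono h1 q)
    have hI := run_inv (E := E) (ℓ := ℓ) (F := F) t
    have hlen : q.length + 1 ≤ 2 * E.length := by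
      obtain ⟨y, hy⟩ := hI.ex_idx q 0 (lt_of_lt_of_le (by positivity) hc)
      rcases hI.nxt _ _ _ hy with hl | ⟨mv, i', hmem, -⟩
      · exact absurd hl (hcon _ _)
      · have hg := hI.good _ _ _ hmem
        have := pos_length_le hg.2.1 (fun mv hmv => (hg.2.2 mv hmv).1)
        simpa using this
    rw [hpow hlen] at hc
    obtain ⟨e, he, hN⟩ := claim_adv (N := thr E q) hcon (le_trans (by
      rw [pow_two]
      nlinarith [thr_pos E q]) hc) hE
    have h5 := hT0 t h0
    have h6 := hT0 (t + 1) (by omega)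
    rw [runQ, h5] at h6
    refine stepQ_ne_of_adv he ?_ hN h6
    rintro ⟨r, hr, hr1, hr2⟩
    refine hcon r.1 r.2.2 ?_
    rw [hr2, ← hr1]
  -- one string stays for ever
  have hfin : ∀ t : ℕ, ∃ v : List.Vector Bool ℓ, ∃ i,
      (run E ℓ F (max T0 T1 + t)).lookup v.toList = some (q, i) := by
    intro t
    obtain ⟨y, i, hy⟩ := hat (max T0 T1 + t) (by omega) (by omega)
    have := ((run_inv (E := E) (ℓ := ℓ) (F := F) _).good _ _ _ (lookup_mem hy)).1
    exact ⟨⟨y, this⟩, i, hy⟩
  choose v iv hv using hfin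
  obtain ⟨w, hw⟩ := Finite.exists_infinite_fiber v
  rw [Set.infinite_coe_iff] at hw
  obtain ⟨t1, ht1⟩ := hw.nonempty
  have hstay : ∀ t ≥ max T0 T1 + t1, ∃ i, (run E ℓ F t).lookup w.toList = some (q, i) := by
    intro t ht
    have hr1 : (w.toList, q, iv t1) ∈ run E ℓ F t := by
      refine mem_run_mono ht ?_
      have := lookup_mem (hv t1)
      rw [show v t1 = w from ht1] at this
      exact this
    obtain ⟨⟨p', i'⟩, hl⟩ := lookup_isSome_of_mem hr1
    obtain ⟨t2, ht2, ht2'⟩ := hw.exists_gt t
    have hr2 := mem_run_mono (E := E) (ℓ := ℓ) (F := F)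
      (show t ≤ max T0 T1 + t2 by omega) (lookup_mem hl)
    have hl2 := hv t2
    rw [show v t2 = w from ht2] at hl2
    have c1 := (run_inv (E := E) (ℓ := ℓ) (F := F) _).chain _ _ _ hl _ _ hr1
    have c2 := (run_inv (E := E) (ℓ := ℓ) (F := F) _).chain _ _ _ hl2 _ _ hr2
    rcases c1 with c1 | c1
    · exact ⟨i', by rw [hl, c1.1]⟩
    · rcases c2 with c2 | c2
      · exact ⟨i', by rw [hl, c2.1]⟩
      · omega
  refine ⟨max T0 T1 + t1, q, w.toList, w.2, fun t ht => hT0 t (by omega), hstay, hnd, hqE,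
    fun e he => ⟨fun hmem => ?_, fun ⟨t, ht⟩ => ?_⟩, fun e he => ⟨fun hmem => ?_, hown e he⟩⟩
  · obtain ⟨i, hi⟩ := hstay _ le_rfl
    exact (((run_inv (E := E) (ℓ := ℓ) (F := F) _).good _ _ _ (lookup_mem hi)).2.2 _ hmem).2 rfl
  · by_contra hcon
    obtain ⟨t', ht', hwho⟩ := exists_who w.toList (max (max T0 T1 + t1) t)
    obtain ⟨i, hi⟩ := hstay t' (by omega)
    obtain ⟨i2, hi2⟩ := hstay (t' + 1) (by omega)
    rw [run, visit, hwho, hi] at hi2
    simp only at hi2
    cases hn : nextMove E (fun e => F w.toList e t') q i with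
    | some mv =>
      rw [hn] at hi2
      simp only [lookup_cons_self, Option.some.injEq, Prod.mk.injEq] at hi2
      have := congrArg List.length hi2.1
      simp at this
    | none =>
      unfold nextMove at hn
      cases hin : instr E q i with
      | some e' => rw [hin] at hn; simp at hn
      | none =>
        rw [hin] at hn
        simp only [Option.map_eq_none_iff] at hn
        unfold advMove at hn
        rw [List.head?_eq_none_iff, List.filter_eq_nil_iff] at hn
        refine hn e he ?_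
        simp [hcon, hF _ _ _ _ (show t ≤ t' by omega) ht]
  · exact runQ_sound _ _ hmem

end Final

end Pool.Agent.MP_d04dff_lc
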