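import Mathlib
import Pool.Agent.MP_d04dff_lc_Game

/-!
# The game is primitive recursive
-/

namespace Pool.Agent.MP_d04dff_lc

open Primrec

lemma mem_primrec {α : Type*} [Primcodable α] :
    PrimrecRel (fun (b : α) (L : List α) => b ∈ L) := by
  have h : PrimrecRel (fun (a b : α) => a = b) := Primrec.eq
  refine (h.exists_mem_list.swap).of_eq fun b L => ?_
  simp [Function.swap]

lemma cnt_primrec : Primrec₂ cnt := by
  have h : PrimrecRel (fun (r : Rec) (p : Pos) => r.2.1 = p) :=
    Primrec.eq.comp (Primrec.fst.comp (Primrec.snd.comp Primrec.fst)) Primrec.snd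
  exact Primrec.list_length.comp (h.listFilter)

lemma instr_primrec :
    Primrec (fun x : List Atom × Pos × ℕ => instr x.1 x.2.1 x.2.2) := by
  unfold instr
  refine Primrec.option_bind ?_ ?_
  · refine Primrec.list_getElem?.comp Primrec.fst ?_
    refine Primrec.nat_mod.comp (Primrec.snd.comp Primrec.snd) ?_
    exact Primrec.succ.comp (Primrec.list_length.comp Primrec.fst)
  · refine Primrec.ite ?_ (Primrec.const none) (Primrec.option_some.comp Primrec.snd)
    refine mem_primrec.comp (Primrec.pair (Primrec.const true) Primrec.snd) ?_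
    exact Primrec.fst.comp (Primrec.snd.comp Primrec.fst)

lemma beq_eq : (List.instBEq : BEq Str) = instBEqOfDecidableEq := by
  have h : ∀ a b : Str, (@BEq.beq Str List.instBEq a b) =
      (@BEq.beq Str instBEqOfDecidableEq a b) := by
    intro a b
    rw [Bool.eq_iff_iff]
    simp
  cases h1 : (List.instBEq : BEq Str) with
  | mk f =>
    cases h2 : (instBEqOfDecidableEq : BEq Str) with
    | mk g =>
      congr
      funext a b
      have := h a b
      rw [h1, h2] at this
      exact this

lemma lookup_primrec :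
    Primrec₂ (fun (y : Str) (L : List Rec) => L.lookup y) := by
  have := Primrec.listLookup (α := Str) (β := Pos × ℕ)
  rw [← beq_eq] at this
  exact this

variable {F : Str → Atom → ℕ → Bool}

lemma advMove_primrec (hF : Primrec (fun x : Str × Atom × ℕ => F x.1 x.2.1 x.2.2)) :
    Primrec (fun x : List Atom × Pos × Str × ℕ =>
      advMove x.1 (fun e => F x.2.2.1 e x.2.2.2) x.2.1) := by
  unfold advMove
  have h : PrimrecRel (fun (e : Atom) (z : Pos × Str × ℕ) =>
      F z.2.1 e z.2.2 = true ∧ (false, e) ∉ z.1) := by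
    refine PrimrecPred.and ?_ ?_
    · refine Primrec.eq.comp (hF.comp (Primrec.pair ?_ (Primrec.pair Primrec.fst ?_)))
        (Primrec.const true)
      · exact Primrec.fst.comp (Primrec.snd.comp Primrec.snd)
      · exact Primrec.snd.comp (Primrec.snd.comp Primrec.snd)
    · refine PrimrecPred.not ?_
      exact mem_primrec.comp (Primrec.pair (Primrec.const false) Primrec.fst)
        (Primrec.fst.comp Primrec.snd)
  have h2 := h.listFilter
  exact Primrec.list_head?.comp (h2.comp Primrec.fst Primrec.snd)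

lemma nextMove_primrec (hF : Primrec (fun x : Str × Atom × ℕ => F x.1 x.2.1 x.2.2)) :
    Primrec (fun x : List Atom × (Pos × ℕ) × Str × ℕ =>
      nextMove x.1 (fun e => F x.2.2.1 e x.2.2.2) x.2.1.1 x.2.1.2) := by
  have h1 : Primrec (fun x : List Atom × (Pos × ℕ) × Str × ℕ => instr x.1 x.2.1.1 x.2.1.2) :=
    instr_primrec.comp (Primrec.pair Primrec.fst (Primrec.fst.comp Primrec.snd))
  have h2 : Primrec (fun x : List Atom × (Pos × ℕ) × Str × ℕ =>
      advMove x.1 (fun e => F x.2.2.1 e x.2.2.2) x.2.1.1) :=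
    (advMove_primrec hF).comp (Primrec.pair Primrec.fst (Primrec.pair
      (Primrec.fst.comp (Primrec.fst.comp Primrec.snd)) (Primrec.snd.comp Primrec.snd)))
  have h3 : Primrec (fun x : List Atom × (Pos × ℕ) × Str × ℕ =>
      (advMove x.1 (fun e => F x.2.2.1 e x.2.2.2) x.2.1.1).map (fun e => (false, e))) :=
    Primrec.option_map h2 (Primrec.pair (Primrec.const false) Primrec.snd)
  have h4 := Primrec.option_casesOn (g := fun (_ : List Atom × (Pos × ℕ) × Str × ℕ) (e : Atom) =>
    some (true, e)) h1 h3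
    (Primrec.option_some.comp (Primrec.pair (Primrec.const true) Primrec.snd))
  refine h4.of_eq fun x => ?_
  unfold nextMove
  cases instr x.1 x.2.1.1 x.2.1.2 <;> rfl

lemma visit_primrec (hF : Primrec (fun x : Str × Atom × ℕ => F x.1 x.2.1 x.2.2)) :
    Primrec (fun x : (List Atom × ℕ) × (Str × ℕ) × List Rec =>
      visit x.1.1 x.1.2 (fun e => F x.2.1.1 e x.2.1.2) x.2.1.1 x.2.2) := by
  have hy : Primrec (fun x : (List Atom × ℕ) × (Str × ℕ) × List Rec => x.2.1.1) :=
    Primrec.fst.comp (Primrec.fst.comp Primrec.snd)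
  have hL : Primrec (fun x : (List Atom × ℕ) × (Str × ℕ) × List Rec => x.2.2) :=
    Primrec.snd.comp Primrec.snd
  have h1 : Primrec (fun x : (List Atom × ℕ) × (Str × ℕ) × List Rec =>
      x.2.2.lookup x.2.1.1) := lookup_primrec.comp hy hL
  have h2 : Primrec (fun x : (List Atom × ℕ) × (Str × ℕ) × List Rec =>
      if x.2.1.1.length = x.1.2 then
        ((x.2.1.1, ([] : Pos), cnt x.2.2 []) :: x.2.2 : List Rec) else x.2.2) := by
    refine Primrec.ite (Primrec.eq.comp (Primrec.list_length.comp hy)
      (Primrec.snd.comp Primrec.fst)) ?_ hL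
    exact Primrec.list_cons.comp (Primrec.pair hy (Primrec.pair (Primrec.const [])
      (cnt_primrec.comp hL (Primrec.const [])))) hL
  have h3 : Primrec₂ (fun (x : (List Atom × ℕ) × (Str × ℕ) × List Rec) (v : Pos × ℕ) =>
      nextMove x.1.1 (fun e => F x.2.1.1 e x.2.1.2) v.1 v.2) :=
    (nextMove_primrec hF).comp (Primrec.pair
      (Primrec.fst.comp (Primrec.fst.comp Primrec.fst))
      (Primrec.pair Primrec.snd (Primrec.fst.comp (Primrec.snd.comp Primrec.fst))))
  have h4 : Primrec₂ (fun (z : ((List Atom × ℕ) × (Str × ℕ) × List Rec) × (Pos × ℕ))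
      (mv : Bool × Atom) =>
      ((z.1.2.1.1, mv :: z.2.1, cnt z.1.2.2 (mv :: z.2.1)) :: z.1.2.2 : List Rec)) := by
    have a1 : Primrec (fun w : (((List Atom × ℕ) × (Str × ℕ) × List Rec) × (Pos × ℕ)) ×
        (Bool × Atom) => w.1.1.2.2) := hL.comp (Primrec.fst.comp Primrec.fst)
    have a2 : Primrec (fun w : (((List Atom × ℕ) × (Str × ℕ) × List Rec) × (Pos × ℕ)) ×
        (Bool × Atom) => w.2 :: w.1.2.1) :=
      Primrec.list_cons.comp Primrec.snd (Primrec.fst.comp (Primrec.snd.comp Primrec.fst))
    exact Primrec.list_cons.comp (Primrec.pair (hy.comp (Primrec.fst.comp Primrec.fst))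
      (Primrec.pair a2 (cnt_primrec.comp a1 a2))) a1
  have h5 : Primrec₂ (fun (x : (List Atom × ℕ) × (Str × ℕ) × List Rec) (v : Pos × ℕ) =>
      (Option.casesOn (nextMove x.1.1 (fun e => F x.2.1.1 e x.2.1.2) v.1 v.2) x.2.2
        (fun mv => ((x.2.1.1, mv :: v.1, cnt x.2.2 (mv :: v.1)) :: x.2.2 : List Rec)) :
          List Rec)) :=
    Primrec.option_casesOn h3 (hL.comp Primrec.fst) h4
  refine (Primrec.option_casesOn h1 h2 h5).of_eq fun x => ?_
  unfold visit
  cases x.2.2.lookup x.2.1.1 with
  | none => rfl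
  | some v =>
    simp only
    cases nextMove x.1.1 (fun e => F x.2.1.1 e x.2.1.2) v.1 v.2 <;> rfl

lemma who_primrec : Primrec who :=
  Primrec.option_getD.comp (Primrec.decode.comp (Primrec.fst.comp Primrec.unpair))
    (Primrec.const [])

lemma run_primrec (hF : Primrec (fun x : Str × Atom × ℕ => F x.1 x.2.1 x.2.2))
    {EE : ℕ → List Atom} {ll : ℕ → ℕ} (hE : Primrec EE) (hl : Primrec ll) :
    Primrec₂ (fun n t => run (EE n) (ll n) F t) := by
  have h : Primrec₂ (fun (n : ℕ) (z : ℕ × List Rec) =>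
      visit (EE n) (ll n) (fun e => F (who z.1) e z.1) (who z.1) z.2) :=
    (visit_primrec hF).comp (Primrec.pair (Primrec.pair (hE.comp Primrec.fst)
      (hl.comp Primrec.fst)) (Primrec.pair (Primrec.pair
        (who_primrec.comp (Primrec.fst.comp Primrec.snd)) (Primrec.fst.comp Primrec.snd))
        (Primrec.snd.comp Primrec.snd)))
  refine Primrec₂.of_eq
    (Primrec.nat_rec (f := fun _ : ℕ => ([] : List Rec)) (Primrec.const []) h) ?_
  intro n t
  induction t with
  | zero => rfl
  | succ t ih => simp only [run]; rw [← ih]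

/-! ### the oracle side -/

lemma atPos_primrec : PrimrecRel (fun (L : List Rec) (q : Pos) => AtPos L q) := by
  have h : PrimrecRel (fun (r : Rec) (z : List Rec × Pos) =>
      r.2.1 = z.2 ∧ z.1.lookup r.1 = some r.2) := by
    refine PrimrecPred.and ?_ ?_
    · exact Primrec.eq.comp (Primrec.fst.comp (Primrec.snd.comp Primrec.fst))
        (Primrec.snd.comp Primrec.snd)
    · exact Primrec.eq.comp (lookup_primrec.comp (Primrec.fst.comp Primrec.fst)
        (Primrec.fst.comp Primrec.snd)) (Primrec.option_some.comp (Primrec.snd.comp Primrec.fst))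
  have h2 := h.exists_mem_list
  exact h2.comp Primrec.fst (Primrec.pair Primrec.fst Primrec.snd)

lemma pow_primrec : Primrec₂ ((· ^ ·) : ℕ → ℕ → ℕ) :=
  Primrec₂.unpaired'.1 Nat.Primrec.pow

lemma thr_primrec : Primrec₂ thr := by
  unfold thr
  refine pow_primrec.comp (Primrec.succ.comp (Primrec.list_length.comp Primrec.fst)) ?_
  refine Primrec.nat_mul.comp (Primrec.const 2) ?_
  refine Primrec.nat_sub.comp (Primrec.nat_sub.comp ?_ ?_) (Primrec.const 1)
  · exact Primrec.nat_mul.comp (Primrec.const 2) (Primrec.list_length.comp Primrec.fst)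
  · exact Primrec.list_length.comp Primrec.snd

lemma stepQ_primrec {γ : Type*} [Primcodable γ] {g : γ → Atom → Bool} (hg : Primrec₂ g) :
    Primrec (fun x : (List Atom × γ) × List Rec × Pos =>
      stepQ x.1.1 (g x.1.2) x.2.1 x.2.2) := by
  have hE : Primrec (fun x : (List Atom × γ) × List Rec × Pos => x.1.1) :=
    Primrec.fst.comp Primrec.fst
  have hc : Primrec (fun x : (List Atom × γ) × List Rec × Pos => x.1.2) :=
    Primrec.snd.comp Primrec.fst
  have hL : Primrec (fun x : (List Atom × γ) × List Rec × Pos => x.2.1) :=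
    Primrec.fst.comp Primrec.snd
  have hq : Primrec (fun x : (List Atom × γ) × List Rec × Pos => x.2.2) :=
    Primrec.snd.comp Primrec.snd
  have hthr : ∀ b : Bool, PrimrecRel (fun (e : Atom) (x : (List Atom × γ) × List Rec × Pos) =>
      thr x.1.1 x.2.2 ≤ cnt x.2.1 ((b, e) :: x.2.2)) := by
    intro b
    refine Primrec.nat_le.comp (thr_primrec.comp (hE.comp Primrec.snd) (hq.comp Primrec.snd)) ?_
    refine cnt_primrec.comp (hL.comp Primrec.snd) ?_
    exact Primrec.list_cons.comp (Primrec.pair (Primrec.const b) Primrec.fst)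
      (hq.comp Primrec.snd)
  have r1 : PrimrecRel (fun (e : Atom) (x : (List Atom × γ) × List Rec × Pos) =>
      g x.1.2 e = true ∧ thr x.1.1 x.2.2 ≤ cnt x.2.1 ((true, e) :: x.2.2)) := by
    refine PrimrecPred.and ?_ (hthr true)
    exact Primrec.eq.comp (hg.comp (hc.comp Primrec.snd) Primrec.fst) (Primrec.const true)
  have f1 : Primrec (fun x : (List Atom × γ) × List Rec × Pos =>
      (x.1.1.filter (fun e => g x.1.2 e = true ∧
        thr x.1.1 x.2.2 ≤ cnt x.2.1 ((true, e) :: x.2.2))).head?) :=
    Primrec.list_head?.comp (r1.listFilter.comp hE Primrec.id)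
  have f2 : Primrec (fun x : (List Atom × γ) × List Rec × Pos =>
      (x.1.1.filter (fun e =>
        thr x.1.1 x.2.2 ≤ cnt x.2.1 ((false, e) :: x.2.2))).head?) :=
    Primrec.list_head?.comp ((hthr false).listFilter.comp hE Primrec.id)
  have g1 : ∀ b : Bool, Primrec₂ (fun (x : (List Atom × γ) × List Rec × Pos) (e : Atom) =>
      (b, e) :: x.2.2) := fun b =>
    Primrec.list_cons.comp (Primrec.pair (Primrec.const b) Primrec.snd) (hq.comp Primrec.fst)
  have f3 := Primrec.option_casesOn f2 hq (g1 false)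
  have f4 := Primrec.ite (atPos_primrec.comp hL hq) hq f3
  have f5 := Primrec.option_casesOn f1 f4 (g1 true)
  refine f5.of_eq fun x => ?_
  unfold stepQ
  cases (x.1.1.filter (fun e => g x.1.2 e = true ∧
        thr x.1.1 x.2.2 ≤ cnt x.2.1 ((true, e) :: x.2.2))).head? with
  | some e => rfl
  | none =>
    simp only
    split_ifs
    · rfl
    · cases (x.1.1.filter (fun e =>
        thr x.1.1 x.2.2 ≤ cnt x.2.1 ((false, e) :: x.2.2))).head? <;> rfl

lemma runQ_primrec {γ : Type*} [Primcodable γ] {g : γ → Atom → Bool} (hg : Primrec₂ g)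
    {δ : Type*} [Primcodable δ] {EE : δ → List Atom} (hE : Primrec EE)
    {gg : δ → ℕ → γ} (hgg : Primrec₂ gg) {LL : δ → ℕ → List Rec} (hL : Primrec₂ LL)
    {tt : δ → ℕ} (ht : Primrec tt) :
    Primrec (fun x : δ => runQ (EE x) (fun t e => g (gg x t) e) (LL x) (tt x)) := by
  have h : Primrec₂ (fun (x : δ) (z : ℕ × Pos) =>
      stepQ (EE x) (g (gg x z.1)) (LL x z.1) z.2) := by
    refine (stepQ_primrec hg).comp (Primrec.pair (Primrec.pair (hE.comp Primrec.fst) ?_)
      (Primrec.pair ?_ (Primrec.snd.comp Primrec.snd)))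
    · exact hgg.comp Primrec.fst (Primrec.fst.comp Primrec.snd)
    · exact hL.comp Primrec.fst (Primrec.fst.comp Primrec.snd)
  refine (Primrec.nat_rec' ht (Primrec.const ([] : Pos)) h).of_eq ?_
  intro x
  induction tt x with
  | zero => rfl
  | succ t ih => simp only [runQ]; rw [← ih]

/-! ### the chronological list of the moves of one kind and one level -/

def chron (b : Bool) (k : ℕ) (P : Pos) : List Str :=
  P.reverse.filterMap (fun mv => if mv.1 = b ∧ mv.2.2 = k then some mv.2.1 else none)

lemma chron_primrec (b : Bool) : Primrec₂ (chron b) := by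
  unfold chron
  refine Primrec.listFilterMap (Primrec.list_reverse.comp Primrec.snd) ?_
  refine Primrec.ite (PrimrecPred.and ?_ ?_) ?_ (Primrec.const none)
  · exact Primrec.eq.comp (Primrec.fst.comp Primrec.snd) (Primrec.const b)
  · exact Primrec.eq.comp (Primrec.snd.comp (Primrec.snd.comp Primrec.snd))
      (Primrec.fst.comp Primrec.fst)
  · exact Primrec.option_some.comp (Primrec.fst.comp (Primrec.snd.comp Primrec.snd))

lemma mem_chron {b : Bool} {k : ℕ} {P : Pos} {s : Str} :
    s ∈ chron b k P ↔ (b, (s, k)) ∈ P := by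
  unfold chron
  simp only [List.mem_filterMap, List.mem_reverse]
  constructor
  · rintro ⟨⟨b', s', k'⟩, hm, h⟩
    split_ifs at h with hc
    simp only [Option.some.injEq] at h
    obtain ⟨rfl, rfl⟩ := hc
    subst h
    exact hm
  · intro h
    exact ⟨(b, (s, k)), h, by simp⟩

lemma chron_nodup {b : Bool} {k : ℕ} {P : Pos} (h : P.Nodup) : (chron b k P).Nodup := by
  unfold chron
  refine List.Nodup.filterMap ?_ (List.nodup_reverse.2 h)
  rintro ⟨b1, s1, k1⟩ ⟨b2, s2, k2⟩ s h1 h2
  split_ifs at h1 with hc1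
  · split_ifs at h2 with hc2
    · simp only [Option.mem_def, Option.some.injEq] at h1 h2
      obtain ⟨rfl, rfl⟩ := hc1
      obtain ⟨e1, e2⟩ := hc2
      subst h1
      simp only at e1 e2 h2
      rw [e1, e2, h2]
    · simp at h2
  · simp at h1

lemma chron_prefix_of_suffix {b : Bool} {k : ℕ} {P Q : Pos} (h : P <:+ Q) :
    chron b k P <+: chron b k Q := by
  unfold chron
  obtain ⟨R, rfl⟩ := h
  rw [List.reverse_append, List.filterMap_append]
  exact List.prefix_append _ _

end Pool.Agent.MP_d04dff_lc
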