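import Mathlib
import Pool.Agent.MP_d04dff_lc_Prim

/-!
# Every oracle can be simulated by finite conditions
-/

namespace Pool.Agent.MP_d04dff_lc

/-! ### complexities -/

lemma condC_le_iff {U : Str × Str →. Str} {s y : Str} {k : ℕ} :
    condC U s y ≤ k ↔ ∃ p : Str, s ∈ U (p, y) ∧ p.length ≤ k := by
  constructor
  · intro h
    by_contra hcon
    push Not at hcon
    have : ((k + 1 : ℕ) : ℕ∞) ≤ condC U s y := by
      unfold condC
      refine le_iInf₂ fun p hp => ?_
      exact_mod_cast hcon p hp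
    have h2 := this.trans h
    have h3 : k + 1 ≤ k := by exact_mod_cast h2
    omega
  · rintro ⟨p, hp, hk⟩
    unfold condC
    exact (iInf₂_le p hp).trans (by exact_mod_cast hk)

lemma oracleC_le_iff {M : OracleMachine} {X : ℕ → Bool} {s : Str} {k : ℕ} :
    oracleC M X s ≤ k ↔ ∃ p : Str, M.Outputs X p s ∧ p.length ≤ k := by
  constructor
  · intro h
    by_contra hcon
    push Not at hcon
    have : ((k + 1 : ℕ) : ℕ∞) ≤ oracleC M X s := by
      unfold oracleC
      refine le_iInf₂ fun p hp => ?_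
      exact_mod_cast hcon p hp
    have h2 := this.trans h
    have h3 : k + 1 ≤ k := by exact_mod_cast h2
    omega
  · rintro ⟨p, hp, hk⟩
    unfold oracleC
    exact (iInf₂_le p hp).trans (by exact_mod_cast hk)

lemma initSeg_length (X : ℕ → Bool) (m : ℕ) : (initSeg X m).length = m := by simp [initSeg]

lemma initSeg_take (X : ℕ → Bool) (m t : ℕ) : (initSeg X m).take t = initSeg X (min t m) := by
  unfold initSeg
  rw [← List.map_take, List.take_range]

lemma initSeg_mono (X : ℕ → Bool) {m m' : ℕ} (h : m ≤ m') : initSeg X m <+: initSeg X m' := by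
  have := initSeg_take X m' m
  rw [min_eq_left h] at this
  rw [← this]
  exact List.take_prefix _ _

lemma outputs_unique {M : OracleMachine} {X : ℕ → Bool} {p s s' : Str}
    (h : M.Outputs X p s) (h' : M.Outputs X p s') : s = s' := by
  obtain ⟨m, hm⟩ := h
  obtain ⟨m', hm'⟩ := h'
  rcases le_total m m' with hh | hh
  · exact M.consistent _ _ _ _ _ (initSeg_mono X hh) hm hm'
  · exact (M.consistent _ _ _ _ _ (initSeg_mono X hh) hm' hm).symm

lemma count_lt {P : Str → Str → Prop} (hP : ∀ p s s', P p s → P p s' → s = s') {D : List Str}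
    (hD : D.Nodup) {k : ℕ} (h : ∀ s ∈ D, ∃ p : Str, p.length ≤ k ∧ P p s) :
    D.length < 2 ^ (k + 1) := by
  classical
  choose! f hf1 hf2 using h
  have h1 : (D.map f).Nodup := by
    refine List.Nodup.map_on ?_ hD
    intro s hs s' hs' e
    refine hP (f s) _ _ (hf2 s hs) ?_
    rw [e]; exact hf2 s' hs'
  have h2 : D.map f ⊆ allStr k := by
    intro p hp
    obtain ⟨s, hs, rfl⟩ := List.mem_map.1 hp
    exact mem_allStr.2 (hf1 s hs)
  have h3 := (h1.subperm h2).length_le
  rw [List.length_map] at h3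
  have := length_allStr k
  omega

/-! ### the atoms -/

/-- the atoms `(s, k)` with `|s| ≤ n` and `k ≤ n + c₀` -/
def EL (c0 n : ℕ) : List Atom :=
  (allStr n).flatMap (fun s => (List.range (n + c0 + 1)).map (fun k => (s, k)))

lemma mem_EL {c0 n : ℕ} {s : Str} {k : ℕ} :
    (s, k) ∈ EL c0 n ↔ s.length ≤ n ∧ k ≤ n + c0 := by
  unfold EL
  simp only [List.mem_flatMap, List.mem_map, List.mem_range, mem_allStr, Prod.mk.injEq]
  constructor
  · rintro ⟨s', hs', k', hk', rfl, rfl⟩
    exact ⟨hs', by omega⟩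
  · rintro ⟨h1, h2⟩
    exact ⟨s, h1, k, by omega, rfl, rfl⟩

lemma length_EL (c0 n : ℕ) : (EL c0 n).length = (allStr n).length * (n + c0 + 1) := by
  unfold EL
  rw [List.length_flatMap]
  simp

lemma EL_ne_nil (c0 n : ℕ) : EL c0 n ≠ [] := by
  have : (([] : Str), 0) ∈ EL c0 n := mem_EL.2 (by simp)
  intro h
  rw [h] at this
  simp at this

/-- the length of the conditions -/
def ell (c0 n : ℕ) : ℕ := (2 * n + c0 + 1) * (4 * (EL c0 n).length)

lemma EL_lt (c0 n : ℕ) : (EL c0 n).length + 1 ≤ 2 ^ (n + 1) * (n + c0 + 1) := by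
  rw [length_EL, ← length_allStr n, Nat.add_mul]
  omega

lemma ell_spec (c0 n : ℕ) :
    ((EL c0 n).length + 1) ^ (4 * (EL c0 n).length) ≤ 2 ^ (ell c0 n) := by
  unfold ell
  rw [pow_mul 2 (2 * n + c0 + 1)]
  refine Nat.pow_le_pow_left ?_ _
  refine (EL_lt c0 n).trans ?_
  have h : n + c0 + 1 ≤ 2 ^ (n + c0) := Nat.lt_two_pow_self
  calc 2 ^ (n + 1) * (n + c0 + 1) ≤ 2 ^ (n + 1) * 2 ^ (n + c0) := Nat.mul_le_mul_left _ h
    _ = 2 ^ (2 * n + c0 + 1) := by rw [← pow_add]; congr 1; omega

lemma EL_primrec (c0 : ℕ) : Primrec (EL c0) := by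
  unfold EL
  refine Primrec.list_flatMap allStr_primrec ?_
  have h1 : Primrec (fun x : ℕ × Str => List.range (x.1 + c0 + 1)) :=
    Primrec.list_range.comp (Primrec.succ.comp (Primrec.nat_add.comp Primrec.fst
      (Primrec.const c0)))
  exact Primrec.list_map h1 (Primrec.pair (Primrec.snd.comp Primrec.fst) Primrec.snd)

lemma ell_primrec (c0 : ℕ) : Primrec (ell c0) := by
  unfold ell
  refine Primrec.nat_mul.comp ?_ ?_
  · refine Primrec.succ.comp (Primrec.nat_add.comp ?_ (Primrec.const c0))
    exact Primrec.nat_mul.comp (Primrec.const 2) Primrec.id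
  · exact Primrec.nat_mul.comp (Primrec.const 4) (Primrec.list_length.comp (EL_primrec c0))

/-! ### the two enumerations -/

/-- `FF u y (s, k) t`: some program of length at most `k` is seen by time `t` to give `s` from `y` -/
def FF (u : (Str × Str) × Str → ℕ → Bool) (y : Str) (e : Atom) (t : ℕ) : Bool :=
  decide (∃ p ∈ allStr e.2, u ((p, y), e.1) t = true)

/-- `G1 g σ (s, k) m`: by time `|σ|` some program of length at most `k` is seen to give `s` with the
first `m` bits of `σ` -/
def G1 (g : Str × Str × Str → ℕ → Bool) (σ : Str) (e : Atom) (m : ℕ) : Bool :=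
  decide (∃ p ∈ allStr e.2, g (σ.take m, p, e.1) σ.length = true)

/-- `GG g σ (s, k)`: some program of length at most `k` is seen to give `s` with the oracle `σ` -/
def GG (g : Str × Str × Str → ℕ → Bool) (σ : Str) (e : Atom) : Bool :=
  (List.range (σ.length + 1)).any (fun m => G1 g σ e m)

lemma FF_primrec {u : (Str × Str) × Str → ℕ → Bool} (hu : Primrec₂ u) :
    Primrec (fun x : Str × Atom × ℕ => FF u x.1 x.2.1 x.2.2) := by
  unfold FF
  have h : PrimrecRel (fun (p : Str) (x : Str × Atom × ℕ) =>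
      u ((p, x.1), x.2.1.1) x.2.2 = true) := by
    refine Primrec.eq.comp (hu.comp ?_ ?_) (Primrec.const true)
    · exact Primrec.pair (Primrec.pair Primrec.fst (Primrec.fst.comp Primrec.snd))
        (Primrec.fst.comp (Primrec.fst.comp (Primrec.snd.comp Primrec.snd)))
    · exact Primrec.snd.comp (Primrec.snd.comp Primrec.snd)
  have h2 : PrimrecPred (fun x : Str × Atom × ℕ =>
      ∃ p ∈ allStr x.2.1.2, u ((p, x.1), x.2.1.1) x.2.2 = true) :=
    h.exists_mem_list.comp (allStr_primrec.comp
      (Primrec.snd.comp (Primrec.fst.comp Primrec.snd))) Primrec.id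
  exact h2.decide

lemma GG_primrec {g : Str × Str × Str → ℕ → Bool} (hg : Primrec₂ g) : Primrec₂ (GG g) := by
  have h : PrimrecRel (fun (p : Str) (x : ℕ × Str × Atom) =>
      g (x.2.1.take x.1, p, x.2.2.1) x.2.1.length = true) := by
    have a1 : Primrec (fun z : Str × (ℕ × Str × Atom) => z.2.2.1) :=
      Primrec.fst.comp (Primrec.snd.comp Primrec.snd)
    refine Primrec.eq.comp (hg.comp ?_ ?_) (Primrec.const true)
    · refine Primrec.pair (Primrec.list_take.comp (Primrec.fst.comp Primrec.snd) a1)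
        (Primrec.pair Primrec.fst ?_)
      exact Primrec.fst.comp (Primrec.snd.comp (Primrec.snd.comp Primrec.snd))
    · exact Primrec.list_length.comp a1
  have h1 : PrimrecPred (fun x : ℕ × Str × Atom =>
      ∃ p ∈ allStr x.2.2.2, g (x.2.1.take x.1, p, x.2.2.1) x.2.1.length = true) :=
    h.exists_mem_list.comp (allStr_primrec.comp (Primrec.snd.comp
      (Primrec.snd.comp Primrec.snd))) Primrec.id
  have h2 : PrimrecRel (fun (m : ℕ) (x : Str × Atom) => G1 g x.1 x.2 m = true) := by
    refine Primrec.eq.comp ?_ (Primrec.const true)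
    have := h1.decide
    exact this
  have h3 : PrimrecPred (fun x : Str × Atom => ∃ m ∈ List.range (x.1.length + 1),
      G1 g x.1 x.2 m = true) :=
    h2.exists_mem_list.comp (Primrec.list_range.comp (Primrec.succ.comp
      (Primrec.list_length.comp Primrec.fst))) Primrec.id
  classical
  refine (h3.decide).of_eq fun x => ?_
  unfold GG
  rw [Bool.eq_iff_iff]
  simp only [decide_eq_true_eq, List.any_eq_true]

lemma runQ_congr {E : List Atom} {G G' : ℕ → Atom → Bool} {L : ℕ → List Rec} {N : ℕ}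
    (h : ∀ t < N, G t = G' t) : runQ E G L N = runQ E G' L N := by
  induction N with
  | zero => rfl
  | succ N ih =>
    rw [runQ, runQ, ih (fun t ht => h t (by omega)), h N (by omega)]

lemma lookup_run_mono {E : List Atom} {ℓ : ℕ} {F : Str → Atom → ℕ → Bool} {t t' : ℕ}
    (h : t ≤ t') {y : Str} {v : Pos × ℕ} (hv : (run E ℓ F t).lookup y = some v) :
    ∃ v', (run E ℓ F t').lookup y = some v' ∧ v.1 <:+ v'.1 := by
  induction t', h using Nat.le_induction with
  | base => exact ⟨v, hv, List.suffix_rfl⟩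
  | succ t' _ ih =>
    obtain ⟨v', hv', hs⟩ := ih
    rw [run]
    by_cases hy : y = who t'
    · unfold visit
      rw [← hy, hv']
      simp only
      cases nextMove E (fun e => F y e t') v'.1 v'.2 with
      | none => exact ⟨v', hv', hs⟩
      | some mv =>
        exact ⟨_, lookup_cons_self _ _ _, hs.trans (List.suffix_cons _ _)⟩
    · refine ⟨v', ?_, hs⟩
      unfold visit
      cases (run E ℓ F t').lookup (who t') with
      | none =>
        simp only
        split_ifs
        · rw [lookup_cons_ne _ _ hy]; exact hv'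
        · exact hv'
      | some w =>
        simp only
        cases nextMove E (fun e => F (who t') e t') w.1 w.2 with
        | none => exact hv'
        | some mv => simp only; rw [lookup_cons_ne _ _ hy]; exact hv'

section Machines

variable (c0 : ℕ) (u : (Str × Str) × Str → ℕ → Bool) (g : Str × Str × Str → ℕ → Bool)

/-- the log for the parameter `n` -/
def RR (n t : ℕ) : List Rec := run (EL c0 n) (ell c0 n) (FF u) t

/-- our conditional machine -/
def VV : Str × Str →. Str := fun a =>
  Nat.rfindOpt (fun t => ((RR c0 u (dec a.1).1 t).lookup a.2).bind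
    (fun v => (chron true ((dec a.1).2.length - 1) v.1)[val (dec a.1).2]?))

lemma RR_primrec (hu : Primrec₂ u) : Primrec₂ (RR c0 u) :=
  run_primrec (FF_primrec hu) (EL_primrec c0) (ell_primrec c0)

lemma VV_partrec (hu : Primrec₂ u) : Partrec (VV c0 u) := by
  unfold VV
  refine Partrec.rfindOpt ?_
  refine Primrec.to_comp ?_
  have d1 : Primrec (fun x : (Str × Str) × ℕ => (dec x.1.1).1) :=
    Primrec.fst.comp (dec_primrec.comp (Primrec.fst.comp Primrec.fst))
  have d2 : Primrec (fun x : (Str × Str) × ℕ => (dec x.1.1).2) :=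
    Primrec.snd.comp (dec_primrec.comp (Primrec.fst.comp Primrec.fst))
  refine Primrec.option_bind (lookup_primrec.comp (Primrec.snd.comp Primrec.fst)
    ((RR_primrec c0 u hu).comp d1 Primrec.snd)) ?_
  refine Primrec.list_getElem?.comp ?_ (val_primrec.comp (d2.comp Primrec.fst))
  refine (chron_primrec true).comp ?_ (Primrec.fst.comp Primrec.snd)
  exact Primrec.nat_sub.comp (Primrec.list_length.comp (d2.comp Primrec.fst)) (Primrec.const 1)

/-- the position reached on the oracle side with the oracle bits `σ` -/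
def QQ (n : ℕ) (σ : Str) : Pos :=
  runQ (EL c0 n) (fun t e => GG g (σ.take t) e) (RR c0 u n) σ.length

lemma QQ_primrec (hu : Primrec₂ u) (hg : Primrec₂ g) : Primrec₂ (QQ c0 u g) := by
  unfold QQ
  refine runQ_primrec (δ := ℕ × Str) (GG_primrec hg) (EE := fun x => EL c0 x.1)
    ((EL_primrec c0).comp Primrec.fst) (gg := fun x t => x.2.take t) ?_
    (LL := fun x t => RR c0 u x.1 t) ?_ (tt := fun x => x.2.length)
    (Primrec.list_length.comp Primrec.snd)
  · exact Primrec.list_take.comp Primrec.snd (Primrec.snd.comp Primrec.fst)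
  · exact (RR_primrec c0 u hu).comp (Primrec.fst.comp Primrec.fst) Primrec.snd

lemma QQ_mono (n : ℕ) {σ τ : Str} (h : σ <+: τ) : QQ c0 u g n σ <:+ QQ c0 u g n τ := by
  obtain ⟨ρ, rfl⟩ := h
  unfold QQ
  have h1 : runQ (EL c0 n) (fun t e => GG g (σ.take t) e) (RR c0 u n) σ.length =
      runQ (EL c0 n) (fun t e => GG g ((σ ++ ρ).take t) e) (RR c0 u n) σ.length := by
    refine runQ_congr fun t ht => ?_
    rw [List.take_append_of_le_length ht.le]
  rw [h1]
  exact runQ_suffix _ _ _ (by simp)

/-- our oracle machine -/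
def WW (hu : Primrec₂ u) (hg : Primrec₂ g) : OracleMachine where
  Gives σ p s := (chron false ((dec p).2.length - 1) (QQ c0 u g (dec p).1 σ))[val (dec p).2]? =
    some s
  ce := by
    refine ComputablePred.to_re ?_
    refine ComputablePred.computable_iff.2 ?_
    refine ⟨fun q => decide ((chron false ((dec q.2.1).2.length - 1)
      (QQ c0 u g (dec q.2.1).1 q.1))[val (dec q.2.1).2]? = some q.2.2), ?_, ?_⟩
    · refine Primrec.to_comp ?_
      have d1 : Primrec (fun x : Str × Str × Str => (dec x.2.1).1) :=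
        Primrec.fst.comp (dec_primrec.comp (Primrec.fst.comp Primrec.snd))
      have d2 : Primrec (fun x : Str × Str × Str => (dec x.2.1).2) :=
        Primrec.snd.comp (dec_primrec.comp (Primrec.fst.comp Primrec.snd))
      have h : PrimrecPred (fun q : Str × Str × Str => (chron false ((dec q.2.1).2.length - 1)
          (QQ c0 u g (dec q.2.1).1 q.1))[val (dec q.2.1).2]? = some q.2.2) := by
        refine Primrec.eq.comp (Primrec.list_getElem?.comp ?_ (val_primrec.comp d2))
          (Primrec.option_some.comp (Primrec.snd.comp Primrec.snd))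
        refine (chron_primrec false).comp ?_ ((QQ_primrec c0 u g hu hg).comp d1 Primrec.fst)
        exact Primrec.nat_sub.comp (Primrec.list_length.comp d2) (Primrec.const 1)
      exact h.decide
    · funext q; simp
  consistent := by
    intro σ τ p s s' h h1 h2
    have := chron_prefix_of_suffix (b := false) (k := (dec p).2.length - 1)
      (QQ_mono c0 u g (dec p).1 h)
    obtain ⟨R, hR⟩ := this
    rw [← hR, List.getElem?_append_left, h1] at h2
    · simpa using h2
    · by_contra hc
      rw [List.getElem?_eq_none (by omega)] at h1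
      simp at h1

end Machines

/-! ### the trivial bounds -/

lemma exists_trivial_bound {U : Str × Str →. Str} (hU : IsOptimalMachine U)
    {M : OracleMachine} (hM : M.IsOptimal) :
    ∃ c0 : ℕ, (∀ s y, condC U s y ≤ (s.length + c0 : ℕ)) ∧
      ∀ X s, oracleC M X s ≤ (s.length + c0 : ℕ) := by
  obtain ⟨c1, h1⟩ := hU.2 (fun a => Part.some a.1) (Computable.fst)
  let I : OracleMachine :=
    { Gives := fun _ p s => p = s
      ce := by
        refine ComputablePred.to_re (ComputablePred.computable_iff.2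
          ⟨fun q => decide (q.2.1 = q.2.2), ?_, by funext q; simp⟩)
        refine Primrec.to_comp ?_
        have h : PrimrecPred (fun q : Str × Str × Str => q.2.1 = q.2.2) :=
          Primrec.eq.comp (Primrec.fst.comp Primrec.snd) (Primrec.snd.comp Primrec.snd)
        exact h.decide
      consistent := by
        rintro σ τ p s s' - rfl rfl
        rfl }
  obtain ⟨c2, h2⟩ := hM I
  refine ⟨max c1 c2, fun s y => ?_, fun X s => ?_⟩
  · refine (h1 s y).trans ?_
    have : condC (fun a => Part.some a.1) s y ≤ (s.length : ℕ) :=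
      condC_le_iff.2 ⟨s, by simp, le_rfl⟩
    calc condC (fun a => Part.some a.1) s y + (c1 : ℕ∞) ≤ (s.length : ℕ) + (c1 : ℕ∞) :=
          add_le_add this le_rfl
      _ ≤ (s.length + max c1 c2 : ℕ) := by
          push_cast
          gcongr
          exact le_max_left _ _
  · refine (h2 X s).trans ?_
    have : oracleC I X s ≤ (s.length : ℕ) :=
      oracleC_le_iff.2 ⟨s, ⟨0, rfl⟩, le_rfl⟩
    calc oracleC I X s + (c2 : ℕ∞) ≤ (s.length : ℕ) + (c2 : ℕ∞) :=
          add_le_add this le_rfl
      _ ≤ (s.length + max c1 c2 : ℕ) := by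
          push_cast
          gcongr
          exact le_max_right _ _

lemma FF_true_iff {U : Str × Str →. Str} {u : (Str × Str) × Str → ℕ → Bool}
    (hu : ∀ a, a.2 ∈ U a.1 ↔ ∃ t, u a t = true)
    (y : Str) (e : Atom) :
    (∃ t, FF u y e t = true) ↔ ∃ p : Str, p.length ≤ e.2 ∧ e.1 ∈ U (p, y) := by
  simp only [FF, decide_eq_true_eq, mem_allStr]
  constructor
  · rintro ⟨t, p, hp, h⟩
    exact ⟨p, hp, (hu ((p, y), e.1)).2 ⟨t, h⟩⟩
  · rintro ⟨p, hp, h⟩
    obtain ⟨t, ht⟩ := (hu ((p, y), e.1)).1 h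
    exact ⟨t, p, hp, ht⟩

lemma FF_mono {u : (Str × Str) × Str → ℕ → Bool}
    (hu : ∀ a t t', t ≤ t' → u a t = true → u a t' = true) (y : Str) (e : Atom) (t t' : ℕ)
    (h : t ≤ t') (hf : FF u y e t = true) : FF u y e t' = true := by
  simp only [FF, decide_eq_true_eq] at hf ⊢
  obtain ⟨p, hp, h'⟩ := hf
  exact ⟨p, hp, hu _ _ _ h h'⟩

lemma GG_iff {g : Str × Str × Str → ℕ → Bool} {σ : Str} {e : Atom} :
    GG g σ e = true ↔ ∃ m ≤ σ.length, ∃ p : Str, p.length ≤ e.2 ∧
      g (σ.take m, p, e.1) σ.length = true := by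
  simp only [GG, G1, List.any_eq_true, List.mem_range, decide_eq_true_eq, mem_allStr]
  constructor
  · rintro ⟨m, hm, p, hp, h⟩; exact ⟨m, by omega, p, hp, h⟩
  · rintro ⟨m, hm, p, hp, h⟩; exact ⟨m, by omega, p, hp, h⟩

lemma GG_true_iff {M : OracleMachine} {g : Str × Str × Str → ℕ → Bool}
    (hgm : ∀ a t t', t ≤ t' → g a t = true → g a t' = true)
    (hg : ∀ a : Str × Str × Str, M.Gives a.1 a.2.1 a.2.2 ↔ ∃ t, g a t = true)
    (X : ℕ → Bool) (e : Atom) :
    (∃ t, GG g (initSeg X t) e = true) ↔ ∃ p : Str, p.length ≤ e.2 ∧ M.Outputs X p e.1 := by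
  simp only [GG_iff, initSeg_length, initSeg_take]
  constructor
  · rintro ⟨t, m, hm, p, hp, h⟩
    exact ⟨p, hp, min m t, (hg (initSeg X (min m t), p, e.1)).2 ⟨t, h⟩⟩
  · rintro ⟨p, hp, m, h⟩
    obtain ⟨t, ht⟩ := (hg (initSeg X m, p, e.1)).1 h
    refine ⟨max m t, m, le_max_left _ _, p, hp, ?_⟩
    rw [min_eq_left (le_max_left _ _)]
    exact hgm _ _ _ (le_max_right _ _) ht

lemma GG_mono {g : Str × Str × Str → ℕ → Bool}
    (hgm : ∀ a t t', t ≤ t' → g a t = true → g a t' = true)
    (X : ℕ → Bool) (t t' : ℕ) (e : Atom) (htt : t ≤ t')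
    (h : GG g (initSeg X t) e = true) : GG g (initSeg X t') e = true := by
  simp only [GG_iff, initSeg_length, initSeg_take] at h ⊢
  obtain ⟨m, hm, p, hp, h⟩ := h
  refine ⟨m, hm.trans htt, p, hp, ?_⟩
  rw [min_eq_left hm] at h
  rw [min_eq_left (hm.trans htt)]
  exact hgm _ _ _ htt h

/-- The core of the simulation theorem, with the two machines. -/
lemma core {U : Str × Str →. Str} {M : OracleMachine} (c0 : ℕ)
    {u : (Str × Str) × Str → ℕ → Bool} {g : Str × Str × Str → ℕ → Bool}
    (hu : Primrec₂ u) (hg : Primrec₂ g)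
    (hum : ∀ a t t', t ≤ t' → u a t = true → u a t' = true)
    (hgm : ∀ a t t', t ≤ t' → g a t = true → g a t' = true)
    (hui : ∀ a, a.2 ∈ U a.1 ↔ ∃ t, u a t = true)
    (hgi : ∀ a : Str × Str × Str, M.Gives a.1 a.2.1 a.2.2 ↔ ∃ t, g a t = true)
    (X : ℕ → Bool) (n : ℕ) :
    ∃ y : Str, y.length = ell c0 n ∧ ∀ s : Str, s.length ≤ n → ∀ k ≤ n + c0,
      (oracleC M X s ≤ (k : ℕ∞) →
        condC (VV c0 u) s y ≤ ((k + 2 * Nat.log 2 n + 4 : ℕ) : ℕ∞)) ∧
      (condC U s y ≤ (k : ℕ∞) →
        oracleC (WW c0 u g hu hg) X s ≤ ((k + 2 * Nat.log 2 n + 4 : ℕ) : ℕ∞)) := by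
  obtain ⟨T, q, y, hy, hQ, hL, hnd, hqE, hadv, hown⟩ :=
    game (E := EL c0 n) (ℓ := ell c0 n) (F := FF u) (G := fun t e => GG g (initSeg X t) e)
      (EL_ne_nil c0 n) (ell_spec c0 n) (FF_mono hum) (fun t t' e => GG_mono hgm X t t' e)
  obtain ⟨h, hh, hdec⟩ := exists_header n
  have hQQ : ∀ t, QQ c0 u g n (initSeg X t) =
      runQ (EL c0 n) (fun t e => GG g (initSeg X t) e) (run (EL c0 n) (ell c0 n) (FF u)) t := by
    intro t
    unfold QQ
    rw [initSeg_length]
    refine runQ_congr fun r hr => ?_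
    rw [initSeg_take, min_eq_left hr.le]
  refine ⟨y, hy, fun s hs k hk => ⟨fun hC => ?_, fun hC => ?_⟩⟩
  · -- the string side
    obtain ⟨p, hp, hpk⟩ := oracleC_le_iff.1 hC
    have hmem : (true, (s, k)) ∈ q :=
      (hown _ (mem_EL.2 ⟨hs, hk⟩)).2 ((GG_true_iff hgm hgi X (s, k)).2 ⟨p, hpk, hp⟩)
    obtain ⟨i, hi⟩ := List.mem_iff_getElem?.1 (mem_chron.2 hmem)
    have hlen : (chron true k q).length < 2 ^ (k + 1) := by
      refine count_lt (P := fun p s => M.Outputs X p s)
        (fun p s s' h h' => outputs_unique h h') (chron_nodup hnd) ?_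
      intro s' hs'
      have h1 := mem_chron.1 hs'
      have h2 := (hown _ (hqE _ h1)).1 h1
      exact (GG_true_iff hgm hgi X (s', k)).1 h2
    have hi' : i < (chron true k q).length := by
      by_contra hc
      rw [List.getElem?_eq_none (by omega)] at hi
      simp at hi
    obtain ⟨w, hw, hv⟩ := exists_val_eq (k + 1) i (hi'.trans hlen)
    refine condC_le_iff.2 ⟨h ++ w, ?_, ?_⟩
    · unfold VV
      rw [Nat.rfindOpt_mono]
      · obtain ⟨j, hj⟩ := hL T le_rfl
        refine ⟨T, ?_⟩
        simp only [hdec]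
        unfold RR
        rw [hj]
        simp only [Option.bind_some, hw, hv, Nat.add_sub_cancel, Option.mem_def]
        exact hi
      · intro a m m' hmm ha
        simp only [hdec, Option.mem_def, Option.bind_eq_some_iff] at ha ⊢
        obtain ⟨v, hv1, hv2⟩ := ha
        obtain ⟨v', hv1', hsuf⟩ := lookup_run_mono hmm hv1
        refine ⟨v', hv1', ?_⟩
        obtain ⟨R, hR⟩ := chron_prefix_of_suffix (b := true) (k := w.length - 1) hsuf
        rw [← hR, List.getElem?_append_left]
        · exact hv2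
        · by_contra hc
          rw [List.getElem?_eq_none (by omega)] at hv2
          simp at hv2
    · rw [List.length_append, hw]; omega
  · -- the oracle side
    obtain ⟨p, hp, hpk⟩ := condC_le_iff.1 hC
    have hmem : (false, (s, k)) ∈ q :=
      (hadv _ (mem_EL.2 ⟨hs, hk⟩)).2 ((FF_true_iff hui y (s, k)).2 ⟨p, hpk, hp⟩)
    obtain ⟨i, hi⟩ := List.mem_iff_getElem?.1 (mem_chron.2 hmem)
    have hlen : (chron false k q).length < 2 ^ (k + 1) := by
      refine count_lt (P := fun p s => s ∈ U (p, y))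
        (fun p s s' h h' => Part.mem_unique h h') (chron_nodup hnd) ?_
      intro s' hs'
      have h1 := mem_chron.1 hs'
      have h2 := (hadv _ (hqE _ h1)).1 h1
      exact (FF_true_iff hui y (s', k)).1 h2
    have hi' : i < (chron false k q).length := by
      by_contra hc
      rw [List.getElem?_eq_none (by omega)] at hi
      simp at hi
    obtain ⟨w, hw, hv⟩ := exists_val_eq (k + 1) i (hi'.trans hlen)
    refine oracleC_le_iff.2 ⟨h ++ w, ⟨T, ?_⟩, ?_⟩
    · show (chron false ((dec (h ++ w)).2.length - 1) (QQ c0 u g (dec (h ++ w)).1 (initSeg X T)))[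
        val (dec (h ++ w)).2]? = some s
      simp only [hdec, hw, hv, Nat.add_sub_cancel]
      rw [hQQ, hQ T le_rfl]
      exact hi
    · rw [List.length_append, hw]; omega

/-- **Every oracle can be simulated by finite conditions with logarithmic precision**, with
conditions of length `O(n² 2ⁿ)`, all constants being independent of the oracle. -/
theorem simulation (U : Str × Str →. Str) (hU : IsOptimalMachine U)
    (M : OracleMachine) (hM : M.IsOptimal) :
    ∃ c : ℕ, ∀ X : ℕ → Bool, ∃ x : ℕ → Str, ∀ n ≥ 1,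
      (x n).length ≤ c * n ^ 2 * 2 ^ n ∧ Close U M X c n (x n) := by
  obtain ⟨c0, hc0, hc0'⟩ := exists_trivial_bound hU hM
  obtain ⟨u, hu, hum, hui⟩ := exists_approx (graph_re U hU.1)
  obtain ⟨g, hg, hgm, hgi⟩ := exists_approx M.ce
  obtain ⟨cV, hV⟩ := hU.2 _ (VV_partrec c0 u hu)
  obtain ⟨cW, hW⟩ := hM (WW c0 u g hu hg)
  refine ⟨8 * (c0 + 3) * (c0 + 2) + (cV + cW + 4), fun X => ?_⟩
  choose x hx hx' using core (U := U) (M := M) c0 hu hg hum hgm hui hgi X
  refine ⟨x, fun n hn => ⟨?_, fun s hs => ⟨?_, ?_⟩⟩⟩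
  · rw [hx]
    unfold ell
    have h1 := EL_lt c0 n
    have h2 : (EL c0 n).length ≤ 2 ^ (n + 1) * ((c0 + 2) * n) := by
      refine (Nat.le_succ _).trans (h1.trans (Nat.mul_le_mul_left _ ?_))
      nlinarith
    have h3 : 2 * n + c0 + 1 ≤ (c0 + 3) * n := by nlinarith
    calc (2 * n + c0 + 1) * (4 * (EL c0 n).length)
        ≤ ((c0 + 3) * n) * (4 * (2 ^ (n + 1) * ((c0 + 2) * n))) :=
          Nat.mul_le_mul h3 (Nat.mul_le_mul_left _ h2)
      _ = 8 * (c0 + 3) * (c0 + 2) * n ^ 2 * 2 ^ n := by ring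
      _ ≤ _ := by
          refine Nat.mul_le_mul_right _ (Nat.mul_le_mul_right _ ?_)
          omega
  · -- C_U(s | x) ≤ C^X(s) + ...
    cases hk : oracleC M X s with
    | top => simp
    | coe k =>
      have hkn : k ≤ n + c0 := by
        have := hc0' X s
        rw [hk] at this
        have h2 : k ≤ s.length + c0 := by exact_mod_cast this
        omega
      have h1 := (hx' n s hs k hkn).1 (le_of_eq hk)
      refine (hV s (x n)).trans ((add_le_add h1 le_rfl).trans ?_)
      have : k + 2 * Nat.log 2 n + 4 + cV ≤ k + ((8 * (c0 + 3) * (c0 + 2) + (cV + cW + 4)) *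
          Nat.log 2 n + (8 * (c0 + 3) * (c0 + 2) + (cV + cW + 4))) := by
        have h5 : 2 * Nat.log 2 n ≤ (8 * (c0 + 3) * (c0 + 2) + (cV + cW + 4)) * Nat.log 2 n :=
          Nat.mul_le_mul_right _ (by omega)
        omega
      exact_mod_cast this
  · cases hk : condC U s (x n) with
    | top => simp
    | coe k =>
      have hkn : k ≤ n + c0 := by
        have := hc0 s (x n)
        rw [hk] at this
        have h2 : k ≤ s.length + c0 := by exact_mod_cast this
        omega
      have h1 := (hx' n s hs k hkn).2 (le_of_eq hk)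
      refine (hW X s).trans ((add_le_add h1 le_rfl).trans ?_)
      have : k + 2 * Nat.log 2 n + 4 + cW ≤ k + ((8 * (c0 + 3) * (c0 + 2) + (cV + cW + 4)) *
          Nat.log 2 n + (8 * (c0 + 3) * (c0 + 2) + (cV + cW + 4))) := by
        have h5 : 2 * Nat.log 2 n ≤ (8 * (c0 + 3) * (c0 + 2) + (cV + cW + 4)) * Nat.log 2 n :=
          Nat.mul_le_mul_right _ (by omega)
        omega
      exact_mod_cast this

end Pool.Agent.MP_d04dff_lc
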