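import Mathlib
import Pool.Agent.MP_d04dff_lc_Upper

/-!
# Some oracles need long conditions
-/

namespace Pool.Agent.MP_d04dff_lc

/-! ### the counting argument -/

/-- For all `n ≥ 2` and `k` there are `2 ^ k` strings of length `n` (indexed by the strings of length
`k`) such that every condition `y` of length less than `2 ^ k` leaves one of them at complexity
more than `n - 2`. -/
lemma exists_hard_family (U : Str × Str →. Str) (n k : ℕ) (hn : 2 ≤ n) :
    ∃ f : Str → Str, (∀ w, (f w).length = n) ∧
      ∀ y : Str, y.length < 2 ^ k → ∃ w : Str, w.length = k ∧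
        ¬ condC U (f w) y ≤ ((n - 2 : ℕ) : ℕ∞) := by
  classical
  let V (j : ℕ) := List.Vector Bool j
  -- the simple strings of length `n`, given the condition `y`
  let S : Str → Finset (V n) := fun y =>
    Finset.univ.filter (fun v => condC U v.toList y ≤ ((n - 2 : ℕ) : ℕ∞))
  have hS : ∀ y, (S y).card ≤ 2 ^ (n - 1) := by
    intro y
    have hnd : ((S y).toList.map (fun v : V n => v.toList)).Nodup := by
      refine List.Nodup.map (fun a b h => ?_) (Finset.nodup_toList _)
      exact Subtype.ext h
    have := count_lt (P := fun p s => s ∈ U (p, y)) (fun p s s' h h' => Part.mem_unique h h')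
      hnd (k := n - 2) (by
        intro s hs
        obtain ⟨v, hv, rfl⟩ := List.mem_map.1 hs
        rw [Finset.mem_toList] at hv
        have := (Finset.mem_filter.1 hv).2
        obtain ⟨p, hp, hk⟩ := condC_le_iff.1 this
        exact ⟨p, hk, hp⟩)
    rw [List.length_map, Finset.length_toList, show n - 2 + 1 = n - 1 by omega] at this
    exact this.le
  -- the bad functions
  let B : Str → Finset (V k → V n) := fun y => Fintype.piFinset (fun _ => S y)
  have hB : ∀ y, (B y).card ≤ (2 ^ (n - 1)) ^ (2 ^ k) := by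
    intro y
    simp only [B, Fintype.card_piFinset, Finset.prod_const, Finset.card_univ]
    have : Fintype.card (V k) = 2 ^ k := by simp [V]
    rw [this]
    exact Nat.pow_le_pow_left (hS y) _
  have hYcard : (allStr (2 ^ k - 1)).toFinset.card < 2 ^ (2 ^ k) := by
    refine (List.toFinset_card_le _).trans_lt ?_
    have := length_allStr (2 ^ k - 1)
    rw [Nat.sub_add_cancel Nat.one_le_two_pow] at this
    omega
  have hcard : ((allStr (2 ^ k - 1)).toFinset.biUnion B).card < Fintype.card (V k → V n) := by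
    refine (Finset.card_biUnion_le_card_mul _ _ _ (fun y _ => hB y)).trans_lt ?_
    have h1 : Fintype.card (V k → V n) = (2 ^ n) ^ (2 ^ k) := by
      rw [Fintype.card_fun]; simp [V]
    rw [h1]
    have h2 : (2 ^ n) ^ (2 ^ k) = 2 ^ (2 ^ k) * (2 ^ (n - 1)) ^ (2 ^ k) := by
      rw [← Nat.mul_pow, ← pow_succ']
      congr 2
      omega
    rw [h2]
    exact Nat.mul_lt_mul_of_pos_right hYcard (by positivity)
  obtain ⟨φ, hφ⟩ : ∃ φ : V k → V n, φ ∉ (allStr (2 ^ k - 1)).toFinset.biUnion B := by
    by_contra hcon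
    push Not at hcon
    have : (allStr (2 ^ k - 1)).toFinset.biUnion B = Finset.univ :=
      Finset.eq_univ_iff_forall.2 hcon
    rw [this, Finset.card_univ] at hcard
    exact lt_irrefl _ hcard
  refine ⟨fun w => if h : w.length = k then (φ ⟨w, h⟩).toList else List.replicate n false,
    fun w => ?_, fun y hy => ?_⟩
  · by_cases h : w.length = k
    · simp [h]
    · simp [h]
  · have hy' : y ∈ (allStr (2 ^ k - 1)).toFinset := by
      rw [List.mem_toFinset, mem_allStr]; omega
    have h1 : φ ∉ B y := fun h => hφ (Finset.mem_biUnion.2 ⟨y, hy', h⟩)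
    simp only [B, Fintype.mem_piFinset, not_forall] at h1
    obtain ⟨v, hv⟩ := h1
    refine ⟨v.toList, v.2, ?_⟩
    intro hle
    apply hv
    refine Finset.mem_filter.2 ⟨Finset.mem_univ _, ?_⟩
    have hv2 : v.toList.length = k := v.2
    simp only [hv2, dif_pos] at hle
    exact hle

/-! ### the oracle and the machine reading it -/

/-- the oracle bit where the `j`-th bit of the `w`-th string for the parameter `n` is written -/
def slot (a : ℕ × Str) (j : ℕ) : ℕ := Encodable.encode (a, j)

/-- the machine that reads the `w`-th string for the parameter `n` from the oracle -/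
def reader : OracleMachine where
  Gives σ p s := s.length = (dec p).1 ∧
    ∀ j ∈ List.range (dec p).1, σ[slot (dec p) j]? = s[j]?
  ce := by
    refine ComputablePred.to_re ?_
    have h : PrimrecRel (fun (j : ℕ) (q : Str × Str × Str) =>
        q.1[slot (dec q.2.1) j]? = q.2.2[j]?) := by
      refine Primrec.eq.comp (Primrec.list_getElem?.comp (Primrec.fst.comp Primrec.snd) ?_)
        (Primrec.list_getElem?.comp (Primrec.snd.comp (Primrec.snd.comp Primrec.snd))
          Primrec.fst)
      exact Primrec.encode.comp (Primrec.pair (dec_primrec.comp (Primrec.fst.comp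
        (Primrec.snd.comp Primrec.snd))) Primrec.fst)
    have d1 : Primrec (fun q : Str × Str × Str => (dec q.2.1).1) :=
      Primrec.fst.comp (dec_primrec.comp (Primrec.fst.comp Primrec.snd))
    have h2 : PrimrecPred (fun q : Str × Str × Str => q.2.2.length = (dec q.2.1).1 ∧
        ∀ j ∈ List.range (dec q.2.1).1, q.1[slot (dec q.2.1) j]? = q.2.2[j]?) := by
      refine PrimrecPred.and ?_ ?_
      · exact Primrec.eq.comp (Primrec.list_length.comp (Primrec.snd.comp Primrec.snd)) d1
      · exact h.forall_mem_list.comp (Primrec.list_range.comp d1) Primrec.id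
    classical
    exact ComputablePred.computable_iff.2 ⟨_, h2.decide.to_comp, by funext q; simp⟩
  consistent := by
    rintro σ τ p s s' ⟨ρ, rfl⟩ ⟨h1, h2⟩ ⟨h3, h4⟩
    apply List.ext_getElem?
    intro j
    by_cases hj : j < (dec p).1
    · have e1 := h2 j (List.mem_range.2 hj)
      have e2 := h4 j (List.mem_range.2 hj)
      have e3 : s[j]? = some s[j] := List.getElem?_eq_getElem (by omega)
      rw [e3] at e1
      have e4 : slot (dec p) j < σ.length := by
        by_contra hc
        rw [List.getElem?_eq_none (by omega)] at e1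
        simp at e1
      rw [List.getElem?_append_left e4, e1] at e2
      rw [e3, e2]
    · rw [List.getElem?_eq_none (by omega), List.getElem?_eq_none (by omega)]

lemma initSeg_getElem? (X : ℕ → Bool) {m i : ℕ} (h : i < m) : (initSeg X m)[i]? = some (X i) := by
  unfold initSeg
  simp [h]

lemma reader_outputs {X : ℕ → Bool} {n : ℕ} {w h s : Str} (hdec : dec (h ++ w) = (n, w))
    (hs : s.length = n) (hX : ∀ j < n, s[j]? = some (X (slot (n, w) j))) :
    reader.Outputs X (h ++ w) s := by
  refine ⟨((List.range n).map (slot (n, w))).sum + 1, ?_⟩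
  show s.length = (dec (h ++ w)).1 ∧ ∀ j ∈ List.range (dec (h ++ w)).1,
    (initSeg X _)[slot (dec (h ++ w)) j]? = s[j]?
  rw [hdec]
  refine ⟨hs, fun j hj => ?_⟩
  have h1 : slot (n, w) j ≤ ((List.range n).map (slot (n, w))).sum :=
    List.single_le_sum (by simp) _ (List.mem_map.2 ⟨j, hj, rfl⟩)
  rw [initSeg_getElem? X (by omega), hX j (List.mem_range.1 hj)]

/-- **Some oracles need conditions of length `2ⁿ / poly(n)`.** -/
theorem lower_bound (U : Str × Str →. Str)
    (M : OracleMachine) (hM : M.IsOptimal) :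
    ∃ (X : ℕ → Bool) (b : ℕ), ∀ (c n : ℕ) (x : Str), 1 ≤ n → Close U M X c n x →
      2 ^ n ≤ 2 ^ (b + c) * n ^ (c + 2) * (x.length + 1) := by
  classical
  obtain ⟨cR, hR⟩ := hM reader
  have hf : ∀ n k : ℕ, ∃ f : Str → Str, 2 ≤ n → (∀ w, (f w).length = n) ∧
      ∀ y : Str, y.length < 2 ^ k → ∃ w : Str, w.length = k ∧
        ¬ condC U (f w) y ≤ ((n - 2 : ℕ) : ℕ∞) := by
    intro n k
    by_cases hn : 2 ≤ n
    · obtain ⟨f, hf⟩ := exists_hard_family U n k hn
      exact ⟨f, fun _ => hf⟩
    · exact ⟨id, fun h => absurd h hn⟩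
  choose f hf using hf
  let X : ℕ → Bool := fun m =>
    match (Encodable.decode m : Option ((ℕ × Str) × ℕ)) with
    | some ((n, w), j) => (f n w.length w)[j]?.getD false
    | none => false
  have hX : ∀ n w j, X (slot (n, w) j) = (f n w.length w)[j]?.getD false := by
    intro n w j
    simp only [X, slot, Encodable.encodek]
  refine ⟨X, cR + 5, fun c n x hn hC => ?_⟩
  have hlog : 2 ^ Nat.log 2 n ≤ n := Nat.pow_log_le_self 2 (by omega)
  have hpow : 2 ^ ((c + 2) * Nat.log 2 n) ≤ n ^ (c + 2) := by
    rw [Nat.mul_comm, pow_mul]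
    exact Nat.pow_le_pow_left hlog _
  have hnpos : 1 ≤ n ^ (c + 2) := Nat.one_le_pow _ _ hn
  rcases Nat.lt_or_ge n 2 with hn2 | hn2
  · have : n = 1 := by omega
    subst this
    have h1 : 2 ^ 1 ≤ 2 ^ (cR + 5 + c) := Nat.pow_le_pow_right (by norm_num) (by omega)
    calc 2 ^ 1 ≤ 2 ^ (cR + 5 + c) := h1
      _ = 2 ^ (cR + 5 + c) * 1 ^ (c + 2) * 1 := by simp
      _ ≤ _ := Nat.mul_le_mul_left _ (by omega)
  set r := (c + 2) * Nat.log 2 n + (cR + 5 + c) with hr
  have hkey : 2 ^ r ≤ 2 ^ (cR + 5 + c) * n ^ (c + 2) := by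
    rw [hr, pow_add, Nat.mul_comm]
    exact Nat.mul_le_mul_left _ hpow
  rcases Nat.lt_or_ge n r with hnr | hnr
  · calc 2 ^ n ≤ 2 ^ r := Nat.pow_le_pow_right (by norm_num) hnr.le
      _ ≤ 2 ^ (cR + 5 + c) * n ^ (c + 2) := hkey
      _ ≤ _ := Nat.le_mul_of_pos_right _ (by omega)
  · -- the main case
    obtain ⟨k, hk⟩ := Nat.exists_eq_add_of_le hnr
    have hx : 2 ^ k ≤ x.length := by
      by_contra hcon
      push Not at hcon
      obtain ⟨h1, h2⟩ := hf n k hn2
      obtain ⟨w, hw, hw'⟩ := h2 x hcon
      apply hw'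
      obtain ⟨h, hh, hdec⟩ := exists_header n
      have hout : reader.Outputs X (h ++ w) (f n k w) := by
        refine reader_outputs (hdec w) (h1 w) (fun j hj => ?_)
        rw [hX, hw]
        have : j < (f n k w).length := by rw [h1]; exact hj
        rw [List.getElem?_eq_getElem this]
        rfl
      have hread : oracleC reader X (f n k w) ≤ ((k + 2 * Nat.log 2 n + 3 : ℕ) : ℕ∞) :=
        oracleC_le_iff.2 ⟨h ++ w, hout, by rw [List.length_append, hw]; omega⟩
      have h3 := (hC (f n k w) (h1 w).le).1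
      refine h3.trans ?_
      refine (add_le_add ((hR X _).trans (add_le_add hread le_rfl)) le_rfl).trans ?_
      have : k + 2 * Nat.log 2 n + 3 + cR + (c * Nat.log 2 n + c) ≤ n - 2 := by
        rw [hr, Nat.add_mul] at hk
        omega
      exact_mod_cast this
    calc 2 ^ n = 2 ^ r * 2 ^ k := by rw [hk, pow_add]
      _ ≤ (2 ^ (cR + 5 + c) * n ^ (c + 2)) * (x.length + 1) :=
          Nat.mul_le_mul hkey (by omega)

end Pool.Agent.MP_d04dff_lc
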