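import Mathlib
import Pool.Agent.MP_d04dff_lc_Lower

/-!
# Optimal machines exist
-/

namespace Pool.Agent.MP_d04dff_lc

open Nat.Partrec (Code)

/-! ### conditional complexity -/

/-- a universal conditional machine -/
def UU : Str × Str →. Str := fun a =>
  (Code.eval (Denumerable.ofNat Code (dec a.1).1) (Encodable.encode ((dec a.1).2, a.2))).bind
    (fun m => ((Encodable.decode m : Option Str) : Part Str))

lemma UU_partrec : Partrec UU := by
  unfold UU
  refine Partrec.bind ?_ ?_
  · refine Code.eval_part.comp ?_ ?_
    · refine Primrec.to_comp ?_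
      exact (Primrec.ofNat Code).comp (Primrec.fst.comp (dec_primrec.comp Primrec.fst))
    · refine Primrec.to_comp ?_
      exact Primrec.encode.comp (Primrec.pair
        (Primrec.snd.comp (dec_primrec.comp Primrec.fst)) Primrec.snd)
  · exact Computable.ofOption (Computable.decode.comp Computable.snd)

theorem exists_optimalMachine : ∃ U : Str × Str →. Str, IsOptimalMachine U := by
  refine ⟨UU, UU_partrec, fun V hV => ?_⟩
  obtain ⟨c, hc⟩ := Code.exists_code.1 hV
  obtain ⟨h, -, hdec⟩ := exists_header (Encodable.encode c)
  refine ⟨h.length, fun s y => ?_⟩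
  cases hk : condC V s y with
  | top => simp
  | coe k =>
    obtain ⟨p, hp, hpk⟩ := condC_le_iff.1 (le_of_eq hk)
    have h1 : condC UU s y ≤ ((k + h.length : ℕ) : ℕ∞) := by
      refine condC_le_iff.2 ⟨h ++ p, ?_, by rw [List.length_append]; omega⟩
      unfold UU
      simp only [hdec, Denumerable.ofNat_encode, Part.mem_bind_iff]
      refine ⟨Encodable.encode s, ?_, ?_⟩
      · rw [hc]
        simp only [Encodable.encodek, Part.coe_some, Part.bind_some, Part.mem_map_iff]
        exact ⟨s, hp, rfl⟩
      · simp
    refine h1.trans (le_of_eq ?_)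
    push_cast
    rfl

/-! ### complexity relative to an oracle -/

/-- at time `t` the code number `e` is seen to give `s` on `w` with the oracle bits `τ` -/
def seen (e : ℕ) (w τ s : Str) (t : ℕ) : Bool :=
  (Code.evaln t (Denumerable.ofNat Code e) (Encodable.encode (τ, w, s))).isSome

/-- by time `|σ|` some initial segment of `σ` is seen to give `s` on `w` -/
def seenAny (e : ℕ) (w σ s : Str) : Bool :=
  (List.range (σ.length + 1)).any (fun m => seen e w (σ.take m) s σ.length)

/-- the strings seen by time `|σ|` (with number at most `|σ|`) as outputs on `w` with oracle `σ` -/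
def cand (e : ℕ) (w σ : Str) : List Str :=
  (List.range (σ.length + 1)).filterMap (fun i =>
    (Encodable.decode (α := Str) i).bind (fun s =>
      if seenAny e w σ s = true then some s else none))

/-- the first output seen -/
def firstOut (e : ℕ) (w σ : Str) : ℕ → Option Str
  | 0 => none
  | t + 1 => Option.casesOn (firstOut e w σ t) ((cand e w (σ.take t)).head?) (fun s => some s)

lemma seen_primrec : Primrec (fun x : (ℕ × Str) × Str × Str × ℕ =>
    seen x.1.1 x.1.2 x.2.1 x.2.2.1 x.2.2.2) := by
  unfold seen
  refine Primrec.option_isSome.comp (Code.primrec_evaln.comp (Primrec.pair (Primrec.pair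
    ?_ ?_) (Primrec.encode.comp ?_)))
  · exact Primrec.snd.comp (Primrec.snd.comp Primrec.snd)
  · exact (Primrec.ofNat Code).comp (Primrec.fst.comp Primrec.fst)
  · refine Primrec.pair (Primrec.fst.comp Primrec.snd) (Primrec.pair
      (Primrec.snd.comp Primrec.fst) ?_)
    exact Primrec.fst.comp (Primrec.snd.comp Primrec.snd)

lemma seenAny_primrec : Primrec (fun x : ((ℕ × Str) × Str) × Str =>
    seenAny x.1.1.1 x.1.1.2 x.1.2 x.2) := by
  have h : PrimrecRel (fun (m : ℕ) (x : ((ℕ × Str) × Str) × Str) =>
      seen x.1.1.1 x.1.1.2 (x.1.2.take m) x.2 x.1.2.length = true) := by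
    have b1 : Primrec (fun y : ℕ × (((ℕ × Str) × Str) × Str) => y.2.1.1) :=
      Primrec.fst.comp (Primrec.fst.comp Primrec.snd)
    have b2 : Primrec (fun y : ℕ × (((ℕ × Str) × Str) × Str) => y.2.1.2) :=
      Primrec.snd.comp (Primrec.fst.comp Primrec.snd)
    have b3 : Primrec (fun y : ℕ × (((ℕ × Str) × Str) × Str) =>
        ((y.2.1.1, (y.2.1.2.take y.1, y.2.2, y.2.1.2.length)) : (ℕ × Str) × Str × Str × ℕ)) :=
      Primrec.pair b1 (Primrec.pair (Primrec.list_take.comp Primrec.fst b2)
        (Primrec.pair (Primrec.snd.comp Primrec.snd) (Primrec.list_length.comp b2)))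
    exact Primrec.eq.comp (seen_primrec.comp b3) (Primrec.const true)
  have h3 : PrimrecPred (fun x : ((ℕ × Str) × Str) × Str =>
      ∃ m ∈ List.range (x.1.2.length + 1),
        seen x.1.1.1 x.1.1.2 (x.1.2.take m) x.2 x.1.2.length = true) :=
    h.exists_mem_list.comp (Primrec.list_range.comp (Primrec.succ.comp
      (Primrec.list_length.comp (Primrec.snd.comp Primrec.fst)))) Primrec.id
  classical
  refine (h3.decide).of_eq fun x => ?_
  unfold seenAny
  rw [Bool.eq_iff_iff]
  simp only [decide_eq_true_eq, List.any_eq_true]

lemma cand_primrec : Primrec₂ (fun (x : ℕ × Str) (σ : Str) => cand x.1 x.2 σ) := by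
  unfold cand
  have hlen : Primrec (fun z : ((ℕ × Str) × Str) => List.range (z.2.length + 1)) :=
    Primrec.list_range.comp (Primrec.succ.comp (Primrec.list_length.comp Primrec.snd))
  have h1 : Primrec₂ (fun (z : ((ℕ × Str) × Str) × ℕ) (s : Str) =>
      if seenAny z.1.1.1 z.1.1.2 z.1.2 s = true then some s else none) := by
    refine Primrec.ite (Primrec.eq.comp ?_ (Primrec.const true))
      (Primrec.option_some.comp Primrec.snd) (Primrec.const none)
    exact seenAny_primrec.comp (Primrec.pair (Primrec.fst.comp Primrec.fst) Primrec.snd)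
  have h2 : Primrec₂ (fun (z : (ℕ × Str) × Str) (i : ℕ) =>
      (Encodable.decode (α := Str) i).bind (fun s =>
        if seenAny z.1.1 z.1.2 z.2 s = true then some s else none)) :=
    Primrec.option_bind (Primrec.decode.comp Primrec.snd) h1
  exact Primrec.listFilterMap hlen h2

lemma firstOut_primrec : Primrec₂ (fun (x : (ℕ × Str) × Str) (t : ℕ) =>
    firstOut x.1.1 x.1.2 x.2 t) := by
  have h : Primrec₂ (fun (x : (ℕ × Str) × Str) (z : ℕ × Option Str) =>
      (Option.casesOn z.2 ((cand x.1.1 x.1.2 (x.2.take z.1)).head?) (fun s => some s) :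
        Option Str)) := by
    refine Primrec.option_casesOn (Primrec.snd.comp Primrec.snd) ?_
      (Primrec.option_some.comp Primrec.snd)
    refine Primrec.list_head?.comp (cand_primrec.comp (Primrec.fst.comp Primrec.fst) ?_)
    exact Primrec.list_take.comp (Primrec.fst.comp Primrec.snd) (Primrec.snd.comp Primrec.fst)
  refine Primrec₂.of_eq (Primrec.nat_rec (f := fun _ : (ℕ × Str) × Str => (none : Option Str))
    (Primrec.const none) h) ?_
  intro x t
  induction t with
  | zero => rfl
  | succ t ih => simp only [firstOut]; rw [← ih]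

lemma firstOut_mono {e : ℕ} {w σ : Str} {t t' : ℕ} (h : t ≤ t') {s : Str}
    (hs : firstOut e w σ t = some s) : firstOut e w σ t' = some s := by
  induction t', h using Nat.le_induction with
  | base => exact hs
  | succ t' _ ih => simp only [firstOut]; rw [ih]

lemma firstOut_congr {e : ℕ} {w σ τ : Str} {N : ℕ} (h : ∀ t < N, σ.take t = τ.take t) :
    firstOut e w σ N = firstOut e w τ N := by
  induction N with
  | zero => rfl
  | succ N ih =>
    simp only [firstOut]
    rw [ih (fun t ht => h t (by omega)), h N (by omega)]

/-- a universal oracle machine -/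
def UO : OracleMachine where
  Gives σ p s := firstOut (dec p).1 (dec p).2 σ (σ.length + 1) = some s
  ce := by
    refine ComputablePred.to_re (ComputablePred.computable_iff.2
      ⟨fun q => decide (firstOut (dec q.2.1).1 (dec q.2.1).2 q.1 (q.1.length + 1) = some q.2.2),
        ?_, by funext q; simp⟩)
    refine Primrec.to_comp ?_
    have h : PrimrecPred (fun q : Str × Str × Str =>
        firstOut (dec q.2.1).1 (dec q.2.1).2 q.1 (q.1.length + 1) = some q.2.2) := by
      refine Primrec.eq.comp (firstOut_primrec.comp (Primrec.pair ?_ Primrec.fst)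
        (Primrec.succ.comp (Primrec.list_length.comp Primrec.fst)))
        (Primrec.option_some.comp (Primrec.snd.comp Primrec.snd))
      exact dec_primrec.comp (Primrec.fst.comp Primrec.snd)
    exact h.decide
  consistent := by
    rintro σ τ p s s' ⟨ρ, rfl⟩ h1 h2
    have h3 : firstOut (dec p).1 (dec p).2 (σ ++ ρ) (σ.length + 1) = some s := by
      rw [← h1]
      refine (firstOut_congr fun t ht => ?_).symm
      rw [List.take_append_of_le_length (by omega)]
    have h4 := firstOut_mono (show σ.length + 1 ≤ (σ ++ ρ).length + 1 by simp) h3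
    rw [h4] at h2
    simpa using h2

theorem exists_optimal_oracleMachine : ∃ M : OracleMachine, M.IsOptimal := by
  refine ⟨UO, fun M' => ?_⟩
  obtain ⟨c, hc⟩ := Code.exists_code.1 (show Nat.Partrec _ from M'.ce)
  have hcode : ∀ σ w s, M'.Gives σ w s ↔
      ∃ t, Code.evaln t c (Encodable.encode (σ, w, s)) ≠ none := by
    intro σ w s
    have h1 : M'.Gives σ w s ↔ ∃ x, x ∈ c.eval (Encodable.encode (σ, w, s)) := by
      rw [hc]
      simp [Part.assert]
    rw [h1]
    constructor
    · rintro ⟨x, hx⟩
      obtain ⟨k, hk⟩ := Code.evaln_complete.1 hx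
      exact ⟨k, by rw [hk]; simp⟩
    · rintro ⟨t, ht⟩
      obtain ⟨x, hx⟩ := Option.ne_none_iff_exists'.1 ht
      exact ⟨x, Code.evaln_sound hx⟩
  obtain ⟨h, -, hdec⟩ := exists_header (Encodable.encode c)
  refine ⟨h.length, fun X s => ?_⟩
  -- the candidates are outputs of `M'`
  have hcand : ∀ w t s', s' ∈ cand (Encodable.encode c) w (initSeg X t) →
      M'.Outputs X w s' := by
    intro w t s' hs'
    unfold cand at hs'
    simp only [List.mem_filterMap, List.mem_range, Option.bind_eq_some_iff] at hs'
    obtain ⟨i, hi, s'', hs'', hif⟩ := hs'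
    split_ifs at hif with hnil
    simp only [Option.some.injEq] at hif
    subst hif
    simp only [seenAny, List.any_eq_true, List.mem_range, seen,
      Denumerable.ofNat_encode, initSeg_take] at hnil
    obtain ⟨m, -, hm⟩ := hnil
    refine ⟨min m t, (hcode _ _ _).2 ⟨(initSeg X t).length, ?_⟩⟩
    intro hnone
    rw [hnone] at hm
    simp at hm
  have hout : ∀ w s', M'.Outputs X w s' → UO.Outputs X (h ++ w) s' := by
    rintro w s' ⟨m, hm⟩
    obtain ⟨t0, ht0⟩ := (hcode _ _ _).1 hm
    set t := m + t0 + Encodable.encode s' with ht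
    refine ⟨t + 1, ?_⟩
    show firstOut (dec (h ++ w)).1 (dec (h ++ w)).2 (initSeg X (t + 1))
      ((initSeg X (t + 1)).length + 1) = some s'
    rw [hdec, initSeg_length]
    -- at time `t` there is a candidate
    have hne : cand (Encodable.encode c) w (initSeg X t) ≠ [] := by
      apply List.ne_nil_of_mem (a := s')
      unfold cand
      simp only [List.mem_filterMap, List.mem_range, Option.bind_eq_some_iff, initSeg_length]
      refine ⟨Encodable.encode s', by omega, s', by simp, ?_⟩
      rw [if_pos]
      simp only [seenAny, List.any_eq_true, List.mem_range, seen,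
        Denumerable.ofNat_encode, initSeg_take, initSeg_length]
      refine ⟨m, by omega, ?_⟩
      rw [min_eq_left (by omega)]
      obtain ⟨x, hx⟩ := Option.ne_none_iff_exists'.1 ht0
      have := Code.evaln_mono (show t0 ≤ t by omega) hx
      rw [Option.mem_def] at this
      rw [this]
      rfl
    have key : ∀ N ≤ t + 2, ∀ s'', firstOut (Encodable.encode c) w (initSeg X (t + 1)) N =
        some s'' → s'' = s' := by
      intro N hN
      induction N with
      | zero => intro s'' h0; simp [firstOut] at h0
      | succ N ih =>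
        intro s'' hs''
        simp only [firstOut] at hs''
        cases hf : firstOut (Encodable.encode c) w (initSeg X (t + 1)) N with
        | some s3 =>
          rw [hf] at hs''
          simp only [Option.some.injEq] at hs''
          rw [← hs'']
          exact ih (by omega) s3 hf
        | none =>
          rw [hf] at hs''
          simp only at hs''
          rw [initSeg_take] at hs''
          exact outputs_unique (hcand _ _ _ (List.mem_of_head? hs'')) ⟨m, hm⟩
    have hsome : ∃ s'', firstOut (Encodable.encode c) w (initSeg X (t + 1)) (t + 1) =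
        some s'' := by
      simp only [firstOut]
      cases hf : firstOut (Encodable.encode c) w (initSeg X (t + 1)) t with
      | some s3 => exact ⟨s3, rfl⟩
      | none =>
        simp only
        rw [initSeg_take, min_eq_left (by omega)]
        obtain ⟨a, ha⟩ := List.exists_mem_of_ne_nil _ hne
        cases hh : (cand (Encodable.encode c) w (initSeg X t)).head? with
        | none => rw [List.head?_eq_none_iff] at hh; exact absurd hh hne
        | some b => exact ⟨b, rfl⟩
    obtain ⟨s'', hs''⟩ := hsome
    have e := key _ (by omega) _ hs''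
    subst e
    exact firstOut_mono (by omega) hs''
  cases hk : oracleC M' X s with
  | top => simp
  | coe k =>
    obtain ⟨p, hp, hpk⟩ := oracleC_le_iff.1 (le_of_eq hk)
    have h1 : oracleC UO X s ≤ ((k + h.length : ℕ) : ℕ∞) :=
      oracleC_le_iff.2 ⟨h ++ p, hout _ _ hp, by rw [List.length_append]; omega⟩
    refine h1.trans (le_of_eq ?_)
    push_cast
    rfl

end Pool.Agent.MP_d04dff_lc
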