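import Mathlib

/-!
# Definitions: the Shafarevich dimension of dynamical systems on projective space

The Shafarevich dimension `σ_d^N` (Silverman 2017), for all `N ≥ 1` and `d ≥ 2`, following the
problem file MP_d071c2_nt.
-/

open MvPolynomial IsDedekindDomain NumberField

namespace Pool.Agent.Results.MP_d071c2_nt.ShafDim

noncomputable section

/-- An `(N+1)`-tuple of polynomials in `N+1` variables with coefficients in `A`. -/
abbrev Tuple (N : ℕ) (A : Type*) [CommRing A] : Type _ :=
  Fin (N + 1) → MvPolynomial (Fin (N + 1)) A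

/-- `f = [f_0, …, f_N]` is a degree `d` morphism `P^N → P^N` over the field `k`: every `f_i` is
homogeneous of degree `d`, and the `f_i` have no common zero (besides the origin) over an
algebraic closure of `k`. -/
def IsMorphism (N d : ℕ) {k : Type*} [Field k] (f : Tuple N k) : Prop :=
  (∀ i, (f i).IsHomogeneous d) ∧
    ∀ x : Fin (N + 1) → AlgebraicClosure k, (∀ i, aeval x (f i) = 0) → x = 0

/-- The conjugate `f^φ = φ⁻¹ ∘ f ∘ φ` of a tuple `f` by the invertible matrix `φ`. -/
def conj {N : ℕ} {k : Type*} [Field k] (φ : GL (Fin (N + 1)) k) (f : Tuple N k) : Tuple N k :=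
  fun i => ∑ j, C ((↑(φ⁻¹) : Matrix (Fin (N + 1)) (Fin (N + 1)) k) i j) *
    bind₁ (fun l => ∑ m, C ((φ : Matrix (Fin (N + 1)) (Fin (N + 1)) k) l m) * X m) (f j)

/-- The space `End_d^N(Ω)` of degree `d` morphisms `P^N → P^N`, each given by a tuple of forms
(scalar multiples are identified later, in `Equivalent`). -/
@[ext]
structure EndSpace (N d : ℕ) (Ω : Type*) [Field Ω] where
  /-- the tuple of forms -/
  val : Tuple N Ω
  /-- it is a morphism of degree `d` -/
  isMorphism : IsMorphism N d val

/-- Two tuples define the same point of `End_d^N / PGL_{N+1}` when one is a nonzero scalar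
multiple of a conjugate of the other. -/
def Equivalent {N : ℕ} {k : Type*} [Field k] (f g : Tuple N k) : Prop :=
  ∃ (φ : GL (Fin (N + 1)) k) (c : kˣ), g = fun i => C (c : k) * conj φ f i

/-- Zariski topology on `End_d^N(Ω)`: the closed sets are the sets of common zeros of families of
polynomials in the coefficients. The variable `(i, m)` stands for the coefficient of the monomial
`X^m` in `f_i`. -/
def IsZariskiClosed {N d : ℕ} {Ω : Type*} [Field Ω] (Z : Set (EndSpace N d Ω)) : Prop :=
  ∃ I : Set (MvPolynomial (Fin (N + 1) × (Fin (N + 1) →₀ ℕ)) Ω),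
    Z = {f | ∀ P ∈ I, eval (fun im => coeff im.2 (f.val im.1)) P = 0}

instance (N d : ℕ) (Ω : Type*) [Field Ω] : TopologicalSpace (EndSpace N d Ω) :=
  TopologicalSpace.ofClosed {Z | IsZariskiClosed Z}
    ⟨{1}, by ext f; simp⟩
    (by
      intro A hA
      have hA' : ∀ Z ∈ A, IsZariskiClosed Z := fun Z hZ => hA hZ
      choose! I hI using hA'
      refine ⟨{P | ∃ Z ∈ A, P ∈ I Z}, ?_⟩
      ext f
      constructor
      · rintro h P ⟨Z, hZ, hP⟩
        have := h Z hZ
        rw [hI Z hZ] at this
        exact this P hP
      · intro h Z hZ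
        rw [hI Z hZ]
        exact fun P hP => h P ⟨Z, hZ, hP⟩)
    (by
      rintro A ⟨I, rfl⟩ B ⟨J, rfl⟩
      refine ⟨{P | ∃ Q ∈ I, ∃ R ∈ J, P = Q * R}, ?_⟩
      ext f
      constructor
      · rintro (h | h) P ⟨Q, hQ, R, hR, rfl⟩
        · simp [h Q hQ]
        · simp [h R hR]
      · intro h
        by_contra hcon
        rw [Set.mem_union, not_or] at hcon
        obtain ⟨h1, h2⟩ := hcon
        simp only [Set.mem_ofPred_eq, not_forall] at h1 h2
        obtain ⟨Q, hQ, hQ'⟩ := h1
        obtain ⟨R, hR, hR'⟩ := h2
        have := h (Q * R) ⟨Q, hQ, R, hR, rfl⟩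
        rw [map_mul] at this
        exact (mul_ne_zero hQ' hR') this)

/-- The points of the moduli space `M_d^N = End_d^N / PGL_{N+1}` over the (algebraically closed)
field `Ω`: the orbits, with the quotient of the Zariski topology. -/
def Moduli (N d : ℕ) (Ω : Type*) [Field Ω] : Type _ :=
  Quot (fun f g : EndSpace N d Ω => Equivalent f.val g.val)

instance (N d : ℕ) (Ω : Type*) [Field Ω] : TopologicalSpace (Moduli N d Ω) :=
  inferInstanceAs (TopologicalSpace (Quot _))

/-- The local ring at the prime `𝔭` of the number field `K`, as a subring of `K`. -/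
abbrev localRing {K : Type*} [Field K] [NumberField K] (p : HeightOneSpectrum (𝓞 K)) :
    ValuationSubring K :=
  (p.valuation K).valuationSubring

/-- `f` has naive good reduction at `𝔭`: a scalar multiple of `f` has all its coefficients in the
local ring at `𝔭`, at least one of them a unit there, and its reduction modulo `𝔭` is still a
degree `d` morphism. -/
def HasNaiveGoodReduction (N d : ℕ) {K : Type*} [Field K] [NumberField K]
    (p : HeightOneSpectrum (𝓞 K)) (f : Tuple N K) : Prop :=
  ∃ (c : Kˣ) (g : Tuple N (localRing p)),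
    (∀ i, map (algebraMap (localRing p) K) (g i) = C (c : K) * f i) ∧
    (∃ i m, IsUnit (coeff m (g i))) ∧
    IsMorphism N d (fun i => map (IsLocalRing.residue (localRing p)) (g i))

/-- `f` has good reduction at `𝔭`: some conjugate of `f` over `K` has naive good reduction. -/
def HasGoodReduction (N d : ℕ) {K : Type*} [Field K] [NumberField K]
    (p : HeightOneSpectrum (𝓞 K)) (f : Tuple N K) : Prop :=
  ∃ φ : GL (Fin (N + 1)) K, HasNaiveGoodReduction N d p (conj φ f)

/-- The classes in `M_d^N(K̄)` of the degree `d` morphisms defined over `K` which have good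
reduction at all primes outside `S`. -/
def goodSet (N d : ℕ) (K : Type*) [Field K] [NumberField K]
    (S : Set (HeightOneSpectrum (𝓞 K))) : Set (Moduli N d (AlgebraicClosure K)) :=
  {m | ∃ f : Tuple N K, IsMorphism N d f ∧ (∀ p, p ∉ S → HasGoodReduction N d p f) ∧
    ∃ h : IsMorphism N d (fun i => map (algebraMap K (AlgebraicClosure K)) (f i)),
      m = Quot.mk _ ⟨_, h⟩}

/-- The Shafarevich dimension `σ_d^N`: supremum over number fields `K` and finite sets `S` of
primes of `K` of the dimension of the Zariski closure in `M_d^N` of the set of classes of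
morphisms over `K` with good reduction outside `S`. -/
def shafarevichDim (N d : ℕ) : WithBot ℕ∞ :=
  ⨆ (K : Type) (_ : Field K) (_ : NumberField K) (S : Set (HeightOneSpectrum (𝓞 K)))
    (_ : S.Finite), topologicalKrullDim (closure (goodSet N d K S))

end

end Pool.Agent.Results.MP_d071c2_nt.ShafDim
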