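import Pool.Agent.MP_d071c2_nt_Defs

/-!
# Proof that the Shafarevich dimension of the projective line is `2 d - 2`

Idea of the lower bound. Let `K = ℚ` and `S = {2}`. The maps given by finite continued fractions
`f = a_1 + 1 / (a_2 + 1 / (⋯ + 1 / a_d))` whose partial quotients `a_i = 2 ^ (m_i) z + b_i` have
integral coefficients and a power of two as leading coefficient have naive good reduction at every
odd prime (the two polynomials of the fraction stay coprime modulo `p`, and the degree does not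
drop). By Euclidean division the set of these maps is Zariski dense in the space of all maps of
degree `d` fixing infinity, and every map is conjugate to one fixing infinity. So the classes with
good reduction outside `{2}` are Zariski dense in `M_d^1`. The dimension of `M_d^1` (in the sense
of chains of irreducible closed subsets) is computed in both directions.
-/

open MvPolynomial IsDedekindDomain NumberField TopologicalSpace

namespace Pool.Agent.Results.MP_d071c2_nt.ShafDim

noncomputable section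

/-! ## Composition with linear maps -/

section

variable {N : ℕ} {A B : Type*} [CommRing A] [CommRing B]

/-- The linear substitution given by a matrix. -/
def lin (φ : Matrix (Fin (N+1)) (Fin (N+1)) A) (l : Fin (N+1)) : MvPolynomial (Fin (N+1)) A :=
  ∑ m, C (φ l m) * X m

/-- `ψ ∘ f ∘ φ`. -/
def comp (ψ : Matrix (Fin (N+1)) (Fin (N+1)) A) (f : Tuple N A)
    (φ : Matrix (Fin (N+1)) (Fin (N+1)) A) : Tuple N A :=
  fun i => ∑ j, C (ψ i j) * bind₁ (lin φ) (f j)

lemma conj_eq_comp {k : Type*} [Field k] (φ : GL (Fin (N+1)) k) (f : Tuple N k) :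
    conj φ f = comp (↑φ⁻¹ : Matrix (Fin (N+1)) (Fin (N+1)) k) f
      (φ : Matrix (Fin (N+1)) (Fin (N+1)) k) := rfl

/-- Map coefficients of a tuple. -/
def mapT (g : A →+* B) (f : Tuple N A) : Tuple N B := fun i => map g (f i)

lemma map_lin (g : A →+* B) (φ : Matrix (Fin (N+1)) (Fin (N+1)) A) (l : Fin (N+1)) :
    map g (lin φ l) = lin (φ.map g) l := by
  simp [lin, map_sum, map_mul]

lemma mapT_comp (g : A →+* B) (ψ : Matrix (Fin (N+1)) (Fin (N+1)) A) (f : Tuple N A)
    (φ : Matrix (Fin (N+1)) (Fin (N+1)) A) :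
    mapT g (comp ψ f φ) = comp (ψ.map g) (mapT g f) (φ.map g) := by
  funext i
  simp only [mapT, comp, map_sum, map_mul, map_C, map_bind₁, map_lin, Matrix.map_apply]

lemma bind_lin_lin (φ φ' : Matrix (Fin (N+1)) (Fin (N+1)) A) (p : MvPolynomial (Fin (N+1)) A) :
    bind₁ (lin φ') (bind₁ (lin φ) p) = bind₁ (lin (φ * φ')) p := by
  rw [bind₁_bind₁]
  congr 2
  funext l
  simp only [lin, map_sum, map_mul, bind₁_C_right, bind₁_X_right, Matrix.mul_apply,
    Finset.mul_sum, Finset.sum_mul]
  rw [Finset.sum_comm]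
  refine Finset.sum_congr rfl fun m _ => Finset.sum_congr rfl fun n _ => ?_
  ring

lemma comp_comp (ψ' ψ : Matrix (Fin (N+1)) (Fin (N+1)) A) (f : Tuple N A)
    (φ φ' : Matrix (Fin (N+1)) (Fin (N+1)) A) :
    comp ψ' (comp ψ f φ) φ' = comp (ψ' * ψ) f (φ * φ') := by
  funext i
  simp only [comp, map_sum, map_mul, bind₁_C_right, bind_lin_lin, Matrix.mul_apply,
    Finset.mul_sum, Finset.sum_mul]
  rw [Finset.sum_comm]
  refine Finset.sum_congr rfl fun m _ => Finset.sum_congr rfl fun n _ => ?_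
  ring

lemma lin_one : lin (1 : Matrix (Fin (N+1)) (Fin (N+1)) A) = X := by
  funext l
  simp [lin, Matrix.one_apply]

@[simp] lemma comp_one_one (f : Tuple N A) : comp 1 f 1 = f := by
  funext i
  simp [comp, Matrix.one_apply, lin_one]

lemma comp_smul_left (c : A) (ψ : Matrix (Fin (N+1)) (Fin (N+1)) A) (f : Tuple N A)
    (φ : Matrix (Fin (N+1)) (Fin (N+1)) A) :
    comp (c • ψ) f φ = fun i => C c * comp ψ f φ i := by
  funext i
  simp only [comp, Matrix.smul_apply, smul_eq_mul, C_mul, Finset.mul_sum]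
  exact Finset.sum_congr rfl fun j _ => by ring

lemma comp_C_mul (c : A) (ψ : Matrix (Fin (N+1)) (Fin (N+1)) A) (f : Tuple N A)
    (φ : Matrix (Fin (N+1)) (Fin (N+1)) A) :
    comp ψ (fun i => C c * f i) φ = fun i => C c * comp ψ f φ i := by
  funext i
  simp only [comp, map_mul, bind₁_C_right, Finset.mul_sum]
  exact Finset.sum_congr rfl fun j _ => by ring

lemma lin_isHomogeneous (φ : Matrix (Fin (N+1)) (Fin (N+1)) A) (l : Fin (N+1)) :
    (lin φ l).IsHomogeneous 1 := by
  refine IsHomogeneous.sum _ _ _ fun m _ => ?_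
  simpa using (isHomogeneous_C (Fin (N+1)) (φ l m)).mul (isHomogeneous_X A m)

lemma bind_lin_smul {d : ℕ} {p : MvPolynomial (Fin (N+1)) A} (hp : p.IsHomogeneous d) (c : A)
    (φ : Matrix (Fin (N+1)) (Fin (N+1)) A) :
    bind₁ (lin (c • φ)) p = C (c ^ d) * bind₁ (lin φ) p := by
  have h1 : lin (c • φ) = fun l => C c * lin φ l := by
    funext l
    simp only [lin, Matrix.smul_apply, smul_eq_mul, C_mul, Finset.mul_sum]
    exact Finset.sum_congr rfl fun j _ => by ring
  rw [h1]
  conv_lhs => rw [p.as_sum]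
  conv_rhs => rw [p.as_sum]
  simp only [map_sum, Finset.mul_sum]
  refine Finset.sum_congr rfl fun m hm => ?_
  have hdeg : ∑ i ∈ m.support, m i = d := by
    have := hp (mem_support_iff.mp hm)
    simpa [Finsupp.weight_apply, Finsupp.sum] using this
  simp only [bind₁_monomial, mul_pow, Finset.prod_mul_distrib, Finset.prod_pow_eq_pow_sum]
  rw [hdeg, C_pow]
  ring

lemma comp_smul_right {d : ℕ} {f : Tuple N A} (hf : ∀ i, (f i).IsHomogeneous d) (c : A)
    (ψ φ : Matrix (Fin (N+1)) (Fin (N+1)) A) :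
    comp ψ f (c • φ) = fun i => C (c ^ d) * comp ψ f φ i := by
  funext i
  simp only [comp, bind_lin_smul (hf _), Finset.mul_sum]
  exact Finset.sum_congr rfl fun j _ => by ring

lemma comp_isHomogeneous {d : ℕ} {f : Tuple N A} (hf : ∀ i, (f i).IsHomogeneous d)
    (ψ φ : Matrix (Fin (N+1)) (Fin (N+1)) A) (i : Fin (N+1)) :
    (comp ψ f φ i).IsHomogeneous d := by
  refine IsHomogeneous.sum _ _ _ fun j _ => ?_
  have h2 : (bind₁ (lin φ) (f j)).IsHomogeneous (1 * d) :=
    (hf j).eval₂ (C : A →+* MvPolynomial (Fin (N+1)) A) (lin φ)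
      (fun _ => isHomogeneous_C _ _) (lin_isHomogeneous φ)
  simpa using (isHomogeneous_C (Fin (N+1)) (ψ i j)).mul h2

lemma aeval_lin {S : Type*} [CommRing S] [Algebra A S]
    (φ : Matrix (Fin (N+1)) (Fin (N+1)) A) (x : Fin (N+1) → S) (l : Fin (N+1)) :
    aeval x (lin φ l) = ((φ.map (algebraMap A S)).mulVec x) l := by
  simp [lin, Matrix.mulVec, dotProduct, map_sum, map_mul]

lemma aeval_comp {S : Type*} [CommRing S] [Algebra A S]
    (ψ : Matrix (Fin (N+1)) (Fin (N+1)) A) (f : Tuple N A)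
    (φ : Matrix (Fin (N+1)) (Fin (N+1)) A) (x : Fin (N+1) → S) (i : Fin (N+1)) :
    aeval x (comp ψ f φ i) =
      ((ψ.map (algebraMap A S)).mulVec
        (fun j => aeval ((φ.map (algebraMap A S)).mulVec x) (f j))) i := by
  simp only [comp, map_sum, map_mul, aeval_C, Matrix.mulVec, dotProduct, Matrix.map_apply]
  refine Finset.sum_congr rfl fun j _ => ?_
  congr 1
  rw [aeval_bind₁]
  congr 2
  funext l
  rw [aeval_lin]

lemma eval_comp (ψ : Matrix (Fin (N+1)) (Fin (N+1)) A) (f : Tuple N A)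
    (φ : Matrix (Fin (N+1)) (Fin (N+1)) A) (x : Fin (N+1) → A) (i : Fin (N+1)) :
    eval x (comp ψ f φ i) = (ψ.mulVec (fun j => eval (φ.mulVec x) (f j))) i := by
  have := aeval_comp (S := A) ψ f φ x i
  simpa [aeval_eq_eval] using this

/-- conjugating by invertible matrices and rescaling preserves morphisms -/
lemma IsMorphism.comp {k : Type*} [Field k] {d : ℕ} {f : Tuple N k} (hf : IsMorphism N d f)
    (ψ φ : Matrix (Fin (N+1)) (Fin (N+1)) k) (hψ : ψ.det ≠ 0) (hφ : φ.det ≠ 0) :
    IsMorphism N d (comp ψ f φ) := by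
  refine ⟨comp_isHomogeneous hf.1 ψ φ, fun x hx => ?_⟩
  have h1 : (ψ.map (algebraMap k (AlgebraicClosure k))).mulVec
        (fun j => aeval ((φ.map (algebraMap k (AlgebraicClosure k))).mulVec x) (f j)) = 0 := by
    funext i
    rw [← aeval_comp]
    exact hx i
  have hdet : ∀ χ : Matrix (Fin (N+1)) (Fin (N+1)) k, χ.det ≠ 0 →
      (χ.map (algebraMap k (AlgebraicClosure k))).det ≠ 0 := by
    intro χ hχ
    have h := RingHom.map_det (algebraMap k (AlgebraicClosure k)) χ
    rw [RingHom.mapMatrix_apply] at h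
    rw [← h]
    simpa using hχ
  have h2 := Matrix.eq_zero_of_mulVec_eq_zero (hdet ψ hψ) h1
  have h3 := hf.2 _ (fun i => congrFun h2 i)
  exact Matrix.eq_zero_of_mulVec_eq_zero (hdet φ hφ) h3

lemma IsMorphism.C_mul {k : Type*} [Field k] {d : ℕ} {f : Tuple N k} (hf : IsMorphism N d f)
    {c : k} (hc : c ≠ 0) : IsMorphism N d (fun i => C c * f i) := by
  have := hf.comp (c • (1 : Matrix (Fin (N+1)) (Fin (N+1)) k)) 1 (by simp [hc]) (by simp)
  rwa [comp_smul_left, comp_one_one] at this

lemma GL_det_ne_zero {k : Type*} [Field k] (φ : GL (Fin (N+1)) k) :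
    (φ : Matrix (Fin (N+1)) (Fin (N+1)) k).det ≠ 0 := by
  have := φ.isUnit
  rw [Matrix.isUnit_iff_isUnit_det] at this
  exact this.ne_zero

lemma IsMorphism.conj {k : Type*} [Field k] {d : ℕ} {f : Tuple N k} (hf : IsMorphism N d f)
    (φ : GL (Fin (N+1)) k) : IsMorphism N d (conj φ f) :=
  hf.comp _ _ (GL_det_ne_zero φ⁻¹) (GL_det_ne_zero φ)

lemma conj_conj {k : Type*} [Field k] (φ ψ : GL (Fin (N+1)) k) (f : Tuple N k) :
    conj ψ (conj φ f) = conj (φ * ψ) f := by
  simp only [conj_eq_comp, comp_comp, mul_inv_rev, Units.val_mul]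

lemma conj_one {k : Type*} [Field k] (f : Tuple N k) : conj 1 f = f := by
  simp [conj_eq_comp]

lemma conj_C_mul {k : Type*} [Field k] (c : k) (φ : GL (Fin (N+1)) k) (f : Tuple N k) :
    conj φ (fun i => C c * f i) = fun i => C c * conj φ f i := by
  simp only [conj_eq_comp, comp_C_mul]

lemma Equivalent.refl {k : Type*} [Field k] (f : Tuple N k) : Equivalent f f :=
  ⟨1, 1, by simp [conj_one]⟩

lemma Equivalent.symm {k : Type*} [Field k] {f g : Tuple N k} (h : Equivalent f g) :
    Equivalent g f := by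
  obtain ⟨φ, c, rfl⟩ := h
  refine ⟨φ⁻¹, c⁻¹, ?_⟩
  funext i
  rw [conj_C_mul, conj_conj]
  simp [conj_one, ← mul_assoc, ← C_mul]

lemma Equivalent.trans {k : Type*} [Field k] {f g h : Tuple N k} (h1 : Equivalent f g)
    (h2 : Equivalent g h) : Equivalent f h := by
  obtain ⟨φ, c, rfl⟩ := h1
  obtain ⟨ψ, e, rfl⟩ := h2
  refine ⟨φ * ψ, e * c, ?_⟩
  funext i
  rw [conj_C_mul, conj_conj]
  simp [← mul_assoc, C_mul]

end

/-! ## Coordinates on maps of the projective line -/

section

/-- the tuple of binary forms of degree `d` with given dehomogenisations -/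
def T {A : Type*} [CommRing A] (d : ℕ) (p : Fin 2 → Polynomial A) : Tuple 1 A :=
  fun i => (p i).homogenize d

/-- dehomogenisation -/
def dh {A : Type*} [CommRing A] (f : Tuple 1 A) : Fin 2 → Polynomial A :=
  fun i => aeval ![Polynomial.X, 1] (f i)

section
variable {A B : Type*} [CommRing A] [CommRing B]

lemma T_isHomogeneous (d : ℕ) (p : Fin 2 → Polynomial A) (i : Fin 2) :
    (T d p i).IsHomogeneous d := Polynomial.isHomogeneous_homogenize _

lemma T_dh {d : ℕ} {f : Tuple 1 A} (hf : ∀ i, (f i).IsHomogeneous d) : T d (dh f) = f := by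
  funext i
  exact Polynomial.homogenize_eq_of_isHomogeneous (hf i) rfl

lemma dh_natDegree_le {d : ℕ} {f : Tuple 1 A} (hf : ∀ i, (f i).IsHomogeneous d) (i : Fin 2) :
    (dh f i).natDegree ≤ d := by
  have h1 : dh f i = ∑ m ∈ (f i).support, aeval ![Polynomial.X, 1] (monomial m (coeff m (f i))) := by
    conv_lhs => rw [dh, (f i).as_sum, map_sum]
  rw [h1]
  refine Polynomial.natDegree_sum_le_of_forall_le _ _ fun m hm => ?_
  have hdeg : m 0 + m 1 = d := by
    have := hf i (mem_support_iff.mp hm)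
    simpa [Finsupp.weight_apply, Finsupp.sum_fintype, Fin.sum_univ_two] using this
  rw [aeval_monomial]
  simp only [Finsupp.prod_fintype _ _ (fun i => pow_zero _), Fin.prod_univ_two,
    Matrix.cons_val_zero, Matrix.cons_val_one, one_pow, mul_one, ← Polynomial.C_eq_algebraMap]
  exact (Polynomial.natDegree_C_mul_X_pow_le _ _).trans (by omega)

lemma dh_T {d : ℕ} {p : Fin 2 → Polynomial A} (hp : ∀ i, (p i).natDegree ≤ d) :
    dh (T d p) = p := by
  funext i
  exact Polynomial.aeval_homogenize_X_one _ (hp i)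

lemma mapT_T (g : A →+* B) (d : ℕ) (p : Fin 2 → Polynomial A) :
    mapT (N := 1) g (T d p) = T d (fun i => (p i).map g) := by
  funext i
  simp only [mapT, T, Polynomial.homogenize_map]

lemma coeff_T (d : ℕ) (p : Fin 2 → Polynomial A) (i : Fin 2) (m : Fin 2 →₀ ℕ) :
    coeff m (T d p i) = if m 0 + m 1 = d then (p i).coeff (m 0) else 0 :=
  Polynomial.coeff_homogenize _ _ _

lemma eval_T_of_eq_zero {d : ℕ} (p : Fin 2 → Polynomial A) (i : Fin 2) (x : Fin 2 → A)
    (hx : x 1 = 0) : eval x (T d p i) = (p i).coeff d * x 0 ^ d := by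
  simp only [T, Polynomial.homogenize, eval_sum]
  rw [Finset.sum_eq_single (d, 0)]
  · rw [eval_monomial, Finsupp.prod_fintype _ _ (fun i => pow_zero _)]
    simp
  · rintro ⟨a, b⟩ hab hne
    have hb : b ≠ 0 := by
      rintro rfl
      apply hne
      simpa using hab
    rw [eval_monomial, Finsupp.prod_fintype _ _ (fun i => pow_zero _)]
    simp [hx, hb]
  · simp

end

lemma eval_T_of_ne_zero {k : Type*} [Field k] {d : ℕ} {p : Fin 2 → Polynomial k}
    (hp : ∀ i, (p i).natDegree ≤ d) (i : Fin 2) (x : Fin 2 → k)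
    (hx : x 1 ≠ 0) : eval x (T d p i) = (p i).eval (x 0 / x 1) * x 1 ^ d :=
  Polynomial.eval_homogenize (hp i) x hx

/-- the criterion for being a morphism in terms of the resultant -/
lemma isMorphism_T_iff {k : Type*} [Field k] {d : ℕ} (hd : d ≠ 0) {p : Fin 2 → Polynomial k}
    (hp : ∀ i, (p i).natDegree ≤ d) :
    IsMorphism 1 d (T d p) ↔ Polynomial.resultant (p 0) (p 1) d d ≠ 0 := by
  set K := AlgebraicClosure k with hK
  set P : Fin 2 → Polynomial K := fun i => (p i).map (algebraMap k K) with hP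
  have hPd : ∀ i, (P i).natDegree ≤ d := fun i => Polynomial.natDegree_map_le.trans (hp i)
  have hmap : ∀ (x : Fin 2 → K) (i : Fin 2), aeval x (T d p i) = eval x (T d P i) := by
    intro x i
    have h1 := congrFun (mapT_T (algebraMap k K) d p) i
    rw [← h1]
    simp [mapT, eval_map, aeval_def]
  have hres : Polynomial.resultant (P 0) (P 1) d d =
      algebraMap k K (Polynomial.resultant (p 0) (p 1) d d) :=
    Polynomial.resultant_map_map _ _ _ _ _
  have hne : Polynomial.resultant (p 0) (p 1) d d ≠ 0 ↔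
      Polynomial.resultant (P 0) (P 1) d d ≠ 0 := by
    rw [hres]
    simp
  rw [hne]
  constructor
  · intro hm hres0
    by_cases hc : (P 0).coeff d = 0 ∧ (P 1).coeff d = 0
    · have := hm.2 ![1, 0] (by
        intro i
        rw [hmap, eval_T_of_eq_zero _ _ _ (by simp)]
        fin_cases i
        · simp [hc.1]
        · simp [hc.2])
      have := congrFun this 0
      simp at this
    · have hnc : ¬ IsCoprime (P 0) (P 1) := by
        by_cases h0 : (P 0).coeff d = 0
        · have h1 : (P 1).coeff d ≠ 0 := fun h => hc ⟨h0, h⟩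
          have hdeg : (P 1).natDegree = d :=
            le_antisymm (hPd 1) (Polynomial.le_natDegree_of_ne_zero h1)
          obtain ⟨e, he⟩ := Nat.exists_eq_add_of_le (hPd 0)
          rw [Polynomial.resultant_comm] at hres0
          have h3 := Polynomial.resultant_add_right_deg (P 1) (P 0) d (P 0).natDegree e le_rfl
          rw [← he] at h3
          rw [h3] at hres0
          have h4 : Polynomial.resultant (P 1) (P 0) d (P 0).natDegree = 0 := by
            simpa [h1] using hres0
          have h5 : Polynomial.resultant (P 1) (P 0) = 0 := by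
            rw [← hdeg] at h4
            exact h4
          rw [Polynomial.resultant_eq_zero_iff] at h5
          exact fun h => h5.2 h.symm
        · have hdeg : (P 0).natDegree = d :=
            le_antisymm (hPd 0) (Polynomial.le_natDegree_of_ne_zero h0)
          obtain ⟨e, he⟩ := Nat.exists_eq_add_of_le (hPd 1)
          have h3 := Polynomial.resultant_add_right_deg (P 0) (P 1) d (P 1).natDegree e le_rfl
          rw [← he] at h3
          rw [h3] at hres0
          have h4 : Polynomial.resultant (P 0) (P 1) d (P 1).natDegree = 0 := by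
            simpa [h0] using hres0
          have h5 : Polynomial.resultant (P 0) (P 1) = 0 := by
            rw [← hdeg] at h4
            exact h4
          rw [Polynomial.resultant_eq_zero_iff] at h5
          exact h5.2
      rw [Polynomial.isCoprime_iff_aeval_ne_zero_of_isAlgClosed (k := K) K] at hnc
      push Not at hnc
      obtain ⟨z, hz0, hz1⟩ := hnc
      have := hm.2 ![z, 1] (by
        intro i
        rw [hmap, eval_T_of_ne_zero hPd _ _ (by simp)]
        fin_cases i
        · simpa using hz0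
        · simpa using hz1)
      have := congrFun this 1
      simp at this
  · intro hr
    refine ⟨T_isHomogeneous d p, fun x hx => ?_⟩
    by_cases hx1 : x 1 = 0
    · by_contra hxne
      have hx0 : x 0 ≠ 0 := by
        intro h0
        apply hxne
        funext i
        fin_cases i
        · exact h0
        · exact hx1
      have hlead : ∀ i, (P i).natDegree < d := by
        intro i
        have h1 := hx i
        rw [hmap, eval_T_of_eq_zero _ _ _ hx1] at h1
        have h2 : (P i).coeff d = 0 := by simpa [hx0] using h1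
        refine lt_of_le_of_ne (hPd i) fun h => ?_
        have h3 : (P i).leadingCoeff = 0 := by rw [Polynomial.leadingCoeff, h, h2]
        rw [Polynomial.leadingCoeff_eq_zero] at h3
        rw [h3, Polynomial.natDegree_zero] at h
        exact hd h.symm
      exact hr (Polynomial.resultant_eq_zero_of_lt_lt _ _ _ _ (hlead 0) (hlead 1))
    · exfalso
      obtain ⟨a, b, -, -, hab⟩ := Polynomial.exists_mul_add_mul_eq_C_resultant (P 0) (P 1)
        (hPd 0) (hPd 1) (Or.inl hd)
      have hroot : ∀ i, (P i).eval (x 0 / x 1) = 0 := by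
        intro i
        have h1 := hx i
        rw [hmap, eval_T_of_ne_zero hPd _ _ hx1] at h1
        simpa [hx1] using h1
      have := congrArg (Polynomial.eval (x 0 / x 1)) hab
      simp only [Polynomial.eval_add, Polynomial.eval_mul, hroot, zero_mul, add_zero,
        Polynomial.eval_C] at this
      exact hr this.symm

/-- every morphism comes from a pair of polynomials -/
lemma exists_T {k : Type*} [Field k] {d : ℕ} {f : Tuple 1 k} (hf : IsMorphism 1 d f) :
    ∃ p : Fin 2 → Polynomial k, (∀ i, (p i).natDegree ≤ d) ∧ f = T d p :=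
  ⟨dh f, dh_natDegree_le hf.1, (T_dh hf.1).symm⟩

end

/-! ## The Zariski topology in coordinates -/

section

/-- evaluation of a polynomial in the coefficients at a pair of polynomials over an algebra -/
def sub {Ω A : Type*} [CommRing Ω] [CommRing A] [Algebra Ω A] (q : Fin 2 → Polynomial A) :
    MvPolynomial (Fin 2 × ℕ) Ω →ₐ[Ω] A :=
  aeval (fun ij => (q ij.1).coeff ij.2)

lemma sub_map {Ω A B : Type*} [CommRing Ω] [CommRing A] [Algebra Ω A] [CommRing B] [Algebra Ω B]
    (g : A →ₐ[Ω] B) (q : Fin 2 → Polynomial A) (P : MvPolynomial (Fin 2 × ℕ) Ω) :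
    g (sub q P) = sub (fun i => (q i).map (g : A →+* B)) P := by
  unfold sub
  rw [← AlgHom.comp_apply, comp_aeval]
  congr 2
  funext ij
  simp

variable {d : ℕ} {Ω : Type*} [Field Ω]

/-- conversion of polynomials in all coefficients to polynomials in the relevant ones -/
def conv (d : ℕ) (Ω : Type*) [Field Ω] : MvPolynomial (Fin 2 × (Fin 2 →₀ ℕ)) Ω →ₐ[Ω]
    MvPolynomial (Fin 2 × ℕ) Ω :=
  aeval (fun im => if im.2 0 + im.2 1 = d then X (im.1, im.2 0) else 0)

lemma sub_conv (p : Fin 2 → Polynomial Ω) (P : MvPolynomial (Fin 2 × (Fin 2 →₀ ℕ)) Ω) :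
    sub p (conv d Ω P) = eval (fun im => coeff im.2 (T d p im.1)) P := by
  unfold sub conv
  rw [← AlgHom.comp_apply, comp_aeval]
  rw [← coe_aeval_eq_eval]
  simp only [RingHom.coe_coe]
  congr 2
  funext im
  rw [coeff_T]
  split_ifs with h
  · simp
  · simp

/-- conversion in the other direction -/
def vnoc (d : ℕ) (Ω : Type*) [Field Ω] : MvPolynomial (Fin 2 × ℕ) Ω →ₐ[Ω]
    MvPolynomial (Fin 2 × (Fin 2 →₀ ℕ)) Ω :=
  aeval (fun ij => if ij.2 ≤ d then
    X (ij.1, Finsupp.single 0 ij.2 + Finsupp.single 1 (d - ij.2)) else 0)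

lemma eval_vnoc (p : Fin 2 → Polynomial Ω) (hp : ∀ i, (p i).natDegree ≤ d)
    (P : MvPolynomial (Fin 2 × ℕ) Ω) :
    eval (fun im => coeff im.2 (T d p im.1)) (vnoc d Ω P) = sub p P := by
  unfold sub vnoc
  rw [← coe_aeval_eq_eval, RingHom.coe_coe, ← AlgHom.comp_apply, comp_aeval]
  congr 2
  funext ij
  split_ifs with h
  · rw [aeval_X, coeff_T, if_pos (by simp [h])]
    simp
  · rw [map_zero, Polynomial.coeff_eq_zero_of_natDegree_lt ((hp _).trans_lt (by omega))]

lemma isClosed_iff {N : ℕ} {Z : Set (EndSpace N d Ω)} : IsClosed Z ↔ IsZariskiClosed Z := by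
  rw [← isOpen_compl_iff]
  change Zᶜᶜ ∈ {Z | IsZariskiClosed Z} ↔ _
  rw [compl_compl]
  rfl

/-- the polynomials `dh f` -/
def pol (f : EndSpace 1 d Ω) : Fin 2 → Polynomial Ω := dh f.1

lemma pol_natDegree (f : EndSpace 1 d Ω) (i : Fin 2) : (pol f i).natDegree ≤ d :=
  dh_natDegree_le f.2.1 i

lemma T_pol (f : EndSpace 1 d Ω) : T d (pol f) = f.1 := T_dh f.2.1

lemma isClosed_iff' {Z : Set (EndSpace 1 d Ω)} : IsClosed Z ↔
    ∃ I : Set (MvPolynomial (Fin 2 × ℕ) Ω), Z = {f | ∀ P ∈ I, sub (pol f) P = 0} := by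
  rw [isClosed_iff]
  constructor
  · rintro ⟨I, rfl⟩
    refine ⟨conv d Ω '' I, ?_⟩
    ext f
    simp only [Set.mem_ofPred_eq, Set.forall_mem_image, sub_conv, T_pol]
  · rintro ⟨I, rfl⟩
    refine ⟨vnoc d Ω '' I, ?_⟩
    ext f
    simp only [Set.mem_ofPred_eq, Set.forall_mem_image]
    refine forall₂_congr fun P _ => ?_
    rw [← T_pol f, eval_vnoc _ (pol_natDegree f)]

lemma isClosed_locus (P : MvPolynomial (Fin 2 × ℕ) Ω) :
    IsClosed {f : EndSpace 1 d Ω | sub (pol f) P = 0} :=
  isClosed_iff'.mpr ⟨{P}, by ext f; simp⟩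

lemma mem_closure_iff' {B : Set (EndSpace 1 d Ω)} {f : EndSpace 1 d Ω} :
    f ∈ closure B ↔ ∀ P : MvPolynomial (Fin 2 × ℕ) Ω,
      (∀ b ∈ B, sub (pol b) P = 0) → sub (pol f) P = 0 := by
  constructor
  · intro hf P hP
    have : closure B ⊆ {f : EndSpace 1 d Ω | sub (pol f) P = 0} :=
      closure_minimal hP (isClosed_locus P)
    exact this hf
  · intro h
    obtain ⟨I, hI⟩ := isClosed_iff'.mp (isClosed_closure (s := B))
    rw [hI]
    intro P hP
    apply h P
    intro b hb
    have := subset_closure hb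
    rw [hI] at this
    exact this P hP

end

/-! ## The quotient map -/

section

variable {d : ℕ} {Ω : Type*} [Field Ω]

/-- the projection to the moduli space -/
def toM (f : EndSpace 1 d Ω) : Moduli 1 d Ω := Quot.mk _ f

lemma toM_surjective : Function.Surjective (toM : EndSpace 1 d Ω → Moduli 1 d Ω) :=
  Quot.mk_surjective

lemma toM_eq_iff {f g : EndSpace 1 d Ω} : toM f = toM g ↔ Equivalent f.1 g.1 := by
  constructor
  · intro h
    have h' : Relation.EqvGen (fun f g : EndSpace 1 d Ω => Equivalent f.val g.val) f g :=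
      Quot.eqvGen_exact h
    clear h
    induction h' with
    | rel x y h => exact h
    | refl x => exact Equivalent.refl _
    | symm x y _ ih => exact ih.symm
    | trans x y z _ _ ih1 ih2 => exact ih1.trans ih2
  · exact fun h => Quot.sound h

lemma toM_continuous : Continuous (toM : EndSpace 1 d Ω → Moduli 1 d Ω) :=
  continuous_quot_mk

lemma isClosed_M_iff {Z : Set (Moduli 1 d Ω)} :
    IsClosed Z ↔ IsClosed (toM ⁻¹' Z : Set (EndSpace 1 d Ω)) := by
  rw [← isOpen_compl_iff, ← isOpen_compl_iff]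
  rfl

/-- the action of a matrix and a scalar -/
def act (φ : GL (Fin 2) Ω) (c : Ωˣ) (f : EndSpace 1 d Ω) : EndSpace 1 d Ω :=
  ⟨fun i => C (c : Ω) * conj (N := 1) φ f.1 i, (f.2.conj φ).C_mul c.ne_zero⟩

lemma toM_act (φ : GL (Fin 2) Ω) (c : Ωˣ) (f : EndSpace 1 d Ω) : toM (act φ c f) = toM f :=
  (toM_eq_iff.mpr ⟨φ, c, rfl⟩).symm

lemma toM_eq_iff_act {f g : EndSpace 1 d Ω} : toM f = toM g ↔ ∃ φ c, g = act φ c f := by
  rw [toM_eq_iff]
  constructor
  · rintro ⟨φ, c, h⟩
    exact ⟨φ, c, EndSpace.ext h⟩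
  · rintro ⟨φ, c, rfl⟩
    exact ⟨φ, c, rfl⟩

section dhlemmas

variable {A B : Type*} [CommRing A] [CommRing B]

lemma dh_mapT (g : A →+* B) (f : Tuple 1 A) (i : Fin 2) :
    dh (mapT g f) i = (dh f i).map g := by
  simp only [dh, mapT]
  have h1 : (Polynomial.mapRingHom g).comp
      ((aeval ![Polynomial.X, 1] : MvPolynomial (Fin 2) A →ₐ[A] Polynomial A) :
        MvPolynomial (Fin 2) A →+* Polynomial A) =
      ((aeval ![Polynomial.X, 1] : MvPolynomial (Fin 2) B →ₐ[B] Polynomial B) :
        MvPolynomial (Fin 2) B →+* Polynomial B).comp (map g) := by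
    apply MvPolynomial.ringHom_ext
    · intro a
      simp
    · intro j
      fin_cases j <;> simp
  have h2 := RingHom.congr_fun h1 (f i)
  simpa using h2.symm

lemma dh_comp_T_map (g : A →+* B) (ψ : Matrix (Fin 2) (Fin 2) A) (p : Fin 2 → Polynomial A)
    (φ : Matrix (Fin 2) (Fin 2) A) (i : Fin 2) :
    (dh (comp (N := 1) ψ (T d p) φ) i).map g =
      dh (comp (N := 1) (ψ.map g) (T d (fun i => (p i).map g)) (φ.map g)) i := by
  rw [← dh_mapT, mapT_comp, mapT_T]

lemma dh_comp_natDegree (ψ : Matrix (Fin 2) (Fin 2) A) (p : Fin 2 → Polynomial A)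
    (φ : Matrix (Fin 2) (Fin 2) A) (i : Fin 2) :
    (dh (comp (N := 1) ψ (T d p) φ) i).natDegree ≤ d :=
  dh_natDegree_le (comp_isHomogeneous (N := 1) (T_isHomogeneous d p) ψ φ) i

lemma T_dh_comp (ψ : Matrix (Fin 2) (Fin 2) A) (p : Fin 2 → Polynomial A)
    (φ : Matrix (Fin 2) (Fin 2) A) :
    T d (dh (comp (N := 1) ψ (T d p) φ)) = comp (N := 1) ψ (T d p) φ :=
  T_dh (comp_isHomogeneous (N := 1) (T_isHomogeneous d p) ψ φ)

end dhlemmas

/-- the generic pair of polynomials -/
def gen (d : ℕ) (Ω : Type*) [Field Ω] : Fin 2 → Polynomial (MvPolynomial (Fin 2 × ℕ) Ω) :=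
  fun i => ∑ j ∈ Finset.range (d + 1), Polynomial.C (X (i, j)) * Polynomial.X ^ j

lemma gen_map (p : Fin 2 → Polynomial Ω) (hp : ∀ i, (p i).natDegree ≤ d) (i : Fin 2) :
    (gen d Ω i).map ((sub p : MvPolynomial (Fin 2 × ℕ) Ω →ₐ[Ω] Ω) :
      MvPolynomial (Fin 2 × ℕ) Ω →+* Ω) = p i := by
  simp only [gen, Polynomial.map_sum, Polynomial.map_mul, Polynomial.map_C, Polynomial.map_pow,
    Polynomial.map_X]
  conv_rhs => rw [(p i).as_sum_range' (d + 1) (by have := hp i; omega)]
  refine Finset.sum_congr rfl fun j _ => ?_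
  rw [← Polynomial.C_mul_X_pow_eq_monomial]
  simp [sub]

/-- pulling back a polynomial along `p ↦ ψ ∘ p ∘ φ` -/
lemma exists_pullback (ψ φ : Matrix (Fin 2) (Fin 2) Ω) (P : MvPolynomial (Fin 2 × ℕ) Ω) :
    ∃ Q : MvPolynomial (Fin 2 × ℕ) Ω, ∀ p : Fin 2 → Polynomial Ω, (∀ i, (p i).natDegree ≤ d) →
      sub p Q = sub (dh (comp (N := 1) ψ (T d p) φ)) P := by
  refine ⟨sub (dh (comp (N := 1) (ψ.map C) (T d (gen d Ω)) (φ.map C))) P, fun p hp => ?_⟩
  rw [sub_map]
  congr 2
  funext i
  rw [dh_comp_T_map]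
  have h1 : ∀ χ : Matrix (Fin 2) (Fin 2) Ω,
      (χ.map (C : Ω →+* MvPolynomial (Fin 2 × ℕ) Ω)).map
        ((sub p : MvPolynomial (Fin 2 × ℕ) Ω →ₐ[Ω] Ω) : MvPolynomial (Fin 2 × ℕ) Ω →+* Ω) = χ := by
    intro χ
    ext a b
    simp [sub]
  rw [h1, h1]
  congr 2
  funext i
  congr 1
  funext i
  exact gen_map p hp i

lemma act_coe (φ : GL (Fin 2) Ω) (c : Ωˣ) (f : EndSpace 1 d Ω) :
    (act φ c f).1 = comp (N := 1) ((c : Ω) • (↑φ⁻¹ : Matrix (Fin 2) (Fin 2) Ω)) f.1
      (φ : Matrix (Fin 2) (Fin 2) Ω) := by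
  rw [comp_smul_left]
  rfl

lemma pol_act (φ : GL (Fin 2) Ω) (c : Ωˣ) (f : EndSpace 1 d Ω) :
    pol (act φ c f) = dh (comp (N := 1) ((c : Ω) • (↑φ⁻¹ : Matrix (Fin 2) (Fin 2) Ω)) (T d (pol f))
      (φ : Matrix (Fin 2) (Fin 2) Ω)) := by
  rw [T_pol, ← act_coe]
  rfl

lemma act_continuous (φ : GL (Fin 2) Ω) (c : Ωˣ) :
    Continuous (act φ c : EndSpace 1 d Ω → EndSpace 1 d Ω) := by
  rw [continuous_iff_isClosed]
  intro Z hZ
  obtain ⟨I, rfl⟩ := isClosed_iff'.mp hZ
  choose Q hQ using fun P => exists_pullback (d := d) ((c : Ω) • (↑φ⁻¹ : Matrix (Fin 2) (Fin 2) Ω))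
    (φ : Matrix (Fin 2) (Fin 2) Ω) P
  refine isClosed_iff'.mpr ⟨Q '' I, ?_⟩
  ext f
  simp only [Set.mem_preimage, Set.mem_ofPred_eq, Set.forall_mem_image]
  refine forall₂_congr fun P _ => ?_
  rw [hQ P _ (pol_natDegree f), pol_act]

lemma toM_isOpenMap : IsOpenMap (toM : EndSpace 1 d Ω → Moduli 1 d Ω) := by
  intro U hU
  have h1 : IsOpen (toM ⁻¹' (toM '' U) : Set (EndSpace 1 d Ω)) := by
    have : toM ⁻¹' (toM '' U) = ⋃ (φ : GL (Fin 2) Ω) (c : Ωˣ), act φ c ⁻¹' U := by
      ext f
      simp only [Set.mem_preimage, Set.mem_image, Set.mem_iUnion]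
      constructor
      · rintro ⟨u, hu, huf⟩
        obtain ⟨φ, c, rfl⟩ := toM_eq_iff_act.mp huf.symm
        exact ⟨φ, c, hu⟩
      · rintro ⟨φ, c, h⟩
        exact ⟨_, h, toM_act _ _ _⟩
    rw [this]
    exact isOpen_iUnion fun φ => isOpen_iUnion fun c => hU.preimage (act_continuous φ c)
  exact h1

/-- a polynomial family of morphisms -/
def fam {τ : Type*} (d : ℕ) (q : Fin 2 → Polynomial (MvPolynomial τ Ω)) (D : MvPolynomial τ Ω) :
    Set (EndSpace 1 d Ω) :=
  {f | ∃ t : τ → Ω, eval t D ≠ 0 ∧ f.1 = T d (fun i => (q i).map (eval t))}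

/-- conditions for the family to behave well -/
structure GoodFam {τ : Type*} (d : ℕ) (q : Fin 2 → Polynomial (MvPolynomial τ Ω))
    (D : MvPolynomial τ Ω) : Prop where
  deg : ∀ i, (q i).natDegree ≤ d
  ne : D ≠ 0
  mor : ∀ t : τ → Ω, eval t D ≠ 0 → IsMorphism 1 d (T d (fun i => (q i).map (eval t)))

lemma fam_pol {τ : Type*} {q : Fin 2 → Polynomial (MvPolynomial τ Ω)} {D : MvPolynomial τ Ω}
    (h : GoodFam d q D) {f : EndSpace 1 d Ω} {t : τ → Ω}
    (hf : f.1 = T d (fun i => (q i).map (eval t))) :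
    pol f = fun i => (q i).map (eval t) := by
  unfold pol
  rw [hf, dh_T]
  exact fun i => Polynomial.natDegree_map_le.trans (h.deg i)

lemma sub_fam {τ : Type*} {q : Fin 2 → Polynomial (MvPolynomial τ Ω)} {D : MvPolynomial τ Ω}
    (h : GoodFam d q D) {f : EndSpace 1 d Ω} {t : τ → Ω}
    (hf : f.1 = T d (fun i => (q i).map (eval t))) (P : MvPolynomial (Fin 2 × ℕ) Ω) :
    sub (pol f) P = eval t (sub q P) := by
  rw [fam_pol h hf]
  exact (sub_map (aeval t : MvPolynomial τ Ω →ₐ[Ω] Ω) q P).symm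

lemma fam_vanish [Infinite Ω] {τ : Type*} {q : Fin 2 → Polynomial (MvPolynomial τ Ω)}
    {D : MvPolynomial τ Ω} (h : GoodFam d q D) (P : MvPolynomial (Fin 2 × ℕ) Ω) :
    (∀ f ∈ fam d q D, sub (pol f) P = 0) ↔ sub q P = 0 := by
  constructor
  · intro hP
    have h1 : sub q P * D = 0 := by
      apply MvPolynomial.funext
      intro t
      rw [map_mul, map_zero]
      by_cases hD : eval t D = 0
      · rw [hD, mul_zero]
      · have h2 := hP ⟨_, h.mor t hD⟩ ⟨t, hD, rfl⟩
        rw [sub_fam h (f := ⟨_, h.mor t hD⟩) (t := t) rfl] at h2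
        rw [h2, zero_mul]
    exact (mul_eq_zero.mp h1).resolve_right h.ne
  · rintro hP f ⟨t, hD, hf⟩
    rw [sub_fam h hf, hP, map_zero]

lemma fam_irreducible [Infinite Ω] {τ : Type*} {q : Fin 2 → Polynomial (MvPolynomial τ Ω)}
    {D : MvPolynomial τ Ω} (h : GoodFam d q D) : IsIrreducible (fam d q D) := by
  constructor
  · obtain ⟨t, ht⟩ : ∃ t, eval t D ≠ 0 := by
      by_contra hcon
      push Not at hcon
      exact h.ne (MvPolynomial.funext fun t => by rw [hcon t, map_zero])
    exact ⟨⟨_, h.mor t ht⟩, t, ht, rfl⟩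
  · rintro U V hU hV ⟨f, ⟨t, htD, htf⟩, hfU⟩ ⟨g, ⟨s, hsD, hsg⟩, hgV⟩
    obtain ⟨I, hI⟩ := isClosed_iff'.mp hU.isClosed_compl
    obtain ⟨J, hJ⟩ := isClosed_iff'.mp hV.isClosed_compl
    have h1 : f ∉ Uᶜ := fun h => h hfU
    have h2 : g ∉ Vᶜ := fun h => h hgV
    rw [hI] at h1
    rw [hJ] at h2
    simp only [Set.mem_ofPred_eq, not_forall] at h1 h2
    obtain ⟨P, hP, hP'⟩ := h1
    obtain ⟨Q, hQ, hQ'⟩ := h2
    rw [sub_fam h htf] at hP'
    rw [sub_fam h hsg] at hQ'
    have h3 : sub q P * sub q Q * D ≠ 0 := by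
      refine mul_ne_zero (mul_ne_zero ?_ ?_) h.ne
      · intro h0
        rw [h0, map_zero] at hP'
        exact hP' rfl
      · intro h0
        rw [h0, map_zero] at hQ'
        exact hQ' rfl
    obtain ⟨u, hu⟩ : ∃ u, eval u (sub q P * sub q Q * D) ≠ 0 := by
      by_contra hcon
      push Not at hcon
      exact h3 (MvPolynomial.funext fun t => by rw [hcon t, map_zero])
    rw [map_mul, map_mul] at hu
    have hu1 : eval u (sub q P) ≠ 0 := fun h => hu (by rw [h]; ring)
    have hu2 : eval u (sub q Q) ≠ 0 := fun h => hu (by rw [h]; ring)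
    have hu3 : eval u D ≠ 0 := fun h => hu (by rw [h]; ring)
    refine ⟨⟨_, h.mor u hu3⟩, ⟨u, hu3, rfl⟩, ?_, ?_⟩
    · by_contra hcon
      have : (⟨_, h.mor u hu3⟩ : EndSpace 1 d Ω) ∈ Uᶜ := hcon
      rw [hI] at this
      have := this P hP
      rw [sub_fam h (f := ⟨_, h.mor u hu3⟩) (t := u) rfl] at this
      exact hu1 this
    · by_contra hcon
      have : (⟨_, h.mor u hu3⟩ : EndSpace 1 d Ω) ∈ Vᶜ := hcon
      rw [hJ] at this
      have := this Q hQ
      rw [sub_fam h (f := ⟨_, h.mor u hu3⟩) (t := u) rfl] at this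
      exact hu2 this

end

/-! ## Density of maps with good reduction -/

section

variable {d : ℕ} {Ω : Type*} [Field Ω]

/-- moving a map by a matrix, with the adjugate instead of the inverse -/
def mvE (φ : Matrix (Fin 2) (Fin 2) Ω) (hφ : φ.det ≠ 0) (f : EndSpace 1 d Ω) : EndSpace 1 d Ω :=
  ⟨comp (N := 1) φ.adjugate f.1 φ, f.2.comp _ _ (by
    rw [Matrix.det_adjugate]
    exact pow_ne_zero _ hφ) hφ⟩

lemma toM_mvE (φ : Matrix (Fin 2) (Fin 2) Ω) (hφ : φ.det ≠ 0) (f : EndSpace 1 d Ω) :
    toM (mvE φ hφ f) = toM f := by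
  symm
  rw [toM_eq_iff]
  refine ⟨Matrix.GeneralLinearGroup.mkOfDetNeZero φ hφ, Units.mk0 _ hφ, ?_⟩
  rw [conj_eq_comp, ← comp_smul_left]
  change comp (N := 1) φ.adjugate f.1 φ = _
  congr 1
  rw [Matrix.coe_units_inv]
  change φ.adjugate = φ.det • φ⁻¹
  rw [Matrix.inv_def, smul_smul, Ring.mul_inverse_cancel _ (isUnit_iff_ne_zero.mpr hφ), one_smul]

/-- the value of a tuple at infinity, in terms of leading coefficients -/
lemma eval_one_zero (f : EndSpace 1 d Ω) (i : Fin 2) :
    eval ![1, 0] (f.1 i) = (pol f i).coeff d := by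
  rw [← T_pol f, eval_T_of_eq_zero _ _ _ (by simp)]
  simp

lemma eval_z_one (f : EndSpace 1 d Ω) (z : Ω) (i : Fin 2) :
    eval ![z, 1] (f.1 i) = (pol f i).eval z := by
  rw [← T_pol f, eval_T_of_ne_zero (pol_natDegree f) _ _ (by simp)]
  simp

lemma exists_fix_infty [IsAlgClosed Ω] (f : EndSpace 1 d Ω) :
    ∃ g : EndSpace 1 d Ω, toM g = toM f ∧ (pol g 1).coeff d = 0 := by
  by_cases h : (pol f 1).coeff d = 0
  · exact ⟨f, rfl, h⟩
  · obtain ⟨z, hz⟩ : ∃ z, (pol f 0 - Polynomial.X * pol f 1).eval z = 0 := by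
      apply IsAlgClosed.exists_root
      have h1 : (pol f 0 - Polynomial.X * pol f 1).coeff (d + 1) ≠ 0 := by
        rw [Polynomial.coeff_sub, Polynomial.coeff_X_mul,
          Polynomial.coeff_eq_zero_of_natDegree_lt ((pol_natDegree f 0).trans_lt (by omega))]
        simpa using h
      intro h2
      have h3 := Polynomial.le_degree_of_ne_zero h1
      rw [h2] at h3
      exact absurd h3 (not_le.mpr (by exact_mod_cast Nat.succ_pos d))
    have hdet : (!![z, 1; 1, 0] : Matrix (Fin 2) (Fin 2) Ω).det ≠ 0 := by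
      simp [Matrix.det_fin_two]
    refine ⟨mvE !![z, 1; 1, 0] hdet f, toM_mvE _ _ _, ?_⟩
    rw [← eval_one_zero]
    change eval ![1, 0] (comp (N := 1) _ f.1 _ 1) = 0
    rw [eval_comp]
    have h1 : (!![z, 1; 1, 0] : Matrix (Fin 2) (Fin 2) Ω).mulVec ![1, 0] = ![z, 1] := by
      ext i
      fin_cases i <;> simp [Matrix.mulVec, dotProduct, Fin.sum_univ_two]
    change ((!![z, 1; 1, 0] : Matrix (Fin 2) (Fin 2) Ω).adjugate.mulVec (fun j =>
      eval ((!![z, 1; 1, 0] : Matrix (Fin 2) (Fin 2) Ω).mulVec ![1, 0]) (f.1 j))) 1 = 0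
    rw [h1]
    simp only [eval_z_one]
    rw [Polynomial.eval_sub, Polynomial.eval_mul, Polynomial.eval_X] at hz
    simp [Matrix.adjugate_fin_two, Matrix.mulVec, dotProduct, Fin.sum_univ_two]
    linear_combination -hz

/-- polynomial identities along lines -/
lemma vanish_line (P : MvPolynomial (Fin 2 × ℕ) Ω) (a b : Fin 2 → Polynomial Ω) (s : Set Ω)
    (hs : s.Infinite) (h : ∀ u ∈ s, sub (fun i => a i + Polynomial.C u * b i) P = 0) (u : Ω) :
    sub (fun i => a i + Polynomial.C u * b i) P = 0 := by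
  set q : Fin 2 → Polynomial (Polynomial Ω) := fun i =>
    (a i).map Polynomial.C + Polynomial.C Polynomial.X * (b i).map Polynomial.C with hq
  have h1 : ∀ u : Ω, (sub q P).eval u = sub (fun i => a i + Polynomial.C u * b i) P := by
    intro u
    have h2 := sub_map (Polynomial.aeval u : Polynomial Ω →ₐ[Ω] Ω) q P
    rw [Polynomial.coe_aeval_eq_eval] at h2
    rw [h2]
    congr 2
    funext i
    have hid : ((Polynomial.aeval u : Polynomial Ω →ₐ[Ω] Ω) : Polynomial Ω →+* Ω).comp
        Polynomial.C = RingHom.id Ω := by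
      ext x
      simp
    simp only [hq, Polynomial.map_add, Polynomial.map_mul, Polynomial.map_C, Polynomial.map_map,
      hid, Polynomial.map_id]
    congr 2
    simp
  have h2 : sub q P = 0 := by
    apply Polynomial.eq_zero_of_infinite_isRoot
    apply hs.mono
    intro u hu
    change Polynomial.IsRoot _ u
    rw [Polynomial.IsRoot, h1]
    exact h u hu
  rw [← h1, h2, Polynomial.eval_zero]

/-- the integral pairs coming from continued fractions whose partial quotients are
`2^m X + b` -/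
inductive Good : ℕ → (Fin 2 → Polynomial ℤ) → Prop
  | base (m : ℕ) : Good 0 ![Polynomial.C (2 ^ m), 0]
  | step {k : ℕ} {p : Fin 2 → Polynomial ℤ} (m : ℕ) (b : ℤ) (h : Good k p) :
      Good (k + 1) ![(Polynomial.C (2 ^ m) * Polynomial.X + Polynomial.C b) * p 0 + p 1, p 0]

lemma Good.props {k : ℕ} {p : Fin 2 → Polynomial ℤ} (h : Good k p) :
    (p 0).natDegree ≤ k ∧ (∃ M : ℕ, (p 0).coeff k = 2 ^ M) ∧ (p 1).degree < k := by
  induction h with
  | base m =>
    refine ⟨by rw [Matrix.cons_val_zero, Polynomial.natDegree_C], ⟨m, ?_⟩, by simp⟩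
    rw [Matrix.cons_val_zero, Polynomial.coeff_C_zero]
  | @step k p m b h ih =>
    obtain ⟨h1, ⟨M, hM⟩, h2⟩ := ih
    have hlin : (Polynomial.C (2 ^ m) * Polynomial.X + Polynomial.C b :
        Polynomial ℤ).natDegree ≤ 1 := Polynomial.natDegree_linear_le
    have h3 : (p 1).natDegree ≤ k + 1 := by
      rw [Polynomial.natDegree_le_iff_degree_le]
      exact h2.le.trans (by exact_mod_cast Nat.le_succ k)
    refine ⟨?_, ⟨m + M, ?_⟩, ?_⟩
    · simp only [Matrix.cons_val_zero]
      refine (Polynomial.natDegree_add_le _ _).trans (max_le ?_ h3)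
      exact (Polynomial.natDegree_mul_le).trans (by omega)
    · simp only [Matrix.cons_val_zero]
      rw [Polynomial.coeff_add, Polynomial.coeff_eq_zero_of_degree_lt
        (h2.trans (by exact_mod_cast Nat.lt_succ_self k)), add_zero, add_mul, mul_assoc,
        Polynomial.coeff_add, Polynomial.coeff_C_mul, Polynomial.coeff_X_mul,
        Polynomial.coeff_C_mul, Polynomial.coeff_eq_zero_of_natDegree_lt (n := k + 1)
          (p := p 0) (by omega), hM]
      ring
    · simp only [Matrix.cons_val_one]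
      refine lt_of_le_of_lt (Polynomial.natDegree_le_iff_degree_le.mp h1) ?_
      exact_mod_cast Nat.lt_succ_self k

lemma Good.coprime {k : ℕ} {p : Fin 2 → Polynomial ℤ} (h : Good k p) {F : Type*} [Field F]
    (h2 : (2 : F) ≠ 0) :
    IsCoprime ((p 0).map (Int.castRingHom F)) ((p 1).map (Int.castRingHom F)) := by
  induction h with
  | base m =>
    simp only [Matrix.cons_val_zero, Matrix.cons_val_one, Polynomial.map_zero,
      Polynomial.map_C]
    rw [isCoprime_zero_right, Polynomial.isUnit_C]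
    simp [h2]
  | @step k p m b h ih =>
    simp only [Matrix.cons_val_zero, Matrix.cons_val_one, Polynomial.map_add, Polynomial.map_mul]
    rw [add_comm]
    exact ih.symm.add_mul_right_left _

/-- a good pair gives a morphism over any field in which `2 ≠ 0` -/
lemma Good.isMorphism {p : Fin 2 → Polynomial ℤ} (hd : d ≠ 0) (h : Good d p) {F : Type*}
    [Field F] (h2 : (2 : F) ≠ 0) :
    IsMorphism 1 d (T d (fun i => (p i).map (Int.castRingHom F))) := by
  obtain ⟨h3, ⟨M, hM⟩, h4⟩ := h.props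
  have h5 : (p 1).natDegree ≤ d := by
    rw [Polynomial.natDegree_le_iff_degree_le]
    exact h4.le
  have hdeg : ∀ i, (p i).natDegree ≤ d := by
    intro i
    fin_cases i
    · exact h3
    · exact h5
  rw [isMorphism_T_iff hd (fun i => Polynomial.natDegree_map_le.trans (hdeg i))]
  have hlead : ((p 0).map (Int.castRingHom F)).coeff d ≠ 0 := by
    rw [Polynomial.coeff_map, hM]
    simp [h2]
  have hnd : ((p 0).map (Int.castRingHom F)).natDegree = d :=
    le_antisymm (Polynomial.natDegree_map_le.trans h3) (Polynomial.le_natDegree_of_ne_zero hlead)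
  obtain ⟨e, he⟩ := Nat.exists_eq_add_of_le
    (Polynomial.natDegree_map_le.trans h5 : ((p 1).map (Int.castRingHom F)).natDegree ≤ d)
  have h6 := Polynomial.resultant_add_right_deg ((p 0).map (Int.castRingHom F))
    ((p 1).map (Int.castRingHom F)) d ((p 1).map (Int.castRingHom F)).natDegree e le_rfl
  rw [← he] at h6
  rw [h6]
  refine mul_ne_zero (pow_ne_zero _ hlead) ?_
  have h7 : Polynomial.resultant ((p 0).map (Int.castRingHom F))
      ((p 1).map (Int.castRingHom F)) ≠ 0 := by
    rw [Ne, Polynomial.resultant_eq_zero_iff]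
    exact fun hcon => hcon.2 (h.coprime h2)
  rwa [hnd] at h7

/-- Zariski density of the good pairs among all pairs of degrees `(k, k-1)` -/
lemma good_dense [CharZero Ω] (k : ℕ) : ∀ P : MvPolynomial (Fin 2 × ℕ) Ω,
    (∀ p : Fin 2 → Polynomial ℤ, Good k p → sub (fun i => (p i).map (Int.castRingHom Ω)) P = 0) →
    ∀ q : Fin 2 → Polynomial Ω, (q 0).natDegree ≤ k → (q 1).degree < k → sub q P = 0 := by
  have hinf2 : (Set.range (fun m : ℕ => (2 : Ω) ^ m)).Infinite := by
    apply Set.infinite_range_of_injective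
    intro a b hab
    have h1 : ((2 ^ a : ℕ) : Ω) = ((2 ^ b : ℕ) : Ω) := by
      push_cast
      exact hab
    exact Nat.pow_right_injective le_rfl (by exact_mod_cast h1)
  have hinfZ : (Set.range (fun b : ℤ => (b : Ω))).Infinite :=
    Set.infinite_range_of_injective Int.cast_injective
  have : Infinite Ω := inferInstance
  have hC2 : (Polynomial.C (2 : Ω)) = 2 := map_ofNat Polynomial.C 2
  induction k with
  | zero =>
    intro P hP q hq0 hq1
    have hq1' : q 1 = 0 := by
      by_contra hne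
      have := Polynomial.zero_le_degree_iff.mpr hne
      exact absurd hq1 (not_lt.mpr (by simpa using this))
    have hq0' : q 0 = Polynomial.C ((q 0).coeff 0) :=
      Polynomial.eq_C_of_natDegree_le_zero hq0
    have h1 := vanish_line P ![0, 0] ![1, 0] _ hinf2 (by
      rintro _ ⟨m, rfl⟩
      have h2 := hP _ (Good.base m)
      convert h2 using 3
      funext i
      fin_cases i <;> simp [hC2]) ((q 0).coeff 0)
    convert h1 using 3
    funext i
    fin_cases i
    · simpa using hq0'
    · simpa using hq1'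
  | succ k ih =>
    intro P hP
    -- first: arbitrary `u`, `b` and good `p`
    have step1 : ∀ p : Fin 2 → Polynomial ℤ, Good k p → ∀ u b : Ω,
        sub ![(Polynomial.C u * Polynomial.X + Polynomial.C b) * (p 0).map (Int.castRingHom Ω) +
          (p 1).map (Int.castRingHom Ω), (p 0).map (Int.castRingHom Ω)] P = 0 := by
      intro p hp
      have h1 : ∀ (b : ℤ) (u : Ω),
          sub ![(Polynomial.C u * Polynomial.X + Polynomial.C (b : Ω)) *
            (p 0).map (Int.castRingHom Ω) +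
            (p 1).map (Int.castRingHom Ω), (p 0).map (Int.castRingHom Ω)] P = 0 := by
        intro b u
        have h2 := vanish_line P ![Polynomial.C (b : Ω) * (p 0).map (Int.castRingHom Ω) +
            (p 1).map (Int.castRingHom Ω), (p 0).map (Int.castRingHom Ω)]
          ![Polynomial.X * (p 0).map (Int.castRingHom Ω), 0] _ hinf2 (by
            rintro _ ⟨m, rfl⟩
            have h3 := hP _ (Good.step m b hp)
            convert h3 using 3
            funext i
            fin_cases i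
            · simp [hC2]
              ring
            · simp) u
        convert h2 using 3
        funext i
        fin_cases i
        · simp
          ring
        · simp
      intro u b
      have h2 := vanish_line P ![Polynomial.C u * Polynomial.X * (p 0).map (Int.castRingHom Ω) +
            (p 1).map (Int.castRingHom Ω), (p 0).map (Int.castRingHom Ω)]
          ![(p 0).map (Int.castRingHom Ω), 0] _ hinfZ (by
            rintro _ ⟨b, rfl⟩
            have h3 := h1 b u
            convert h3 using 3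
            funext i
            fin_cases i
            · simp
              ring
            · simp) b
      convert h2 using 3
      funext i
      fin_cases i
      · simp
        ring
      · simp
    -- second: arbitrary pairs of lower degree
    have step2 : ∀ (u b : Ω) (q : Fin 2 → Polynomial Ω), (q 0).natDegree ≤ k →
        (q 1).degree < k →
        sub ![(Polynomial.C u * Polynomial.X + Polynomial.C b) * q 0 + q 1, q 0] P = 0 := by
      intro u b
      set Q : MvPolynomial (Fin 2 × ℕ) Ω :=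
        sub ![(Polynomial.C (C u) * Polynomial.X + Polynomial.C (C b)) * gen k Ω 0 + gen k Ω 1,
          gen k Ω 0] P with hQ
      have hQs : ∀ q : Fin 2 → Polynomial Ω, (∀ i, (q i).natDegree ≤ k) →
          sub q Q =
            sub ![(Polynomial.C u * Polynomial.X + Polynomial.C b) * q 0 + q 1, q 0] P := by
        intro q hq
        rw [hQ, sub_map]
        congr 2
        funext i
        fin_cases i
        · simp only [Fin.zero_eta, Fin.isValue, Matrix.cons_val_zero, Polynomial.map_add,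
            Polynomial.map_mul, Polynomial.map_C, Polynomial.map_X, gen_map q hq]
          simp [sub]
        · change Polynomial.map _ (gen k Ω 0) = q 0
          exact gen_map q hq 0
      have hdegs : ∀ q : Fin 2 → Polynomial Ω, (q 0).natDegree ≤ k → (q 1).degree < k →
          ∀ i, (q i).natDegree ≤ k := by
        intro q h0 h1 i
        fin_cases i
        · exact h0
        · exact Polynomial.natDegree_le_iff_degree_le.mpr h1.le
      intro q hq0 hq1
      rw [← hQs q (hdegs q hq0 hq1)]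
      refine ih Q (fun p hp => ?_) q hq0 hq1
      obtain ⟨h3, -, h4⟩ := hp.props
      rw [hQs]
      · exact step1 p hp u b
      · intro i
        refine Polynomial.natDegree_map_le.trans ?_
        fin_cases i
        · exact h3
        · exact Polynomial.natDegree_le_iff_degree_le.mpr h4.le
    -- third: pairs with nonzero leading coefficient
    have step3 : ∀ q : Fin 2 → Polynomial Ω, (q 0).natDegree ≤ k + 1 →
        (q 1).natDegree ≤ k → (q 1).coeff k ≠ 0 → sub q P = 0 := by
      intro q hq0 hq1 hlead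
      set u : Ω := (q 0).coeff (k + 1) / (q 1).coeff k with hu
      set b : Ω := (q 0 - Polynomial.C u * Polynomial.X * q 1).coeff k / (q 1).coeff k with hb
      set r : Polynomial Ω :=
        q 0 - (Polynomial.C u * Polynomial.X + Polynomial.C b) * q 1 with hr
      have hrdeg : r.degree < k := by
        rw [Polynomial.degree_lt_iff_coeff_zero]
        intro j hj
        have h1 : r.coeff j = (q 0).coeff j - u * (Polynomial.X * q 1).coeff j -
            b * (q 1).coeff j := by
          rw [hr]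
          simp only [add_mul, mul_assoc, Polynomial.coeff_sub, Polynomial.coeff_add,
            Polynomial.coeff_C_mul]
          ring
        rw [h1]
        rcases Nat.lt_or_ge k j with h2 | h2
        · have h3 : (q 1).coeff j = 0 :=
            Polynomial.coeff_eq_zero_of_natDegree_lt (hq1.trans_lt h2)
          rcases Nat.lt_or_ge (k + 1) j with h4 | h4
          · obtain ⟨j', rfl⟩ : ∃ j', j = j' + 1 := ⟨j - 1, by omega⟩
            rw [Polynomial.coeff_X_mul,
              Polynomial.coeff_eq_zero_of_natDegree_lt (p := q 1) (hq1.trans_lt (by omega)),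
              Polynomial.coeff_eq_zero_of_natDegree_lt (hq0.trans_lt h4), h3]
            ring
          · obtain rfl : j = k + 1 := by omega
            rw [Polynomial.coeff_X_mul, h3, hu]
            field_simp
            ring
        · obtain rfl : j = k := by omega
          rw [hb]
          simp only [mul_assoc, Polynomial.coeff_sub, Polynomial.coeff_C_mul]
          field_simp
          ring
      have h5 := step2 u b ![q 1, r] (by simpa using hq1) (by simpa using hrdeg)
      convert h5 using 3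
      funext i
      fin_cases i
      · simp [hr]
      · simp
    -- finally
    intro q hq0 hq1
    have hq1' : (q 1).natDegree ≤ k := by
      rw [Polynomial.natDegree_le_iff_degree_le]
      rw [Polynomial.degree_le_iff_coeff_zero]
      intro j hj
      apply Polynomial.coeff_eq_zero_of_degree_lt
      refine hq1.trans_le ?_
      have : k < j := by exact_mod_cast hj
      exact_mod_cast this
    by_cases hlead : (q 1).coeff k = 0
    · have h6 := vanish_line P q ![0, Polynomial.X ^ k] {u | u ≠ 0}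
        (Set.Infinite.mono (fun u hu => by simpa using hu)
          (Set.Finite.infinite_compl (Set.finite_singleton (0 : Ω)))) (by
          intro u hu
          apply step3
          · simpa using hq0
          · simp only [Matrix.cons_val_one]
            refine (Polynomial.natDegree_add_le _ _).trans (max_le hq1' ?_)
            exact (Polynomial.natDegree_C_mul_X_pow_le _ _)
          · simpa [hlead] using hu) 0
      simpa using h6
    · exact step3 q hq0 hq1' hlead

end

/-! ## Good reduction outside two -/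

section

section
variable (K : Type*) [Field K] [NumberField K]

/-- the primes above `2` -/
def S2 : Set (HeightOneSpectrum (𝓞 K)) := {p | (2 : 𝓞 K) ∈ p.asIdeal}

lemma S2_finite : (S2 K).Finite := by
  have h : (Ideal.span {(2 : 𝓞 K)}) ≠ 0 := by
    simp
  refine (Ideal.finite_factors h).subset fun p hp => ?_
  change p.asIdeal ∣ Ideal.span {(2 : 𝓞 K)}
  rw [Ideal.dvd_iff_le, Ideal.span_singleton_le_iff_mem]
  exact hp

variable {K}

lemma isUnit_two {p : HeightOneSpectrum (𝓞 K)} (hp : p ∉ S2 K) : IsUnit (2 : localRing p) := by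
  have h1 : (p.valuation K) (2 : K) = 1 := by
    have h2 : (p.valuation K) (algebraMap (𝓞 K) K 2) = 1 := by
      rw [HeightOneSpectrum.valuation_eq_one_iff_notMem]
      exact hp
    rwa [map_ofNat] at h2
  have h3 : (2 : K)⁻¹ ∈ localRing p := by
    change (p.valuation K) (2 : K)⁻¹ ≤ 1
    rw [map_inv₀, h1, inv_one]
  rw [isUnit_iff_exists_inv]
  refine ⟨⟨2⁻¹, h3⟩, ?_⟩
  apply Subtype.ext
  change (2 : K) * 2⁻¹ = 1
  exact mul_inv_cancel₀ two_ne_zero

lemma good_hasGoodReduction {d : ℕ} (hd : d ≠ 0) {q : Fin 2 → Polynomial ℤ} (hq : Good d q)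
    {p : HeightOneSpectrum (𝓞 K)} (hp : p ∉ S2 K) :
    HasGoodReduction 1 d p (T d (fun i => (q i).map (Int.castRingHom K))) := by
  refine ⟨1, 1, T d (fun i => (q i).map (Int.castRingHom (localRing p))), ?_, ?_, ?_⟩
  · intro i
    have h1 := congrFun (mapT_T (algebraMap (localRing p) K) d
      (fun i => (q i).map (Int.castRingHom (localRing p)))) i
    rw [conj_one]
    simp only [mapT] at h1
    rw [h1]
    simp only [Polynomial.map_map]
    rw [show (algebraMap (localRing p) K).comp (Int.castRingHom (localRing p)) =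
      Int.castRingHom K from RingHom.ext_int _ _]
    simp
  · obtain ⟨-, ⟨M, hM⟩, -⟩ := hq.props
    refine ⟨0, Finsupp.single 0 d, ?_⟩
    rw [coeff_T, if_pos (by simp)]
    have h2 : (((q 0).map (Int.castRingHom (localRing p))).coeff
        ((Finsupp.single (0 : Fin 2) d) 0)) = 2 ^ M := by
      rw [Finsupp.single_eq_same, Polynomial.coeff_map, hM]
      simp
    rw [h2]
    exact (isUnit_two hp).pow M
  · have h2 : (2 : IsLocalRing.ResidueField (localRing p)) ≠ 0 := by
      have h3 := (isUnit_two hp).map (IsLocalRing.residue (localRing p))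
      have h4 := h3.ne_zero
      rwa [map_ofNat] at h4
    have h5 := hq.isMorphism hd h2
    convert h5 using 1
    have h1 := mapT_T (IsLocalRing.residue (localRing p)) d
      (fun i => (q i).map (Int.castRingHom (localRing p)))
    simp only [Polynomial.map_map] at h1
    rw [show (IsLocalRing.residue (localRing p)).comp (Int.castRingHom (localRing p)) =
      Int.castRingHom _ from RingHom.ext_int _ _] at h1
    exact h1

/-- The classes of maps with good reduction outside `2` are Zariski dense. -/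
theorem closure_goodSet {d : ℕ} (hd : d ≠ 0) : closure (goodSet 1 d K (S2 K)) = Set.univ := by
  rw [Set.eq_univ_iff_forall]
  intro x
  obtain ⟨f, rfl⟩ := toM_surjective x
  obtain ⟨g, hgf, hg⟩ := exists_fix_infty f
  rw [← hgf]
  have hcl : IsClosed (toM ⁻¹' (closure (goodSet 1 d K (S2 K)))) :=
    isClosed_closure.preimage toM_continuous
  obtain ⟨I, hI⟩ := isClosed_iff'.mp hcl
  change g ∈ toM ⁻¹' (closure (goodSet 1 d K (S2 K)))
  rw [hI]
  intro P hP
  have hch : CharZero (AlgebraicClosure K) := charZero_of_injective_algebraMap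
    (algebraMap K (AlgebraicClosure K)).injective
  refine good_dense d P (fun q hq => ?_) (pol g) (pol_natDegree g 0) ?_
  · have hm : IsMorphism 1 d (T d (fun i => (q i).map (Int.castRingHom (AlgebraicClosure K)))) :=
      hq.isMorphism hd two_ne_zero
    have hmK : IsMorphism 1 d (T d (fun i => (q i).map (Int.castRingHom K))) :=
      hq.isMorphism hd two_ne_zero
    have hmem : (⟨_, hm⟩ : EndSpace 1 d (AlgebraicClosure K)) ∈
        toM ⁻¹' (closure (goodSet 1 d K (S2 K))) := by
      apply subset_closure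
      have heq : (fun i => map (algebraMap K (AlgebraicClosure K))
          (T d (fun i => (q i).map (Int.castRingHom K)) i)) =
          T d (fun i => (q i).map (Int.castRingHom (AlgebraicClosure K))) := by
        have h1 := mapT_T (algebraMap K (AlgebraicClosure K)) d
          (fun i => (q i).map (Int.castRingHom K))
        simp only [Polynomial.map_map] at h1
        rw [show (algebraMap K (AlgebraicClosure K)).comp (Int.castRingHom K) =
          Int.castRingHom _ from RingHom.ext_int _ _] at h1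
        exact h1
      refine ⟨T d (fun i => (q i).map (Int.castRingHom K)), hmK,
        fun p hp => good_hasGoodReduction hd hq hp, ?_, ?_⟩
      · rw [heq]
        exact hm
      · change Quot.mk _ _ = _
        congr 1
        apply EndSpace.ext
        exact heq.symm
    rw [hI] at hmem
    have h2 := hmem P hP
    have h3 : pol (⟨_, hm⟩ : EndSpace 1 d (AlgebraicClosure K)) =
        fun i => (q i).map (Int.castRingHom (AlgebraicClosure K)) := by
      apply dh_T
      intro i
      obtain ⟨h3, -, h4⟩ := hq.props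
      refine Polynomial.natDegree_map_le.trans ?_
      fin_cases i
      · exact h3
      · exact Polynomial.natDegree_le_iff_degree_le.mpr h4.le
    rwa [h3] at h2
  · rw [Polynomial.degree_lt_iff_coeff_zero]
    intro m hm
    rcases Nat.lt_or_ge d m with h | h
    · exact Polynomial.coeff_eq_zero_of_natDegree_lt ((pol_natDegree g 1).trans_lt h)
    · obtain rfl : m = d := by omega
      exact hg

end

end

/-! ## Upper bound for the dimension of the moduli space -/

section

variable {d : ℕ} {Ω : Type*} [Field Ω]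

/-! ### the dimension of `End` is at most `2 (d + 1)` -/

/-- evaluation of polynomials in the finitely many relevant coefficients -/
def sub' (f : EndSpace 1 d Ω) : MvPolynomial (Fin 2 × Fin (d + 1)) Ω →ₐ[Ω] Ω :=
  aeval (fun ij => (pol f ij.1).coeff ij.2)

/-- the point of the prime spectrum -/
def toSpec (f : EndSpace 1 d Ω) : PrimeSpectrum (MvPolynomial (Fin 2 × Fin (d + 1)) Ω) :=
  ⟨RingHom.ker (sub' f), RingHom.ker_isPrime _⟩

lemma toSpec_isInducing :
    Topology.IsInducing (toSpec : EndSpace 1 d Ω → PrimeSpectrum _) := by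
  constructor
  apply TopologicalSpace.ext_isClosed
  intro Z
  rw [isClosed_iff', isClosed_induced_iff]
  constructor
  · rintro ⟨I, rfl⟩
    set g : MvPolynomial (Fin 2 × ℕ) Ω →ₐ[Ω] MvPolynomial (Fin 2 × Fin (d + 1)) Ω :=
      aeval (fun ij => if h : ij.2 < d + 1 then X (ij.1, ⟨ij.2, h⟩) else 0) with hg
    refine ⟨PrimeSpectrum.zeroLocus (g '' I), PrimeSpectrum.isClosed_zeroLocus _, ?_⟩
    have hsub : ∀ (f : EndSpace 1 d Ω) (P : MvPolynomial (Fin 2 × ℕ) Ω),
        sub' f (g P) = sub (pol f) P := by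
      intro f P
      unfold sub' sub
      rw [hg, ← AlgHom.comp_apply, comp_aeval]
      congr 2
      funext ij
      split_ifs with h
      · simp
      · rw [map_zero, Polynomial.coeff_eq_zero_of_natDegree_lt
          ((pol_natDegree f _).trans_lt (by omega))]
    ext f
    simp only [Set.mem_preimage, PrimeSpectrum.mem_zeroLocus, Set.image_subset_iff,
      Set.mem_ofPred_eq]
    constructor
    · intro h P hP
      have := h hP
      rw [← hsub]
      exact this
    · intro h P hP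
      have := h P hP
      rw [← hsub] at this
      exact this
  · rintro ⟨W, hW, rfl⟩
    obtain ⟨s, rfl⟩ := (PrimeSpectrum.isClosed_iff_zeroLocus W).mp hW
    set g : MvPolynomial (Fin 2 × Fin (d + 1)) Ω →ₐ[Ω] MvPolynomial (Fin 2 × ℕ) Ω :=
      aeval (fun ij => X (ij.1, (ij.2 : ℕ))) with hg
    have hsub : ∀ (f : EndSpace 1 d Ω) (P : MvPolynomial (Fin 2 × Fin (d + 1)) Ω),
        sub (pol f) (g P) = sub' f P := by
      intro f P
      unfold sub' sub
      rw [hg, ← AlgHom.comp_apply, comp_aeval]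
      congr 2
      funext ij
      simp
    refine ⟨g '' s, ?_⟩
    ext f
    simp only [Set.mem_preimage, PrimeSpectrum.mem_zeroLocus, Set.forall_mem_image,
      Set.mem_ofPred_eq, hsub]
    rfl

lemma dim_End_le : topologicalKrullDim (EndSpace 1 d Ω) ≤ ((2 * d + 2 : ℕ) : WithBot ℕ∞) := by
  refine (toSpec_isInducing.topologicalKrullDim_le).trans ?_
  rw [PrimeSpectrum.topologicalKrullDim_eq_ringKrullDim,
    MvPolynomial.ringKrullDim_of_isNoetherianRing, ringKrullDim_eq_zero_of_field, zero_add]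
  simp only [Nat.card_eq_fintype_card, Fintype.card_prod, Fintype.card_fin]
  apply le_of_eq
  congr 1

/-! ### orbits -/

/-- part of an orbit -/
def orb (f : EndSpace 1 d Ω) (H : Set (Matrix (Fin 2) (Fin 2) Ω)) : Set (EndSpace 1 d Ω) :=
  {g | ∃ φ ∈ H, ∃ c : Ω, c ≠ 0 ∧ φ.det ≠ 0 ∧ g.1 = comp (N := 1) (c • φ.adjugate) f.1 φ}

lemma orb_mono (f : EndSpace 1 d Ω) {H H' : Set (Matrix (Fin 2) (Fin 2) Ω)} (h : H ⊆ H') :
    orb f H ⊆ orb f H' := by
  rintro g ⟨φ, hφ, c, hc, hd, hg⟩
  exact ⟨φ, h hφ, c, hc, hd, hg⟩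

lemma toM_of_mem_orb {f g : EndSpace 1 d Ω} {H : Set (Matrix (Fin 2) (Fin 2) Ω)}
    (h : g ∈ orb f H) : toM g = toM f := by
  obtain ⟨φ, -, c, hc, hφ, hg⟩ := h
  symm
  rw [toM_eq_iff]
  refine ⟨Matrix.GeneralLinearGroup.mkOfDetNeZero φ hφ, Units.mk0 _ (mul_ne_zero hc hφ), ?_⟩
  rw [conj_eq_comp, ← comp_smul_left, hg]
  congr 1
  rw [Matrix.coe_units_inv]
  change c • φ.adjugate = (c * φ.det) • φ⁻¹
  rw [Matrix.inv_def, smul_smul, mul_assoc,
    Ring.mul_inverse_cancel _ (isUnit_iff_ne_zero.mpr hφ), mul_one]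

lemma mem_orb_of_toM {f g : EndSpace 1 d Ω} (h : toM g = toM f) : g ∈ orb f Set.univ := by
  obtain ⟨φ, c, rfl⟩ := toM_eq_iff_act.mp h.symm
  refine ⟨φ, Set.mem_univ _, c * (φ : Matrix (Fin 2) (Fin 2) Ω).det⁻¹,
    mul_ne_zero c.ne_zero (inv_ne_zero (GL_det_ne_zero (N := 1) φ)), GL_det_ne_zero (N := 1) φ, ?_⟩
  rw [act_coe]
  congr 1
  rw [Matrix.coe_units_inv, Matrix.inv_def, mul_smul, Ring.inverse_eq_inv']

lemma orb_univ (f : EndSpace 1 d Ω) : orb f Set.univ = toM ⁻¹' {toM f} := by
  ext g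
  exact ⟨fun h => toM_of_mem_orb h, fun h => mem_orb_of_toM h⟩

lemma orb_irreducible [Infinite Ω] (f : EndSpace 1 d Ω) {τ : Type*}
    (Φ : Matrix (Fin 2) (Fin 2) (MvPolynomial τ Ω)) (hΦ : Φ.det ≠ 0) :
    IsIrreducible (orb f {φ | ∃ t : τ → Ω, φ = Φ.map (eval t)}) := by
  set Φ' : Matrix (Fin 2) (Fin 2) (MvPolynomial (Option τ) Ω) :=
    Φ.map (rename some : MvPolynomial τ Ω →ₐ[Ω] MvPolynomial (Option τ) Ω) with hΦ'
  set c : MvPolynomial (Option τ) Ω := X none with hc
  set q : Fin 2 → Polynomial (MvPolynomial (Option τ) Ω) :=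
    dh (comp (N := 1) (c • Φ'.adjugate) (T d (fun i => (pol f i).map C)) Φ') with hq
  have hdet : Φ'.det = rename some Φ.det := by
    rw [hΦ']
    exact (AlgHom.map_det (rename some : MvPolynomial τ Ω →ₐ[Ω] MvPolynomial (Option τ) Ω) Φ).symm
  have hmapc : ∀ t : Option τ → Ω, (c • Φ'.adjugate).map (eval t) =
      t none • (Φ.map (eval (t ∘ some))).adjugate := by
    intro t
    have h1 : Φ'.adjugate.map (eval t) = (Φ'.map (eval t)).adjugate :=
      RingHom.map_adjugate (eval t) Φ'
    have h2 : Φ'.map (eval t) = Φ.map (eval (t ∘ some)) := by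
      ext i j
      simp [hΦ', eval_rename]
    ext i j
    rw [← h2, ← h1]
    simp [hc]
  have hmapΦ : ∀ t : Option τ → Ω, Φ'.map (eval t) = Φ.map (eval (t ∘ some)) := by
    intro t
    ext i j
    simp [hΦ', eval_rename]
  have hqT : ∀ t : Option τ → Ω, T d (fun i => (q i).map (eval t)) =
      comp (N := 1) (t none • (Φ.map (eval (t ∘ some))).adjugate) f.1
        (Φ.map (eval (t ∘ some))) := by
    intro t
    have h1 : (fun i => (q i).map (eval t)) = dh (comp (N := 1)
        (t none • (Φ.map (eval (t ∘ some))).adjugate) (T d (pol f))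
        (Φ.map (eval (t ∘ some)))) := by
      funext i
      rw [hq, dh_comp_T_map, hmapc, hmapΦ]
      congr 3
      funext i
      have hid : (eval t).comp (C : Ω →+* MvPolynomial (Option τ) Ω) = RingHom.id Ω := by
        ext x
        simp
      rw [Polynomial.map_map, hid, Polynomial.map_id]
    rw [h1, T_dh_comp, T_pol]
  have hevD : ∀ t : Option τ → Ω, eval t (c * Φ'.det) =
      t none * (Φ.map (eval (t ∘ some))).det := by
    intro t
    rw [map_mul, ← hmapΦ]
    congr 1
    · simp [hc]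
    · exact RingHom.map_det (eval t) Φ'
  have hgood : GoodFam d q (c * Φ'.det) := by
    refine ⟨fun i => dh_comp_natDegree _ _ _ _, mul_ne_zero (X_ne_zero _) ?_, ?_⟩
    · rw [hdet]
      intro h0
      apply hΦ
      apply rename_injective _ (Option.some_injective τ)
      rw [h0, map_zero]
    · intro t ht
      rw [hevD] at ht
      rw [hqT]
      refine f.2.comp _ _ ?_ (right_ne_zero_of_mul ht)
      rw [Matrix.det_smul, Matrix.det_adjugate]
      exact mul_ne_zero (pow_ne_zero _ (left_ne_zero_of_mul ht))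
        (pow_ne_zero _ (right_ne_zero_of_mul ht))
  have heq : orb f {φ | ∃ t : τ → Ω, φ = Φ.map (eval t)} = fam d q (c * Φ'.det) := by
    ext g
    constructor
    · rintro ⟨φ, ⟨t, rfl⟩, e, he, hdet', hg⟩
      refine ⟨fun o => o.elim e t, ?_, ?_⟩
      · rw [hevD]
        exact mul_ne_zero he hdet'
      · rw [hqT]
        exact hg
    · rintro ⟨t, ht, hg⟩
      rw [hevD] at ht
      rw [hqT] at hg
      exact ⟨_, ⟨t ∘ some, rfl⟩, t none, left_ne_zero_of_mul ht, right_ne_zero_of_mul ht, hg⟩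
  rw [heq]
  exact fam_irreducible hgood

lemma fiber_irreducible [Infinite Ω] (x : Moduli 1 d Ω) :
    IsIrreducible (toM ⁻¹' {x} : Set (EndSpace 1 d Ω)) := by
  obtain ⟨f, rfl⟩ := toM_surjective x
  rw [← orb_univ]
  have h1 := orb_irreducible f (τ := Fin 2 × Fin 2) (Matrix.of fun i j => X (i, j)) (by
    rw [Matrix.det_fin_two]
    intro h0
    have h2 := congrArg (eval (fun ij : Fin 2 × Fin 2 => if ij.1 = ij.2 then (1 : Ω) else 0)) h0
    simp at h2)
  convert h1 using 2
  symm
  rw [Set.eq_univ_iff_forall]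
  intro φ
  exact ⟨fun ij => φ ij.1 ij.2, by ext i j; simp⟩

end

/-! ## Orbits have dimension at least four -/

section

variable {d : ℕ} {Ω : Type*} [Field Ω]

lemma no_common (f : EndSpace 1 d Ω) (x : Fin 2 → Ω) (h : ∀ i, eval x (f.1 i) = 0) : x = 0 := by
  have h1 := f.2.2 (fun i => algebraMap Ω (AlgebraicClosure Ω) (x i)) (by
    intro i
    have h2 := MvPolynomial.aeval_algebraMap_apply (AlgebraicClosure Ω) x (f.1 i)
    change aeval (algebraMap Ω (AlgebraicClosure Ω) ∘ x) (f.1 i) = 0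
    rw [h2, aeval_eq_eval]
    change algebraMap Ω (AlgebraicClosure Ω) (eval x (f.1 i)) = 0
    rw [h i, map_zero])
  funext i
  have h3 := congrFun h1 i
  simpa using h3

/-- the closure of an irreducible set -/
def kcl (s : Set (EndSpace 1 d Ω)) (hs : IsIrreducible s) : IrreducibleCloseds (EndSpace 1 d Ω) :=
  ⟨closure s, hs.closure, isClosed_closure⟩

lemma kcl_lt {s s' : Set (EndSpace 1 d Ω)} {hs : IsIrreducible s} {hs' : IsIrreducible s'}
    (h : s ⊆ s') (P : MvPolynomial (Fin 2 × ℕ) Ω) (hP : ∀ g ∈ s, sub (pol g) P = 0)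
    {f : EndSpace 1 d Ω} (hf : f ∈ s') (hfP : sub (pol f) P ≠ 0) : kcl s hs < kcl s' hs' := by
  rw [lt_iff_le_not_ge]
  constructor
  · exact closure_mono h
  · intro hle
    have h1 : f ∈ closure s := hle (subset_closure hf)
    exact hfP (mem_closure_iff'.mp h1 P hP)

lemma coeff_zero_eq (f : EndSpace 1 d Ω) (i : Fin 2) :
    (pol f i).coeff 0 = eval ![0, 1] (f.1 i) := by
  rw [eval_z_one, Polynomial.coeff_zero_eq_eval_zero]

lemma eval_smul_one_zero (f : EndSpace 1 d Ω) (s : Ω) (i : Fin 2) :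
    eval ![s, 0] (f.1 i) = (pol f i).coeff d * s ^ d := by
  rw [← T_pol f, eval_T_of_eq_zero _ _ _ (by simp)]
  simp

lemma eval_of_mem_orb {f g : EndSpace 1 d Ω} {c : Ω} {φ : Matrix (Fin 2) (Fin 2) Ω}
    (hg : g.1 = comp (N := 1) (c • φ.adjugate) f.1 φ) (x : Fin 2 → Ω) (i : Fin 2) :
    eval x (g.1 i) = c * (φ.adjugate i 0 * eval (φ.mulVec x) (f.1 0) +
      φ.adjugate i 1 * eval (φ.mulVec x) (f.1 1)) := by
  rw [hg, eval_comp]
  simp only [Matrix.mulVec, dotProduct, Matrix.smul_apply, smul_eq_mul]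
  change ∑ j : Fin 2, _ = _
  rw [Fin.sum_univ_two]
  ring

/-- normal form: infinity is fixed and zero is fixed or mapped to infinity -/
lemma exists_normal [IsAlgClosed Ω] (hd : 2 ≤ d) (f : EndSpace 1 d Ω) :
    ∃ g : EndSpace 1 d Ω, toM g = toM f ∧ (pol g 1).coeff d = 0 ∧
      ∃ i, (pol g i).coeff 0 = 0 := by
  obtain ⟨g, hgf, hg⟩ := exists_fix_infty f
  have ha : (pol g 0).coeff d ≠ 0 := by
    intro h0
    have h1 := no_common g ![1, 0] (by
      intro i
      rw [eval_one_zero]
      fin_cases i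
      · exact h0
      · exact hg)
    have := congrFun h1 0
    simp at this
  obtain ⟨z, hz⟩ : ∃ z, (pol g 0).eval z - z * (pol g 1).eval z = 0 ∨ (pol g 1).eval z = 0 := by
    by_cases hG : (pol g 1).degree = 0
    · have hnd : (pol g 1).natDegree = 0 := Polynomial.natDegree_eq_of_degree_eq_some hG
      have h1 : (pol g 0 - Polynomial.X * pol g 1).degree ≠ 0 := by
        have h2 : (pol g 0 - Polynomial.X * pol g 1).coeff d ≠ 0 := by
          obtain ⟨e, rfl⟩ : ∃ e, d = e + 2 := ⟨d - 2, by omega⟩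
          rw [Polynomial.coeff_sub, Polynomial.coeff_X_mul,
            Polynomial.coeff_eq_zero_of_natDegree_lt (p := pol g 1) (n := e + 1) (by omega)]
          simpa using ha
        intro h3
        have h4 := Polynomial.le_degree_of_ne_zero h2
        rw [h3] at h4
        have h5 : d ≤ 0 := by exact_mod_cast h4
        omega
      obtain ⟨z, hz⟩ := IsAlgClosed.exists_root _ h1
      refine ⟨z, Or.inl ?_⟩
      simpa [Polynomial.IsRoot] using hz
    · obtain ⟨z, hz⟩ := IsAlgClosed.exists_root _ hG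
      exact ⟨z, Or.inr hz⟩
  have hdet : (!![1, z; 0, 1] : Matrix (Fin 2) (Fin 2) Ω).det ≠ 0 := by
    simp [Matrix.det_fin_two]
  have hval : ∀ (x : Fin 2 → Ω) (i : Fin 2), eval x ((mvE !![1, z; 0, 1] hdet g).1 i) =
      1 * ((!![1, z; 0, 1] : Matrix (Fin 2) (Fin 2) Ω).adjugate i 0 *
        eval ((!![1, z; 0, 1] : Matrix (Fin 2) (Fin 2) Ω).mulVec x) (g.1 0) +
      (!![1, z; 0, 1] : Matrix (Fin 2) (Fin 2) Ω).adjugate i 1 *
        eval ((!![1, z; 0, 1] : Matrix (Fin 2) (Fin 2) Ω).mulVec x) (g.1 1)) := by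
    intro x i
    apply eval_of_mem_orb
    rw [one_smul]
    rfl
  have hv1 : (!![1, z; 0, 1] : Matrix (Fin 2) (Fin 2) Ω).mulVec ![1, 0] = ![1, 0] := by
    ext i
    fin_cases i <;> simp [Matrix.mulVec, dotProduct, Fin.sum_univ_two]
  have hv2 : (!![1, z; 0, 1] : Matrix (Fin 2) (Fin 2) Ω).mulVec ![0, 1] = ![z, 1] := by
    ext i
    fin_cases i <;> simp [Matrix.mulVec, dotProduct, Fin.sum_univ_two]
  refine ⟨mvE !![1, z; 0, 1] hdet g, (toM_mvE _ _ _).trans hgf, ?_, ?_⟩
  · rw [← eval_one_zero, hval, hv1, eval_one_zero, eval_one_zero, hg]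
    simp [Matrix.adjugate_fin_two]
  · rcases hz with hz | hz
    · refine ⟨0, ?_⟩
      rw [coeff_zero_eq, hval, hv2, eval_z_one, eval_z_one]
      simp [Matrix.adjugate_fin_two]
      linear_combination hz
    · refine ⟨1, ?_⟩
      rw [coeff_zero_eq, hval, hv2, eval_z_one, eval_z_one, hz]
      simp [Matrix.adjugate_fin_two]

lemma exists_eval_ne [Infinite Ω] {p : Polynomial Ω} (hp : p ≠ 0) : ∃ z, p.eval z ≠ 0 := by
  by_contra hcon
  push Not at hcon
  exact hp (Polynomial.funext fun z => by rw [hcon z, Polynomial.eval_zero])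

/-- orbit closures have dimension at least four -/
lemma four_le_height [IsAlgClosed Ω] (hd : 2 ≤ d) (x : Moduli 1 d Ω)
    (hx : IsIrreducible (toM ⁻¹' {x} : Set (EndSpace 1 d Ω))) :
    4 ≤ Order.height (kcl (toM ⁻¹' {x}) hx) := by
  have hinf : Infinite Ω := IsAlgClosed.instInfinite
  obtain ⟨f', hf'⟩ := toM_surjective x
  obtain ⟨f, hff', hf1, i1, hi1⟩ := exists_normal hd f'
  obtain rfl : toM f = x := hff'.trans hf'
  clear hff' hf' f'
  -- the pieces of the orbit
  have hI1 : IsIrreducible (orb f {φ | ∃ t : Fin 0 → Ω, φ =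
      (1 : Matrix (Fin 2) (Fin 2) (MvPolynomial (Fin 0) Ω)).map (eval t)}) :=
    orb_irreducible f _ (by simp)
  have hI2 : IsIrreducible (orb f {φ | ∃ t : Fin 1 → Ω, φ =
      (!![X 0, 0; 0, 1] : Matrix (Fin 2) (Fin 2) (MvPolynomial (Fin 1) Ω)).map (eval t)}) :=
    orb_irreducible f _ (by simp [Matrix.det_fin_two])
  have hI3 : IsIrreducible (orb f {φ | ∃ t : Fin 2 → Ω, φ =
      (!![X 0, X 1; 0, 1] : Matrix (Fin 2) (Fin 2) (MvPolynomial (Fin 2) Ω)).map (eval t)}) :=
    orb_irreducible f _ (by simp [Matrix.det_fin_two])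
  set H1 : Set (Matrix (Fin 2) (Fin 2) Ω) := {φ | ∃ t : Fin 0 → Ω, φ =
      (1 : Matrix (Fin 2) (Fin 2) (MvPolynomial (Fin 0) Ω)).map (eval t)} with hH1
  set H2 : Set (Matrix (Fin 2) (Fin 2) Ω) := {φ | ∃ t : Fin 1 → Ω, φ =
      (!![X 0, 0; 0, 1] : Matrix (Fin 2) (Fin 2) (MvPolynomial (Fin 1) Ω)).map (eval t)} with hH2
  set H3 : Set (Matrix (Fin 2) (Fin 2) Ω) := {φ | ∃ t : Fin 2 → Ω, φ =
      (!![X 0, X 1; 0, 1] : Matrix (Fin 2) (Fin 2) (MvPolynomial (Fin 2) Ω)).map (eval t)} with hH3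
  have hH1' : H1 = {1} := by
    ext φ
    rw [hH1]
    constructor
    · rintro ⟨t, rfl⟩
      simp
    · rintro rfl
      exact ⟨fun _ => 0, by simp⟩
  have hH2' : H2 = {φ | ∃ s, φ = !![s, 0; 0, 1]} := by
    ext φ
    rw [hH2]
    constructor
    · rintro ⟨t, rfl⟩
      refine ⟨t 0, ?_⟩
      ext i j
      fin_cases i <;> fin_cases j <;> simp
    · rintro ⟨s, rfl⟩
      refine ⟨fun _ => s, ?_⟩
      ext i j
      fin_cases i <;> fin_cases j <;> simp
  have hH3' : H3 = {φ | ∃ s r, φ = !![s, r; 0, 1]} := by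
    ext φ
    rw [hH3]
    constructor
    · rintro ⟨t, rfl⟩
      refine ⟨t 0, t 1, ?_⟩
      ext i j
      fin_cases i <;> fin_cases j <;> simp
    · rintro ⟨s, r, rfl⟩
      refine ⟨![s, r], ?_⟩
      ext i j
      fin_cases i <;> fin_cases j <;> simp
  clear_value H1 H2 H3
  subst hH1' hH2' hH3'
  have hI0 : IsIrreducible ({f} : Set (EndSpace 1 d Ω)) := isIrreducible_singleton
  -- nonvanishing facts
  have ha : (pol f 0).coeff d ≠ 0 := by
    intro h0
    have h1 := no_common f ![1, 0] (by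
      intro i
      rw [eval_one_zero]
      fin_cases i
      · exact h0
      · exact hf1)
    have := congrFun h1 0
    simp at this
  obtain ⟨i0, hi0⟩ : ∃ i0, (pol f i0).coeff 0 ≠ 0 := by
    by_contra hcon
    push Not at hcon
    have h1 := no_common f ![0, 1] (by
      intro i
      rw [← coeff_zero_eq]
      exact hcon i)
    have := congrFun h1 1
    simp at this
  have hdF : (pol f 0).degree = d :=
    le_antisymm (Polynomial.natDegree_le_iff_degree_le.mp (pol_natDegree f 0))
      (Polynomial.le_degree_of_ne_zero ha)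
  have hG : pol f 1 ≠ 0 := by
    intro h0
    obtain ⟨z, hz⟩ := IsAlgClosed.exists_root (pol f 0) (by
      rw [hdF]
      have : d ≠ 0 := by omega
      exact_mod_cast this)
    have h1 := no_common f ![z, 1] (by
      intro i
      rw [eval_z_one]
      fin_cases i
      · exact hz
      · change (pol f 1).eval z = 0
        rw [h0, Polynomial.eval_zero])
    have := congrFun h1 1
    simp at this
  have hFG : pol f 0 - Polynomial.X * pol f 1 ≠ 0 := by
    intro h0
    rw [sub_eq_zero] at h0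
    have h1 : (pol f 1).degree ≠ 0 := by
      intro h2
      have h3 := hdF
      rw [h0, Polynomial.degree_mul, h2, Polynomial.degree_X] at h3
      have h4 : (1 : ℕ) = d := by exact_mod_cast h3
      omega
    obtain ⟨z, hz⟩ := IsAlgClosed.exists_root (pol f 1) h1
    have h1 := no_common f ![z, 1] (by
      intro i
      rw [eval_z_one]
      fin_cases i
      · change (pol f 0).eval z = 0
        rw [h0, Polynomial.eval_mul, hz, mul_zero]
      · exact hz)
    have := congrFun h1 1
    simp at this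
  -- making elements of the orbit
  have mk : ∀ (φ : Matrix (Fin 2) (Fin 2) Ω) (c : Ω), φ.det ≠ 0 → c ≠ 0 →
      ∃ g : EndSpace 1 d Ω, g.1 = comp (N := 1) (c • φ.adjugate) f.1 φ := by
    intro φ c hφ hc
    refine ⟨⟨_, f.2.comp (c • φ.adjugate) φ ?_ hφ⟩, rfl⟩
    rw [Matrix.det_smul, Matrix.det_adjugate]
    exact mul_ne_zero (pow_ne_zero _ hc) (pow_ne_zero _ hφ)
  -- coefficient computations
  have c1 : ∀ {g : EndSpace 1 d Ω} {c : Ω}, g.1 = comp (N := 1)
      (c • (1 : Matrix (Fin 2) (Fin 2) Ω).adjugate) f.1 1 → ∀ (x : Fin 2 → Ω) (i : Fin 2),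
      eval x (g.1 i) = c * eval x (f.1 i) := by
    intro g c hg x i
    rw [eval_of_mem_orb hg, Matrix.one_mulVec, Matrix.adjugate_one]
    fin_cases i
    · simp [Matrix.one_fin_two]
    · simp [Matrix.one_fin_two]
  have e2 : ∀ s : Ω, (!![s, 0; 0, 1] : Matrix (Fin 2) (Fin 2) Ω).mulVec ![0, 1] = ![0, 1] := by
    intro s
    ext i
    fin_cases i <;> simp [Matrix.mulVec, dotProduct, Fin.sum_univ_two]
  have e2' : ∀ s : Ω, (!![s, 0; 0, 1] : Matrix (Fin 2) (Fin 2) Ω).mulVec ![1, 0] = ![s, 0] := by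
    intro s
    ext i
    fin_cases i <;> simp [Matrix.mulVec, dotProduct, Fin.sum_univ_two]
  -- step 0 < 1
  have s01 : kcl {f} hI0 < kcl (orb f {1}) hI1 := by
    classical
    obtain ⟨e, he⟩ : ∃ e : Ω, e ∉ ({0, 1} : Finset Ω) := Infinite.exists_notMem_finset _
    simp only [Finset.mem_insert, Finset.mem_singleton, not_or] at he
    obtain ⟨g, hg⟩ := mk 1 e (by simp) he.1
    refine kcl_lt (f := g) ?_ (X (0, d) - C ((pol f 0).coeff d)) ?_
      ⟨1, rfl, e, he.1, by simp, hg⟩ ?_
    · rintro _ rfl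
      refine ⟨1, rfl, 1, one_ne_zero, by simp, ?_⟩
      simp
    · rintro _ rfl
      simp [sub]
    · have h1 : (pol g 0).coeff d = e * (pol f 0).coeff d := by
        rw [← eval_one_zero, c1 hg, eval_one_zero]
      simp only [sub, map_sub, aeval_X, aeval_C, h1, Algebra.algebraMap_self, RingHom.id_apply]
      intro h2
      have h3 : (e - 1) * (pol f 0).coeff d = 0 := by linear_combination h2
      rcases mul_eq_zero.mp h3 with h4 | h4
      · exact he.2 (by linear_combination h4)
      · exact ha h4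
  -- step 1 < 2
  have s12 : kcl (orb f {1}) hI1 < kcl (orb f {φ | ∃ s, φ = !![s, 0; 0, 1]}) hI2 := by
    obtain ⟨s, hs⟩ : ∃ s : Ω, ((Polynomial.X * (Polynomial.X ^ d - 1) *
        (Polynomial.X ^ d - Polynomial.X) : Polynomial Ω)).eval s ≠ 0 := by
      apply exists_eval_ne
      refine mul_ne_zero (mul_ne_zero Polynomial.X_ne_zero ?_) ?_
      · exact Polynomial.X_pow_sub_C_ne_zero (by omega) 1
      · intro h0
        have h1 := congrArg (fun p => Polynomial.coeff p d) h0
        simp only [Polynomial.coeff_sub, Polynomial.coeff_X_pow, if_true, Polynomial.coeff_X,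
          Polynomial.coeff_zero] at h1
        rw [if_neg (by omega)] at h1
        simp at h1
    simp only [Polynomial.eval_mul, Polynomial.eval_sub, Polynomial.eval_pow, Polynomial.eval_X,
      Polynomial.eval_one] at hs
    have hs0 : s ≠ 0 := left_ne_zero_of_mul (left_ne_zero_of_mul hs)
    have hs1 : s ^ d - 1 ≠ 0 := right_ne_zero_of_mul (left_ne_zero_of_mul hs)
    have hs2 : s ^ d - s ≠ 0 := right_ne_zero_of_mul hs
    have hdet : (!![s, 0; 0, 1] : Matrix (Fin 2) (Fin 2) Ω).det ≠ 0 := by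
      simpa [Matrix.det_fin_two] using hs0
    obtain ⟨g, hg⟩ := mk !![s, 0; 0, 1] 1 hdet one_ne_zero
    refine kcl_lt (f := g) ?_ (C ((pol f i0).coeff 0) * X (0, d) -
        C ((pol f 0).coeff d) * X (i0, 0)) ?_
      ⟨_, ⟨s, rfl⟩, 1, one_ne_zero, hdet, hg⟩ ?_
    · apply orb_mono
      rintro _ rfl
      exact ⟨1, by rw [Matrix.one_fin_two]⟩
    · rintro g' ⟨_, rfl, c, hc, -, hg'⟩
      have h1 : (pol g' 0).coeff d = c * (pol f 0).coeff d := by
        rw [← eval_one_zero, c1 hg', eval_one_zero]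
      have h2 : (pol g' i0).coeff 0 = c * (pol f i0).coeff 0 := by
        rw [coeff_zero_eq, c1 hg', coeff_zero_eq]
      simp only [sub, map_sub, map_mul, aeval_X, aeval_C, h1, h2, Algebra.algebraMap_self,
        RingHom.id_apply]
      ring
    · have h1 : (pol g 0).coeff d = s ^ d * (pol f 0).coeff d := by
        rw [← eval_one_zero, eval_of_mem_orb hg, e2', eval_smul_one_zero, eval_smul_one_zero, hf1]
        simp [Matrix.adjugate_fin_two]
        ring
      have h2 : (pol g i0).coeff 0 = (pol f i0).coeff 0 ∨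
          (pol g i0).coeff 0 = s * (pol f i0).coeff 0 := by
        rw [coeff_zero_eq, eval_of_mem_orb hg, e2, ← coeff_zero_eq, ← coeff_zero_eq]
        fin_cases i0
        · left
          simp [Matrix.adjugate_fin_two]
        · right
          simp [Matrix.adjugate_fin_two]
      simp only [sub, map_sub, map_mul, aeval_X, aeval_C, h1, Algebra.algebraMap_self,
        RingHom.id_apply]
      rcases h2 with h2 | h2
      · rw [h2]
        have h3 : (pol f i0).coeff 0 * (s ^ d * (pol f 0).coeff d) -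
            (pol f 0).coeff d * (pol f i0).coeff 0 =
            (s ^ d - 1) * ((pol f 0).coeff d * (pol f i0).coeff 0) := by ring
        rw [h3]
        exact mul_ne_zero hs1 (mul_ne_zero ha hi0)
      · rw [h2]
        have h3 : (pol f i0).coeff 0 * (s ^ d * (pol f 0).coeff d) -
            (pol f 0).coeff d * (s * (pol f i0).coeff 0) =
            (s ^ d - s) * ((pol f 0).coeff d * (pol f i0).coeff 0) := by ring
        rw [h3]
        exact mul_ne_zero hs2 (mul_ne_zero ha hi0)
  -- step 2 < 3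
  have s23 : kcl (orb f {φ | ∃ s, φ = !![s, 0; 0, 1]}) hI2 <
      kcl (orb f {φ | ∃ s r, φ = !![s, r; 0, 1]}) hI3 := by
    obtain ⟨z, hz1, hz2⟩ : ∃ z, (pol f 1).eval z ≠ 0 ∧
        (pol f 0).eval z - z * (pol f 1).eval z ≠ 0 := by
      obtain ⟨z, hz⟩ := exists_eval_ne (mul_ne_zero hG hFG)
      simp only [Polynomial.eval_mul, Polynomial.eval_sub, Polynomial.eval_X] at hz
      exact ⟨z, left_ne_zero_of_mul hz, right_ne_zero_of_mul hz⟩
    have hdet : (!![1, z; 0, 1] : Matrix (Fin 2) (Fin 2) Ω).det ≠ 0 := by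
      simp [Matrix.det_fin_two]
    obtain ⟨g, hg⟩ := mk !![1, z; 0, 1] 1 hdet one_ne_zero
    have hv2 : (!![1, z; 0, 1] : Matrix (Fin 2) (Fin 2) Ω).mulVec ![0, 1] = ![z, 1] := by
      ext i
      fin_cases i <;> simp [Matrix.mulVec, dotProduct, Fin.sum_univ_two]
    refine kcl_lt (f := g) ?_ (X (i1, 0)) ?_ ⟨_, ⟨1, z, rfl⟩, 1, one_ne_zero, hdet, hg⟩ ?_
    · apply orb_mono
      rintro _ ⟨s, rfl⟩
      exact ⟨s, 0, rfl⟩
    · rintro g' ⟨_, ⟨s, rfl⟩, c, hc, -, hg'⟩
      simp only [sub, aeval_X]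
      rw [coeff_zero_eq, eval_of_mem_orb hg', e2, ← coeff_zero_eq, ← coeff_zero_eq]
      fin_cases i1
      · have hi1' : (pol f 0).coeff 0 = 0 := hi1
        rw [hi1']
        simp [Matrix.adjugate_fin_two]
      · have hi1' : (pol f 1).coeff 0 = 0 := hi1
        rw [hi1']
        simp [Matrix.adjugate_fin_two]
    · simp only [sub, aeval_X]
      rw [coeff_zero_eq, eval_of_mem_orb hg, hv2, eval_z_one, eval_z_one]
      fin_cases i1
      · simp [Matrix.adjugate_fin_two]
        intro h0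
        apply hz2
        linear_combination h0
      · simpa [Matrix.adjugate_fin_two] using hz1
  -- step 3 < 4
  have s34 : kcl (orb f {φ | ∃ s r, φ = !![s, r; 0, 1]}) hI3 < kcl (toM ⁻¹' {toM f}) hx := by
    obtain ⟨z, hz⟩ := exists_eval_ne hFG
    simp only [Polynomial.eval_mul, Polynomial.eval_sub, Polynomial.eval_X] at hz
    have hdet : (!![z, 1; 1, 0] : Matrix (Fin 2) (Fin 2) Ω).det ≠ 0 := by
      simp [Matrix.det_fin_two]
    obtain ⟨g, hg⟩ := mk !![z, 1; 1, 0] 1 hdet one_ne_zero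
    have hv2 : (!![z, 1; 1, 0] : Matrix (Fin 2) (Fin 2) Ω).mulVec ![1, 0] = ![z, 1] := by
      ext i
      fin_cases i <;> simp [Matrix.mulVec, dotProduct, Fin.sum_univ_two]
    refine kcl_lt (f := g) ?_ (X (1, d)) ?_
      (toM_of_mem_orb (H := Set.univ) ⟨_, Set.mem_univ _, 1, one_ne_zero, hdet, hg⟩) ?_
    · intro g' hg'
      exact toM_of_mem_orb hg'
    · rintro g' ⟨_, ⟨s, r, rfl⟩, c, hc, -, hg'⟩
      have hv1 : (!![s, r; 0, 1] : Matrix (Fin 2) (Fin 2) Ω).mulVec ![1, 0] = ![s, 0] := by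
        ext i
        fin_cases i <;> simp [Matrix.mulVec, dotProduct, Fin.sum_univ_two]
      simp only [sub, aeval_X]
      rw [← eval_one_zero, eval_of_mem_orb hg', hv1, eval_smul_one_zero, eval_smul_one_zero, hf1]
      simp [Matrix.adjugate_fin_two]
    · simp only [sub, aeval_X]
      rw [← eval_one_zero, eval_of_mem_orb hg, hv2, eval_z_one, eval_z_one]
      simp [Matrix.adjugate_fin_two]
      intro h0
      apply hz
      linear_combination -h0
  have h1 := Order.height_add_one_le s01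
  have h2 := Order.height_add_one_le s12
  have h3 := Order.height_add_one_le s23
  have h4 := Order.height_add_one_le s34
  calc (4 : ℕ∞) = 0 + 1 + 1 + 1 + 1 := by norm_num
    _ ≤ Order.height (kcl {f} hI0) + 1 + 1 + 1 + 1 := by gcongr; exact bot_le
    _ ≤ Order.height (kcl (orb f {1}) hI1) + 1 + 1 + 1 := by gcongr
    _ ≤ Order.height (kcl (orb f {φ | ∃ s, φ = !![s, 0; 0, 1]}) hI2) + 1 + 1 := by gcongr
    _ ≤ Order.height (kcl (orb f {φ | ∃ s r, φ = !![s, r; 0, 1]}) hI3) + 1 := by gcongr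
    _ ≤ _ := h4

/-- preimage of an irreducible closed set of the moduli space -/
def preC [Infinite Ω] (Z : IrreducibleCloseds (Moduli 1 d Ω)) :
    IrreducibleCloseds (EndSpace 1 d Ω) :=
  ⟨toM ⁻¹' (Z : Set (Moduli 1 d Ω)),
    Z.isIrreducible.preimage_of_isPreirreducible_fiber toM toM_isOpenMap
      (fun x => (fiber_irreducible x).2) (by
        rw [toM_surjective.range_eq, Set.inter_univ]
        exact Z.isIrreducible.nonempty),
    Z.isClosed.preimage toM_continuous⟩

lemma preC_lt [Infinite Ω] {Z W : IrreducibleCloseds (Moduli 1 d Ω)} (h : Z < W) :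
    preC Z < preC W := by
  rw [lt_iff_le_not_ge] at h ⊢
  refine ⟨fun f hf => h.1 hf, fun hle => h.2 fun x hx => ?_⟩
  obtain ⟨f, rfl⟩ := toM_surjective x
  exact hle hx

theorem dim_Moduli_le [IsAlgClosed Ω] (hd : 2 ≤ d) :
    topologicalKrullDim (Moduli 1 d Ω) ≤ ((2 * d - 2 : ℕ) : WithBot ℕ∞) := by
  have hinf : Infinite Ω := IsAlgClosed.instInfinite
  refine iSup_le fun p => ?_
  have h1 : ∀ i : ℕ, ∀ h : i < p.length + 1,
      ((i + 4 : ℕ) : ℕ∞) ≤ Order.height (preC (p ⟨i, h⟩)) := by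
    intro i
    induction i with
    | zero =>
      intro h
      obtain ⟨x, hx⟩ := (p ⟨0, h⟩).isIrreducible.nonempty
      have h2 := four_le_height hd x (fiber_irreducible x)
      refine le_trans ?_ (h2.trans (Order.height_mono ?_))
      · norm_num
      · change closure _ ⊆ _
        refine closure_minimal ?_ (preC _).isClosed
        rintro g hg
        change toM g ∈ (p ⟨0, h⟩ : Set (Moduli 1 d Ω))
        rw [show toM g = x from hg]
        exact hx
    | succ i ih =>
      intro h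
      have h2 := ih (by omega)
      have h3 : p ⟨i, by omega⟩ < p ⟨i + 1, h⟩ := p.strictMono (by simp [Fin.lt_def])
      have h4 := Order.height_add_one_le (preC_lt h3)
      refine le_trans ?_ h4
      calc ((i + 1 + 4 : ℕ) : ℕ∞) = ((i + 4 : ℕ) : ℕ∞) + 1 := by push_cast; ring
        _ ≤ _ := by gcongr
  have h5 := h1 p.length (by omega)
  have h6 := Order.height_le_krullDim (preC (p ⟨p.length, by omega⟩))
  have h7 := h6.trans dim_End_le
  have h8 : ((p.length + 4 : ℕ) : ℕ∞) ≤ ((2 * d + 2 : ℕ) : ℕ∞) := by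
    exact h5.trans (WithBot.coe_le_coe.mp h7)
  have h9 : p.length + 4 ≤ 2 * d + 2 := by exact_mod_cast h8
  have h10 : p.length ≤ 2 * d - 2 := by omega
  exact_mod_cast h10

end

/-! ## Lower bound for the dimension: families -/

section

/-- pair of polynomials with given coefficients -/
def mkp {A : Type*} [CommRing A] (d : ℕ) (v : Fin 2 × ℕ → A) (i : Fin 2) : Polynomial A :=
  ∑ j ∈ Finset.range (d + 1), Polynomial.C (v (i, j)) * Polynomial.X ^ j

lemma mkp_coeff {A : Type*} [CommRing A] (d : ℕ) (v : Fin 2 × ℕ → A) (i : Fin 2) (j : ℕ) :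
    (mkp d v i).coeff j = if j ≤ d then v (i, j) else 0 := by
  simp only [mkp, Polynomial.finsetSum_coeff, Polynomial.coeff_C_mul, Polynomial.coeff_X_pow,
    mul_ite, mul_one, mul_zero]
  rw [Finset.sum_ite_eq]
  simp only [Finset.mem_range, Nat.lt_succ_iff]

lemma mkp_natDegree {A : Type*} [CommRing A] (d : ℕ) (v : Fin 2 × ℕ → A) (i : Fin 2) :
    (mkp d v i).natDegree ≤ d := by
  rw [Polynomial.natDegree_le_iff_coeff_eq_zero]
  intro j hj
  rw [mkp_coeff, if_neg (by omega)]

lemma mkp_map {A B : Type*} [CommRing A] [CommRing B] (g : A →+* B) (d : ℕ)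
    (v : Fin 2 × ℕ → A) (i : Fin 2) : (mkp d v i).map g = mkp d (fun ij => g (v ij)) i := by
  ext j
  rw [Polynomial.coeff_map, mkp_coeff, mkp_coeff]
  split_ifs <;> simp

lemma mkp_eq {A : Type*} [CommRing A] {d : ℕ} {p : Fin 2 → Polynomial A}
    (hp : ∀ i, (p i).natDegree ≤ d) : mkp d (fun ij => (p ij.1).coeff ij.2) = p := by
  funext i
  ext j
  rw [mkp_coeff]
  split_ifs with h
  · rfl
  · rw [Polynomial.coeff_eq_zero_of_natDegree_lt ((hp i).trans_lt (by omega))]

variable {d : ℕ} {Ω : Type*} [Field Ω]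

lemma FG_ne [IsAlgClosed Ω] (hd : 2 ≤ d) (g : EndSpace 1 d Ω) :
    pol g 0 - Polynomial.X * pol g 1 ≠ 0 := by
  intro h0
  rw [sub_eq_zero] at h0
  by_cases h1 : (pol g 1).natDegree = 0
  · have h2 := no_common g ![1, 0] (by
      intro i
      rw [eval_one_zero]
      fin_cases i
      · change (pol g 0).coeff d = 0
        obtain ⟨e, rfl⟩ : ∃ e, d = e + 1 := ⟨d - 1, by omega⟩
        rw [h0, Polynomial.coeff_X_mul]
        exact Polynomial.coeff_eq_zero_of_natDegree_lt (by omega)
      · exact Polynomial.coeff_eq_zero_of_natDegree_lt (by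
          change (pol g 1).natDegree < d
          omega))
    have := congrFun h2 0
    simp at this
  · obtain ⟨z, hz⟩ := IsAlgClosed.exists_root (pol g 1) (by
      intro h2
      exact h1 (Polynomial.natDegree_eq_of_degree_eq_some h2))
    have h2 := no_common g ![z, 1] (by
      intro i
      rw [eval_z_one]
      fin_cases i
      · change (pol g 0).eval z = 0
        rw [h0, Polynomial.eval_mul, hz, mul_zero]
      · exact hz)
    have := congrFun h2 1
    simp at this

/-- admissible sets of coefficients -/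
structure Adm (d : ℕ) (J : Finset (Fin 2 × ℕ)) : Prop where
  h0d : (0, d) ∈ J
  h10 : (1, 0) ∈ J
  h00 : (0, 0) ∉ J
  h1d : (1, d) ∉ J
  le : ∀ ij ∈ J, ij.2 ≤ d

section family

variable (d Ω) in
/-- the coefficient ring of the family -/
abbrev RJ (J : Finset (Fin 2 × ℕ)) : Type _ := MvPolynomial (Fin 2 ⊕ J) Ω

/-- coefficient variables -/
def vJ (Ω : Type*) [Field Ω] (J : Finset (Fin 2 × ℕ)) (ij : Fin 2 × ℕ) : RJ Ω J :=
  if h : ij ∈ J then X (Sum.inr ⟨ij, h⟩) else 0

/-- the matrix of the family -/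
def MJ (Ω : Type*) [Field Ω] (J : Finset (Fin 2 × ℕ)) : Matrix (Fin 2) (Fin 2) (RJ Ω J) :=
  !![X (Sum.inl 0), X (Sum.inl 1); 1, 1]

/-- the family of pairs of polynomials -/
def FJ (d : ℕ) (Ω : Type*) [Field Ω] (J : Finset (Fin 2 × ℕ)) :
    Fin 2 → Polynomial (RJ Ω J) :=
  dh (comp (N := 1) (MJ Ω J) (T d (mkp d (vJ Ω J))) (MJ Ω J).adjugate)

/-- the discriminant condition -/
def DJ (d : ℕ) (Ω : Type*) [Field Ω] (J : Finset (Fin 2 × ℕ)) : RJ Ω J :=
  (MJ Ω J).det * Polynomial.resultant (mkp d (vJ Ω J) 0) (mkp d (vJ Ω J) 1) d d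

variable {J : Finset (Fin 2 × ℕ)}

lemma eval_vJ (t : Fin 2 ⊕ J → Ω) (ij : Fin 2 × ℕ) :
    eval t (vJ Ω J ij) = if h : ij ∈ J then t (Sum.inr ⟨ij, h⟩) else 0 := by
  unfold vJ
  split_ifs <;> simp

lemma MJ_map (t : Fin 2 ⊕ J → Ω) :
    (MJ Ω J).map (eval t) = !![t (Sum.inl 0), t (Sum.inl 1); 1, 1] := by
  ext i j
  fin_cases i <;> fin_cases j <;> simp [MJ]

lemma T_FJ_map (t : Fin 2 ⊕ J → Ω) :
    T d (fun i => (FJ d Ω J i).map (eval t)) =
      comp (N := 1) !![t (Sum.inl 0), t (Sum.inl 1); 1, 1]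
        (T d (mkp d (fun ij => eval t (vJ Ω J ij))))
        (!![t (Sum.inl 0), t (Sum.inl 1); 1, 1] : Matrix (Fin 2) (Fin 2) Ω).adjugate := by
  have h1 : (MJ Ω J).adjugate.map (eval t) =
      (!![t (Sum.inl 0), t (Sum.inl 1); 1, 1] : Matrix (Fin 2) (Fin 2) Ω).adjugate := by
    rw [← MJ_map]
    exact RingHom.map_adjugate (eval t) _
  have h2 : (fun i => (FJ d Ω J i).map (eval t)) =
      dh (comp (N := 1) !![t (Sum.inl 0), t (Sum.inl 1); 1, 1]
        (T d (mkp d (fun ij => eval t (vJ Ω J ij))))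
        (!![t (Sum.inl 0), t (Sum.inl 1); 1, 1] : Matrix (Fin 2) (Fin 2) Ω).adjugate) := by
    funext i
    rw [FJ, dh_comp_T_map, MJ_map, h1]
    congr 3
    funext i
    rw [mkp_map]
  rw [h2, T_dh_comp]

lemma eval_DJ (t : Fin 2 ⊕ J → Ω) :
    eval t (DJ d Ω J) = (t (Sum.inl 0) - t (Sum.inl 1)) *
      Polynomial.resultant (mkp d (fun ij => eval t (vJ Ω J ij)) 0)
        (mkp d (fun ij => eval t (vJ Ω J ij)) 1) d d := by
  rw [DJ, map_mul]
  congr 1
  · simp [MJ, Matrix.det_fin_two]
  · rw [← Polynomial.resultant_map_map, mkp_map, mkp_map]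

lemma DJ_ne (hJ : Adm d J) : DJ d Ω J ≠ 0 := by
  classical
  intro h0
  set t : Fin 2 ⊕ J → Ω := fun s => s.elim (fun i => if i = 0 then 1 else 0)
    (fun ij => if ij.1 = (0, d) ∨ ij.1 = (1, 0) then 1 else 0) with ht
  have h1 := congrArg (eval t) h0
  rw [eval_DJ, map_zero] at h1
  have hv : ∀ ij, eval t (vJ Ω J ij) = if ij = (0, d) ∨ ij = (1, 0) then 1 else 0 := by
    intro ij
    rw [eval_vJ]
    split_ifs with h2 h3 h3
    · simp [ht, h3]
    · simp [ht, h3]
    · rcases h3 with rfl | rfl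
      · exact absurd hJ.h0d h2
      · exact absurd hJ.h10 h2
    · rfl
  have hp0 : mkp d (fun ij => eval t (vJ Ω J ij)) 0 = Polynomial.X ^ d := by
    ext j
    rw [mkp_coeff, Polynomial.coeff_X_pow]
    simp only [hv]
    by_cases hj : j = d
    · simp [hj]
    · simp [hj]
  have hp1 : mkp d (fun ij => eval t (vJ Ω J ij)) 1 = 1 := by
    ext j
    rw [mkp_coeff, Polynomial.coeff_one]
    simp only [hv]
    by_cases hj : j = 0
    · simp [hj]
    · simp [hj]
  rw [hp0, hp1, Polynomial.resultant_one_right] at h1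
  simp [ht] at h1

lemma FJ_good (hd : d ≠ 0) (hJ : Adm d J) : GoodFam d (FJ d Ω J) (DJ d Ω J) := by
  refine ⟨fun i => dh_comp_natDegree _ _ _ _, DJ_ne hJ, fun t ht => ?_⟩
  rw [T_FJ_map]
  rw [eval_DJ] at ht
  have hdet : (!![t (Sum.inl 0), t (Sum.inl 1); 1, 1] : Matrix (Fin 2) (Fin 2) Ω).det ≠ 0 := by
    rw [Matrix.det_fin_two]
    simpa using left_ne_zero_of_mul ht
  refine IsMorphism.comp ?_ _ _ hdet ?_
  · exact (isMorphism_T_iff hd (mkp_natDegree d _)).mpr (right_ne_zero_of_mul ht)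
  · rw [Matrix.det_adjugate]
    exact pow_ne_zero _ hdet

/-- the maps with coefficients supported in `J` -/
def BJ (d : ℕ) (Ω : Type*) [Field Ω] (J : Finset (Fin 2 × ℕ)) : Set (EndSpace 1 d Ω) :=
  {f | ∀ ij, ij ∉ J → (pol f ij.1).coeff ij.2 = 0}

lemma adj_adj (M : Matrix (Fin 2) (Fin 2) Ω) : M.adjugate.adjugate = M := by
  rw [Matrix.adjugate_adjugate']
  simp

lemma fam_to_BJ (hd : d ≠ 0) {g : EndSpace 1 d Ω} (hg : g ∈ fam d (FJ d Ω J) (DJ d Ω J)) :
    ∃ f ∈ BJ d Ω J, toM g = toM f := by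
  obtain ⟨t, ht, hg⟩ := hg
  rw [T_FJ_map] at hg
  rw [eval_DJ] at ht
  have hdet : (!![t (Sum.inl 0), t (Sum.inl 1); 1, 1] : Matrix (Fin 2) (Fin 2) Ω).det ≠ 0 := by
    rw [Matrix.det_fin_two]
    simpa using left_ne_zero_of_mul ht
  have hm := (isMorphism_T_iff hd (mkp_natDegree d _)).mpr (right_ne_zero_of_mul ht)
  refine ⟨⟨_, hm⟩, ?_, ?_⟩
  · intro ij hij
    have h1 : pol (⟨_, hm⟩ : EndSpace 1 d Ω) = mkp d (fun ij => eval t (vJ Ω J ij)) :=
      dh_T (mkp_natDegree d _)
    rw [h1, mkp_coeff]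
    split_ifs
    · rw [eval_vJ, dif_neg hij]
    · rfl
  · apply toM_of_mem_orb (H := Set.univ)
    refine ⟨(!![t (Sum.inl 0), t (Sum.inl 1); 1, 1] : Matrix (Fin 2) (Fin 2) Ω).adjugate,
      Set.mem_univ _, 1, one_ne_zero, ?_, ?_⟩
    · rw [Matrix.det_adjugate]
      exact pow_ne_zero _ hdet
    · rw [one_smul, adj_adj]
      exact hg

lemma BJ_to_fam (hd : d ≠ 0) {f : EndSpace 1 d Ω} (hf : f ∈ BJ d Ω J) :
    ∃ g ∈ fam d (FJ d Ω J) (DJ d Ω J), toM g = toM f := by
  set t : Fin 2 ⊕ J → Ω := fun s => s.elim (fun i => if i = 0 then 1 else 0)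
    (fun ij => (pol f ij.1.1).coeff ij.1.2) with ht
  have hv : (fun ij => eval t (vJ Ω J ij)) = fun ij => (pol f ij.1).coeff ij.2 := by
    funext ij
    rw [eval_vJ]
    split_ifs with h
    · simp [ht]
    · exact (hf ij h).symm
  have hdet : (!![t (Sum.inl 0), t (Sum.inl 1); 1, 1] : Matrix (Fin 2) (Fin 2) Ω).det ≠ 0 := by
    rw [Matrix.det_fin_two]
    simp [ht]
  have hadj : (!![t (Sum.inl 0), t (Sum.inl 1); 1, 1] : Matrix (Fin 2) (Fin 2) Ω).adjugate.det
      ≠ 0 := by
    rw [Matrix.det_adjugate]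
    exact pow_ne_zero _ hdet
  have hT : T d (mkp d (fun ij => eval t (vJ Ω J ij))) = f.1 := by
    rw [hv, mkp_eq (pol_natDegree f), T_pol]
  have hres : Polynomial.resultant (pol f 0) (pol f 1) d d ≠ 0 := by
    have := f.2
    rw [← T_pol f, isMorphism_T_iff hd (pol_natDegree f)] at this
    exact this
  refine ⟨⟨comp (N := 1) !![t (Sum.inl 0), t (Sum.inl 1); 1, 1] f.1
    (!![t (Sum.inl 0), t (Sum.inl 1); 1, 1] : Matrix (Fin 2) (Fin 2) Ω).adjugate,
    f.2.comp _ _ hdet hadj⟩, ⟨t, ?_, ?_⟩, ?_⟩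
  · rw [eval_DJ, hv, mkp_eq (pol_natDegree f)]
    exact mul_ne_zero (by simp [ht]) hres
  · rw [T_FJ_map, hT]
  · apply toM_of_mem_orb (H := Set.univ)
    exact ⟨_, Set.mem_univ _, 1, one_ne_zero, hadj, by rw [one_smul, adj_adj]⟩

lemma image_fam_eq (hd : d ≠ 0) :
    toM '' (fam d (FJ d Ω J) (DJ d Ω J)) = toM '' (BJ d Ω J) := by
  ext x
  constructor
  · rintro ⟨g, hg, rfl⟩
    obtain ⟨f, hf, h⟩ := fam_to_BJ hd hg
    exact ⟨f, hf, h.symm⟩
  · rintro ⟨f, hf, rfl⟩
    obtain ⟨g, hg, h⟩ := BJ_to_fam hd hf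
    exact ⟨g, hg, h⟩

end family

end

/-! ## Lower bound for the dimension: vanishing on orbits -/

section

variable {d : ℕ} {Ω : Type*} [Field Ω] {J : Finset (Fin 2 × ℕ)}

/-- action of diagonal matrices -/
lemma comp_diag {A : Type*} [CommRing A] (a b a' b' : A) (p : Fin 2 → Polynomial A) :
    comp (N := 1) !![a, 0; 0, b] (T d p) !![a', 0; 0, b'] =
      T d (mkp d (fun ij => (![a, b] ij.1) * (a' ^ ij.2 * b' ^ (d - ij.2)) *
        (p ij.1).coeff ij.2)) := by
  rw [← T_dh_comp]
  congr 1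
  funext i
  ext j
  rw [mkp_coeff]
  have h1 : ∀ i : Fin 2, aeval ![Polynomial.X, 1]
      (bind₁ (lin (N := 1) !![a', 0; 0, b']) (T d p i)) =
      ∑ j ∈ Finset.range (d + 1), Polynomial.C (a' ^ j * b' ^ (d - j) * (p i).coeff j) *
        Polynomial.X ^ j := by
    intro i
    rw [aeval_bind₁]
    have h2 : (fun l : Fin 2 => aeval ![Polynomial.X, (1 : Polynomial A)]
        (lin (N := 1) !![a', 0; 0, b'] l)) =
        ![Polynomial.C a' * Polynomial.X, Polynomial.C b'] := by
      funext l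
      simp only [lin]
      change aeval ![Polynomial.X, 1] (∑ m : Fin 2, _) = _
      rw [Fin.sum_univ_two]
      fin_cases l
      · simp
      · simp
    change aeval (fun l : Fin 2 => aeval ![Polynomial.X, (1 : Polynomial A)]
        (lin (N := 1) !![a', 0; 0, b'] l)) (T d p i) = _
    rw [h2]
    simp only [T, Polynomial.homogenize, map_sum, aeval_monomial]
    rw [Finset.Nat.sum_antidiagonal_eq_sum_range_succ_mk]
    refine Finset.sum_congr rfl fun j _ => ?_
    rw [Finsupp.prod_fintype _ _ (fun i => pow_zero _), Fin.prod_univ_two]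
    simp only [← Polynomial.C_eq_algebraMap]
    simp
    ring
  have h3 : dh (comp (N := 1) !![a, 0; 0, b] (T d p) !![a', 0; 0, b']) i =
      Polynomial.C (![a, b] i) * ∑ j ∈ Finset.range (d + 1),
        Polynomial.C (a' ^ j * b' ^ (d - j) * (p i).coeff j) * Polynomial.X ^ j := by
    simp only [dh, comp]
    change aeval ![Polynomial.X, 1] (∑ m : Fin 2, _) = _
    rw [Fin.sum_univ_two, map_add, map_mul, map_mul, h1, h1]
    fin_cases i
    · simp
    · simp
  rw [h3, Polynomial.coeff_C_mul]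
  simp only [Polynomial.finsetSum_coeff, Polynomial.coeff_C_mul, Polynomial.coeff_X_pow,
    mul_ite, mul_one, mul_zero]
  rw [Finset.sum_ite_eq]
  simp only [Finset.mem_range, Nat.lt_succ_iff]
  split_ifs
  · ring
  · simp

lemma sub_comp_eq_zero {P : MvPolynomial (Fin 2 × ℕ) Ω} (hP : sub (FJ d Ω J) P = 0)
    (s r : Ω) (v : Fin 2 × ℕ → Ω) (hv : ∀ ij, ij ∉ J → v ij = 0) :
    sub (dh (comp (N := 1) !![s, r; 1, 1] (T d (mkp d v))
      (!![s, r; 1, 1] : Matrix (Fin 2) (Fin 2) Ω).adjugate)) P = 0 := by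
  set t : Fin 2 ⊕ J → Ω := fun x => x.elim ![s, r] (fun ij => v ij.1) with ht
  have h1 := sub_map (aeval t : RJ Ω J →ₐ[Ω] Ω) (FJ d Ω J) P
  rw [hP, map_zero] at h1
  have h2 : (fun i => (FJ d Ω J i).map ((aeval t : RJ Ω J →ₐ[Ω] Ω) : RJ Ω J →+* Ω)) =
      dh (comp (N := 1) !![s, r; 1, 1] (T d (mkp d v))
      (!![s, r; 1, 1] : Matrix (Fin 2) (Fin 2) Ω).adjugate) := by
    have h3 := T_FJ_map (d := d) t
    have h4 : (fun ij => eval t (vJ Ω J ij)) = v := by
      funext ij
      rw [eval_vJ]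
      split_ifs with h
      · simp [ht]
      · exact (hv ij h).symm
    rw [h4] at h3
    have h5 := congrArg dh h3
    rw [dh_T (p := fun i => (FJ d Ω J i).map (eval t))
      (fun i => Polynomial.natDegree_map_le.trans (dh_comp_natDegree _ _ _ _))] at h5
    simp only [ht, Sum.elim_inl, Matrix.cons_val_zero, Matrix.cons_val_one] at h5
    exact h5
  rw [h2] at h1
  exact h1.symm

/-- a polynomial vanishing on the family vanishes on all orbits of maps supported in `J` -/
lemma vanish_on_orbits [Infinite Ω] {P : MvPolynomial (Fin 2 × ℕ) Ω}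
    (hP : sub (FJ d Ω J) P = 0) {f : EndSpace 1 d Ω} (hf : f ∈ BJ d Ω J) {g : EndSpace 1 d Ω}
    (hg : toM g = toM f) : sub (pol g) P = 0 := by
  obtain ⟨φ, -, c, hc, hφ, hgφ⟩ := mem_orb_of_toM hg
  -- the polynomial identity in the matrix entries
  have key : ∀ ψ : Matrix (Fin 2) (Fin 2) Ω,
      sub (dh (comp (N := 1) (c • ψ) f.1 ψ.adjugate)) P = 0 := by
    set G : Matrix (Fin 2) (Fin 2) (MvPolynomial (Fin 2 × Fin 2) Ω) :=
      Matrix.of fun i j => X (i, j) with hG
    set W : MvPolynomial (Fin 2 × Fin 2) Ω :=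
      sub (dh (comp (N := 1) ((C c : MvPolynomial (Fin 2 × Fin 2) Ω) • G) (T d (fun i => (pol f i).map C)) G.adjugate)) P with hW
    have hev : ∀ t : Fin 2 × Fin 2 → Ω, eval t W =
        sub (dh (comp (N := 1) (c • Matrix.of fun i j => t (i, j)) f.1
          (Matrix.of fun i j => t (i, j)).adjugate)) P := by
      intro t
      have h1 := sub_map (aeval t : MvPolynomial (Fin 2 × Fin 2) Ω →ₐ[Ω] Ω)
        (dh (comp (N := 1) ((C c : MvPolynomial (Fin 2 × Fin 2) Ω) • G) (T d (fun i => (pol f i).map C)) G.adjugate)) P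
      change eval t W = _ at h1
      rw [h1]
      congr 2
      funext i
      have hid : (eval t).comp (C : Ω →+* MvPolynomial (Fin 2 × Fin 2) Ω) = RingHom.id Ω := by
        ext x
        simp
      change Polynomial.map (eval t) _ = _
      rw [dh_comp_T_map]
      have hG1 : G.map (eval t) = Matrix.of fun i j => t (i, j) := by
        ext a b
        simp [hG]
      have hG2 : G.adjugate.map (eval t) = (Matrix.of fun i j => t (i, j)).adjugate := by
        rw [← hG1]
        exact RingHom.map_adjugate (eval t) _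
      have hG3 : ((C c : MvPolynomial (Fin 2 × Fin 2) Ω) • G).map (eval t) = c • Matrix.of fun i j => t (i, j) := by
        ext a b
        simp [hG]
      rw [hG2, hG3]
      congr 3
      have : (fun i => Polynomial.map (eval t) (Polynomial.map C (pol f i))) = pol f := by
        funext i
        rw [Polynomial.map_map, hid, Polynomial.map_id]
      rw [this, T_pol]
    have hWX : W * (X (1, 0) * X (1, 1)) = 0 := by
      apply MvPolynomial.funext
      intro t
      rw [map_mul, map_zero, map_mul, eval_X, eval_X]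
      by_cases h10 : t (1, 0) = 0
      · rw [h10]; ring
      by_cases h11 : t (1, 1) = 0
      · rw [h11]; ring
      have h2 : eval t W = 0 := by
        rw [hev]
        set s := t (0, 0) / t (1, 0) with hs
        set r := t (0, 1) / t (1, 1) with hr
        have e1 : (Matrix.of fun i j => t (i, j) : Matrix (Fin 2) (Fin 2) Ω) =
            !![s, r; 1, 1] * !![t (1, 0), 0; 0, t (1, 1)] := by
          ext a b
          fin_cases a <;> fin_cases b <;>
            simp [Matrix.mul_apply, Fin.sum_univ_two, hs, hr, h10, h11]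
        have e2 : (c • (Matrix.of fun i j => t (i, j) : Matrix (Fin 2) (Fin 2) Ω)) =
            !![s, r; 1, 1] * !![c * t (1, 0), 0; 0, c * t (1, 1)] := by
          ext a b
          fin_cases a <;> fin_cases b <;>
            simp [Matrix.mul_apply, Fin.sum_univ_two, hs, hr] <;> field_simp
        have e3 : (Matrix.of fun i j => t (i, j) : Matrix (Fin 2) (Fin 2) Ω).adjugate =
            !![t (1, 1), 0; 0, t (1, 0)] *
              (!![s, r; 1, 1] : Matrix (Fin 2) (Fin 2) Ω).adjugate := by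
          rw [e1, Matrix.adjugate_mul_distrib]
          congr 1
          simp [Matrix.adjugate_fin_two]
        rw [e2, e3, ← comp_comp, ← T_pol f, comp_diag]
        apply sub_comp_eq_zero hP
        intro ij hij
        rw [hf ij hij, mul_zero]
      rw [h2, zero_mul]
    have hW0 : W = 0 := by
      rcases mul_eq_zero.mp hWX with h | h
      · exact h
      · exact absurd h (mul_ne_zero (X_ne_zero _) (X_ne_zero _))
    intro ψ
    have h3 := hev (fun ij => ψ ij.1 ij.2)
    rw [hW0, map_zero] at h3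
    exact h3.symm
  have h1 := key φ.adjugate
  rw [adj_adj, ← hgφ] at h1
  exact h1

end

/-! ## Lower bound for the dimension: transcendence degrees -/

section

variable {d : ℕ} {Ω : Type*} [Field Ω] {J : Finset (Fin 2 × ℕ)}

lemma eval_dh {A : Type*} [CommRing A] (f : Tuple 1 A) (z : A) (i : Fin 2) :
    (dh f i).eval z = eval ![z, 1] (f i) := by
  simp only [dh]
  have h1 := MvPolynomial.map_aeval (![Polynomial.X, 1] : Fin 2 → Polynomial A)
    (Polynomial.evalRingHom z) (f i)
  rw [Polynomial.coe_evalRingHom] at h1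
  rw [h1]
  have h2 : (Polynomial.evalRingHom z).comp (algebraMap A (Polynomial A)) = RingHom.id A := by
    ext x
    simp
  rw [h2]
  have h3 : (fun i => Polynomial.eval z ((![Polynomial.X, 1] : Fin 2 → Polynomial A) i)) =
      ![z, 1] := by
    funext i
    fin_cases i <;> simp
  rw [h3]
  rfl

lemma eval_T_zero_left {A : Type*} [CommRing A] (p : Fin 2 → Polynomial A) (i : Fin 2)
    (w : A) : eval ![0, w] (T d p i) = (p i).coeff 0 * w ^ d := by
  simp only [T, Polynomial.homogenize, eval_sum]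
  rw [Finset.sum_eq_single (0, d)]
  · rw [eval_monomial, Finsupp.prod_fintype _ _ (fun i => pow_zero _)]
    simp
  · rintro ⟨a, b⟩ hab hne
    have hb : a ≠ 0 := by
      rintro rfl
      apply hne
      simpa using hab
    rw [eval_monomial, Finsupp.prod_fintype _ _ (fun i => pow_zero _)]
    simp [hb]
  · simp

/-- the image ring of the family -/
abbrev RR (d : ℕ) (Ω : Type*) [Field Ω] (J : Finset (Fin 2 × ℕ)) : Subalgebra Ω (RJ Ω J) :=
  (sub (FJ d Ω J) : MvPolynomial (Fin 2 × ℕ) Ω →ₐ[Ω] RJ Ω J).range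

lemma coeff_mem_RR (i : Fin 2) (j : ℕ) : (FJ d Ω J i).coeff j ∈ RR d Ω J :=
  ⟨X (i, j), by simp [sub]⟩

/-- the algebraic closure of the image ring in the parameter ring -/
abbrev SS (d : ℕ) (Ω : Type*) [Field Ω] (J : Finset (Fin 2 × ℕ)) :
    Subalgebra (RR d Ω J) (RJ Ω J) :=
  Subalgebra.algebraicClosure (RR d Ω J) (RJ Ω J)

lemma RR_le_SS {a : RJ Ω J} (ha : a ∈ RR d Ω J) : a ∈ SS d Ω J :=
  (SS d Ω J).algebraMap_mem ⟨a, ha⟩

lemma MJ_adj : (MJ Ω J).adjugate = !![1, -X (Sum.inl 1); -1, X (Sum.inl 0)] := by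
  rw [MJ, Matrix.adjugate_fin_two]
  simp

lemma coeff_mkp_vJ (hJ : Adm d J) (ij : Fin 2 × ℕ) :
    (mkp d (vJ Ω J) ij.1).coeff ij.2 = vJ Ω J ij := by
  rw [mkp_coeff]
  split_ifs with h
  · rfl
  · unfold vJ
    rw [dif_neg]
    intro h2
    exact h (hJ.le _ h2)

/-- the fixed point polynomial -/
def hpol (d : ℕ) (Ω : Type*) [Field Ω] (J : Finset (Fin 2 × ℕ)) : Polynomial (RJ Ω J) :=
  FJ d Ω J 0 - Polynomial.X * FJ d Ω J 1

lemma hpol_root0 (hJ : Adm d J) : (hpol d Ω J).eval (X (Sum.inl 0)) = 0 := by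
  have h1 : (MJ Ω J).adjugate.mulVec ![X (Sum.inl 0), 1] =
      ![X (Sum.inl 0) - X (Sum.inl 1), 0] := by
    rw [MJ_adj]
    ext i
    fin_cases i
    · simp [Matrix.mulVec, dotProduct, Fin.sum_univ_two]
      ring
    · simp [Matrix.mulVec, dotProduct, Fin.sum_univ_two]
  have h2 : ∀ i, (FJ d Ω J i).eval (X (Sum.inl 0)) =
      MJ Ω J i 0 * (vJ Ω J (0, d) * (X (Sum.inl 0) - X (Sum.inl 1)) ^ d) := by
    intro i
    rw [FJ, eval_dh, eval_comp]
    simp only [Matrix.mulVec, dotProduct]
    change ∑ j : Fin 2, _ = _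
    rw [Fin.sum_univ_two]
    change MJ Ω J i 0 * eval ((MJ Ω J).adjugate.mulVec ![X (Sum.inl 0), 1]) _ +
      MJ Ω J i 1 * eval ((MJ Ω J).adjugate.mulVec ![X (Sum.inl 0), 1]) _ = _
    rw [h1, eval_T_of_eq_zero _ _ _ (by simp), eval_T_of_eq_zero _ _ _ (by simp)]
    have h3 := coeff_mkp_vJ (Ω := Ω) hJ (0, d)
    have h4 := coeff_mkp_vJ (Ω := Ω) hJ (1, d)
    have h5 : vJ Ω J (1, d) = 0 := by
      unfold vJ
      rw [dif_neg hJ.h1d]
    simp only at h3 h4
    rw [h3, h4, h5]
    simp
  rw [hpol, Polynomial.eval_sub, Polynomial.eval_mul, Polynomial.eval_X, h2, h2]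
  simp [MJ]

lemma hpol_root1 (hJ : Adm d J) : (hpol d Ω J).eval (X (Sum.inl 1)) = 0 := by
  have h1 : (MJ Ω J).adjugate.mulVec ![X (Sum.inl 1), 1] =
      ![0, X (Sum.inl 0) - X (Sum.inl 1)] := by
    rw [MJ_adj]
    ext i
    fin_cases i
    · simp [Matrix.mulVec, dotProduct, Fin.sum_univ_two]
    · simp [Matrix.mulVec, dotProduct, Fin.sum_univ_two]
      ring
  have h2 : ∀ i, (FJ d Ω J i).eval (X (Sum.inl 1)) =
      MJ Ω J i 1 * (vJ Ω J (1, 0) * (X (Sum.inl 0) - X (Sum.inl 1)) ^ d) := by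
    intro i
    rw [FJ, eval_dh, eval_comp]
    simp only [Matrix.mulVec, dotProduct]
    change ∑ j : Fin 2, _ = _
    rw [Fin.sum_univ_two]
    change MJ Ω J i 0 * eval ((MJ Ω J).adjugate.mulVec ![X (Sum.inl 1), 1]) _ +
      MJ Ω J i 1 * eval ((MJ Ω J).adjugate.mulVec ![X (Sum.inl 1), 1]) _ = _
    rw [h1, eval_T_zero_left, eval_T_zero_left]
    have h3 := coeff_mkp_vJ (Ω := Ω) hJ (0, 0)
    have h4 := coeff_mkp_vJ (Ω := Ω) hJ (1, 0)
    have h5 : vJ Ω J (0, 0) = 0 := by
      unfold vJ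
      rw [dif_neg hJ.h00]
    simp only at h3 h4
    rw [h3, h4, h5]
    simp
  rw [hpol, Polynomial.eval_sub, Polynomial.eval_mul, Polynomial.eval_X, h2, h2]
  simp [MJ]

lemma hpol_ne [IsAlgClosed Ω] (hd : 2 ≤ d) (hJ : Adm d J) : hpol d Ω J ≠ 0 := by
  have hinf : Infinite Ω := IsAlgClosed.instInfinite
  have hg := FJ_good (Ω := Ω) (d := d) (by omega) hJ
  obtain ⟨t, ht⟩ : ∃ t, eval t (DJ d Ω J) ≠ 0 := by
    by_contra hcon
    push Not at hcon
    exact hg.ne (MvPolynomial.funext fun t => by rw [hcon t, map_zero])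
  intro h0
  have h1 := FG_ne hd (⟨_, hg.mor t ht⟩ : EndSpace 1 d Ω)
  apply h1
  rw [fam_pol hg (f := ⟨_, hg.mor t ht⟩) (t := t) rfl]
  have h2 := congrArg (Polynomial.map (eval t)) h0
  rw [hpol, Polynomial.map_sub, Polynomial.map_mul, Polynomial.map_X, Polynomial.map_zero] at h2
  exact h2

lemma isAlgebraic_of_root [IsAlgClosed Ω] (hd : 2 ≤ d) (hJ : Adm d J) {z : RJ Ω J}
    (hz : (hpol d Ω J).eval z = 0) : IsAlgebraic (RR d Ω J) z := by
  -- lift the polynomial to the image ring
  have h1 : hpol d Ω J ∈ Polynomial.lifts (algebraMap (RR d Ω J) (RJ Ω J)) := by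
    rw [Polynomial.lifts_iff_coeff_lifts]
    intro n
    rw [hpol, Polynomial.coeff_sub]
    refine ⟨⟨_, (RR d Ω J).sub_mem (coeff_mem_RR 0 n) (?_ : (Polynomial.X *
      FJ d Ω J 1).coeff n ∈ RR d Ω J)⟩, rfl⟩
    rcases n with _ | n
    · rw [Polynomial.coeff_X_mul_zero]
      exact (RR d Ω J).zero_mem
    · rw [Polynomial.coeff_X_mul]
      exact coeff_mem_RR 1 n
  obtain ⟨g, hg⟩ := h1
  rw [Polynomial.coe_mapRingHom] at hg
  refine ⟨g, ?_, ?_⟩
  · rintro rfl
    rw [Polynomial.map_zero] at hg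
    exact hpol_ne hd hJ hg.symm
  · rw [Polynomial.aeval_def, ← Polynomial.eval_map, hg, hz]

lemma comp_mem_subring {A : Type*} [CommRing A] (B : Subring A) (M : Matrix (Fin 2) (Fin 2) A)
    (hM : ∀ i j, M i j ∈ B) (F : Fin 2 → Polynomial A) (hF : ∀ i j, (F i).coeff j ∈ B)
    (hdeg : ∀ i, (F i).natDegree ≤ d) (i : Fin 2) (m : Fin 2 →₀ ℕ) :
    coeff m (comp (N := 1) M.adjugate (T d F) M i) ∈ B := by
  set MS : Matrix (Fin 2) (Fin 2) B := Matrix.of fun i j => ⟨M i j, hM i j⟩ with hMS
  set FS : Fin 2 → Polynomial B :=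
    mkp d (fun ij => (⟨(F ij.1).coeff ij.2, hF ij.1 ij.2⟩ : B)) with hFS
  have hMSmap : MS.map B.subtype = M := by
    ext i j
    simp [hMS]
  have hFSmap : (fun i => (FS i).map B.subtype) = F := by
    funext i
    rw [hFS, mkp_map]
    exact congrFun (mkp_eq hdeg) i
  have hadj : MS.adjugate.map B.subtype = M.adjugate := by
    rw [← hMSmap]
    exact RingHom.map_adjugate _ _
  have h1 := congrFun (mapT_comp (N := 1) B.subtype MS.adjugate (T d FS) MS) i
  rw [mapT_T, hFSmap, hadj, hMSmap] at h1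
  rw [← h1]
  simp only [mapT, coeff_map]
  exact Subtype.mem _

lemma isAlgebraic_RR [IsAlgClosed Ω] (hd : 2 ≤ d) (hJ : Adm d J) :
    Algebra.IsAlgebraic (RR d Ω J) (RJ Ω J) := by
  have hs : X (Sum.inl 0) ∈ SS d Ω J := isAlgebraic_of_root hd hJ (hpol_root0 hJ)
  have hr : X (Sum.inl 1) ∈ SS d Ω J := isAlgebraic_of_root hd hJ (hpol_root1 hJ)
  set δ : RJ Ω J := X (Sum.inl 0) - X (Sum.inl 1) with hδ
  have hδS : δ ∈ SS d Ω J := (SS d Ω J).sub_mem hs hr
  have hδ0 : δ ≠ 0 := by
    intro h0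
    have h1 := congrArg (eval (fun x : Fin 2 ⊕ J => x.elim (fun i => if i = 0 then (1 : Ω) else 0)
      (fun _ => 0))) h0
    simp [hδ] at h1
  have hdet : (MJ Ω J).det = δ := by
    simp [MJ, Matrix.det_fin_two, hδ]
  have hcomp : comp (N := 1) (MJ Ω J).adjugate (T d (FJ d Ω J)) (MJ Ω J) =
      fun i => C (δ * δ ^ d) * T d (mkp d (vJ Ω J)) i := by
    have h1 : T d (FJ d Ω J) = comp (N := 1) (MJ Ω J) (T d (mkp d (vJ Ω J)))
        (MJ Ω J).adjugate := by
      rw [FJ, T_dh_comp]
    rw [h1, comp_comp, Matrix.adjugate_mul, hdet, comp_smul_left]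
    funext i
    rw [comp_smul_right (T_isHomogeneous d _), comp_one_one, ← mul_assoc, ← C_mul]
  have hMmem : ∀ i j, MJ Ω J i j ∈ (SS d Ω J).toSubring := by
    intro i j
    fin_cases i <;> fin_cases j
    · simpa [MJ] using hs
    · simpa [MJ] using hr
    · simp [MJ]
    · simp [MJ]
  have hmem : ∀ ij : Fin 2 × ℕ, ij ∈ J → δ * δ ^ d * vJ Ω J ij ∈ SS d Ω J := by
    intro ij hij
    have h1 := comp_mem_subring (d := d) (SS d Ω J).toSubring (MJ Ω J) hMmem (FJ d Ω J)
      (fun i j => RR_le_SS (coeff_mem_RR i j)) (fun i => dh_comp_natDegree _ _ _ _) ij.1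
      (Finsupp.single 0 ij.2 + Finsupp.single 1 (d - ij.2))
    rw [hcomp] at h1
    rw [coeff_C_mul, coeff_T, if_pos (by simp [hJ.le ij hij])] at h1
    have h3 : (mkp d (vJ Ω J) ij.1).coeff
        ((Finsupp.single 0 ij.2 + Finsupp.single 1 (d - ij.2) : Fin 2 →₀ ℕ) 0) =
        vJ Ω J ij := by
      rw [← coeff_mkp_vJ hJ ij]
      simp
    rw [h3] at h1
    exact h1
  have hvar : ∀ x : Fin 2 ⊕ J, X x ∈ SS d Ω J := by
    rintro (i | ⟨ij, hij⟩)
    · fin_cases i
      · exact hs
      · exact hr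
    · have h1 := hmem ij hij
      have h2 : vJ Ω J ij = X (Sum.inr ⟨ij, hij⟩) := by
        unfold vJ
        rw [dif_pos hij]
      rw [h2] at h1
      refine IsAlgebraic.of_mul (y := δ * δ ^ d) ?_ ?_ h1
      · exact mem_nonZeroDivisors_of_ne_zero (mul_ne_zero hδ0 (pow_ne_zero _ hδ0))
      · exact (SS d Ω J).mul_mem hδS ((SS d Ω J).pow_mem hδS d)
  refine ⟨fun a => ?_⟩
  change a ∈ SS d Ω J
  induction a using MvPolynomial.induction_on with
  | C c =>
    apply RR_le_SS
    exact (RR d Ω J).algebraMap_mem c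
  | add p q hp hq => exact (SS d Ω J).add_mem hp hq
  | mul_X p x hp => exact (SS d Ω J).mul_mem hp (hvar x)

lemma trdeg_RR [IsAlgClosed Ω] (hd : 2 ≤ d) (hJ : Adm d J) :
    Algebra.trdeg Ω (RR d Ω J) = Algebra.trdeg Ω (RJ Ω J) := by
  have f1 : FaithfulSMul Ω (RR d Ω J) := by
    rw [faithfulSMul_iff_algebraMap_injective]
    exact (algebraMap Ω (RR d Ω J)).injective
  have f2 : FaithfulSMul (RR d Ω J) (RJ Ω J) := by
    rw [faithfulSMul_iff_algebraMap_injective]
    exact Subtype.val_injective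
  have h1 := trdeg_add_eq Ω (RR d Ω J) (A := RJ Ω J)
  have h2 : Algebra.IsAlgebraic (RR d Ω J) (RJ Ω J) := isAlgebraic_RR hd hJ
  rw [trdeg_eq_zero (R := RR d Ω J) (A := RJ Ω J), add_zero] at h1
  exact h1

lemma exists_separating [IsAlgClosed Ω] (hd : 2 ≤ d) {J J' : Finset (Fin 2 × ℕ)}
    (hJ' : Adm d J') (hcard : J.card < J'.card) :
    ∃ P : MvPolynomial (Fin 2 × ℕ) Ω, sub (FJ d Ω J) P = 0 ∧ sub (FJ d Ω J') P ≠ 0 := by
  by_contra hcon
  push Not at hcon
  set Q := MvPolynomial (Fin 2 × ℕ) Ω ⧸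
    RingHom.ker (sub (FJ d Ω J) : MvPolynomial (Fin 2 × ℕ) Ω →ₐ[Ω] RJ Ω J) with hQ
  have h1 : Algebra.trdeg Ω Q ≤ Algebra.trdeg Ω (RJ Ω J) :=
    trdeg_le_of_injective (Ideal.kerLiftAlg _) (Ideal.kerLiftAlg_injective _)
  have h2 : Algebra.trdeg Ω (RR d Ω J') ≤ Algebra.trdeg Ω Q := by
    refine trdeg_le_of_surjective (Ideal.Quotient.liftₐ _
      (sub (FJ d Ω J') : MvPolynomial (Fin 2 × ℕ) Ω →ₐ[Ω] RJ Ω J').rangeRestrict ?_) ?_
    · intro P hP
      apply Subtype.ext
      exact hcon P hP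
    · apply Ideal.Quotient.lift_surjective_of_surjective
      exact AlgHom.rangeRestrict_surjective _
  rw [trdeg_RR hd hJ'] at h2
  have h3 := h2.trans h1
  rw [MvPolynomial.trdeg_of_isDomain, MvPolynomial.trdeg_of_isDomain, Cardinal.lift_le,
    Cardinal.mk_fintype, Cardinal.mk_fintype, Nat.cast_le] at h3
  simp only [Fintype.card_sum, Fintype.card_fin, Fintype.card_coe] at h3
  omega

/-- the irreducible closed subset of the moduli space attached to `J` -/
def CJ [Infinite Ω] (hd : d ≠ 0) (hJ : Adm d J) : IrreducibleCloseds (Moduli 1 d Ω) :=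
  ⟨closure (toM '' (fam d (FJ d Ω J) (DJ d Ω J))),
    ((fam_irreducible (FJ_good hd hJ)).image _ toM_continuous.continuousOn).closure,
    isClosed_closure⟩

lemma CJ_lt [IsAlgClosed Ω] [Infinite Ω] (hd : 2 ≤ d) (hd' : d ≠ 0) {J J' : Finset (Fin 2 × ℕ)}
    (hJ : Adm d J) (hJ' : Adm d J') (hlt : J ⊂ J') :
    (CJ hd' hJ : IrreducibleCloseds (Moduli 1 d Ω)) < CJ hd' hJ' := by
  rw [lt_iff_le_not_ge]
  constructor
  · change closure _ ⊆ closure _
    rw [image_fam_eq hd', image_fam_eq hd']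
    apply closure_mono
    apply Set.image_mono
    intro f hf ij hij
    exact hf ij (fun h => hij (hlt.subset h))
  · intro hle
    obtain ⟨P, hP, hP'⟩ := exists_separating (Ω := Ω) hd hJ' (Finset.card_lt_card hlt)
    apply hP'
    rw [← fam_vanish (FJ_good hd' hJ')]
    intro g hg
    have h1 : toM g ∈ closure (toM '' (fam d (FJ d Ω J) (DJ d Ω J))) :=
      hle (subset_closure ⟨g, hg, rfl⟩)
    rw [image_fam_eq hd'] at h1
    have h2 : g ∈ closure (toM ⁻¹' (toM '' (BJ d Ω J))) := by
      rw [← toM_isOpenMap.preimage_closure_eq_closure_preimage toM_continuous]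
      exact h1
    refine mem_closure_iff'.mp h2 P ?_
    rintro b ⟨f, hf, hbf⟩
    exact vanish_on_orbits hP hf hbf.symm

/-- a maximal chain of admissible sets -/
def chain (d k : ℕ) : Finset (Fin 2 × ℕ) :=
  (Finset.univ ×ˢ Finset.range (d + 1)).filter (fun ij =>
    ij = (0, d) ∨ ij = (1, 0) ∨
      (1 ≤ ij.2 ∧ ij.2 < d ∧ (ij.1 : ℕ) * (d - 1) + (ij.2 - 1) < k))

lemma chain_adm (hd : 2 ≤ d) (k : ℕ) : Adm d (chain d k) := by
  constructor
  · simp [chain]
  · simp [chain]
  · simp [chain]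
    omega
  · simp [chain]
    omega
  · rintro ⟨i, j⟩ h
    simp only [chain, Finset.mem_filter, Finset.mem_product, Finset.mem_range] at h
    have := h.1.2
    simp only
    omega

lemma chain_lt (hd : 2 ≤ d) {k l : ℕ} (hkl : k < l) (hl : l ≤ 2 * d - 2) :
    chain d k ⊂ chain d l := by
  rw [Finset.ssubset_iff_of_subset]
  · by_cases hk : k < d - 1
    · refine ⟨(0, k + 1), ?_, ?_⟩
      · simp only [chain, Finset.mem_filter, Finset.mem_product, Finset.mem_range,
          Finset.mem_univ, true_and]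
        refine ⟨by omega, Or.inr (Or.inr ⟨by omega, by omega, ?_⟩)⟩
        simp
        omega
      · simp only [chain, Finset.mem_filter, Finset.mem_product, Finset.mem_range,
          Finset.mem_univ, true_and, not_and, not_or]
        intro _
        refine ⟨?_, ?_, ?_⟩
        · simp
          omega
        · simp
        · simp
    · refine ⟨(1, k - (d - 1) + 1), ?_, ?_⟩
      · simp only [chain, Finset.mem_filter, Finset.mem_product, Finset.mem_range,
          Finset.mem_univ, true_and]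
        refine ⟨by omega, Or.inr (Or.inr ⟨by omega, by omega, ?_⟩)⟩
        simp
        omega
      · simp only [chain, Finset.mem_filter, Finset.mem_product, Finset.mem_range,
          Finset.mem_univ, true_and, not_and, not_or]
        intro _
        refine ⟨?_, ?_, ?_⟩
        · simp
        · simp
        · simp
          omega
  · intro ij h
    simp only [chain, Finset.mem_filter] at h ⊢
    refine ⟨h.1, ?_⟩
    rcases h.2 with h | h | ⟨h1, h2, h3⟩
    · exact Or.inl h
    · exact Or.inr (Or.inl h)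
    · exact Or.inr (Or.inr ⟨h1, h2, by omega⟩)

theorem le_dim_Moduli [IsAlgClosed Ω] (hd : 2 ≤ d) :
    ((2 * d - 2 : ℕ) : WithBot ℕ∞) ≤ topologicalKrullDim (Moduli 1 d Ω) := by
  have hinf : Infinite Ω := IsAlgClosed.instInfinite
  have hd' : d ≠ 0 := by omega
  let p : LTSeries (IrreducibleCloseds (Moduli 1 d Ω)) :=
    LTSeries.mk (2 * d - 2) (fun k => CJ hd' (chain_adm hd k)) (by
      intro k l hkl
      exact CJ_lt hd hd' _ _ (chain_lt hd hkl (by omega)))
  exact Order.LTSeries.length_le_krullDim p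

theorem dim_Moduli [IsAlgClosed Ω] (hd : 2 ≤ d) :
    topologicalKrullDim (Moduli 1 d Ω) = ((2 * d - 2 : ℕ) : WithBot ℕ∞) :=
  le_antisymm (dim_Moduli_le hd) (le_dim_Moduli hd)

/-- **Main theorem**: the Shafarevich dimension of `P^1` in degree `d` is `2 d - 2`. -/
theorem main (d : ℕ) (hd : 2 ≤ d) : shafarevichDim 1 d = ((2 * d - 2 : ℕ) : WithBot ℕ∞) := by
  apply le_antisymm
  · refine iSup_le fun K => iSup_le fun _ => iSup_le fun _ => iSup_le fun S => iSup_le fun _ => ?_
    exact (topologicalKrullDim_subspace_le _ _).trans (dim_Moduli_le hd)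
  · refine le_trans ?_ (le_iSup_of_le ℚ (le_iSup_of_le inferInstance (le_iSup_of_le inferInstance
      (le_iSup_of_le (S2 ℚ) (le_iSup_of_le (S2_finite ℚ) le_rfl)))))
    rw [closure_goodSet (by omega)]
    refine (le_dim_Moduli (Ω := AlgebraicClosure ℚ) hd).trans ?_
    exact (IsHomeomorph.topologicalKrullDim_eq _
      (Homeomorph.Set.univ (Moduli 1 d (AlgebraicClosure ℚ))).isHomeomorph).ge

end

end

end Pool.Agent.Results.MP_d071c2_nt.ShafDim
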