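import Mathlib
set_option autoImplicit false
set_option maxHeartbeats 4000000
namespace Pool.Agent.OD
/-- The polynomial identity: three matrices X, V and X^-1 V satisfying the orthogonality equations. -/
theorem polyL1 (a0 a1 a2 b0 b1 b2 c0 c1 c2 d0 d1 d2 A0 A1 A2 B0 B1 B2 C0 C1 C2 D0 D1 D2 : ℂ)
    (hf1 : a0*d1 + a1*d2 + a2*d0 = 0)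
    (hf2 : a1*d0 + a2*d1 + a0*d2 = 0)
    (hf3 : b0*c1 + b1*c2 + b2*c0 = 0)
    (hf4 : b1*c0 + b2*c1 + b0*c2 = 0)
    (hg1 : A0*D1 + A1*D2 + A2*D0 = 0)
    (hg2 : A1*D0 + A2*D1 + A0*D2 = 0)
    (hg3 : B0*C1 + B1*C2 + B2*C0 = 0)
    (hg4 : B1*C0 + B2*C1 + B0*C2 = 0)
    (hh1 : (d0*A0 - b0*C0)*(a1*D1 - c1*B1) + (d1*A1 - b1*C1)*(a2*D2 - c2*B2) + (d2*A2 - b2*C2)*(a0*D0 - c0*B0) = 0)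
    (hh2 : (d1*A1 - b1*C1)*(a0*D0 - c0*B0) + (d2*A2 - b2*C2)*(a1*D1 - c1*B1) + (d0*A0 - b0*C0)*(a2*D2 - c2*B2) = 0)
    (hh3 : (d0*B0 - b0*D0)*(a1*C1 - c1*A1) + (d1*B1 - b1*D1)*(a2*C2 - c2*A2) + (d2*B2 - b2*D2)*(a0*C0 - c0*A0) = 0)
    (hh4 : (d1*B1 - b1*D1)*(a0*C0 - c0*A0) + (d2*B2 - b2*D2)*(a1*C1 - c1*A1) + (d0*B0 - b0*D0)*(a2*C2 - c2*A2) = 0)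
    (he0 : a0*d0 - b0*c0 = 1)
    (he1 : a1*d1 - b1*c1 = 1)
    (he2 : a2*d2 - b2*c2 = 1)
    (hE0 : A0*D0 - B0*C0 = 1)
    (hE1 : A1*D1 - B1*C1 = 1)
    (hE2 : A2*D2 - B2*C2 = 1) :
    (b0*c0*(B1*C1) - b1*c1*(B0*C0)) + (b1*c1*(B2*C2) - b2*c2*(B1*C1)) + (b2*c2*(B0*C0) - b0*c0*(B2*C2)) = 0 := by
  linear_combination ((-1/6)*(c2*d1*A2*B2 + c0*d2*A0*B0 + c1*d0*A1*B1 + c2*d1*A2*B0*B1*C2 + c0*d2*A0*B1*B2*C0 + c1*d0*A1*B0*B2*C1 + b2*c0*A1*B2*C1*D0 + b0*c1*A2*B0*C2*D1 + b1*c2*A0*B1*C0*D2 + a2*d1*B1*C1 + a0*d2*B2*C2 + a1*d0*B0*C0 + a2*d1*B1^2*C0*C2 + a0*d2*B2^2*C0*C1 + a1*d0*B0^2*C1*C2 + a2*d1*A0*A1*D2^2 + a0*d2*A1*A2*D0^2 + a1*d0*A0*A2*D1^2 + a2*b1*A1*C1*D0*D2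 + a0*b2*A2*C2*D0*D1 + a1*b0*A0*C0*D1*D2) + (1/6)*(c2*d1*A0*A1*B2*D2 + c0*d2*A1*A2*B0*D0 + c1*d0*A0*A2*B1*D1 + b2*c0*A2*B1*C0*D1 + b0*c1*A0*B2*C1*D2 + b1*c2*A1*B0*C2*D0 + a2*d1*B2*C2 + a0*d2*B0*C0 + a1*d0*B1*C1 + a2*d1*B0*B1*C2^2 + a0*d2*B1*B2*C0^2 + a1*d0*B0*B2*C1^2 + a2*d1*A1^2*D0*D2 + a0*d2*A2^2*D0*D1 + a1*d0*A0^2*D1*D2 + a2*b1*C1*D1 + a0*b2*C2*D2 + a1*b0*C0*D0 + a2*b1*B1*C0*C2*D1 + a0*b2*B2*C0*C1*D2 + a1*b0*B0*C1*C2*D0))*hf1 + ((1/6)*(c2*d0*A2*B2 + c0*d1*A0*B0 + c1*d2*A1*B1 + c2*d0*A2*B0*B1*C2 + c0*d1*A0*B1*B2*C0 + c1*d2*A1*B0*B2*C1 + a2*d0*B0*C0 + a0*d1*B1*C1 + a1*d2*B2*C2 + a2*d0*B0^2*C1*C2 + a0*d1*B1^2*C0*C2 + a1*d2*B2^2*C0*C1 + a2*d0*A0*A1*D2^2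 + a0*d1*A1*A2*D0^2 + a1*d2*A0*A2*D1^2 + a2*b0*A0*C0*D1*D2 + a0*b1*A1*C1*D0*D2 + a1*b2*A2*C2*D0*D1) + (-1/6)*(c2*d0*A0*A1*B2*D2 + c0*d1*A1*A2*B0*D0 + c1*d2*A0*A2*B1*D1 + a2*d0*B2*C2 + a0*d1*B0*C0 + a1*d2*B1*C1 + a2*d0*B0*B1*C2^2 + a0*d1*B1*B2*C0^2 + a1*d2*B0*B2*C1^2 + a2*d0*A0^2*D1*D2 + a0*d1*A1^2*D0*D2 + a1*d2*A2^2*D0*D1 + a2*b0*C0*D0 + a0*b1*C1*D1 + a1*b2*C2*D2 + a2*b0*B0*C1*C2*D0 + a0*b1*B1*C0*C2*D1 + a1*b2*B2*C0*C1*D2))*hf2 + ((-1/6)*(c2*d0*A1*A2*B0*D0 + c0*d1*A0*A2*B1*D1 + c1*d2*A0*A1*B2*D2 + b2*c1*B2*C2 + b0*c2*B0*C0 + b1*c0*B1*C1 + b2*c1*B0*B1*C2^2 + b0*c2*B1*B2*C0^2 + b1*c0*B0*B2*C1^2 + b2*c1*A1^2*D0*D2 + b0*c2*A2^2*D0*D1 + b1*c0*A0^2*D1*D2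 + a2*d0*A2*B1*C0*D1 + a0*d1*A0*B2*C1*D2 + a1*d2*A1*B0*C2*D0 + a2*b0*C2*D2 + a0*b1*C0*D0 + a1*b2*C1*D1 + a2*b0*B2*C0*C1*D2 + a0*b1*B0*C1*C2*D0 + a1*b2*B1*C0*C2*D1) + (1/6)*(c2*d0*A0*B1*B2*C0 + c0*d1*A1*B0*B2*C1 + c1*d2*A2*B0*B1*C2 + c2*d0*A0*B0 + c0*d1*A1*B1 + c1*d2*A2*B2 + b2*c1*B1*C1 + b0*c2*B2*C2 + b1*c0*B0*C0 + b2*c1*B1^2*C0*C2 + b0*c2*B2^2*C0*C1 + b1*c0*B0^2*C1*C2 + b2*c1*A0*A1*D2^2 + b0*c2*A1*A2*D0^2 + b1*c0*A0*A2*D1^2 + a2*d0*A1*B2*C1*D0 + a0*d1*A2*B0*C2*D1 + a1*d2*A0*B1*C0*D2 + a2*b0*A2*C2*D0*D1 + a0*b1*A0*C0*D1*D2 + a1*b2*A1*C1*D0*D2))*hf3 + ((-1/6)*(c2*d1*A1*B1 + c0*d2*A2*B2 + c1*d0*A0*B0 + c2*d1*A1*B0*B2*C1 + c0*d2*A2*B0*B1*C2 + c1*d0*A0*B1*B2*C0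 + b2*c0*B0*C0 + b0*c1*B1*C1 + b1*c2*B2*C2 + b2*c0*B0^2*C1*C2 + b0*c1*B1^2*C0*C2 + b1*c2*B2^2*C0*C1 + b2*c0*A0*A1*D2^2 + b0*c1*A1*A2*D0^2 + b1*c2*A0*A2*D1^2 + a2*b1*A2*C2*D0*D1 + a0*b2*A0*C0*D1*D2 + a1*b0*A1*C1*D0*D2) + (1/6)*(c2*d1*A0*A2*B1*D1 + c0*d2*A0*A1*B2*D2 + c1*d0*A1*A2*B0*D0 + b2*c0*B2*C2 + b0*c1*B0*C0 + b1*c2*B1*C1 + b2*c0*B0*B1*C2^2 + b0*c1*B1*B2*C0^2 + b1*c2*B0*B2*C1^2 + b2*c0*A0^2*D1*D2 + b0*c1*A1^2*D0*D2 + b1*c2*A2^2*D0*D1 + a2*b1*C2*D2 + a0*b2*C0*D0 + a1*b0*C1*D1 + a2*b1*B2*C0*C1*D2 + a0*b2*B0*C1*C2*D0 + a1*b0*B1*C0*C2*D1))*hf4 + ((-1/6)*(c2*d2*A0*B2 + c0*d0*A1*B0 + c1*d1*A2*B1 + b2*c0*c1*d2*A0*B2 + b0*c1*c2*d0*A1*B0 + b1*c0*c2*d1*A2*B1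 + a2*b1*c0*d1*B2*C0 + a0*b2*c1*d2*B0*C1 + a1*b0*c2*d0*B1*C2 + a1*a2*b0*d0*C0*D2 + a0*a2*b1*d1*C1*D0 + a0*a1*b2*d2*C2*D1) + (-1/3)*(b2*c2*A2*D1 + b0*c0*A0*D2 + b1*c1*A1*D0) + (1/3)*(b2*c2*A0*D2 + b0*c0*A1*D0 + b1*c1*A2*D1) + (1/6)*(a2*c2*d0*d1*A0*B2 + a0*c0*d1*d2*A1*B0 + a1*c1*d0*d2*A2*B1 + a2*b2*C2*D1 + a0*b0*C0*D2 + a1*b1*C1*D0 + a2*b0*c2*d1*B0*C1 + a0*b1*c0*d2*B1*C2 + a1*b2*c1*d0*B2*C0 + a2*b0*b1*c2*C2*D1 + a0*b1*b2*c0*C0*D2 + a1*b0*b2*c1*C1*D0))*hg1 + ((1/6)*(c2*d2*A1*B2 + c0*d0*A2*B0 + c1*d1*A0*B1 + b2*c0*c1*d2*A1*B2 + b0*c1*c2*d0*A2*B0 + b1*c0*c2*d1*A0*B1 + a1*a2*b0*d0*C0*D1 + a0*a2*b1*d1*C1*D2 + a0*a1*b2*d2*C2*D0) + (1/3)*(b2*c2*A2*D0 +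 b0*c0*A0*D1 + b1*c1*A1*D2) + (-1/3)*(b2*c2*A1*D2 + b0*c0*A2*D0 + b1*c1*A0*D1) + (-1/6)*(a2*c2*d0*d1*A1*B2 + a0*c0*d1*d2*A2*B0 + a1*c1*d0*d2*A0*B1 + a2*b2*C2*D0 + a0*b0*C0*D1 + a1*b1*C1*D2 + a2*b0*b1*c2*C2*D0 + a0*b1*b2*c0*C0*D1 + a1*b0*b2*c1*C1*D2))*hg2 + ((1/6)*(c2*d2*A2*B0 + c0*d0*A0*B1 + c1*d1*A1*B2 + b2*c0*c1*d2*A2*B0 + b0*c1*c2*d0*A0*B1 + b1*c0*c2*d1*A1*B2 + a2*b1*c0*d1*A2*D0 + a0*b2*c1*d2*A0*D1 + a1*b0*c2*d0*A1*D2 + a1*a2*b0*d0*C2*D0 + a0*a2*b1*d1*C0*D1 + a0*a1*b2*d2*C1*D2) + (1/3)*(b2*c2*B2*C1 + b0*c0*B0*C2 + b1*c1*B1*C0) + (-1/3)*(b2*c2*B0*C2 + b0*c0*B1*C0 + b1*c1*B2*C1) + (-1/6)*(a2*c2*d0*d1*A2*B0 + a0*c0*d1*d2*A0*B1 + a1*c1*d0*d2*A1*B2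 + a2*b2*C1*D2 + a0*b0*C2*D0 + a1*b1*C0*D1 + a2*b0*c2*d1*A0*D1 + a0*b1*c0*d2*A1*D2 + a1*b2*c1*d0*A2*D0 + a2*b0*b1*c2*C1*D2 + a0*b1*b2*c0*C2*D0 + a1*b0*b2*c1*C0*D1))*hg3 + ((-1/6)*(c2*d2*A2*B1 + c0*d0*A0*B2 + c1*d1*A1*B0 + b2*c0*c1*d2*A2*B1 + b0*c1*c2*d0*A0*B2 + b1*c0*c2*d1*A1*B0 + a1*a2*b0*d0*C1*D0 + a0*a2*b1*d1*C2*D1 + a0*a1*b2*d2*C0*D2) + (-1/3)*(b2*c2*B2*C0 + b0*c0*B0*C1 + b1*c1*B1*C2) + (1/3)*(b2*c2*B1*C2 + b0*c0*B2*C0 + b1*c1*B0*C1) + (1/6)*(a2*c2*d0*d1*A2*B1 + a0*c0*d1*d2*A0*B2 + a1*c1*d0*d2*A1*B0 + a2*b2*C0*D2 + a0*b0*C1*D0 + a1*b1*C2*D1 + a2*b0*b1*c2*C0*D2 + a0*b1*b2*c0*C1*D0 + a1*b0*b2*c1*C2*D1))*hg4 + ((-1/6)*(b2*c1*B2*C0 + b0*c2*B0*C1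 + b1*c0*B1*C2 + a2*d0*A1*D0 + a0*d1*A2*D1 + a1*d2*A0*D2) + (1/6)*(b2*c1*B0*C1 + b0*c2*B1*C2 + b1*c0*B2*C0 + a2*d0*A2*D1 + a0*d1*A0*D2 + a1*d2*A1*D0))*hh1 + ((1/6)*(b2*c0*B2*C1 + b0*c1*B0*C2 + b1*c2*B1*C0 + a2*d1*A0*D1 + a0*d2*A1*D2 + a1*d0*A2*D0) + (-1/6)*(b2*c0*B1*C0 + b0*c1*B2*C1 + b1*c2*B0*C2 + a2*d1*A2*D0 + a0*d2*A0*D1 + a1*d0*A1*D2))*hh2 + ((1/6)*(b2*c1*A2*D0 + b0*c2*A0*D1 + b1*c0*A1*D2 + a2*d0*B1*C0 + a0*d1*B2*C1 + a1*d2*B0*C2) + (-1/6)*(b2*c1*A0*D1 + b0*c2*A1*D2 + b1*c0*A2*D0 + a2*d0*B2*C1 + a0*d1*B0*C2 + a1*d2*B1*C0))*hh3 + ((-1/6)*(b2*c0*A2*D1 + b0*c1*A0*D2 + b1*c2*A1*D0 + a2*d1*B0*C1 + a0*d2*B1*C2 + a1*d0*B2*C0) + (1/6)*(b2*c0*A1*D0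 + b0*c1*A2*D1 + b1*c2*A0*D2 + a2*d1*B2*C0 + a0*d2*B0*C1 + a1*d0*B1*C2))*hh4 + ((-1/6)*(c2*d2*A2*B2 + c2*d2*A0^2*B2*D1 + c1*d1*A1*B0^2*C2 + a2*b2*C2*D2 + a2*b2*A1*C2*D0^2 + a1*b1*B2*C0^2*D1) + (-1/3)*(c2*d2*A2*B0*B1*C2 + c1*d1*A0*A2*B1*D1 + b2*c2*B1*B2*C0^2 + b2*c2*B0*C0 + b2*c2*B0^2*C1*C2 + b1*c1*A1*A2*D0^2 + b1*c1*A0^2*D1*D2 + a2*d2*A2^2*D0*D1 + a2*d2*A0*A1*D2^2 + a2*b2*B2*C0*C1*D2 + a1*d1*B1*C1 + a1*d1*B1^2*C0*C2 + a1*d1*B0*B2*C1^2 + a1*b1*A1*C1*D0*D2) + (1/6)*(c2*d2*A2*B0^2*C1 + c1*d1*A1*B1 + c1*d1*A0^2*B1*D2 + a2*b2*B1*C0^2*D2 + a1*b1*C1*D1 + a1*b1*A2*C1*D0^2) + (1/3)*(c2*d2*A0*A1*B2*D2 + c1*d1*A1*B0*B2*C1 + b2*c2*A1*A2*D0^2 + b2*c2*A0^2*D1*D2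 + b1*c1*B1*B2*C0^2 + b1*c1*B0*C0 + b1*c1*B0^2*C1*C2 + a2*d2*B2*C2 + a2*d2*B2^2*C0*C1 + a2*d2*B0*B1*C2^2 + a2*b2*A2*C2*D0*D1 + a1*d1*A1^2*D0*D2 + a1*d1*A0*A2*D1^2 + a1*b1*B1*C0*C2*D1))*he0 + ((-1/6)*(c0*d0*A0*B0 + c0*d0*A1^2*B0*D2 + c2*d2*A2*B1^2*C0 + a0*b0*C0*D0 + a0*b0*A2*C0*D1^2 + a2*b2*B0*C1^2*D2) + (-1/3)*(c0*d0*A0*B1*B2*C0 + c2*d2*A0*A1*B2*D2 + b0*c0*B0*B2*C1^2 + b0*c0*B1*C1 + b0*c0*B1^2*C0*C2 + b2*c2*A0*A2*D1^2 + b2*c2*A1^2*D0*D2 + a0*d0*A0^2*D1*D2 + a0*d0*A1*A2*D0^2 + a0*b0*B0*C1*C2*D0 + a2*d2*B2*C2 + a2*d2*B2^2*C0*C1 + a2*d2*B0*B1*C2^2 + a2*b2*A2*C2*D0*D1) + (1/6)*(c0*d0*A0*B1^2*C2 + c2*d2*A2*B2 + c2*d2*A1^2*B2*D0 + a0*b0*B2*C1^2*D0 +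 a2*b2*C2*D2 + a2*b2*A0*C2*D1^2) + (1/3)*(c0*d0*A1*A2*B0*D0 + c2*d2*A2*B0*B1*C2 + b0*c0*A0*A2*D1^2 + b0*c0*A1^2*D0*D2 + b2*c2*B0*B2*C1^2 + b2*c2*B1*C1 + b2*c2*B1^2*C0*C2 + a0*d0*B0*C0 + a0*d0*B0^2*C1*C2 + a0*d0*B1*B2*C0^2 + a0*b0*A0*C0*D1*D2 + a2*d2*A2^2*D0*D1 + a2*d2*A0*A1*D2^2 + a2*b2*B2*C0*C1*D2))*he1 + ((-1/6)*(c1*d1*A1*B1 + c1*d1*A2^2*B1*D0 + c0*d0*A0*B2^2*C1 + a1*b1*C1*D1 + a1*b1*A0*C1*D2^2 + a0*b0*B1*C2^2*D0) + (-1/3)*(c1*d1*A1*B0*B2*C1 + c0*d0*A1*A2*B0*D0 + b1*c1*B0*B1*C2^2 + b1*c1*B2*C2 + b1*c1*B2^2*C0*C1 + b0*c0*A0*A1*D2^2 + b0*c0*A2^2*D0*D1 + a1*d1*A1^2*D0*D2 + a1*d1*A0*A2*D1^2 + a1*b1*B1*C0*C2*D1 + a0*d0*B0*C0 + a0*d0*B0^2*C1*C2 + a0*d0*B1*B2*C0^2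 + a0*b0*A0*C0*D1*D2) + (1/6)*(c1*d1*A1*B2^2*C0 + c0*d0*A0*B0 + c0*d0*A2^2*B0*D1 + a1*b1*B0*C2^2*D1 + a0*b0*C0*D0 + a0*b0*A1*C0*D2^2) + (1/3)*(c1*d1*A0*A2*B1*D1 + c0*d0*A0*B1*B2*C0 + b1*c1*A0*A1*D2^2 + b1*c1*A2^2*D0*D1 + b0*c0*B0*B1*C2^2 + b0*c0*B2*C2 + b0*c0*B2^2*C0*C1 + a1*d1*B1*C1 + a1*d1*B1^2*C0*C2 + a1*d1*B0*B2*C1^2 + a1*b1*A1*C1*D0*D2 + a0*d0*A0^2*D1*D2 + a0*d0*A1*A2*D0^2 + a0*b0*B0*C1*C2*D0))*he2 + ((1/6)*(c2*d2*A2*B2 + b2*c0^2*d1*A1*B1 + b1*b2*c0^2*B2*C2 + b1^2*c0*c2*A1*D1 + b0*b2*c1^2*A1*D1 + b0^2*c1*c2*B2*C2 + a2*b2*C2*D2 + a2^2*d0*d1*A2*D2 + a1*c2*d0^2*A2*B2 + a1*b0^2*c2*C1*D1 + a1*a2*d0^2*B1*C1 + a0*a1*d2^2*A2*D2 + a0^2*d1*d2*B1*C1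 + a0^2*b2*d1*C2*D2) + (-1/6)*(c1*d1*A1*B1 + b2^2*c0*c1*A2*D2 + b1*c0^2*d2*A2*B2 + b1*b2*c0^2*B1*C1 + b0*b1*c2^2*A2*D2 + b0^2*c1*c2*B1*C1 + a2*c1*d0^2*A1*B1 + a2*b0^2*c1*C2*D2 + a1*b1*C1*D1 + a1*a2*d0^2*B2*C2 + a1^2*d0*d2*A1*D1 + a0*a2*d1^2*A1*D1 + a0^2*d1*d2*B2*C2 + a0^2*b1*d2*C1*D1) + (-2/3)*(b2*c2*A2*D2 + b0*c0*B1*C1) + (1/3)*(b2*c0*c1*d2*A2*B2 + a2*b0*b1*c2*C2*D2 + a1*c1*d0*d2*A1*B1 + a0*a2*b1*d1*C1*D1) + (2/3)*(b1*c1*A1*D1 + b0*c0*B2*C2) + (-1/3)*(b1*c0*c2*d1*A1*B1 + a2*c2*d0*d1*A2*B2 + a1*b0*b2*c1*C1*D1 + a0*a1*b2*d2*C2*D2))*hE0 + ((1/6)*(c0*d0*A0*B0 + b0*c1^2*d2*A2*B2 + b0*b2*c1^2*B0*C0 + b2^2*c0*c1*A2*D2 + b0*b1*c2^2*A2*D2 + b1^2*c0*c2*B0*C0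 + a0*b0*C0*D0 + a0^2*d1*d2*A0*D0 + a2*c0*d1^2*A0*B0 + a2*b1^2*c0*C2*D2 + a0*a2*d1^2*B2*C2 + a1*a2*d0^2*A0*D0 + a1^2*d0*d2*B2*C2 + a1^2*b0*d2*C0*D0) + (-1/6)*(c2*d2*A2*B2 + b0^2*c1*c2*A0*D0 + b2*c1^2*d0*A0*B0 + b0*b2*c1^2*B2*C2 + b1*b2*c0^2*A0*D0 + b1^2*c0*c2*B2*C2 + a0*c2*d1^2*A2*B2 + a0*b1^2*c2*C0*D0 + a2*b2*C2*D2 + a0*a2*d1^2*B0*C0 + a2^2*d0*d1*A2*D2 + a0*a1*d2^2*A2*D2 + a1^2*d0*d2*B0*C0 + a1^2*b2*d0*C2*D2) + (-2/3)*(b0*c0*A0*D0 + b1*c1*B2*C2) + (1/3)*(b0*c1*c2*d0*A0*B0 + a0*b1*b2*c0*C0*D0 + a2*c2*d0*d1*A2*B2 + a0*a1*b2*d2*C2*D2) + (2/3)*(b2*c2*A2*D2 + b1*c1*B0*C0) + (-1/3)*(b2*c0*c1*d2*A2*B2 + a0*c0*d1*d2*A0*B0 + a2*b0*b1*c2*C2*D2 + a1*a2*b0*d0*C0*D0))*hE1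 + ((1/6)*(c1*d1*A1*B1 + b1*c2^2*d0*A0*B0 + b0*b1*c2^2*B1*C1 + b0^2*c1*c2*A0*D0 + b1*b2*c0^2*A0*D0 + b2^2*c0*c1*B1*C1 + a1*b1*C1*D1 + a1^2*d0*d2*A1*D1 + a0*c1*d2^2*A1*B1 + a0*b2^2*c1*C0*D0 + a0*a1*d2^2*B0*C0 + a0*a2*d1^2*A1*D1 + a2^2*d0*d1*B0*C0 + a2^2*b1*d0*C1*D1) + (-1/6)*(c0*d0*A0*B0 + b1^2*c0*c2*A1*D1 + b0*c2^2*d1*A1*B1 + b0*b1*c2^2*B0*C0 + b0*b2*c1^2*A1*D1 + b2^2*c0*c1*B0*C0 + a1*c0*d2^2*A0*B0 + a1*b2^2*c0*C1*D1 + a0*b0*C0*D0 + a0*a1*d2^2*B1*C1 + a0^2*d1*d2*A0*D0 + a1*a2*d0^2*A0*D0 + a2^2*d0*d1*B1*C1 + a2^2*b0*d1*C0*D0) + (-2/3)*(b1*c1*A1*D1 + b2*c2*B0*C0) + (1/3)*(b1*c0*c2*d1*A1*B1 + a1*b0*b2*c1*C1*D1 + a0*c0*d1*d2*A0*B0 + a1*a2*b0*d0*C0*D0)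 + (2/3)*(b0*c0*A0*D0 + b2*c2*B1*C1) + (-1/3)*(b0*c1*c2*d0*A0*B0 + a1*c1*d0*d2*A1*B1 + a0*b1*b2*c0*C0*D0 + a0*a2*b1*d1*C1*D1))*hE2
end Pool.Agent.OD
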