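import Mathlib
import Pool.Statements.S00110

/-!
Disproof of the frozen problem: for degree `k = 7` the tuple `(7, 12, 18, 24, 30, 36)` satisfies
`a (i + j) ≤ a i + a j`, but no degree seven cover of the projective line has this splitting type.

Sketch. Let `H m` be the space of global sections. Take `y` in `H 7`, `z` in `H 12`, `w` in `H 18`,
new generators. Dimension counts give relations
`y*y = c z + a y + b`, `y*z = d w + e z + g y + h`, `y*w = l z^2 + m w + n z + r y + s`,
`w*w = lam z^3 + al z w + be z^2 + ...` with polynomial coefficients of bounded degree, and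
`1, y, z, w, z^2, z w, z^3` are independent. Comparing coefficients in `y (y z) = (y y) z` and
`(y z) w = z (y w)` gives `(y - a/2)^2 = d^2 (lam z + be + 2 lam g + al^2/4)`, so
`f = (y - a/2)/d` satisfies `f^2 ∈ H 12`, whence `f ∈ H 6 = polynomials of degree at most 6`,
which contradicts the choice of `y`.
-/

set_option autoImplicit false
open Pool Pool.MP_2ff787_ag

namespace Pool.Agent.S00110

open Polynomial

section basic

variable {F : Type} [Field F] [Algebra ℂ F]

/-- global sections of the pullback of O(m), as a subspace of the function field -/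
def H (x : F) (m : ℕ) : Submodule ℂ F where
  carrier := {f : F | IsIntegral (Algebra.adjoin ℂ ({x} : Set F)) f ∧
                  IsIntegral (Algebra.adjoin ℂ ({x⁻¹} : Set F)) (f * x⁻¹ ^ m)}
  add_mem' := by
    rintro a b ⟨ha, ha'⟩ ⟨hb, hb'⟩
    refine ⟨ha.add hb, ?_⟩
    rw [add_mul]
    exact ha'.add hb'
  zero_mem' := by
    refine ⟨isIntegral_zero, ?_⟩
    rw [zero_mul]
    exact isIntegral_zero
  smul_mem' := by
    rintro c a ⟨ha, ha'⟩
    refine ⟨?_, ?_⟩
    · rw [Algebra.smul_def]
      exact (isIntegral_algebraMap (R := ℂ) (x := c)).tower_top.mul ha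
    · rw [Algebra.smul_def, mul_assoc]
      exact (isIntegral_algebraMap (R := ℂ) (x := c)).tower_top.mul ha'

variable {x : F}

lemma mem_H {m : ℕ} {f : F} : f ∈ H x m ↔ (IsIntegral (Algebra.adjoin ℂ ({x} : Set F)) f ∧
                  IsIntegral (Algebra.adjoin ℂ ({x⁻¹} : Set F)) (f * x⁻¹ ^ m)) := Iff.rfl

lemma integral_self (z : F) : IsIntegral (Algebra.adjoin ℂ ({z} : Set F)) z := by
  have h := isIntegral_algebraMap (R := Algebra.adjoin ℂ ({z} : Set F)) (A := F)
    (x := ⟨z, Algebra.self_mem_adjoin_singleton ℂ z⟩)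
  exact h

lemma one_mem_H : (1 : F) ∈ H x 0 := by
  rw [mem_H]
  refine ⟨isIntegral_one, ?_⟩
  rw [pow_zero, mul_one]
  exact isIntegral_one

lemma x_mem_H (hx : x ≠ 0) : x ∈ H x 1 := by
  rw [mem_H]
  refine ⟨integral_self x, ?_⟩
  rw [pow_one, mul_inv_cancel₀ hx]
  exact isIntegral_one

lemma mul_mem_H {m n : ℕ} {f g : F} (hf : f ∈ H x m) (hg : g ∈ H x n) : f * g ∈ H x (m + n) := by
  rw [mem_H] at *
  refine ⟨hf.1.mul hg.1, ?_⟩
  have : f * g * x⁻¹ ^ (m + n) = (f * x⁻¹ ^ m) * (g * x⁻¹ ^ n) := by ring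
  rw [this]
  exact hf.2.mul hg.2

lemma H_mono_succ {m : ℕ} {f : F} (hf : f ∈ H x m) : f ∈ H x (m + 1) := by
  rw [mem_H] at *
  refine ⟨hf.1, ?_⟩
  rw [pow_succ, ← mul_assoc]
  exact hf.2.mul (integral_self _)

lemma H_mono {m n : ℕ} (h : m ≤ n) {f : F} (hf : f ∈ H x m) : f ∈ H x n := by
  induction n, h using Nat.le_induction with
  | base => exact hf
  | succ n _ ih => exact H_mono_succ ih

lemma pow_mem_H (hx : x ≠ 0) (n : ℕ) : x ^ n ∈ H x n := by
  induction n with
  | zero => rw [pow_zero]; exact one_mem_H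
  | succ n ih => rw [pow_succ]; exact mul_mem_H ih (x_mem_H hx)

/-- multiplication by a polynomial -/
lemma aeval_mul_mem_H (hx : x ≠ 0) {d m : ℕ} {f : F} (hf : f ∈ H x d) (p : ℂ[X])
    (hp : p.natDegree + d ≤ m) : aeval x p * f ∈ H x m := by
  rw [aeval_eq_sum_range, Finset.sum_mul]
  refine Submodule.sum_mem _ ?_
  intro i hi
  rw [Finset.mem_range] at hi
  rw [smul_mul_assoc]
  refine Submodule.smul_mem _ _ ?_
  exact H_mono (by omega) (mul_mem_H (pow_mem_H hx i) hf)

lemma aeval_mul_mem_H' (hx : x ≠ 0) {d m : ℕ} {f : F} (hf : f ∈ H x d) (p : ℂ[X])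
    (hp : p ∈ degreeLT ℂ (m + 1 - d)) : aeval x p * f ∈ H x m := by
  by_cases h0 : p = 0
  · subst h0
    rw [map_zero, zero_mul]
    exact Submodule.zero_mem _
  · rw [mem_degreeLT, degree_eq_natDegree h0] at hp
    have : p.natDegree < m + 1 - d := by exact_mod_cast hp
    exact aeval_mul_mem_H hx hf p (by omega)

/-- depth: from `f` integral over `ℂ[x]` and `x * f ∈ H (m+1)` get `f ∈ H m`. -/
lemma mem_H_of_x_mul (hx : x ≠ 0) {M m : ℕ} {f : F} (hf : f ∈ H x M) (hxf : x * f ∈ H x (m + 1)) :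
    f ∈ H x m := by
  rw [mem_H] at *
  refine ⟨hf.1, ?_⟩
  have : f * x⁻¹ ^ m = x * f * x⁻¹ ^ (m + 1) := by
    rw [pow_succ]
    field_simp
  rw [this]
  exact hxf.2

lemma mem_H_of_sq {m : ℕ} {f : F} (hf : f ^ 2 ∈ H x (2 * m)) : f ∈ H x m := by
  rw [mem_H] at *
  refine ⟨IsIntegral.of_pow (n := 2) (by norm_num) hf.1, ?_⟩
  refine IsIntegral.of_pow (n := 2) (by norm_num) ?_
  have : (f * x⁻¹ ^ m) ^ 2 = f ^ 2 * x⁻¹ ^ (2 * m) := by ring
  rw [this]
  exact hf.2

/-- `e` is independent over the polynomial ring `ℂ[x]` -/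
def Indep {ι : Type} [Fintype ι] (x : F) (e : ι → F) : Prop :=
  ∀ p : ι → ℂ[X], ∑ i, aeval x (p i) * e i = 0 → ∀ i, p i = 0

/-- the linear map sending polynomials of bounded degree to their combination -/
noncomputable def Phi {ι : Type} [Fintype ι] (x : F) (hx : x ≠ 0) (e : ι → F) (d : ι → ℕ)
    (he : ∀ i, e i ∈ H x (d i)) (m : ℕ) :
    ((i : ι) → degreeLT ℂ (m + 1 - d i)) →ₗ[ℂ] H x m where
  toFun p := ⟨∑ i, aeval x (p i : ℂ[X]) * e i, Submodule.sum_mem _ fun i _ =>
    aeval_mul_mem_H' hx (he i) _ (p i).2⟩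
  map_add' p q := by
    apply Subtype.ext
    simp [add_mul, Finset.sum_add_distrib]
  map_smul' c p := by
    apply Subtype.ext
    simp [Finset.smul_sum]

lemma finrank_degreeLT (n : ℕ) : Module.finrank ℂ (degreeLT ℂ n) = n := by
  rw [(degreeLTEquiv ℂ n).finrank_eq, Module.finrank_fin_fun]

instance (n : ℕ) : Module.Finite ℂ (degreeLT ℂ n) :=
  Module.Finite.equiv (degreeLTEquiv ℂ n).symm

lemma Phi_injective {ι : Type} [Fintype ι] (hx : x ≠ 0) (e : ι → F) (d : ι → ℕ)
    (he : ∀ i, e i ∈ H x (d i)) (m : ℕ) (hI : Indep x e) :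
    Function.Injective (Phi x hx e d he m) := by
  rw [injective_iff_map_eq_zero]
  intro p hp
  have h1 : ∑ i, aeval x (p i : ℂ[X]) * e i = 0 := congrArg Subtype.val hp
  have h2 := hI (fun i => (p i : ℂ[X])) h1
  funext i
  apply Subtype.ext
  exact h2 i

lemma exists_rep_of_finrank {ι : Type} [Fintype ι] (hx : x ≠ 0) (e : ι → F) (d : ι → ℕ)
    (he : ∀ i, e i ∈ H x (d i)) (m : ℕ) (hI : Indep x e) [Module.Finite ℂ (H x m)]
    (hr : Module.finrank ℂ (H x m) = ∑ i, (m + 1 - d i)) (f : F) (hf : f ∈ H x m) :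
    ∃ p : ι → ℂ[X], (∀ i, p i ∈ degreeLT ℂ (m + 1 - d i)) ∧ f = ∑ i, aeval x (p i) * e i := by
  have hfr : Module.finrank ℂ ((i : ι) → degreeLT ℂ (m + 1 - d i)) =
      Module.finrank ℂ (H x m) := by
    rw [hr, Module.finrank_pi_fintype]
    exact Finset.sum_congr rfl fun i _ => finrank_degreeLT _
  have hs := (LinearMap.injective_iff_surjective_of_finrank_eq_finrank hfr).mp
    (Phi_injective hx e d he m hI)
  obtain ⟨p, hp⟩ := hs ⟨f, hf⟩
  refine ⟨fun i => (p i : ℂ[X]), fun i => (p i).2, ?_⟩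
  exact (congrArg Subtype.val hp).symm

lemma exists_not_rep_of_finrank {ι : Type} [Fintype ι] (hx : x ≠ 0) (e : ι → F) (d : ι → ℕ)
    (he : ∀ i, e i ∈ H x (d i)) (m : ℕ) [Module.Finite ℂ (H x m)]
    (hr : ∑ i, (m + 1 - d i) < Module.finrank ℂ (H x m)) :
    ∃ f ∈ H x m, ¬ ∃ p : ι → ℂ[X], (∀ i, p i ∈ degreeLT ℂ (m + 1 - d i)) ∧
      f = ∑ i, aeval x (p i) * e i := by
  by_contra hcon
  push Not at hcon
  have hs : Function.Surjective (Phi x hx e d he m) := by
    rintro ⟨f, hf⟩
    obtain ⟨p, hp, hpf⟩ := hcon f hf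
    refine ⟨fun i => ⟨p i, hp i⟩, ?_⟩
    apply Subtype.ext
    exact hpf.symm
  have hfr : Module.finrank ℂ ((i : ι) → degreeLT ℂ (m + 1 - d i)) = ∑ i, (m + 1 - d i) := by
    rw [Module.finrank_pi_fintype]
    exact Finset.sum_congr rfl fun i _ => finrank_degreeLT _
  have := LinearMap.finrank_le_finrank_of_surjective hs
  omega

lemma x_ne_zero (hx : Transcendental ℂ x) : x ≠ 0 := by
  rintro rfl
  exact hx isAlgebraic_zero

/-- descending: if `g ∈ H (d+n)` and `(x-c) g ∈ H d` then `g ∈ H d`. -/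
lemma descend (hx : x ≠ 0) (c : ℂ) (d n : ℕ) (g : F) (hg : g ∈ H x (d + n))
    (h : (x - algebraMap ℂ F c) * g ∈ H x d) : g ∈ H x d := by
  induction n with
  | zero => exact hg
  | succ n ih =>
    apply ih
    apply mem_H_of_x_mul hx hg
    have : x * g = (x - algebraMap ℂ F c) * g + c • g := by
      rw [Algebra.smul_def]; ring
    rw [this]
    exact Submodule.add_mem _ (H_mono (by omega) h) (Submodule.smul_mem _ _ hg)

/-- being reduced at every index -/
def Red {ι : Type} [Fintype ι] (x : F) (e : ι → F) (d : ι → ℕ) : Prop :=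
  ∀ (j : ι) (M : ℕ) (g : F), g ∈ H x M → x * g ∈ H x (d j) →
    ∃ p : ι → ℂ[X], g = ∑ i, aeval x (p i) * e i ∧ p j = 0

lemma sat_finite {ι : Type} [Fintype ι] (hx : Transcendental ℂ x) (e : ι → F) (d : ι → ℕ)
    (he : ∀ i, e i ∈ H x (d i)) (hI : Indep x e) (hR : Red x e d) (m : ℕ) (f : F)
    (hf : f ∈ H x m) (n : ℕ) :
    ∀ (q : ℂ[X]), q.natDegree = n → q ≠ 0 → ∀ (p : ι → ℂ[X]),
      aeval x q * f = ∑ i, aeval x (p i) * e i →
      ∃ p' : ι → ℂ[X], f = ∑ i, aeval x (p' i) * e i := by
  have hx0 : x ≠ 0 := x_ne_zero hx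
  induction n with
  | zero =>
    intro q hqn hq p hp
    rw [natDegree_eq_zero] at hqn
    obtain ⟨c, rfl⟩ := hqn
    have hc : c ≠ 0 := by
      rintro rfl
      exact hq (C_0)
    have hc' : algebraMap ℂ F c ≠ 0 := by
      simpa using hc
    refine ⟨fun i => C c⁻¹ * p i, ?_⟩
    have : f = algebraMap ℂ F c⁻¹ * (aeval x (C c) * f) := by
      rw [aeval_C, map_inv₀]
      field_simp
    rw [this, hp, Finset.mul_sum]
    refine Finset.sum_congr rfl fun i _ => ?_
    rw [map_mul, aeval_C]
    ring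
  | succ n ih =>
    intro q hqn hq p hp
    have hdeg : q.degree ≠ 0 := by
      rw [degree_eq_natDegree hq, hqn]
      exact_mod_cast (Nat.succ_ne_zero n)
    obtain ⟨c, hc⟩ := IsAlgClosed.exists_root q hdeg
    obtain ⟨q', hq'⟩ := dvd_iff_isRoot.mpr hc
    have hq'0 : q' ≠ 0 := by
      rintro rfl
      apply hq
      rw [hq', mul_zero]
    have hq'n : q'.natDegree = n := by
      have h1 : q.natDegree = (X - C c).natDegree + q'.natDegree := by
        rw [hq']
        exact natDegree_mul (X_sub_C_ne_zero c) hq'0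
      rw [natDegree_X_sub_C, hqn] at h1
      omega
    -- decompose p
    have hpd : ∀ i, p i = (X - C c) * (p i /ₘ (X - C c)) + C ((p i).eval c) := by
      intro i
      rw [X_sub_C_mul_divByMonic_eq_sub_modByMonic, modByMonic_X_sub_C_eq_C_eval]
      ring
    set p' : ι → ℂ[X] := fun i => p i /ₘ (X - C c) with hp'
    set g : F := aeval x q' * f - ∑ i, aeval x (p' i) * e i with hg
    have hxc : x - algebraMap ℂ F c ≠ 0 := by
      intro h0
      apply hx
      rw [sub_eq_zero] at h0
      rw [h0]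
      exact isAlgebraic_algebraMap c
    have hgx : (x - algebraMap ℂ F c) * g = ∑ i, ((p i).eval c) • e i := by
      have h1 : aeval x q = (x - algebraMap ℂ F c) * aeval x q' := by
        rw [hq', map_mul, map_sub, aeval_X, aeval_C]
      have h2 : ∀ i, aeval x (p i) = (x - algebraMap ℂ F c) * aeval x (p' i) +
          algebraMap ℂ F ((p i).eval c) := by
        intro i
        conv_lhs => rw [hpd i]
        rw [map_add, map_mul, map_sub, aeval_X, aeval_C, aeval_C]
      rw [hg, mul_sub, ← mul_assoc, ← h1, hp, Finset.mul_sum, ← Finset.sum_sub_distrib]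
      refine Finset.sum_congr rfl fun i _ => ?_
      rw [h2 i, Algebra.smul_def]
      ring
    by_cases hall : ∀ i, (p i).eval c = 0
    · have hg0 : g = 0 := by
        have : (x - algebraMap ℂ F c) * g = 0 := by
          rw [hgx]
          refine Finset.sum_eq_zero fun i _ => ?_
          rw [hall i, zero_smul]
        rcases mul_eq_zero.mp this with h | h
        · exact absurd h hxc
        · exact h
      exact ih q' hq'n hq'0 p' (by rw [hg] at hg0; exact sub_eq_zero.mp hg0)
    · exfalso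
      push Not at hall
      obtain ⟨i1, hi1⟩ := hall
      obtain ⟨j0, hj0, hmax⟩ := Finset.exists_max_image
        (Finset.univ.filter fun i => (p i).eval c ≠ 0) d ⟨i1, by simpa using hi1⟩
      rw [Finset.mem_filter] at hj0
      have hgxd : (x - algebraMap ℂ F c) * g ∈ H x (d j0) := by
        rw [hgx]
        refine Submodule.sum_mem _ fun i _ => ?_
        by_cases h0 : (p i).eval c = 0
        · rw [h0, zero_smul]; exact Submodule.zero_mem _
        · exact Submodule.smul_mem _ _ (H_mono (hmax i (by simpa using h0)) (he i))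
      have hgM : ∃ n, g ∈ H x (d j0 + n) := by
        refine ⟨(q'.natDegree + m) + ∑ i, ((p' i).natDegree + d i), ?_⟩
        refine Submodule.sub_mem _ ?_ (Submodule.sum_mem _ fun i _ => ?_)
        · exact aeval_mul_mem_H hx0 hf q' (by omega)
        · refine aeval_mul_mem_H hx0 (he i) (p' i) ?_
          have : (p' i).natDegree + d i ≤ ∑ i, ((p' i).natDegree + d i) :=
            Finset.single_le_sum (f := fun i => (p' i).natDegree + d i)
              (fun i _ => Nat.zero_le _) (Finset.mem_univ i)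
          omega
      obtain ⟨n', hn'⟩ := hgM
      have hgd := descend hx0 c (d j0) n' g hn' hgxd
      have hxg : x * g ∈ H x (d j0) := by
        have : x * g = (x - algebraMap ℂ F c) * g + c • g := by
          rw [Algebra.smul_def]; ring
        rw [this]
        exact Submodule.add_mem _ hgxd (Submodule.smul_mem _ _ hgd)
      obtain ⟨r, hr, hrj⟩ := hR j0 (d j0) g hgd hxg
      have hzero : ∑ i, aeval x ((X - C c) * r i - C ((p i).eval c)) * e i = 0 := by
        have h1 : ∑ i, aeval x ((X - C c) * r i - C ((p i).eval c)) * e i =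
            (x - algebraMap ℂ F c) * g - ∑ i, ((p i).eval c) • e i := by
          rw [hr, Finset.mul_sum, ← Finset.sum_sub_distrib]
          refine Finset.sum_congr rfl fun i _ => ?_
          rw [map_sub, map_mul, map_sub, aeval_X, aeval_C, aeval_C, Algebra.smul_def]
          ring
        rw [h1, hgx, sub_self]
      have h2 := hI _ hzero j0
      simp only [hrj, mul_zero, zero_sub, neg_eq_zero, C_eq_zero] at h2
      exact hj0.2 h2

lemma sat_infinite {ι : Type} [Fintype ι] (hx : Transcendental ℂ x) (e : ι → F) (d : ι → ℕ)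
    (he : ∀ i, e i ∈ H x (d i)) (hI : Indep x e) (hR : Red x e d) (m : ℕ) (p : ι → ℂ[X])
    (hf : ∑ i, aeval x (p i) * e i ∈ H x m) (n : ℕ) :
    (∀ i, p i ∈ degreeLT ℂ (m + n + 1 - d i)) → ∀ i, p i ∈ degreeLT ℂ (m + 1 - d i) := by
  have hx0 : x ≠ 0 := x_ne_zero hx
  induction n with
  | zero => intro h; exact h
  | succ n ih =>
    intro h
    apply ih
    set N := m + n + 1 with hN
    set π : ι → ℂ := fun i => if d i ≤ N then (p i).coeff (N - d i) else 0 with hπ
    -- if all π vanish we are done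
    by_cases hall : ∀ i, π i = 0
    · intro i
      have h1 := h i
      rw [mem_degreeLT] at h1 ⊢
      by_cases hdi : d i ≤ N
      · have h2 : m + (n + 1) + 1 - d i = (N - d i) + 1 := by omega
        have h3 : (p i).coeff (N - d i) = 0 := by
          have := hall i
          rw [hπ] at this
          simpa [hdi] using this
        rw [h2] at h1
        rw [degree_lt_iff_coeff_zero] at h1 ⊢
        intro k hk
        rcases Nat.lt_or_ge k (N - d i + 1) with h4 | h4
        · have : k = N - d i := by omega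
          rw [this]; exact h3
        · exact h1 k h4
      · have h2 : m + (n + 1) + 1 - d i = 0 := by omega
        rw [h2] at h1
        have h3 : N - d i = 0 := by omega
        rw [h3]
        exact h1
    · exfalso
      push Not at hall
      obtain ⟨i1, hi1⟩ := hall
      obtain ⟨j0, hj0, hmax⟩ := Finset.exists_max_image
        (Finset.univ.filter fun i => π i ≠ 0) d ⟨i1, by simpa using hi1⟩
      rw [Finset.mem_filter] at hj0
      have hdj0 : d j0 ≤ N := by
        by_contra hcon
        apply hj0.2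
        rw [hπ]
        simp [hcon]
      have hmax' : ∀ i, π i ≠ 0 → d i ≤ d j0 := fun i hi => hmax i (by simpa using hi)
      set g : F := ∑ i, aeval x (C (π i) * X ^ (d j0 - d i)) * e i with hg
      have hgd : g ∈ H x (d j0) := by
        refine Submodule.sum_mem _ fun i _ => ?_
        by_cases h0 : π i = 0
        · rw [h0, C_0, zero_mul, map_zero, zero_mul]; exact Submodule.zero_mem _
        · refine aeval_mul_mem_H hx0 (he i) _ ?_
          have := hmax' i h0
          have h5 : (C (π i) * X ^ (d j0 - d i) : ℂ[X]).natDegree ≤ d j0 - d i :=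
            natDegree_C_mul_X_pow_le _ _
          omega
      have hxg1 : x ^ (N - d j0) * g ∈ H x (m + n) := by
        have h6 : x ^ (N - d j0) * g = ∑ i, aeval x (p i) * e i -
            ∑ i, aeval x (p i - C (π i) * X ^ (N - d i)) * e i := by
          rw [hg, Finset.mul_sum, ← Finset.sum_sub_distrib]
          refine Finset.sum_congr rfl fun i _ => ?_
          by_cases h0 : π i = 0
          · rw [h0, C_0, zero_mul, zero_mul, map_zero, zero_mul, mul_zero, sub_zero, sub_self]
          · have h7 := hmax' i h0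
            have h8 : N - d i = (N - d j0) + (d j0 - d i) := by omega
            rw [h8, map_sub, map_mul, map_mul, map_pow, map_pow, aeval_X, aeval_C, pow_add]
            ring
        rw [h6]
        refine Submodule.sub_mem _ (H_mono (by omega) hf) (Submodule.sum_mem _ fun i _ => ?_)
        refine aeval_mul_mem_H' hx0 (he i) _ ?_
        have h1 := h i
        rw [mem_degreeLT, degree_lt_iff_coeff_zero] at h1
        rw [mem_degreeLT, degree_lt_iff_coeff_zero]
        intro k hk
        by_cases hdi : d i ≤ N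
        · rcases Nat.lt_or_ge (N - d i) k with h4 | h4
          · rw [coeff_sub, h1 k (by omega), coeff_C_mul, coeff_X_pow]
            rw [if_neg (by omega)]
            simp
          · have h9 : k = N - d i := by omega
            rw [coeff_sub, coeff_C_mul, coeff_X_pow, if_pos h9, h9, hπ]
            simp [hdi]
        · have h10 : π i = 0 := by rw [hπ]; simp [hdi]
          rw [h10, C_0, zero_mul, sub_zero]
          exact h1 k (by omega)
      have hxg : x * g ∈ H x (d j0) := by
        rw [mem_H] at hxg1 ⊢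
        refine ⟨(integral_self x).mul (mem_H.mp hgd).1, ?_⟩
        have h11 : x * g * x⁻¹ ^ d j0 = x ^ (N - d j0) * g * x⁻¹ ^ (m + n) := by
          have h12 : N = (N - d j0) + d j0 := by omega
          have h13 : x ^ (N - d j0) * x⁻¹ ^ N = x⁻¹ ^ (d j0) := by
            conv_lhs => rw [h12]
            rw [Nat.add_sub_cancel, pow_add, ← mul_assoc, ← mul_pow, mul_inv_cancel₀ hx0, one_pow,
              one_mul]
          have h14 : x⁻¹ ^ (m + n) = x * x⁻¹ ^ N := by
            rw [hN, pow_succ]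
            field_simp
          rw [h14, ← h13]
          ring
        rw [h11]
        exact hxg1.2
      obtain ⟨r, hr, hrj⟩ := hR j0 (d j0) g hgd hxg
      have hzero : ∑ i, aeval x (C (π i) * X ^ (d j0 - d i) - r i) * e i = 0 := by
        have : ∑ i, aeval x (C (π i) * X ^ (d j0 - d i) - r i) * e i = g - g := by
          conv_rhs => rw [hr]
          conv_rhs => lhs; rw [← hr, hg]
          rw [← Finset.sum_sub_distrib]
          refine Finset.sum_congr rfl fun i _ => ?_
          rw [map_sub]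
          ring
        rw [this, sub_self]
      have h2 := hI _ hzero j0
      simp only [hrj, pow_zero, mul_one, sub_zero, Nat.sub_self, C_eq_zero] at h2
      exact hj0.2 h2

lemma saturate {ι : Type} [Fintype ι] (hx : Transcendental ℂ x) (e : ι → F) (d : ι → ℕ)
    (he : ∀ i, e i ∈ H x (d i)) (hI : Indep x e) (hR : Red x e d) (m : ℕ) (f : F)
    (hf : f ∈ H x m) (q : ℂ[X]) (hq : q ≠ 0) (p : ι → ℂ[X])
    (hp : aeval x q * f = ∑ i, aeval x (p i) * e i) :
    ∃ p' : ι → ℂ[X], (∀ i, p' i ∈ degreeLT ℂ (m + 1 - d i)) ∧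
      f = ∑ i, aeval x (p' i) * e i := by
  obtain ⟨p', hp'⟩ := sat_finite hx e d he hI hR m f hf _ q rfl hq p hp
  refine ⟨p', ?_, hp'⟩
  rw [hp'] at hf
  refine sat_infinite hx e d he hI hR m p' hf (∑ i, ((p' i).natDegree + d i)) ?_
  intro i
  rw [mem_degreeLT]
  refine lt_of_le_of_lt degree_le_natDegree ?_
  have : (p' i).natDegree + d i ≤ ∑ i, ((p' i).natDegree + d i) :=
    Finset.single_le_sum (f := fun i => (p' i).natDegree + d i)
      (fun i _ => Nat.zero_le _) (Finset.mem_univ i)
  norm_cast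
  omega

/-- all the information used about the function field -/
def Nm (m : ℕ) : ℕ := (m + 1 - 36) + (m + 1 - 30) + (m + 1 - 24) + (m + 1 - 18) + (m + 1 - 12) +
  (m + 1 - 7) + (m + 1)

lemma indep_one (hx : Transcendental ℂ x) : Indep x ![(1 : F)] := by
  intro p hp i
  rw [Fin.sum_univ_one] at hp
  have h1 : aeval x (p 0) = 0 := by simpa using hp
  have h2 : p 0 = 0 := by
    by_contra hne
    exact hx ⟨p 0, hne, h1⟩
  fin_cases i
  exact h2

lemma indep_cons (hx : Transcendental ℂ x) {n : ℕ} (e : Fin n → F) (d : Fin n → ℕ)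
    (he : ∀ i, e i ∈ H x (d i)) (hI : Indep x e) (hR : Red x e d) (m : ℕ) (f : F)
    (hf : f ∈ H x m)
    (hnot : ¬ ∃ p : Fin n → ℂ[X], (∀ i, p i ∈ degreeLT ℂ (m + 1 - d i)) ∧
      f = ∑ i, aeval x (p i) * e i) : Indep x (Matrix.vecCons f e) := by
  intro p hp
  rw [Fin.sum_univ_succ] at hp
  simp only [Matrix.cons_val_zero, Matrix.cons_val_succ] at hp
  by_cases h0 : p 0 = 0
  · rw [h0, map_zero, zero_mul, zero_add] at hp
    have h1 := hI (fun i => p i.succ) hp
    intro i
    refine Fin.cases h0 (fun j => h1 j) i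
  · exfalso
    apply hnot
    refine saturate hx e d he hI hR m f hf (p 0) h0 (fun i => - p i.succ) ?_
    simp only [map_neg, neg_mul, Finset.sum_neg_distrib]
    exact eq_neg_of_add_eq_zero_left hp

lemma indep_tail {n : ℕ} (e : Fin n → F) (f : F) (h : Indep x (Matrix.vecCons f e)) :
    Indep x e := by
  intro p hp i
  have h1 := h (Fin.cons 0 p) (by
    rw [Fin.sum_univ_succ]
    simp only [Matrix.cons_val_zero, Matrix.cons_val_succ, Fin.cons_zero, Fin.cons_succ,
      map_zero, zero_mul, zero_add]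
    exact hp) i.succ
  simpa using h1

lemma H_neg (hx : Transcendental ℂ x) [Module.Finite ℂ (H x 0)]
    (h0 : Module.finrank ℂ (H x 0) = 1) (M : ℕ) (g : F) (hg : g ∈ H x M)
    (hxg : x * g ∈ H x 0) : g = 0 := by
  have hx0 := x_ne_zero hx
  have hg0 : g ∈ H x 0 := mem_H_of_x_mul hx0 hg (H_mono (by omega) hxg)
  have he : ∀ i, (![(1 : F)]) i ∈ H x ((![0] : Fin 1 → ℕ) i) := by
    intro i
    fin_cases i
    exact one_mem_H
  obtain ⟨p, hp, hpg⟩ := exists_rep_of_finrank hx0 ![(1 : F)] ![0] he 0 (indep_one hx)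
    (by rw [h0]; simp) g hg0
  obtain ⟨r, hr, hrg⟩ := exists_rep_of_finrank hx0 ![(1 : F)] ![0] he 0 (indep_one hx)
    (by rw [h0]; simp) (x * g) hxg
  have hp0 := hp 0
  have hr0 := hr 0
  simp only [Matrix.cons_val_zero, zero_add, tsub_zero] at hp0 hr0
  rw [Fin.sum_univ_one] at hpg hrg
  simp only [Matrix.cons_val_zero, mul_one] at hpg hrg
  have h1 : aeval x (X * p 0 - r 0) = 0 := by
    rw [map_sub, map_mul, aeval_X, ← hpg, ← hrg, sub_self]
  have h2 : X * p 0 - r 0 = 0 := by
    by_contra hne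
    exact hx ⟨_, hne, h1⟩
  have h3 : p 0 = 0 := by
    rw [mem_degreeLT] at hp0 hr0
    rw [degree_lt_iff_coeff_zero] at hp0 hr0
    have h4 : (p 0).coeff 0 = 0 := by
      have := congrArg (fun P => coeff P 1) h2
      simp only [coeff_sub, coeff_zero] at this
      rw [hr0 1 (le_refl _), sub_zero, show (1 : ℕ) = 0 + 1 from rfl, coeff_X_mul] at this
      exact this
    ext k
    rcases Nat.eq_zero_or_pos k with hk | hk
    · rw [hk, h4, coeff_zero]
    · rw [hp0 k hk, coeff_zero]
  rw [hpg, h3, map_zero]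

lemma red_of_finrank (hx : Transcendental ℂ x) [∀ m, Module.Finite ℂ (H x m)]
    (h0 : Module.finrank ℂ (H x 0) = 1) {n : ℕ} (e : Fin n → F) (d : Fin n → ℕ)
    (he : ∀ i, e i ∈ H x (d i)) (hI : Indep x e)
    (hfin : ∀ j, d j ≠ 0 → Module.finrank ℂ (H x (d j - 1)) = ∑ i, (d j - 1 + 1 - d i)) :
    Red x e d := by
  have hx0 := x_ne_zero hx
  intro j M g hg hxg
  by_cases hj : d j = 0
  · rw [hj] at hxg
    refine ⟨fun _ => 0, ?_, rfl⟩
    rw [H_neg hx h0 M g hg hxg]
    simp
  · have h1 : d j = (d j - 1) + 1 := by omega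
    have h2 : g ∈ H x (d j - 1) := mem_H_of_x_mul hx0 hg (by rw [← h1]; exact hxg)
    obtain ⟨p, hp, hpg⟩ := exists_rep_of_finrank hx0 e d he (d j - 1) hI (hfin j hj) g h2
    refine ⟨p, hpg, ?_⟩
    have h3 := hp j
    have h4 : d j - 1 + 1 - d j = 0 := by omega
    rw [h4, mem_degreeLT] at h3
    exact degree_eq_bot.mp (Nat.WithBot.lt_zero_iff.mp (by simpa using h3))

/-- a family of monic polynomials, one in each degree, is independent -/
lemma monic_indep {R : Type} [CommRing R] (M : ℕ → R[X]) (hM : ∀ i, (M i).Monic)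
    (hd : ∀ i, (M i).natDegree = i) (k : ℕ → R) (n : ℕ) :
    ∑ i ∈ Finset.range n, C (k i) * M i = 0 → ∀ i < n, k i = 0 := by
  induction n with
  | zero => intro _ i hi; omega
  | succ n ih =>
    intro h
    rw [Finset.sum_range_succ] at h
    have h1 : k n = 0 := by
      have h2 := congrArg (fun P => coeff P n) h
      simp only [coeff_add, finsetSum_coeff, coeff_C_mul, coeff_zero] at h2
      rw [Finset.sum_eq_zero, zero_add] at h2
      · have h3 : (M n).coeff n = 1 := by
          have := hM n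
          rw [Monic, leadingCoeff, hd n] at this
          exact this
        rw [h3, mul_one] at h2
        exact h2
      · intro i hi
        rw [Finset.mem_range] at hi
        rw [coeff_eq_zero_of_natDegree_lt (by rw [hd i]; exact hi), mul_zero]
    rw [h1, C_0, zero_mul, add_zero] at h
    intro i hi
    rcases Nat.lt_or_ge i n with h4 | h4
    · exact ih h i h4
    · have : i = n := by omega
      rw [this, h1]

/-- polynomials in `y` of degree less than seven over `ℂ[x]` do not vanish -/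
lemma ev_injective (hx : Transcendental ℂ x)
    (hfd : FiniteDimensional (IntermediateField.adjoin ℂ ({x} : Set F)) F)
    (hrank : Module.finrank (IntermediateField.adjoin ℂ ({x} : Set F)) F = 7)
    (y : F) (hy : Indep x ![y, 1]) (T : ℂ[X][X]) (hT : T.natDegree < 7)
    (hev : eval₂ (aeval x : ℂ[X] →ₐ[ℂ] F).toRingHom y T = 0) : T = 0 := by
  set K := IntermediateField.adjoin ℂ ({x} : Set F) with hK
  have hxK : x ∈ K := IntermediateField.mem_adjoin_simple_self ℂ x
  set ψ : ℂ[X] →ₐ[ℂ] K := aeval (⟨x, hxK⟩ : K) with hψ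
  have hψc : (algebraMap K F).comp ψ.toRingHom = (aeval x : ℂ[X] →ₐ[ℂ] F).toRingHom := by
    apply Polynomial.ringHom_ext
    · intro c
      simp [hψ]
    · simp [hψ]
  have hψi : Function.Injective ψ.toRingHom := by
    have h1 : Function.Injective (aeval x : ℂ[X] →ₐ[ℂ] F).toRingHom := by
      have := transcendental_iff_injective.mp hx
      exact this
    rw [← hψc, RingHom.coe_comp] at h1
    exact Function.Injective.of_comp h1
  have hint : IsIntegral K y := IsIntegral.of_finite K y
  have hdvd := minpoly.degree_dvd hint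
  rw [hrank] at hdvd
  have h7 : (minpoly K y).natDegree = 7 := by
    rcases (Nat.dvd_prime (by norm_num)).mp hdvd with h | h
    · exfalso
      rw [minpoly.natDegree_eq_one_iff] at h
      obtain ⟨k, hk⟩ := h
      have hyK : y ∈ K := by
        rw [← hk]
        exact k.2
      rw [hK, IntermediateField.mem_adjoin_simple_iff] at hyK
      obtain ⟨r, s, hrs⟩ := hyK
      by_cases hs : aeval x s = 0
      · rw [hs, div_zero] at hrs
        have h3 := hy ![1, 0] (by simp [Fin.sum_univ_succ, hrs]) 0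
        simp at h3
      · have h3 := hy ![s, -r] (by
          simp only [Fin.sum_univ_two, Matrix.cons_val_zero, Matrix.cons_val_one]
          rw [hrs, map_neg]
          field_simp
          ring) 0
        simp at h3
        rw [h3, map_zero] at hs
        exact hs rfl
    · exact h
  have hTmap : T.map ψ.toRingHom = 0 := by
    by_contra hne
    have h1 : aeval y (T.map ψ.toRingHom) = 0 := by
      rw [aeval_def, eval₂_map, hψc]
      exact hev
    have h2 := minpoly.degree_le_of_ne_zero K y hne h1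
    have h3 := natDegree_le_natDegree h2
    rw [h7] at h3
    have h4 : (T.map ψ.toRingHom).natDegree ≤ T.natDegree := natDegree_map_le
    omega
  exact (Polynomial.map_injective _ hψi) (by rw [hTmap, Polynomial.map_zero])

theorem key (hx : Transcendental ℂ x)
    (hfd : FiniteDimensional (IntermediateField.adjoin ℂ ({x} : Set F)) F)
    (hrank : Module.finrank (IntermediateField.adjoin ℂ ({x} : Set F)) F = 7)
    [hfin : ∀ m, Module.Finite ℂ (H x m)]
    (hN : ∀ m, Module.finrank ℂ (H x m) = Nm m) : False := by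
  have hchar : CharZero F := charZero_of_injective_algebraMap (algebraMap ℂ F).injective
  have hx0 := x_ne_zero hx
  have h0 : Module.finrank ℂ (H x 0) = 1 := by rw [hN]; rfl
  have h1H : ∀ m, (1 : F) ∈ H x m := fun m => H_mono (Nat.zero_le m) one_mem_H
  -- e1
  have he1 : ∀ i, (![(1 : F)]) i ∈ H x ((![0] : Fin 1 → ℕ) i) := by
    intro i
    fin_cases i
    exact one_mem_H
  have hI1 : Indep x ![(1 : F)] := indep_one hx
  have hR1 : Red x ![(1 : F)] ![0] := red_of_finrank hx h0 _ _ he1 hI1 (by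
    intro j hj
    fin_cases j
    simp at hj)
  -- y
  obtain ⟨y, hy, hynot⟩ := exists_not_rep_of_finrank hx0 ![(1 : F)] ![0] he1 7 (by
    rw [hN]; simp [Nm])
  have hI2 : Indep x ![y, 1] := indep_cons hx _ _ he1 hI1 hR1 7 y hy hynot
  have he2 : ∀ i, (![y, (1 : F)]) i ∈ H x ((![7, 0] : Fin 2 → ℕ) i) := by
    intro i
    fin_cases i
    · exact hy
    · exact one_mem_H
  have hR2 : Red x ![y, (1 : F)] ![7, 0] := red_of_finrank hx h0 _ _ he2 hI2 (by
    intro j hj
    fin_cases j
    · rw [hN]; rfl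
    · simp at hj)
  -- z
  obtain ⟨z, hz, hznot⟩ := exists_not_rep_of_finrank hx0 ![y, (1 : F)] ![7, 0] he2 12 (by
    rw [hN]; simp [Nm, Fin.sum_univ_succ])
  have hI3 : Indep x ![z, y, 1] := indep_cons hx _ _ he2 hI2 hR2 12 z hz hznot
  have he3 : ∀ i, (![z, y, (1 : F)]) i ∈ H x ((![12, 7, 0] : Fin 3 → ℕ) i) := by
    intro i
    fin_cases i
    · exact hz
    · exact hy
    · exact one_mem_H
  have hR3 : Red x ![z, y, (1 : F)] ![12, 7, 0] := red_of_finrank hx h0 _ _ he3 hI3 (by
    intro j hj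
    fin_cases j
    · rw [hN]; rfl
    · rw [hN]; rfl
    · simp at hj)
  -- w
  obtain ⟨w, hw, hwnot⟩ := exists_not_rep_of_finrank hx0 ![z, y, (1 : F)] ![12, 7, 0] he3 18 (by
    rw [hN]; simp [Nm, Fin.sum_univ_succ])
  have hI4 : Indep x ![w, z, y, 1] := indep_cons hx _ _ he3 hI3 hR3 18 w hw hwnot
  have he4 : ∀ i, (![w, z, y, (1 : F)]) i ∈ H x ((![18, 12, 7, 0] : Fin 4 → ℕ) i) := by
    intro i
    fin_cases i
    · exact hw
    · exact hz
    · exact hy
    · exact one_mem_H
  -- first relation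
  obtain ⟨p1, hp1, h1⟩ := exists_rep_of_finrank hx0 _ _ he3 14 hI3 (by
    rw [hN]; simp [Nm, Fin.sum_univ_succ]) (y * y) (mul_mem_H hy hy)
  obtain ⟨p2, hp2, h2⟩ := exists_rep_of_finrank hx0 _ _ he4 19 hI4 (by
    rw [hN]; simp [Nm, Fin.sum_univ_succ]) (y * z) (mul_mem_H hy hz)
  have h1' : y * y = aeval x (p1 0) * z + aeval x (p1 1) * y + aeval x (p1 2) := by
    rw [h1]; simp [Fin.sum_univ_succ]; ring
  have h2' : y * z = aeval x (p2 0) * w + aeval x (p2 1) * z + aeval x (p2 2) * y +
      aeval x (p2 3) := by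
    rw [h2]; simp [Fin.sum_univ_succ]; ring_nf
  clear h1 h2
  obtain ⟨c, hc⟩ : ∃ c, c = p1 0 := ⟨_, rfl⟩
  obtain ⟨a, ha⟩ : ∃ a, a = p1 1 := ⟨_, rfl⟩
  obtain ⟨b, hb⟩ : ∃ b, b = p1 2 := ⟨_, rfl⟩
  obtain ⟨d, hd⟩ : ∃ d, d = p2 0 := ⟨_, rfl⟩
  obtain ⟨e, he⟩ : ∃ e, e = p2 1 := ⟨_, rfl⟩
  obtain ⟨g, hg⟩ : ∃ g, g = p2 2 := ⟨_, rfl⟩
  obtain ⟨h, hh⟩ : ∃ h, h = p2 3 := ⟨_, rfl⟩
  rw [← hc, ← ha, ← hb] at h1'
  rw [← hd, ← he, ← hg, ← hh] at h2'
  -- the evaluation
  set ev : ℂ[X][X] →+* F := eval₂RingHom (aeval x : ℂ[X] →ₐ[ℂ] F).toRingHom y with hev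
  have evC : ∀ p : ℂ[X], ev (C p) = aeval x p := by
    intro p
    rw [hev, coe_eval₂RingHom, eval₂_C]
    rfl
  have evX : ev X = y := by
    rw [hev, coe_eval₂RingHom, eval₂_X]
  have evI : ∀ T : ℂ[X][X], T.natDegree < 7 → ev T = 0 → T = 0 := fun T hT h =>
    ev_injective hx hfd hrank y hI2 T hT h
  set Q : ℂ[X][X] := X ^ 2 - C a * X - C b with hQ
  set W : ℂ[X][X] := X ^ 3 - C (a + e) * X ^ 2 + C (e * a - b - c * g) * X + C (e * b - c * h)
    with hW
  have hQm : Q.Monic := by rw [hQ]; monicity!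
  have hQd : Q.natDegree = 2 := by rw [hQ]; compute_degree!
  have hWm : W.Monic := by rw [hW]; monicity!
  have hWd : W.natDegree = 3 := by rw [hW]; compute_degree!
  have evQ : ev Q = aeval x c * z := by
    rw [hQ]
    simp only [map_sub, map_mul, map_pow, evC, evX]
    linear_combination h1'
  have evW : ev W = aeval x c * aeval x d * w := by
    rw [hW]
    simp only [map_sub, map_mul, map_pow, map_add, evC, evX]
    linear_combination (y - aeval x e) * h1' + aeval x c * h2'
  have hc0 : c ≠ 0 := by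
    intro h0
    have h3 := evI Q (by omega) (by rw [evQ, h0, map_zero, zero_mul])
    exact hQm.ne_zero h3
  have hd0 : d ≠ 0 := by
    intro h0
    have h3 := evI W (by omega) (by rw [evW, h0, map_zero, mul_zero, zero_mul])
    exact hWm.ne_zero h3
  have hca : aeval x c ≠ 0 := by
    intro h0
    exact hx ⟨c, hc0, h0⟩
  have hda : aeval x d ≠ 0 := by
    intro h0
    exact hx ⟨d, hd0, h0⟩
  -- the big independence
  have hI7 : Indep x ![z * z * z, z * w, z * z, w, z, y, 1] := by
    intro p hp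
    have hp' : aeval x (p 0) * (z * z * z) + aeval x (p 1) * (z * w) + aeval x (p 2) * (z * z) +
        aeval x (p 3) * w + aeval x (p 4) * z + aeval x (p 5) * y + aeval x (p 6) = 0 := by
      rw [← hp]
      simp only [Fin.sum_univ_succ, Fin.sum_univ_zero]
      simp [Fin.succ]
      ring
    set M : ℕ → ℂ[X][X] := fun n => match n with
      | 0 => 1
      | 1 => X
      | 2 => Q
      | 3 => W
      | 4 => Q ^ 2
      | 5 => Q * W
      | 6 => Q ^ 3
      | (n + 7) => X ^ (n + 7) with hM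
    have hMm : ∀ i, (M i).Monic := by
      intro i
      match i with
      | 0 => exact monic_one
      | 1 => exact monic_X
      | 2 => exact hQm
      | 3 => exact hWm
      | 4 => exact hQm.pow 2
      | 5 => exact hQm.mul hWm
      | 6 => exact hQm.pow 3
      | (n + 7) => exact monic_X_pow _
    have hMd : ∀ i, (M i).natDegree = i := by
      intro i
      match i with
      | 0 => exact natDegree_one
      | 1 => exact natDegree_X
      | 2 => exact hQd
      | 3 => exact hWd
      | 4 => simp only [hM]; rw [hQm.natDegree_pow, hQd]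
      | 5 => simp only [hM]; rw [hQm.natDegree_mul hWm, hQd, hWd]
      | 6 => simp only [hM]; rw [hQm.natDegree_pow, hQd]
      | (n + 7) => exact natDegree_X_pow _
    set k : ℕ → ℂ[X] := fun n => match n with
      | 0 => p 6 * c ^ 3 * d
      | 1 => p 5 * c ^ 3 * d
      | 2 => p 4 * c ^ 2 * d
      | 3 => p 3 * c ^ 2
      | 4 => p 2 * c * d
      | 5 => p 1 * c
      | 6 => p 0 * d
      | (n + 7) => 0 with hk
    have hsum : ∑ i ∈ Finset.range 7, C (k i) * M i = 0 := by
      apply evI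
      · have : (∑ i ∈ Finset.range 7, C (k i) * M i).natDegree ≤ 6 := by
          refine natDegree_sum_le_of_forall_le _ _ ?_
          intro i hi
          rw [Finset.mem_range] at hi
          refine (natDegree_C_mul_le _ _).trans ?_
          rw [hMd i]
          omega
        omega
      · rw [map_sum]
        simp only [Finset.sum_range_succ, Finset.sum_range_zero, hM, hk, map_mul, map_pow, evC,
          evQ, evW, evX, map_one]
        linear_combination (aeval x c) ^ 3 * aeval x d * hp'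
    have hk0 := monic_indep M hMm hMd k 7 hsum
    have c3 : c ^ 3 ≠ 0 := pow_ne_zero _ hc0
    have c2 : c ^ 2 ≠ 0 := pow_ne_zero _ hc0
    have k0 := hk0 0 (by norm_num)
    have k1 := hk0 1 (by norm_num)
    have k2 := hk0 2 (by norm_num)
    have k3 := hk0 3 (by norm_num)
    have k4 := hk0 4 (by norm_num)
    have k5 := hk0 5 (by norm_num)
    have k6 := hk0 6 (by norm_num)
    simp only [hk, mul_eq_zero, c2, c3, hc0, hd0, or_false] at k0 k1 k2 k3 k4 k5 k6
    intro i
    fin_cases i
    · exact k6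
    · exact k5
    · exact k4
    · exact k3
    · exact k2
    · exact k1
    · exact k0
  have hI5 : Indep x ![z * z, w, z, y, 1] := indep_tail _ _ (indep_tail _ _ hI7)
  have he5 : ∀ i, (![z * z, w, z, y, (1 : F)]) i ∈ H x ((![24, 18, 12, 7, 0] : Fin 5 → ℕ) i) := by
    intro i
    fin_cases i
    · exact mul_mem_H hz hz
    · exact hw
    · exact hz
    · exact hy
    · exact one_mem_H
  have he7 : ∀ i, (![z * z * z, z * w, z * z, w, z, y, (1 : F)]) i ∈
      H x ((![36, 30, 24, 18, 12, 7, 0] : Fin 7 → ℕ) i) := by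
    intro i
    fin_cases i
    · exact mul_mem_H (mul_mem_H hz hz) hz
    · exact mul_mem_H hz hw
    · exact mul_mem_H hz hz
    · exact hw
    · exact hz
    · exact hy
    · exact one_mem_H
  obtain ⟨p3, hp3, h3⟩ := exists_rep_of_finrank hx0 _ _ he5 25 hI5 (by
    rw [hN]; simp [Nm, Fin.sum_univ_succ]) (y * w) (mul_mem_H hy hw)
  obtain ⟨p4, hp4, h4⟩ := exists_rep_of_finrank hx0 _ _ he7 36 hI7 (by
    rw [hN]; simp [Nm, Fin.sum_univ_succ]) (w * w) (mul_mem_H hw hw)
  have h3' : y * w = aeval x (p3 0) * (z * z) + aeval x (p3 1) * w + aeval x (p3 2) * z +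
      aeval x (p3 3) * y + aeval x (p3 4) := by
    rw [h3]
    simp only [Fin.sum_univ_succ, Fin.sum_univ_zero]
    simp [Fin.succ]
    ring
  have h4' : w * w = aeval x (p4 0) * (z * z * z) + aeval x (p4 1) * (z * w) +
      aeval x (p4 2) * (z * z) + aeval x (p4 3) * w + aeval x (p4 4) * z +
      aeval x (p4 5) * y + aeval x (p4 6) := by
    rw [h4]
    simp only [Fin.sum_univ_succ, Fin.sum_univ_zero]
    simp [Fin.succ]
    ring
  clear h3 h4
  obtain ⟨l, hl⟩ : ∃ l, l = p3 0 := ⟨_, rfl⟩
  obtain ⟨m, hm⟩ : ∃ m, m = p3 1 := ⟨_, rfl⟩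
  obtain ⟨n, hn⟩ : ∃ n, n = p3 2 := ⟨_, rfl⟩
  obtain ⟨r, hr⟩ : ∃ r, r = p3 3 := ⟨_, rfl⟩
  obtain ⟨s, hs⟩ : ∃ s, s = p3 4 := ⟨_, rfl⟩
  obtain ⟨lam, hlam⟩ : ∃ lam, lam = p4 0 := ⟨_, rfl⟩
  obtain ⟨α, hα⟩ : ∃ α, α = p4 1 := ⟨_, rfl⟩
  obtain ⟨β, hβ⟩ : ∃ β, β = p4 2 := ⟨_, rfl⟩
  obtain ⟨γ, hγ⟩ : ∃ γ, γ = p4 3 := ⟨_, rfl⟩
  obtain ⟨δ, hδ⟩ : ∃ δ, δ = p4 4 := ⟨_, rfl⟩
  obtain ⟨ε, hε⟩ : ∃ ε, ε = p4 5 := ⟨_, rfl⟩
  obtain ⟨ζ, hζ⟩ : ∃ ζ, ζ = p4 6 := ⟨_, rfl⟩
  rw [← hl, ← hm, ← hn, ← hr, ← hs] at h3'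
  rw [← hlam, ← hα, ← hβ, ← hγ, ← hδ, ← hε, ← hζ] at h4'
  -- first associativity
  have A1 := hI7 ![0, 0, d * l - c, d * m + e * d - a * d, d * n + e * e + g * c - a * e - b,
    d * r + e * g + g * a + h - a * g, d * s + e * h + g * b - a * h] (by
      simp only [Fin.sum_univ_succ, Fin.sum_univ_zero]
      simp [Fin.succ]
      linear_combination (-aeval x d) * h3' - aeval x e * h2' - aeval x g * h1' +
        aeval x a * h2' - y * h2' + z * h1')
  have A2 := hI7 ![d * lam - l, d * α + e - m, d * β + g * l - n, d * γ + g * m + h - r * d,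
    d * δ + g * n - r * e - s, d * ε + g * r - r * g, d * ζ + g * s - r * h] (by
      simp only [Fin.sum_univ_succ, Fin.sum_univ_zero]
      simp [Fin.succ]
      linear_combination (-aeval x d) * h4' - aeval x g * h3' + aeval x r * h2' -
        w * h2' + z * h3')
  have a2 : d * l - c = 0 := A1 2
  have a3 : d * m + e * d - a * d = 0 := A1 3
  have a4 : d * n + e * e + g * c - a * e - b = 0 := A1 4
  have b0 : d * lam - l = 0 := A2 0
  have b1 : d * α + e - m = 0 := A2 1
  have b2 : d * β + g * l - n = 0 := A2 2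
  have a3' : m + e - a = 0 := by
    have : d * (m + e - a) = 0 := by linear_combination a3
    rcases mul_eq_zero.mp this with h5 | h5
    · exact absurd h5 hd0
    · exact h5
  -- transfer to F
  have t := fun (P : ℂ[X]) (hP : P = 0) => (congrArg (aeval x : ℂ[X] → F) hP)
  have a2F := t _ a2
  have a3F := t _ a3'
  have a4F := t _ a4
  have b0F := t _ b0
  have b1F := t _ b1
  have b2F := t _ b2
  simp only [map_sub, map_add, map_mul, map_zero] at a2F a3F a4F b0F b1F b2F
  -- the element f
  set f : F := (y - aeval x a / 2) / aeval x d with hf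
  have hf2 : f ^ 2 = aeval x lam * z + aeval x β * 1 + (aeval x lam * (aeval x g * 1)) * 2 +
      (aeval x α * 1) * (aeval x α * 1) * (1 / 4) := by
    rw [hf, div_pow, div_eq_iff (pow_ne_zero 2 hda)]
    have e1 : aeval x a = 2 * aeval x e + aeval x d * aeval x α := by
      linear_combination -a3F - b1F
    have e2 : aeval x l = aeval x d * aeval x lam := by linear_combination -b0F
    have e3 : aeval x c = aeval x d * (aeval x d * aeval x lam) := by
      rw [← e2]; linear_combination -a2F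
    have e4 : aeval x n = aeval x d * aeval x β + aeval x g * (aeval x d * aeval x lam) := by
      rw [← e2]; linear_combination -b2F
    have e5 : aeval x b = aeval x d * aeval x n + aeval x e * aeval x e + aeval x g * aeval x c
      - aeval x a * aeval x e := by linear_combination -a4F
    rw [e4, e3, e1] at e5
    rw [e5, e3, e1] at h1'
    rw [e1]
    linear_combination h1'
  have hlamd : lam ∈ degreeLT ℂ 1 := by
    have := hp4 0
    rw [← hlam] at this
    exact this
  have hαd : α ∈ degreeLT ℂ 7 := by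
    have := hp4 1
    rw [← hα] at this
    exact this
  have hβd : β ∈ degreeLT ℂ 13 := by
    have := hp4 2
    rw [← hβ] at this
    exact this
  have hgd : g ∈ degreeLT ℂ 13 := by
    have := hp2 2
    rw [← hg] at this
    exact this
  have half : ∀ q : ℚ, ∀ v ∈ H x 12, v * (q : F) ∈ H x 12 := by
    intro q v hv
    have : v * (q : F) = (q : ℂ) • v := by
      rw [Algebra.smul_def, map_ratCast, mul_comm]
    rw [this]
    exact Submodule.smul_mem _ _ hv
  have hf2H : f ^ 2 ∈ H x (2 * 6) := by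
    rw [hf2]
    have m1 : aeval x lam * z ∈ H x 12 := aeval_mul_mem_H' hx0 hz _ hlamd
    have m2 : aeval x β * 1 ∈ H x 12 := aeval_mul_mem_H' hx0 one_mem_H _ hβd
    have m3 : aeval x g * 1 ∈ H x 12 := aeval_mul_mem_H' hx0 one_mem_H _ hgd
    have m4 : aeval x lam * (aeval x g * 1) ∈ H x 12 := aeval_mul_mem_H' hx0 m3 _ hlamd
    have m5 : aeval x α * 1 ∈ H x 6 := aeval_mul_mem_H' hx0 one_mem_H _ hαd
    have m6 := mul_mem_H m5 m5
    have m7 := half 2 _ m4
    have m8 := half (1 / 4) _ m6
    have : ((1 / 4 : ℚ) : F) = 1 / 4 := by norm_num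
    rw [this] at m8
    have : ((2 : ℚ) : F) = 2 := by norm_num
    rw [this] at m7
    exact Submodule.add_mem _ (Submodule.add_mem _ (Submodule.add_mem _ m1 m2) m7) m8
  have hf6 : f ∈ H x 6 := mem_H_of_sq hf2H
  obtain ⟨p, _, hpf⟩ := exists_rep_of_finrank hx0 ![(1 : F)] ![0] he1 6 hI1 (by
    rw [hN]; rfl) f hf6
  rw [Fin.sum_univ_one, Matrix.cons_val_zero, mul_one] at hpf
  have hfin := hI2 ![1, - (d * p 0 + C (1 / 2) * a)] (by
    simp only [Fin.sum_univ_two, Matrix.cons_val_zero, Matrix.cons_val_one, map_neg, map_add,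
      map_mul, ← hpf, aeval_C, map_one]
    rw [hf]
    have : algebraMap ℂ F (1 / 2) = 1 / 2 := by
      rw [map_div₀, map_one, map_ofNat]
    rw [this]
    field_simp
    ring) 0
  simp at hfin

end basic

/-- The negation of the preceding statement: For k ≥ 2 and positive nondecreasing a₁..a_{k−1}: a primitive degree‑k cover of ℙ¹ over ℂ, with h⁰(α*𝒪(m)) = Σ_{i=0}^{k−1} max(0, m+1−a_i) for all m (a₀ = 0), exists iff a_{i+j} ≤ a_i + a_j whenever i+j ≤ k−1. -/
theorem result :
    ¬ (∀ (k : ℕ), 2 ≤ k → ∀ (a : ℕ → ℕ),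
      (∀ i, 1 ≤ i → i ≤ k - 1 → 1 ≤ a i) →
      (∀ i j, 1 ≤ i → i ≤ j → j ≤ k - 1 → a i ≤ a j) →
      ((∃ (F : Type) (_ : Field F) (_ : Algebra ℂ F) (x : F),
          Transcendental ℂ x ∧
          FiniteDimensional (IntermediateField.adjoin ℂ ({x} : Set F)) F ∧
          Module.finrank (IntermediateField.adjoin ℂ ({x} : Set F)) F = k ∧
          (∀ E : IntermediateField ℂ F, IntermediateField.adjoin ℂ ({x} : Set F) ≤ E →
              E = IntermediateField.adjoin ℂ ({x} : Set F) ∨ E = ⊤) ∧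
          (∀ m : ℕ, ∃ b : Fin ((m + 1) + ∑ i ∈ Finset.Icc 1 (k - 1), (m + 1 - a i)) → F,
              LinearIndependent ℂ b ∧
              ((Submodule.span ℂ (Set.range b) : Submodule ℂ F) : Set F) =
                {f : F | IsIntegral (Algebra.adjoin ℂ ({x} : Set F)) f ∧
                  IsIntegral (Algebra.adjoin ℂ ({x⁻¹} : Set F)) (f * x⁻¹ ^ m)}))
        ↔ (∀ i j, 1 ≤ i → 1 ≤ j → i + j ≤ k - 1 → a (i + j) ≤ a i + a j))) := by
  intro hall
  have h := (hall 7 (by norm_num) (fun n => if n = 1 then 7 else 6 * n) (by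
      intro i hi1 hi2
      split_ifs <;> omega) (by
      intro i j hi hij hj
      split_ifs <;> omega)).mpr (by
      intro i j hi hj hij
      split_ifs <;> omega)
  obtain ⟨F, hF, hA, x, hx, hfd, hrank, -, hb⟩ := h
  have hspan : ∀ m : ℕ, ∃ b : Fin ((m + 1) + ∑ i ∈ Finset.Icc 1 (7 - 1),
      (m + 1 - (if i = 1 then 7 else 6 * i))) → F,
      LinearIndependent ℂ b ∧ Submodule.span ℂ (Set.range b) = H x m := by
    intro m
    obtain ⟨b, hb1, hb2⟩ := hb m
    refine ⟨b, hb1, ?_⟩
    apply SetLike.coe_injective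
    rw [hb2]
    rfl
  have hfin : ∀ m, Module.Finite ℂ (H x m) := by
    intro m
    obtain ⟨b, hb1, hb2⟩ := hspan m
    rw [← hb2]
    exact Module.Finite.span_of_finite ℂ (Set.finite_range b)
  refine key hx hfd hrank (fun m => ?_)
  obtain ⟨b, hb1, hb2⟩ := hspan m
  rw [← hb2, finrank_span_eq_card hb1, Fintype.card_fin]
  have h6 : Finset.Icc 1 (7 - 1) = {1, 2, 3, 4, 5, 6} := by decide
  rw [h6]
  simp [Nm]
  omega

end Pool.Agent.S00110
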