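import Pool.Statements.S00335
import Pool.Agent.H62.Final

set_option autoImplicit false
open Pool Pool.MP_9d9f8d_ag

namespace Pool.Agent.S00335

/-- For every eventually periodic g with g(t) ≥ 2 for t ≥ 1, some field K and monomial ideal Q in K[x1..xn] have every symbolic power Q^(t) (minimal primes) of projective dimension exactly g(t), t ≥ 1. -/
theorem result :
    ∀ g : ℕ → ℕ,
      (∃ N p : ℕ, 0 < p ∧ ∀ t : ℕ, N ≤ t → g (t + p) = g t) →
      (∀ t : ℕ, 1 ≤ t → 2 ≤ g t) →
      ∃ (K : Type) (_ : Field K) (n : ℕ) (Q : Ideal (MvPolynomial (Fin n) K)),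
        (∃ s : Set (Fin n →₀ ℕ),
            Q = Ideal.span ((fun m => MvPolynomial.monomial m (1 : K)) '' s)) ∧
        ∀ t : ℕ, 1 ≤ t →
          ∃ J : Ideal (MvPolynomial (Fin n) K),
            (∀ f : MvPolynomial (Fin n) K,
                f ∈ J ↔ ∀ P ∈ Q.minimalPrimes, ∃ u : MvPolynomial (Fin n) K,
                  u ∉ P ∧ u * f ∈ Q ^ t) ∧
            CategoryTheory.HasProjectiveDimensionLE
              (ModuleCat.of (MvPolynomial (Fin n) K) J) (g t) ∧
            ¬ CategoryTheory.HasProjectiveDimensionLE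
              (ModuleCat.of (MvPolynomial (Fin n) K) J) (g t - 1) := by
  intro g hper hg
  obtain ⟨N, p, hp, hN⟩ := hper
  obtain ⟨m, hm⟩ := H62.bounded hp hN
  have hle : N + 1 ≤ p * (N + 1) := Nat.le_mul_of_pos_left _ hp
  let A : H62.Par := ⟨g, p * (N + 1), m, by omega,
    fun t ht => H62.period hN (N + 1) t (by omega), hm, hg⟩
  exact A.final

end Pool.Agent.S00335
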