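-- Proof of frozen statement S00548 (negation of the Laksov-Westin conjecture as posed).
import Pool.Statements.S00548

set_option autoImplicit false
open Pool Pool.MP_f28cea_ag

namespace Pool.Agent.S00548

open MvPolynomial in
/-- The coefficient of a monomial evaluated at polynomials of bounded degree. -/
lemma coeff_prod_pow {K : Type} [Field K] {m : ℕ} (G : Fin m → Polynomial K) (N : Fin m → ℕ)
    (hG : ∀ j, (G j).natDegree ≤ N j) (α : Fin m → ℕ) :
    (∏ j, G j ^ α j).coeff (∑ j, α j * N j) = ∏ j, ((G j).coeff (N j)) ^ α j := by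
  have h1 : ∀ s : Finset (Fin m), (∏ j ∈ s, G j ^ α j).natDegree ≤ ∑ j ∈ s, α j * N j ∧
      (∏ j ∈ s, G j ^ α j).coeff (∑ j ∈ s, α j * N j) = ∏ j ∈ s, ((G j).coeff (N j)) ^ α j := by
    classical
    intro s
    induction s using Finset.induction_on with
    | empty => simp
    | insert a s ha ih =>
      rw [Finset.prod_insert ha, Finset.sum_insert ha, Finset.prod_insert ha]
      have h2 : (G a ^ α a).natDegree ≤ α a * N a := by
        refine (Polynomial.natDegree_pow_le).trans ?_
        exact Nat.mul_le_mul_left _ (hG a)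
      constructor
      · exact (Polynomial.natDegree_mul_le).trans (Nat.add_le_add h2 ih.1)
      · rw [Polynomial.coeff_mul_add_eq_of_natDegree_le h2 ih.1, ih.2]
        congr 1
        rw [Polynomial.coeff_pow_of_natDegree_le (hG a)]
  exact (h1 Finset.univ).2

/-- A quasi-homogeneous polynomial over `K` with positive weights and only the trivial zero
in `K` has only the trivial zero in `K[X]`. -/
lemma eq_zero_of_aeval_eq_zero {K : Type} [Field K] {m : ℕ} (w : Fin m → ℕ)
    (hw : ∀ j, 0 < w j) (p : MvPolynomial (Fin m) K) (d : ℕ)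
    (hp : MvPolynomial.IsWeightedHomogeneous w p d)
    (hz : ∀ y : Fin m → K, MvPolynomial.aeval y p = 0 ↔ y = 0)
    (F : Fin m → Polynomial K) (hF : MvPolynomial.aeval F p = 0) : F = 0 := by
  classical
  by_contra hne
  -- choose j0 maximising deg F_j / w_j among nonzero F_j
  have hex : ∃ j, F j ≠ 0 := by
    by_contra hall
    push Not at hall
    exact hne (funext hall)
  let S : Finset (Fin m) := Finset.univ.filter (fun j => F j ≠ 0)
  have hS : S.Nonempty := by
    obtain ⟨j, hj⟩ := hex
    exact ⟨j, by simp [S, hj]⟩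
  obtain ⟨j0, hj0S, hj0⟩ := Finset.exists_max_image S
    (fun j => ((F j).natDegree : ℚ) / (w j : ℚ)) hS
  have hj0ne : F j0 ≠ 0 := by
    simpa [S] using hj0S
  set a := (F j0).natDegree with ha
  set b := w j0 with hb
  have hbpos : 0 < b := hw j0
  have hmax : ∀ j, (F j).natDegree * b ≤ a * w j := by
    intro j
    by_cases hj : F j = 0
    · simp [hj]
    · have := hj0 j (by simp [S, hj])
      have hwj : (0 : ℚ) < w j := by exact_mod_cast hw j
      have hbq : (0 : ℚ) < b := by exact_mod_cast hbpos
      have h3 : ((F j).natDegree : ℚ) * b ≤ a * w j := by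
        rw [div_le_div_iff₀ hwj hbq] at this
        exact this
      exact_mod_cast h3
  -- expanded polynomials
  let G : Fin m → Polynomial K := fun j => Polynomial.expand K b (F j)
  have hGdeg : ∀ j, (G j).natDegree ≤ a * w j := by
    intro j
    simp only [G, Polynomial.natDegree_expand]
    exact hmax j
  have hG0 : MvPolynomial.aeval G p = 0 := by
    have : MvPolynomial.aeval G p = Polynomial.expand K b (MvPolynomial.aeval F p) := by
      have h4 : (MvPolynomial.aeval G : MvPolynomial (Fin m) K →ₐ[K] Polynomial K)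
          = (Polynomial.expand K b).comp (MvPolynomial.aeval F) := by
        apply MvPolynomial.algHom_ext
        intro i
        simp [G]
      rw [h4]; rfl
    rw [this, hF, map_zero]
  let c : Fin m → K := fun j => (G j).coeff (a * w j)
  have hc : MvPolynomial.aeval c p = 0 := by
    have h5 : (MvPolynomial.aeval G p).coeff (a * d) = MvPolynomial.aeval c p := by
      rw [MvPolynomial.aeval_def, MvPolynomial.eval₂_eq', Polynomial.finsetSum_coeff,
        MvPolynomial.aeval_def, MvPolynomial.eval₂_eq']
      apply Finset.sum_congr rfl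
      intro α hα
      have hwt : Finsupp.weight w α = d := hp (MvPolynomial.mem_support_iff.mp hα)
      have hsum : ∑ j, α j * (a * w j) = a * d := by
        rw [← hwt, Finsupp.weight_apply, Finsupp.sum_fintype _ _ (by simp), Finset.mul_sum]
        apply Finset.sum_congr rfl
        intro j _
        simp only [smul_eq_mul]
        ring
      rw [← hsum]
      rw [Polynomial.algebraMap_eq, Polynomial.coeff_C_mul, coeff_prod_pow G _ hGdeg]
      rfl
    rw [← h5, hG0, Polynomial.coeff_zero]
  have hc0 : c = 0 := (hz c).mp hc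
  have h6 : c j0 = 0 := by rw [hc0]; rfl
  have h7 : c j0 = (F j0).leadingCoeff := by
    simp only [c, G]
    rw [← hb, Polynomial.coeff_expand_mul hbpos]
    rfl
  rw [h7] at h6
  exact hj0ne (Polynomial.leadingCoeff_eq_zero.mp h6)

/-- The negation of the preceding statement: For all fields k⊆K and ideals I of k[X1..Xn]: f vanishes on the K-zeros of I iff some block-weighted-homogeneous p over k (increasing positive block weights, only zero in K is 0) has p(f,f1,…,fm) in I. -/
theorem result :
    ¬ (∀ (k K : Type) [Field k] [Field K] [Algebra k K] (n : ℕ)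
      (I : Ideal (MvPolynomial (Fin n) k)) (f : MvPolynomial (Fin n) k),
      (∃ m : ℕ, ∃ w : Fin (m + 1) → ℕ, Monotone w ∧ (∀ j, 0 < w j) ∧
        ∃ p : MvPolynomial (Fin (m + 1)) k, ∃ d : ℕ,
          MvPolynomial.IsWeightedHomogeneous w p d ∧
          (∀ y : Fin (m + 1) → K, MvPolynomial.aeval y p = 0 ↔ y = 0) ∧
          ∃ g : Fin m → MvPolynomial (Fin n) k,
            MvPolynomial.aeval
              (Fin.cons f g : Fin (m + 1) → MvPolynomial (Fin n) k) p ∈ I) ↔
      (∀ x : Fin n → K, (∀ q ∈ I, MvPolynomial.aeval x q = 0) →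
        MvPolynomial.aeval x f = 0)) := by
  intro h
  have hdec : ∀ y : ZMod 2, y ^ 2 - y = 0 := by decide
  obtain ⟨m, w, -, hw, p, d, hp, hz, g, hg⟩ :=
    (h (ZMod 2) (ZMod 2) 1 ⊥ (MvPolynomial.X 0 ^ 2 - MvPolynomial.X 0)).mpr (by
      intro x _
      simp only [map_sub, map_pow, MvPolynomial.aeval_X]
      exact hdec (x 0))
  rw [Ideal.mem_bot] at hg
  let φ : MvPolynomial (Fin 1) (ZMod 2) →ₐ[ZMod 2] Polynomial (ZMod 2) :=
    MvPolynomial.aeval (fun _ => Polynomial.X)
  let F : Fin (m + 1) → Polynomial (ZMod 2) := fun j =>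
    φ ((Fin.cons (MvPolynomial.X 0 ^ 2 - MvPolynomial.X 0) g :
      Fin (m + 1) → MvPolynomial (Fin 1) (ZMod 2)) j)
  have hF : MvPolynomial.aeval F p = 0 := by
    have h4 : (MvPolynomial.aeval F : MvPolynomial (Fin (m + 1)) (ZMod 2) →ₐ[ZMod 2] _)
        = φ.comp (MvPolynomial.aeval
          (Fin.cons (MvPolynomial.X 0 ^ 2 - MvPolynomial.X 0) g :
            Fin (m + 1) → MvPolynomial (Fin 1) (ZMod 2))) := by
      apply MvPolynomial.algHom_ext
      intro i
      simp [F]
    rw [h4, AlgHom.comp_apply, hg, map_zero]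
  have hF0 := eq_zero_of_aeval_eq_zero w hw p d hp hz F hF
  have h8 : F 0 = 0 := by rw [hF0]; rfl
  simp only [F, Fin.cons_zero, φ, map_sub, map_pow, MvPolynomial.aeval_X] at h8
  have h9 := congrArg (fun q => Polynomial.coeff q 2) h8
  simp [Polynomial.coeff_X] at h9

end Pool.Agent.S00548
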