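import Pool.Statements.S00588
import Pool.Agent.CentralAut.Core
import Pool.Agent.CentralAut.Exp5E

set_option autoImplicit false
open Pool Pool.MP_01bd7f_al

namespace Pool.Agent.S00588

lemma derived_of_surj {G P : Type} [Group G] [Group P] (F : G →* P) (hF : Function.Surjective F)
    (k : ℕ) (h : derivedSeries G k = ⊥) : derivedSeries P k = ⊥ := by
  rw [← map_derivedSeries_eq hF k, h, Subgroup.map_bot]

lemma derived_mono {P : Type} [Group P] {a b : ℕ} (hab : a ≤ b) (h : derivedSeries P a = ⊥) :
    derivedSeries P b = ⊥ := by
  rw [eq_bot_iff, ← h]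
  exact derivedSeries_antitone P hab

/-- The negation of the preceding statement: There is a function f such that every finite soluble group with an automorphism of prime order p whose fixed points all lie in the centre has derived length at most f(p). -/
theorem result :
    ¬ (∃ f : ℕ → ℕ, ∀ p : ℕ, p.Prime →
      ∀ (G : Type) [Group G] [Finite G], IsSolvable G →
        ∀ φ : MulAut G, orderOf φ = p →
          (∀ g : G, φ g = g → g ∈ Subgroup.center G) →
            derivedSeries G (f p) = ⊥) := by
  rintro ⟨f, hf⟩
  have hp : Fact (Nat.Prime 5) := ⟨by norm_num⟩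
  obtain ⟨P, _, n, y, hexp, hab, hgen, hne⟩ := Pool.Agent.CentralAut.E5.exists_exp5 (f 5 + 1)
  obtain ⟨G, _, _, φ, hsol, hφ, hfix, F, hF⟩ :=
    Pool.Agent.CentralAut.core 5 P n y hexp hab hgen
  have hφ1 : φ ≠ 1 := by
    rintro rfl
    apply hne
    apply derived_mono (a := 1) (by omega)
    apply derived_of_surj F hF
    rw [derivedSeries_one, commutator_eq_bot_iff_center_eq_top, eq_top_iff]
    intro g _
    exact hfix g rfl
  have hord : orderOf φ = 5 := orderOf_eq_prime hφ hφ1
  have h := hf 5 hp.out G hsol φ hord hfix
  exact hne (derived_mono (Nat.le_succ _) (derived_of_surj F hF _ h))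

end Pool.Agent.S00588
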