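import Pool.Statements.S01116
import Pool.Agent.H59.P1
import Pool.Agent.H59.P2
import Pool.Agent.H59.P3
import Pool.Agent.H59.P4
import Pool.Agent.H59.P5

set_option autoImplicit false
open Pool Pool.MP_32ab7a_al

namespace Pool.Agent.S01116

open Pool.Agent.H59

/-- The negation of the preceding statement: There is a natural number k such that for every finite soluble group G and every maximal subgroup M of G, the derived length of G is at most the derived length of M plus k. -/
theorem result :
    ¬ (∃ k : ℕ, ∀ (G : Type) [Group G] [Finite G], IsSolvable G →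
      ∀ M : Subgroup G, IsCoatom M →
        sInf {n : ℕ | derivedSeries G n = ⊥} ≤
          sInf {n : ℕ | derivedSeries (↥M) n = ⊥} + k) := by
  rintro ⟨k, hk⟩
  -- parameters
  obtain ⟨j, hj⟩ : ∃ j, j = k + 4 := ⟨_, rfl⟩
  obtain ⟨D, gD, fD, W, aW, mW, fW, ρ, hs, hr, hf, hd, hK⟩ := exists_DW (5 * j)
  -- the derived length of D
  obtain ⟨t, ht, htmin⟩ : ∃ t, derivedSeries D t = ⊥ ∧ ∀ i < t, derivedSeries D i ≠ ⊥ := by
    classical
    exact ⟨Nat.find hs.solvable, Nat.find_spec hs.solvable, fun i hi => Nat.find_min hs.solvable hi⟩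
  have ht10 : 10 * j + 1 ≤ t := by
    by_contra hcon
    apply hd
    rw [eq_bot_iff, ← ht]
    exact derivedSeries_antitone D (by omega)
  -- the field
  have : Fact (Nat.Prime 3) := ⟨Nat.prime_three⟩
  set n := t - 3 with hn
  let K := GaloisField 3 (2 ^ n)
  have hKrank : Module.finrank (ZMod 3) K = 2 ^ n := GaloisField.finrank 3 (by positivity)
  have : Finite K := inferInstance
  have : Module.Finite (ZMod 3) K := Module.Finite.of_finite
  have : Module.Finite (ZMod 3) W := Module.Finite.of_finite
  obtain ⟨hnf, hirr⟩ := hK K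
  obtain ⟨w, hw⟩ : ∃ u : W, u ≠ 0 := by
    by_contra hcon
    push Not at hcon
    have : Subsingleton W := ⟨fun a b => by rw [hcon a, hcon b]⟩
    rw [Module.finrank_zero_of_subsingleton] at hr
    exact absurd hr.symm (by positivity)
  -- finiteness
  have : Finite (W →ₗ[ZMod 3] K) := Finite.of_injective (fun f => (f : W → K)) DFunLike.coe_injective
  have : Finite (Multiplicative (W →ₗ[ZMod 3] K)) := inferInstance
  have : Finite (QQ K ρ) := finite_sdp _
  have : Finite (W × K →₀ ZMod 3) :=
    Finite.of_injective (fun f => (f : W × K → ZMod 3)) DFunLike.coe_injective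
  have : Finite (GA (W × K)) := Finite.of_injective _ AddMonoidAlgebra.coeff_injective
  have : Finite (Matrix (Fin 3) (Fin 3) (GA (W × K))) := inferInstance
  have : Finite (Matrix.GeneralLinearGroup (Fin 3) (GA (W × K))) := inferInstance
  have : Finite (NN (W × K)) := inferInstance
  have hfin : Finite (GG K ρ) := finite_sdp _
  -- solvability
  have : Group.IsSolvable D := hs
  have : Group.IsSolvable (QQ K ρ) :=
    Group.isSolvable_of_ker_le_range (SemidirectProduct.inl (φ := thetaAct K ρ))
      SemidirectProduct.rightHom (by rw [SemidirectProduct.range_inl_eq_ker_rightHom])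
  have : Group.IsSolvable (NN (W × K)) := NN_solvable (W × K)
  have hsol : Group.IsSolvable (GG K ρ) :=
    Group.isSolvable_of_ker_le_range (SemidirectProduct.inl (φ := phiAct K ρ))
      SemidirectProduct.rightHom (by rw [SemidirectProduct.range_inl_eq_ker_rightHom])
  -- maximality
  have hmax : IsCoatom (MM K ρ) := MM_coatom K ρ ⟨w, hw⟩ hirr
  have hmain := hk (GG K ρ) hsol (MM K ρ) hmax
  -- lower bound for G
  have hlow : derivedSeries (GG K ρ) (t + n) ≠ ⊥ :=
    GG_derived_ne_bot K ρ w hw t n hKrank (V_le_derived K ρ hf hirr t htmin t le_rfl)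
  have hG : t + n < sInf {n : ℕ | derivedSeries (GG K ρ) n = ⊥} := by
    by_contra hcon
    push Not at hcon
    have hne : {n : ℕ | derivedSeries (GG K ρ) n = ⊥}.Nonempty := hsol.solvable
    have h1 : derivedSeries (GG K ρ) (sInf {n : ℕ | derivedSeries (GG K ρ) n = ⊥}) = ⊥ :=
      Nat.sInf_mem hne
    apply hlow
    rw [eq_bot_iff, ← h1]
    exact derivedSeries_antitone _ hcon
  -- upper bound for M
  have hpow : (243 : ℕ) ^ j ≤ 256 ^ j := Nat.pow_le_pow_left (by norm_num) j
  have hM : derivedSeries ↥(MM K ρ) (t + (8 * j + 2)) = ⊥ := by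
    apply MM_derived K ρ t (n + 2) (8 * j + 2) ht
    · apply pow_bot_mono aug_pow
      rw [hKrank, pow_add]
      have : 1 ≤ 2 ^ n := Nat.one_le_two_pow
      omega
    · apply pow_bot_mono ker_snd_pow
      have e1 : (3 : ℕ) ^ (5 * j) = 243 ^ j := by rw [pow_mul]; norm_num
      have e2 : (2 : ℕ) ^ (8 * j + 2) = 256 ^ j * 4 := by rw [pow_add, pow_mul]; norm_num
      rw [hr, e1, e2]
      have : 1 ≤ 256 ^ j := Nat.one_le_pow _ _ (by norm_num)
      omega
    · omega
  have hM' : sInf {n : ℕ | derivedSeries ↥(MM K ρ) n = ⊥} ≤ t + (8 * j + 2) := Nat.sInf_le hM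
  omega

end Pool.Agent.S01116
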