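import Pool.Statements.S01251
import Pool.Agent.Thompson.TUpper
import Pool.Agent.Thompson.PartTLower
import Pool.Agent.Thompson.PartV

set_option autoImplicit false
open Pool Pool.MP_3d8b4c_al

namespace Pool.Agent.S01251

open Pool.Agent.Thompson in
/-- With Thompson's V, F, T realized as dyadic piecewise-linear bijections of [0,1), every element of F' is a commutator of elements of F', every element of V' is a commutator in V, and T' has commutator width exactly 2. -/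
theorem result :
    ∀ V F T : Subgroup (Equiv.Perm ℝ),
      V = Subgroup.closure {σ : Equiv.Perm ℝ |
        (∀ x : ℝ, x ∉ Set.Ico (0:ℝ) 1 → σ x = x) ∧
        ∃ n : ℕ, ∃ a : ℕ → ℝ, ∃ k : ℕ → ℤ, ∃ c : ℕ → ℝ,
          a 0 = 0 ∧ a n = 1 ∧ (∀ i < n, a i < a (i + 1)) ∧
          (∀ i ≤ n, ∃ m : ℤ, ∃ e : ℕ, a i = (m : ℝ) / 2 ^ e) ∧
          (∀ i < n, ∃ m : ℤ, ∃ e : ℕ, c i = (m : ℝ) / 2 ^ e) ∧
          ∀ i < n, ∀ x ∈ Set.Ico (a i) (a (i + 1)), σ x = (2:ℝ) ^ (k i) * x + c i} →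
      F = Subgroup.closure {σ : Equiv.Perm ℝ |
        σ ∈ V ∧ StrictMonoOn (⇑σ) (Set.Ico (0:ℝ) 1)} →
      T = Subgroup.closure {σ : Equiv.Perm ℝ |
        σ ∈ V ∧ ∃ t ∈ Set.Ico (0:ℝ) 1,
          ContinuousOn (⇑σ) (Set.Ico (0:ℝ) t) ∧ ContinuousOn (⇑σ) (Set.Ico t 1) ∧
          StrictMonoOn (⇑σ) (Set.Ico (0:ℝ) t) ∧ StrictMonoOn (⇑σ) (Set.Ico t 1) ∧
          σ t = 0} →
      (⁅⁅F, F⁆, ⁅F, F⁆⁆ ≠ ⊥ ∧
        ∀ g ∈ ⁅⁅F, F⁆, ⁅F, F⁆⁆, ∃ a ∈ ⁅F, F⁆, ∃ b ∈ ⁅F, F⁆, g = a * b * a⁻¹ * b⁻¹) ∧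
      (⁅V, V⁆ ≠ ⊥ ∧
        ∀ g ∈ ⁅V, V⁆, ∃ a ∈ V, ∃ b ∈ V, g = a * b * a⁻¹ * b⁻¹) ∧
      ((∀ g ∈ ⁅T, T⁆, ∃ a ∈ T, ∃ b ∈ T, ∃ c ∈ T, ∃ d ∈ T,
          g = (a * b * a⁻¹ * b⁻¹) * (c * d * c⁻¹ * d⁻¹)) ∧
        ∃ g ∈ ⁅T, T⁆, ∀ a ∈ T, ∀ b ∈ T, g ≠ a * b * a⁻¹ * b⁻¹) := by
  intro V F T hV hF hT
  have hV' : V = VV := hV
  subst hV'
  have hF' : F = FF := hF
  have hT' : T = TT := hT
  subst hF' hT'
  have hFV : FF ≤ VV := FF_le_VV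
  have comm_le : ∀ K : Subgroup (Equiv.Perm ℝ), ⁅K, K⁆ ≤ K := fun K => Subgroup.commutator_le.2 (fun x hx y hy => by
    rw [commutatorElement_def]
    exact K.mul_mem (K.mul_mem (K.mul_mem hx hy) (K.inv_mem hx)) (K.inv_mem hy))
  refine ⟨partF, ⟨?_, fun g hg => partV g (comm_le _ hg)⟩, fun g hg => partT_upper g (comm_le _ hg), ?_⟩
  · intro h
    have h1 : ⁅⁅FF, FF⁆, ⁅FF, FF⁆⁆ ≤ ⁅VV, VV⁆ := Subgroup.commutator_mono ((comm_le _).trans hFV) ((comm_le _).trans hFV)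
    rw [h] at h1
    exact partF.1 (le_bot_iff.1 h1)
  · obtain ⟨R, hR, hRl⟩ := exists_of_lift (tr_mem Dy.one.div_two) (fun t => by simp; ring)
    refine ⟨R, TT_le_commutator hR, partT_lower (fun x hx => ?_) (fun x hx => ?_)⟩
    · have h1 := hRl.2.2 x
      rw [Int.fract_eq_self.2 ⟨hx.1, by linarith [hx.2]⟩, tr_apply,
        Int.fract_eq_self.2 ⟨by linarith [hx.1], by linarith [hx.2]⟩] at h1
      exact h1
    · have h1 := hRl.2.2 x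
      rw [Int.fract_eq_self.2 ⟨by linarith [hx.1], hx.2⟩, tr_apply] at h1
      rw [h1, Int.fract_eq_iff]
      exact ⟨by linarith [hx.1], by linarith [hx.2], 1, by push_cast; ring⟩

end Pool.Agent.S01251
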