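import Pool.Statements.S01930
import Pool.Agent.helper56.HartleyD

set_option autoImplicit false
open Pool Pool.MP_7538d4_al

namespace Pool.Agent.S01930

/-- The negation of the preceding statement: Every simple group in which finitely generated subgroups are finite, and which has a finite subgroup with finite centralizer, embeds injectively into the group of invertible n by n matrices over some field. -/
theorem result :
    ¬ (∀ (G : Type) [Group G], IsSimpleGroup G →
      (∀ s : Finset G, Finite (Subgroup.closure (s : Set G))) →
      (∃ H : Subgroup G, Finite H ∧ Finite (Subgroup.centralizer (H : Set G))) →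
      ∃ (K : Type) (_ : Field K) (n : ℕ)
        (f : G →* Matrix.GeneralLinearGroup (Fin n) K), Function.Injective f) := by
  intro h
  obtain ⟨L, instL, h1, h2, h3, h4⟩ := Pool.Agent.Hartley56.main
  exact h4 (h L h1 h2 h3)

end Pool.Agent.S01930
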