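import Pool.Statements.S02888
import Pool.Agent.helper55.Series

set_option autoImplicit false
open Pool Pool.MP_bc5942_al

namespace Pool.Agent.S02888

open Pool.Agent.Helper55

/-- A simple subgroup has a composition series (of length one) in the sense of the problem. -/
lemma series_of_simple {G : Type} [Group G] (A : Subgroup G) (hA : IsSimpleGroup A) :
    (∃ n : ℕ, ∃ s : Fin (n+1) → Subgroup G, s 0 = ⊥ ∧ s (Fin.last n) = A ∧
      ∀ i : Fin n, s i.castSucc ≤ s i.succ ∧
        ((s i.castSucc).subgroupOf (s i.succ)).Normal ∧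
        (s i.castSucc).subgroupOf (s i.succ) ≠ ⊤ ∧
        ∀ M : Subgroup (s i.succ), M.Normal →
          (s i.castSucc).subgroupOf (s i.succ) ≤ M →
          M = (s i.castSucc).subgroupOf (s i.succ) ∨ M = ⊤) := by
  obtain ⟨s, hs0, hs1⟩ : ∃ s : Fin (1+1) → Subgroup G, s 0 = ⊥ ∧ s 1 = A :=
    ⟨fun i => if i = 0 then ⊥ else A, if_pos rfl, if_neg (by decide)⟩
  refine ⟨1, s, hs0, hs1, ?_⟩
  intro i
  have hi : i = 0 := Subsingleton.elim _ _
  subst hi
  have h0 : s (Fin.castSucc (0 : Fin 1)) = ⊥ := hs0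
  have h1 : s (Fin.succ (0 : Fin 1)) = A := hs1
  have hA' : IsSimpleGroup (s (Fin.succ (0 : Fin 1))) := by rw [h1]; exact hA
  refine ⟨?_, ?_, ?_, ?_⟩
  · rw [h0]; exact bot_le
  · rw [h0, Subgroup.bot_subgroupOf]; infer_instance
  · rw [h0, Subgroup.bot_subgroupOf]
    exact bot_ne_top
  · intro M hM _
    rw [h0, Subgroup.bot_subgroupOf]
    exact hM.eq_bot_or_eq_top

/-- The negation of the preceding statement: For every group G and subgroups A, B with every element of G equal to a·b (a in A, b in B): if A and B each have a composition series (finite subnormal chain with simple nontrivial factors), then G has one. -/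
theorem result :
    ¬ (∀ (G : Type) [Group G] (A B : Subgroup G),
    (∀ g : G, ∃ a ∈ A, ∃ b ∈ B, g = a * b) →
    (∃ n : ℕ, ∃ s : Fin (n+1) → Subgroup G, s 0 = ⊥ ∧ s (Fin.last n) = A ∧
      ∀ i : Fin n, s i.castSucc ≤ s i.succ ∧
        ((s i.castSucc).subgroupOf (s i.succ)).Normal ∧
        (s i.castSucc).subgroupOf (s i.succ) ≠ ⊤ ∧
        ∀ M : Subgroup (s i.succ), M.Normal →
          (s i.castSucc).subgroupOf (s i.succ) ≤ M →
          M = (s i.castSucc).subgroupOf (s i.succ) ∨ M = ⊤) →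
    (∃ n : ℕ, ∃ s : Fin (n+1) → Subgroup G, s 0 = ⊥ ∧ s (Fin.last n) = B ∧
      ∀ i : Fin n, s i.castSucc ≤ s i.succ ∧
        ((s i.castSucc).subgroupOf (s i.succ)).Normal ∧
        (s i.castSucc).subgroupOf (s i.succ) ≠ ⊤ ∧
        ∀ M : Subgroup (s i.succ), M.Normal →
          (s i.castSucc).subgroupOf (s i.succ) ≤ M →
          M = (s i.castSucc).subgroupOf (s i.succ) ∨ M = ⊤) →
    (∃ n : ℕ, ∃ s : Fin (n+1) → Subgroup G, s 0 = ⊥ ∧ s (Fin.last n) = ⊤ ∧
      ∀ i : Fin n, s i.castSucc ≤ s i.succ ∧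
        ((s i.castSucc).subgroupOf (s i.succ)).Normal ∧
        (s i.castSucc).subgroupOf (s i.succ) ≠ ⊤ ∧
        ∀ M : Subgroup (s i.succ), M.Normal →
          (s i.castSucc).subgroupOf (s i.succ) ≤ M →
          M = (s i.castSucc).subgroupOf (s i.succ) ∨ M = ⊤)) := by
  intro h
  have h1 := h GG iA.range iB.range factorization
    (series_of_simple _ simple_A) (series_of_simple _ simple_B)
  exact no_comp_series (NK 0) (fun x hx y hy => NK_comm hx hy) NK_infinite h1

end Pool.Agent.S02888
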