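import Pool.Statements.S03436
import Pool.Agent.OD.Assemble

set_option autoImplicit false
open Pool Pool.MP_ea127f_al

namespace Pool.Agent.S03436

/-- The negation of the preceding statement: Every finite-dimensional complex simple Lie algebra is the internal direct sum of finitely many Cartan subalgebras, any two of which are orthogonal with respect to the Killing form. -/
theorem result :
    ¬ (∀ (L : Type) [LieRing L] [LieAlgebra ℂ L] [FiniteDimensional ℂ L]
      [LieAlgebra.IsSimple ℂ L],
      ∃ (n : ℕ) (H : Fin n → LieSubalgebra ℂ L),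
        (∀ i, (H i).IsCartanSubalgebra) ∧
        DirectSum.IsInternal (fun i => (H i).toSubmodule) ∧
        (∀ i j, i ≠ j → ∀ x ∈ H i, ∀ y ∈ H j, killingForm ℂ L x y = 0)) := by
  letI : LieRing (Matrix Pool.Agent.OD.I6 Pool.Agent.OD.I6 ℂ) := LieRing.ofAssociativeRing
  intro hall
  obtain ⟨n, H, hC, hI, ho⟩ := hall Pool.Agent.OD.Lsp
  obtain ⟨G, hG⟩ := Pool.Agent.OD.frames_of_decomp n H hC hI ho
  exact Pool.Agent.OD.no_frames n G hG

end Pool.Agent.S03436
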