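import Pool.Statements.S03482
import Pool.Agent.ThompsonV.Encode

set_option autoImplicit false
open Pool Pool.MP_ed747a_al

namespace Pool.Agent.S03482

/-- The negation of the preceding statement: Satisfiability of finite systems of equations with constants in Thompson's group V (Cantor-space permutations acting by finite prefix replacements, constants given by prefix tables) is a computable predicate. -/
theorem result :
    ¬ (ComputablePred (fun S : List (List ((ℕ ⊕ List (List Bool × List Bool)) × Bool)) =>
      ∃ σ : ℕ → Equiv.Perm (ℕ → Bool),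
      ∃ τ : List (List Bool × List Bool) → Equiv.Perm (ℕ → Bool),
        (∀ n : ℕ, ∃ D : List (List Bool × List Bool),
            (∀ w : ℕ → Bool, ∃ p ∈ D, ∀ i : ℕ, ∀ h : i < p.1.length, w i = p.1.get ⟨i, h⟩) ∧
            ∀ p ∈ D, ∀ w : ℕ → Bool,
              σ n (fun k => if h : k < p.1.length then p.1.get ⟨k, h⟩ else w (k - p.1.length)) =
                (fun k => if h : k < p.2.length then p.2.get ⟨k, h⟩ else w (k - p.2.length))) ∧
        (∀ e ∈ S, ∀ x ∈ e, ∀ D : List (List Bool × List Bool), x.1 = Sum.inr D →
            (∀ w : ℕ → Bool, ∃ p ∈ D, ∀ i : ℕ, ∀ h : i < p.1.length, w i = p.1.get ⟨i, h⟩) ∧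
            ∀ p ∈ D, ∀ w : ℕ → Bool,
              τ D (fun k => if h : k < p.1.length then p.1.get ⟨k, h⟩ else w (k - p.1.length)) =
                (fun k => if h : k < p.2.length then p.2.get ⟨k, h⟩ else w (k - p.2.length))) ∧
        ∀ e ∈ S,
          (e.map (fun x => if x.2 then Sum.elim σ τ x.1 else (Sum.elim σ τ x.1)⁻¹)).prod = 1)) := by
  exact Pool.Agent.ThompsonV.not_computable

end Pool.Agent.S03482
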