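import Pool.Statements.S03708
import Pool.Agent.MP_04e188_an.Core
import Pool.Agent.MP_04e188_an.Quadric

set_option autoImplicit false
open Pool Pool.MP_04e188_an

namespace Pool.Agent.S03708

lemma hull_real (x : Fin 3 → ℂ) (hx : Pool.Agent.MP_04e188_an.dt x x = 1)
    (h : ∀ f : (Fin 3 → ℂ) → ℂ, Differentiable ℂ f →
      ∀ c : ℝ, (∀ y ∈ Pool.Agent.MP_04e188_an.rS, ‖f y‖ ≤ c) → ‖f x‖ ≤ c) :
    x ∈ Pool.Agent.MP_04e188_an.rS := by
  refine ⟨hx, ?_⟩
  have hd : ∀ i : Fin 3, Differentiable ℂ fun z : Fin 3 → ℂ => (z i - ((x i).re : ℂ)) ^ 2 := fun i =>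
    (((ContinuousLinearMap.proj i : (Fin 3 → ℂ) →L[ℂ] ℂ).differentiable).sub_const _).pow 2
  have h1 := h (fun z => Complex.exp (-((z 0 - ((x 0).re : ℂ)) ^ 2 + (z 1 - ((x 1).re : ℂ)) ^ 2 +
    (z 2 - ((x 2).re : ℂ)) ^ 2))) ((((hd 0).add (hd 1)).add (hd 2)).neg.cexp) 1 (by
      rintro y ⟨-, hy⟩
      have h2 : ∀ i, y i = ((y i).re : ℂ) := fun i => Complex.ext rfl (by simp [hy i])
      rw [Complex.norm_exp, Real.exp_le_one_iff, h2 0, h2 1, h2 2]
      simp only [← Complex.ofReal_sub, ← Complex.ofReal_pow, ← Complex.ofReal_add, ← Complex.ofReal_neg,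
        Complex.ofReal_re]
      nlinarith [sq_nonneg ((y 0).re - (x 0).re), sq_nonneg ((y 1).re - (x 1).re),
        sq_nonneg ((y 2).re - (x 2).re)])
  have h3 : ∀ i, x i - ((x i).re : ℂ) = ((x i).im : ℂ) * Complex.I := fun i => by
    apply Complex.ext <;> simp
  simp only [h3, mul_pow, Complex.I_sq] at h1
  rw [Complex.norm_exp, Real.exp_le_one_iff] at h1
  have h4 : (-(((x 0).im : ℂ) ^ 2 * -1 + ((x 1).im : ℂ) ^ 2 * -1 + ((x 2).im : ℂ) ^ 2 * -1)) =
      (((x 0).im ^ 2 + (x 1).im ^ 2 + (x 2).im ^ 2 : ℝ) : ℂ) := by push_cast; ring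
  rw [h4, Complex.ofReal_re] at h1
  have e0 : (x 0).im = 0 := by nlinarith [sq_nonneg (x 0).im, sq_nonneg (x 1).im, sq_nonneg (x 2).im]
  have e1 : (x 1).im = 0 := by nlinarith [sq_nonneg (x 0).im, sq_nonneg (x 1).im, sq_nonneg (x 2).im]
  have e2 : (x 2).im = 0 := by nlinarith [sq_nonneg (x 0).im, sq_nonneg (x 1).im, sq_nonneg (x 2).im]
  intro i
  fin_cases i
  · exact e0
  · exact e1
  · exact e2

lemma isCompact_rS : IsCompact Pool.Agent.MP_04e188_an.rS := by
  have hc : ∀ i : Fin 3, Continuous fun x : Fin 3 → ℂ => x i := fun i => continuous_apply i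
  apply Metric.isCompact_of_isClosed_isBounded
  · have h1 : IsClosed {x : Fin 3 → ℂ | Pool.Agent.MP_04e188_an.dt x x = 1} := by
      refine isClosed_eq ?_ continuous_const
      simp only [Pool.Agent.MP_04e188_an.dt]
      exact (((hc 0).mul (hc 0)).add ((hc 1).mul (hc 1))).add ((hc 2).mul (hc 2))
    have h2 : IsClosed {x : Fin 3 → ℂ | ∀ i, (x i).im = 0} := by
      simp only [Set.ofPred_forall]
      exact isClosed_iInter fun i => isClosed_eq (Complex.continuous_im.comp (hc i)) continuous_const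
    exact h1.inter h2
  · rw [Metric.isBounded_iff_subset_closedBall 0]
    refine ⟨1, ?_⟩
    rintro x ⟨hx, hr⟩
    rw [mem_closedBall_zero_iff, pi_norm_le_iff_of_nonneg zero_le_one]
    have h2 : ∀ i, x i = ((x i).re : ℂ) := fun i => Complex.ext rfl (by simp [hr i])
    have h3 : (x 0).re ^ 2 + (x 1).re ^ 2 + (x 2).re ^ 2 = 1 := by
      simp only [Pool.Agent.MP_04e188_an.dt] at hx
      rw [h2 0, h2 1, h2 2] at hx
      norm_cast at hx
      linarith
    intro i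
    rw [h2 i, Complex.norm_real, Real.norm_eq_abs, abs_le_one_iff_mul_self_le_one]
    fin_cases i
    · change (x 0).re * (x 0).re ≤ 1
      nlinarith [sq_nonneg (x 0).re, sq_nonneg (x 1).re, sq_nonneg (x 2).re]
    · change (x 1).re * (x 1).re ≤ 1
      nlinarith [sq_nonneg (x 0).re, sq_nonneg (x 1).re, sq_nonneg (x 2).re]
    · change (x 2).re * (x 2).re ≤ 1
      nlinarith [sq_nonneg (x 0).re, sq_nonneg (x 1).re, sq_nonneg (x 2).re]

/-- The negation of the preceding statement: Every smooth irreducible positive-dimensional complex affine variety in C^n whose overshear fields generate all algebraic vector fields has a holomorphic automorphism moving each compact holomorphically convex proper subset off itself with convex union. -/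
theorem result :
    ¬ (∀ (n : ℕ) (I : Ideal (MvPolynomial (Fin n) ℂ)),
      I.IsPrime → ¬ I.IsMaximal →
      Algebra.Smooth ℂ (MvPolynomial (Fin n) ℂ ⧸ I) →
      LieSubalgebra.lieSpan ℂ
          (Derivation ℂ (MvPolynomial (Fin n) ℂ ⧸ I) (MvPolynomial (Fin n) ℂ ⧸ I))
          {V | ∃ Θ : Derivation ℂ (MvPolynomial (Fin n) ℂ ⧸ I) (MvPolynomial (Fin n) ℂ ⧸ I),
              (∀ g : MvPolynomial (Fin n) ℂ ⧸ I, ∃ k : ℕ, (⇑Θ)^[k] g = 0) ∧
              ∃ f : MvPolynomial (Fin n) ℂ ⧸ I, Θ (Θ f) = 0 ∧ V = f • Θ} = ⊤ →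
      ∃ F G : (Fin n → ℂ) → (Fin n → ℂ),
        Differentiable ℂ F ∧ Differentiable ℂ G ∧
        (∀ x : Fin n → ℂ, (∀ p ∈ I, MvPolynomial.eval x p = 0) →
          (∀ p ∈ I, MvPolynomial.eval (F x) p = 0) ∧
          (∀ p ∈ I, MvPolynomial.eval (G x) p = 0) ∧
          G (F x) = x ∧ F (G x) = x) ∧
        ∀ K : Set (Fin n → ℂ),
          K ⊆ {x | ∀ p ∈ I, MvPolynomial.eval x p = 0} →
          IsCompact K →
          K ≠ {x | ∀ p ∈ I, MvPolynomial.eval x p = 0} →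
          (∀ x : Fin n → ℂ, (∀ p ∈ I, MvPolynomial.eval x p = 0) →
            (∀ f : (Fin n → ℂ) → ℂ, Differentiable ℂ f →
              ∀ c : ℝ, (∀ y ∈ K, ‖f y‖ ≤ c) → ‖f x‖ ≤ c) → x ∈ K) →
          ∃ m : ℕ, (F^[m] '' K) ∩ K = ∅ ∧
            ∀ x : Fin n → ℂ, (∀ p ∈ I, MvPolynomial.eval x p = 0) →
              (∀ f : (Fin n → ℂ) → ℂ, Differentiable ℂ f →
                ∀ c : ℝ, (∀ y ∈ (F^[m] '' K) ∪ K, ‖f y‖ ≤ c) → ‖f x‖ ≤ c) →
              x ∈ (F^[m] '' K) ∪ K) := by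
  intro H
  obtain ⟨F, G, hF, hG, hFG, hK⟩ := H 3 Pool.Agent.MP_04e188_an.qI Pool.Agent.MP_04e188_an.qI_prime
    Pool.Agent.MP_04e188_an.qI_not_maximal Pool.Agent.MP_04e188_an.qI_smooth
    Pool.Agent.MP_04e188_an.qData.overshear
  have hX : ∀ x : Fin 3 → ℂ, (∀ p ∈ Pool.Agent.MP_04e188_an.qI, MvPolynomial.eval x p = 0) ↔
      Pool.Agent.MP_04e188_an.dt x x = 1 := by
    intro x
    rw [Pool.Agent.MP_04e188_an.vanish_iff]
    simp only [Pool.Agent.MP_04e188_an.dt, pow_two]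
  simp only [hX] at hFG hK
  obtain ⟨m, hm, -⟩ := hK Pool.Agent.MP_04e188_an.rS (fun x hx => hx.1) isCompact_rS
    (by
      intro heq
      have h1 : (![5 / 3, 4 / 3 * Complex.I, 0] : Fin 3 → ℂ) ∈ Pool.Agent.MP_04e188_an.rS := by
        rw [heq]
        change Pool.Agent.MP_04e188_an.dt _ _ = 1
        simp only [Pool.Agent.MP_04e188_an.dt, Matrix.cons_val_zero, Matrix.cons_val_one, Matrix.cons_val]
        have := Complex.I_mul_I
        linear_combination (16 / 9) * this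
      have h2 := h1.2 1
      simp at h2)
    (fun x hx h => hull_real x hx h)
  have hFm : ∀ k : ℕ, Differentiable ℂ F^[k] ∧ Differentiable ℂ G^[k] ∧
      ∀ x, Pool.Agent.MP_04e188_an.dt x x = 1 →
        Pool.Agent.MP_04e188_an.dt (F^[k] x) (F^[k] x) = 1 ∧ G^[k] (F^[k] x) = x := by
    intro k
    induction k with
    | zero => exact ⟨differentiable_id, differentiable_id, fun x hx => ⟨hx, rfl⟩⟩
    | succ k ih =>
      refine ⟨?_, ?_, fun x hx => ?_⟩
      · rw [Function.iterate_succ]; exact ih.1.comp hF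
      · rw [Function.iterate_succ]; exact ih.2.1.comp hG
      · obtain ⟨h1, h2⟩ := ih.2.2 x hx
        obtain ⟨h3, -, h4, -⟩ := hFG _ h1
        refine ⟨?_, ?_⟩
        · rw [Function.iterate_succ_apply']; exact h3
        · rw [Function.iterate_succ_apply' F, Function.iterate_succ_apply, h4, h2]
  obtain ⟨h1, h2, h3⟩ := hFm m
  obtain ⟨x, hx, hFx⟩ := Pool.Agent.MP_04e188_an.core F^[m] G^[m] h1 h2 (fun x hx => (h3 x hx.1).1)
    (fun x hx => (h3 x hx.1).2)
  have : F^[m] x ∈ (F^[m] '' Pool.Agent.MP_04e188_an.rS) ∩ Pool.Agent.MP_04e188_an.rS :=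
    ⟨⟨x, hx, rfl⟩, hFx⟩
  rw [hm] at this
  exact this

end Pool.Agent.S03708
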