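import Pool.Statements.S05476
import Pool.Agent.Helper68.RieszFinal

set_option autoImplicit false
open Real Filter Topology MeasureTheory
open Pool Pool.MP_96fdd3_an

namespace Pool.Agent.S05476

/-- The negation of the preceding statement: For log-convex positive M_n with xⁿ/M_n→0 and C{M_n} quasianalytic: if f is integrable on the circle, its negative-frequency part lies in C{M_n} and is nonzero, then f≠0 a.e. and log∣f∣ is integrable. -/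
theorem result :
    ¬ (∀ M : ℕ → ℝ,
      (∀ n, 0 < M n) →
      (∀ n : ℕ, 1 ≤ n → M n ^ 2 ≤ M (n - 1) * M (n + 1)) →
      (∀ x : ℝ, 0 ≤ x → Tendsto (fun n : ℕ => x ^ n / M n) atTop (𝓝 0)) →
      (∀ g : ℝ → ℂ, ContDiff ℝ ((⊤ : ℕ∞) : WithTop ℕ∞) g → Function.Periodic g (2 * π) →
        (∃ C Q : ℝ, 0 < C ∧ 0 < Q ∧ ∀ n : ℕ, ∀ x : ℝ, ‖iteratedDeriv n g x‖ ≤ C * Q ^ n * M n) →
        (∃ x₀ : ℝ, ∀ n : ℕ, iteratedDeriv n g x₀ = 0) → g = 0) →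
      ∀ f : ℝ → ℂ, Function.Periodic f (2 * π) → IntegrableOn f (Set.Ioc 0 (2 * π)) →
        (∃ n : ℤ, n < 0 ∧
          (∫ x in (0 : ℝ)..2 * π, Complex.exp (-(n : ℂ) * Complex.I * (x : ℂ)) * f x) ≠ 0) →
        (∃ g : ℝ → ℂ, ContDiff ℝ ((⊤ : ℕ∞) : WithTop ℕ∞) g ∧ Function.Periodic g (2 * π) ∧
          (∃ C Q : ℝ, 0 < C ∧ 0 < Q ∧ ∀ n : ℕ, ∀ x : ℝ, ‖iteratedDeriv n g x‖ ≤ C * Q ^ n * M n) ∧
          ∀ n : ℤ, (∫ x in (0 : ℝ)..2 * π, Complex.exp (-(n : ℂ) * Complex.I * (x : ℂ)) * g x) =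
            if n < 0 then
              (∫ x in (0 : ℝ)..2 * π, Complex.exp (-(n : ℂ) * Complex.I * (x : ℂ)) * f x)
            else 0) →
        (∀ᵐ x ∂(volume.restrict (Set.Ioc (0 : ℝ) (2 * π))), f x ≠ 0) ∧
          IntegrableOn (fun x => Real.log ‖f x‖) (Set.Ioc 0 (2 * π))) := by
  intro H
  obtain ⟨f, hc, hp, hne, hNB, hsm⟩ := Pool.Agent.Helper68.Riesz.exists_limit
  have h := H (Pool.Agent.Helper68.Riesz.Mseq f) (Pool.Agent.Helper68.Riesz.M_pos hNB)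
    (Pool.Agent.Helper68.Riesz.M_logconvex hNB) (Pool.Agent.Helper68.Riesz.M_tendsto hNB)
    ?_ f hp ?_ ⟨-1, by norm_num, hne⟩
    ⟨Pool.Agent.Helper68.Riesz.Pr f, Pool.Agent.Helper68.Riesz.Pr_contDiff hNB,
      Pool.Agent.Helper68.Riesz.Pr_periodic f, ⟨1, 1, one_pos, one_pos, ?_⟩,
      Pool.Agent.Helper68.Riesz.fc_Pr hNB⟩
  · exact Pool.Agent.Helper68.Riesz.not_log_integrable hsm h.1 h.2
  · rintro g hg hgp ⟨C, Q, hC, hQ, hb⟩ ⟨x₀, hx₀⟩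
    exact Pool.Agent.Helper68.Riesz.quasi
      (mul_pos (by norm_num) Pool.Agent.Helper68.Riesz.Z_pos)
      (Pool.Agent.Helper68.Riesz.M_good hNB) hg hgp hC hQ hb hx₀
  · exact (hc.continuousOn.integrableOn_Icc (μ := volume)).mono_set Set.Ioc_subset_Icc_self
  · intro n x
    rw [one_pow, one_mul, one_mul]
    exact Pool.Agent.Helper68.Riesz.Pr_bound hNB n x

end Pool.Agent.S05476
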