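-- Proof of frozen statement S05628.
import Pool.Statements.S05628
import Pool.Agent.helper70.MHarm

set_option autoImplicit false
open MeasureTheory
open Pool Pool.MP_a19bc9_an

namespace Pool.Agent.S05628

/-- The negation of the preceding statement: For every n ≥ 1, a bounded continuous complex function on the unit ball of ℂⁿ that satisfies the invariant sphere-mean identity at each point for at least one radius satisfies it at every point for every radius in (0,1), i.e. is M-harmonic. -/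
theorem result :
    ¬ (∀ n : ℕ, 1 ≤ n →
  ∀ (φ : (Fin n → ℂ) → (Fin n → ℂ) → (Fin n → ℂ)),
    (∀ z w, φ z w = (1 - ∑ j, w j * starRingEnd ℂ (z j))⁻¹ •
        (z - ((∑ j, w j * starRingEnd ℂ (z j)) / (∑ j, z j * starRingEnd ℂ (z j))) • z
          - ((Real.sqrt (1 - ∑ j, ‖z j‖ ^ 2) : ℝ) : ℂ) •
              (w - ((∑ j, w j * starRingEnd ℂ (z j)) / (∑ j, z j * starRingEnd ℂ (z j))) • z))) →
  ∀ (B : Set (Fin n → ℂ)), B = {x : Fin n → ℂ | ∑ j, ‖x j‖ ^ 2 < 1} →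
  ∀ (avg : ((Fin n → ℂ) → ℂ) → (Fin n → ℂ) → ℝ → ℂ),
    (∀ u z r, avg u z r = ((MeasureTheory.volume B).toReal : ℂ)⁻¹ *
        ∫ x in B, u (φ z (((r / Real.sqrt (∑ j, ‖x j‖ ^ 2) : ℝ) : ℂ) • x))) →
  ∀ u : (Fin n → ℂ) → ℂ, ContinuousOn u B → (∃ M : ℝ, ∀ z ∈ B, ‖u z‖ ≤ M) →
    (∀ z ∈ B, ∃ r : ℝ, 0 < r ∧ r < 1 ∧ avg u z r = u z) →
    ∀ z ∈ B, ∀ r : ℝ, 0 < r → r < 1 → avg u z r = u z) := by
  intro H
  have hn : (1 : ℕ) ≤ 1 := le_refl 1
  have h := H 1 hn Pool.Agent.H70A.phi (fun z w => rfl) (Pool.Agent.H70A.Bl 1) rfl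
    (fun u z r => ((MeasureTheory.volume (Pool.Agent.H70A.Bl 1)).toReal : ℂ)⁻¹ *
        ∫ x in (Pool.Agent.H70A.Bl 1),
          u (Pool.Agent.H70A.phi z (((r / Real.sqrt (∑ j, ‖x j‖ ^ 2) : ℝ) : ℂ) • x)))
    (fun u z r => rfl)
    (fun w => ((Pool.Agent.H70A.g (Pool.Agent.H70A.S w) : ℝ) : ℂ))
    ?_ ?_ ?_
  · -- failure at the centre
    obtain ⟨r, hr0, hr1, hr⟩ := Pool.Agent.H70A.not_harm (Pool.Agent.H70A.mu 1)
      (Pool.Agent.H70A.measurable_Xp 1) (Pool.Agent.H70A.Xp_S 1 hn)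
    have h2 := h 0 (by simp [Pool.Agent.H70A.Bl, Pool.Agent.H70A.S]) r hr0 hr1
    have h3 := Pool.Agent.H70A.avg_eq 1 0 r
    apply hr
    have h4 : ((Pool.Agent.H70A.A (Pool.Agent.H70A.mu 1) (Pool.Agent.H70A.Xp 1) 0 r : ℝ) : ℂ) =
      ((Pool.Agent.H70A.g (Pool.Agent.H70A.S (0 : Fin 1 → ℂ)) : ℝ) : ℂ) := h3.symm.trans h2
    exact_mod_cast h4
  · -- continuity
    intro w hw
    apply ContinuousAt.continuousWithinAt
    have h1 : ContinuousAt (fun w => Pool.Agent.H70A.g (Pool.Agent.H70A.S w)) w :=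
      ContinuousAt.comp (f := Pool.Agent.H70A.S)
        (Pool.Agent.H70A.continuousAt_g (Pool.Agent.H70A.S_nonneg w) hw)
        Pool.Agent.H70A.continuous_S.continuousAt
    exact Complex.continuous_ofReal.continuousAt.comp h1
  · -- boundedness
    refine ⟨1, fun w hw => ?_⟩
    rw [Complex.norm_real, Real.norm_eq_abs]
    have hw1 : Pool.Agent.H70A.S w < 1 := hw
    exact (Pool.Agent.H70A.abs_g_le (Pool.Agent.H70A.S_nonneg w)).trans hw1.le
  · -- one-radius property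
    intro z hz
    obtain ⟨r, hr0, hr1, hr⟩ := Pool.Agent.H70A.one_radius (Pool.Agent.H70A.mu 1)
      (Pool.Agent.H70A.measurable_Xp 1) (Pool.Agent.H70A.Xp_S 1 hn) z hz
    refine ⟨r, hr0, hr1, ?_⟩
    have h3 := Pool.Agent.H70A.avg_eq 1 z r
    rw [hr] at h3
    exact h3

end Pool.Agent.S05628
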