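import Pool.Statements.S05955
import Pool.Agent.H3.FH.Constr
import Pool.Agent.H3.FH.Fwd
import Pool.Agent.H3.FH.BwdF

set_option autoImplicit false
open Pool Pool.MP_bcd0a5_an

namespace Pool.Agent.S05955

/-- There is a complex reflexive Banach space with an invertible bounded operator T that is frequently hypercyclic (some orbit visits every nonempty open set with positive lower density), while its inverse is not. -/
theorem result :
    ∃ (X : Type) (_ : NormedAddCommGroup X) (_ : NormedSpace ℂ X) (_ : CompleteSpace X),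
      Function.Surjective (NormedSpace.inclusionInDoubleDual ℂ X) ∧
      ∃ T : X ≃L[ℂ] X,
        (∃ x : X, ∀ U : Set X, IsOpen U → U.Nonempty →
          ∃ c : ℝ, 0 < c ∧ ∃ N₀ : ℕ, ∀ N : ℕ, N₀ ≤ N →
            c * (N : ℝ) ≤ (Nat.card {n : ℕ // n < N ∧ (⇑T)^[n] x ∈ U} : ℝ)) ∧
        ¬ (∃ x : X, ∀ U : Set X, IsOpen U → U.Nonempty →
          ∃ c : ℝ, 0 < c ∧ ∃ N₀ : ℕ, ∀ N : ℕ, N₀ ≤ N →
            c * (N : ℝ) ≤ (Nat.card {n : ℕ // n < N ∧ (⇑T.symm)^[n] x ∈ U} : ℝ)) := by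
  obtain ⟨X, i1, i2, i3, hrefl, ⟨M⟩⟩ := Pool.Agent.H3.FH.exists_model
  exact ⟨X, i1, i2, i3, hrefl, M.T, Pool.Agent.H3.FH.fwd M, Pool.Agent.H3.FH.bwd M⟩

end Pool.Agent.S05955
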