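import Pool.Statements.S06019
import Pool.Agent.H27C.Fin

set_option autoImplicit false
open Pool Pool.MP_c173a1_an
open Pool.Agent.H27C

namespace Pool.Agent.S06019

/-- For every II₁ factor with its tracial state τ, every unital surjective spectrally bounded linear map T has the form T x = γ S x + (1−γ) τ(x)·1 for some Jordan automorphism S and some nonzero complex γ. -/
theorem result :
    ∀ (H : Type) [NormedAddCommGroup H] [InnerProductSpace ℂ H] [CompleteSpace H]
      (M : VonNeumannAlgebra H),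
      (∀ z ∈ M, (∀ x ∈ M, z * x = x * z) → ∃ c : ℂ, z = algebraMap ℂ (H →L[ℂ] H) c) →
      (∀ u ∈ M, star u * u = 1 → u * star u = 1) →
      (¬ ∃ s : Finset (H →L[ℂ] H), ∀ x ∈ M, x ∈ Submodule.span ℂ (s : Set (H →L[ℂ] H))) →
      ∀ τ : (H →L[ℂ] H) → ℂ,
        (∀ x ∈ M, ∀ y ∈ M, τ (x + y) = τ x + τ y) →
        (∀ c : ℂ, ∀ x ∈ M, τ (c • x) = c * τ x) →
        (∀ x ∈ M, 0 ≤ (τ (star x * x)).re ∧ (τ (star x * x)).im = 0) →
        τ 1 = 1 →
        (∀ x ∈ M, ∀ y ∈ M, τ (x * y) = τ (y * x)) →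
      ∀ T : (H →L[ℂ] H) → (H →L[ℂ] H),
        (∀ x ∈ M, T x ∈ M) →
        (∀ x ∈ M, ∀ y ∈ M, T (x + y) = T x + T y) →
        (∀ c : ℂ, ∀ x ∈ M, T (c • x) = c • T x) →
        T 1 = 1 →
        (∀ y ∈ M, ∃ x ∈ M, T x = y) →
        (∃ C : NNReal, ∀ x ∈ M,
            spectralRadius ℂ (T x) ≤ (C : ENNReal) * spectralRadius ℂ x) →
        ∃ S : (H →L[ℂ] H) → (H →L[ℂ] H),
          Set.BijOn S (M : Set (H →L[ℂ] H)) (M : Set (H →L[ℂ] H)) ∧
          (∀ x ∈ M, ∀ y ∈ M, S (x + y) = S x + S y) ∧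
          (∀ c : ℂ, ∀ x ∈ M, S (c • x) = c • S x) ∧
          (∀ x ∈ M, S (x * x) = S x * S x) ∧
          ∃ γ : ℂ, γ ≠ 0 ∧
            ∀ x ∈ M, T x = γ • S x + (1 - γ) • algebraMap ℂ (H →L[ℂ] H) (τ x) := by
  intro H _ _ _ M hfac hfin hinf τ hτadd hτsmul hτpos hτ1 hτcomm T hTM hTadd hTsmul hT1 hTsurj hTbdd
  obtain ⟨C, hC⟩ := hTbdd
  let τA : Alg M →ₗ[ℂ] ℂ :=
    { toFun := fun x => τ (inc M x)
      map_add' := fun x y => by
        rw [map_add]; exact hτadd _ (inc_mem x) _ (inc_mem y)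
      map_smul' := fun c x => by
        rw [map_smul]; exact hτsmul c _ (inc_mem x) }
  let TA : Alg M →ₗ[ℂ] Alg M :=
    { toFun := fun x => mkA (T (inc M x)) (hTM _ (inc_mem x))
      map_add' := fun x y => inc_inj (by
        rw [inc_mkA, map_add (inc M) (mkA _ _) (mkA _ _), inc_mkA, inc_mkA,
          map_add (inc M) x y]
        exact hTadd _ (inc_mem x) _ (inc_mem y))
      map_smul' := fun c x => inc_inj (by
        rw [inc_mkA, map_smul (inc M) ((RingHom.id ℂ) c) (mkA _ _), inc_mkA,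
          map_smul (inc M) c x]
        exact hTsmul c _ (inc_mem x)) }
  have hτA : ∀ x : Alg M, τA x = τ (inc M x) := fun _ => rfl
  have hTA : ∀ x : Alg M, inc M (TA x) = T (inc M x) := fun _ => rfl
  have hTr : Tr τA := by
    refine ⟨?_, ?_, ?_⟩
    · rw [hτA, map_one, hτ1]
    · intro x
      rw [hτA, map_mul, map_star]
      exact hτpos _ (inc_mem x)
    · intro x y
      rw [hτA, hτA, map_mul, map_mul]
      exact hτcomm _ (inc_mem x) _ (inc_mem y)
  have hFac : Fac τA := fac_of_factor hfac hfin hinf hTr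
  have hSB : SB TA C := by
    refine ⟨?_, ?_, ?_⟩
    · apply inc_inj
      rw [hTA, map_one, hT1]
    · intro y
      obtain ⟨x, hx, hxy⟩ := hTsurj (inc M y) (inc_mem y)
      exact ⟨mkA x hx, inc_inj hxy⟩
    · intro x
      rw [← specRadius_inc, ← specRadius_inc, hTA]
      exact hC _ (inc_mem x)
  obtain ⟨SA, hSbij, hSsq, γ, hγ, hform⟩ := main_abstract hFac hSB
  classical
  refine ⟨fun y => if h : y ∈ M then inc M (SA (mkA y h)) else 0, ⟨?_, ?_, ?_⟩, ?_, ?_, ?_, γ, hγ, ?_⟩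
  · intro y hy
    have hy' : y ∈ M := hy
    simp only [hy', dif_pos]
    exact inc_mem _
  · intro x hx y hy hxy
    have hx' : x ∈ M := hx
    have hy' : y ∈ M := hy
    simp only [hx', hy', dif_pos] at hxy
    have h1 := hSbij.1 (inc_inj hxy)
    exact congrArg (inc M) h1
  · intro y hy
    obtain ⟨x, hx⟩ := hSbij.2 (mkA y hy)
    refine ⟨inc M x, inc_mem x, ?_⟩
    have hx' : inc M x ∈ M := inc_mem x
    simp only [hx', dif_pos]
    have : mkA (inc M x) hx' = x := rfl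
    rw [this, hx, inc_mkA]
  · intro x hx y hy
    have hxy : x + y ∈ M := add_mem hx hy
    simp only [hx, hy, hxy, dif_pos]
    rw [← map_add, ← map_add]
    rfl
  · intro c x hx
    have hcx : c • x ∈ M := M.toStarSubalgebra.smul_mem hx c
    simp only [hx, hcx, dif_pos]
    rw [← map_smul, ← map_smul]
    rfl
  · intro x hx
    have hxx : x * x ∈ M := mul_mem hx hx
    simp only [hx, hxx, dif_pos]
    rw [← map_mul, ← hSsq]
    rfl
  · intro x hx
    simp only [hx, dif_pos]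
    have h1 := congrArg (inc M) (hform (mkA x hx))
    rw [hTA, map_add, map_smul, map_smul, map_smul, map_one, hτA, inc_mkA] at h1
    rw [h1, Algebra.algebraMap_eq_smul_one]

end Pool.Agent.S06019
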