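import Pool.Statements.S07116
import Pool.Agent.FAN.TRANS
import Pool.Agent.FAN.FIN
import Pool.Agent.FAN.CL

set_option autoImplicit false
open Pool Pool.MP_0ba608_co

namespace Pool.Agent.S07116

/-- The negation of the preceding statement: For every n ≥ 1 and every finite absolutely continuous measure on ℝⁿ, some invertible affine map sends all n²+n cones of the fan of the polar of T−T (T a simplex) to sets of equal measure. -/
theorem result :
    ¬ (∀ n : ℕ, 1 ≤ n →
      ∀ μ : MeasureTheory.Measure (Fin n → ℝ),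
        MeasureTheory.IsFiniteMeasure μ →
        MeasureTheory.Measure.AbsolutelyContinuous μ MeasureTheory.volume →
        ∃ A : AffineEquiv ℝ (Fin n → ℝ) (Fin n → ℝ), ∃ c : ENNReal,
          ∀ i j : Fin (n + 1), i ≠ j →
            μ (A '' {y : Fin n → ℝ | ∀ k : Fin (n + 1),
                (Matrix.vecCons (0 : ℝ) y : Fin (n + 1) → ℝ) k
                    ≤ (Matrix.vecCons (0 : ℝ) y : Fin (n + 1) → ℝ) i ∧
                  (Matrix.vecCons (0 : ℝ) y : Fin (n + 1) → ℝ) j
                    ≤ (Matrix.vecCons (0 : ℝ) y : Fin (n + 1) → ℝ) k}) = c) := by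
  obtain ⟨S, hS, hcl⟩ := Pool.Agent.FAN.classification 3000 le_rfl
  obtain ⟨μ, h1, h2, h3⟩ := Pool.Agent.FAN.exists_bad 3000 S hS hcl
  exact Pool.Agent.FAN.frozen_of_bad 3000 μ h1 h2 h3

end Pool.Agent.S07116
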