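import Pool.Statements.S07140
import Pool.Agent.EZE.Main

set_option autoImplicit false
open Pool Pool.MP_0c540e_co

namespace Pool.Agent.S07140

/-- The negation of the preceding statement: There is f(t,c) such that for all t,c ≥ 1, every finite graph with chromatic number at least f(t,c) and no t-clique has disjoint vertex sets A, B, each inducing chromatic number at least c, with no edges between A and B. -/
theorem result :
    ¬ (∃ f : ℕ → ℕ → ℕ, ∀ t c : ℕ, 1 ≤ t → 1 ≤ c →
      ∀ (V : Type) [Fintype V] (G : SimpleGraph V),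
        ((f t c : ℕ) : ℕ∞) ≤ G.chromaticNumber → G.CliqueFree t →
          ∃ A B : Set V, Disjoint A B ∧
            ((c : ℕ) : ℕ∞) ≤ (G.induce A).chromaticNumber ∧
            ((c : ℕ) : ℕ∞) ≤ (G.induce B).chromaticNumber ∧
            ∀ a ∈ A, ∀ b ∈ B, ¬ G.Adj a b) := by
  rintro ⟨f, hf⟩
  obtain ⟨V, hV, G, hfree, hchi, hAB⟩ := Pool.Agent.EZE.counterexample (f 25 49)
  obtain ⟨A, B, -, hA, hB, hno⟩ := hf 25 49 (by norm_num) (by norm_num) V G hchi hfree
  have h48 : ∀ S : Set V, ((49 : ℕ) : ℕ∞) ≤ (G.induce S).chromaticNumber →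
      ¬ (G.induce S).Colorable 48 := by
    intro S hS hcol
    have h1 := hS.trans hcol.chromaticNumber_le
    have h2 : (49 : ℕ) ≤ 48 := by exact_mod_cast h1
    omega
  rcases hAB A B hno with h | h
  · exact h48 A hA h
  · exact h48 B hB h

end Pool.Agent.S07140
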