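import Pool.Statements.S07234
import Pool.Agent.H41.Color
import Pool.Agent.H41.Exist

set_option autoImplicit false
open Pool Pool.MP_109265_co

namespace Pool.Agent.S07234

/-- The negation of the preceding statement: For every closed surface other than the sphere (Euler characteristic ε, given orientability), the least k such that every triangulation has a colouring with the vertices of any two edge-adjacent triangles all distinct is ⌊(13+√(169−48ε))/2⌋. -/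
theorem result :
    ¬ (∀ (ε : ℤ) (o : Bool), ε ≠ 2 →
    (∃ (n : ℕ) (T : Finset (Finset (Fin n))),
      0 < n ∧
      (∀ t ∈ T, t.card = 3) ∧
      (∀ v : Fin n, ∃ t ∈ T, v ∈ t) ∧
      (∀ t ∈ T, ∀ e ⊆ t, e.card = 2 → (T.filter (fun s => e ⊆ s)).card = 2) ∧
      (∀ v a b : Fin n, (∃ t ∈ T, v ∈ t ∧ a ∈ t ∧ v ≠ a) → (∃ t ∈ T, v ∈ t ∧ b ∈ t ∧ v ≠ b) →
        (SimpleGraph.fromRel (fun x y : Fin n => ({v, x, y} : Finset (Fin n)) ∈ T)).Reachable a b) ∧
      (∀ a b : Fin n, (SimpleGraph.fromRel (fun x y : Fin n => ∃ t ∈ T, x ∈ t ∧ y ∈ t)).Reachable a b) ∧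
      2 * (n : ℤ) - (T.card : ℤ) = 2 * ε ∧
      ((∃ s : Fin n → Fin n → Fin n → ℤ,
          (∀ a b c, s a b c = -s b a c) ∧ (∀ a b c, s a b c = s b c a) ∧
          (∀ a b c, ({a, b, c} : Finset (Fin n)) ∈ T → s a b c = 1 ∨ s a b c = -1) ∧
          (∀ a b c d, ({a, b, c} : Finset (Fin n)) ∈ T → ({a, b, d} : Finset (Fin n)) ∈ T →
            c ≠ d → s a b c = -s a b d)) ↔ o = true)) →
    ∀ k : ℕ,
      (∀ (n : ℕ) (T : Finset (Finset (Fin n))),
        0 < n →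
        (∀ t ∈ T, t.card = 3) →
        (∀ v : Fin n, ∃ t ∈ T, v ∈ t) →
        (∀ t ∈ T, ∀ e ⊆ t, e.card = 2 → (T.filter (fun s => e ⊆ s)).card = 2) →
        (∀ v a b : Fin n, (∃ t ∈ T, v ∈ t ∧ a ∈ t ∧ v ≠ a) → (∃ t ∈ T, v ∈ t ∧ b ∈ t ∧ v ≠ b) →
          (SimpleGraph.fromRel (fun x y : Fin n => ({v, x, y} : Finset (Fin n)) ∈ T)).Reachable a b) →
        (∀ a b : Fin n, (SimpleGraph.fromRel (fun x y : Fin n => ∃ t ∈ T, x ∈ t ∧ y ∈ t)).Reachable a b) →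
        2 * (n : ℤ) - (T.card : ℤ) = 2 * ε →
        ((∃ s : Fin n → Fin n → Fin n → ℤ,
            (∀ a b c, s a b c = -s b a c) ∧ (∀ a b c, s a b c = s b c a) ∧
            (∀ a b c, ({a, b, c} : Finset (Fin n)) ∈ T → s a b c = 1 ∨ s a b c = -1) ∧
            (∀ a b c d, ({a, b, c} : Finset (Fin n)) ∈ T → ({a, b, d} : Finset (Fin n)) ∈ T →
              c ≠ d → s a b c = -s a b d)) ↔ o = true) →
        ∃ c : Fin n → Fin k, ∀ t₁ ∈ T, ∀ t₂ ∈ T, (t₁ ∩ t₂).card = 2 →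
          Set.InjOn c (↑(t₁ ∪ t₂) : Set (Fin n)))
      ↔ ⌊(13 + Real.sqrt (169 - 48 * (ε : ℝ))) / 2⌋₊ ≤ k) := by
  intro hall
  have h1 := hall (-4) true (by norm_num) ?_ 15
  · have hfl : ⌊(13 + Real.sqrt (169 - 48 * (((-4 : ℤ) : ℤ) : ℝ))) / 2⌋₊ = 16 := by
      have h2 : (169 - 48 * (((-4 : ℤ) : ℤ) : ℝ)) = 19 ^ 2 := by push_cast; norm_num
      rw [h2, Real.sqrt_sq (by norm_num)]
      norm_num
    rw [hfl] at h1
    have h3 := h1.mp ?_
    · omega
    · intro n T hpos hcard hcov hedge hlink hconn heuler _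
      have hsurf : H41.Surf T := ⟨hcard, hcov, hedge, hlink, hconn⟩
      apply H41.colour' hsurf
      rw [Fintype.card_fin]
      omega
  · refine ⟨10, H41.T0, by norm_num, H41.T0_card3, H41.T0_cov, H41.T0_edge, H41.T0_link, H41.T0_conn, ?_, ?_⟩
    · rw [H41.card_T0]; norm_num
    · refine ⟨fun _ => rfl, fun _ => ⟨H41.sg, H41.sg1, H41.sg2, ?_, ?_⟩⟩
      · intro a b c hT
        exact H41.sg3 a b c ((H41.mem_T0 a b c).mp hT)
      · intro a b c d h2 h3 hne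
        exact H41.sg4 a b c d ((H41.mem_T0 a b c).mp h2) ((H41.mem_T0 a b d).mp h3) hne

end Pool.Agent.S07234
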