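import Pool.Statements.S07581
import Pool.Agent.GD.Final

set_option autoImplicit false
open Pool Pool.MP_1fb45e_co

namespace Pool.Agent.S07581

/-- If a finite 4-regular simple graph splits into two edge-disjoint Hamilton cycles, and deleting the edges of any cycle alternating between them always leaves a graph with a cut-vertex, then the graph is isomorphic to K5. -/
theorem result :
  ∀ (V : Type) [Fintype V] [DecidableEq V] (H : SimpleGraph V) [DecidableRel H.Adj],
    H.IsRegularOfDegree 4 →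
    ∀ (x y : V) (C₁ : H.Walk x x) (C₂ : H.Walk y y),
      C₁.IsHamiltonianCycle → C₂.IsHamiltonianCycle →
      (∀ e ∈ H.edgeSet, (e ∈ C₁.edges ↔ e ∉ C₂.edges)) →
      (∀ (u : V) (D : H.Walk u u), D.IsCycle → Even D.length →
        ((∀ (i : ℕ) (h : i < D.edges.length), (D.edges[i]'h ∈ C₁.edges ↔ Even i)) ∨
         (∀ (i : ℕ) (h : i < D.edges.length), (D.edges[i]'h ∈ C₁.edges ↔ ¬ Even i))) →
        ∃ v a b : V, a ≠ v ∧ b ≠ v ∧
          (H.deleteEdges {e | e ∈ D.edges}).Reachable a b ∧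
          ∀ p : (H.deleteEdges {e | e ∈ D.edges}).Walk a b, v ∈ p.support) →
      Nonempty (H ≃g (⊤ : SimpleGraph (Fin 5))) := by
  intro V _ _ H _ hreg x y C₁ C₂ hC₁ hC₂ hdec h
  have h5 := Pool.Agent.GD.five_le_card H hreg x
  rcases Nat.lt_or_ge (Fintype.card V) 6 with h6 | h6
  · exact Pool.Agent.GD.iso_of_card_five H hreg (by omega)
  · exfalso
    obtain ⟨u, D, hD, hcut⟩ := Pool.Agent.GD.good_circuit H hreg C₁ C₂ hC₁ hC₂ hdec h6
    obtain ⟨v, a, b, hav, hbv, hreach, hall⟩ := h u D hD.1 hD.2.1 hD.2.2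
    exact hcut v ⟨a, b, hav, hbv, hreach, hall⟩

end Pool.Agent.S07581
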