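import Pool.Statements.S07586

set_option autoImplicit false
open Pool Pool.MP_1fc8d1_co

namespace Pool.Agent.S07586

/-! The extended binary Golay code gives a matroid with a circuit and a cocircuit meeting
in 12 elements, but no circuit and cocircuit meeting in 10 elements. -/

/-- The ambient space of the representation. -/
abbrev V : Type := Fin 12 → ZMod 2

/-- The ground type: 24 elements. -/
abbrev G : Type := Fin 12 ⊕ Fin 12

/-- The rows of the 12 by 12 matrix A, as bit masks: bordered reverse circulant. -/
def rowA : Fin 12 → ℕ :=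
  ![0b111111111110, 0b010001110111, 0b101000111011, 0b110100011101, 0b011010001111,
    0b101101000111, 0b110110100011, 0b111011010001, 0b011101101001, 0b001110110101,
    0b000111011011, 0b100011101101]

/-- Matrix entries. -/
def A (i j : Fin 12) : ZMod 2 := if (rowA i).testBit j.val then 1 else 0

theorem A_orth : ∀ j l : Fin 12, (∑ i, A i j * A i l) = if j = l then 1 else 0 := by
  decide +kernel

/-- The columns of the generator matrix [I | A]. -/
def v : G → V := Sum.elim (fun i => Pi.single i 1) (fun j i => A i j)

/-- The codeword with message u. -/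
def code (u : V) (e : G) : ZMod 2 := ∑ i, u i * v e i

theorem code_inl (u : V) (i : Fin 12) : code u (Sum.inl i) = u i := by
  simp [code, v, Pi.single_apply]

theorem code_inr (u : V) (j : Fin 12) : code u (Sum.inr j) = ∑ i, u i * A i j := by
  simp [code, v]

theorem code_add (u w : V) (e : G) : code (u + w) e = code u e + code w e := by
  simp [code, add_mul, Finset.sum_add_distrib]

/-- The support of a codeword. -/
def supp (u : V) : Finset G := Finset.univ.filter (fun e => code u e ≠ 0)

theorem mem_supp (u : V) (e : G) : e ∈ supp u ↔ code u e ≠ 0 := by simp [supp]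

/-! ### Weights of the Golay code -/

/-- Bit count of the lowest n bits. -/
def popc : ℕ → ℕ → ℕ
  | 0, _ => 0
  | n + 1, a => popc n a + (a.testBit n).toNat

theorem popc_eq (n a : ℕ) : popc n a = ∑ j ∈ Finset.range n, (a.testBit j).toNat := by
  induction n with
  | zero => rfl
  | succ n ih => rw [popc, ih, Finset.sum_range_succ]

/-- The allowed weights. -/
def good (n : ℕ) : Bool := n == 0 || n == 8 || n == 12 || n == 16 || n == 24

/-- Exhaustive check. -/
def chk : List (Fin 12) → ℕ → ℕ → Bool
  | [], a, c => good (c + popc 12 a)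
  | i :: l, a, c => chk l a c && chk l (a ^^^ rowA i) (c + 1)

/-- Partial mask. -/
def accA (u : V) : List (Fin 12) → ℕ → ℕ
  | [], a => a
  | i :: l, a => if u i = 0 then accA u l a else accA u l (a ^^^ rowA i)

/-- Partial count. -/
def accC (u : V) : List (Fin 12) → ℕ → ℕ
  | [], c => c
  | i :: l, c => if u i = 0 then accC u l c else accC u l (c + 1)

theorem chk_sound (u : V) (l : List (Fin 12)) : ∀ (a c : ℕ), chk l a c = true →
    good (accC u l c + popc 12 (accA u l a)) = true := by
  induction l with
  | nil => intro a c h; exact h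
  | cons i l ih =>
    intro a c h
    rw [chk, Bool.and_eq_true] at h
    unfold accA accC
    by_cases hu : u i = 0
    · rw [if_pos hu, if_pos hu]; exact ih _ _ h.1
    · rw [if_neg hu, if_neg hu]; exact ih _ _ h.2

theorem chk_all : chk (List.finRange 12) 0 0 = true := by decide +kernel

theorem zmod2_cases (x : ZMod 2) : x = 0 ∨ x = 1 := by
  revert x; decide

theorem accC_eq (u : V) (l : List (Fin 12)) : ∀ c : ℕ,
    accC u l c = c + (l.map (fun i => if u i ≠ 0 then 1 else 0)).sum := by
  induction l with
  | nil => intro c; simp [accC]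
  | cons i l ih =>
    intro c
    unfold accC
    by_cases hu : u i = 0
    · rw [if_pos hu, ih]; simp [hu]
    · rw [if_neg hu, ih]; simp [hu]; ring

/-- A bit as an element of ZMod 2. -/
def bz (b : Bool) : ZMod 2 := if b then 1 else 0

theorem bz_xor (a b : Bool) : bz (a ^^ b) = bz a + bz b := by
  cases a <;> cases b <;> decide

theorem A_eq (i j : Fin 12) : A i j = bz ((rowA i).testBit j.val) := rfl

theorem accA_eq (u : V) (j : Fin 12) (l : List (Fin 12)) : ∀ a : ℕ,
    bz ((accA u l a).testBit j.val) = bz (a.testBit j.val) + (l.map (fun i => u i * A i j)).sum := by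
  induction l with
  | nil => intro a; rw [accA, List.map_nil, List.sum_nil, add_zero]
  | cons i l ih =>
    intro a
    unfold accA
    by_cases hu : u i = 0
    · rw [if_pos hu, ih]; simp [hu]
    · rw [if_neg hu, ih]
      have h1 : u i = 1 := (zmod2_cases (u i)).resolve_left hu
      rw [List.map_cons, List.sum_cons, h1, one_mul, ← add_assoc]
      congr 1
      rw [Nat.testBit_xor, A_eq, bz_xor]

theorem weight_aux (u : V) (l : List (Fin 12)) (hl : l = List.finRange 12) :
    (supp u).card = accC u l 0 + popc 12 (accA u l 0) := by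
  rw [supp, Finset.card_filter, Fintype.sum_sum_type, accC_eq, popc_eq]
  simp only [code_inl, code_inr, zero_add]
  refine congrArg₂ (· + ·) ?_ ?_
  · rw [hl, Fin.sum_univ_def]
  · rw [Finset.sum_range]
    apply Finset.sum_congr rfl
    intro j _
    have h2 := accA_eq u j l 0
    have h3 : (List.map (fun i => u i * A i j) l).sum = ∑ i, u i * A i j := by
      rw [hl, Fin.sum_univ_def]
    rw [h3, Nat.zero_testBit] at h2
    have h4 : bz false = 0 := rfl
    rw [h4, zero_add] at h2
    rw [← h2]
    generalize (accA u l 0).testBit j.val = b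
    cases b <;> decide

theorem card_supp_aux (u : V) (l : List (Fin 12)) (hl : l = List.finRange 12)
    (hc : chk l 0 0 = true) : good (supp u).card = true := by
  rw [weight_aux u l hl]
  exact chk_sound u l 0 0 hc

theorem card_supp (u : V) : good (supp u).card = true :=
  card_supp_aux u _ rfl chk_all

theorem good_cases (n : ℕ) (h : good n = true) : n = 0 ∨ n = 8 ∨ n = 12 ∨ n = 16 ∨ n = 24 := by
  simp only [good, Bool.or_eq_true, beq_iff_eq] at h
  omega

theorem card_supp_cases (u : V) : (supp u).card = 0 ∨ (supp u).card = 8 ∨ (supp u).card = 12 ∨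
    (supp u).card = 16 ∨ (supp u).card = 24 := good_cases _ (card_supp u)

/-! ### The matroid -/

theorem finrank_span_ncard {I : Set G} (hI : LinearIndepOn (ZMod 2) v I) :
    Module.finrank (ZMod 2) (Submodule.span (ZMod 2) (v '' I)) = I.ncard := by
  classical
  have : Fintype I := Fintype.ofFinite I
  have h : LinearIndependent (ZMod 2) (fun x : I => v x) := hI
  have h2 := finrank_span_eq_card h
  have h3 : Set.range (fun x : I => v x) = v '' I := by
    ext y; simp
  rw [h3] at h2
  rw [h2, ← Nat.card_eq_fintype_card, Nat.card_coe_set_eq]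

theorem indep_aug ⦃I J : Set G⦄ (hI : LinearIndepOn (ZMod 2) v I) (hJ : LinearIndepOn (ZMod 2) v J)
    (hIJ : I.ncard < J.ncard) : ∃ e ∈ J, e ∉ I ∧ LinearIndepOn (ZMod 2) v (insert e I) := by
  by_contra hcon
  push Not at hcon
  have hsub : Submodule.span (ZMod 2) (v '' J) ≤ Submodule.span (ZMod 2) (v '' I) := by
    rw [Submodule.span_le]
    rintro _ ⟨e, he, rfl⟩
    by_cases heI : e ∈ I
    · exact Submodule.subset_span ⟨e, heI, rfl⟩
    · have := hcon e he heI
      rw [linearIndepOn_insert heI] at this
      by_contra hne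
      exact this ⟨hI, hne⟩
  have h1 := finrank_span_ncard hJ
  have h2 := finrank_span_ncard hI
  have h3 := Submodule.finrank_mono hsub
  omega

/-- The matroid of the extended binary Golay code. -/
def M : Matroid G :=
  (IndepMatroid.ofFinite (E := Set.univ) Set.finite_univ
    (fun I => LinearIndepOn (ZMod 2) v I)
    (linearIndepOn_empty _ _)
    (fun _ _ hJ hIJ => hJ.mono hIJ)
    indep_aug
    (fun _ _ => Set.subset_univ _)).matroid

theorem M_indep (I : Set G) : M.Indep I ↔ LinearIndepOn (ZMod 2) v I := by
  rw [M, IndepMatroid.matroid_Indep, IndepMatroid.ofFinite_indep]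

theorem M_ground : M.E = Set.univ := rfl

instance M_finite : M.Finite := ⟨Set.finite_univ⟩

theorem span_inl : Submodule.span (ZMod 2) (v '' (Set.range Sum.inl)) = ⊤ := by
  rw [eq_top_iff]
  intro w _
  rw [pi_eq_sum_univ' w]
  refine Submodule.sum_mem _ fun i _ => Submodule.smul_mem _ _ (Submodule.subset_span ?_)
  refine ⟨Sum.inl i, ⟨i, rfl⟩, ?_⟩
  ext j
  simp [v, Pi.single_apply]

theorem span_base {B : Set G} (hB : M.IsBase B) : Submodule.span (ZMod 2) (v '' B) = ⊤ := by
  rw [eq_top_iff, ← span_inl, Submodule.span_le]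
  rintro _ ⟨e, -, rfl⟩
  by_cases heB : e ∈ B
  · exact Submodule.subset_span ⟨e, heB, rfl⟩
  · by_contra hne
    have h1 : LinearIndepOn (ZMod 2) v (insert e B) := by
      rw [linearIndepOn_insert heB]
      exact ⟨(M_indep B).1 hB.indep, hne⟩
    have h2 := hB.eq_of_subset_indep ((M_indep _).2 h1) (Set.subset_insert e B)
    exact heB (h2 ▸ Set.mem_insert e B)

theorem ncard_base {B : Set G} (hB : M.IsBase B) : B.ncard = 12 := by
  rw [← finrank_span_ncard ((M_indep B).1 hB.indep), span_base hB, finrank_top]
  simp

theorem ncard_indep {I : Set G} (hI : M.Indep I) : I.ncard ≤ 12 := by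
  obtain ⟨B, hB, hIB⟩ := hI.exists_isBase_superset
  rw [← ncard_base hB]
  exact Set.ncard_le_ncard hIB (Set.toFinite B)

/-! ### Supports of codewords -/

theorem A_orth' : ∀ i l : Fin 12, (∑ j, A i j * A l j) = if i = l then 1 else 0 := by
  decide +kernel

theorem zmod2_add_self (x : ZMod 2) : x + x = 0 := by
  revert x; decide

theorem code_orth (u : V) : ∑ e, code u e • v e = 0 := by
  ext l
  rw [Finset.sum_apply, Fintype.sum_sum_type]
  simp only [code_inl, code_inr, Pi.smul_apply, smul_eq_mul, Pi.zero_apply]
  have h1 : ∑ x, u x * v (Sum.inl x) l = u l := by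
    simp [v, Pi.single_apply]
  have h2 : ∑ j, (∑ i, u i * A i j) * v (Sum.inr j) l = u l := by
    calc ∑ j, (∑ i, u i * A i j) * v (Sum.inr j) l
        = ∑ j, ∑ i, u i * (A i j * A l j) := by
          refine Finset.sum_congr rfl fun j _ => ?_
          rw [Finset.sum_mul]
          refine Finset.sum_congr rfl fun i _ => ?_
          simp only [v, Sum.elim_inr]; ring
      _ = ∑ i, u i * ∑ j, A i j * A l j := by
          rw [Finset.sum_comm]
          refine Finset.sum_congr rfl fun i _ => ?_
          rw [Finset.mul_sum]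
      _ = u l := by simp [A_orth']
  rw [h1, h2, zmod2_add_self]

theorem supp_nonempty {u : V} (hu : u ≠ 0) : (supp u).Nonempty := by
  obtain ⟨i, hi⟩ := Function.ne_iff.1 hu
  exact ⟨Sum.inl i, (mem_supp _ _).2 (by rw [code_inl]; exact hi)⟩

theorem supp_dep {u : V} (hu : u ≠ 0) : ¬ M.Indep (supp u : Set G) := by
  rw [M_indep, linearIndepOn_finset_iff]
  intro h
  obtain ⟨e, he⟩ := supp_nonempty hu
  have h1 := h (code u) ?_ e he
  · exact (mem_supp _ _).1 he h1
  · rw [← code_orth u]
    refine Finset.sum_subset (Finset.subset_univ _) fun e _ he => ?_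
    have : code u e = 0 := by
      by_contra hne
      exact he ((mem_supp _ _).2 hne)
    rw [this, zero_smul]

/-- Circuits are supports of codewords. -/
theorem circuit_supp {C : Set G} (hC : M.IsCircuit C) : ∃ u : V, (supp u : Set G) = C := by
  classical
  have hdep : ¬ LinearIndepOn (ZMod 2) v C := fun h => hC.not_indep ((M_indep C).2 h)
  have hfin : Fintype C := Fintype.ofFinite C
  rw [LinearIndepOn, Fintype.not_linearIndependent_iff] at hdep
  obtain ⟨g, hg, x0, hx0⟩ := hdep
  -- extend by zero
  let c : G → ZMod 2 := fun e => if h : e ∈ C then g ⟨e, h⟩ else 0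
  have hc0 : ∀ e, c e ≠ 0 → e ∈ C := by
    intro e he
    by_contra h
    exact he (dif_neg h)
  have hsum : ∑ e, c e • v e = 0 := by
    rw [← hg]
    rw [← Finset.sum_subset (Finset.subset_univ (Finset.univ.filter (fun e => e ∈ C)))]
    · rw [Finset.sum_subtype (p := fun e => e ∈ C)]
      · refine Finset.sum_congr rfl ?_
        rintro ⟨e, he⟩ -
        simp only [c]
        rw [dif_pos he]
      · intro x; simp
    · intro e _ he
      have : e ∉ C := by simpa using he
      simp only [c]
      rw [dif_neg this, zero_smul]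
  have hcoord : ∀ i, c (Sum.inl i) = ∑ j, c (Sum.inr j) * A i j := by
    intro i
    have h1 := congrFun hsum i
    rw [Finset.sum_apply, Fintype.sum_sum_type] at h1
    simp only [Pi.smul_apply, smul_eq_mul, Pi.zero_apply] at h1
    have h2 : ∑ x, c (Sum.inl x) * v (Sum.inl x) i = c (Sum.inl i) := by
      simp [v, Pi.single_apply]
    have h3 : ∑ x, c (Sum.inr x) * v (Sum.inr x) i = ∑ j, c (Sum.inr j) * A i j := by
      simp [v]
    rw [h2, h3] at h1
    generalize (∑ j, c (Sum.inr j) * A i j) = y at h1 ⊢
    generalize c (Sum.inl i) = x at h1 ⊢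
    revert x y
    decide
  have hcode : ∀ e, code (fun i => c (Sum.inl i)) e = c e := by
    rintro (i | l)
    · rw [code_inl]
    · rw [code_inr]
      calc ∑ i, c (Sum.inl i) * A i l
          = ∑ i, ∑ j, c (Sum.inr j) * (A i j * A i l) := by
            refine Finset.sum_congr rfl fun i _ => ?_
            rw [hcoord i, Finset.sum_mul]
            refine Finset.sum_congr rfl fun j _ => ?_
            ring
        _ = ∑ j, c (Sum.inr j) * ∑ i, A i j * A i l := by
            rw [Finset.sum_comm]
            refine Finset.sum_congr rfl fun j _ => ?_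
            rw [Finset.mul_sum]
        _ = c (Sum.inr l) := by simp [A_orth]
  refine ⟨fun i => c (Sum.inl i), ?_⟩
  apply hC.eq_of_not_indep_subset
  · apply supp_dep
    intro h0
    have h1 := hcode x0
    rw [h0] at h1
    have h2 : code 0 (x0 : G) = 0 := by simp [code]
    rw [h2] at h1
    apply hx0
    simp only [c] at h1
    rw [dif_pos x0.2] at h1
    exact h1.symm
  · intro e he
    rw [Finset.mem_coe, mem_supp, hcode] at he
    exact hc0 e he

/-- The linear functional attached to u. -/
def fn (u : V) : V →ₗ[ZMod 2] ZMod 2 where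
  toFun w := ∑ i, u i * w i
  map_add' x y := by simp [mul_add, Finset.sum_add_distrib]
  map_smul' c x := by
    simp only [Pi.smul_apply, smul_eq_mul, RingHom.id_apply, Finset.mul_sum]
    exact Finset.sum_congr rfl fun i _ => by ring

theorem fn_v (u : V) (e : G) : fn u (v e) = code u e := rfl

theorem supp_nonspanning {u : V} (hu : u ≠ 0) : ¬ M.Spanning (M.E \ (supp u : Set G)) := by
  intro h
  obtain ⟨B, hB, hBs⟩ := h.exists_isBase_subset
  apply hu
  have h1 : Submodule.span (ZMod 2) (v '' B) ≤ LinearMap.ker (fn u) := by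
    rw [Submodule.span_le]
    rintro _ ⟨e, he, rfl⟩
    have h2 := (hBs he).2
    rw [Finset.mem_coe, mem_supp, not_not] at h2
    rw [SetLike.mem_coe, LinearMap.mem_ker, fn_v, h2]
  rw [span_base hB] at h1
  ext i
  have h3 : fn u (v (Sum.inl i)) = 0 := h1 (Submodule.mem_top)
  rw [fn_v, code_inl] at h3
  exact h3

theorem exists_functional {X : Set G} (hX : ¬ M.Spanning X) :
    ∃ u : V, u ≠ 0 ∧ ∀ e ∈ X, code u e = 0 := by
  have hlt : Submodule.span (ZMod 2) (v '' X) < ⊤ := by
    rw [lt_top_iff_ne_top]
    intro htop
    apply hX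
    obtain ⟨I, hI⟩ := M.exists_isBasis X (Set.subset_univ X)
    obtain ⟨B, hB, hIB⟩ := hI.indep.exists_isBase_superset
    have hspan : Submodule.span (ZMod 2) (v '' X) ≤ Submodule.span (ZMod 2) (v '' I) := by
      rw [Submodule.span_le]
      rintro _ ⟨e, he, rfl⟩
      by_cases heI : e ∈ I
      · exact Submodule.subset_span ⟨e, heI, rfl⟩
      · by_contra hne
        have h1 : LinearIndepOn (ZMod 2) v (insert e I) := by
          rw [linearIndepOn_insert heI]
          exact ⟨(M_indep I).1 hI.indep, hne⟩
        exact heI (hI.mem_of_insert_indep he ((M_indep _).2 h1))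
    have hcard : I.ncard = 12 := by
      have htop' : Submodule.span (ZMod 2) (v '' I) = ⊤ := by
        rw [eq_top_iff, ← htop]; exact hspan
      rw [← finrank_span_ncard ((M_indep I).1 hI.indep), htop', finrank_top]
      simp
    have hIB' : I = B :=
      Set.eq_of_subset_of_ncard_le hIB (by rw [hcard, ncard_base hB]) (Set.toFinite B)
    have hIbase : M.IsBase I := hIB' ▸ hB
    exact hIbase.spanning.superset hI.subset (Set.subset_univ _)
  obtain ⟨f, hf0, hf⟩ := Submodule.exists_le_ker_of_lt_top _ hlt
  have hfn : ∀ w : V, f w = ∑ i, f (Pi.single i 1) * w i := by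
    intro w
    conv_lhs => rw [pi_eq_sum_univ' w]
    rw [map_sum]
    refine Finset.sum_congr rfl fun i _ => ?_
    rw [map_smul, smul_eq_mul, mul_comm]
  refine ⟨fun i => f (Pi.single i 1), ?_, ?_⟩
  · intro h0
    apply hf0
    ext i
    have := congrFun h0 i
    simpa using this
  · intro e he
    have h1 : v e ∈ Submodule.span (ZMod 2) (v '' X) := Submodule.subset_span ⟨e, he, rfl⟩
    have h2 := hf h1
    rw [LinearMap.mem_ker, hfn] at h2
    exact h2

/-- Cocircuits are supports of codewords. -/
theorem cocircuit_supp {K : Set G} (hK : M.IsCocircuit K) : ∃ u : V, (supp u : Set G) = K := by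
  rw [Matroid.isCocircuit_iff_minimal_compl_nonspanning] at hK
  obtain ⟨u, hu, hue⟩ := exists_functional hK.prop
  refine ⟨u, ?_⟩
  have hsub : (supp u : Set G) ⊆ K := by
    intro e he
    by_contra heK
    rw [Finset.mem_coe, mem_supp] at he
    exact he (hue e ⟨Set.mem_univ _, heK⟩)
  exact (hK.eq_of_subset (supp_nonspanning hu) hsub)

theorem symm_card (u w : V) :
    (supp (u + w)).card + 2 * (supp u ∩ supp w).card = (supp u).card + (supp w).card := by
  classical
  have h : supp (u + w) = (supp u \ supp w) ∪ (supp w \ supp u) := by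
    ext e
    simp only [mem_supp, Finset.mem_union, Finset.mem_sdiff, code_add]
    generalize code u e = x
    generalize code w e = y
    revert x y; decide
  have hd : Disjoint (supp u \ supp w) (supp w \ supp u) := by
    rw [Finset.disjoint_left]
    intro e he he'
    rw [Finset.mem_sdiff] at he he'
    exact he'.2 he.1
  rw [h, Finset.card_union_of_disjoint hd]
  have h1 := Finset.card_sdiff_add_card_inter (supp u) (supp w)
  have h2 := Finset.card_sdiff_add_card_inter (supp w) (supp u)
  rw [Finset.inter_comm (supp w) (supp u)] at h2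
  omega

/-- The message giving the dodecad. -/
def u0 : V := Pi.single 0 1

theorem u0_ne : u0 ≠ 0 := by decide

theorem card_u0 : (supp u0).card = 12 := by decide +kernel

theorem dodecad_min {w : V} (hw : supp w ⊆ supp u0) (hne : (supp w).Nonempty) :
    supp w = supp u0 := by
  classical
  have h1 := symm_card u0 w
  rw [Finset.inter_eq_right.2 hw, card_u0] at h1
  have h2 := card_supp_cases w
  have h3 := card_supp_cases (u0 + w)
  have h4 := hne.card_pos
  have h5 := Finset.card_le_card hw
  rw [card_u0] at h5
  apply Finset.eq_of_subset_of_card_le hw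
  rw [card_u0]
  omega

theorem dodecad_circuit : M.IsCircuit (supp u0 : Set G) := by
  have hdep : M.Dep (supp u0 : Set G) := ⟨supp_dep u0_ne, Set.subset_univ _⟩
  obtain ⟨C, hCs, hC⟩ := hdep.exists_isCircuit_subset
  obtain ⟨w, rfl⟩ := circuit_supp hC
  have := dodecad_min (Finset.coe_subset.1 hCs) (Finset.coe_nonempty.1 hC.nonempty)
  rw [this] at hC
  exact hC

theorem dodecad_cocircuit : M.IsCocircuit (supp u0 : Set G) := by
  have hdep : M✶.Dep (supp u0 : Set G) := by
    refine ⟨?_, Set.subset_univ _⟩
    intro h
    exact supp_nonspanning u0_ne ((Matroid.coindep_iff_compl_spanning (Set.subset_univ _)).1 h)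
  obtain ⟨C, hCs, hC⟩ := hdep.exists_isCircuit_subset
  have hC' : M.IsCocircuit C := hC
  obtain ⟨w, rfl⟩ := cocircuit_supp hC'
  have := dodecad_min (Finset.coe_subset.1 hCs) (Finset.coe_nonempty.1 hC'.nonempty)
  rw [this] at hC'
  exact hC'

theorem ncard_circuit {C : Set G} (hC : M.IsCircuit C) : C.ncard ≤ 13 := by
  obtain ⟨e, he⟩ := hC.nonempty
  have h1 := ncard_indep (hC.sdiff_singleton_indep he)
  have h2 := Set.ncard_sdiff_singleton_add_one he (Set.toFinite C)
  omega

theorem ncard_cocircuit {K : Set G} (hK : M.IsCocircuit K) : K.ncard ≤ 13 := by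
  obtain ⟨e, he⟩ := hK.nonempty
  have h1 : M✶.Indep (K \ {e}) := hK.isCircuit.sdiff_singleton_indep he
  have h2 := Set.ncard_sdiff_singleton_add_one he (Set.toFinite K)
  obtain ⟨B, hB, hdisj⟩ := (Matroid.dual_indep_iff_exists').1 h1 |>.2
  have h3 := Set.ncard_union_eq hdisj (Set.toFinite _) (Set.toFinite _)
  have h4 : (K \ {e} ∪ B).ncard ≤ 24 := by
    have h5 := Set.ncard_le_ncard (Set.subset_univ (K \ {e} ∪ B)) (Set.toFinite _)
    rw [Set.ncard_univ] at h5
    simpa using h5
  rw [ncard_base hB] at h3
  omega

/-- The negation of the preceding statement: For every finite matroid and every k at least 4, if some circuit and some cocircuit intersect in exactly k elements, then some circuit and some cocircuit intersect in exactly k−2 elements. -/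
theorem result :
    ¬ (∀ (α : Type) (M : Matroid α), M.Finite →
      ∀ k : ℕ, 4 ≤ k →
        (∃ C K : Set α, M.IsCircuit C ∧ M.IsCocircuit K ∧ (C ∩ K).ncard = k) →
        ∃ C K : Set α, M.IsCircuit C ∧ M.IsCocircuit K ∧ (C ∩ K).ncard = k - 2) := by
  intro h
  obtain ⟨C, K, hC, hK, hCK⟩ := h G M M_finite 12 (by norm_num)
    ⟨_, _, dodecad_circuit, dodecad_cocircuit, by
      rw [Set.inter_self, Set.ncard_coe_finset, card_u0]⟩
  have hC13 := ncard_circuit hC
  have hK13 := ncard_cocircuit hK
  obtain ⟨u, rfl⟩ := circuit_supp hC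
  obtain ⟨w, rfl⟩ := cocircuit_supp hK
  classical
  rw [← Finset.coe_inter, Set.ncard_coe_finset] at hCK
  rw [Set.ncard_coe_finset] at hC13 hK13
  have h1 := symm_card u w
  have h2 := card_supp_cases u
  have h3 := card_supp_cases w
  have h4 := card_supp_cases (u + w)
  have h5 := Finset.card_le_card (Finset.inter_subset_left (s₁ := supp u) (s₂ := supp w))
  have h6 := Finset.card_le_card (Finset.inter_subset_right (s₁ := supp u) (s₂ := supp w))
  omega

end Pool.Agent.S07586
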