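import Pool.Statements.S08874

set_option autoImplicit false
open Pool Pool.MP_5833ce_co

namespace Pool.Agent.S08874

/-- The adjacency matrix plus the identity of a graph on `14` vertices, with entries in `ZMod 3`. -/
def M : Fin 14 → Fin 14 → ZMod 3 :=
  ![![1,0,1,1,1,1,0,0,1,0,0,1,0,0],
    ![0,1,1,1,1,1,1,1,1,0,0,0,0,1],
    ![1,1,1,0,0,0,1,0,1,1,0,1,1,1],
    ![1,1,0,1,0,0,0,1,1,1,0,1,1,1],
    ![1,1,0,0,1,0,0,0,0,1,1,0,0,0],
    ![1,1,0,0,0,1,1,1,0,0,1,1,0,1],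
    ![0,1,1,0,0,1,1,0,1,1,1,0,1,1],
    ![0,1,0,1,0,1,0,1,1,1,1,0,1,1],
    ![1,1,1,1,0,0,1,1,1,1,0,1,0,1],
    ![0,0,1,1,1,0,1,1,1,1,0,1,0,1],
    ![0,0,0,0,1,1,1,1,0,0,1,1,0,1],
    ![1,0,1,1,0,1,0,0,1,1,1,1,0,0],
    ![0,0,1,1,0,0,1,1,0,0,0,0,1,0],
    ![0,1,1,1,0,1,1,1,1,1,1,0,0,1]]

/-- The graph on `14` vertices whose closed neighbourhood matrix is `M`. -/
def G : SimpleGraph (Fin 14) where
  Adj i j := i ≠ j ∧ M i j = 1
  symm := ⟨by decide⟩
  loopless := ⟨by decide⟩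

instance : DecidableRel G.Adj := fun i j =>
  inferInstanceAs (Decidable (i ≠ j ∧ M i j = 1))

/-- The closed neighbourhood sum of a labeling is the corresponding row of `M` applied to it. -/
lemma closed_sum (f : Fin 14 → ZMod 3) (v : Fin 14) :
    f v + ∑ w ∈ G.neighborFinset v, f w = ∑ w, M v w * f w := by
  have key : ∀ v w : Fin 14,
      M v w = (if w = v then 1 else 0) + (if G.Adj v w then 1 else 0) := by
    decide
  have h1 : ∑ w ∈ G.neighborFinset v, f w = ∑ w, (if G.Adj v w then f w else 0) := by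
    rw [G.neighborFinset_eq_filter, Finset.sum_filter]
  have h2 : f v = ∑ w, (if w = v then f w else 0) := by
    rw [Finset.sum_ite_eq' Finset.univ v f, if_pos (Finset.mem_univ v)]
  rw [h1]
  conv_lhs => rw [h2]
  rw [← Finset.sum_add_distrib]
  refine Finset.sum_congr rfl fun w _ => ?_
  rw [key v w, add_mul, ite_mul, ite_mul, one_mul, zero_mul]

/-- The finite check: the values of the seven basic rows cannot all be nonzero together with the
values of the seven other rows, which are the stated linear combinations of them. -/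
lemma finite_check : ∀ a0 a2 a3 a4 a8 a11 a13 : ZMod 3,
    a0 = 0 ∨ a2 = 0 ∨ a3 = 0 ∨ a4 = 0 ∨ a8 = 0 ∨ a11 = 0 ∨ a13 = 0 ∨
    a0 - a11 + a13 = 0 ∨ a8 + a11 + a13 = 0 ∨ a2 - a8 + a13 = 0 ∨ a3 - a8 + a13 = 0 ∨
    - a0 - a4 + a8 + a11 = 0 ∨ a0 + a4 + a8 + a13 = 0 ∨ a2 + a3 + a8 = 0 := by
  decide

lemma no_labeling (f : Fin 14 → ZMod 3) :
    ∃ v : Fin 14, ∑ w, M v w * f w = 0 := by
  obtain ⟨F, hF⟩ : ∃ F : Fin 14 → ZMod 3, ∀ v, F v = ∑ w, M v w * f w := ⟨_, fun _ => rfl⟩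
  have row : ∀ (u : Fin 14) (c0 c2 c3 c4 c8 c11 c13 : ZMod 3),
      (∀ w, M u w = c0 * M 0 w + c2 * M 2 w + c3 * M 3 w + c4 * M 4 w + c8 * M 8 w
        + c11 * M 11 w + c13 * M 13 w) →
      F u = c0 * F 0 + c2 * F 2 + c3 * F 3 + c4 * F 4 + c8 * F 8 + c11 * F 11 + c13 * F 13 := by
    intro u c0 c2 c3 c4 c8 c11 c13 hc
    simp only [hF, hc, Finset.mul_sum, ← Finset.sum_add_distrib]
    exact Finset.sum_congr rfl fun w _ => by ring
  have r1 : F 1 = F 0 - F 11 + F 13 := by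
    rw [row 1 1 0 0 0 0 (-1) 1 (by decide)]; ring
  have r5 : F 5 = - (F 8 + F 11 + F 13) := by
    rw [row 5 0 0 0 0 (-1) (-1) (-1) (by decide)]; ring
  have r6 : F 6 = F 2 - F 8 + F 13 := by
    rw [row 6 0 1 0 0 (-1) 0 1 (by decide)]; ring
  have r7 : F 7 = F 3 - F 8 + F 13 := by
    rw [row 7 0 0 1 0 (-1) 0 1 (by decide)]; ring
  have r9 : F 9 = - F 0 - F 4 + F 8 + F 11 := by
    rw [row 9 (-1) 0 0 (-1) 1 1 0 (by decide)]; ring
  have r10 : F 10 = - (F 0 + F 4 + F 8 + F 13) := by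
    rw [row 10 (-1) 0 0 (-1) (-1) 0 (-1) (by decide)]; ring
  have r12 : F 12 = - (F 2 + F 3 + F 8) := by
    rw [row 12 0 (-1) (-1) 0 (-1) 0 0 (by decide)]; ring
  rcases finite_check (F 0) (F 2) (F 3) (F 4) (F 8) (F 11) (F 13) with
    h | h | h | h | h | h | h | h | h | h | h | h | h | h
  · exact ⟨0, by rw [← hF, h]⟩
  · exact ⟨2, by rw [← hF, h]⟩
  · exact ⟨3, by rw [← hF, h]⟩
  · exact ⟨4, by rw [← hF, h]⟩
  · exact ⟨8, by rw [← hF, h]⟩
  · exact ⟨11, by rw [← hF, h]⟩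
  · exact ⟨13, by rw [← hF, h]⟩
  · exact ⟨1, by rw [← hF, r1, h]⟩
  · exact ⟨5, by rw [← hF, r5, h, neg_zero]⟩
  · exact ⟨6, by rw [← hF, r6, h]⟩
  · exact ⟨7, by rw [← hF, r7, h]⟩
  · exact ⟨9, by rw [← hF, r9, h]⟩
  · exact ⟨10, by rw [← hF, r10, h, neg_zero]⟩
  · exact ⟨12, by rw [← hF, r12, h, neg_zero]⟩

/-- The negation of the preceding statement: For every k ≥ 2 and every finite simple graph, some labeling of the vertices by integers mod k makes the sum of labels over each vertex's closed neighbourhood nonzero mod k. -/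
theorem result :
    ¬ (∀ k : ℕ, 2 ≤ k →
      ∀ (V : Type) [Fintype V] (G : SimpleGraph V) [DecidableRel G.Adj],
        ∃ f : V → ZMod k, ∀ v : V, f v + ∑ w ∈ G.neighborFinset v, f w ≠ 0) := by
  intro h
  obtain ⟨f, hf⟩ := h 3 (by norm_num) (Fin 14) G
  obtain ⟨v, hv⟩ := no_labeling f
  exact hf v ((closed_sum f v).trans hv)

end Pool.Agent.S08874
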