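import Pool.Statements.S09863
import Pool.Agent.BW2.Core

set_option autoImplicit false
open Pool Pool.MP_85ac7c_co

namespace Pool.Agent.S09863

/-- For every n ≥ 1 and positive demands d_1..d_n with sum D, there is a D-periodic word over n letters where letter i appears d_i times per period, and any two equal-length windows differ by at most 2 in the count of each letter. -/
theorem result :
    ∀ n : ℕ, 0 < n → ∀ d : Fin n → ℕ, (∀ i, 0 < d i) →
      ∃ w : ℕ → Fin n,
        Function.Periodic w (∑ j, d j) ∧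
        (∀ i : Fin n, ((Finset.range (∑ j, d j)).filter (fun k => w k = i)).card = d i) ∧
        ∀ p q L : ℕ, ∀ i : Fin n,
          (((Finset.range L).filter (fun k => w (p + k) = i)).card : ℤ)
            - (((Finset.range L).filter (fun k => w (q + k) = i)).card : ℤ) ≤ 2 := by
  intro n hn d hd
  -- sort the demands
  set σ : Equiv.Perm (Fin n) := Tuple.sort d with hσ
  have hmono : Monotone (d ∘ σ) := Tuple.monotone_sort d
  set e : ℕ → ℤ := fun l => if h : l < n then (d (σ ⟨l, h⟩) : ℤ) else 0 with he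
  have e1 : ∀ l (h : l < n), e l = d (σ ⟨l, h⟩) := fun l h => by simp only [he, dif_pos h]
  have hsum : ∑ l ∈ Finset.range n, e l = ((∑ j, d j : ℕ) : ℤ) := by
    rw [← Fin.sum_univ_eq_sum_range e n, Nat.cast_sum, ← Equiv.sum_comp σ (fun j => ((d j : ℕ) : ℤ))]
    exact Finset.sum_congr rfl fun j _ => e1 j.1 j.2
  obtain ⟨w, hw1, hw2, hw3, hw4⟩ := BW2.exists_word hn e
    (fun i hi => by rw [e1 i hi]; exact_mod_cast hd _)
    (fun i hi => by
      rw [e1 i (by omega), e1 (i + 1) hi]
      have h1 : (⟨i, by omega⟩ : Fin n) ≤ ⟨i + 1, hi⟩ := by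
        rw [Fin.mk_le_mk]; omega
      exact_mod_cast hmono h1)
    (∑ j, d j) hsum
  have key : ∀ k (i : Fin n), (σ ⟨w k, hw1 k⟩ = i) ↔ (w k = (σ.symm i : Fin n).1) := by
    intro k i
    rw [← Equiv.eq_symm_apply, Fin.ext_iff]
  refine ⟨fun k => σ ⟨w k, hw1 k⟩, ?_, ?_, ?_⟩
  · intro k
    show σ ⟨w (k + ∑ j, d j), _⟩ = σ ⟨w k, _⟩
    congr 1
    rw [Fin.mk.injEq]
    exact hw2 k
  · intro i
    have h1 := hw3 (σ.symm i).1 (σ.symm i).2
    rw [e1 _ (σ.symm i).2, Fin.eta, Equiv.apply_symm_apply] at h1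
    have h2 : (Finset.range (∑ j, d j)).filter (fun k => σ ⟨w k, hw1 k⟩ = i) =
        (Finset.range (∑ j, d j)).filter (fun k => w k = (σ.symm i).1) :=
      Finset.filter_congr fun k _ => key k i
    rw [h2]
    exact_mod_cast h1
  · intro p q L i
    have h1 := hw4 p q L (σ.symm i).1 (σ.symm i).2
    have h2 : ∀ r, (Finset.range L).filter (fun k => σ ⟨w (r + k), hw1 (r + k)⟩ = i) =
        (Finset.range L).filter (fun k => w (r + k) = (σ.symm i).1) :=
      fun r => Finset.filter_congr fun k _ => key (r + k) i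
    rw [h2 p, h2 q]
    exact h1

end Pool.Agent.S09863
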