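import Pool.Statements.S10919
import Pool.Agent.KDT.Fin

set_option autoImplicit false
open Pool Pool.MP_b3f3cc_co

namespace Pool.Agent.S10919

/-- For every ε>0 there is C such that for n distinct points moving linearly in the plane, the times at which the Voronoi diagram's combinatorial structure (which site sets are exactly nearest somewhere) changes are finite and at most C·n^(2+ε). -/
theorem result :
    ∀ ε : ℝ, 0 < ε → ∃ C : ℝ, ∀ (n : ℕ) (p v : Fin n → EuclideanSpace ℝ (Fin 2)),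
      Function.Injective (fun i => (p i, v i)) →
      ({t : ℝ | ∀ δ : ℝ, 0 < δ → ∃ s : ℝ, |s - t| < δ ∧
          {T : Finset (Fin n) | ∃ x : EuclideanSpace ℝ (Fin 2),
              ∀ i, i ∈ T ↔ ∀ j, dist x (p i + s • v i) ≤ dist x (p j + s • v j)} ≠
          {T : Finset (Fin n) | ∃ x : EuclideanSpace ℝ (Fin 2),
              ∀ i, i ∈ T ↔ ∀ j, dist x (p i + t • v i) ≤ dist x (p j + t • v j)}}).Finite ∧
      (({t : ℝ | ∀ δ : ℝ, 0 < δ → ∃ s : ℝ, |s - t| < δ ∧
          {T : Finset (Fin n) | ∃ x : EuclideanSpace ℝ (Fin 2),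
              ∀ i, i ∈ T ↔ ∀ j, dist x (p i + s • v i) ≤ dist x (p j + s • v j)} ≠
          {T : Finset (Fin n) | ∃ x : EuclideanSpace ℝ (Fin 2),
              ∀ i, i ∈ T ↔ ∀ j, dist x (p i + t • v i) ≤ dist x (p j + t • v j)}}).ncard : ℝ)
        ≤ C * (n : ℝ) ^ ((2 : ℝ) + ε) := by
  intro ε hε
  obtain ⟨C, hC⟩ := KDT.main_bound ε hε
  refine ⟨C, ?_⟩
  intro n p v hpv
  have h := hC n (KDT.ofMotion p v) (fun _ => rfl) (KDT.ofMotion_distinct p v hpv)
  simp only [← KDT.bridge] at h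
  exact h

end Pool.Agent.S10919
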