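import Pool.Statements.S11334

set_option autoImplicit false
open Pool Pool.MP_c611ca_co

namespace Pool.Agent.S11334

section General
variable {E : Type*} [AddCommGroup E] [Module ℝ E]

theorem face_eq (V : Finset E) (l : E →ₗ[ℝ] ℝ) (M : ℝ) (hM : ∀ v ∈ V, l v ≤ M) :
    {x | x ∈ convexHull ℝ (V : Set E) ∧ l x = M} = convexHull ℝ {v | v ∈ V ∧ l v = M} := by
  classical
  apply Set.Subset.antisymm
  · rintro x ⟨hx, hlx⟩
    rw [Finset.mem_convexHull'] at hx
    obtain ⟨w, hw0, hw1, hwx⟩ := hx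
    have hsum : ∑ v ∈ V, w v * (M - l v) = 0 := by
      have h1 : ∑ v ∈ V, w v * (M - l v) = M * ∑ v ∈ V, w v - ∑ v ∈ V, w v * l v := by
        rw [Finset.mul_sum, ← Finset.sum_sub_distrib]
        apply Finset.sum_congr rfl
        intro v _
        ring
      have h2 : ∑ v ∈ V, w v * l v = M := by
        rw [← hlx, ← hwx, map_sum]
        apply Finset.sum_congr rfl
        intro v _
        rw [map_smul, smul_eq_mul]
      rw [h1, hw1, h2]
      ring
    have hz : ∀ v ∈ V, w v * (M - l v) = 0 := by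
      rw [← Finset.sum_eq_zero_iff_of_nonneg]
      · exact hsum
      · intro v hv
        exact mul_nonneg (hw0 v hv) (sub_nonneg.mpr (hM v hv))
    have hcoe : {v | v ∈ V ∧ l v = M} = ((V.filter (fun v => l v = M) : Finset E) : Set E) := by
      ext v
      simp
    rw [hcoe, Finset.mem_convexHull']
    have hvan : ∀ v ∈ V, ¬ (l v = M) → w v = 0 := by
      intro v hv hne
      rcases mul_eq_zero.mp (hz v hv) with h | h
      · exact h
      · exact absurd (sub_eq_zero.mp h).symm hne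
    refine ⟨w, ?_, ?_, ?_⟩
    · intro y hy
      exact hw0 y (Finset.mem_filter.mp hy).1
    · rw [← hw1]
      apply Finset.sum_subset (Finset.filter_subset _ _)
      intro v hv hnv
      apply hvan v hv
      intro h
      exact hnv (Finset.mem_filter.mpr ⟨hv, h⟩)
    · rw [← hwx]
      apply Finset.sum_subset (Finset.filter_subset _ _)
      intro v hv hnv
      rw [hvan v hv, zero_smul]
      intro h
      exact hnv (Finset.mem_filter.mpr ⟨hv, h⟩)
  · apply convexHull_min
    · rintro v ⟨hv, hlv⟩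
      exact ⟨subset_convexHull ℝ _ (by exact_mod_cast hv), hlv⟩
    · have h1 : Convex ℝ (convexHull ℝ (V : Set E)) := convex_convexHull ℝ _
      have h2 : Convex ℝ {x | l x = M} := convex_hyperplane l.isLinear M
      exact h1.inter h2

theorem le_of_mem_hull (V : Finset E) (l : E →ₗ[ℝ] ℝ) (M : ℝ) (hM : ∀ v ∈ V, l v ≤ M)
    (x : E) (hx : x ∈ convexHull ℝ (V : Set E)) : l x ≤ M := by
  have h : convexHull ℝ (V : Set E) ⊆ {x | l x ≤ M} := by
    apply convexHull_min
    · intro v hv
      exact hM v (by exact_mod_cast hv)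
    · exact convex_halfSpace_le l.isLinear M
  exact h hx

theorem isExtreme_face (V : Finset E) (l : E →ₗ[ℝ] ℝ) (M : ℝ) (hM : ∀ v ∈ V, l v ≤ M) :
    IsExtreme ℝ (convexHull ℝ (V : Set E)) {x | x ∈ convexHull ℝ (V : Set E) ∧ l x = M} := by
  refine ⟨fun x hx => hx.1, ?_⟩
  rintro x hx y hy z ⟨hz, hlz⟩ ⟨a, b, ha, hb, hab, rfl⟩
  refine ⟨hx, ?_⟩
  have h1 := le_of_mem_hull V l M hM x hx
  have h2 := le_of_mem_hull V l M hM y hy
  rw [map_add, map_smul, map_smul, smul_eq_mul, smul_eq_mul] at hlz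
  have hb' : b = 1 - a := by linarith
  subst hb'
  nlinarith

theorem isExtreme_segment (V : Finset E) (l : E →ₗ[ℝ] ℝ) (M : ℝ) (u v : E) (hu : u ∈ V) (hv : v ∈ V)
    (hlu : l u = M) (hlv : l v = M) (hM : ∀ w ∈ V, w ≠ u → w ≠ v → l w < M) :
    IsExtreme ℝ (convexHull ℝ (V : Set E)) (segment ℝ u v) := by
  have hM' : ∀ w ∈ V, l w ≤ M := by
    intro w hw
    by_cases h1 : w = u
    · subst h1; exact hlu.le
    · by_cases h2 : w = v
      · subst h2; exact hlv.le
      · exact (hM w hw h1 h2).le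
  have h := isExtreme_face V l M hM'
  rw [face_eq V l M hM'] at h
  have hset : {w | w ∈ V ∧ l w = M} = {u, v} := by
    ext w
    constructor
    · rintro ⟨hw, hlw⟩
      by_contra hne
      simp only [Set.mem_insert_iff, Set.mem_singleton_iff, not_or] at hne
      exact absurd hlw (hM w hw hne.1 hne.2).ne
    · rintro (h | h)
      · rw [h]; exact ⟨hu, hlu⟩
      · rw [Set.mem_singleton_iff.mp h]; exact ⟨hv, hlv⟩
  rw [hset, convexHull_pair] at h
  exact h

theorem mem_extremePoints_of (V : Finset E) (l : E →ₗ[ℝ] ℝ) (M : ℝ) (u : E) (hu : u ∈ V)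
    (hlu : l u = M) (hM : ∀ w ∈ V, w ≠ u → l w < M) :
    u ∈ Set.extremePoints ℝ (convexHull ℝ (V : Set E)) := by
  have h := isExtreme_segment V l M u u hu hu hlu hlu (fun w hw h1 _ => hM w hw h1)
  rw [segment_same] at h
  exact isExtreme_singleton.mp h

end General

section Main

open Finset

abbrev E5 := EuclideanSpace ℝ (Fin 5)
abbrev E6 := EuclideanSpace ℝ (Fin 6)

/-- The sign of a Boolean. -/
def sg (b : Bool) : ℝ := if b then 1 else -1

theorem sg_true : sg true = 1 := rfl
theorem sg_false : sg false = -1 := rfl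
theorem sg_sq (b : Bool) : sg b * sg b = 1 := by cases b <;> simp [sg]
theorem sg_ne {a b : Bool} (h : a ≠ b) : sg a * sg b = -1 := by
  cases a <;> cases b <;> simp_all [sg]
theorem abs_sg (b : Bool) : |sg b| = 1 := by cases b <;> simp [sg]
theorem sg_le (b : Bool) : sg b ≤ 1 := by cases b <;> simp [sg]
theorem sg_ge (b : Bool) : -1 ≤ sg b := by cases b <;> simp [sg]
theorem sg_mul_le (a b : Bool) : sg a * sg b ≤ 1 := by cases a <;> cases b <;> simp [sg]
theorem sg_inj {a b : Bool} (h : sg a = sg b) : a = b := by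
  cases a <;> cases b <;> simp_all [sg] <;> norm_num at h

/-- the six points -/
noncomputable def pp (i : Fin 6) : E5 :=
  WithLp.toLp 2 (fun j : Fin 5 => if (i : ℕ) = 5 then -1 else if (i : ℕ) = (j : ℕ) then 1 else 0)

noncomputable def lf (y : Fin 6 → ℝ) : E5 →ₗ[ℝ] ℝ where
  toFun z := ∑ j : Fin 5, y j.castSucc * z j
  map_add' := by
    intro a b
    simp [mul_add, Finset.sum_add_distrib]
  map_smul' := by
    intro a b
    simp only [PiLp.smul_apply, smul_eq_mul, RingHom.id_apply, Finset.mul_sum]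
    apply Finset.sum_congr rfl
    intro j _
    ring

theorem lf_pp (y : Fin 6 → ℝ) (hy : ∑ i, y i = 0) (i : Fin 6) : lf y (pp i) = y i := by
  simp only [Fin.sum_univ_succ, Fin.sum_univ_zero] at hy
  fin_cases i <;> simp [lf, pp, Fin.sum_univ_succ] at hy ⊢ <;> linarith!

theorem pp_sum : ∑ i, pp i = 0 := by
  ext j
  fin_cases j <;> simp [pp, Fin.sum_univ_succ]

noncomputable def pv (q : Fin 6 × Bool) : E5 := sg q.2 • pp q.1

theorem lf_pv (y : Fin 6 → ℝ) (hy : ∑ i, y i = 0) (q : Fin 6 × Bool) :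
    lf y (pv q) = sg q.2 * y q.1 := by
  rw [pv, map_smul, lf_pp y hy, smul_eq_mul]

open Classical in
noncomputable def PP : Finset E5 := Finset.univ.image pv

theorem mem_PP (x : E5) : x ∈ PP ↔ ∃ q, pv q = x := by
  simp [PP]

/-- functional exposing a vertex -/
noncomputable def yv (q : Fin 6 × Bool) : Fin 6 → ℝ := fun k => if k = q.1 then sg q.2 else - sg q.2 / 5

theorem yv_sum (q : Fin 6 × Bool) : ∑ i, yv q i = 0 := by
  obtain ⟨i, s⟩ := q
  fin_cases i <;> simp [yv, Fin.sum_univ_succ] <;> ring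

theorem pv_injective : Function.Injective pv := by
  intro q r h
  have h1 : lf (yv q) (pv q) = 1 := by
    rw [lf_pv _ (yv_sum q)]
    simp [yv, sg_sq]
  rw [h, lf_pv _ (yv_sum q)] at h1
  by_cases hi : r.1 = q.1
  · by_cases hs : r.2 = q.2
    · exact (Prod.ext hi hs).symm
    · simp [yv, hi, sg_ne hs] at h1
      norm_num at h1
  · simp only [yv, hi, if_false] at h1
    have h2 := sg_mul_le r.2 q.2
    have h3 : -1 ≤ sg r.2 * sg q.2 := by
      cases r.2 <;> cases q.2 <;> simp [sg]
    nlinarith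

theorem pv_extreme (q : Fin 6 × Bool) :
    pv q ∈ Set.extremePoints ℝ (convexHull ℝ (PP : Set E5)) := by
  apply mem_extremePoints_of PP (lf (yv q)) 1 (pv q) ((mem_PP _).mpr ⟨q, rfl⟩)
  · rw [lf_pv _ (yv_sum q)]
    simp [yv, sg_sq]
  · intro w hw hne
    obtain ⟨r, rfl⟩ := (mem_PP _).mp hw
    have hrq : r ≠ q := fun h => hne (by rw [h])
    rw [lf_pv _ (yv_sum q)]
    by_cases hi : r.1 = q.1
    · by_cases hs : r.2 = q.2
      · exact absurd (Prod.ext hi hs) hrq
      · simp [yv, hi, sg_ne hs]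
    · simp only [yv, hi, if_false]
      have h3 : -1 ≤ sg r.2 * sg q.2 := by
        cases r.2 <;> cases q.2 <;> simp [sg]
      nlinarith

theorem extreme_PP (x : E5) :
    x ∈ Set.extremePoints ℝ (convexHull ℝ (PP : Set E5)) ↔ ∃ q, pv q = x := by
  constructor
  · intro h
    have := extremePoints_convexHull_subset h
    exact (mem_PP x).mp (by exact_mod_cast this)
  · rintro ⟨q, rfl⟩
    exact pv_extreme q

/-- functional exposing an edge -/
noncomputable def ye (q r : Fin 6 × Bool) : Fin 6 → ℝ := fun k =>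
  if k = q.1 then sg q.2 else if k = r.1 then sg r.2 else - (sg q.2 + sg r.2) / 4

theorem ye_sum (q r : Fin 6 × Bool) (h : q.1 ≠ r.1) : ∑ i, ye q r i = 0 := by
  obtain ⟨i, s⟩ := q
  obtain ⟨j, t⟩ := r
  fin_cases i <;> fin_cases j <;> first | (exact absurd rfl h) | (simp [ye, Fin.sum_univ_succ]; ring)

theorem P_edge (q r : Fin 6 × Bool) (h : q.1 ≠ r.1) :
    IsExtreme ℝ (convexHull ℝ (PP : Set E5)) (segment ℝ (pv q) (pv r)) := by
  apply isExtreme_segment PP (lf (ye q r)) 1 (pv q) (pv r) ((mem_PP _).mpr ⟨q, rfl⟩)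
    ((mem_PP _).mpr ⟨r, rfl⟩)
  · rw [lf_pv _ (ye_sum q r h)]
    simp [ye, sg_sq]
  · rw [lf_pv _ (ye_sum q r h)]
    simp [ye, sg_sq, Ne.symm h]
  · intro w hw hq hr
    obtain ⟨u, rfl⟩ := (mem_PP _).mp hw
    have huq : u ≠ q := fun h => hq (by rw [h])
    have hur : u ≠ r := fun h => hr (by rw [h])
    rw [lf_pv _ (ye_sum q r h)]
    by_cases hi : u.1 = q.1
    · by_cases hs : u.2 = q.2
      · exact absurd (Prod.ext hi hs) huq
      · simp [ye, hi, sg_ne hs]
    · by_cases hj : u.1 = r.1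
      · by_cases hs : u.2 = r.2
        · exact absurd (Prod.ext hj hs) hur
        · simp [ye, hj, sg_ne hs, Ne.symm h]
      · simp only [ye, hi, hj, if_false]
        have h3 : -1 ≤ sg u.2 * sg q.2 := by
          cases u.2 <;> cases q.2 <;> simp [sg]
        have h4 : -1 ≤ sg u.2 * sg r.2 := by
          cases u.2 <;> cases r.2 <;> simp [sg]
        nlinarith

theorem zero_mem_openSegment {E : Type*} [AddCommGroup E] [Module ℝ E] (x : E) :
    (0 : E) ∈ openSegment ℝ x (-x) := by
  refine ⟨1/2, 1/2, by norm_num, by norm_num, by norm_num, ?_⟩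
  simp

/-- the functional used for non-edges -/
def yn (i : Fin 6) : Fin 6 → ℝ := fun k => (if k = i + 1 then 1 else 0) - (if k = i + 2 then 1 else 0)

theorem yn_sum (i : Fin 6) : ∑ k, yn i k = 0 := by
  simp [yn, Finset.sum_sub_distrib]

theorem P_nonedge (i : Fin 6) (s t : Bool) (hst : s ≠ t) :
    ¬ IsExtreme ℝ (convexHull ℝ (PP : Set E5)) (segment ℝ (pv (i, s)) (pv (i, t))) := by
  intro h
  have hneg : pv (i, t) = - pv (i, s) := by
    cases s <;> cases t <;> simp_all [pv, sg]
  have h0 : (0 : E5) ∈ segment ℝ (pv (i, s)) (pv (i, t)) := by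
    rw [hneg]
    exact openSegment_subset_segment ℝ _ _ (zero_mem_openSegment _)
  have hneg2 : pv (i + 1, false) = - pv (i + 1, true) := by
    simp [pv, sg]
  have h1 := h.left_mem_of_mem_openSegment
    (subset_convexHull ℝ _ (by exact_mod_cast (mem_PP _).mpr ⟨(i + 1, true), rfl⟩))
    (subset_convexHull ℝ _ (by exact_mod_cast (mem_PP _).mpr ⟨(i + 1, false), rfl⟩)) h0
    (by rw [hneg2]; exact zero_mem_openSegment _)
  obtain ⟨a, b, ha, hb, hab, hx⟩ := h1
  have h2 := congrArg (lf (yn i)) hx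
  rw [map_add, map_smul, map_smul, lf_pv _ (yn_sum i), lf_pv _ (yn_sum i), lf_pv _ (yn_sum i)] at h2
  have e1 : yn i i = 0 := by
    have h3 : ∀ j : Fin 6, ¬ (j = j + 1) := by decide
    have h4 : ∀ j : Fin 6, ¬ (j = j + 2) := by decide
    simp only [yn, h3 i, h4 i, if_false]
    norm_num
  have e2 : yn i (i + 1) = 1 := by simp [yn]
  simp only [e1, e2, sg] at h2
  norm_num at h2

theorem pp_castSucc (j : Fin 5) : pp j.castSucc = EuclideanSpace.single j (1 : ℝ) := by
  ext k
  have : (j : ℕ) ≠ 5 := by omega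
  simp [pp, this, Fin.ext_iff, eq_comm]

theorem pv_mem_PP (q : Fin 6 × Bool) : pv q ∈ (PP : Set E5) := by
  exact_mod_cast (mem_PP _).mpr ⟨q, rfl⟩

theorem pv_mem_hull (q : Fin 6 × Bool) : pv q ∈ convexHull ℝ (PP : Set E5) :=
  subset_convexHull ℝ _ (pv_mem_PP q)

theorem linIndep (b : Fin 5 → Bool) : LinearIndependent ℝ (fun j : Fin 5 => pv (j.castSucc, b j)) := by
  have h1 : LinearIndependent ℝ (fun j : Fin 5 => EuclideanSpace.single j (1 : ℝ)) := by
    have h := (EuclideanSpace.basisFun (Fin 5) ℝ).toBasis.linearIndependent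
    have h' : (fun j : Fin 5 => EuclideanSpace.single j (1 : ℝ))
        = ⇑(EuclideanSpace.basisFun (Fin 5) ℝ).toBasis := by
      funext j
      simp
    rw [h']
    exact h
  have h2 := h1.units_smul (fun j => if b j then (1 : ℝˣ) else -1)
  convert h2 using 2 with j
  rw [pv, pp_castSucc]
  rcases hb : b j <;> simp [sg, hb, Units.smul_def]

theorem zero_mem_hull : (0 : E5) ∈ convexHull ℝ (PP : Set E5) := by
  have h := (convex_convexHull ℝ (PP : Set E5)).openSegment_subset (pv_mem_hull (0, true))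
    (pv_mem_hull (0, false))
  have h2 : pv (0, false) = - pv (0, true) := by simp [pv, sg]
  rw [h2] at h
  exact h (zero_mem_openSegment _)

theorem vectorSpan_hull : vectorSpan ℝ (convexHull ℝ (PP : Set E5)) = ⊤ := by
  rw [eq_top_iff, ← (EuclideanSpace.basisFun (Fin 5) ℝ).toBasis.span_eq, Submodule.span_le]
  rintro _ ⟨j, rfl⟩
  have h := vsub_mem_vectorSpan ℝ (pv_mem_hull (j.castSucc, true)) zero_mem_hull
  simpa [pv, sg, pp_castSucc] using h

theorem affineSpan_PP : affineSpan ℝ (PP : Set E5) = ⊤ := by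
  rw [← affineSpan_convexHull]
  rw [AffineSubspace.affineSpan_eq_top_iff_vectorSpan_eq_top_of_nonempty]
  · exact vectorSpan_hull
  · exact ⟨0, zero_mem_hull⟩

/-- balanced sign vectors -/
def Bal (b : Fin 6 → Bool) : Prop := ∑ i, sg (b i) = 0

/-- facets -/
noncomputable def FF (b : Fin 6 → Bool) : Set E5 :=
  {x | x ∈ convexHull ℝ (PP : Set E5) ∧ lf (fun i => sg (b i)) x = 1}

theorem lf_le_one (b : Fin 6 → Bool) (hb : Bal b) (v : E5) (hv : v ∈ PP) :
    lf (fun i => sg (b i)) v ≤ 1 := by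
  obtain ⟨q, rfl⟩ := (mem_PP _).mp hv
  rw [lf_pv _ hb]
  exact sg_mul_le _ _

theorem lf_le_one_hull (b : Fin 6 → Bool) (hb : Bal b) (v : E5)
    (hv : v ∈ convexHull ℝ (PP : Set E5)) :
    lf (fun i => sg (b i)) v ≤ 1 :=
  le_of_mem_hull PP _ 1 (lf_le_one b hb) v hv

theorem pv_mem_FF (b : Fin 6 → Bool) (hb : Bal b) (q : Fin 6 × Bool) :
    pv q ∈ FF b ↔ b q.1 = q.2 := by
  constructor
  · rintro ⟨_, h⟩
    rw [lf_pv _ hb] at h
    by_contra hne
    have h2 := sg_ne (fun h => hne h.symm : q.2 ≠ b q.1)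
    simp only [h2] at h
    norm_num at h
  · intro h
    refine ⟨pv_mem_hull q, ?_⟩
    rw [lf_pv _ hb]
    simp only [h]
    exact sg_sq _

theorem FF_exposed (b : Fin 6 → Bool) (hb : Bal b) :
    IsExposed ℝ (convexHull ℝ (PP : Set E5)) (FF b) := by
  intro _
  refine ⟨LinearMap.toContinuousLinearMap (lf (fun i => sg (b i))), ?_⟩
  ext x
  constructor
  · rintro ⟨hx, hlx⟩
    refine ⟨hx, fun y hy => ?_⟩
    simp only [LinearMap.coe_toContinuousLinearMap']
    rw [hlx]
    exact lf_le_one_hull b hb y hy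
  · rintro ⟨hx, hmax⟩
    refine ⟨hx, le_antisymm (lf_le_one_hull b hb x hx) ?_⟩
    have h := hmax (pv (0, b 0)) (pv_mem_hull _)
    simp only [LinearMap.coe_toContinuousLinearMap'] at h
    rw [lf_pv _ hb] at h
    simp only [sg_sq] at h
    exact h

theorem FF_finrank (b : Fin 6 → Bool) (hb : Bal b) :
    Module.finrank ℝ (vectorSpan ℝ (FF b)) = 4 := by
  apply le_antisymm
  · have hle : vectorSpan ℝ (FF b) ≤ LinearMap.ker (lf (fun i => sg (b i))) := by
      rw [vectorSpan_def, Submodule.span_le]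
      rintro _ ⟨x, hx, y, hy, rfl⟩
      simp only [vsub_eq_sub, SetLike.mem_coe, LinearMap.mem_ker, map_sub]
      rw [hx.2, hy.2]
      norm_num
    have h1 := Submodule.finrank_mono hle
    have h2 := LinearMap.finrank_range_add_finrank_ker (lf (fun i => sg (b i)))
    have h3 : LinearMap.range (lf (fun i => sg (b i))) = ⊤ := by
      rw [LinearMap.range_eq_top]
      intro c
      refine ⟨c • pv (0, b 0), ?_⟩
      rw [map_smul, lf_pv _ hb]
      simp [sg_sq]
    rw [h3] at h2
    simp at h2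
    omega
  · have h1 := (linIndep (fun j => b j.castSucc)).affineIndependent
    have h2 := h1.finrank_vectorSpan (n := 4) (by simp)
    have h3 : Set.range (fun j : Fin 5 => pv (j.castSucc, b j.castSucc)) ⊆ FF b := by
      rintro _ ⟨j, rfl⟩
      exact (pv_mem_FF b hb _).mpr rfl
    have h4 := Submodule.finrank_mono (vectorSpan_mono ℝ h3)
    rw [h2] at h4
    exact h4

theorem odd_sum (b : Fin 6 → Bool) (j : Fin 6) : 1 ≤ |∑ i ∈ univ.erase j, sg (b i)| := by
  have h1 : ∑ i ∈ univ.erase j, sg (b i)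
      = (((∑ i ∈ univ.erase j, (2 * (if b i then (1 : ℤ) else 0) - 1)) : ℤ) : ℝ) := by
    push_cast
    apply Finset.sum_congr rfl
    intro i _
    rcases b i <;> simp [sg]
    norm_num
  rw [h1, ← Int.cast_abs]
  have h2 : (1 : ℤ) ≤ |∑ i ∈ univ.erase j, (2 * (if b i then (1 : ℤ) else 0) - 1)| := by
    rw [Finset.sum_sub_distrib, ← Finset.mul_sum]
    simp only [Finset.sum_const, Finset.card_erase_of_mem (Finset.mem_univ j), Finset.card_univ,
      Fintype.card_fin]
    apply Int.one_le_abs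
    simp
    omega
  exact_mod_cast h2

theorem facet_class (F : Set E5) (hF : IsExposed ℝ (convexHull ℝ (PP : Set E5)) F)
    (hr : Module.finrank ℝ (vectorSpan ℝ F) = 4) : ∃ b, Bal b ∧ F = FF b := by
  classical
  have hne : F.Nonempty := by
    rw [Set.nonempty_iff_ne_empty]
    intro h
    rw [h, vectorSpan_empty, finrank_bot] at hr
    norm_num at hr
  obtain ⟨l, hl⟩ := hF hne
  obtain ⟨i0, -, hi0⟩ := Finset.exists_max_image (univ : Finset (Fin 6)) (fun i => |l (pp i)|)
    ⟨0, mem_univ _⟩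
  set M : ℝ := |l (pp i0)| with hM
  have hlv : ∀ q, l (pv q) = sg q.2 * l (pp q.1) := by
    intro q
    rw [pv, map_smul, smul_eq_mul]
  have hleM : ∀ v ∈ PP, (l : E5 →ₗ[ℝ] ℝ) v ≤ M := by
    intro v hv
    obtain ⟨q, rfl⟩ := (mem_PP _).mp hv
    have h1 : |l (pp q.1)| ≤ M := hi0 q.1 (mem_univ _)
    have h2 : |l (pv q)| ≤ M := by
      rw [hlv, abs_mul, abs_sg, one_mul]
      exact h1
    exact (abs_le.mp h2).2
  have hatt : ∃ q, l (pv q) = M := by
    rcases le_total 0 (l (pp i0)) with h | h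
    · exact ⟨(i0, true), by rw [hlv, hM, abs_of_nonneg h]; simp [sg]⟩
    · exact ⟨(i0, false), by rw [hlv, hM, abs_of_nonpos h]; simp [sg]⟩
  have hFM : F = {x | x ∈ convexHull ℝ (PP : Set E5) ∧ (l : E5 →ₗ[ℝ] ℝ) x = M} := by
    rw [hl]
    ext x
    constructor
    · rintro ⟨hx, hmax⟩
      refine ⟨hx, le_antisymm (le_of_mem_hull PP _ M hleM x hx) ?_⟩
      obtain ⟨q, hq⟩ := hatt
      rw [← hq]
      exact hmax _ (pv_mem_hull q)
    · rintro ⟨hx, hlx⟩
      refine ⟨hx, fun y hy => ?_⟩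
      have h1 := le_of_mem_hull PP _ M hleM y hy
      rw [← hlx] at h1
      exact h1
  have hMpos : 0 < M := by
    rcases (abs_nonneg (l (pp i0))).lt_or_eq with h | h
    · exact h
    · exfalso
      have hF2 : F = convexHull ℝ (PP : Set E5) := by
        rw [hFM]
        ext x
        constructor
        · rintro ⟨hx, _⟩
          exact hx
        · intro hx
          refine ⟨hx, le_antisymm (le_of_mem_hull PP _ M hleM x hx) ?_⟩
          have h3 : ∀ v ∈ PP, (-(l : E5 →ₗ[ℝ] ℝ)) v ≤ -M := by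
            intro v hv
            obtain ⟨q, rfl⟩ := (mem_PP _).mp hv
            have h1 : |l (pp q.1)| ≤ M := hi0 q.1 (mem_univ _)
            have h2 : |l (pv q)| ≤ M := by
              rw [hlv, abs_mul, abs_sg, one_mul]
              exact h1
            have h3 := (abs_le.mp h2).1
            have h4 : (-(l : E5 →ₗ[ℝ] ℝ)) (pv q) = - l (pv q) := rfl
            rw [h4]
            linarith
          have h5 := le_of_mem_hull PP _ (-M) h3 x hx
          have h6 : (-(l : E5 →ₗ[ℝ] ℝ)) x = - (l : E5 →ₗ[ℝ] ℝ) x := rfl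
          rw [h6] at h5
          linarith
      rw [hF2, vectorSpan_hull] at hr
      simp at hr
  have hFconv : F = convexHull ℝ {v | v ∈ PP ∧ (l : E5 →ₗ[ℝ] ℝ) v = M} := by
    rw [hFM, face_eq PP _ M hleM]
  -- the sign vector
  set b : Fin 6 → Bool := fun i => decide (0 < l (pp i)) with hb
  set S : Finset (Fin 6) := univ.filter (fun i => |l (pp i)| = M) with hS
  have hSb : ∀ i ∈ S, l (pp i) = M * sg (b i) := by
    intro i hi
    have h1 : |l (pp i)| = M := (Finset.mem_filter.mp hi).2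
    by_cases h : 0 < l (pp i)
    · simp only [hb, h, decide_true, sg]
      rw [← h1, abs_of_pos h]
      simp
    · simp only [hb, h, decide_false, sg]
      rw [← h1, abs_of_nonpos (not_lt.mp h)]
      simp
  have hsub : {v | v ∈ PP ∧ (l : E5 →ₗ[ℝ] ℝ) v = M} ⊆
      ((S.image (fun i => pv (i, b i)) : Finset E5) : Set E5) := by
    rintro v ⟨hv, hlv'⟩
    obtain ⟨q, rfl⟩ := (mem_PP _).mp hv
    have h1 : sg q.2 * l (pp q.1) = M := by
      rw [← hlv]
      exact hlv'
    have h2 : |l (pp q.1)| = M := by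
      rw [← abs_of_pos hMpos, ← h1, abs_mul, abs_sg, one_mul]
    have h3 : q.1 ∈ S := Finset.mem_filter.mpr ⟨mem_univ _, h2⟩
    have h4 := hSb q.1 h3
    rw [h4] at h1
    have h5 : sg q.2 * sg (b q.1) = 1 := by
      have : M * (sg q.2 * sg (b q.1)) = M * 1 := by linarith
      exact mul_left_cancel₀ hMpos.ne' this
    have h6 : b q.1 = q.2 := by
      by_contra hne
      rw [sg_ne (fun h => hne h.symm)] at h5
      norm_num at h5
    rw [Finset.mem_coe, Finset.mem_image]
    exact ⟨q.1, h3, by rw [h6]⟩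
  have hcard : 5 ≤ S.card := by
    by_contra hlt
    push Not at hlt
    have hle : Module.finrank ℝ (vectorSpan ℝ F) ≤ 3 := by
      have e1 : vectorSpan ℝ F = vectorSpan ℝ {v | v ∈ PP ∧ (l : E5 →ₗ[ℝ] ℝ) v = M} := by
        rw [hFconv, ← direction_affineSpan, affineSpan_convexHull, direction_affineSpan]
      rw [e1]
      refine (Submodule.finrank_mono (vectorSpan_mono ℝ hsub)).trans ?_
      rcases Nat.eq_zero_or_pos S.card with h0 | hpos
      · rw [Finset.card_eq_zero] at h0
        rw [h0, Finset.image_empty, Finset.coe_empty, vectorSpan_empty, finrank_bot]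
        norm_num
      · have := finrank_vectorSpan_image_finset_le ℝ (fun i => pv (i, b i)) S
          (n := S.card - 1) (by omega)
        omega
    omega
  have hall : ∀ j, |l (pp j)| = M := by
    intro j
    by_contra hj
    have hjS : j ∉ S := by
      intro h
      exact hj (Finset.mem_filter.mp h).2
    have hSe : S = univ.erase j := by
      apply Finset.eq_of_subset_of_card_le
      · intro i hi
        rw [Finset.mem_erase]
        exact ⟨fun h => hjS (h ▸ hi), mem_univ _⟩
      · rw [Finset.card_erase_of_mem (mem_univ _)]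
        simpa using hcard
    have hsum : ∑ i, l (pp i) = 0 := by
      rw [← map_sum, pp_sum, map_zero]
    rw [← Finset.add_sum_erase univ _ (mem_univ j), ← hSe, Finset.sum_congr rfl hSb,
      ← Finset.mul_sum, hSe] at hsum
    have h1 : l (pp j) = - (M * ∑ i ∈ univ.erase j, sg (b i)) := by linarith
    have h2 : M ≤ |l (pp j)| := by
      rw [h1, abs_neg, abs_mul, abs_of_pos hMpos]
      have := odd_sum b j
      nlinarith
    exact hj (le_antisymm (hi0 j (mem_univ _)) h2)
  have hc : ∀ i, l (pp i) = M * sg (b i) := by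
    intro i
    exact hSb i (Finset.mem_filter.mpr ⟨mem_univ _, hall i⟩)
  have hbal : Bal b := by
    have hsum : ∑ i, l (pp i) = 0 := by
      rw [← map_sum, pp_sum, map_zero]
    rw [Finset.sum_congr rfl (fun i _ => hc i), ← Finset.mul_sum] at hsum
    exact (mul_eq_zero.mp hsum).resolve_left hMpos.ne'
  refine ⟨b, hbal, ?_⟩
  rw [hFconv, FF, face_eq PP _ 1 (lf_le_one b hbal)]
  congr 1
  ext v
  constructor
  · rintro ⟨hv, h⟩
    refine ⟨hv, ?_⟩
    obtain ⟨q, rfl⟩ := (mem_PP _).mp hv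
    have h1 : sg q.2 * l (pp q.1) = M := by
      rw [← hlv]
      exact h
    rw [lf_pv _ hbal]
    rw [hc] at h1
    have : M * (sg q.2 * sg (b q.1)) = M * 1 := by linarith
    exact mul_left_cancel₀ hMpos.ne' this
  · rintro ⟨hv, h⟩
    refine ⟨hv, ?_⟩
    obtain ⟨q, rfl⟩ := (mem_PP _).mp hv
    rw [lf_pv _ hbal] at h
    show l (pv q) = M
    rw [hlv, hc]
    calc sg q.2 * (M * sg (b q.1)) = M * (sg q.2 * sg (b q.1)) := by ring
      _ = M * 1 := by rw [h]
      _ = M := mul_one M

theorem FF_inj (b b' : Fin 6 → Bool) (hb : Bal b) (hb' : Bal b') (h : FF b = FF b') : b = b' := by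
  funext i
  have h1 := (pv_mem_FF b hb (i, b i)).mpr rfl
  rw [h] at h1
  exact ((pv_mem_FF b' hb' (i, b i)).mp h1).symm

/-- the common index type of the vertices of both graphs -/
abbrev Idx := (Fin 6 × Bool) ⊕ {b : Fin 6 → Bool // Bal b}

noncomputable def lg (c : Fin 6 → ℝ) : E6 →ₗ[ℝ] ℝ where
  toFun z := ∑ j : Fin 6, c j * z j
  map_add' := by
    intro a b
    simp [mul_add, Finset.sum_add_distrib]
  map_smul' := by
    intro a b
    simp only [PiLp.smul_apply, smul_eq_mul, RingHom.id_apply, Finset.mul_sum]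
    apply Finset.sum_congr rfl
    intro j _
    ring

noncomputable def ev (q : Fin 6 × Bool) : E6 :=
  WithLp.toLp 2 (fun j : Fin 6 => if j = q.1 then sg q.2 else 0)

noncomputable def wv (b : Fin 6 → Bool) : E6 :=
  WithLp.toLp 2 (fun j : Fin 6 => (2 / 11) * sg (b j))

noncomputable def W : Idx → E6
  | Sum.inl q => ev q
  | Sum.inr b => wv b.1

theorem ev_apply (q : Fin 6 × Bool) (j : Fin 6) : ev q j = if j = q.1 then sg q.2 else 0 := rfl
theorem wv_apply (b : Fin 6 → Bool) (j : Fin 6) : wv b j = (2 / 11) * sg (b j) := rfl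

theorem lg_ev (c : Fin 6 → ℝ) (q : Fin 6 × Bool) : lg c (ev q) = sg q.2 * c q.1 := by
  show ∑ j : Fin 6, c j * ev q j = _
  simp [ev_apply, mul_comm]

theorem lg_wv (c : Fin 6 → ℝ) (b : Fin 6 → Bool) :
    lg c (wv b) = (2 / 11) * ∑ j, c j * sg (b j) := by
  show ∑ j : Fin 6, c j * wv b j = _
  rw [Finset.mul_sum]
  apply Finset.sum_congr rfl
  intro j _
  rw [wv_apply]
  ring

instance : Finite Idx := inferInstance

noncomputable instance : Fintype Idx := Fintype.ofFinite _

open Classical in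
noncomputable def QQ : Finset E6 := Finset.univ.image W

theorem mem_QQ (x : E6) : x ∈ QQ ↔ ∃ q, W q = x := by
  simp [QQ]

theorem W_mem_QQ (q : Idx) : W q ∈ QQ := (mem_QQ _).mpr ⟨q, rfl⟩

theorem W_mem_hull (q : Idx) : W q ∈ convexHull ℝ (QQ : Set E6) :=
  subset_convexHull ℝ _ (by exact_mod_cast W_mem_QQ q)

theorem sum_sg_ne {b b' : Fin 6 → Bool} (h : b ≠ b') : ∑ j, sg (b j) * sg (b' j) ≤ 4 := by
  obtain ⟨k, hk⟩ := Function.ne_iff.mp h
  rw [← Finset.add_sum_erase univ _ (mem_univ k), sg_ne hk]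
  have h1 : ∑ j ∈ univ.erase k, sg (b j) * sg (b' j) ≤ ∑ j ∈ univ.erase k, (1 : ℝ) :=
    Finset.sum_le_sum (fun j _ => sg_mul_le _ _)
  rw [Finset.sum_const, Finset.card_erase_of_mem (mem_univ _)] at h1
  have h2 : ((Fintype.card (Fin 6) - 1 : ℕ) : ℝ) = 5 := by norm_num [Fintype.card_fin]
  rw [nsmul_eq_mul, mul_one, Finset.card_univ, h2] at h1
  linarith

theorem sum_sg_self (b : Fin 6 → Bool) : ∑ j, sg (b j) * sg (b j) = 6 := by
  simp [sg_sq]

/-- key estimate for functionals on the crosspolytope part -/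
theorem W_inl_extreme (q : Fin 6 × Bool) :
    W (Sum.inl q) ∈ Set.extremePoints ℝ (convexHull ℝ (QQ : Set E6)) := by
  apply mem_extremePoints_of QQ (lg (fun j => if j = q.1 then sg q.2 else 0)) 1 _ (W_mem_QQ _)
  · show lg _ (ev q) = 1
    rw [lg_ev]
    simp [sg_sq]
  · intro w hw hne
    obtain ⟨r, rfl⟩ := (mem_QQ _).mp hw
    rcases r with r | b
    · show lg _ (ev r) < 1
      rw [lg_ev]
      by_cases hi : r.1 = q.1
      · by_cases hs : r.2 = q.2
        · exact absurd (by rw [Prod.ext hi hs]) hne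
        · simp [hi, sg_ne hs]
      · simp [hi]
    · show lg _ (wv b.1) < 1
      rw [lg_wv]
      simp
      have := sg_mul_le q.2 (b.1 q.1)
      linarith

theorem W_inr_extreme (b : {b : Fin 6 → Bool // Bal b}) :
    W (Sum.inr b) ∈ Set.extremePoints ℝ (convexHull ℝ (QQ : Set E6)) := by
  apply mem_extremePoints_of QQ (lg (fun j => sg (b.1 j))) (12 / 11) _ (W_mem_QQ _)
  · show lg _ (wv b.1) = 12 / 11
    rw [lg_wv, sum_sg_self]
    norm_num
  · intro w hw hne
    obtain ⟨r, rfl⟩ := (mem_QQ _).mp hw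
    rcases r with r | b'
    · show lg _ (ev r) < _
      rw [lg_ev]
      have := sg_mul_le r.2 (b.1 r.1)
      linarith
    · show lg _ (wv b'.1) < _
      rw [lg_wv]
      have hbb : b.1 ≠ b'.1 := by
        intro h
        apply hne
        rw [Subtype.ext h]
      have := sum_sg_ne hbb
      linarith

theorem W_extreme (q : Idx) :
    W q ∈ Set.extremePoints ℝ (convexHull ℝ (QQ : Set E6)) := by
  rcases q with q | b
  · exact W_inl_extreme q
  · exact W_inr_extreme b

theorem extreme_QQ (x : E6) :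
    x ∈ Set.extremePoints ℝ (convexHull ℝ (QQ : Set E6)) ↔ ∃ q, W q = x := by
  constructor
  · intro h
    have := extremePoints_convexHull_subset h
    exact (mem_QQ x).mp (by exact_mod_cast this)
  · rintro ⟨q, rfl⟩
    exact W_extreme q

theorem W_injective : Function.Injective W := by
  rintro (q | b) (r | b') h
  · have h' : ev q = ev r := h
    have h1 : ev q q.1 = ev r q.1 := by rw [h']
    rw [ev_apply, ev_apply, if_pos rfl] at h1
    by_cases hi : q.1 = r.1
    · rw [if_pos hi] at h1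
      rw [Prod.ext hi (sg_inj h1)]
    · rw [if_neg hi] at h1
      exfalso
      have := sg_sq q.2
      rw [h1] at this
      norm_num at this
  · exfalso
    have h' : ev q = wv b'.1 := h
    have h1 : ev q (q.1 + 1) = wv b'.1 (q.1 + 1) := by rw [h']
    rw [ev_apply, wv_apply] at h1
    simp at h1
    have := sg_sq (b'.1 (q.1 + 1))
    rw [h1] at this
    norm_num at this
  · exfalso
    have h' : wv b.1 = ev r := h
    have h1 : wv b.1 (r.1 + 1) = ev r (r.1 + 1) := by rw [h']
    rw [ev_apply, wv_apply] at h1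
    simp at h1
    have := sg_sq (b.1 (r.1 + 1))
    rw [h1] at this
    norm_num at this
  · have h' : wv b.1 = wv b'.1 := h
    congr 1
    apply Subtype.ext
    funext j
    have h1 : wv b.1 j = wv b'.1 j := by rw [h']
    rw [wv_apply, wv_apply] at h1
    apply sg_inj
    linarith

theorem Q_edge_inl (q r : Fin 6 × Bool) (h : q.1 ≠ r.1) :
    IsExtreme ℝ (convexHull ℝ (QQ : Set E6)) (segment ℝ (W (Sum.inl q)) (W (Sum.inl r))) := by
  apply isExtreme_segment QQ (lg (fun j => if j = q.1 then sg q.2 else if j = r.1 then sg r.2 else 0))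
    1 _ _ (W_mem_QQ _) (W_mem_QQ _)
  · show lg _ (ev q) = 1
    rw [lg_ev]
    simp [sg_sq]
  · show lg _ (ev r) = 1
    rw [lg_ev]
    simp [sg_sq, Ne.symm h]
  · intro w hw hq hr
    obtain ⟨u, rfl⟩ := (mem_QQ _).mp hw
    rcases u with u | b
    · show lg _ (ev u) < 1
      rw [lg_ev]
      by_cases hi : u.1 = q.1
      · by_cases hs : u.2 = q.2
        · exact absurd (by rw [Prod.ext hi hs]) hq
        · simp [hi, sg_ne hs]
      · by_cases hj : u.1 = r.1
        · by_cases hs : u.2 = r.2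
          · exact absurd (by rw [Prod.ext hj hs]) hr
          · simp [hj, sg_ne hs, Ne.symm h]
        · simp [hi, hj]
    · show lg _ (wv b.1) < 1
      rw [lg_wv]
      have h1 : ∑ j, (if j = q.1 then sg q.2 else if j = r.1 then sg r.2 else 0) * sg (b.1 j)
          ≤ ∑ j : Fin 6, ((if j = q.1 then (1 : ℝ) else 0) + (if j = r.1 then 1 else 0)) := by
        apply Finset.sum_le_sum
        intro j _
        by_cases hjq : j = q.1
        · simp only [hjq, if_true]
          have := sg_mul_le q.2 (b.1 q.1)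
          split_ifs <;> linarith
        · by_cases hjr : j = r.1
          · simp only [hjr, Ne.symm h, if_true, if_false]
            have := sg_mul_le r.2 (b.1 r.1)
            linarith
          · simp [hjq, hjr]
      have h2 : ∑ j : Fin 6, ((if j = q.1 then (1 : ℝ) else 0) + (if j = r.1 then 1 else 0)) = 2 := by
        rw [Finset.sum_add_distrib]
        simp
        norm_num
      linarith

theorem Q_edge_mix (q : Fin 6 × Bool) (b : {b : Fin 6 → Bool // Bal b}) (h : b.1 q.1 = q.2) :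
    IsExtreme ℝ (convexHull ℝ (QQ : Set E6)) (segment ℝ (W (Sum.inl q)) (W (Sum.inr b))) := by
  have key : ∀ b' : Fin 6 → Bool,
      ∑ j, (if j = q.1 then sg (b.1 j) else (9 / 10) * sg (b.1 j)) * sg (b' j)
        = (9 / 10) * ∑ j, sg (b.1 j) * sg (b' j) + (1 / 10) * (sg (b.1 q.1) * sg (b' q.1)) := by
    intro b'
    have e1 : ∀ j, (if j = q.1 then sg (b.1 j) else (9 / 10) * sg (b.1 j)) * sg (b' j)
        = (9 / 10) * (sg (b.1 j) * sg (b' j))
          + (if j = q.1 then (1 / 10) * (sg (b.1 j) * sg (b' j)) else 0) := by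
      intro j
      split_ifs <;> ring
    rw [Finset.sum_congr rfl (fun j _ => e1 j), Finset.sum_add_distrib, ← Finset.mul_sum]
    simp
  apply isExtreme_segment QQ
    (lg (fun j => if j = q.1 then sg (b.1 j) else (9 / 10) * sg (b.1 j)))
    1 _ _ (W_mem_QQ _) (W_mem_QQ _)
  · show lg _ (ev q) = 1
    rw [lg_ev]
    simp [h, sg_sq]
  · show lg _ (wv b.1) = 1
    rw [lg_wv, key, sum_sg_self, sg_sq]
    norm_num
  · intro w hw hq hr
    obtain ⟨u, rfl⟩ := (mem_QQ _).mp hw
    rcases u with u | b'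
    · show lg _ (ev u) < 1
      rw [lg_ev]
      by_cases hi : u.1 = q.1
      · by_cases hs : u.2 = q.2
        · exact absurd (by rw [Prod.ext hi hs]) hq
        · simp [hi, h, sg_ne hs]
      · simp only [hi, if_false]
        have := sg_mul_le u.2 (b.1 u.1)
        linarith
    · show lg _ (wv b'.1) < 1
      rw [lg_wv, key]
      have hbb : b.1 ≠ b'.1 := by
        intro h
        apply hr
        rw [Subtype.ext h]
      have h1 := sum_sg_ne hbb
      have h2 := sg_mul_le (b.1 q.1) (b'.1 q.1)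
      linarith

theorem zero_mem_hullQ : (0 : E6) ∈ convexHull ℝ (QQ : Set E6) := by
  have h := (convex_convexHull ℝ (QQ : Set E6)).openSegment_subset (W_mem_hull (Sum.inl (0, true)))
    (W_mem_hull (Sum.inl (0, false)))
  have h2 : W (Sum.inl (0, false)) = - W (Sum.inl (0, true)) := by
    show ev _ = - ev _
    ext j
    simp only [PiLp.neg_apply, ev_apply]
    split_ifs <;> simp [sg]
  rw [h2] at h
  exact h (zero_mem_openSegment _)

theorem l1_mem_hull (x : E6) (hx : ∑ j, |x j| ≤ 1) : x ∈ convexHull ℝ (QQ : Set E6) := by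
  have h := (convex_convexHull ℝ (QQ : Set E6)).sum_mem (t := (univ : Finset (Option (Fin 6))))
    (w := fun o => o.elim (1 - ∑ j, |x j|) (fun j => |x j|))
    (z := fun o => o.elim 0 (fun j => W (Sum.inl (j, decide (0 < x j)))))
    (by
      rintro (_ | j) _
      · simpa using hx
      · exact abs_nonneg _)
    (by simp [Fintype.sum_option])
    (by
      rintro (_ | j) _
      · exact zero_mem_hullQ
      · exact W_mem_hull (Sum.inl (j, decide (0 < x j))))
  convert h using 1
  ext k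
  simp only [Fintype.sum_option, Option.elim, smul_zero, zero_add]
  rw [WithLp.ofLp_sum, Finset.sum_apply]
  have e1 : ∀ j : Fin 6, (|x j| • W (Sum.inl (j, decide (0 < x j)))).ofLp k
      = if k = j then x k else 0 := by
    intro j
    rw [PiLp.smul_apply]
    show |x j| • (ev (j, decide (0 < x j))) k = _
    rw [ev_apply]
    by_cases hk : k = j
    · subst hk
      by_cases hp : 0 < x k
      · simp [hp, sg, abs_of_pos hp]
      · simp [hp, sg, abs_of_nonpos (not_lt.mp hp)]
    · simp [hk]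
  rw [Finset.sum_congr rfl (fun j _ => e1 j)]
  simp

theorem not_extreme (S : Set E6) (p : E6) (hp : p ∈ S) (hpn : ∑ j, |p j| < 1)
    (r : Fin 6 × Bool) (hr : ev r ∉ S) : ¬ IsExtreme ℝ (convexHull ℝ (QQ : Set E6)) S := by
  intro h
  set n : ℝ := ∑ j, |p j| with hn
  have hn0 : 0 ≤ n := Finset.sum_nonneg (fun j _ => abs_nonneg _)
  set δ : ℝ := (1 - n) / 2 with hδ
  have hδ0 : 0 < δ := by rw [hδ]; linarith
  have hb : p + δ • (p - ev r) ∈ convexHull ℝ (QQ : Set E6) := by
    apply l1_mem_hull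
    have e1 : ∀ j, |(p + δ • (p - ev r)) j| ≤ (1 + δ) * |p j| + δ * |ev r j| := by
      intro j
      have e2 : (p + δ • (p - ev r)) j = (1 + δ) * p j + -(δ * ev r j) := by
        simp only [PiLp.add_apply, PiLp.smul_apply, PiLp.sub_apply, smul_eq_mul]
        ring
      rw [e2]
      refine (abs_add_le _ _).trans ?_
      rw [abs_neg, abs_mul, abs_mul, abs_of_pos hδ0, abs_of_pos (by linarith : 0 < 1 + δ)]
    refine (Finset.sum_le_sum (fun j _ => e1 j)).trans ?_
    rw [Finset.sum_add_distrib, ← Finset.mul_sum, ← Finset.mul_sum, ← hn]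
    have e3 : ∑ j, |ev r j| = 1 := by
      have : ∀ j, |ev r j| = if j = r.1 then 1 else 0 := by
        intro j
        rw [ev_apply]
        split_ifs
        · exact abs_sg _
        · simp
      rw [Finset.sum_congr rfl (fun j _ => this j)]
      simp
    rw [e3]
    have : δ * 2 = 1 - n := by rw [hδ]; ring
    nlinarith
  have ha : ev r ∈ convexHull ℝ (QQ : Set E6) := W_mem_hull (Sum.inl r)
  have hseg : p ∈ openSegment ℝ (ev r) (p + δ • (p - ev r)) := by
    refine ⟨δ / (1 + δ), 1 / (1 + δ), by positivity, by positivity, by field_simp; ring, ?_⟩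
    ext j
    simp only [PiLp.add_apply, PiLp.smul_apply, PiLp.sub_apply, smul_eq_mul]
    field_simp
    ring
  exact hr (h.left_mem_of_mem_openSegment ha hb hp hseg)

theorem sg_add {a b : Bool} (h : a ≠ b) : sg a + sg b = 0 := by
  cases a <;> cases b <;> simp_all [sg]

theorem Q_nonedge_inl (q r : Fin 6 × Bool) (h : q.1 = r.1) (hne : q ≠ r) :
    ¬ IsExtreme ℝ (convexHull ℝ (QQ : Set E6)) (segment ℝ (W (Sum.inl q)) (W (Sum.inl r))) := by
  have hs : q.2 ≠ r.2 := fun h2 => hne (Prod.ext h h2)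
  have hsum : sg q.2 + sg r.2 = 0 := sg_add hs
  apply not_extreme _ 0 ?_ ?_ (q.1 + 1, true) ?_
  · refine ⟨1/2, 1/2, by norm_num, by norm_num, by norm_num, ?_⟩
    ext j
    show (1/2 : ℝ) * ev q j + (1/2 : ℝ) * ev r j = 0
    rw [ev_apply, ev_apply, ← h]
    split_ifs
    · linarith
    · simp
  · simp
  · rintro ⟨a, b, ha, hb, hab, hx⟩
    have h1 := congrArg (fun z : E6 => z (q.1 + 1)) hx
    have h2 : a * ev q (q.1 + 1) + b * ev r (q.1 + 1) = ev (q.1 + 1, true) (q.1 + 1) := h1
    rw [ev_apply, ev_apply, ev_apply, ← h] at h2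
    simp [sg] at h2

theorem Q_nonedge_mix (q : Fin 6 × Bool) (b : {b : Fin 6 → Bool // Bal b}) (h : b.1 q.1 ≠ q.2) :
    ¬ IsExtreme ℝ (convexHull ℝ (QQ : Set E6)) (segment ℝ (W (Sum.inl q)) (W (Sum.inr b))) := by
  have hsum : sg (b.1 q.1) + sg q.2 = 0 := sg_add h
  set p : E6 := (2/13 : ℝ) • W (Sum.inl q) + (11/13 : ℝ) • W (Sum.inr b) with hp
  have hpj : ∀ j, p j = if j = q.1 then 0 else (2/13) * sg (b.1 j) := by
    intro j
    have e1 : p j = (2/13 : ℝ) * ev q j + (11/13 : ℝ) * wv b.1 j := rfl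
    rw [e1, ev_apply, wv_apply]
    split_ifs with hj
    · rw [hj]; linarith
    · ring
  apply not_extreme _ p ?_ ?_ (q.1 + 1, true) ?_
  · exact ⟨2/13, 11/13, by norm_num, by norm_num, by norm_num, rfl⟩
  · have e1 : ∀ j, |p j| ≤ (2/13) + (if j = q.1 then -(2/13) else 0) := by
      intro j
      rw [hpj]
      split_ifs with hj
      · simp
      · rw [abs_mul, abs_sg]
        norm_num [abs_of_pos]
    refine lt_of_le_of_lt (Finset.sum_le_sum (fun j _ => e1 j)) ?_
    rw [Finset.sum_add_distrib]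
    simp
    norm_num
  · rintro ⟨a, c, ha, hc, hac, hx⟩
    have h1 := congrArg (fun z : E6 => z (q.1 + 1)) hx
    have h2 : a * ev q (q.1 + 1) + c * wv b.1 (q.1 + 1) = ev (q.1 + 1, true) (q.1 + 1) := h1
    rw [ev_apply, ev_apply, wv_apply] at h2
    simp [sg_true] at h2
    have h3 := sg_le (b.1 (q.1 + 1))
    nlinarith

theorem Q_nonedge_inr (b b' : {b : Fin 6 → Bool // Bal b}) (h : b ≠ b') :
    ¬ IsExtreme ℝ (convexHull ℝ (QQ : Set E6)) (segment ℝ (W (Sum.inr b)) (W (Sum.inr b'))) := by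
  have hbb : b.1 ≠ b'.1 := fun h' => h (Subtype.ext h')
  obtain ⟨k, hk⟩ := Function.ne_iff.mp hbb
  set p : E6 := (1/2 : ℝ) • W (Sum.inr b) + (1/2 : ℝ) • W (Sum.inr b') with hp
  have hpj : ∀ j, p j = (1/11) * (sg (b.1 j) + sg (b'.1 j)) := by
    intro j
    have e1 : p j = (1/2 : ℝ) * wv b.1 j + (1/2 : ℝ) * wv b'.1 j := rfl
    rw [e1, wv_apply, wv_apply]
    ring
  apply not_extreme _ p ?_ ?_ (0, true) ?_
  · exact ⟨1/2, 1/2, by norm_num, by norm_num, by norm_num, rfl⟩
  · have e1 : ∀ j, |p j| ≤ (2/11) + (if j = k then -(2/11) else 0) := by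
      intro j
      rw [hpj]
      split_ifs with hj
      · rw [hj]
        have : sg (b.1 k) + sg (b'.1 k) = 0 := sg_add hk
        rw [this]
        simp
      · rw [abs_mul]
        have := abs_add_le (sg (b.1 j)) (sg (b'.1 j))
        rw [abs_sg, abs_sg] at this
        rw [abs_of_pos (by norm_num : (0 : ℝ) < 1 / 11)]
        linarith
    refine lt_of_le_of_lt (Finset.sum_le_sum (fun j _ => e1 j)) ?_
    rw [Finset.sum_add_distrib]
    simp
    norm_num
  · rintro ⟨a, c, ha, hc, hac, hx⟩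
    have h1 := congrArg (fun z : E6 => z 0) hx
    have h2 : a * wv b.1 0 + c * wv b'.1 0 = ev (0, true) 0 := h1
    rw [ev_apply, wv_apply, wv_apply] at h2
    simp [sg_true] at h2
    have h3 := sg_le (b.1 0)
    have h4 := sg_le (b'.1 0)
    nlinarith

theorem affineSpan_QQ : affineSpan ℝ (QQ : Set E6) = ⊤ := by
  rw [← affineSpan_convexHull]
  rw [AffineSubspace.affineSpan_eq_top_iff_vectorSpan_eq_top_of_nonempty]
  · rw [eq_top_iff, ← (EuclideanSpace.basisFun (Fin 6) ℝ).toBasis.span_eq, Submodule.span_le]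
    rintro _ ⟨j, rfl⟩
    have h := vsub_mem_vectorSpan ℝ (W_mem_hull (Sum.inl (j, true))) zero_mem_hullQ
    have e1 : W (Sum.inl (j, true)) = EuclideanSpace.single j (1 : ℝ) := by
      show ev (j, true) = _
      ext k
      rw [ev_apply]
      simp [sg]
    rw [e1] at h
    simpa using h
  · exact ⟨0, zero_mem_hullQ⟩

/-- the common adjacency relation -/
def adj : Idx → Idx → Prop
  | Sum.inl q, Sum.inl r => q.1 ≠ r.1
  | Sum.inl q, Sum.inr b => b.1 q.1 = q.2
  | Sum.inr b, Sum.inl q => b.1 q.1 = q.2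
  | Sum.inr _, Sum.inr _ => False

/-- the Q-graph relation -/
theorem Q_adj (x y : Idx) : (x ≠ y ∧
    (IsExtreme ℝ (convexHull ℝ (QQ : Set E6)) (segment ℝ (W x) (W y)) ∨
     IsExtreme ℝ (convexHull ℝ (QQ : Set E6)) (segment ℝ (W y) (W x)))) ↔ adj x y := by
  have hsymm : (IsExtreme ℝ (convexHull ℝ (QQ : Set E6)) (segment ℝ (W x) (W y)) ∨
     IsExtreme ℝ (convexHull ℝ (QQ : Set E6)) (segment ℝ (W y) (W x))) ↔
      IsExtreme ℝ (convexHull ℝ (QQ : Set E6)) (segment ℝ (W x) (W y)) := by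
    rw [segment_symm ℝ (W y) (W x), or_self]
  rw [hsymm]
  rcases x with q | b <;> rcases y with r | b'
  · constructor
    · rintro ⟨hne, h⟩ h2
      exact Q_nonedge_inl q r h2 (fun h3 => hne (by rw [h3])) h
    · intro h
      have h' : q.1 ≠ r.1 := h
      exact ⟨fun h3 => h' (by rw [Sum.inl.inj h3]), Q_edge_inl q r h'⟩
  · constructor
    · rintro ⟨hne, h⟩
      by_contra h2
      exact Q_nonedge_mix q b' h2 h
    · intro h
      exact ⟨by simp, Q_edge_mix q b' h⟩
  · rw [segment_symm]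
    constructor
    · rintro ⟨hne, h⟩
      by_contra h2
      exact Q_nonedge_mix r b h2 h
    · intro h
      exact ⟨by simp, Q_edge_mix r b h⟩
  · constructor
    · rintro ⟨hne, h⟩
      exact Q_nonedge_inr b b' (fun h3 => hne (by rw [h3])) h
    · intro h
      exact absurd h (by simp [adj])

end Main

/-- vertices and facets of the 5-polytope -/
noncomputable def f1 : Idx →
    (↥(Set.extremePoints ℝ (convexHull ℝ (PP : Set (EuclideanSpace ℝ (Fin 5))))))
      ⊕ {F : Set (EuclideanSpace ℝ (Fin 5)) //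
          IsExposed ℝ (convexHull ℝ (PP : Set (EuclideanSpace ℝ (Fin 5)))) F ∧
            Module.finrank ℝ (vectorSpan ℝ F) = 4}
  | Sum.inl q => Sum.inl ⟨pv q, pv_extreme q⟩
  | Sum.inr b => Sum.inr ⟨FF b.1, FF_exposed b.1 b.2, FF_finrank b.1 b.2⟩

theorem f1_bijective : Function.Bijective f1 := by
  constructor
  · rintro (q | b) (r | b') h
    · have h1 : pv q = pv r := congrArg Subtype.val (Sum.inl.inj h)
      rw [pv_injective h1]
    · exact absurd h (by simp [f1])
    · exact absurd h (by simp [f1])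
    · have h1 : FF b.1 = FF b'.1 := congrArg Subtype.val (Sum.inr.inj h)
      rw [Subtype.ext (FF_inj b.1 b'.1 b.2 b'.2 h1)]
  · rintro (⟨x, hx⟩ | ⟨F, hF, hr⟩)
    · obtain ⟨q, rfl⟩ := (extreme_PP x).mp hx
      exact ⟨Sum.inl q, rfl⟩
    · obtain ⟨b, hb, rfl⟩ := facet_class F hF hr
      exact ⟨Sum.inr ⟨b, hb⟩, rfl⟩

/-- vertices of the 6-polytope -/
noncomputable def f2 (x : Idx) :
    ↥(Set.extremePoints ℝ (convexHull ℝ (QQ : Set (EuclideanSpace ℝ (Fin 6))))) :=
  ⟨W x, W_extreme x⟩

theorem f2_bijective : Function.Bijective f2 := by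
  constructor
  · intro x y h
    exact W_injective (congrArg Subtype.val h)
  · rintro ⟨x, hx⟩
    obtain ⟨q, rfl⟩ := (extreme_QQ x).mp hx
    exact ⟨q, rfl⟩

theorem P_edge_iff (q r : Fin 6 × Bool) (hne : q ≠ r) :
    IsExtreme ℝ (convexHull ℝ (PP : Set (EuclideanSpace ℝ (Fin 5)))) (segment ℝ (pv q) (pv r))
      ↔ q.1 ≠ r.1 := by
  constructor
  · intro h h1
    obtain ⟨i, s⟩ := q
    obtain ⟨j, t⟩ := r
    have h2 : i = j := h1
    subst h2
    exact P_nonedge i s t (fun h3 => hne (by rw [h3])) h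
  · intro h
    exact P_edge q r h

theorem P_adj (x y : Idx) :
    (SimpleGraph.fromRel
      (fun a b :
          (↥(Set.extremePoints ℝ (convexHull ℝ (PP : Set (EuclideanSpace ℝ (Fin 5))))))
            ⊕ {F : Set (EuclideanSpace ℝ (Fin 5)) //
                IsExposed ℝ (convexHull ℝ (PP : Set (EuclideanSpace ℝ (Fin 5)))) F ∧
                  Module.finrank ℝ (vectorSpan ℝ F) = 4} =>
        (∃ u v, a = Sum.inl u ∧ b = Sum.inl v ∧
            IsExtreme ℝ (convexHull ℝ (PP : Set (EuclideanSpace ℝ (Fin 5))))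
              (segment ℝ (u : EuclideanSpace ℝ (Fin 5)) (v : EuclideanSpace ℝ (Fin 5)))) ∨
        (∃ u F, a = Sum.inl u ∧ b = Sum.inr F ∧
            (u : EuclideanSpace ℝ (Fin 5)) ∈ F.1))).Adj (f1 x) (f1 y) ↔ adj x y := by
  rw [SimpleGraph.fromRel_adj]
  rcases x with q | b <;> rcases y with r | b'
  · constructor
    · rintro ⟨hne, h⟩
      have hqr : q ≠ r := fun h3 => hne (by rw [h3])
      rcases h with (⟨u, v, hu, hv, h⟩ | ⟨u, F, hu, hF, h⟩) | (⟨u, v, hu, hv, h⟩ | ⟨u, F, hu, hF, h⟩)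
      · have h1 := Sum.inl.inj hu
        have h2 := Sum.inl.inj hv
        subst h1
        subst h2
        exact (P_edge_iff q r hqr).mp h
      · exact absurd hF (by simp [f1])
      · have h1 := Sum.inl.inj hu
        have h2 := Sum.inl.inj hv
        subst h1
        subst h2
        exact fun h4 => (P_edge_iff r q hqr.symm).mp h h4.symm
      · exact absurd hF (by simp [f1])
    · intro h
      have h' : q.1 ≠ r.1 := h
      refine ⟨fun h3 => h' ?_, Or.inl (Or.inl ⟨⟨pv q, pv_extreme q⟩, ⟨pv r, pv_extreme r⟩, rfl, rfl,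
        P_edge q r h'⟩)⟩
      have h1 : pv q = pv r := congrArg Subtype.val (Sum.inl.inj h3)
      rw [pv_injective h1]
  · constructor
    · rintro ⟨hne, h⟩
      rcases h with (⟨u, v, hu, hv, h⟩ | ⟨u, F, hu, hF, h⟩) | (⟨u, v, hu, hv, h⟩ | ⟨u, F, hu, hF, h⟩)
      · exact absurd hv (by simp [f1])
      · have h1 := Sum.inl.inj hu
        have h2 := Sum.inr.inj hF
        subst h1
        subst h2
        exact (pv_mem_FF b'.1 b'.2 q).mp h
      · exact absurd hu (by simp [f1])
      · exact absurd hu (by simp [f1])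
    · intro h
      exact ⟨by simp [f1], Or.inl (Or.inr ⟨⟨pv q, pv_extreme q⟩,
        ⟨FF b'.1, FF_exposed b'.1 b'.2, FF_finrank b'.1 b'.2⟩, rfl, rfl,
        (pv_mem_FF b'.1 b'.2 q).mpr h⟩)⟩
  · constructor
    · rintro ⟨hne, h⟩
      rcases h with (⟨u, v, hu, hv, h⟩ | ⟨u, F, hu, hF, h⟩) | (⟨u, v, hu, hv, h⟩ | ⟨u, F, hu, hF, h⟩)
      · exact absurd hu (by simp [f1])
      · exact absurd hu (by simp [f1])
      · exact absurd hv (by simp [f1])
      · have h1 := Sum.inl.inj hu
        have h2 := Sum.inr.inj hF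
        subst h1
        subst h2
        exact (pv_mem_FF b.1 b.2 r).mp h
    · intro h
      exact ⟨by simp [f1], Or.inr (Or.inr ⟨⟨pv r, pv_extreme r⟩,
        ⟨FF b.1, FF_exposed b.1 b.2, FF_finrank b.1 b.2⟩, rfl, rfl,
        (pv_mem_FF b.1 b.2 r).mpr h⟩)⟩
  · constructor
    · rintro ⟨hne, h⟩
      rcases h with (⟨u, v, hu, hv, h⟩ | ⟨u, F, hu, hF, h⟩) | (⟨u, v, hu, hv, h⟩ | ⟨u, F, hu, hF, h⟩)
      · exact absurd hu (by simp [f1])
      · exact absurd hu (by simp [f1])
      · exact absurd hu (by simp [f1])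
      · exact absurd hu (by simp [f1])
    · intro h
      exact absurd h (by simp [adj])

theorem Q_adj' (x y : Idx) :
    (SimpleGraph.fromRel
      (fun x y : ↥(Set.extremePoints ℝ (convexHull ℝ (QQ : Set (EuclideanSpace ℝ (Fin 6))))) =>
        IsExtreme ℝ (convexHull ℝ (QQ : Set (EuclideanSpace ℝ (Fin 6))))
          (segment ℝ (x : EuclideanSpace ℝ (Fin 6)) (y : EuclideanSpace ℝ (Fin 6))))).Adj
      (f2 x) (f2 y) ↔ adj x y := by
  rw [SimpleGraph.fromRel_adj, ← Q_adj x y]
  constructor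
  · rintro ⟨h1, h2⟩
    exact ⟨fun h => h1 (by rw [h]), h2⟩
  · rintro ⟨h1, h2⟩
    exact ⟨fun h => h1 (f2_bijective.1 h), h2⟩

/-- The negation of the preceding statement: For every 5-polytope P, if the graph of its Kleetope (P's graph plus one new vertex per facet joined to that facet's vertices) is isomorphic to the graph of some d'-dimensional polytope, then d' = 5. -/
theorem result :
    ¬ (∀ P : Finset (EuclideanSpace ℝ (Fin 5)),
      affineSpan ℝ (P : Set (EuclideanSpace ℝ (Fin 5))) = ⊤ →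
      ∀ d' : ℕ, ∀ Q : Finset (EuclideanSpace ℝ (Fin d')),
        affineSpan ℝ (Q : Set (EuclideanSpace ℝ (Fin d'))) = ⊤ →
        Nonempty
          (SimpleGraph.fromRel
              (fun a b :
                  (↥(Set.extremePoints ℝ (convexHull ℝ (P : Set (EuclideanSpace ℝ (Fin 5))))))
                    ⊕ {F : Set (EuclideanSpace ℝ (Fin 5)) //
                        IsExposed ℝ (convexHull ℝ (P : Set (EuclideanSpace ℝ (Fin 5)))) F ∧
                          Module.finrank ℝ (vectorSpan ℝ F) = 4} =>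
                (∃ u v, a = Sum.inl u ∧ b = Sum.inl v ∧
                    IsExtreme ℝ (convexHull ℝ (P : Set (EuclideanSpace ℝ (Fin 5))))
                      (segment ℝ (u : EuclideanSpace ℝ (Fin 5)) (v : EuclideanSpace ℝ (Fin 5)))) ∨
                (∃ u F, a = Sum.inl u ∧ b = Sum.inr F ∧
                    (u : EuclideanSpace ℝ (Fin 5)) ∈ F.1))
            ≃g SimpleGraph.fromRel
              (fun x y :
                  ↥(Set.extremePoints ℝ (convexHull ℝ (Q : Set (EuclideanSpace ℝ (Fin d'))))) =>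
                IsExtreme ℝ (convexHull ℝ (Q : Set (EuclideanSpace ℝ (Fin d'))))
                  (segment ℝ (x : EuclideanSpace ℝ (Fin d')) (y : EuclideanSpace ℝ (Fin d'))))) →
        d' = 5) := by
  intro H
  have h := H PP affineSpan_PP 6 QQ affineSpan_QQ
    ⟨{ toEquiv := (Equiv.ofBijective f1 f1_bijective).symm.trans (Equiv.ofBijective f2 f2_bijective)
       map_rel_iff' := by
        intro a b
        obtain ⟨x, rfl⟩ := f1_bijective.2 a
        obtain ⟨y, rfl⟩ := f1_bijective.2 b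
        have e1 : ∀ z, ((Equiv.ofBijective f1 f1_bijective).symm.trans
            (Equiv.ofBijective f2 f2_bijective)) (f1 z) = f2 z := by
          intro z
          rw [Equiv.trans_apply, Equiv.ofBijective_symm_apply_apply]
          rfl
        rw [e1, e1, P_adj, Q_adj'] }⟩
  norm_num at h

end Pool.Agent.S11334
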