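import Pool.Statements.S12765
import Pool.Agent.helper76.KAnalytic

set_option autoImplicit false
open Pool Pool.MP_1117a1_gt

namespace Pool.Agent.S12765

open Set Topology Pool.Agent.helper76.KA

/-- Continuous functions separate the points of `T`. -/
def FSep (T : Type) [TopologicalSpace T] : Prop :=
  ∀ x y : T, x ≠ y → ∃ f : Cp T, f.1 x ≠ f.1 y

theorem FSep.comap {T T' : Type} [TopologicalSpace T] [TopologicalSpace T'] (h : FSep T)
    {g : T' → T} (hg : Continuous g) (hi : Function.Injective g) : FSep T' := by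
  intro x y hxy
  obtain ⟨f, hf⟩ := h (g x) (g y) fun e => hxy (hi e)
  exact ⟨precomp g hg f, hf⟩

theorem fSep_cp (T : Type) [TopologicalSpace T] : FSep (Cp T) := by
  intro f g hne
  have hex : ∃ x : T, f.1 x ≠ g.1 x := by
    by_contra h
    push Not at h
    exact hne (Subtype.ext (funext h))
  obtain ⟨x, hx⟩ := hex
  exact ⟨⟨fun f => f.1 x, continuous_eval x⟩, hx⟩

theorem fSep_compact (T : Type) [TopologicalSpace T] [CompactSpace T] [T2Space T] : FSep T := by
  intro x y hxy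
  obtain ⟨f, hf0, hf1, _⟩ := exists_continuous_zero_one_of_isClosed
    (isClosed_singleton (x := x)) (isClosed_singleton (x := y)) (by simpa using hxy)
  refine ⟨⟨f, f.continuous⟩, ?_⟩
  show f x ≠ f y
  rw [hf0 rfl, hf1 rfl]
  simp

/-- The canonical injection into the double function space. -/
theorem exists_inj {T : Type} [TopologicalSpace T] (h : FSep T) :
    ∃ e : T → Cp (Cp T), Continuous e ∧ Function.Injective e := by
  refine ⟨fun x => ⟨fun f => f.1 x, continuous_eval x⟩, ?_, ?_⟩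
  · refine Continuous.subtype_mk ?_ _
    exact continuous_pi fun f => f.2
  · intro x y hxy
    by_contra hne
    obtain ⟨f, hf⟩ := h x y hne
    exact hf (congrFun (congrArg Subtype.val hxy) f)

/-- Functoriality: a homeomorphism of spaces gives one of the function spaces. -/
def cpCongr {T T' : Type} [TopologicalSpace T] [TopologicalSpace T'] (e : T ≃ₜ T') :
    Cp T ≃ₜ Cp T' where
  toFun := precomp e.symm e.symm.continuous
  invFun := precomp e e.continuous
  left_inv f := Subtype.ext (by funext x; simp [precomp])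
  right_inv f := Subtype.ext (by funext x; simp [precomp])
  continuous_toFun := continuous_precomp _ _
  continuous_invFun := continuous_precomp _ _

theorem sep_even {A : ℕ → Type} [∀ k, TopologicalSpace (A k)]
    (hA : ∀ k, Nonempty (A (k + 1) ≃ₜ Cp (A k))) (h0 : Sep (A 0)) (k : ℕ) : Sep (A (2 * k)) := by
  induction k with
  | zero => exact h0
  | succ k ih =>
    obtain ⟨e1⟩ := hA (2 * k)
    obtain ⟨e2⟩ := hA (2 * k + 1)
    have e3 : A (2 * k + 1 + 1) ≃ₜ Cp (Cp (A (2 * k))) := e2.trans (cpCongr e1)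
    exact ih.double.comap e3.continuous e3.injective

theorem inj_even {B : ℕ → Type} [∀ k, TopologicalSpace (B k)]
    (hB : ∀ k, Nonempty (B (k + 1) ≃ₜ Cp (B k))) (h0 : FSep (B 0)) (k : ℕ) :
    FSep (B (2 * k)) ∧ ∃ e : B 0 → B (2 * k), Continuous e ∧ Function.Injective e := by
  induction k with
  | zero => exact ⟨h0, id, continuous_id, Function.injective_id⟩
  | succ k ih =>
    obtain ⟨e1⟩ := hB (2 * k)
    obtain ⟨e2⟩ := hB (2 * k + 1)
    have e3 : B (2 * k + 1 + 1) ≃ₜ Cp (Cp (B (2 * k))) := e2.trans (cpCongr e1)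
    refine ⟨(fSep_cp _).comap e3.continuous e3.injective, ?_⟩
    obtain ⟨hF, e, he, hi⟩ := ih
    obtain ⟨j, hj, hji⟩ := exists_inj hF
    exact ⟨e3.symm ∘ j ∘ e, e3.symm.continuous.comp (hj.comp he),
      e3.symm.injective.comp (hji.comp hi)⟩

theorem even_level {A B : ℕ → Type} [∀ k, TopologicalSpace (A k)] [∀ k, TopologicalSpace (B k)]
    (hA : ∀ k, Nonempty (A (k + 1) ≃ₜ Cp (A k))) (hB : ∀ k, Nonempty (B (k + 1) ≃ₜ Cp (B k)))
    (n : ℕ) (h : Nonempty (A n ≃ₜ B n)) : ∃ k, Nonempty (A (2 * k) ≃ₜ B (2 * k)) := by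
  rcases Nat.even_or_odd' n with ⟨k, rfl | rfl⟩
  · exact ⟨k, h⟩
  · obtain ⟨e⟩ := h
    obtain ⟨eA⟩ := hA (2 * k + 1)
    obtain ⟨eB⟩ := hB (2 * k + 1)
    exact ⟨k + 1, ⟨eA.trans ((cpCongr e).trans eB.symm)⟩⟩

theorem one_direction {X Y : Type} [TopologicalSpace X] [TopologicalSpace Y] [CompactSpace X]
    [T2Space X] [CompactSpace Y] [T2Space Y]
    (n : ℕ) (A B : ℕ → Type) [∀ k, TopologicalSpace (A k)] [∀ k, TopologicalSpace (B k)]
    (hA0 : Nonempty (A 0 ≃ₜ X)) (hA : ∀ k, Nonempty (A (k + 1) ≃ₜ Cp (A k)))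
    (hB0 : Nonempty (B 0 ≃ₜ Y)) (hB : ∀ k, Nonempty (B (k + 1) ≃ₜ Cp (B k)))
    (h : Nonempty (A n ≃ₜ B n)) (hX : KAn (univ : Set (Cp X))) : KAn (univ : Set (Cp Y)) := by
  obtain ⟨k, ⟨e⟩⟩ := even_level hA hB n h
  obtain ⟨eX⟩ := hA0
  obtain ⟨eY⟩ := hB0
  have hSX : Sep X := by
    refine ⟨univ, hX, fun x y hxy => ?_⟩
    obtain ⟨f, hf⟩ := fSep_compact X x y hxy
    exact ⟨f, mem_univ f, hf⟩
  have hS0 : Sep (A 0) := hSX.comap eX.continuous eX.injective
  have hSk : Sep (B (2 * k)) := (sep_even hA hS0 k).comap e.symm.continuous e.symm.injective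
  have hF0 : FSep (B 0) := (fSep_compact Y).comap eY.continuous eY.injective
  obtain ⟨_, i, hi, hinj⟩ := inj_even hB hF0 k
  have hSB0 : Sep (B 0) := hSk.comap hi hinj
  have hSY : Sep Y := hSB0.comap eY.symm.continuous eY.symm.injective
  exact hSY.kAn

theorem kAn_univ_iff (Z : Type) [TopologicalSpace Z] : KAn (univ : Set Z) ↔
    ∃ F : (ℕ → ℕ) → Set Z, (∀ s, IsCompact (F s)) ∧ (∀ z, ∃ s, z ∈ F s) ∧
      ∀ U : Set Z, IsOpen U → IsOpen {s | F s ⊆ U} := by
  unfold KAn
  refine exists_congr fun F => and_congr_right fun _ => and_congr_left fun _ => ?_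
  rw [eq_univ_iff_forall]
  exact forall_congr' fun z => mem_iUnion

/-- For compact Hausdorff X, Y: if the n-th iterated pointwise function spaces C_{p,n}(X) and C_{p,n}(Y) are homeomorphic, then C_p(X) is K-analytic (compact-valued usco cover from Baire space) iff C_p(Y) is. -/
theorem result :
    ∀ (X Y : Type) [TopologicalSpace X] [TopologicalSpace Y],
      CompactSpace X → T2Space X → CompactSpace Y → T2Space Y →
      ∀ (n : ℕ) (A B : ℕ → Type) [∀ k, TopologicalSpace (A k)] [∀ k, TopologicalSpace (B k)],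
        Nonempty (A 0 ≃ₜ X) →
        (∀ k, Nonempty (A (k + 1) ≃ₜ {f : A k → ℝ // Continuous f})) →
        Nonempty (B 0 ≃ₜ Y) →
        (∀ k, Nonempty (B (k + 1) ≃ₜ {f : B k → ℝ // Continuous f})) →
        Nonempty (A n ≃ₜ B n) →
        ((∃ F : (ℕ → ℕ) → Set {f : X → ℝ // Continuous f},
            (∀ s, IsCompact (F s)) ∧ (∀ z, ∃ s, z ∈ F s) ∧
            ∀ U : Set {f : X → ℝ // Continuous f}, IsOpen U → IsOpen {s | F s ⊆ U}) ↔
         (∃ F : (ℕ → ℕ) → Set {f : Y → ℝ // Continuous f},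
            (∀ s, IsCompact (F s)) ∧ (∀ z, ∃ s, z ∈ F s) ∧
            ∀ U : Set {f : Y → ℝ // Continuous f}, IsOpen U → IsOpen {s | F s ⊆ U})) := by
  intro X Y _ _ hXc hX2 hYc hY2 n A B _ _ hA0 hA hB0 hB h
  have h' : Nonempty (B n ≃ₜ A n) := h.map Homeomorph.symm
  have k1 := one_direction (X := X) (Y := Y) n A B hA0 hA hB0 hB h
  have k2 := one_direction (X := Y) (Y := X) n B A hB0 hB hA0 hA h'
  exact (kAn_univ_iff (Cp X)).symm.trans (Iff.trans ⟨k1, k2⟩ (kAn_univ_iff (Cp Y)))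

end Pool.Agent.S12765
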