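import Pool.Statements.S13398
import Pool.Agent.XR.MAIN

set_option autoImplicit false
open MeasureTheory
open scoped ENNReal
open Pool Pool.MP_7519fe_gt

namespace Pool.Agent.S13398

/-- the directions which the rule `D` chooses for the set `P` -/
noncomputable def dseq (D : ℕ → (ℕ → EuclideanSpace ℝ (Fin 2) → ℝ≥0∞) → EuclideanSpace ℝ (Fin 2))
    (P : Set (EuclideanSpace ℝ (Fin 2))) (j : ℕ) : EuclideanSpace ℝ (Fin 2) :=
  D j (fun i x => if _h : i < j then volume {t : ℝ | x + t • dseq D P i ∈ P} else 0)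
termination_by j
decreasing_by exact _h

/-- The negation of the preceding statement: There is m and an adaptive rule choosing m unit directions, each from the earlier X-rays, such that any two star-shaped polygons giving the same X-rays along their chosen directions are equal. -/
theorem result :
    ¬ (∃ m : ℕ, ∃ D : ℕ → (ℕ → EuclideanSpace ℝ (Fin 2) → ℝ≥0∞) → EuclideanSpace ℝ (Fin 2),
      (∀ j f, ‖D j f‖ = 1) ∧
      (∀ j f g, (∀ i < j, f i = g i) → D j f = D j g) ∧
      ∀ P P' : Set (EuclideanSpace ℝ (Fin 2)),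
        ((∃ n : ℕ, ∃ v : ℕ → EuclideanSpace ℝ (Fin 2), 3 ≤ n ∧ (∀ i, v (i + n) = v i) ∧
            (∀ i < n, ∀ j < n, i ≠ j → v i ≠ v j) ∧
            (∀ i < n, ∀ j < n, i ≠ j →
              segment ℝ (v i) (v (i + 1)) ∩ segment ℝ (v j) (v (j + 1)) ⊆
                ({v i, v (i + 1)} : Set (EuclideanSpace ℝ (Fin 2))) ∩ {v j, v (j + 1)}) ∧
            frontier P = ⋃ i ∈ Finset.range n, segment ℝ (v i) (v (i + 1))) ∧
          IsCompact P ∧ (interior P).Nonempty ∧ ∃ p ∈ P, StarConvex ℝ p P) →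
        ((∃ n : ℕ, ∃ v : ℕ → EuclideanSpace ℝ (Fin 2), 3 ≤ n ∧ (∀ i, v (i + n) = v i) ∧
            (∀ i < n, ∀ j < n, i ≠ j → v i ≠ v j) ∧
            (∀ i < n, ∀ j < n, i ≠ j →
              segment ℝ (v i) (v (i + 1)) ∩ segment ℝ (v j) (v (j + 1)) ⊆
                ({v i, v (i + 1)} : Set (EuclideanSpace ℝ (Fin 2))) ∩ {v j, v (j + 1)}) ∧
            frontier P' = ⋃ i ∈ Finset.range n, segment ℝ (v i) (v (i + 1))) ∧
          IsCompact P' ∧ (interior P').Nonempty ∧ ∃ p ∈ P', StarConvex ℝ p P') →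
        ∀ d d' : ℕ → EuclideanSpace ℝ (Fin 2),
          (∀ j < m, d j = D j (fun i x => volume {t : ℝ | x + t • d i ∈ P})) →
          (∀ j < m, d' j = D j (fun i x => volume {t : ℝ | x + t • d' i ∈ P'})) →
          (∀ j < m, ∀ x : EuclideanSpace ℝ (Fin 2),
            volume {t : ℝ | x + t • d j ∈ P} = volume {t : ℝ | x + t • d' j ∈ P'}) →
          P = P') := by
  rintro ⟨m, D, hD1, hD2, hD3⟩
  obtain ⟨P, hP, hP2⟩ := Pool.Agent.XR.exists_polygon m
  have hd : ∀ j, dseq D P j = D j (fun i x => volume {t : ℝ | x + t • dseq D P i ∈ P}) := by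
    intro j
    rw [dseq]
    apply hD2
    intro i hi
    funext x
    rw [dif_pos hi]
  obtain ⟨P', hP', hne, hx⟩ := hP2 (fun j => dseq D P j) (fun j => by
    show ‖dseq D P j‖ = 1
    rw [hd]
    exact hD1 _ _)
  apply hne
  symm
  refine hD3 P P' hP hP' (dseq D P) (dseq D P) (fun j _ => hd j) ?_ ?_
  · intro j hj
    rw [hd j]
    apply hD2
    intro i hi
    funext x
    exact (hx ⟨i, hi.trans hj⟩ x).symm
  · intro j hj x
    exact (hx ⟨j, hj⟩ x).symm

end Pool.Agent.S13398
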