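-- Proof of frozen statement S13589 (problem MP_93ef73_gt).
import Pool.Statements.S13589
import Pool.Agent.H80.Local

set_option autoImplicit false
open Pool Pool.MP_93ef73_gt

namespace Pool.Agent.S13589

/-- There exist d, a nonempty compact totally disconnected A in R^d with two distinct Steiner trees S, T, no terminal interior to segments in both, and nonempty compact M (∣M∣=∣A∣ if A finite) and r>0 with S an r-minimizer for M. -/
theorem result :
  ∃ (d : ℕ) (A S T M : Set (EuclideanSpace ℝ (Fin d))) (r : ℝ),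
    IsCompact A ∧ A.Nonempty ∧ IsTotallyDisconnected A ∧
    (IsCompact S ∧ IsConnected S ∧ A ⊆ S ∧
      MeasureTheory.Measure.hausdorffMeasure 1 S < ⊤ ∧
      ∀ S' : Set (EuclideanSpace ℝ (Fin d)), IsCompact S' → IsConnected S' → A ⊆ S' →
        MeasureTheory.Measure.hausdorffMeasure 1 S ≤ MeasureTheory.Measure.hausdorffMeasure 1 S') ∧
    (IsCompact T ∧ IsConnected T ∧ A ⊆ T ∧
      MeasureTheory.Measure.hausdorffMeasure 1 T < ⊤ ∧
      ∀ S' : Set (EuclideanSpace ℝ (Fin d)), IsCompact S' → IsConnected S' → A ⊆ S' →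
        MeasureTheory.Measure.hausdorffMeasure 1 T ≤ MeasureTheory.Measure.hausdorffMeasure 1 S') ∧
    S ≠ T ∧
    IsCompact M ∧ M.Nonempty ∧ 0 < r ∧
    (A.Finite → M.Finite ∧ M.ncard = A.ncard) ∧
    (¬ ∃ a ∈ A,
        (∃ x y : EuclideanSpace ℝ (Fin d), x ≠ y ∧ segment ℝ x y ⊆ S ∧ a ∈ openSegment ℝ x y) ∧
        (∃ x y : EuclideanSpace ℝ (Fin d), x ≠ y ∧ segment ℝ x y ⊆ T ∧ a ∈ openSegment ℝ x y)) ∧
    (∀ y ∈ M, Metric.infDist y S ≤ r) ∧
    ∀ W : Set (EuclideanSpace ℝ (Fin d)), IsCompact W → IsConnected W →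
      (∀ y ∈ M, Metric.infDist y W ≤ r) →
        MeasureTheory.Measure.hausdorffMeasure 1 S ≤ MeasureTheory.Measure.hausdorffMeasure 1 W := by
  -- every continuum through the terminals is close to all ball centres
  have hclose : ∀ W : Set H80.E2, Set.range H80.pt ⊆ W → ∀ p,
      Metric.infDist (H80.ctr (1 / 100) p) W ≤ 1 / 100 := by
    intro W hW p
    refine (Metric.infDist_le_dist_of_mem (hW ⟨p, rfl⟩)).trans ?_
    rw [H80.dist_ctr_pt (1 / 100) (by norm_num) p]
  have hsub : ∀ j, Set.range H80.pt ⊆ H80.Tr j := by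
    rintro j _ ⟨p, rfl⟩
    exact H80.pt_mem_Tr j p
  have hsteiner : ∀ j : Fin 5, H80.ax j = 1 / 2 →
      (IsCompact (H80.Tr j) ∧ IsConnected (H80.Tr j) ∧ Set.range H80.pt ⊆ H80.Tr j ∧
      MeasureTheory.Measure.hausdorffMeasure 1 (H80.Tr j) < ⊤ ∧
      ∀ S' : Set H80.E2, IsCompact S' → IsConnected S' → Set.range H80.pt ⊆ S' →
        MeasureTheory.Measure.hausdorffMeasure 1 (H80.Tr j) ≤
          MeasureTheory.Measure.hausdorffMeasure 1 S') := by
    intro j hj
    refine ⟨H80.isCompact_Tr j, H80.isConnected_Tr j, hsub j,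
      (H80.measure_Tr_le j hj).trans_lt ENNReal.ofReal_lt_top, fun S' h1 h2 h3 => ?_⟩
    exact (H80.measure_Tr_le j hj).trans 
      (H80.lower_bound (1 / 100) (by norm_num) le_rfl S' h1 h2 (hclose S' h3))
  refine ⟨2, Set.range H80.pt, H80.Tr 1, H80.Tr 3, Set.range (H80.ctr (1 / 100)), 1 / 100,
    (Set.finite_range _).isCompact, Set.range_nonempty _,
    (Set.finite_range _).countable.isTotallyDisconnected, hsteiner 1 H80.a1, hsteiner 3 H80.a3,
    H80.Tr_ne, (Set.finite_range _).isCompact, Set.range_nonempty _, by norm_num, ?_, ?_, ?_, ?_⟩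
  · intro _
    refine ⟨Set.finite_range _, ?_⟩
    rw [Set.ncard_range_of_injective (H80.ctr_inj (1 / 100) (by norm_num) le_rfl),
      Set.ncard_range_of_injective H80.pt_inj]
  · rintro ⟨_, ⟨p, rfl⟩, h1, _⟩
    exact H80.not_inSeg_Tr 1 (Or.inl rfl) p h1
  · rintro _ ⟨p, rfl⟩
    exact hclose _ (hsub 1) p
  · intro W h1 h2 h3
    exact (H80.measure_Tr_le 1 H80.a1).trans
      (H80.lower_bound (1 / 100) (by norm_num) le_rfl W h1 h2 (fun p => h3 _ ⟨p, rfl⟩))

end Pool.Agent.S13589
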