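import Pool.Statements.S13625

set_option autoImplicit false
open Pool Pool.MP_98c8dd_gt

namespace Pool.Agent.S13625

section helpers

open Set Filter Topology

section basics

variable {X : Type} [TopologicalSpace X] [T2Space X]

/-- In a compact Hausdorff space a closed set missing a component is separated from it by a clopen set. -/
lemma clopen_sep {Y : Type} [TopologicalSpace Y] [CompactSpace Y] [T2Space Y] (x : Y) (B : Set Y)
    (hB : IsClosed B) (h : connectedComponent x ∩ B = ∅) :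
    ∃ V : Set Y, IsClopen V ∧ x ∈ V ∧ V ∩ B = ∅ := by
  rw [connectedComponent_eq_iInter_isClopen x, inter_comm] at h
  obtain ⟨t, ht⟩ := hB.isCompact.elim_finite_subfamily_closed
    (fun s : { s : Set Y // IsClopen s ∧ x ∈ s } => (s : Set Y)) (fun s => s.2.1.1) h
  refine ⟨⋂ U ∈ t, Subtype.val U, isClopen_biInter_finset fun s _ => s.2.1,
    mem_iInter₂.2 fun s _ => s.2.2, ?_⟩
  rw [inter_comm]; exact ht

/-- Boundary bumping. -/
lemma bump {K E : Set X} (hK : IsCompact K) (hKc : IsPreconnected K) (hE : IsClosed E) {x : X}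
    (hx : x ∈ K) (hxE : x ∈ E) (hKE : ¬ K ⊆ E) :
    ∃ L : Set X, IsCompact L ∧ IsConnected L ∧ x ∈ L ∧ L ⊆ K ∩ E ∧
      (L ∩ closure (K \ E)).Nonempty := by
  have hY : IsCompact (K ∩ E) := hK.inter_right hE
  have hxY : x ∈ K ∩ E := ⟨hx, hxE⟩
  set Y := K ∩ E with hYdef
  have : CompactSpace Y := isCompact_iff_compactSpace.1 hY
  let x' : Y := ⟨x, hxY⟩
  refine ⟨Subtype.val '' (connectedComponent x'), ?_, ?_, ⟨x', mem_connectedComponent, rfl⟩, ?_, ?_⟩
  · exact (isClosed_connectedComponent.isCompact).image continuous_subtype_val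
  · exact isConnected_connectedComponent.image _ continuous_subtype_val.continuousOn
  · rintro _ ⟨y, -, rfl⟩; exact y.2
  · by_contra hne
    rw [not_nonempty_iff_eq_empty] at hne
    have h1 : connectedComponent x' ∩ (Subtype.val ⁻¹' (closure (K \ E))) = ∅ := by
      rw [eq_empty_iff_forall_notMem]
      rintro y ⟨hy1, hy2⟩
      have : (y : X) ∈ Subtype.val '' (connectedComponent x') ∩ closure (K \ E) :=
        ⟨⟨y, hy1, rfl⟩, hy2⟩
      rw [hne] at this
      exact this
    obtain ⟨V, hV, hxV, hVB⟩ := clopen_sep x' _ (isClosed_closure.preimage continuous_subtype_val) h1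
    have hV1 : IsClosed (Subtype.val '' V) := (hV.1.isCompact.image continuous_subtype_val).isClosed
    have hV2 : IsClosed (Subtype.val '' Vᶜ) :=
      (hV.compl.1.isCompact.image continuous_subtype_val).isClosed
    have := isPreconnected_closed_iff.1 hKc (Subtype.val '' V) (Subtype.val '' Vᶜ ∪ closure (K \ E))
      hV1 (hV2.union isClosed_closure) ?_ ⟨x, hx, ⟨x', hxV, rfl⟩⟩ ?_
    · obtain ⟨z, hzK, ⟨y, hyV, rfl⟩, hz⟩ := this
      rcases hz with ⟨y', hy', hyy'⟩ | hz
      · have : y' = y := Subtype.ext hyy'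
        exact hy' (this ▸ hyV)
      · have : y ∈ V ∩ (Subtype.val ⁻¹' (closure (K \ E))) := ⟨hyV, hz⟩
        rw [hVB] at this
        exact this
    · intro z hz
      by_cases hzE : z ∈ E
      · by_cases hzV : (⟨z, ⟨hz, hzE⟩⟩ : Y) ∈ V
        · left; exact ⟨_, hzV, rfl⟩
        · right; left; exact ⟨_, hzV, rfl⟩
      · right; right; exact subset_closure ⟨hz, hzE⟩
    · rw [not_subset] at hKE
      obtain ⟨z, hz, hzE⟩ := hKE
      exact ⟨z, hz, Or.inr (subset_closure ⟨hz, hzE⟩)⟩

end basics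

section normal

variable {X : Type} [TopologicalSpace X] [T2Space X] [CompactSpace X]

/-- Sierpinski's theorem for countable closed partitions of a continuum. -/
lemma sierpinski {K : Set X} {F : ℕ → Set X} (hK : IsCompact K) (hKc : IsConnected K)
    (hF : ∀ n, IsClosed (F n)) (hd : ∀ i j, i ≠ j → Disjoint (F i) (F j))
    (hcov : K ⊆ ⋃ n, F n) : ∃ n, K ⊆ F n := by
  by_contra hcon
  push Not at hcon
  -- bad continua
  let Bad : Set X → Prop := fun L => IsCompact L ∧ IsConnected L ∧ L ⊆ (⋃ n, F n) ∧ ∀ n, ¬ L ⊆ F n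
  have step : ∀ (n : ℕ) (L : Set X), Bad L → ∃ L' ⊆ L, Bad L' ∧ L' ∩ F n = ∅ := by
    intro n L hL
    obtain ⟨hLc, hLconn, hLF, hLn⟩ := hL
    by_cases hLe : L ∩ F n = ∅
    · exact ⟨L, Subset.rfl, ⟨hLc, hLconn, hLF, hLn⟩, hLe⟩
    obtain ⟨x, hxL, hxn⟩ := not_subset.1 (hLn n)
    obtain ⟨m, hxm⟩ := mem_iUnion.1 (hLF hxL)
    have hmn : m ≠ n := by rintro rfl; exact hxn hxm
    obtain ⟨u, v, hu, hv, hmu, hnv, huv⟩ := normal_separation (hF m) (hF n) (hd m n hmn)
    have hcl : closure u ∩ F n = ∅ := by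
      have : closure u ∩ v = ∅ := by
        rw [← disjoint_iff_inter_eq_empty]
        exact (huv.closure_left hv)
      rw [eq_empty_iff_forall_notMem] at this ⊢
      exact fun z hz => this z ⟨hz.1, hnv hz.2⟩
    have hLE : ¬ L ⊆ closure u := by
      intro h
      apply hLe
      rw [eq_empty_iff_forall_notMem] at hcl ⊢
      exact fun z hz => hcl z ⟨h hz.1, hz.2⟩
    obtain ⟨M, hMc, hMconn, hxM, hMsub, z, hzM, hzcl⟩ :=
      bump hLc hLconn.isPreconnected isClosed_closure hxL (subset_closure (hmu hxm)) hLE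
    refine ⟨M, fun y hy => (hMsub hy).1, ⟨hMc, hMconn, fun y hy => hLF (hMsub hy).1, ?_⟩, ?_⟩
    · intro j hj
      by_cases hjm : j = m
      · subst hjm
        have hzu : z ∈ u := hmu (hj hzM)
        have : closure (L \ closure u) ∩ u = ∅ := by
          rw [← disjoint_iff_inter_eq_empty]
          apply Disjoint.closure_left _ hu
          rw [disjoint_left]
          intro y hy hyu
          exact hy.2 (subset_closure hyu)
        rw [eq_empty_iff_forall_notMem] at this
        exact this z ⟨hzcl, hzu⟩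
      · exact disjoint_left.1 (hd j m hjm) (hj hxM) hxm
    · rw [eq_empty_iff_forall_notMem] at hcl ⊢
      exact fun y hy => hcl y ⟨(hMsub hy.1).2, hy.2⟩
  choose! g hg1 hg2 hg3 using step
  let T : ℕ → Set X := fun n => Nat.rec K (fun n L => g n L) n
  have hT : ∀ n, Bad (T n) := by
    intro n
    induction n with
    | zero => exact ⟨hK, hKc, hcov, hcon⟩
    | succ n ih => exact hg2 n (T n) ih
  have hTsub : ∀ n, T (n + 1) ⊆ T n := fun n => hg1 n (T n) (hT n)
  have hne := IsCompact.nonempty_iInter_of_sequence_nonempty_isCompact_isClosed T hTsub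
    (fun n => (hT n).2.1.nonempty) (hT 0).1 (fun n => (hT n).1.isClosed)
  obtain ⟨y, hy⟩ := hne
  rw [mem_iInter] at hy
  obtain ⟨m, hm⟩ := mem_iUnion.1 ((hT 0).2.2.1 (hy 0))
  have := hg3 m (T m) (hT m)
  rw [eq_empty_iff_forall_notMem] at this
  exact this y ⟨hy (m + 1), hm⟩

/-- Intersections of chains of continua are continua. -/
lemma chain_inter {c : Set (Set X)} (hc : IsChain (· ⊆ ·) c) (hne : c.Nonempty)
    (h : ∀ K ∈ c, IsCompact K ∧ IsConnected K) : IsCompact (⋂₀ c) ∧ IsPreconnected (⋂₀ c) := by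
  have hcl : IsClosed (⋂₀ c) := isClosed_sInter fun K hK => (h K hK).1.isClosed
  refine ⟨hcl.isCompact, ?_⟩
  rw [isPreconnected_iff_subset_of_fully_disjoint_closed hcl]
  intro a b ha hb hab habd
  obtain ⟨u, v, hu, hv, hau, hbv, huv⟩ := normal_separation ha hb habd
  -- some member of c lies in u ∪ v
  have : ∃ K ∈ c, K ⊆ u ∪ v := by
    by_contra hcon
    push Not at hcon
    have hdir : DirectedOn (· ⊇ ·) ((fun K => K ∩ (u ∪ v)ᶜ) '' c) := by
      rintro _ ⟨K, hK, rfl⟩ _ ⟨L, hL, rfl⟩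
      rcases hc.total hK hL with hKL | hLK
      · exact ⟨_, ⟨K, hK, rfl⟩, Subset.rfl, inter_subset_inter_left _ hKL⟩
      · exact ⟨_, ⟨L, hL, rfl⟩, inter_subset_inter_left _ hLK, Subset.rfl⟩
    have hn := IsCompact.nonempty_sInter_of_directed_nonempty_isCompact_isClosed
      (S := (fun K => K ∩ (u ∪ v)ᶜ) '' c) (hS := (hne.image _).to_subtype) hdir ?_ ?_ ?_
    · obtain ⟨y, hy⟩ := hn
      obtain ⟨K0, hK0⟩ := hne
      have hy1 : y ∈ ⋂₀ c := by
        intro K hK
        exact (hy _ ⟨K, hK, rfl⟩).1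
      have hy2 : y ∈ (u ∪ v)ᶜ := (hy _ ⟨K0, hK0, rfl⟩).2
      exact hy2 (union_subset_union hau hbv (hab hy1))
    · rintro _ ⟨K, hK, rfl⟩
      obtain ⟨z, hz, hz2⟩ := not_subset.1 (hcon K hK)
      exact ⟨z, hz, hz2⟩
    · rintro _ ⟨K, hK, rfl⟩
      exact (h K hK).1.inter_right (hu.union hv).isClosed_compl
    · rintro _ ⟨K, hK, rfl⟩
      exact (h K hK).1.isClosed.inter (hu.union hv).isClosed_compl
  obtain ⟨K, hK, hKuv⟩ := this
  rcases (h K hK).2.isPreconnected.subset_or_subset hu hv huv hKuv with h1 | h1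
  · left
    intro z hz
    rcases hab hz with h2 | h2
    · exact h2
    · exact absurd (hbv h2) (disjoint_left.1 huv (h1 (hz K hK)))
  · right
    intro z hz
    rcases hab hz with h2 | h2
    · exact absurd (h1 (hz K hK)) (disjoint_left.1 huv (hau h2))
    · exact h2

/-- Existence of minimal continua meeting two given closed sets. -/
lemma exists_minimal {Y A B : Set X} (hY : IsCompact Y) (hYc : IsConnected Y)
    (hA : IsClosed A) (hB : IsClosed B) (hYA : (Y ∩ A).Nonempty) (hYB : (Y ∩ B).Nonempty) :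
    ∃ J ⊆ Y, IsCompact J ∧ IsConnected J ∧ (J ∩ A).Nonempty ∧ (J ∩ B).Nonempty ∧
      ∀ L ⊆ J, IsCompact L → IsConnected L → (L ∩ A).Nonempty → (L ∩ B).Nonempty → L = J := by
  let S : Set (Set X) := {J | IsCompact J ∧ IsConnected J ∧ (J ∩ A).Nonempty ∧ (J ∩ B).Nonempty}
  have hchain : ∀ c ⊆ S, IsChain (· ⊆ ·) c → c.Nonempty → ∃ lb ∈ S, ∀ s ∈ c, lb ⊆ s := by
    intro c hcS hc hne
    have key : ∀ D : Set X, IsClosed D → (∀ K ∈ c, (K ∩ D).Nonempty) → (⋂₀ c ∩ D).Nonempty := by
      intro D hD hcD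
      have hdir : DirectedOn (· ⊇ ·) ((fun K => K ∩ D) '' c) := by
        rintro _ ⟨K, hK, rfl⟩ _ ⟨L, hL, rfl⟩
        rcases hc.total hK hL with hKL | hLK
        · exact ⟨_, ⟨K, hK, rfl⟩, Subset.rfl, inter_subset_inter_left _ hKL⟩
        · exact ⟨_, ⟨L, hL, rfl⟩, inter_subset_inter_left _ hLK, Subset.rfl⟩
      have hn := IsCompact.nonempty_sInter_of_directed_nonempty_isCompact_isClosed
        (S := (fun K => K ∩ D) '' c) (hS := (hne.image _).to_subtype) hdir ?_ ?_ ?_
      · obtain ⟨y, hy⟩ := hn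
        obtain ⟨K0, hK0⟩ := hne
        exact ⟨y, fun K hK => (hy _ ⟨K, hK, rfl⟩).1, (hy _ ⟨K0, hK0, rfl⟩).2⟩
      · rintro _ ⟨K, hK, rfl⟩
        exact hcD K hK
      · rintro _ ⟨K, hK, rfl⟩
        exact (hcS hK).1.inter_right hD
      · rintro _ ⟨K, hK, rfl⟩
        exact (hcS hK).1.isClosed.inter hD
    have h1 := chain_inter hc hne (fun K hK => ⟨(hcS hK).1, (hcS hK).2.1⟩)
    have hA' := key A hA (fun K hK => (hcS hK).2.2.1)
    have hB' := key B hB (fun K hK => (hcS hK).2.2.2)
    refine ⟨⋂₀ c, ⟨h1.1, ⟨?_, h1.2⟩, hA', hB'⟩, fun s hs => sInter_subset_of_mem hs⟩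
    obtain ⟨z, hz, -⟩ := hA'
    exact ⟨z, hz⟩
  obtain ⟨J, hJY, hJmin⟩ := zorn_superset_nonempty S hchain Y ⟨hY, hYc, hYA, hYB⟩
  refine ⟨J, hJY, hJmin.prop.1, hJmin.prop.2.1, hJmin.prop.2.2.1, hJmin.prop.2.2.2, ?_⟩
  intro L hLJ hL1 hL2 hL3 hL4
  exact Subset.antisymm hLJ (hJmin.2 ⟨hL1, hL2, hL3, hL4⟩ hLJ)

end normal

section semicontinua

/-- Continuumwise connected sets. -/
def SemiC {X : Type} [TopologicalSpace X] (A : Set X) : Prop :=
  ∀ x ∈ A, ∀ y ∈ A, ∃ K : Set X, K ⊆ A ∧ IsCompact K ∧ IsConnected K ∧ x ∈ K ∧ y ∈ K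

/-- The hypothesis of the question. -/
def HypH (X : Type) [TopologicalSpace X] : Prop :=
  ∀ A : Set X,
    (∃ C : ℕ → Set X, (∀ n, IsClosed (C n)) ∧ A = ⋃ n, C n) →
    (¬ ∃ F : ℕ → Set X,
        (∀ n, ∃ D : Set X, IsClosed D ∧ F n = D ∩ A) ∧
        (∀ i j, i ≠ j → Disjoint (F i) (F j)) ∧
        (⋃ n, F n) = A ∧
        (∃ i j, i ≠ j ∧ (F i).Nonempty ∧ (F j).Nonempty)) →
    ∀ x ∈ A, ∀ y ∈ A, ∃ K : Set X, K ⊆ A ∧ IsCompact K ∧ IsConnected K ∧ x ∈ K ∧ y ∈ K

lemma semiC_of_common {X : Type} [TopologicalSpace X] {W : Set X} {a : X}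
    (h : ∀ x ∈ W, ∃ K : Set X, K ⊆ W ∧ IsCompact K ∧ IsConnected K ∧ x ∈ K ∧ a ∈ K) :
    SemiC W := by
  intro x hx y hy
  obtain ⟨K, hKW, hK, hKc, hxK, haK⟩ := h x hx
  obtain ⟨L, hLW, hL, hLc, hyL, haL⟩ := h y hy
  exact ⟨K ∪ L, union_subset hKW hLW, hK.union hL, hKc.union ⟨a, haK, haL⟩ hLc,
    Or.inl hxK, Or.inr hyL⟩

variable {X : Type} [MetricSpace X] [CompactSpace X]

lemma add_point (H : HypH X) {W : Set X}
    (hF : ∃ C : ℕ → Set X, (∀ n, IsClosed (C n)) ∧ W = ⋃ n, C n) (hsc : SemiC W) {p : X}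
    (hp : p ∈ closure W) :
    ∀ x ∈ W, ∃ K : Set X, K ⊆ insert p W ∧ IsCompact K ∧ IsConnected K ∧ x ∈ K ∧ p ∈ K := by
  intro x hx
  refine H (insert p W) ?_ ?_ x (mem_insert_of_mem _ hx) p (mem_insert _ _)
  · obtain ⟨C, hC, hW⟩ := hF
    refine ⟨fun n => Nat.rec {p} (fun n _ => C n) n, ?_, ?_⟩
    · intro n
      cases n with
      | zero => exact isClosed_singleton
      | succ n => exact hC n
    · ext y
      simp only [mem_insert_iff, mem_iUnion]
      constructor
      · rintro (rfl | hy)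
        · exact ⟨0, rfl⟩
        · rw [hW, mem_iUnion] at hy
          obtain ⟨n, hn⟩ := hy
          exact ⟨n + 1, hn⟩
      · rintro ⟨n, hn⟩
        cases n with
        | zero => left; exact hn
        | succ n => right; rw [hW]; exact mem_iUnion.2 ⟨n, hn⟩
  · rintro ⟨F, hF1, hF2, hF3, i, j, hij, hi, hj⟩
    choose D hD1 hD2 using hF1
    have hxA : x ∈ ⋃ n, F n := by rw [hF3]; exact mem_insert_of_mem _ hx
    obtain ⟨n, hn⟩ := mem_iUnion.1 hxA
    have hWF : W ⊆ F n := by
      intro y hy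
      obtain ⟨K, hKW, hK, hKc, hxK, hyK⟩ := hsc x hx y hy
      have hKA : K ⊆ insert p W := hKW.trans (subset_insert _ _)
      obtain ⟨m, hm⟩ := sierpinski (F := fun m => D m ∩ K) hK hKc
        (fun m => (hD1 m).inter hK.isClosed) (by
          intro a b hab
          apply (hF2 a b hab).mono
          · rw [hD2 a]; exact inter_subset_inter_right _ hKA
          · rw [hD2 b]; exact inter_subset_inter_right _ hKA) (by
          intro z hz
          have : z ∈ ⋃ n, F n := by rw [hF3]; exact hKA hz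
          obtain ⟨m, hm⟩ := mem_iUnion.1 this
          rw [hD2 m] at hm
          exact mem_iUnion.2 ⟨m, hm.1, hz⟩)
      have hxm : x ∈ F m := by rw [hD2 m]; exact ⟨(hm hxK).1, hKA hxK⟩
      have hmn : m = n := by
        by_contra hne
        exact disjoint_left.1 (hF2 m n hne) hxm hn
      rw [← hmn, hD2 m]
      exact ⟨(hm hyK).1, hKA hyK⟩
    have hWD : closure W ⊆ D n := by
      apply closure_minimal _ (hD1 n)
      intro z hz
      have := hWF hz
      rw [hD2 n] at this
      exact this.1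
    have hAF : insert p W ⊆ F n := by
      intro z hz
      rcases hz with rfl | hz
      · rw [hD2 n]; exact ⟨hWD hp, mem_insert _ _⟩
      · exact hWF hz
    have hall : ∀ m, (F m).Nonempty → m = n := by
      rintro m ⟨z, hz⟩
      by_contra hne
      have hzA : z ∈ insert p W := by rw [← hF3]; exact mem_iUnion.2 ⟨m, hz⟩
      exact disjoint_left.1 (hF2 m n hne) hz (hAF hzA)
    exact hij ((hall i hi).trans (hall j hj).symm)

lemma comb' (H : HypH X) {α : Set X} (hα : IsCompact α) (hαc : IsConnected α) {S : ℕ → Set X}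
    (hS : ∀ i, IsCompact (S i)) (hSc : ∀ i, IsConnected (S i)) (hSα : ∀ i, (S i ∩ α).Nonempty)
    (hSS : ∀ i j, i ≠ j → S i ∩ S j ⊆ α) {q : X} (hq : q ∉ α) (hqS : ∀ i, q ∉ S i)
    (hlim : ∀ ε > 0, ∃ N, ∀ n ≥ N, ∃ x ∈ S n, dist x q < ε) : False := by
  obtain ⟨a, ha⟩ := hαc.nonempty
  have hsc : SemiC (α ∪ ⋃ i, S i) := by
    apply semiC_of_common (a := a)
    rintro x (hx | hx)
    · exact ⟨α, subset_union_left, hα, hαc, hx, ha⟩
    · obtain ⟨i, hi⟩ := mem_iUnion.1 hx
      refine ⟨α ∪ S i, union_subset_union_right _ (subset_iUnion _ i), hα.union (hS i), ?_,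
        Or.inr hi, Or.inl ha⟩
      obtain ⟨z, hz1, hz2⟩ := hSα i
      exact hαc.union ⟨z, hz2, hz1⟩ (hSc i)
  have hFs : ∃ C : ℕ → Set X, (∀ n, IsClosed (C n)) ∧ (α ∪ ⋃ i, S i) = ⋃ n, C n := by
    refine ⟨fun n => Nat.rec α (fun n _ => S n) n, ?_, ?_⟩
    · intro n
      cases n with
      | zero => exact hα.isClosed
      | succ n => exact (hS n).isClosed
    · ext y
      simp only [mem_union, mem_iUnion]
      constructor
      · rintro (hy | ⟨n, hn⟩)
        · exact ⟨0, hy⟩
        · exact ⟨n + 1, hn⟩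
      · rintro ⟨n, hn⟩
        cases n with
        | zero => left; exact hn
        | succ n => right; exact ⟨n, hn⟩
  have hcl : q ∈ closure (α ∪ ⋃ i, S i) := by
    rw [Metric.mem_closure_iff]
    intro ε hε
    obtain ⟨N, hN⟩ := hlim ε hε
    obtain ⟨x, hx, hxq⟩ := hN N le_rfl
    exact ⟨x, Or.inr (mem_iUnion.2 ⟨N, hx⟩), by rw [dist_comm]; exact hxq⟩
  obtain ⟨K, hKW, hK, hKc, haK, hqK⟩ := add_point H hFs hsc hcl a (Or.inl ha)
  obtain ⟨δ, hδ, hδα⟩ : ∃ δ > 0, ∀ x ∈ Metric.closedBall q δ, x ∉ α := by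
    have : αᶜ ∈ 𝓝 q := hα.isClosed.isOpen_compl.mem_nhds hq
    obtain ⟨δ, hδ, h⟩ := Metric.nhds_basis_closedBall.mem_iff.1 this
    exact ⟨δ, hδ, fun x hx => h hx⟩
  obtain ⟨L, hL, hLc, hqL, hLsub, z, hzL, hzcl⟩ := bump (E := Metric.closedBall q δ) hK
    hKc.isPreconnected Metric.isClosed_closedBall hqK (Metric.mem_closedBall_self hδ.le)
    (fun h => hδα a (h haK) ha)
  have hzq : δ ≤ dist z q := by
    have hc : IsClosed {y : X | δ ≤ dist y q} := isClosed_le continuous_const (continuous_id.dist continuous_const)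
    have : closure (K \ Metric.closedBall q δ) ⊆ {y : X | δ ≤ dist y q} := by
      apply closure_minimal _ hc
      rintro y ⟨-, hy⟩
      rw [Metric.mem_closedBall, not_le] at hy
      exact hy.le
    exact this hzcl
  have hzq' : z ≠ q := by
    rintro rfl
    rw [dist_self] at hzq
    linarith
  obtain ⟨n, hn⟩ := sierpinski (F := fun n => Nat.rec ({q} : Set X)
      (fun n _ => S n ∩ Metric.closedBall q δ) n) hL hLc (by
        intro n
        cases n with
        | zero => exact isClosed_singleton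
        | succ n => exact (hS n).isClosed.inter Metric.isClosed_closedBall) (by
        intro i j hij
        rw [disjoint_left]
        intro y hy1 hy2
        cases i with
        | zero =>
          cases j with
          | zero => exact hij rfl
          | succ j =>
            have : y = q := hy1
            subst this
            exact hqS j hy2.1
        | succ i =>
          cases j with
          | zero =>
            have : y = q := hy2
            subst this
            exact hqS i hy1.1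
          | succ j =>
            have hne : i ≠ j := fun h => hij (by rw [h])
            exact hδα y hy1.2 (hSS i j hne ⟨hy1.1, hy2.1⟩)) (by
        intro y hy
        have hyE := (hLsub hy).2
        rcases hKW (hLsub hy).1 with h | h | h
        · exact mem_iUnion.2 ⟨0, h⟩
        · exact absurd h (hδα y hyE)
        · obtain ⟨i, hi⟩ := mem_iUnion.1 h
          exact mem_iUnion.2 ⟨i + 1, hi, hyE⟩)
  cases n with
  | zero => exact hzq' (hn hzL)
  | succ n => exact hqS n (hn hqL).1

lemma comb (H : HypH X) {α : Set X} (hα : IsCompact α) (hαc : IsConnected α) {S : ℕ → Set X}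
    (hS : ∀ i, IsCompact (S i)) (hSc : ∀ i, IsConnected (S i)) (hSα : ∀ i, (S i ∩ α).Nonempty)
    (hSS : ∀ i j, i < j → S i ∩ S j ⊆ α) {q : X} (hq : q ∉ α)
    (hlim : ∀ ε > 0, ∃ N, ∀ n ≥ N, ∃ x ∈ S n, dist x q < ε) : False := by
  have hSS' : ∀ i j, i ≠ j → S i ∩ S j ⊆ α := by
    intro i j hij
    rcases lt_or_gt_of_ne hij with h | h
    · exact hSS i j h
    · rw [inter_comm]; exact hSS j i h
  obtain ⟨N, hN⟩ : ∃ N, ∀ i ≥ N, q ∉ S i := by
    by_cases h : ∃ i, q ∈ S i
    · obtain ⟨i, hi⟩ := h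
      refine ⟨i + 1, fun j hj hqj => ?_⟩
      exact hq (hSS' i j (by omega) ⟨hi, hqj⟩)
    · push Not at h
      exact ⟨0, fun i _ => h i⟩
  refine comb' H hα hαc (S := fun i => S (N + i)) (fun i => hS _) (fun i => hSc _)
    (fun i => hSα _) (fun i j hij => hSS' _ _ (by omega)) hq (fun i => hN _ (by omega)) ?_
  intro ε hε
  obtain ⟨M, hM⟩ := hlim ε hε
  exact ⟨M, fun n hn => hM (N + n) (by omega)⟩

lemma single_point (H : HypH X) {A B J : Set X} (hB : IsClosed B)
    (hAB : Disjoint A B) (hJ : IsCompact J) (hJA : (J ∩ A).Nonempty)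
    (hJB : (J ∩ B).Nonempty) (hJc : IsConnected J)
    (hmin : ∀ L ⊆ J, IsCompact L → IsConnected L → (L ∩ A).Nonempty → (L ∩ B).Nonempty → L = J) :
    ∃ b, J ∩ B = {b} := by
  obtain ⟨a, haJ, haA⟩ := hJA
  obtain ⟨b, hbJ, hbB⟩ := hJB
  have haB : a ∉ B := disjoint_left.1 hAB haA
  have hBne : B.Nonempty := ⟨b, hbB⟩
  have hr : 0 < Metric.infDist a B := (hB.notMem_iff_infDist_pos hBne).1 haB
  set r := Metric.infDist a B with hrdef
  let E : ℕ → Set X := fun k => {x | r / (k + 1) ≤ Metric.infDist x B}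
  have hE : ∀ k, IsClosed (E k) := fun k =>
    isClosed_le continuous_const (Metric.continuous_infDist_pt B)
  have haE : ∀ k, a ∈ E k := by
    intro k
    change r / (k + 1) ≤ r
    apply div_le_self hr.le
    have : (0 : ℝ) ≤ k := Nat.cast_nonneg k
    linarith
  have hpos : ∀ k : ℕ, 0 < r / ((k : ℝ) + 1) := fun k => by positivity
  have hEB : ∀ k, ∀ x ∈ B, x ∉ E k := by
    intro k x hx hxE
    have h0 : Metric.infDist x B = 0 := Metric.infDist_zero_of_mem hx
    have h1 : r / (k + 1) ≤ Metric.infDist x B := hxE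
    rw [h0] at h1
    exact absurd h1 (not_le.2 (hpos k))
  have hb : ∀ k, ∃ L : Set X, IsCompact L ∧ IsConnected L ∧ a ∈ L ∧ L ⊆ J ∩ E k ∧
      (L ∩ closure (J \ E k)).Nonempty := fun k =>
    bump hJ hJc.isPreconnected (hE k) haJ (haE k) (fun h => hEB k b hbB (h hbJ))
  choose L hL hLc haL hLsub hLne using hb
  set W : Set X := ⋃ k, L k with hW
  have hsc : SemiC W := by
    apply semiC_of_common (a := a)
    intro x hx
    obtain ⟨k, hk⟩ := mem_iUnion.1 hx
    exact ⟨L k, subset_iUnion L k, hL k, hLc k, hk, haL k⟩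
  have hWJ : W ⊆ J := iUnion_subset fun k => (hLsub k).trans inter_subset_left
  have hWB : ∀ x ∈ W, x ∉ B := by
    intro x hx hxB
    obtain ⟨k, hk⟩ := mem_iUnion.1 hx
    exact hEB k x hxB (hLsub k hk).2
  have hWconn : IsConnected W := by
    refine ⟨⟨a, mem_iUnion.2 ⟨0, haL 0⟩⟩, ?_⟩
    exact isPreconnected_iUnion ⟨a, mem_iInter.2 haL⟩ fun k => (hLc k).isPreconnected
  have hclJ : closure W ⊆ J := closure_minimal hWJ hJ.isClosed
  have hclW : closure W = J := by
    apply hmin _ hclJ isClosed_closure.isCompact hWconn.closure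
    · exact ⟨a, subset_closure (mem_iUnion.2 ⟨0, haL 0⟩), haA⟩
    · by_contra hcon
      rw [not_nonempty_iff_eq_empty] at hcon
      obtain ⟨w, hw, hwmin⟩ := (isClosed_closure (s := W)).isCompact.exists_isMinOn
        ⟨a, subset_closure (mem_iUnion.2 ⟨0, haL 0⟩)⟩
        (Metric.continuous_infDist_pt B).continuousOn
      have hwB : w ∉ B := by
        intro hwB
        have : w ∈ closure W ∩ B := ⟨hw, hwB⟩
        rw [hcon] at this
        exact this
      have hwpos : 0 < Metric.infDist w B := (hB.notMem_iff_infDist_pos hBne).1 hwB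
      obtain ⟨k, hk⟩ := exists_nat_gt (r / Metric.infDist w B)
      obtain ⟨z, hzL, hzcl⟩ := hLne k
      have hz1 : Metric.infDist z B ≤ r / (k + 1) := by
        have hc : IsClosed {y : X | Metric.infDist y B ≤ r / ((k : ℝ) + 1)} :=
          isClosed_le (Metric.continuous_infDist_pt B) continuous_const
        have : closure (J \ E k) ⊆ {y : X | Metric.infDist y B ≤ r / ((k : ℝ) + 1)} := by
          apply closure_minimal _ hc
          rintro y ⟨-, hy⟩
          have : ¬ (r / ((k : ℝ) + 1) ≤ Metric.infDist y B) := hy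
          exact (not_le.1 this).le
        exact this hzcl
      have hz2 : Metric.infDist w B ≤ Metric.infDist z B :=
        hwmin (subset_closure (mem_iUnion.2 ⟨k, hzL⟩))
      have hk1 : r < k * Metric.infDist w B := by
        rwa [div_lt_iff₀ hwpos] at hk
      have hk2 : r / (k + 1) < Metric.infDist w B := by
        rw [div_lt_iff₀ (by positivity)]
        nlinarith
      linarith
  have hbcl : b ∈ closure W := by rw [hclW]; exact hbJ
  obtain ⟨K, hKW, hK, hKc, haK, hbK⟩ := add_point H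
    ⟨L, fun k => (hL k).isClosed, rfl⟩ hsc hbcl a (mem_iUnion.2 ⟨0, haL 0⟩)
  have hKJ : K ⊆ J := hKW.trans (insert_subset hbJ hWJ)
  have hKeq : K = J := hmin K hKJ hK hKc ⟨a, haK, haA⟩ ⟨b, hbK, hbB⟩
  refine ⟨b, Subset.antisymm ?_ ?_⟩
  · rintro x ⟨hxJ, hxB⟩
    rw [← hKeq] at hxJ
    rcases hKW hxJ with h | h
    · exact h
    · exact absurd hxB (hWB x h)
  · rintro x hx
    have : x = b := hx
    subst this
    exact ⟨hbJ, hbB⟩

/-- Convergence to a point, in the sense of the lower limit, of a sequence of sets. -/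
def LimPt {X : Type} [MetricSpace X] (C : ℕ → Set X) (q : X) : Prop :=
  ∀ ε > 0, ∃ N, ∀ n ≥ N, ∃ x ∈ C n, dist x q < ε

/-- The core construction, after passing to a subsequence. -/
lemma core2 (H : HypH X) {p q : X} (hpq : p ≠ q) {C E : ℕ → Set X}
    (hC : ∀ n, IsCompact (C n)) (hCc : ∀ n, IsConnected (C n))
    (hp : LimPt C p) (hq : LimPt C q)
    (hE : ∀ n, IsCompact (E n)) (hEc : ∀ n, IsConnected (E n)) (hCE : ∀ n, C n ⊆ E n)
    (hpE : ∀ n, p ∈ E n) (hqE : ∀ n, q ∉ E n) (hdis : ∀ i j, i < j → Disjoint (E i) (C j)) :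
    False := by
  -- the increasing unions
  let Q : ℕ → Set X := fun n => ⋃ i ∈ Finset.range (n + 1), E i
  have hQmem : ∀ n x, x ∈ Q n ↔ ∃ i ≤ n, x ∈ E i := by
    intro n x
    simp only [Q, mem_iUnion, Finset.mem_range, exists_prop]
    constructor
    · rintro ⟨i, hi, hx⟩; exact ⟨i, by omega, hx⟩
    · rintro ⟨i, hi, hx⟩; exact ⟨i, by omega, hx⟩
  have hQ : ∀ n, IsCompact (Q n) := fun n => Finset.isCompact_biUnion _ fun i _ => hE i
  have hQc : ∀ n, IsConnected (Q n) := by
    intro n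
    refine ⟨⟨p, (hQmem n p).2 ⟨0, Nat.zero_le _, hpE 0⟩⟩, ?_⟩
    apply isPreconnected_of_forall p
    intro y hy
    obtain ⟨i, hi, hyi⟩ := (hQmem n y).1 hy
    exact ⟨E i, fun z hz => (hQmem n z).2 ⟨i, hi, hz⟩, hpE i, hyi, (hEc i).isPreconnected⟩
  have hQq : ∀ n, q ∉ Q n := by
    intro n h
    obtain ⟨i, -, hi⟩ := (hQmem n q).1 h
    exact hqE i hi
  have hQC : ∀ n, C n ⊆ Q n := fun n x hx => (hQmem n x).2 ⟨n, le_rfl, hCE n hx⟩
  have hQC' : ∀ n j, n < j → Disjoint (Q n) (C j) := by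
    intro n j hj
    rw [disjoint_left]
    intro x hx hxC
    obtain ⟨i, hi, hxi⟩ := (hQmem n x).1 hx
    exact disjoint_left.1 (hdis i j (by omega)) hxi hxC
  have hQmono : ∀ n m, n ≤ m → Q n ⊆ Q m := by
    intro n m hnm x hx
    obtain ⟨i, hi, hxi⟩ := (hQmem n x).1 hx
    exact (hQmem m x).2 ⟨i, by omega, hxi⟩
  -- one step of the tree construction
  have step : ∀ (n : ℕ) (W : Set X), (IsCompact W ∧ IsConnected W ∧ W ⊆ Q n) →
      ∃ S : Set X, IsCompact S ∧ IsConnected S ∧ S ⊆ Q (n + 1) ∧ C (n + 1) ⊆ S ∧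
        ∃ t, S ∩ W = {t} := by
    rintro n W ⟨hW, hWc, hWQ⟩
    have hdj : Disjoint (C (n + 1)) W :=
      ((hQC' n (n + 1) (Nat.lt_succ_self n)).mono_left hWQ).symm
    have h1 : (Q (n + 1) ∩ C (n + 1)).Nonempty := by
      obtain ⟨x, hx⟩ := (hCc (n + 1)).nonempty
      exact ⟨x, hQC _ hx, hx⟩
    have h2 : (Q (n + 1) ∩ W).Nonempty := by
      obtain ⟨x, hx⟩ := hWc.nonempty
      exact ⟨x, hQmono n (n + 1) (Nat.le_succ n) (hWQ hx), hx⟩
    obtain ⟨J, hJQ, hJ, hJc, hJC, hJW, hmin⟩ :=
      exists_minimal (hQ (n + 1)) (hQc (n + 1)) (hC (n + 1)).isClosed hW.isClosed h1 h2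
    obtain ⟨t, ht⟩ := single_point H hW.isClosed hdj hJ hJC hJW hJc hmin
    refine ⟨J ∪ C (n + 1), hJ.union (hC _), hJc.union hJC (hCc _),
      union_subset hJQ (hQC _), subset_union_right, t, ?_⟩
    rw [union_inter_distrib_right, ht, hdj.inter_eq, union_empty]
  choose! g hg1 hg2 hg3 hg4 hg5 using step
  let W : ℕ → Set X := fun n => Nat.rec (C 0) (fun n W => W ∪ g n W) n
  have hWsucc : ∀ n, W (n + 1) = W n ∪ g n (W n) := fun n => rfl
  have hWprop : ∀ n, IsCompact (W n) ∧ IsConnected (W n) ∧ W n ⊆ Q n := by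
    intro n
    induction n with
    | zero => exact ⟨hC 0, hCc 0, hQC 0⟩
    | succ n ih =>
      rw [hWsucc]
      refine ⟨ih.1.union (hg1 n _ ih), ?_, union_subset (ih.2.2.trans (hQmono n _ (Nat.le_succ n)))
        (hg3 n _ ih)⟩
      obtain ⟨t, ht⟩ := hg5 n _ ih
      have : t ∈ g n (W n) ∩ W n := by rw [ht]; exact rfl
      exact ih.2.1.union ⟨t, this.2, this.1⟩ (hg2 n _ ih)
  have hWmono : ∀ n m, n ≤ m → W n ⊆ W m := by
    intro n m hnm
    induction m, hnm using Nat.le_induction with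
    | base => exact Subset.rfl
    | succ m _ ih => rw [hWsucc]; exact ih.trans subset_union_left
  let s : ℕ → Set X := fun n => g n (W n)
  have hs1 : ∀ n, IsCompact (s n) := fun n => hg1 n _ (hWprop n)
  have hs2 : ∀ n, IsConnected (s n) := fun n => hg2 n _ (hWprop n)
  have hs4 : ∀ n, C (n + 1) ⊆ s n := fun n => hg4 n _ (hWprop n)
  have hs5 : ∀ n, ∃ t, s n ∩ W n = {t} := fun n => hg5 n _ (hWprop n)
  have hsW : ∀ n, s n ⊆ W (n + 1) := fun n => by rw [hWsucc]; exact subset_union_right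
  have hWq : ∀ n, q ∉ W n := fun n h => hQq n ((hWprop n).2.2 h)
  have hlims : ∀ r : X, LimPt C r → ∀ φ : ℕ → ℕ, (∀ i j, i < j → φ i < φ j) →
      LimPt (fun i => s (φ i)) r := by
    intro r hr φ hφ ε hε
    obtain ⟨N, hN⟩ := hr ε hε
    refine ⟨N, fun n hn => ?_⟩
    have hmono : StrictMono φ := fun i j hij => hφ i j hij
    have : n ≤ φ n := hmono.id_le n
    obtain ⟨x, hx, hxr⟩ := hN (φ n + 1) (by omega)
    exact ⟨x, hs4 _ hx, hxr⟩
  -- each W k meets only finitely many s n
  have hfin : ∀ k, ∃ N, ∀ n ≥ N, s n ∩ W k = ∅ := by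
    intro k
    by_contra hcon
    push Not at hcon
    obtain ⟨φ, hφ1, hφ2⟩ := exists_seq_of_forall_finset_exists
      (fun n => k ≤ n ∧ (s n ∩ W k).Nonempty) (fun i j => i < j) (by
        intro t _
        obtain ⟨n, hn, hne⟩ := hcon (t.sup id + k + 1)
        refine ⟨n, ⟨by omega, hne⟩, fun x hx => ?_⟩
        have : x ≤ t.sup id := Finset.le_sup (f := id) hx
        omega)
    refine comb H (hWprop k).1 (hWprop k).2.1 (S := fun i => s (φ i)) (fun i => hs1 _)
      (fun i => hs2 _) (fun i => (hφ1 i).2) ?_ (hWq k) (hlims q hq φ hφ2)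
    intro i j hij x hx
    obtain ⟨t, ht⟩ := hs5 (φ j)
    have hx1 : x ∈ s (φ j) ∩ W (φ j) :=
      ⟨hx.2, hWmono (φ i + 1) (φ j) (hφ2 i j hij) (hsW _ hx.1)⟩
    rw [ht] at hx1
    obtain ⟨y, hy1, hy2⟩ := (hφ1 j).2
    have hy3 : y ∈ s (φ j) ∩ W (φ j) := ⟨hy1, hWmono k (φ j) (hφ1 j).1 hy2⟩
    rw [ht] at hy3
    have h1 : x = t := hx1
    have h2 : y = t := hy3
    rw [h1, ← h2]
    exact hy2
  -- the union
  obtain ⟨a, ha⟩ := (hCc 0).nonempty
  have haW : ∀ n, a ∈ W n := fun n => hWmono 0 n (Nat.zero_le n) ha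
  have hsc : SemiC (⋃ n, W n) := by
    apply semiC_of_common (a := a)
    intro x hx
    obtain ⟨n, hn⟩ := mem_iUnion.1 hx
    exact ⟨W n, subset_iUnion W n, (hWprop n).1, (hWprop n).2.1, hn, haW n⟩
  have hqcl : q ∈ closure (⋃ n, W n) := by
    rw [Metric.mem_closure_iff]
    intro ε hε
    obtain ⟨N, hN⟩ := hq ε hε
    obtain ⟨x, hx, hxq⟩ := hN (N + 1) (by omega)
    exact ⟨x, mem_iUnion.2 ⟨N + 1, hsW N (hs4 N hx)⟩, by rw [dist_comm]; exact hxq⟩
  obtain ⟨M, hMW, hM, hMc, haM, hqM⟩ := add_point H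
    ⟨W, fun n => (hWprop n).1.isClosed, rfl⟩ hsc hqcl a (mem_iUnion.2 ⟨0, haW 0⟩)
  have haq : a ≠ q := fun h => hWq 0 (h ▸ haW 0)
  have hd1 : 0 < dist a q := dist_pos.2 haq
  have hd2 : 0 < dist p q := dist_pos.2 hpq
  set δ := min (dist a q) (dist p q) / 2 with hδdef
  have hδ : 0 < δ := by positivity
  have hδa : δ < dist a q := by
    have := min_le_left (dist a q) (dist p q)
    have h3 : 0 < min (dist a q) (dist p q) := lt_min hd1 hd2
    linarith
  have hδp : δ < dist p q := by
    have := min_le_right (dist a q) (dist p q)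
    have h3 : 0 < min (dist a q) (dist p q) := lt_min hd1 hd2
    linarith
  obtain ⟨L, hL, hLc, hqL, hLsub, z, hzL, hzcl⟩ := bump (E := Metric.closedBall q δ) hM
    hMc.isPreconnected Metric.isClosed_closedBall hqM (Metric.mem_closedBall_self hδ.le)
    (fun h => absurd (h haM) (by rw [Metric.mem_closedBall, not_le]; exact hδa))
  have hzq : δ ≤ dist z q := by
    have hc : IsClosed {y : X | δ ≤ dist y q} :=
      isClosed_le continuous_const (continuous_id.dist continuous_const)
    have : closure (M \ Metric.closedBall q δ) ⊆ {y : X | δ ≤ dist y q} := by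
      apply closure_minimal _ hc
      rintro y ⟨-, hy⟩
      rw [Metric.mem_closedBall, not_le] at hy
      exact hy.le
    exact this hzcl
  have hzq' : z ≠ q := by
    rintro rfl
    rw [dist_self] at hzq
    linarith
  have hLW : ∀ k, ∃ n ≥ k, (s n ∩ L).Nonempty := by
    intro k
    by_contra hcon
    push Not at hcon
    have hsub : L ⊆ {q} ∪ W k := by
      intro x hx
      rcases hMW (hLsub hx).1 with h | h
      · left; exact h
      · right
        obtain ⟨n, hn⟩ := mem_iUnion.1 h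
        have key : ∀ m, x ∈ W m → x ∈ W k := by
          intro m
          induction m with
          | zero => intro hm; exact hWmono 0 k (Nat.zero_le k) hm
          | succ m ih =>
            intro hm
            by_cases hmk : m + 1 ≤ k
            · exact hWmono _ _ hmk hm
            · rw [hWsucc] at hm
              rcases hm with hm | hm
              · exact ih hm
              · exfalso
                have := hcon m (by omega)
                have hxs : x ∈ s m ∩ L := ⟨hm, hx⟩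
                rw [this] at hxs
                exact hxs
        exact key n hn
    have := isPreconnected_closed_iff.1 hLc.isPreconnected {q} (W k) isClosed_singleton
      (hWprop k).1.isClosed hsub ⟨q, hqL, rfl⟩ (by
        rcases hsub hzL with h | h
        · exact absurd h hzq'
        · exact ⟨z, hzL, h⟩)
    obtain ⟨y, -, hy1, hy2⟩ := this
    have : y = q := hy1
    rw [this] at hy2
    exact hWq k hy2
  obtain ⟨φ, hφ1, hφ2⟩ := exists_seq_of_forall_finset_exists
    (fun n => (s n ∩ L).Nonempty) (fun i j => i < j ∧ Disjoint (s i) (s j)) (by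
      intro t _
      have hN : ∃ N, ∀ n ≥ N, ∀ i ∈ t, s n ∩ W (i + 1) = ∅ := by
        choose N hN using fun i => hfin (i + 1)
        refine ⟨t.sup N, fun n hn i hi => hN i n ?_⟩
        have : N i ≤ t.sup N := Finset.le_sup hi
        omega
      obtain ⟨N, hN⟩ := hN
      obtain ⟨n, hn, hne⟩ := hLW (N + t.sup id + 1)
      refine ⟨n, hne, fun x hx => ⟨?_, ?_⟩⟩
      · have : x ≤ t.sup id := Finset.le_sup (f := id) hx
        omega
      · rw [disjoint_left]
        intro y hy1 hy2
        have := hN n (by omega) x hx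
        have hy : y ∈ s n ∩ W (x + 1) := ⟨hy2, hsW _ hy1⟩
        rw [this] at hy
        exact hy)
  refine comb H hL hLc (S := fun i => s (φ i)) (fun i => hs1 _) (fun i => hs2 _) (fun i => hφ1 i)
    ?_ (q := p) ?_ (hlims p hp φ fun i j hij => (hφ2 i j hij).1)
  · intro i j hij x hx
    exact absurd hx.2 (disjoint_left.1 (hφ2 i j hij).2 hx.1)
  · intro hpL
    have := (hLsub hpL).2
    rw [Metric.mem_closedBall] at this
    linarith

lemma core1 (H : HypH X) {p q : X} (hpq : p ≠ q) {C E : ℕ → Set X}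
    (hC : ∀ n, IsCompact (C n)) (hCc : ∀ n, IsConnected (C n))
    (hCd : ∀ i j, i < j → Disjoint (C i) (C j))
    (hp : LimPt C p) (hq : LimPt C q)
    (hE : ∀ n, IsCompact (E n)) (hEc : ∀ n, IsConnected (E n)) (hCE : ∀ n, C n ⊆ E n)
    (hpE : ∀ n, p ∈ E n) (hqE : ∀ n, q ∉ E n) :
    False := by
  have hlim : ∀ r : X, LimPt C r → ∀ φ : ℕ → ℕ, (∀ i j, i < j → φ i < φ j) →
      LimPt (fun i => C (φ i)) r := by
    intro r hr φ hφ ε hε
    obtain ⟨N, hN⟩ := hr ε hε
    refine ⟨N, fun n hn => ?_⟩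
    have hmono : StrictMono φ := fun i j hij => hφ i j hij
    have : n ≤ φ n := hmono.id_le n
    exact hN (φ n) (by omega)
  have hfin : ∀ k, ∃ N, ∀ n ≥ N, Disjoint (E k) (C n) := by
    intro k
    by_contra hcon
    push Not at hcon
    obtain ⟨φ, hφ1, hφ2⟩ := exists_seq_of_forall_finset_exists
      (fun n => (C n ∩ E k).Nonempty) (fun i j => i < j) (by
        intro t _
        obtain ⟨n, hn, hne⟩ := hcon (t.sup id + 1)
        refine ⟨n, ?_, fun x hx => ?_⟩
        · rw [not_disjoint_iff] at hne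
          obtain ⟨y, hy1, hy2⟩ := hne
          exact ⟨y, hy2, hy1⟩
        · have : x ≤ t.sup id := Finset.le_sup (f := id) hx
          omega)
    refine comb H (hE k) (hEc k) (S := fun i => C (φ i)) (fun i => hC _) (fun i => hCc _)
      (fun i => hφ1 i) ?_ (hqE k) (hlim q hq φ hφ2)
    intro i j hij x hx
    exact absurd hx.2 (disjoint_left.1 (hCd _ _ (hφ2 i j hij)) hx.1)
  obtain ⟨φ, -, hφ2⟩ := exists_seq_of_forall_finset_exists
    (fun _ => True) (fun i j => i < j ∧ Disjoint (E i) (C j)) (by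
      intro t _
      choose N hN using hfin
      refine ⟨t.sup N + t.sup id + 1, trivial, fun x hx => ⟨?_, ?_⟩⟩
      · have : x ≤ t.sup id := Finset.le_sup (f := id) hx
        omega
      · apply hN x
        have : N x ≤ t.sup N := Finset.le_sup hx
        omega)
  exact core2 H hpq (C := fun i => C (φ i)) (E := fun i => E (φ i)) (fun i => hC _)
    (fun i => hCc _) (hlim p hp φ fun i j hij => (hφ2 i j hij).1)
    (hlim q hq φ fun i j hij => (hφ2 i j hij).1) (fun i => hE _) (fun i => hEc _)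
    (fun i => hCE _) (fun i => hpE _) (fun i => hqE _) (fun i j hij => (hφ2 i j hij).2)

/-- Under the hypothesis there is no sequence of pairwise disjoint continua whose lower limit
contains two distinct points. -/
lemma no_seq [ConnectedSpace X] (H : HypH X) {p q : X} (hpq : p ≠ q) {C : ℕ → Set X}
    (hC : ∀ n, IsCompact (C n)) (hCc : ∀ n, IsConnected (C n))
    (hCd : ∀ i j, i < j → Disjoint (C i) (C j))
    (hp : LimPt C p) (hq : LimPt C q) (hpC : ∀ n, p ∉ C n) (hqC : ∀ n, q ∉ C n) :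
    False := by
  have hex : ∀ n, ∃ E : Set X, IsCompact E ∧ IsConnected E ∧ C n ⊆ E ∧
      ((p ∈ E ∧ q ∉ E) ∨ (q ∈ E ∧ p ∉ E)) := by
    intro n
    have hB : IsClosed ({p, q} : Set X) := (Set.toFinite _).isClosed
    have hd : Disjoint (C n) ({p, q} : Set X) := by
      rw [disjoint_left]
      rintro x hx (rfl | h)
      · exact hpC n hx
      · have : x = q := h
        subst this
        exact hqC n hx
    obtain ⟨J, -, hJ, hJc, hJC, hJB, hmin⟩ := exists_minimal (Y := (univ : Set X)) isCompact_univ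
      isConnected_univ (hC n).isClosed hB (by rw [univ_inter]; exact (hCc n).nonempty)
      (by rw [univ_inter]; exact ⟨p, by simp⟩)
    obtain ⟨b, hb⟩ := single_point H hB hd hJ hJC hJB hJc hmin
    have hbJ : b ∈ J ∩ ({p, q} : Set X) := by rw [hb]; exact rfl
    refine ⟨J ∪ C n, hJ.union (hC n), hJc.union hJC (hCc n), subset_union_right, ?_⟩
    have huniq : ∀ y ∈ ({p, q} : Set X), y ∈ J → y = b := by
      intro y hy hyJ
      have : y ∈ J ∩ ({p, q} : Set X) := ⟨hyJ, hy⟩
      rw [hb] at this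
      exact this
    rcases hbJ.2 with h | h
    · left
      refine ⟨Or.inl (h ▸ hbJ.1), ?_⟩
      rintro (h2 | h2)
      · exact hpq (h ▸ (huniq q (by simp) h2).symm)
      · exact hqC n h2
    · right
      have h' : b = q := h
      refine ⟨Or.inl (h' ▸ hbJ.1), ?_⟩
      rintro (h2 | h2)
      · exact hpq (h' ▸ (huniq p (by simp) h2))
      · exact hpC n h2
  choose E hE1 hE2 hE3 hE4 using hex
  have hlim : ∀ r : X, LimPt C r → ∀ φ : ℕ → ℕ, (∀ i j, i < j → φ i < φ j) →
      LimPt (fun i => C (φ i)) r := by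
    intro r hr φ hφ ε hε
    obtain ⟨N, hN⟩ := hr ε hε
    refine ⟨N, fun n hn => ?_⟩
    have hmono : StrictMono φ := fun i j hij => hφ i j hij
    have : n ≤ φ n := hmono.id_le n
    exact hN (φ n) (by omega)
  by_cases hinf : ∀ N, ∃ n ≥ N, p ∈ E n ∧ q ∉ E n
  · obtain ⟨φ, hφ1, hφ2⟩ := exists_seq_of_forall_finset_exists
      (fun n => p ∈ E n ∧ q ∉ E n) (fun i j => i < j) (by
        intro t _
        obtain ⟨n, hn, hne⟩ := hinf (t.sup id + 1)
        refine ⟨n, hne, fun x hx => ?_⟩
        have : x ≤ t.sup id := Finset.le_sup (f := id) hx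
        omega)
    exact core1 H hpq (C := fun i => C (φ i)) (E := fun i => E (φ i)) (fun i => hC _)
      (fun i => hCc _) (fun i j hij => hCd _ _ (hφ2 i j hij)) (hlim p hp φ hφ2)
      (hlim q hq φ hφ2) (fun i => hE1 _) (fun i => hE2 _) (fun i => hE3 _)
      (fun i => (hφ1 i).1) (fun i => (hφ1 i).2)
  · push Not at hinf
    obtain ⟨N, hN⟩ := hinf
    have hN' : ∀ n ≥ N, q ∈ E n ∧ p ∉ E n := by
      intro n hn
      rcases hE4 n with h | h
      · exact absurd (hN n hn h.1) h.2
      · exact h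
    exact core1 H (Ne.symm hpq) (C := fun i => C (N + i)) (E := fun i => E (N + i)) (fun i => hC _)
      (fun i => hCc _) (fun i j hij => hCd _ _ (by omega))
      (hlim q hq (fun i => N + i) (fun i j hij => by omega))
      (hlim p hp (fun i => N + i) (fun i j hij => by omega)) (fun i => hE1 _) (fun i => hE2 _)
      (fun i => hE3 _) (fun i => (hN' _ (by omega)).1) (fun i => (hN' _ (by omega)).2)

omit [CompactSpace X] in
/-- Components of closed subsets are closed. -/
lemma comp_closed {E : Set X} (hE : IsClosed E) (x : X) : IsClosed (connectedComponentIn E x) := by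
  by_cases hx : x ∈ E
  · have h1 : closure (connectedComponentIn E x) ⊆ connectedComponentIn E x := by
      apply isPreconnected_connectedComponentIn.closure.subset_connectedComponentIn
        (subset_closure (mem_connectedComponentIn hx))
      exact closure_minimal (connectedComponentIn_subset E x) hE
    exact isClosed_of_closure_subset h1
  · rw [connectedComponentIn_eq_empty hx]; exact isClosed_empty

/-- Failure of aposyndesis yields a sequence of disjoint continua. -/
lemma exists_seq [ConnectedSpace X] {p q : X} (hpq : p ≠ q)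
    (hap : ∀ K : Set X, IsCompact K → IsConnected K → p ∈ interior K → q ∈ K) :
    ∃ C : ℕ → Set X, (∀ n, IsCompact (C n)) ∧ (∀ n, IsConnected (C n)) ∧
      (∀ i j, i < j → Disjoint (C i) (C j)) ∧ LimPt C p ∧ LimPt C q ∧ (∀ n, p ∉ C n) ∧
      (∀ n, q ∉ C n) := by
  classical
  set r := dist p q with hr
  have hr0 : 0 < r := dist_pos.2 hpq
  let ρ : ℕ → ℝ := fun n => r / (n + 2)
  have hρ0 : ∀ n, 0 < ρ n := fun n => by positivity
  have hρr : ∀ n, ρ n < r := by
    intro n
    change r / (n + 2) < r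
    apply div_lt_self hr0
    have : (0 : ℝ) ≤ n := Nat.cast_nonneg n
    linarith
  have hρm : ∀ n m, n ≤ m → ρ m ≤ ρ n := by
    intro n m hnm
    change r / (m + 2) ≤ r / (n + 2)
    have : (n : ℝ) ≤ m := Nat.cast_le.2 hnm
    apply div_le_div_of_nonneg_left hr0.le (by positivity) (by linarith)
  let E : ℕ → Set X := fun n => {x | ρ n ≤ dist x q}
  have hE : ∀ n, IsClosed (E n) := fun n =>
    isClosed_le continuous_const (continuous_id.dist continuous_const)
  have hEmono : ∀ n m, n ≤ m → E n ⊆ E m := fun n m hnm x hx => (hρm n m hnm).trans hx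
  have hpEint : ∀ n, E n ∈ 𝓝 p := by
    intro n
    have : {x : X | ρ n < dist x q} ∈ 𝓝 p :=
      (isOpen_lt continuous_const (continuous_id.dist continuous_const)).mem_nhds (hρr n)
    exact mem_of_superset this fun x (hx : ρ n < dist x q) =>
      (show ρ n ≤ dist x q from le_of_lt hx)
  have hqE : ∀ n, q ∉ E n := by
    intro n h
    have : ρ n ≤ dist q q := h
    rw [dist_self] at this
    exact absurd this (not_le.2 (hρ0 n))
  let D : ℕ → X → Set X := fun n x => connectedComponentIn (E n) x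
  have hDcl : ∀ n x, IsClosed (D n x) := fun n x => comp_closed (hE n) x
  have key : ∀ (n : ℕ) (T : Finset X), ∃ x, x ∈ E n ∧ dist x p < ρ n ∧ p ∉ D n x ∧
      ∀ t ∈ T, t ∉ D n x := by
    intro n T
    by_contra hcon
    push Not at hcon
    -- neighbourhood of p avoiding the closed components through T not containing p
    have hnb : ∀ t ∈ T, ∃ U ∈ 𝓝 p, ∀ x ∈ U, t ∈ D n x → p ∈ D n x := by
      intro t _
      by_cases htp : p ∈ D n t
      · refine ⟨univ, univ_mem, fun x _ hx => ?_⟩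
        have : D n x = D n t := connectedComponentIn_eq hx
        rw [this]; exact htp
      · refine ⟨(D n t)ᶜ ∩ E n, inter_mem ((hDcl n t).isOpen_compl.mem_nhds htp) (hpEint n),
          fun x hx hxt => ?_⟩
        exfalso
        have : D n x = D n t := connectedComponentIn_eq hxt
        apply hx.1
        rw [← this]
        exact mem_connectedComponentIn hx.2
    choose! U hU1 hU2 using hnb
    have hV : (⋂ t ∈ T, U t) ∩ (E n ∩ Metric.ball p (ρ n)) ∈ 𝓝 p := by
      refine inter_mem ?_ (inter_mem (hpEint n) (Metric.ball_mem_nhds p (hρ0 n)))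
      rw [Finset.iInter_mem_sets]
      exact hU1
    have hsub : (⋂ t ∈ T, U t) ∩ (E n ∩ Metric.ball p (ρ n)) ⊆ D n p := by
      rintro x ⟨hx1, hx2, hx3⟩
      have hxp : p ∈ D n x := by
        by_contra hnp
        obtain ⟨t, ht, htx⟩ := hcon x hx2 hx3 hnp
        exact hnp (hU2 t ht x (mem_iInter₂.1 hx1 t ht) htx)
      have : D n x = D n p := connectedComponentIn_eq hxp
      rw [← this]
      exact mem_connectedComponentIn hx2
    have hpint : p ∈ interior (D n p) := mem_interior_iff_mem_nhds.2 (mem_of_superset hV hsub)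
    have hconn : IsConnected (D n p) :=
      isConnected_connectedComponentIn_iff.2 (mem_of_mem_nhds (hpEint n))
    exact hqE n (connectedComponentIn_subset _ _ (hap _ (hDcl n p).isCompact hconn hpint))
  obtain ⟨f, hf1, hf2⟩ := exists_seq_of_forall_finset_exists (α := ℕ × X)
    (fun y => y.2 ∈ E y.1 ∧ dist y.2 p < ρ y.1 ∧ p ∉ D y.1 y.2)
    (fun y z => y.1 < z.1 ∧ y.2 ∉ D z.1 z.2) (by
      intro T _
      obtain ⟨x, hx1, hx2, hx3, hx4⟩ := key (T.sup Prod.fst + 1) (T.image Prod.snd)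
      refine ⟨(T.sup Prod.fst + 1, x), ⟨hx1, hx2, hx3⟩, fun y hy => ⟨?_, ?_⟩⟩
      · have : y.1 ≤ T.sup Prod.fst := Finset.le_sup hy
        exact Nat.lt_succ_of_le this
      · exact hx4 _ (Finset.mem_image_of_mem _ hy))
  have hmono : StrictMono fun n => (f n).1 := fun i j hij => (hf2 i j hij).1
  have hge : ∀ n, n ≤ (f n).1 := fun n => hmono.id_le n
  have hρlim : ∀ ε > 0, ∃ N, ∀ n ≥ N, ρ n < ε := by
    intro ε hε
    obtain ⟨N, hN⟩ := exists_nat_gt (r / ε)
    refine ⟨N, fun n hn => ?_⟩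
    change r / (n + 2) < ε
    rw [div_lt_iff₀ (by positivity)]
    rw [div_lt_iff₀ hε] at hN
    have : (N : ℝ) ≤ n := Nat.cast_le.2 hn
    nlinarith
  refine ⟨fun n => D (f n).1 (f n).2, fun n => (hDcl _ _).isCompact, fun n =>
    isConnected_connectedComponentIn_iff.2 (hf1 n).1, ?_, ?_, ?_, fun n => (hf1 n).2.2,
    fun n h => hqE _ (connectedComponentIn_subset _ _ h)⟩
  · intro i j hij
    rw [disjoint_left]
    intro x hxi hxj
    have hEij : E (f i).1 ⊆ E (f j).1 := hEmono _ _ (hf2 i j hij).1.le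
    have h1 : D (f i).1 (f i).2 ⊆ connectedComponentIn (E (f j).1) x :=
      isPreconnected_connectedComponentIn.subset_connectedComponentIn hxi
        ((connectedComponentIn_subset _ _).trans hEij)
    have h2 : D (f j).1 (f j).2 = connectedComponentIn (E (f j).1) x :=
      connectedComponentIn_eq hxj
    apply (hf2 i j hij).2
    rw [h2]
    exact h1 (mem_connectedComponentIn (hf1 i).1)
  · intro ε hε
    obtain ⟨N, hN⟩ := hρlim ε hε
    refine ⟨N, fun n hn => ⟨(f n).2, mem_connectedComponentIn (hf1 n).1, ?_⟩⟩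
    exact (hf1 n).2.1.trans (hN _ (hn.trans (hge n)))
  · intro ε hε
    obtain ⟨N, hN⟩ := hρlim ε hε
    refine ⟨N, fun n hn => ?_⟩
    obtain ⟨L, hL, hLc, hxL, hLsub, z, hzL, hzcl⟩ := bump (K := univ) (E := E (f n).1)
      isCompact_univ isPreconnected_univ (hE _) (mem_univ (f n).2) (hf1 n).1
      (fun h => hqE _ (h (mem_univ q)))
    refine ⟨z, ?_, ?_⟩
    · exact hLc.isPreconnected.subset_connectedComponentIn hxL
        (fun y hy => (hLsub hy).2) hzL
    · have hc : IsClosed {y : X | dist y q ≤ ρ (f n).1} :=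
        isClosed_le (continuous_id.dist continuous_const) continuous_const
      have : closure (univ \ E (f n).1) ⊆ {y : X | dist y q ≤ ρ (f n).1} := by
        apply closure_minimal _ hc
        rintro y ⟨-, hy⟩
        have hy' : ¬ (ρ (f n).1 ≤ dist y q) := hy
        exact (not_le.1 hy').le
      exact (this hzcl).trans_lt (hN _ (hn.trans (hge n)))

/-- The main theorem: aposyndesis at every point with respect to every other point. -/
theorem aposyndetic [ConnectedSpace X] (H : HypH X) {p q : X} (hpq : p ≠ q) :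
    ∃ K : Set X, IsCompact K ∧ IsConnected K ∧ p ∈ interior K ∧ q ∉ K := by
  by_contra hcon
  push Not at hcon
  obtain ⟨C, h1, h2, h3, h4, h5, h6, h7⟩ := exists_seq hpq hcon
  exact no_seq H hpq h1 h2 h3 h4 h5 h6 h7

end semicontinua

end helpers

/-- In a metrizable continuum where every σ-connected F_σ subset has any two of its points inside a subcontinuum of that subset, any two distinct points p,q admit a subcontinuum containing one of them in its interior and missing the other. -/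
theorem result :
    ∀ (X : Type) [TopologicalSpace X] [TopologicalSpace.MetrizableSpace X]
      [CompactSpace X] [ConnectedSpace X],
      (∀ A : Set X,
        (∃ C : ℕ → Set X, (∀ n, IsClosed (C n)) ∧ A = ⋃ n, C n) →
        (¬ ∃ F : ℕ → Set X,
            (∀ n, ∃ D : Set X, IsClosed D ∧ F n = D ∩ A) ∧
            (∀ i j, i ≠ j → Disjoint (F i) (F j)) ∧
            (⋃ n, F n) = A ∧
            (∃ i j, i ≠ j ∧ (F i).Nonempty ∧ (F j).Nonempty)) →
        ∀ x ∈ A, ∀ y ∈ A, ∃ K : Set X, K ⊆ A ∧ IsCompact K ∧ IsConnected K ∧ x ∈ K ∧ y ∈ K) →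
      ∀ p q : X, p ≠ q →
        (∃ K : Set X, IsCompact K ∧ IsConnected K ∧ p ∈ interior K ∧ q ∉ K) ∨
        (∃ K : Set X, IsCompact K ∧ IsConnected K ∧ q ∈ interior K ∧ p ∉ K) := by
  intro X _ _ _ _ H p q hpq
  let _ : MetricSpace X := TopologicalSpace.metrizableSpaceMetric X
  left
  exact aposyndetic (X := X) H hpq

end Pool.Agent.S13625
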