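import Pool.Statements.S13885

set_option autoImplicit false
open Pool Pool.MP_c36963_gt

namespace Pool.Agent.S13885

/-- There exists r : ℂ → ℂ mapping the closed unit disk into the unit circle, fixing the circle, with connected fibers in the disk, such that only finitely many circle points y fail: for all circle sequences s_n → y, every point of the Kuratowski lim sup of the fibers r⁻¹(s_n) lies in r⁻¹(y). -/
theorem result :
    ∃ r : ℂ → ℂ,
      (∀ z ∈ Metric.closedBall (0:ℂ) 1, r z ∈ Metric.sphere (0:ℂ) 1) ∧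
      (∀ y ∈ Metric.sphere (0:ℂ) 1, r y = y) ∧
      (∀ y ∈ Metric.sphere (0:ℂ) 1,
        IsConnected {z : ℂ | z ∈ Metric.closedBall (0:ℂ) 1 ∧ r z = y}) ∧
      Set.Finite {y : ℂ | y ∈ Metric.sphere (0:ℂ) 1 ∧
        ¬ (∀ s : ℕ → ℂ, (∀ n, s n ∈ Metric.sphere (0:ℂ) 1) →
            Filter.Tendsto s Filter.atTop (nhds y) →
            ∀ x : ℂ, (∀ ε : ℝ, ε > 0 → ∀ N : ℕ, ∃ n : ℕ, n ≥ N ∧
                ∃ z : ℂ, z ∈ Metric.closedBall (0:ℂ) 1 ∧ r z = s n ∧ dist z x < ε) →
              r x = y)} := by
  classical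
  refine ⟨fun z => if ‖z‖ = 1 then z else 1, ?_, ?_, ?_, ?_⟩
  · intro z _
    by_cases h : ‖z‖ = 1
    · simp [h]
    · simp [h]
  · intro y hy
    have : ‖y‖ = 1 := by simpa using hy
    simp [this]
  · intro y hy
    have hy1 : ‖y‖ = 1 := by simpa using hy
    by_cases hy2 : y = 1
    · subst hy2
      have hball : IsConnected (Metric.ball (0:ℂ) 1) :=
        (convex_ball (0:ℂ) 1).isConnected ⟨0, by simp⟩
      refine hball.subset_closure ?_ ?_
      · intro z hz
        have hz' : ‖z‖ < 1 := by simpa using hz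
        refine ⟨by simpa using hz'.le, ?_⟩
        have : ‖z‖ ≠ 1 := ne_of_lt hz'
        simp [this]
      · rw [closure_ball (0:ℂ) one_ne_zero]
        intro z hz
        exact hz.1
    · have : {z : ℂ | z ∈ Metric.closedBall (0:ℂ) 1 ∧ (if ‖z‖ = 1 then z else 1) = y} = {y} := by
        ext z
        constructor
        · rintro ⟨-, hz⟩
          by_cases h : ‖z‖ = 1
          · rw [if_pos h] at hz; exact hz
          · rw [if_neg h] at hz; exact absurd hz.symm hy2
        · intro hz
          have hz' : z = y := hz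
          subst hz'
          exact ⟨by simp [hy1], by simp [hy1]⟩
      rw [this]
      exact isConnected_singleton
  · apply Set.Finite.subset (Set.finite_singleton (1:ℂ))
    rintro y ⟨hy, hbad⟩
    by_contra hy2
    have hy2' : y ≠ 1 := hy2
    apply hbad
    intro s hs hlim x hx
    have hy1 : ‖y‖ = 1 := by simpa using hy
    have hxy : x = y := by
      by_contra hne
      have hd : 0 < dist x y := dist_pos.2 hne
      have h1 : ∀ᶠ n in Filter.atTop, s n ≠ 1 := hlim.eventually_ne hy2'
      have h2 : ∀ᶠ n in Filter.atTop, dist (s n) y < dist x y / 2 :=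
        (Metric.tendsto_nhds.1 hlim) _ (half_pos hd)
      obtain ⟨N, hN⟩ := Filter.eventually_atTop.1 (h1.and h2)
      obtain ⟨n, hn, z, hz, hrz, hzx⟩ := hx (dist x y / 2) (half_pos hd) N
      obtain ⟨hn1, hn2⟩ := hN n hn
      have hrz' : (if ‖z‖ = 1 then z else 1) = s n := hrz
      have hzs : z = s n := by
        by_cases h : ‖z‖ = 1
        · rw [if_pos h] at hrz'; exact hrz'
        · rw [if_neg h] at hrz'; exact absurd hrz'.symm hn1
      subst hzs
      have := dist_triangle_left x y (s n)
      linarith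
    subst hxy
    simp [hy1]

end Pool.Agent.S13885
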