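import Pool.Statements.S14195
import Pool.Agent.MCB.ASM
import Pool.Agent.MCB.CA
import Pool.Agent.MCB.CS0
import Pool.Agent.MCB.CS1
import Pool.Agent.MCB.CS2
import Pool.Agent.MCB.CF2
import Pool.Agent.MCB.CA2
import Pool.Agent.MCB.CB2
import Pool.Agent.MCB.CC2
import Pool.Agent.MCB.CD2

set_option autoImplicit false
open Pool Pool.MP_f10237_gt

namespace Pool.Agent.S14195

/-- Every nonempty compact convex set in 3-space whose extent in every unit direction is exactly 1 has volume at least (2/3 − (√3/4)·arccos(1/3))·π, the volume of a Meissner body. -/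
theorem result :
    ∀ C : Set (EuclideanSpace ℝ (Fin 3)),
      C.Nonempty → IsCompact C → Convex ℝ C →
      (∀ u : EuclideanSpace ℝ (Fin 3), ‖u‖ = 1 →
        sSup ((fun x => @inner ℝ (EuclideanSpace ℝ (Fin 3)) _ x u) '' C)
          - sInf ((fun x => @inner ℝ (EuclideanSpace ℝ (Fin 3)) _ x u) '' C) = 1) →
      ENNReal.ofReal ((2 / 3 - Real.sqrt 3 / 4 * Real.arccos (1 / 3)) * Real.pi)
        ≤ MeasureTheory.volume C := by
  intro C h1 h2 h3 h4
  exact Pool.Agent.MCB.fin_all Pool.Agent.MCB.cell_A Pool.Agent.MCB.cell_S0 Pool.Agent.MCB.cell_S1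
    Pool.Agent.MCB.cell_S2 Pool.Agent.MCB.cell_F2 Pool.Agent.MCB.cell_A2 Pool.Agent.MCB.cell_B2
    Pool.Agent.MCB.cell_C2 Pool.Agent.MCB.cell_D2 C h1 h2 h3 h4

end Pool.Agent.S14195
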