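import Pool.Statements.S14710
import Pool.Agent.MP54a15d.Main

set_option autoImplicit false
open Topology
open Pool Pool.MP_54a15d_lc

namespace Pool.Agent.S14710

/-- The negation of the preceding statement: For any nonzero C*-algebra generated by two isometries with s1s1*+s2s2*=1 (that is, O_2), every Polish group embeds homeomorphically as a closed subgroup of its automorphism group with the point-norm topology. -/
theorem result :
    ¬ (∀ (A : Type) [CStarAlgebra A] [Nontrivial A] (s₁ s₂ : A),
    star s₁ * s₁ = 1 → star s₂ * s₂ = 1 → s₁ * star s₁ + s₂ * star s₂ = 1 →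
    (StarAlgebra.adjoin ℂ ({s₁, s₂} : Set A)).topologicalClosure = ⊤ →
    ∀ (G : Type) [Group G] [TopologicalSpace G] [IsTopologicalGroup G] [PolishSpace G],
      ∃ φ : G → (A ≃⋆ₐ[ℂ] A),
        (∀ g h : G, ∀ a : A, φ (g * h) a = φ g (φ h a)) ∧
        IsEmbedding (fun g : G => (⇑(φ g) : A → A)) ∧
        ∀ α : A ≃⋆ₐ[ℂ] A,
          (⇑α : A → A) ∈ closure (Set.range fun g : G => (⇑(φ g) : A → A)) →
            ∃ g : G, φ g = α) := by
  intro H
  haveI : PolishSpace (Multiplicative MP54a15d.GA) :=
    inferInstanceAs (PolishSpace MP54a15d.GA)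
  obtain ⟨φ, h1, h2, _⟩ := H MP54a15d.O2 (MP54a15d.gg false) (MP54a15d.gg true)
    (by simpa using MP54a15d.gg_rel false false) (by simpa using MP54a15d.gg_rel true true)
    MP54a15d.gg_sum MP54a15d.gg_gen (Multiplicative MP54a15d.GA)
  exact MP54a15d.no_faithful φ h1 h2.continuous h2.injective

end Pool.Agent.S14710
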