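import Pool.Statements.S14734
import Pool.Agent.SAX.FROZ
import Pool.Agent.SAX.FIN

set_option autoImplicit false
open scoped Classical
open Pool Pool.MP_57825d_lc

namespace Pool.Agent.S14734

/-- The negation of the preceding statement: There is a single c.e.-in-X operator (given by a code) whose value on every X lies strictly between X and the jump of X in Turing degree, and which sends Turing-equivalent oracles to Turing-equivalent sets. -/
theorem result :
    ¬ (∃ r : Nat.Partrec.Code,
      ∀ (W J : (ℕ → Bool) → ℕ → Prop) (χ : (ℕ → Prop) → ℕ →. ℕ),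
        (∀ (X : ℕ → Bool) (n : ℕ),
          W X n ↔ ∃ s : ℕ, (r.eval (Encodable.encode (n, (List.range s).map X))).Dom) →
        (∀ (X : ℕ → Bool) (p : ℕ),
          J X p ↔ ∃ s : ℕ,
            ((Denumerable.ofNat Nat.Partrec.Code p.unpair.1).eval
              (Encodable.encode (p.unpair.2, (List.range s).map X))).Dom) →
        (∀ (P : ℕ → Prop) (n : ℕ), χ P n = Part.some (if P n then 1 else 0)) →
        ∀ X Y : ℕ → Bool,
          (TuringReducible (χ (fun n => X n = true)) (χ (W X)) ∧
            ¬ TuringReducible (χ (W X)) (χ (fun n => X n = true)) ∧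
            TuringReducible (χ (W X)) (χ (J X)) ∧
            ¬ TuringReducible (χ (J X)) (χ (W X))) ∧
          ((TuringReducible (χ (fun n => X n = true)) (χ (fun n => Y n = true)) ∧
              TuringReducible (χ (fun n => Y n = true)) (χ (fun n => X n = true))) →
            (TuringReducible (χ (W X)) (χ (W Y)) ∧
              TuringReducible (χ (W Y)) (χ (W X))))) := by
  exact SAX.frozen_of fun r h1 h2 h3 h4 => SAX.not_sol r ⟨h1, h2, h3, h4⟩

end Pool.Agent.S14734
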