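-- Proof of the negation: Hindman's theorem is not strongly computably reducible to the
-- Pudlak-Rodl theorem.
import Pool.Statements.S14980

set_option autoImplicit false
open Pool Pool.MP_833c5c_lc

namespace Pool.Agent.S14980

/-! ### Basic notions -/

/-- The elements of `A` above `n`. -/
def above (A : Set ℕ) (n : ℕ) : Set ℕ := {x | x ∈ A ∧ n < x}

lemma above_subset (A : Set ℕ) (n : ℕ) : above A n ⊆ A := fun _ h => h.1

lemma above_infinite {A : Set ℕ} (hA : A.Infinite) (n : ℕ) : (above A n).Infinite := by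
  have h : above A n = A \ Set.Iic n := by
    ext x
    simp [above]
  rw [h]
  exact hA.sdiff (Set.finite_Iic n)

lemma above_mono {A B : Set ℕ} (h : A ⊆ B) (n : ℕ) : above A n ⊆ above B n :=
  fun _ hx => ⟨h hx.1, hx.2⟩

/-- `H'` agrees with `H` below `k`. -/
def agree (k : ℕ) (H H' : Set ℕ) : Prop := ∀ n < k, (n ∈ H' ↔ n ∈ H)

/-! ### Fusion -/

/-- A general fusion lemma with states. -/
theorem fusion {σ : Type} (le : σ → σ → Prop) (le_refl : ∀ x, le x x)
    (le_trans : ∀ x y z, le x y → le y z → le x z)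
    (R : ℕ → σ → Set ℕ → Prop) (A0 : Set ℕ) (hA0 : A0.Infinite)
    (hered : ∀ n x y A B, R n x A → le x y → B ⊆ A → R n y B)
    (dense : ∀ n x A, A ⊆ A0 → A.Infinite → ∃ y B, le x y ∧ B ⊆ A ∧ B.Infinite ∧ R n y B)
    (x0 : σ) :
    ∃ (x : ℕ → σ) (B : Set ℕ), le x0 (x 0) ∧ (∀ i j, i ≤ j → le (x i) (x j)) ∧ B ⊆ A0 ∧
      B.Infinite ∧ ∀ n ∈ B, ∃ i, R n (x i) (above B n) := by
  classical
  let T := {p : σ × Set ℕ // p.2 ⊆ A0 ∧ p.2.Infinite}
  have hstep : ∀ p : T, ∃ q : T, le p.1.1 q.1.1 ∧ q.1.2 ⊆ above p.1.2 (sInf p.1.2) ∧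
      R (sInf p.1.2) q.1.1 q.1.2 := by
    intro p
    obtain ⟨y, B, h1, h2, h3, h4⟩ := dense (sInf p.1.2) p.1.1 (above p.1.2 (sInf p.1.2))
      ((above_subset _ _).trans p.2.1) (above_infinite p.2.2 _)
    exact ⟨⟨(y, B), h2.trans ((above_subset _ _).trans p.2.1), h3⟩, h1, h2, h4⟩
  choose step hs1 hs2 hs3 using hstep
  let seq : ℕ → T := fun n => Nat.rec ⟨(x0, A0), subset_rfl, hA0⟩ (fun _ p => step p) n
  have hseq : ∀ n, seq (n + 1) = step (seq n) := fun n => rfl
  let a : ℕ → ℕ := fun n => sInf (seq n).1.2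
  have ha_mem : ∀ n, a n ∈ (seq n).1.2 := fun n => Nat.sInf_mem (seq n).2.2.nonempty
  have hsub : ∀ n, (seq (n + 1)).1.2 ⊆ above (seq n).1.2 (a n) := by
    intro n
    rw [hseq]
    exact hs2 (seq n)
  have hanti : ∀ n m, n ≤ m → (seq m).1.2 ⊆ (seq n).1.2 := by
    intro n m hnm
    induction hnm with
    | refl => exact subset_rfl
    | step _ ih => exact ((hsub _).trans (above_subset _ _)).trans ih
  have hamono : StrictMono a := by
    apply strictMono_nat_of_lt_succ
    intro n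
    exact (hsub n (ha_mem (n + 1))).2
  have hle : ∀ i j, i ≤ j → le (seq i).1.1 (seq j).1.1 := by
    intro i j hij
    induction hij with
    | refl => exact le_refl _
    | step _ ih =>
      refine le_trans _ _ _ ih ?_
      rw [Nat.succ_eq_add_one, hseq]
      exact hs1 _
  refine ⟨fun n => (seq n).1.1, Set.range a, le_refl _, hle, ?_, ?_, ?_⟩
  · rintro _ ⟨n, rfl⟩
    exact (seq n).2.1 (ha_mem n)
  · exact Set.infinite_range_of_injective hamono.injective
  · rintro _ ⟨n, rfl⟩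
    refine ⟨n + 1, ?_⟩
    have h := hs3 (seq n)
    rw [← hseq] at h
    refine hered _ _ _ _ _ h (le_refl _) ?_
    rintro _ ⟨⟨m, rfl⟩, hm⟩
    have hm' : n < m := hamono.lt_iff_lt.1 hm
    exact hanti (n + 1) m hm' (ha_mem m)

/-- Finitely many dense hereditary requirements can be met simultaneously. -/
theorem dense_finset {σ ι : Type} (le : σ → σ → Prop) (le_refl : ∀ x, le x x)
    (le_trans : ∀ x y z, le x y → le y z → le x z)
    (R : ι → σ → Set ℕ → Prop) (A0 : Set ℕ)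
    (hered : ∀ n x y A B, R n x A → le x y → B ⊆ A → R n y B) (T : Finset ι)
    (dense : ∀ n ∈ T, ∀ x A, A ⊆ A0 → A.Infinite →
      ∃ y B, le x y ∧ B ⊆ A ∧ B.Infinite ∧ R n y B) :
    ∀ x A, A ⊆ A0 → A.Infinite →
      ∃ y B, le x y ∧ B ⊆ A ∧ B.Infinite ∧ ∀ n ∈ T, R n y B := by
  classical
  induction T using Finset.induction_on with
  | empty =>
    intro x A _ hA
    exact ⟨x, A, le_refl x, subset_rfl, hA, by simp⟩
  | insert i T _ ih =>
    intro x A hA0 hA
    obtain ⟨y, B, h1, h2, h3, h4⟩ :=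
      ih (fun n hn => dense n (Finset.mem_insert_of_mem hn)) x A hA0 hA
    obtain ⟨z, C, k1, k2, k3, k4⟩ :=
      dense i (Finset.mem_insert_self _ _) y B (h2.trans hA0) h3
    refine ⟨z, C, le_trans _ _ _ h1 k1, k2.trans h2, k3, ?_⟩
    intro n hn
    rcases Finset.mem_insert.1 hn with rfl | hn
    · exact k4
    · exact hered _ _ _ _ _ (h4 n hn) k1 k2

/-- Fusion without states. -/
theorem fusion0 (R : ℕ → Set ℕ → Prop) (A0 : Set ℕ) (hA0 : A0.Infinite)
    (hered : ∀ n A B, R n A → B ⊆ A → R n B)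
    (dense : ∀ n A, A ⊆ A0 → A.Infinite → ∃ B, B ⊆ A ∧ B.Infinite ∧ R n B) :
    ∃ B ⊆ A0, B.Infinite ∧ ∀ n ∈ B, R n (above B n) := by
  obtain ⟨_, B, _, _, h1, h2, h3⟩ := fusion (σ := Unit) (fun _ _ => True) (fun _ => trivial)
    (fun _ _ _ _ _ => trivial) (fun n _ A => R n A) A0 hA0
    (fun n _ _ A B h _ h' => hered n A B h h')
    (fun n _ A hA hA' => by
      obtain ⟨B, h1, h2, h3⟩ := dense n A hA hA'
      exact ⟨(), B, trivial, h1, h2, h3⟩) ()
  refine ⟨B, h1, h2, fun n hn => ?_⟩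
  obtain ⟨_, h⟩ := h3 n hn
  exact h

theorem dense_finset0 {ι : Type} (R : ι → Set ℕ → Prop) (A0 : Set ℕ)
    (hered : ∀ n A B, R n A → B ⊆ A → R n B) (T : Finset ι)
    (dense : ∀ n ∈ T, ∀ A, A ⊆ A0 → A.Infinite → ∃ B, B ⊆ A ∧ B.Infinite ∧ R n B) :
    ∀ A, A ⊆ A0 → A.Infinite → ∃ B, B ⊆ A ∧ B.Infinite ∧ ∀ n ∈ T, R n B := by
  intro A hA hA'
  obtain ⟨_, B, _, h1, h2, h3⟩ := dense_finset (σ := Unit) (fun _ _ => True) (fun _ => trivial)
    (fun _ _ _ _ _ => trivial) (fun n _ A => R n A) A0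
    (fun n _ _ A B h _ h' => hered n A B h h') T
    (fun n hn _ A hA hA' => by
      obtain ⟨B, h1, h2, h3⟩ := dense n hn A hA hA'
      exact ⟨(), B, trivial, h1, h2, h3⟩) () A hA hA'
  exact ⟨B, h1, h2, h3⟩

/-! ### The open Ramsey theorem -/

/-- `P` is open relative to the infinite subsets of `A`. -/
def RelOpen (P : Set ℕ → Prop) (A : Set ℕ) : Prop :=
  ∀ H ⊆ A, H.Infinite → P H → ∃ k, ∀ H' ⊆ A, H'.Infinite → agree k H H' → P H'

lemma RelOpen.mono {P : Set ℕ → Prop} {A B : Set ℕ} (h : RelOpen P A) (hB : B ⊆ A) :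
    RelOpen P B := by
  intro H hH hi hP
  obtain ⟨k, hk⟩ := h H (hH.trans hB) hi hP
  exact ⟨k, fun H' h1 h2 h3 => hk H' (h1.trans hB) h2 h3⟩

lemma split_min {H : Set ℕ} (hH : H.Infinite) (s : Set ℕ) :
    s ∪ H = insert (sInf H) s ∪ above H (sInf H) := by
  have hm : sInf H ∈ H := Nat.sInf_mem hH.nonempty
  ext x
  constructor
  · rintro (hx | hx)
    · exact Or.inl (Set.mem_insert_of_mem _ hx)
    · rcases eq_or_lt_of_le (Nat.sInf_le hx) with h | h
      · exact Or.inl (Set.mem_insert_iff.2 (Or.inl h.symm))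
      · exact Or.inr ⟨hx, h⟩
  · rintro (hx | hx)
    · rcases Set.mem_insert_iff.1 hx with h | h
      · rw [h]
        exact Or.inr hm
      · exact Or.inl h
    · exact Or.inr hx.1

theorem openRamsey (P : Set ℕ → Prop) (A : Set ℕ) (hA : A.Infinite) (hP : RelOpen P A) :
    ∃ B ⊆ A, B.Infinite ∧
      ((∀ H ⊆ B, H.Infinite → P H) ∨ (∀ H ⊆ B, H.Infinite → ¬ P H)) := by
  classical
  let acc : Finset ℕ → Set ℕ → Prop := fun s C => ∀ H ⊆ C, H.Infinite → P (↑s ∪ H)
  have acc_mono : ∀ s C D, acc s C → D ⊆ C → acc s D :=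
    fun s C D h hD H hH hi => h H (hH.trans hD) hi
  let dec : Finset ℕ → Set ℕ → Prop := fun s C => acc s C ∨ ∀ D ⊆ C, D.Infinite → ¬ acc s D
  have dec_mono : ∀ s C D, dec s C → D ⊆ C → dec s D := by
    intro s C D h hD
    rcases h with h | h
    · exact Or.inl (acc_mono s C D h hD)
    · exact Or.inr fun E hE => h E (hE.trans hD)
  have dec_dense : ∀ s C, C.Infinite → ∃ D, D ⊆ C ∧ D.Infinite ∧ dec s D := by
    intro s C hC
    by_cases h : ∃ D ⊆ C, D.Infinite ∧ acc s D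
    · obtain ⟨D, h1, h2, h3⟩ := h
      exact ⟨D, h1, h2, Or.inl h3⟩
    · push Not at h
      exact ⟨C, subset_rfl, hC, Or.inr h⟩
  -- first fusion
  obtain ⟨A1, hA1, hA1i, hdec0⟩ := dec_dense ∅ A hA
  obtain ⟨C, hCA1, hCi, hdec⟩ := fusion0
    (fun n D => ∀ s ∈ (Finset.range (n + 1)).powerset, dec s D) A1 hA1i
    (fun n D E h hE s hs => dec_mono s D E (h s hs) hE)
    (fun n D hD hDi => dense_finset0 dec A1 (fun s D E h hE => dec_mono s D E h hE) _
      (fun s _ D _ hDi => dec_dense s D hDi) D hD hDi)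
  have hCA : C ⊆ A := hCA1.trans hA1
  let rej : Finset ℕ → Prop := fun s => ∀ D ⊆ C, D.Infinite → ¬ acc s D
  have hdec' : ∀ n ∈ C, ∀ s : Finset ℕ, s ⊆ Finset.range (n + 1) →
      ¬ rej s → acc s (above C n) := by
    intro n hn s hs hrej
    rcases hdec n hn s (Finset.mem_powerset.2 hs) with h | h
    · exact h
    · exfalso
      apply hrej
      intro D hD hDi hacc
      exact h (above D n) (above_mono hD n) (above_infinite hDi n)
        (acc_mono s D _ hacc (above_subset _ _))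
  by_cases hrej0 : rej ∅
  swap
  · -- acceptance of the empty set
    refine ⟨C, hCA, hCi, Or.inl ?_⟩
    rcases dec_mono _ _ _ hdec0 hCA1 with h | h
    · intro H hH hi
      have := h H hH hi
      simpa using this
    · exact absurd h hrej0
  -- rejection
  have hfin : ∀ s : Finset ℕ, rej s →
      {m | m ∈ C ∧ (∀ x ∈ s, x < m) ∧ ¬ rej (insert m s)}.Finite := by
    intro s hs
    by_contra hinf
    have hinf' : {m | m ∈ C ∧ (∀ x ∈ s, x < m) ∧ ¬ rej (insert m s)}.Infinite := hinf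
    refine hs _ (fun m hm => hm.1) hinf' ?_
    intro H hH hi
    have hm : sInf H ∈ H := Nat.sInf_mem hi.nonempty
    obtain ⟨h1, h2, h3⟩ := hH hm
    have hacc := hdec' (sInf H) h1 (insert (sInf H) s) (by
      intro x hx
      rcases Finset.mem_insert.1 hx with h | h
      · simp [h]
      · have := h2 x h
        simp only [Finset.mem_range]
        omega) h3
    have h4 := hacc (above H (sInf H)) (above_mono (fun x hx => (hH hx).1) _)
      (above_infinite hi _)
    rw [split_min hi]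
    rw [Finset.coe_insert] at h4
    exact h4
  have hdense2 : ∀ (n : ℕ) (s : Finset ℕ) (D : Set ℕ), D.Infinite → ∃ E, E ⊆ D ∧ E.Infinite ∧
      ((∀ x ∈ s, x ≤ n) → rej s → ∀ m ∈ E, m ∈ C → n < m → rej (insert m s)) := by
    intro n s D hD
    by_cases hs : rej s
    · refine ⟨D \ {m | m ∈ C ∧ (∀ x ∈ s, x < m) ∧ ¬ rej (insert m s)}, Set.sdiff_subset,
        hD.sdiff (hfin s hs), ?_⟩
      intro hsn _ m hm hmC hnm
      by_contra hcon
      exact hm.2 ⟨hmC, fun x hx => lt_of_le_of_lt (hsn x hx) hnm, hcon⟩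
    · exact ⟨D, subset_rfl, hD, fun _ h => absurd h hs⟩
  let C' : Set ℕ := C \ {m | m ∈ C ∧ (∀ x ∈ (∅ : Finset ℕ), x < m) ∧ ¬ rej (insert m ∅)}
  have hC'i : C'.Infinite := hCi.sdiff (hfin ∅ hrej0)
  obtain ⟨B, hBC', hBi, hB⟩ := fusion0
    (fun n D => ∀ s ∈ (Finset.range (n + 1)).powerset,
      ((∀ x ∈ s, x ≤ n) → rej s → ∀ m ∈ D, m ∈ C → n < m → rej (insert m s))) C' hC'i
    (fun n D E h hE s hs h1 h2 m hm => h s hs h1 h2 m (hE hm))
    (fun n D hD hDi => dense_finset0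
      (fun s D => ((∀ x ∈ s, x ≤ n) → rej s → ∀ m ∈ D, m ∈ C → n < m → rej (insert m s))) C'
      (fun s D E h hE h1 h2 m hm => h h1 h2 m (hE hm)) _
      (fun s _ D _ hDi => hdense2 n s D hDi) D hD hDi)
  have hBC : B ⊆ C := hBC'.trans Set.sdiff_subset
  have hall : ∀ s : Finset ℕ, (↑s : Set ℕ) ⊆ B → rej s := by
    intro s
    induction s using Finset.induction_on_max with
    | empty => exact fun _ => hrej0
    | insert m s hm ih =>
      intro hsB
      have hmB : m ∈ B := hsB (by simp)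
      have hsB' : (↑s : Set ℕ) ⊆ B := fun x hx => hsB (by
        simp only [Finset.coe_insert]
        exact Set.mem_insert_of_mem _ hx)
      have hrs := ih hsB'
      rcases s.eq_empty_or_nonempty with rfl | hne
      · by_contra hcon
        have := hBC' hmB
        exact this.2 ⟨this.1, by simp, hcon⟩
      · have hn : s.max' hne ∈ s := Finset.max'_mem s hne
        have hle : ∀ x ∈ s, x ≤ s.max' hne := fun x hx => Finset.le_max' s x hx
        refine hB (s.max' hne) (hsB' hn) s ?_ hle hrs m ⟨hmB, hm _ hn⟩ (hBC hmB) (hm _ hn)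
        rw [Finset.mem_powerset]
        intro x hx
        have := hle x hx
        simp only [Finset.mem_range]
        omega
  refine ⟨B, hBC.trans hCA, hBi, Or.inr ?_⟩
  intro H hH hi hPH
  obtain ⟨k, hk⟩ := hP H (hH.trans (hBC.trans hCA)) hi hPH
  obtain ⟨m, hmH, hkm⟩ := hi.exists_gt k
  let s : Finset ℕ := (Finset.range (m + 1)).filter (· ∈ H)
  have hs : ∀ x, x ∈ s ↔ x ≤ m ∧ x ∈ H := by
    intro x
    simp [s]
  have hrs : rej s := hall s (fun x hx => hH ((hs x).1 hx).2)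
  refine hrs (above C m) (above_subset _ _) (above_infinite hCi m) ?_
  intro K hK hKi
  refine hk _ ?_ ?_ ?_
  · rintro x (hx | hx)
    · exact hCA (hBC (hH ((hs x).1 hx).2))
    · exact hCA (hK hx).1
  · exact hKi.mono Set.subset_union_right
  · intro n hn
    constructor
    · rintro (hx | hx)
      · exact ((hs n).1 hx).2
      · have := (hK hx).2
        omega
    · intro hx
      exact Or.inl ((hs n).2 ⟨by omega, hx⟩)

/-! ### The main lemma: continuous images without FS-sets -/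

/-- `G` is continuous on the infinite subsets of `A`. -/
def ContOn (G : Set ℕ → ℕ) (A : Set ℕ) : Prop :=
  ∀ H ⊆ A, H.Infinite → ∃ k, ∀ H' ⊆ A, H'.Infinite → agree k H H' → G H' = G H

/-- `D` contains no set of all finite sums of a stream of positive integers. -/
def NoFS (D : Set ℕ) : Prop := ∀ a : Stream' ℕ+, ∃ x ∈ Hindman.FS a, (x : ℕ) ∉ D

lemma parity_ne (u d : ℕ) (hd : 0 < d) : (u + d) / d % 2 ≠ u / d % 2 := by
  rw [Nat.add_div_right _ hd]
  omega

theorem mainLemma (G : Set ℕ → ℕ) (A : Set ℕ) (hA : A.Infinite) (hG : ContOn G A) :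
    ∃ B ⊆ A, B.Infinite ∧ NoFS {v | ∃ H ⊆ B, H.Infinite ∧ G H = v} := by
  classical
  -- fusion: parity of quotients is decided
  obtain ⟨B, hBA, hBi, hB⟩ := fusion0
    (fun n D => ∀ q ∈ (Finset.range (n + 1)).powerset ×ˢ Finset.range (n + 1),
      (↑q.1 : Set ℕ) ⊆ A → ∃ p : Prop, ∀ H ⊆ D, H.Infinite →
        ((G (↑q.1 ∪ H) / q.2) % 2 = 0 ↔ p)) A hA
    (fun n D E h hE q hq hqA => by
      obtain ⟨p, hp⟩ := h q hq hqA
      exact ⟨p, fun H hH => hp H (hH.trans hE)⟩)
    (fun n D hD hDi => dense_finset0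
      (fun (q : Finset ℕ × ℕ) D => (↑q.1 : Set ℕ) ⊆ A → ∃ p : Prop, ∀ H ⊆ D, H.Infinite →
        ((G (↑q.1 ∪ H) / q.2) % 2 = 0 ↔ p)) A
      (fun q D E h hE hqA => by
        obtain ⟨p, hp⟩ := h hqA
        exact ⟨p, fun H hH => hp H (hH.trans hE)⟩) _
      (fun q _ D hDA hDi => by
        by_cases hqA : (↑q.1 : Set ℕ) ⊆ A
        swap
        · exact ⟨D, subset_rfl, hDi, fun h => absurd h hqA⟩
        obtain ⟨E, hED, hEi, hE⟩ := openRamsey
          (fun H => (G (↑q.1 ∪ H) / q.2) % 2 = 0) D hDi (by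
            intro H hH hHi hP
            obtain ⟨k, hk⟩ := hG (↑q.1 ∪ H) (Set.union_subset hqA (hH.trans hDA))
              (hHi.mono Set.subset_union_right)
            refine ⟨k, fun H' hH' hHi' hag => ?_⟩
            have h1 := hk (↑q.1 ∪ H') (Set.union_subset hqA (hH'.trans hDA))
              (hHi'.mono Set.subset_union_right) (by
                intro n hn
                simp only [Set.mem_union, hag n hn])
            simp only [h1]
            exact hP)
        rcases hE with hE | hE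
        · exact ⟨E, hED, hEi, fun _ => ⟨True, fun H hH hHi => by simpa using hE H hH hHi⟩⟩
        · exact ⟨E, hED, hEi, fun _ => ⟨False, fun H hH hHi => by simpa using hE H hH hHi⟩⟩)
      D hD hDi)
  refine ⟨B, hBA, hBi, ?_⟩
  by_contra hcon
  unfold NoFS at hcon
  push Not at hcon
  obtain ⟨a0, ha0⟩ := hcon
  let Q : Finset ℕ → Prop := fun r => (↑r : Set ℕ) ⊆ B ∧ ∃ (c : ℕ) (a : Stream' ℕ+),
    ∀ x ∈ Hindman.FS a, ∃ H ⊆ B, H.Infinite ∧ (∀ y ∈ H, ∀ z ∈ r, z < y) ∧
      G (↑r ∪ H) = c + (x : ℕ)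
  have hQ0 : Q ∅ := by
    refine ⟨by simp, 0, a0, fun x hx => ?_⟩
    obtain ⟨H, h1, h2, h3⟩ := ha0 x hx
    exact ⟨H, h1, h2, by simp, by simpa using h3⟩
  have hQstep : ∀ r, Q r → ∃ n ∈ B, (∀ z ∈ r, z < n) ∧ Q (insert n r) := by
    rintro r ⟨hrB, c, a, ha⟩
    choose! HH hH1 hH2 hH3 hH4 using ha
    obtain ⟨k, hkB, hk⟩ := hBi.exists_gt (max (r.sup id) (a.head : ℕ))
    have hkr : ∀ z ∈ r, z ≤ k := by
      intro z hz
      have h1 : z ≤ r.sup id := Finset.le_sup (f := id) hz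
      have h2 := lt_of_le_of_lt (le_max_left _ _) hk
      omega
    have hka : (a.head : ℕ) < k := lt_of_le_of_lt (le_max_right _ _) hk
    obtain ⟨p, hp⟩ := hB k hkB (r, (a.head : ℕ)) (by
      rw [Finset.mem_product]
      constructor
      · rw [Finset.mem_powerset]
        intro x hx
        have := hkr x hx
        simp only [Finset.mem_range]
        omega
      · simp only [Finset.mem_range]
        omega) (hrB.trans hBA)
    simp only at hp
    have hhead : 0 < (a.head : ℕ) := a.head.pos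
    have hinf : ∀ x ∈ Hindman.FS a, sInf (HH x) ∈ HH x := fun x hx =>
      Nat.sInf_mem (hH2 x hx).nonempty
    have hkey : ∀ y ∈ Hindman.FS a.tail,
        sInf (HH y) ≤ k ∨ sInf (HH (a.head + y)) ≤ k := by
      intro y hy
      by_contra hcon
      push Not at hcon
      obtain ⟨c1, c2⟩ := hcon
      have hy1 : y ∈ Hindman.FS a := Hindman.FS.tail' _ _ hy
      have hy2 : a.head + y ∈ Hindman.FS a := Hindman.FS.cons' _ _ hy
      have e1 := hp (HH y) (fun x hx => ⟨hH1 y hy1 hx, lt_of_lt_of_le c1 (Nat.sInf_le hx)⟩)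
        (hH2 y hy1)
      have e2 := hp (HH (a.head + y))
        (fun x hx => ⟨hH1 _ hy2 hx, lt_of_lt_of_le c2 (Nat.sInf_le hx)⟩) (hH2 _ hy2)
      rw [hH4 y hy1] at e1
      rw [hH4 _ hy2] at e2
      have e3 : c + ((a.head + y : ℕ+) : ℕ) = (c + (y : ℕ)) + (a.head : ℕ) := by
        rw [PNat.add_coe]
        omega
      rw [e3] at e2
      have e4 := parity_ne (c + (y : ℕ)) (a.head : ℕ) hhead
      have e5 : ((c + (y : ℕ)) / (a.head : ℕ) % 2 = 0) ↔
        ((c + (y : ℕ) + (a.head : ℕ)) / (a.head : ℕ) % 2 = 0) := e1.trans e2.symm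
      have h6 := Nat.mod_lt ((c + (y : ℕ)) / (a.head : ℕ)) (show 0 < 2 by norm_num)
      have h7 := Nat.mod_lt ((c + (y : ℕ) + (a.head : ℕ)) / (a.head : ℕ))
        (show 0 < 2 by norm_num)
      by_cases h8 : (c + (y : ℕ)) / (a.head : ℕ) % 2 = 0
      · have := e5.1 h8
        omega
      · have h9 : ¬ ((c + (y : ℕ) + (a.head : ℕ)) / (a.head : ℕ) % 2 = 0) :=
          fun h => h8 (e5.2 h)
        omega
    let Cell : Fin (k + 1) × Bool → Set ℕ+ := fun q =>
      {y | y ∈ Hindman.FS a.tail ∧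
        (if q.2 then sInf (HH y) else sInf (HH (a.head + y))) = (q.1 : ℕ)}
    obtain ⟨C, ⟨q, rfl⟩, b, hb⟩ := Hindman.FS_partition_regular a.tail (Set.range Cell)
      (Set.finite_range _) (by
        intro y hy
        rw [Set.mem_sUnion]
        rcases hkey y hy with h | h
        · exact ⟨_, ⟨(⟨sInf (HH y), by omega⟩, true), rfl⟩, hy, by simp⟩
        · exact ⟨_, ⟨(⟨sInf (HH (a.head + y)), by omega⟩, false), rfl⟩, hy, by simp⟩)
    obtain ⟨⟨n, hn⟩, i⟩ := q
    have hbh : b.head ∈ Hindman.FS b := Hindman.FS.head' b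
    -- a uniform treatment of both cases
    obtain ⟨c', KK, hKK⟩ : ∃ (c' : ℕ) (KK : ℕ+ → Set ℕ), ∀ x ∈ Hindman.FS b,
        KK x ⊆ B ∧ (KK x).Infinite ∧ (∀ y ∈ KK x, ∀ z ∈ r, z < y) ∧
        G (↑r ∪ KK x) = c' + (x : ℕ) ∧ sInf (KK x) = n := by
      cases i with
      | true =>
        refine ⟨c, HH, fun x hx => ?_⟩
        obtain ⟨h1, h2⟩ := hb hx
        have h3 : x ∈ Hindman.FS a := Hindman.FS.tail' _ _ h1
        exact ⟨hH1 x h3, hH2 x h3, hH3 x h3, hH4 x h3, by simpa using h2⟩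
      | false =>
        refine ⟨c + (a.head : ℕ), fun x => HH (a.head + x), fun x hx => ?_⟩
        obtain ⟨h1, h2⟩ := hb hx
        have h3 : a.head + x ∈ Hindman.FS a := Hindman.FS.cons' _ _ h1
        refine ⟨hH1 _ h3, hH2 _ h3, hH3 _ h3, ?_, by simpa using h2⟩
        rw [hH4 _ h3, PNat.add_coe]
        omega
    have hnK : ∀ x ∈ Hindman.FS b, n ∈ KK x := by
      intro x hx
      obtain ⟨_, h2, _, _, h5⟩ := hKK x hx
      rw [← h5]
      exact Nat.sInf_mem h2.nonempty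
    refine ⟨n, (hKK _ hbh).1 (hnK _ hbh), (hKK _ hbh).2.2.1 n (hnK _ hbh), ?_⟩
    refine ⟨?_, c', b, fun x hx => ?_⟩
    · rw [Finset.coe_insert]
      exact Set.insert_subset ((hKK _ hbh).1 (hnK _ hbh)) hrB
    · obtain ⟨h1, h2, h3, h4, h5⟩ := hKK x hx
      refine ⟨above (KK x) n, (above_subset _ _).trans h1, above_infinite h2 n, ?_, ?_⟩
      · intro y hy z hz
        rcases Finset.mem_insert.1 hz with rfl | hz
        · exact hy.2
        · exact h3 y hy.1 z hz
      · rw [← h4, split_min h2, h5, Finset.coe_insert]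
  -- the infinite branch
  choose! nx hnx1 hnx2 hnx3 using hQstep
  let seq : ℕ → Finset ℕ := fun i => Nat.rec ∅ (fun _ r => insert (nx r) r) i
  have hseq : ∀ i, seq (i + 1) = insert (nx (seq i)) (seq i) := fun i => rfl
  have hQs : ∀ i, Q (seq i) := by
    intro i
    induction i with
    | zero => exact hQ0
    | succ i ih =>
      rw [hseq]
      exact hnx3 _ ih
  let e : ℕ → ℕ := fun i => nx (seq i)
  have hmem : ∀ i j, i < j → e i ∈ seq j := by
    intro i j hij
    induction hij with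
    | refl =>
      rw [Nat.succ_eq_add_one, hseq]
      exact Finset.mem_insert_self _ _
    | step _ ih =>
      rw [Nat.succ_eq_add_one, hseq]
      exact Finset.mem_insert_of_mem ih
  have hemono : StrictMono e := by
    apply strictMono_nat_of_lt_succ
    intro i
    exact hnx2 _ (hQs (i + 1)) _ (hmem i (i + 1) (Nat.lt_succ_self i))
  have hmem2 : ∀ j, ∀ z ∈ seq j, ∃ i < j, z = e i := by
    intro j
    induction j with
    | zero =>
      intro z hz
      exact absurd hz (Finset.notMem_empty z)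
    | succ j ih =>
      intro z hz
      rw [hseq] at hz
      rcases Finset.mem_insert.1 hz with h | h
      · exact ⟨j, Nat.lt_succ_self j, h⟩
      · obtain ⟨i, hi, hz'⟩ := ih z h
        exact ⟨i, Nat.lt_succ_of_lt hi, hz'⟩
  have hHB : Set.range e ⊆ B := by
    rintro _ ⟨i, rfl⟩
    exact hnx1 _ (hQs i)
  have hHi : (Set.range e).Infinite := Set.infinite_range_of_injective hemono.injective
  obtain ⟨k, hk⟩ := hG (Set.range e) (hHB.trans hBA) hHi
  have hek : k ≤ e k := hemono.le_apply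
  obtain ⟨hrB, c, a, ha⟩ := hQs (k + 1)
  have hconst : ∀ x ∈ Hindman.FS a, c + (x : ℕ) = G (Set.range e) := by
    intro x hx
    obtain ⟨H, h1, h2, h3, h4⟩ := ha x hx
    rw [← h4]
    refine hk _ (Set.union_subset (hrB.trans hBA) (h1.trans hBA))
      (h2.mono Set.subset_union_right) ?_
    intro t ht
    constructor
    · rintro (h | h)
      · obtain ⟨i, _, hi⟩ := hmem2 (k + 1) t (Finset.mem_coe.1 h)
        exact ⟨i, hi.symm⟩
      · have := h3 t h (e k) (hmem k (k + 1) (Nat.lt_succ_self k))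
        omega
    · rintro ⟨i, rfl⟩
      left
      have : i < k + 1 := by
        by_contra hcon
        have h5 : e (k + 1) ≤ e i := hemono.monotone (show k + 1 ≤ i by omega)
        have h6 : e k < e (k + 1) := hemono (Nat.lt_succ_self k)
        omega
      exact hmem i (k + 1) this
  have h1 := hconst _ (Hindman.FS.head' a)
  have h2 := hconst _ (Hindman.FS.cons' a _ (Hindman.FS.head' a.tail))
  rw [PNat.add_coe] at h2
  have h3 : 0 < (a.tail.head : ℕ) := a.tail.head.pos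
  omega

lemma NoFS.union {D E : Set ℕ} (hD : NoFS D) (hE : NoFS E) : NoFS (D ∪ E) := by
  intro a
  by_contra hcon
  push Not at hcon
  obtain ⟨C, hC, b, hb⟩ := Hindman.FS_partition_regular a
    {{x : ℕ+ | (x : ℕ) ∈ D}, {x : ℕ+ | (x : ℕ) ∈ E}} (by simp) (by
      intro y hy
      rw [Set.mem_sUnion]
      rcases hcon y hy with h | h
      · exact ⟨{x : ℕ+ | (x : ℕ) ∈ D}, by simp, h⟩
      · exact ⟨{x : ℕ+ | (x : ℕ) ∈ E}, by simp, h⟩)
  rcases hC with rfl | hC
  · obtain ⟨x, hx1, hx2⟩ := hD b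
    exact hx2 (hb hx1)
  · rw [Set.mem_singleton_iff] at hC
    subst hC
    obtain ⟨x, hx1, hx2⟩ := hE b
    exact hx2 (hb hx1)

lemma NoFS.empty : NoFS ∅ := fun a => ⟨a.head, Hindman.FS.head' a, by simp⟩

/-- The set of finite sums of distinct elements of `X`. -/
def fsum (X : Set ℕ) : Set ℕ := {t | ∃ v : Finset ℕ, v.Nonempty ∧ (↑v : Set ℕ) ⊆ X ∧ ∑ i ∈ v, i = t}

lemma FS_index (a : Stream' ℕ+) (x : ℕ+) (hx : x ∈ Hindman.FS a) :
    ∃ v : Finset ℕ, v.Nonempty ∧ (x : ℕ) = ∑ i ∈ v, (a.get i : ℕ) := by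
  induction hx with
  | head' a => exact ⟨{0}, by simp, by simp [Stream'.head]⟩
  | tail' a m _ ih =>
    obtain ⟨v, h1, h2⟩ := ih
    refine ⟨v.map ⟨Nat.succ, Nat.succ_injective⟩, by simpa using h1, ?_⟩
    rw [h2, Finset.sum_map]
    rfl
  | cons' a m _ ih =>
    obtain ⟨v, h1, h2⟩ := ih
    refine ⟨insert 0 (v.map ⟨Nat.succ, Nat.succ_injective⟩), by simp, ?_⟩
    rw [Finset.sum_insert (by simp), Finset.sum_map, PNat.add_coe, h2]
    rfl

lemma exists_fsum_notMem {X D : Set ℕ} (hX : X.Infinite) (hpos : ∀ x ∈ X, 0 < x)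
    (hD : NoFS D) : ∃ t ∈ fsum X, t ∉ D := by
  classical
  let a : Stream' ℕ+ := fun n => ⟨Nat.nth (· ∈ X) n, hpos _ (Nat.nth_mem_of_infinite hX n)⟩
  obtain ⟨x, hx, hxD⟩ := hD a
  obtain ⟨v, hv, hxv⟩ := FS_index a x hx
  refine ⟨(x : ℕ), ⟨v.image (Nat.nth (· ∈ X)), hv.image _, ?_, ?_⟩, hxD⟩
  · intro y hy
    rw [Finset.coe_image] at hy
    obtain ⟨n, _, rfl⟩ := hy
    exact Nat.nth_mem_of_infinite hX n
  · have hinj : Function.Injective (Nat.nth (· ∈ X)) := Nat.nth_injective hX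
    rw [hxv, Finset.sum_image (fun i _ j _ h => hinj h)]
    rfl

/-! ### Killing one functional -/

/-- Open set-valued maps. -/
def OpenMap (W : Set ℕ → Set ℕ) : Prop := ∀ H, ∀ x ∈ W H, ∃ k, ∀ H', agree k H H' → x ∈ W H'

lemma agree.refl (k : ℕ) (H : Set ℕ) : agree k H H := fun _ _ => Iff.rfl

lemma agree.symm {k : ℕ} {H H' : Set ℕ} (h : agree k H H') : agree k H' H :=
  fun n hn => (h n hn).symm

lemma agree.trans {k : ℕ} {H H' H'' : Set ℕ} (h : agree k H H') (h' : agree k H' H'') :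
    agree k H H'' := fun n hn => (h' n hn).trans (h n hn)

lemma agree.mono {k l : ℕ} {H H' : Set ℕ} (h : agree k H H') (hl : l ≤ k) : agree l H H' :=
  fun n hn => h n (lt_of_lt_of_le hn hl)

lemma agree.union {k : ℕ} {H H' : Set ℕ} (s : Set ℕ) (h : agree k H H') :
    agree k (s ∪ H) (s ∪ H') := by
  intro n hn
  simp only [Set.mem_union, h n hn]

theorem halfStep (W : Set ℕ → Set ℕ) (hW : OpenMap W) (s : Finset ℕ) (D : Set ℕ) (hD : NoFS D)
    (A : Set ℕ) (hA : A.Infinite) :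
    ∃ B, B ⊆ A ∧ B.Infinite ∧ ∃ S : Set ℕ, NoFS S ∧ Disjoint D S ∧
      ∀ H ⊆ B, H.Infinite → (W (↑s ∪ H)).Infinite → (∀ x ∈ W (↑s ∪ H), 0 < x) →
        ∃ t ∈ fsum (W (↑s ∪ H)), t ∈ S := by
  classical
  let Good : ℕ → Set ℕ → ℕ → Prop := fun k H t => t ∉ D ∧ ∃ v : Finset ℕ, v.Nonempty ∧
    ∑ i ∈ v, i = t ∧ ∀ x ∈ v, ∀ H', agree k H H' → x ∈ W (↑s ∪ H')
  have hGood : ∀ k H H' t, agree k H H' → Good k H t → Good k H' t := by
    rintro k H H' t hag ⟨h1, v, h2, h3, h4⟩
    exact ⟨h1, v, h2, h3, fun x hx H'' h => h4 x hx H'' (hag.trans h)⟩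
  have hGood2 : ∀ k H t, Good k H t → t ∈ fsum (W (↑s ∪ H)) := by
    rintro k H t ⟨_, v, h2, h3, h4⟩
    exact ⟨v, h2, fun x hx => h4 x hx H (agree.refl k H), h3⟩
  have hGood3 : ∀ H, ∀ t ∈ fsum (W (↑s ∪ H)), t ∉ D → ∃ k, Good k H t := by
    rintro H t ⟨v, h1, h2, h3⟩ htD
    have hk : ∀ x ∈ v, ∃ k, ∀ H', agree k (↑s ∪ H) H' → x ∈ W H' := fun x hx => hW _ x (h2 hx)
    choose! kk hkk using hk
    refine ⟨v.sup kk, htD, v, h1, h3, fun x hx H' hag => ?_⟩
    exact hkk x hx _ ((hag.mono (Finset.le_sup hx)).union _)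
  let P : Set ℕ → Prop := fun H => ∃ k t, Good k H t
  obtain ⟨B1, hB1A, hB1i, hB1⟩ := openRamsey P A hA (by
    rintro H _ _ ⟨k, t, hg⟩
    exact ⟨k, fun H' _ _ hag => ⟨k, t, hGood k H H' t hag hg⟩⟩)
  rcases hB1 with hB1 | hB1
  swap
  · refine ⟨B1, hB1A, hB1i, ∅, NoFS.empty, disjoint_bot_right, ?_⟩
    intro H hH hHi hWi hpos
    obtain ⟨t, ht1, ht2⟩ := exists_fsum_notMem hWi hpos hD
    obtain ⟨k, hk⟩ := hGood3 H t ht1 ht2
    exact absurd ⟨k, t, hk⟩ (hB1 H hH hHi)
  let kk : Set ℕ → ℕ := fun H => sInf {k | ∃ t, Good k H t}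
  let G : Set ℕ → ℕ := fun H => sInf {t | Good (kk H) H t}
  have hkk : ∀ H, P H → ∃ t, Good (kk H) H t := by
    rintro H ⟨k, t, h⟩
    exact Nat.sInf_mem (s := {k | ∃ t, Good k H t}) ⟨k, t, h⟩
  have hGH : ∀ H, P H → Good (kk H) H (G H) := by
    intro H hP
    exact Nat.sInf_mem (s := {t | Good (kk H) H t}) (hkk H hP)
  have hcont : ContOn G B1 := by
    intro H hH hHi
    have hP := hB1 H hH hHi
    refine ⟨kk H, fun H' _ _ hag => ?_⟩
    have h1 : kk H' = kk H := by
      apply le_antisymm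
      · refine Nat.sInf_le ?_
        obtain ⟨t, ht⟩ := hkk H hP
        exact ⟨t, hGood _ _ _ _ hag ht⟩
      · obtain ⟨t, ht⟩ := hkk H hP
        have hP' : P H' := ⟨kk H, t, hGood _ _ _ _ hag ht⟩
        have hle : kk H' ≤ kk H := Nat.sInf_le ⟨t, hGood _ _ _ _ hag ht⟩
        obtain ⟨t', ht'⟩ := hkk H' hP'
        exact Nat.sInf_le ⟨t', hGood _ _ _ _ (hag.symm.mono hle) ht'⟩
    have h2 : {t | Good (kk H') H' t} = {t | Good (kk H) H t} := by
      ext t
      simp only [Set.mem_ofPred_eq, h1]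
      exact ⟨hGood _ _ _ _ hag.symm, hGood _ _ _ _ hag⟩
    simp only [G, h2]
  obtain ⟨B, hBB1, hBi, hB⟩ := mainLemma G B1 hB1i hcont
  refine ⟨B, hBB1.trans hB1A, hBi, _, hB, ?_, ?_⟩
  · rw [Set.disjoint_left]
    rintro x hx ⟨H, h1, h2, rfl⟩
    exact (hGH H (hB1 H (h1.trans hBB1) h2)).1 hx
  · intro H hH hHi _ _
    exact ⟨G H, hGood2 _ _ _ (hGH H (hB1 H (hH.trans hBB1) hHi)), H, hH, hHi, rfl⟩

/-- The states of the construction: the numbers coloured `0` and those coloured `1`. -/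
def St : Type := {p : Set ℕ × Set ℕ // Disjoint p.1 p.2 ∧ NoFS (p.1 ∪ p.2)}

/-- Extension of states. -/
def St.le (p q : St) : Prop := p.1.1 ⊆ q.1.1 ∧ p.1.2 ⊆ q.1.2

/-- The functional `W` with stem `s` is defeated below `A`. -/
def Killed (p : St) (W : Set ℕ → Set ℕ) (s : Finset ℕ) (A : Set ℕ) : Prop :=
  ∀ H ⊆ A, H.Infinite → (W (↑s ∪ H)).Infinite → (∀ x ∈ W (↑s ∪ H), 0 < x) →
    (∃ t ∈ fsum (W (↑s ∪ H)), t ∈ p.1.1) ∧ (∃ t ∈ fsum (W (↑s ∪ H)), t ∈ p.1.2)

theorem fullStep (W : Set ℕ → Set ℕ) (hW : OpenMap W) (s : Finset ℕ) (p : St)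
    (A : Set ℕ) (hA : A.Infinite) :
    ∃ (q : St) (B : Set ℕ), St.le p q ∧ B ⊆ A ∧ B.Infinite ∧ Killed q W s B := by
  obtain ⟨B1, h1, h2, S1, h3, h4, h5⟩ := halfStep W hW s _ p.2.2 A hA
  obtain ⟨B2, k1, k2, S2, k3, k4, k5⟩ := halfStep W hW s _ (p.2.2.union h3) B1 h2
  have hdis : Disjoint (p.1.1 ∪ S1) (p.1.2 ∪ S2) := by
    rw [Set.disjoint_left] at *
    rintro x (hx | hx) (hy | hy)
    · exact (Set.disjoint_left.1 p.2.1) hx hy
    · exact k4 (Or.inl (Or.inl hx)) hy
    · exact h4 (Or.inr hy) hx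
    · exact k4 (Or.inr hx) hy
  have hno : NoFS ((p.1.1 ∪ S1) ∪ (p.1.2 ∪ S2)) := by
    have h := (p.2.2.union h3).union k3
    have e : (p.1.1 ∪ S1) ∪ (p.1.2 ∪ S2) = p.1.1 ∪ p.1.2 ∪ S1 ∪ S2 := by
      ext x
      simp only [Set.mem_union]
      tauto
    rw [e]
    exact h
  refine ⟨⟨(p.1.1 ∪ S1, p.1.2 ∪ S2), hdis, hno⟩, B2, ⟨Set.subset_union_left,
    Set.subset_union_left⟩, k1.trans h1, k2, ?_⟩
  intro H hH hHi hWi hpos
  obtain ⟨t, ht1, ht2⟩ := h5 H (hH.trans k1) hHi hWi hpos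
  obtain ⟨t', ht1', ht2'⟩ := k5 H hH hHi hWi hpos
  exact ⟨⟨t, ht1, Or.inr ht2⟩, ⟨t', ht1', Or.inr ht2'⟩⟩

/-- The combinatorial core: for countably many open set-valued maps there are a two-colouring of
the positive integers and an infinite set `Y` such that no infinite subset of `Y` is sent by any
of the maps to an infinite set of positive integers whose finite sums have one colour. -/
theorem core (W : ℕ → Set ℕ → Set ℕ) (hW : ∀ i, OpenMap (W i)) :
    ∃ (c : ℕ → Prop) (Y : Set ℕ), Y.Infinite ∧ ∀ i, ∀ H ⊆ Y, H.Infinite →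
      (W i H).Infinite → (∀ x ∈ W i H, 0 < x) →
        (∃ t ∈ fsum (W i H), c t) ∧ (∃ t ∈ fsum (W i H), ¬ c t) := by
  classical
  have hKmono : ∀ (p q : St) (V : Set ℕ → Set ℕ) (s : Finset ℕ) (A B : Set ℕ), Killed p V s A →
      St.le p q → B ⊆ A → Killed q V s B := by
    intro p q V s A B h hle hB H hH hHi hWi hpos
    obtain ⟨⟨t, h1, h2⟩, ⟨t', h3, h4⟩⟩ := h H (hH.trans hB) hHi hWi hpos
    exact ⟨⟨t, h1, hle.1 h2⟩, ⟨t', h3, hle.2 h4⟩⟩
  have hrefl : ∀ p, St.le p p := fun p => ⟨subset_rfl, subset_rfl⟩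
  have htrans : ∀ p q r, St.le p q → St.le q r → St.le p r :=
    fun p q r h h' => ⟨h.1.trans h'.1, h.2.trans h'.2⟩
  obtain ⟨x, Y, _, hx, _, hYi, hY⟩ := fusion St.le hrefl htrans
    (fun n p A => ∀ q ∈ Finset.range (n + 1) ×ˢ (Finset.range (n + 1)).powerset,
      Killed p (W q.1) q.2 A) Set.univ Set.infinite_univ
    (fun n p q A B h hle hB r hr => hKmono _ _ _ _ _ _ (h r hr) hle hB)
    (fun n p A hA hAi => dense_finset St.le hrefl htrans
      (fun (r : ℕ × Finset ℕ) p A => Killed p (W r.1) r.2 A) Set.univ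
      (fun r p q A B h hle hB => hKmono _ _ _ _ _ _ h hle hB) _
      (fun r _ p A _ hAi => fullStep (W r.1) (hW r.1) r.2 p A hAi) p A hA hAi)
    ⟨(∅, ∅), by simp, by simpa using NoFS.empty⟩
  refine ⟨fun t => ∃ i, t ∈ (x i).1.1, Y, hYi, ?_⟩
  intro i H hH hHi hWi hpos
  obtain ⟨n, hnH, hin⟩ := hHi.exists_gt i
  obtain ⟨j, hj⟩ := hY n (hH hnH)
  let s : Finset ℕ := (Finset.range (n + 1)).filter (· ∈ H)
  have hs : ∀ y, y ∈ s ↔ y ≤ n ∧ y ∈ H := by
    intro y
    simp [s]
  have hHs : H = ↑s ∪ above H n := by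
    ext y
    constructor
    · intro hy
      rcases le_or_gt y n with h | h
      · exact Or.inl ((hs y).2 ⟨h, hy⟩)
      · exact Or.inr ⟨hy, h⟩
    · rintro (hy | hy)
      · exact ((hs y).1 hy).2
      · exact hy.1
  have hk := hj (i, s) (by
    rw [Finset.mem_product]
    constructor
    · simp only [Finset.mem_range]
      omega
    · rw [Finset.mem_powerset]
      exact Finset.filter_subset _ _) (above H n) (above_mono hH n) (above_infinite hHi n)
  simp only [← hHs] at hk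
  obtain ⟨⟨t, h1, h2⟩, ⟨t', h3, h4⟩⟩ := hk hWi hpos
  refine ⟨⟨t, h1, j, h2⟩, ⟨t', h3, ?_⟩⟩
  rintro ⟨l, hl⟩
  have e1 := (hx l (max l j) (le_max_left _ _)).1 hl
  have e2 := (hx j (max l j) (le_max_right _ _)).2 h4
  exact Set.disjoint_left.1 (x (max l j)).2.1 e1 e2

/-! ### Oracle computations -/

/-- Codes for oracle computations. -/
inductive OCode : Type
  | zero : OCode
  | succ : OCode
  | left : OCode
  | right : OCode
  | oracle : OCode
  | pair : OCode → OCode → OCode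
  | comp : OCode → OCode → OCode
  | prec : OCode → OCode → OCode
  | rfind : OCode → OCode
  deriving Countable

/-- Evaluation of a code with oracle `g`. -/
def oeval (g : ℕ →. ℕ) : OCode → ℕ →. ℕ
  | OCode.zero => fun _ => 0
  | OCode.succ => Nat.succ
  | OCode.left => fun n => (Nat.unpair n).1
  | OCode.right => fun n => (Nat.unpair n).2
  | OCode.oracle => g
  | OCode.pair f h => fun n => (Nat.pair <$> oeval g f n <*> oeval g h n)
  | OCode.comp f h => fun n => oeval g h n >>= oeval g f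
  | OCode.prec f h => fun p =>
        let (a, n) := Nat.unpair p
        n.rec (oeval g f a) fun y IH => do
          let i ← IH
          oeval g h (Nat.pair a (Nat.pair y i))
  | OCode.rfind f => fun a => Nat.rfind fun n => (fun m => m = 0) <$> oeval g f (Nat.pair a n)

theorem exists_code {g f : ℕ →. ℕ} (h : Nat.RecursiveIn {g} f) : ∃ c, oeval g c = f := by
  induction h with
  | zero => exact ⟨OCode.zero, rfl⟩
  | succ => exact ⟨OCode.succ, rfl⟩
  | left => exact ⟨OCode.left, rfl⟩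
  | right => exact ⟨OCode.right, rfl⟩
  | oracle g' hg' =>
    rw [Set.mem_singleton_iff] at hg'
    subst hg'
    exact ⟨OCode.oracle, rfl⟩
  | pair _ _ ih1 ih2 =>
    obtain ⟨c1, rfl⟩ := ih1
    obtain ⟨c2, rfl⟩ := ih2
    exact ⟨OCode.pair c1 c2, rfl⟩
  | comp _ _ ih1 ih2 =>
    obtain ⟨c1, rfl⟩ := ih1
    obtain ⟨c2, rfl⟩ := ih2
    exact ⟨OCode.comp c1 c2, rfl⟩
  | prec _ _ ih1 ih2 =>
    obtain ⟨c1, rfl⟩ := ih1
    obtain ⟨c2, rfl⟩ := ih2
    exact ⟨OCode.prec c1 c2, rfl⟩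
  | rfind _ ih =>
    obtain ⟨c, rfl⟩ := ih
    exact ⟨OCode.rfind c, rfl⟩

/-- The characteristic function of a set, as an oracle. -/
noncomputable def orc (H : Set ℕ) : ℕ →. ℕ := by
  classical
  exact PFun.lift (fun n => (decide (n ∈ H)).toNat)

/-- Continuity of oracle computations. -/
theorem oeval_cont (c : OCode) : ∀ (H : Set ℕ) (n y : ℕ), y ∈ oeval (orc H) c n →
    ∃ k, ∀ H', agree k H H' → y ∈ oeval (orc H') c n := by
  induction c with
  | zero => exact fun H n y h => ⟨0, fun _ _ => h⟩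
  | succ => exact fun H n y h => ⟨0, fun _ _ => h⟩
  | left => exact fun H n y h => ⟨0, fun _ _ => h⟩
  | right => exact fun H n y h => ⟨0, fun _ _ => h⟩
  | oracle =>
    intro H n y h
    refine ⟨n + 1, fun H' hag => ?_⟩
    have h1 := hag n (Nat.lt_succ_self n)
    have h2 : y ∈ orc H n := h
    change y ∈ orc H' n
    have h3 : orc H' n = orc H n := by
      have h4 : (fun n => (@decide (n ∈ H') (Classical.propDecidable _)).toNat) n =
          (fun n => (@decide (n ∈ H) (Classical.propDecidable _)).toNat) n := by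
        by_cases hn : n ∈ H
        · have hn' : n ∈ H' := h1.2 hn
          simp [hn, hn']
        · have hn' : n ∉ H' := fun h => hn (h1.1 h)
          simp [hn, hn']
      exact congrArg Part.some h4
    rw [h3]
    exact h2
  | pair f g ihf ihg =>
    intro H n y h
    have h' : y ∈ (Part.map Nat.pair (oeval (orc H) f n)).bind
        (fun q => Part.map q (oeval (orc H) g n)) := h
    obtain ⟨a, ha, hy⟩ := Part.mem_bind_iff.1 h'
    obtain ⟨b, hb, rfl⟩ := (Part.mem_map_iff _).1 ha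
    obtain ⟨d, hd, rfl⟩ := (Part.mem_map_iff _).1 hy
    obtain ⟨k1, hk1⟩ := ihf H n b hb
    obtain ⟨k2, hk2⟩ := ihg H n d hd
    refine ⟨max k1 k2, fun H' hag => ?_⟩
    change Nat.pair b d ∈ (Part.map Nat.pair (oeval (orc H') f n)).bind
        (fun q => Part.map q (oeval (orc H') g n))
    exact Part.mem_bind_iff.2 ⟨Nat.pair b, Part.mem_map _ (hk1 H' (hag.mono (le_max_left _ _))),
      Part.mem_map _ (hk2 H' (hag.mono (le_max_right _ _)))⟩
  | comp f g ihf ihg =>
    intro H n y h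
    have h' : y ∈ (oeval (orc H) g n).bind (oeval (orc H) f) := h
    obtain ⟨b, hb, hy⟩ := Part.mem_bind_iff.1 h'
    obtain ⟨k1, hk1⟩ := ihg H n b hb
    obtain ⟨k2, hk2⟩ := ihf H b y hy
    refine ⟨max k1 k2, fun H' hag => ?_⟩
    change y ∈ (oeval (orc H') g n).bind (oeval (orc H') f)
    exact Part.mem_bind_iff.2
      ⟨b, hk1 H' (hag.mono (le_max_left _ _)), hk2 H' (hag.mono (le_max_right _ _))⟩
  | prec f g ihf ihg =>
    intro H p
    have key : ∀ (a m y : ℕ),
        y ∈ (Nat.rec (oeval (orc H) f a) (fun y IH => IH.bind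
          (fun i => oeval (orc H) g (Nat.pair a (Nat.pair y i)))) m : Part ℕ) →
        ∃ k, ∀ H', agree k H H' →
          y ∈ (Nat.rec (oeval (orc H') f a) (fun y IH => IH.bind
            (fun i => oeval (orc H') g (Nat.pair a (Nat.pair y i)))) m : Part ℕ) := by
      intro a m
      induction m with
      | zero => exact fun y h => ihf H a y h
      | succ m ih =>
        intro y h
        obtain ⟨i, hi, hy⟩ := Part.mem_bind_iff.1 h
        obtain ⟨k1, hk1⟩ := ih i hi
        obtain ⟨k2, hk2⟩ := ihg H _ y hy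
        refine ⟨max k1 k2, fun H' hag => ?_⟩
        exact Part.mem_bind_iff.2
          ⟨i, hk1 H' (hag.mono (le_max_left _ _)), hk2 H' (hag.mono (le_max_right _ _))⟩
    exact fun y h => key (Nat.unpair p).1 (Nat.unpair p).2 y h
  | rfind f ih =>
    intro H n y h
    have h' : y ∈ Nat.rfind (fun m => Part.map (fun m => decide (m = 0))
      (oeval (orc H) f (Nat.pair n m))) := h
    obtain ⟨h1, h2⟩ := Nat.mem_rfind.1 h'
    obtain ⟨b, hb, hb0⟩ := (Part.mem_map_iff _).1 h1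
    obtain ⟨k1, hk1⟩ := ih H _ b hb
    have h3 : ∀ m < y, ∃ k, ∀ H', agree k H H' →
        false ∈ Part.map (fun m => decide (m = 0)) (oeval (orc H') f (Nat.pair n m)) := by
      intro m hm
      obtain ⟨d, hd, hd0⟩ := (Part.mem_map_iff _).1 (h2 hm)
      obtain ⟨k, hk⟩ := ih H _ d hd
      exact ⟨k, fun H' hag => (Part.mem_map_iff _).2 ⟨d, hk H' hag, hd0⟩⟩
    choose! kk hkk using h3
    refine ⟨max k1 ((Finset.range y).sup kk), fun H' hag => ?_⟩
    change y ∈ Nat.rfind (fun m => Part.map (fun m => decide (m = 0))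
      (oeval (orc H') f (Nat.pair n m)))
    refine Nat.mem_rfind.2 ⟨(Part.mem_map_iff _).2
      ⟨b, hk1 H' (hag.mono (le_max_left _ _)), hb0⟩, ?_⟩
    intro m hm
    exact hkk m hm H' (hag.mono
      ((Finset.le_sup (f := kk) (Finset.mem_range.2 hm)).trans (le_max_right _ _)))

/-- The set computed by the code `c` with oracle `H`. -/
def outSet (c : OCode) (H : Set ℕ) : Set ℕ := {x | 1 ∈ oeval (orc H) c x}

lemma openMap_outSet (c : OCode) : OpenMap (outSet c) := by
  intro H x hx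
  exact oeval_cont c H x 1 hx

/-! ### The theorem -/

/-- `s` is exactly large and an initial segment of `K`, and has colour `true`. -/
def initCol (d : ℕ → Bool) (K : Set ℕ) (s : Finset ℕ) : Prop :=
  (∃ l, ∀ x, x ∈ s ↔ x ∈ K ∧ x < l) ∧ (∃ m ∈ s, (∀ i ∈ s, m ≤ i) ∧ s.card = m + 1) ∧
    d (∑ i ∈ s, 2 ^ i) = true

/-- The negation of the preceding statement: Every finite coloring c of the naturals computes a 2-coloring d of exactly ω-large finite sets such that every infinite d-homogeneous set computes an infinite set of positive integers whose nonempty finite sums are all c-monochromatic. -/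
theorem result :
    ¬ (∀ c : ℕ → ℕ, (∃ k : ℕ, ∀ n, c n < k) →
    ∃ d : ℕ → Bool,
      TuringReducible (PFun.lift (fun n => (d n).toNat)) (PFun.lift c) ∧
      ∀ h : ℕ → Bool,
        (Set.Infinite {n : ℕ | h n = true} ∧
          ∃ b : Bool, ∀ s : Finset ℕ, (∀ i ∈ s, h i = true) →
            (∃ m ∈ s, (∀ i ∈ s, m ≤ i) ∧ s.card = m + 1) →
            d (∑ i ∈ s, 2 ^ i) = b) →
        ∃ g : ℕ → Bool,
          TuringReducible (PFun.lift (fun n => (g n).toNat))
            (PFun.lift (fun n => (h n).toNat)) ∧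
          Set.Infinite {n : ℕ | g n = true} ∧
          (∀ i, g i = true → 0 < i) ∧
          ∃ b : ℕ, ∀ s : Finset ℕ, s.Nonempty → (∀ i ∈ s, g i = true) →
            c (∑ i ∈ s, i) = b) := by
  classical
  intro hmain
  have : Nonempty OCode := ⟨OCode.zero⟩
  obtain ⟨code, hcode⟩ := exists_surjective_nat OCode
  obtain ⟨c, Y, hYi, hY⟩ := core (fun i => outSet (code i)) (fun i => openMap_outSet _)
  obtain ⟨d, _, hd⟩ := hmain (fun n => if c n then 1 else 0)
    ⟨2, fun n => by by_cases h : c n <;> simp [h]⟩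
  -- a homogeneous set inside `Y`
  obtain ⟨B, hBY, hBi, hB⟩ := openRamsey (fun K => ∃ s, initCol d K s) Y hYi (by
    rintro K _ _ ⟨s, ⟨l, hl⟩, h2, h3⟩
    refine ⟨l, fun K' _ _ hag => ⟨s, ⟨l, fun x => ?_⟩, h2, h3⟩⟩
    rw [hl x]
    constructor
    · rintro ⟨h4, h5⟩
      exact ⟨(hag x h5).2 h4, h5⟩
    · rintro ⟨h4, h5⟩
      exact ⟨(hag x h5).1 h4, h5⟩)
  have hhom : ∃ b : Bool, ∀ s : Finset ℕ, (∀ i ∈ s, i ∈ B) →
      (∃ m ∈ s, (∀ i ∈ s, m ≤ i) ∧ s.card = m + 1) → d (∑ i ∈ s, 2 ^ i) = b := by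
    have hext : ∀ s : Finset ℕ, (∀ i ∈ s, i ∈ B) →
        ∃ K ⊆ B, K.Infinite ∧ ∃ l, ∀ x, x ∈ s ↔ x ∈ K ∧ x < l := by
      intro s hs
      refine ⟨↑s ∪ above B (s.sup id), Set.union_subset (fun x hx => hs x hx)
        (above_subset _ _), (above_infinite hBi _).mono Set.subset_union_right,
        s.sup id + 1, fun x => ?_⟩
      constructor
      · intro hx
        exact ⟨Or.inl hx, Nat.lt_succ_of_le (Finset.le_sup (f := id) hx)⟩
      · rintro ⟨hx | hx, hlt⟩
        · exact hx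
        · have := hx.2
          omega
    rcases hB with hB | hB
    · refine ⟨true, fun s hs hm => ?_⟩
      obtain ⟨K, hKB, hKi, l, hl⟩ := hext s hs
      obtain ⟨s', ⟨l', hl'⟩, ⟨m', hm's, hm'min, hm'c⟩, hcol⟩ := hB K hKB hKi
      obtain ⟨m, hms, hmin, hmc⟩ := hm
      -- the two initial segments agree
      have hmm : m = m' := by
        rcases le_total l l' with hle | hle
        · have hss : s ⊆ s' := by
            intro x hx
            have := (hl x).1 hx
            exact (hl' x).2 ⟨this.1, lt_of_lt_of_le this.2 hle⟩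
          have h1 : m' ≤ m := hm'min m (hss hms)
          have h2 : m < l := ((hl m).1 hms).2
          have h3 : m' ∈ s := (hl m').2 ⟨((hl' m').1 hm's).1, lt_of_le_of_lt h1 h2⟩
          exact le_antisymm (hmin m' h3) h1
        · have hss : s' ⊆ s := by
            intro x hx
            have := (hl' x).1 hx
            exact (hl x).2 ⟨this.1, lt_of_lt_of_le this.2 hle⟩
          have h1 : m ≤ m' := hmin m' (hss hm's)
          have h2 : m' < l' := ((hl' m').1 hm's).2
          have h3 : m ∈ s' := (hl' m).2 ⟨((hl m).1 hms).1, lt_of_le_of_lt h1 h2⟩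
          exact le_antisymm h1 (hm'min m h3)
      have hss : s = s' := by
        rcases le_total l l' with hle | hle
        · apply Finset.eq_of_subset_of_card_le
          · intro x hx
            have := (hl x).1 hx
            exact (hl' x).2 ⟨this.1, lt_of_lt_of_le this.2 hle⟩
          · rw [hmc, hm'c, hmm]
        · symm
          apply Finset.eq_of_subset_of_card_le
          · intro x hx
            have := (hl' x).1 hx
            exact (hl x).2 ⟨this.1, lt_of_lt_of_le this.2 hle⟩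
          · rw [hmc, hm'c, hmm]
      rw [hss]
      exact hcol
    · refine ⟨false, fun s hs hm => ?_⟩
      obtain ⟨K, hKB, hKi, hl⟩ := hext s hs
      by_contra hcon
      rw [Bool.not_eq_false] at hcon
      exact hB K hKB hKi ⟨s, hl, hm, hcon⟩
  obtain ⟨b, hb⟩ := hhom
  obtain ⟨g, hg, hgi, hgpos, b', hb'⟩ := hd (fun n => decide (n ∈ B))
    ⟨by simpa using hBi, b, fun s hs hm => hb s (fun i hi => by simpa using hs i hi) hm⟩
  rw [TuringReducible, RecursiveIn.iff_nat] at hg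
  obtain ⟨cd, hcd⟩ := exists_code hg
  obtain ⟨i, hi⟩ := hcode cd
  have horc : orc B = PFun.lift (fun n => (decide (n ∈ B)).toNat) := by
    unfold orc
    congr
  have hout : outSet (code i) B = {x | g x = true} := by
    ext x
    rw [hi]
    simp only [outSet, horc, hcd]
    by_cases hx : g x = true
    · simp [hx]
    · simp [hx]
  have hfin := hY i B hBY hBi (by simp only [hout]; exact hgi)
    (by simp only [hout]; exact fun x hx => hgpos x hx)
  simp only [hout] at hfin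
  obtain ⟨⟨t, ⟨v, hv1, hv2, hv3⟩, ht⟩, ⟨t', ⟨v', hv1', hv2', hv3'⟩, ht'⟩⟩ := hfin
  have e1 := hb' v hv1 (fun i hi => hv2 hi)
  have e2 := hb' v' hv1' (fun i hi => hv2' hi)
  rw [hv3] at e1
  rw [hv3'] at e2
  simp only [ht, if_true] at e1
  simp only [ht', if_false] at e2
  omega

end Pool.Agent.S14980
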