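import Pool.Statements.S14996
import Pool.Agent.KAP.FIN

set_option autoImplicit false
open Classical
open Pool Pool.MP_854e93_lc

namespace Pool.Agent.S14996

/-- The negation of the preceding statement: For every total function x: if every function Turing above x computes a strictly weaker b with no Turing degree strictly between them, then x computes the ω-jump of the empty set (the uniform join of all finite jumps). -/
theorem result :
    ¬ (∀ x : ℕ → ℕ,
    (∀ a : ℕ → ℕ, TuringReducible (PFun.lift x) (PFun.lift a) →
      ∃ b : ℕ → ℕ, TuringReducible (PFun.lift b) (PFun.lift a) ∧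
        ¬ TuringReducible (PFun.lift a) (PFun.lift b) ∧
        ∀ c : ℕ → ℕ, TuringReducible (PFun.lift b) (PFun.lift c) →
          TuringReducible (PFun.lift c) (PFun.lift a) →
          (TuringReducible (PFun.lift c) (PFun.lift b) ∨
            TuringReducible (PFun.lift a) (PFun.lift c))) →
    TuringReducible
      (PFun.lift (fun m : ℕ =>
        (if (Nat.rec (motive := fun _ => ℕ → Prop) (fun _ => False)
              (fun _ (A : ℕ → Prop) (e : ℕ) => ∃ k : ℕ,
                (Nat.Partrec.Code.eval (Denumerable.ofNat Nat.Partrec.Code e)
                  (Nat.pair e (Encodable.encode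
                    ((List.range k).map (fun i => if A i then (1 : ℕ) else 0))))).Dom)
              m.unpair.1 : ℕ → Prop) m.unpair.2
          then (1 : ℕ) else 0)))
      (PFun.lift x)) := by
  intro h
  obtain ⟨x, h1, h2⟩ := Pool.Agent.KAP.main_fun
  refine h2 ?_
  have h3 := h x h1
  have h4 : (fun m : ℕ => if Pool.Agent.KAP.Zom m then (1 : ℕ) else 0) = (fun m : ℕ =>
        (if (Nat.rec (motive := fun _ => ℕ → Prop) (fun _ => False)
              (fun _ (A : ℕ → Prop) (e : ℕ) => ∃ k : ℕ,
                (Nat.Partrec.Code.eval (Denumerable.ofNat Nat.Partrec.Code e)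
                  (Nat.pair e (Encodable.encode
                    ((List.range k).map (fun i => if A i then (1 : ℕ) else 0))))).Dom)
              m.unpair.1 : ℕ → Prop) m.unpair.2
          then (1 : ℕ) else 0)) := by
    funext m
    simp only [Pool.Agent.KAP.Zom, Pool.Agent.KAP.Zs, Pool.Agent.KAP.Zj, decide_eq_true_eq]
  rw [h4]
  exact h3

end Pool.Agent.S14996
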