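import Pool.Statements.S15073
import Pool.Agent.IC4.Rem
import Pool.Agent.IC4.Conv

set_option autoImplicit false
open Pool Pool.MP_9370c3_lc

namespace Pool.Agent.S15073

/-- There are c>0 and C such that every n-vertex graph needing at least εn² edge edits to become induced-C4-free contains at least c·ε^C·n⁴ induced labelled copies of C4, i.e. induced C4-freeness is easily testable. -/
theorem result :
    ∃ c : ℝ, 0 < c ∧ ∃ C : ℕ, ∀ ε : ℝ, 0 < ε → ∀ n : ℕ, ∀ G : SimpleGraph (Fin n),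
      (∀ G' : SimpleGraph (Fin n),
          IsEmpty (SimpleGraph.Embedding (SimpleGraph.cycleGraph 4) G') →
          ε * (n : ℝ) ^ 2 ≤ ((symmDiff G.edgeSet G'.edgeSet).ncard : ℝ)) →
      c * ε ^ C * (n : ℝ) ^ 4 ≤
        (Nat.card (SimpleGraph.Embedding (SimpleGraph.cycleGraph 4) G) : ℝ) := by
  obtain ⟨C, hC⟩ := Pool.Agent.IC4.removal
  refine ⟨(1 / 2) ^ (C + 1), by positivity, C + 1, ?_⟩
  intro ε hε n G hG
  by_contra hcon
  push Not at hcon
  rcases Nat.eq_zero_or_pos n with hn | hn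
  · subst hn
    have h0 : (0 : ℝ) ≤ (Nat.card (SimpleGraph.Embedding (SimpleGraph.cycleGraph 4) G) : ℝ) := by
      positivity
    have h1 : (1 / 2 : ℝ) ^ (C + 1) * ε ^ (C + 1) * ((0 : ℕ) : ℝ) ^ 4 = 0 := by simp
    rw [h1] at hcon
    linarith
  have hn' : (0 : ℝ) < (n : ℝ) := by exact_mod_cast hn
  -- the pair x = min (ε/2) (1/2)
  by_cases he : ε ≤ 1
  · have hx0 : 0 < ε / 2 := by linarith
    have hx1 : ε / 2 ≤ 1 / 2 := by linarith
    have hd : Pool.Agent.IC4.dK2 (Pool.Agent.IC4.crel G) ≤ (ε / 2) ^ C := by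
      have h1 := Pool.Agent.IC4.conv1 G
      have h2 : Pool.Agent.IC4.dK2 (Pool.Agent.IC4.crel G) * (n : ℝ) ^ 4 <
          (ε / 2) ^ (C + 1) * (n : ℝ) ^ 4 := by
        calc _ ≤ _ := h1
          _ < _ := hcon
          _ = _ := by rw [← mul_pow]; ring_nf
      have h3 := lt_of_mul_lt_mul_right h2 (by positivity)
      refine h3.le.trans ?_
      exact pow_le_pow_of_le_one hx0.le (by linarith) (Nat.le_succ C)
    obtain ⟨q, hq, hqi, hqf, hqd⟩ := hC (ε / 2) hx0 hx1 (Fin n) (Pool.Agent.IC4.crel G)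
      (fun u v h => ⟨h.1.symm, fun h' => h.2 h'.symm⟩) (fun u h => h.1 rfl) hd
    have h4 := hG (Pool.Agent.IC4.cgr q hq) (Pool.Agent.IC4.conv2 q hq hqf)
    have h5 := Pool.Agent.IC4.conv3 G q hq hqi
    have h6 : ε * (n : ℝ) ^ 2 ≤ ε / 2 * (n : ℝ) ^ 2 :=
      (h4.trans h5).trans (mul_le_mul_of_nonneg_right hqd (by positivity))
    have h7 : 0 < (n : ℝ) ^ 2 := by positivity
    nlinarith
  · push Not at he
    -- compare with the complement of the empty relation, i.e. the complete graph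
    have hq : ∀ u v : Fin n, (fun _ _ : Fin n => False) u v → (fun _ _ : Fin n => False) v u :=
      fun _ _ h => h
    have h4 := hG (Pool.Agent.IC4.cgr (fun _ _ => False) hq)
      (Pool.Agent.IC4.conv2 _ hq (fun a b c d h => h.1))
    have h5 := Pool.Agent.IC4.conv3 G (fun _ _ => False) hq (fun _ h => h)
    have h6 : Pool.Agent.IC4.dxor (Pool.Agent.IC4.crel G) (fun _ _ => False) ≤ 1 :=
      Pool.Agent.IC4.den_le_one _
    have h7 : 0 < (n : ℝ) ^ 2 := by positivity
    have h8 : ε * (n : ℝ) ^ 2 ≤ 1 * (n : ℝ) ^ 2 :=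
      (h4.trans h5).trans (mul_le_mul_of_nonneg_right h6 (by positivity))
    nlinarith

end Pool.Agent.S15073
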