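import Pool.Statements.S15883
import Pool.Agent.LR4.Final
import Pool.Agent.LR5.Data2

set_option autoImplicit false
open Pool Pool.MP_03e4a4_nt

namespace Pool.Agent.S15883

/-- For every n and every n strictly increasing positive integer speeds all at most 2n, some real time t puts every t·vᵢ at distance at least 1/(n+1) from every integer. -/
theorem result :
    ∀ n : ℕ, ∀ v : Fin n → ℕ, StrictMono v → (∀ i, 0 < v i) → (∀ i, v i ≤ 2 * n) →
      ∃ t : ℝ, ∀ i, ∀ k : ℤ, (1 : ℝ) / ((n : ℝ) + 1) ≤ |t * (v i : ℝ) - (k : ℝ)| := by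
  exact Pool.Agent.LR4.result_of Pool.Agent.LR5.tabAll2

end Pool.Agent.S15883
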