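import Pool.Statements.S16447
import Pool.Agent.FHE.MAI

set_option autoImplicit false
open MeasureTheory Filter Topology ArithmeticFunction
open Pool Pool.MP_2e860a_nt

namespace Pool.Agent.S16447

/-- For a continuous zero-entropy map of a compact metric space, uniquely ergodic for every power, with invariant measure μ, and any complex multiplicative g, the log-average of 1_{g(n)=c}(f(T^n x) − ∫f dμ) tends to 0. -/
theorem result :
    ∀ (X : Type) [MetricSpace X] [CompactSpace X] [MeasurableSpace X] [BorelSpace X]
      (T : X → X), Continuous T → Dynamics.coverEntropy T Set.univ = 0 →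
      ∀ μ : Measure X, IsProbabilityMeasure μ → MeasurePreserving T μ μ →
      (∀ k : ℕ, 1 ≤ k → ∀ ν : Measure X, IsProbabilityMeasure ν →
          MeasurePreserving (T^[k]) ν ν → ν = μ) →
      ∀ g : ArithmeticFunction ℂ, g.IsMultiplicative →
      ∀ (f : C(X, ℂ)) (x : X) (c : ℂ),
        Tendsto
          (fun N : ℕ => ((1 : ℂ) / ((Real.log (N : ℝ) : ℝ) : ℂ)) *
            ∑ n ∈ Finset.Icc 1 N,
              ((1 : ℂ) / (n : ℂ)) * (if g n = c then (1 : ℂ) else 0) *
                (f (T^[n] x) - ∫ y, f y ∂μ))
          atTop (𝓝 0) :=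
  FHE.main

end Pool.Agent.S16447
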