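import Pool.Statements.S18238
import Pool.Agent.Helper53.PZ10

set_option autoImplicit false
open Pool Pool.MP_b6bacc_nt

namespace Pool.Agent.S18238

open Pool.Agent.Helper53.PZ in
/-- The solutions of the special equation, as a product. -/
noncomputable def solEquiv (K : Type*) [Field K] [CharP K 2] [IsAlgClosed K] (a b c k : ℕ) :
    {x : Fin 4 → K // (∀ i, x i ^ ((2 ^ 1) ^ ((![a * b * c, a * b, a * c, b * c] : Fin 4 → ℕ) i * k))
        = x i) ∧ x 0 ^ 2 + x 0 + x 1 * x 2 * x 3 = 0} ≃
    {x : (G K (k * (a * b)) × G K (k * (a * c))) × (G K (k * (b * c)) × G K (k * (b * c) * a)) //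
        (x.2.2 : K) ^ 2 + x.2.2 + (x.1.1 : K) * x.1.2 * x.2.1 = 0} where
  toFun x := ⟨((⟨x.1 1, by
      have := x.2.1 1
      rw [mem_G]
      simpa [mul_comm k] using this⟩, ⟨x.1 2, by
      have := x.2.1 2
      rw [mem_G]
      simpa [mul_comm k] using this⟩), (⟨x.1 3, by
      have := x.2.1 3
      rw [mem_G]
      simpa [mul_comm k] using this⟩, ⟨x.1 0, by
      have := x.2.1 0
      rw [mem_G]
      have e : k * (b * c) * a = a * b * c * k := by ring
      rw [e]
      simpa using this⟩)), x.2.2⟩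
  invFun y := ⟨![(y.1.2.2 : K), (y.1.1.1 : K), (y.1.1.2 : K), (y.1.2.1 : K)], by
    refine ⟨?_, ?_⟩
    · obtain ⟨⟨⟨⟨y1, h1⟩, ⟨y2, h2⟩⟩, ⟨⟨y3, h3⟩, ⟨y0, h0⟩⟩⟩, hy⟩ := y
      rw [mem_G] at h0 h1 h2 h3
      have e : k * (b * c) * a = a * b * c * k := by ring
      rw [e] at h0
      rw [mul_comm k] at h1 h2 h3
      intro i
      fin_cases i
      · simpa using h0
      · simpa using h1
      · simpa using h2
      · simpa using h3
    · exact y.2⟩
  left_inv x := by
    apply Subtype.ext
    funext i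
    fin_cases i <;> rfl
  right_inv y := rfl

/-- The negation of the preceding statement: For fixed n and m there is C such that every partial zeta function of a degree ≤ m polynomial in n variables over any F_q, with any d_1..d_n, has total degree at most (C·lcm(d_i))^C. -/
theorem result :
    ¬ (∀ (n m : ℕ), ∃ C : ℕ, ∀ (p : ℕ) [Fact p.Prime] (r : ℕ), 0 < r →
    ∀ (d : Fin n → ℕ), (∀ i, 0 < d i) →
    ∀ (f : MvPolynomial (Fin n) (AlgebraicClosure (ZMod p))),
      (∀ s, (f.coeff s) ^ (p ^ r) = f.coeff s) → f.totalDegree ≤ m →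
      ∃ A B : Multiset ℂ,
        Multiset.card A + Multiset.card B ≤ (C * Finset.univ.lcm d) ^ C ∧
        ∀ k : ℕ, 0 < k →
          ((Set.ncard {x : Fin n → AlgebraicClosure (ZMod p) |
              (∀ i, x i ^ ((p ^ r) ^ (d i * k)) = x i) ∧ MvPolynomial.eval x f = 0} : ℕ) : ℂ)
            = (B.map (fun b => b ^ k)).sum - (A.map (fun a => a ^ k)).sum) := by
  intro H
  obtain ⟨C, hC⟩ := H 4 3
  obtain ⟨a, ha, hlarge⟩ := Pool.Agent.Helper53.PZ.exists_large C
  set b := a ^ 2 + 1 with hb
  set c := a * b + 1 with hc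
  have hb0 : 0 < b := by positivity
  have hc0 : 0 < c := by positivity
  have hab : a.Coprime b := by
    rw [hb, pow_two]
    simp
  have hac : a.Coprime c := by
    rw [hc]
    simp
  have hbc : b.Coprime c := by
    rw [hc]
    simp
  have : CharP (AlgebraicClosure (ZMod 2)) 2 := inferInstance
  set f : MvPolynomial (Fin 4) (AlgebraicClosure (ZMod 2)) :=
    MvPolynomial.X 0 ^ 2 + MvPolynomial.X 0 +
      MvPolynomial.X 1 * MvPolynomial.X 2 * MvPolynomial.X 3 with hf
  have hcoeff : ∀ s, (f.coeff s) ^ (2 ^ 1) = f.coeff s := by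
    have h1 : MvPolynomial.map (frobenius (AlgebraicClosure (ZMod 2)) 2) f = f := by
      rw [hf]
      simp
    intro s
    conv_rhs => rw [← h1]
    rw [MvPolynomial.coeff_map, frobenius_def, pow_one]
  have hdeg : f.totalDegree ≤ 3 := by
    rw [hf]
    refine (MvPolynomial.totalDegree_add _ _).trans (max_le ((MvPolynomial.totalDegree_add _ _).trans
      (max_le ?_ ?_)) ?_)
    · refine (MvPolynomial.totalDegree_pow _ _).trans ?_
      rw [MvPolynomial.totalDegree_X]
      norm_num
    · rw [MvPolynomial.totalDegree_X]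
      norm_num
    · refine (MvPolynomial.totalDegree_mul _ _).trans ?_
      have := MvPolynomial.totalDegree_mul
        (MvPolynomial.X 1 : MvPolynomial (Fin 4) (AlgebraicClosure (ZMod 2))) (MvPolynomial.X 2)
      rw [MvPolynomial.totalDegree_X, MvPolynomial.totalDegree_X] at this
      rw [MvPolynomial.totalDegree_X]
      omega
  obtain ⟨A, B, hcard, hAB⟩ := hC 2 1 one_pos ![a * b * c, a * b, a * c, b * c] (by
    intro i
    fin_cases i
    · show 0 < a * b * c
      positivity
    · show 0 < a * b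
      positivity
    · show 0 < a * c
      positivity
    · show 0 < b * c
      positivity) f hcoeff hdeg
  have hlcm : Finset.univ.lcm ![a * b * c, a * b, a * c, b * c] ≤ a * b * c := by
    apply Nat.le_of_dvd (by positivity)
    apply Finset.lcm_dvd
    intro i _
    fin_cases i
    · exact dvd_rfl
    · exact ⟨c, rfl⟩
    · exact ⟨b, by show a * b * c = a * c * b; ring⟩
    · exact ⟨a, by show a * b * c = b * c * a; ring⟩
  have hlow : 2 ^ a ≤ Multiset.card A + Multiset.card B := by
    apply Pool.Agent.Helper53.PZ.card_lower a ha A B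
    intro k hk
    rw [← hAB k hk]
    rw [← Pool.Agent.Helper53.PZ.card_count (K := AlgebraicClosure (ZMod 2)) hk ha hb0 hc0 hab hac
      hbc]
    rw [← Nat.card_congr (solEquiv (AlgebraicClosure (ZMod 2)) a b c k)]
    rw [← Nat.card_coe_set_eq]
    have : {x : Fin 4 → AlgebraicClosure (ZMod 2) |
        (∀ i, x i ^ ((2 ^ 1) ^ ((![a * b * c, a * b, a * c, b * c] : Fin 4 → ℕ) i * k)) = x i) ∧
          MvPolynomial.eval x f = 0} =
        {x : Fin 4 → AlgebraicClosure (ZMod 2) |
        (∀ i, x i ^ ((2 ^ 1) ^ ((![a * b * c, a * b, a * c, b * c] : Fin 4 → ℕ) i * k)) = x i) ∧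
          x 0 ^ 2 + x 0 + x 1 * x 2 * x 3 = 0} := by
      ext x
      simp only [hf, map_add, map_mul, map_pow, MvPolynomial.eval_X]
    rw [this]
    push_cast
    rfl
  have h1 : (C * Finset.univ.lcm ![a * b * c, a * b, a * c, b * c]) ^ C ≤
      (C * (a * b * c)) ^ C := Nat.pow_le_pow_left (Nat.mul_le_mul_left _ hlcm) _
  exact absurd (lt_of_lt_of_le hlarge (hlow.trans (hcard.trans h1))) (lt_irrefl _)

end Pool.Agent.S18238
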