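import Pool.Statements.S18255
import Pool.Agent.MM2.FINALL

set_option autoImplicit false
open Pool Pool.MP_b75ed0_nt

namespace Pool.Agent.S18255

/-- For every finite field K and extension L of degree at least 2, some α in L generates all nonzero elements as powers, and for every intermediate field M the conjugates α^(∣M∣^i), i < [L:M], are linearly independent over M. -/
theorem result :
    ∀ (K L : Type) [Field K] [Field L] [Finite K] [Finite L] [Algebra K L],
      2 ≤ Module.finrank K L →
      ∃ α : L, (∀ x : L, x ≠ 0 → ∃ k : ℕ, α ^ k = x) ∧
        ∀ M : IntermediateField K L,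
          LinearIndependent M
            (fun i : Fin (Module.finrank M L) => α ^ (Nat.card M ^ (i : ℕ))) := by
  intro K L _ _ _ _ _ hn
  obtain ⟨x, hx, hcn⟩ := Pool.Agent.MM2.fld
    (fun p n hp hn => Pool.Agent.MM2.pn_all p n hp hn) K L hn
  exact ⟨x, hx, hcn⟩

end Pool.Agent.S18255
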