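import Pool.Statements.S19155
import Pool.Agent.FPZ.T5
import Pool.Agent.FPZ.W3
import Pool.Agent.FPZ.R1Main

set_option autoImplicit false
open Pool Pool.MP_104733_pr

namespace Pool.Agent.S19155

/-- For all 0<a<b, with i.i.d. fair a-or-b edge weights on ℤ², there are ε>0 and C such that the variance of the first-passage time from 0 to v is at most C·∣v∣^(1−ε) for every nonzero v. -/
theorem result :
  ∀ a b : ℝ, 0 < a → a < b → ∃ ε : ℝ, 0 < ε ∧ ∃ C : ℝ, ∀ v : ℤ × ℤ, v ≠ 0 →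
    ProbabilityTheory.variance
      (fun ω : (ℤ × ℤ) × Fin 2 → Bool =>
        sInf {t : ℝ | ∃ (n : ℕ) (p : ℕ → ℤ × ℤ), p 0 = 0 ∧ p n = v ∧
          (∀ k < n, |(p (k+1)).1 - (p k).1| + |(p (k+1)).2 - (p k).2| = 1) ∧
          t = ∑ k ∈ Finset.range n,
            (if ω ((min (p k).1 (p (k+1)).1, min (p k).2 (p (k+1)).2),
                  (if (p k).2 = (p (k+1)).2 then (0 : Fin 2) else (1 : Fin 2))) = true
              then a else b)})
      (MeasureTheory.Measure.infinitePi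
        (fun _ : (ℤ × ℤ) × Fin 2 => (PMF.uniformOfFintype Bool).toMeasure))
    ≤ C * (Real.sqrt (((v.1 : ℝ)) ^ 2 + ((v.2 : ℝ)) ^ 2)) ^ (1 - ε) := by
  exact Pool.Agent.FPZ.s19155_of_model (Pool.Agent.FPZ.model_bound Pool.Agent.FPZ.window_claim)

end Pool.Agent.S19155
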