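import Pool.Statements.S19387
import Pool.Agent.SAWG.FIN

set_option autoImplicit false
open Pool Pool.MP_69df71_pr

namespace Pool.Agent.S19387

/-- In every connected, locally finite, vertex-transitive graph with positive Cheeger constant, the exponential growth rate of self-avoiding loops at a vertex is strictly smaller than that of self-avoiding walks from it. -/
theorem result :
  ∀ (V : Type) (G : SimpleGraph V),
    G.Connected →
    (∀ v : V, (G.neighborSet v).Finite) →
    (∀ v w : V, ∃ φ : G ≃g G, φ v = w) →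
    (∃ c : ℝ, 0 < c ∧ ∀ S : Finset V, S.Nonempty →
        c * (S.card : ℝ) ≤
          ((({p : V × V | p.1 ∈ S ∧ p.2 ∉ S ∧ G.Adj p.1 p.2} : Set (V × V)).ncard : ℕ) : ℝ)) →
    ∀ v : V, ∃ a b : ℝ, 0 ≤ a ∧ a < b ∧
      (∀ᶠ n : ℕ in Filter.atTop,
        ((({c : G.Walk v v | c.IsCycle ∧ c.length = n} : Set (G.Walk v v)).ncard : ℕ) : ℝ) ≤ a ^ n) ∧
      (∀ᶠ n : ℕ in Filter.atTop,
        b ^ n ≤ ((({p : Σ w : V, G.Walk v w | p.2.IsPath ∧ p.2.length = n} :
          Set (Σ w : V, G.Walk v w)).ncard : ℕ) : ℝ)) := by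
  intro V G hc hfin htr hche v
  exact Pool.Agent.SAWG.main G hc hfin htr hche v

end Pool.Agent.S19387
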