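import Pool.Statements.S19735
import Pool.Agent.H84.TwoPoint

set_option autoImplicit false
open Pool Pool.MP_f10e5d_pr

namespace Pool.Agent.S19735

/-- For all n and all p_i in (0,1), independent X_i equal to 0 with probability p_i and to 1/(1-p_i) otherwise satisfy P(X_1+...+X_n < n+1) ≥ 1/e, with the probability written as a finite sum over the set of nonzero X_i. -/
theorem result :
    ∀ n : ℕ, ∀ p : Fin n → ℝ, (∀ i, 0 < p i ∧ p i < 1) →
      Real.exp (-1) ≤
        ∑ S ∈ (Finset.univ : Finset (Finset (Fin n))).filter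
            (fun S => ∑ i ∈ S, 1 / (1 - p i) < (n : ℝ) + 1),
          (∏ i ∈ S, (1 - p i)) * ∏ i ∈ Sᶜ, p i := by
  intro n p hp
  have h := Pool.Agent.H84.TwoPoint.main (a := fun i => 1 / (1 - p i)) (q := fun i => 1 - p i)
    (fun i => by linarith [(hp i).2]) (fun i => by linarith [(hp i).1])
    (fun i => by
      have : 0 < 1 - p i := by linarith [(hp i).2]
      positivity)
    (fun i => by
      have : 1 - p i ≠ 0 := by linarith [(hp i).2]
      field_simp)
    (Finset.univ : Finset (Fin n))
  rw [Finset.card_univ, Fintype.card_fin] at h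
  refine le_trans h (le_of_eq ?_)
  unfold Pool.Agent.H84.TwoPoint.f Pool.Agent.H84.TwoPoint.Ex Pool.Agent.H84.TwoPoint.w
    Pool.Agent.H84.TwoPoint.ind
  rw [Finset.powerset_univ, Finset.sum_filter]
  apply Finset.sum_congr rfl
  intro S _
  rw [← Finset.compl_eq_univ_sdiff]
  simp only [sub_sub_cancel]
  split_ifs
  · rw [mul_one]
  · rw [mul_zero]

end Pool.Agent.S19735
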